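import Pool.Agent.Lib.MP_5aed36_gt.Core

open MeasureTheory Set Filter Topology Metric
open scoped ENNReal NNReal RealInnerProductSpace

namespace Pool.Agent.MCF5

variable {N : ℕ}

section
variable {f g w l : Sp N → ℝ} {c d a b R : ℝ} {K K' L : ℝ≥0}

theorem LipC.const (c : ℝ) : LipC (fun _ : Sp N => c) c :=
  ⟨⟨0, LipschitzWith.const c⟩, 0, fun _ _ => rfl⟩

theorem Data.lipC (h : Data L R c f) : LipC f c := ⟨⟨L, h.1⟩, R, h.2⟩

private theorem A1_two {Φ : ℝ → ℝ → ℝ} (hf : LipC f c) (hg : LipC g d) :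
    ∃ R : ℝ, ∀ x, R ≤ ‖x‖ → Φ (f x) (g x) = Φ c d := by
  obtain ⟨R₁, h₁⟩ := hf.2
  obtain ⟨R₂, h₂⟩ := hg.2
  exact ⟨Max.max R₁ R₂, fun x hx => by
    rw [h₁ x ((le_max_left _ _).trans hx), h₂ x ((le_max_right _ _).trans hx)]⟩

theorem LipC.add (hf : LipC f c) (hg : LipC g d) : LipC (fun x => f x + g x) (c + d) := by
  obtain ⟨K₁, h₁⟩ := hf.1
  obtain ⟨K₂, h₂⟩ := hg.1
  exact ⟨⟨_, h₁.add h₂⟩, A1_two (Φ := fun s t => s + t) hf hg⟩

theorem LipC.neg (hf : LipC f c) : LipC (fun x => -f x) (-c) := by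
  obtain ⟨K₁, h₁⟩ := hf.1
  exact ⟨⟨_, h₁.neg⟩, A1_two (Φ := fun s _ => -s) hf hf⟩

theorem LipC.sub (hf : LipC f c) (hg : LipC g d) : LipC (fun x => f x - g x) (c - d) := by
  obtain ⟨K₁, h₁⟩ := hf.1
  obtain ⟨K₂, h₂⟩ := hg.1
  exact ⟨⟨_, h₁.sub h₂⟩, A1_two (Φ := fun s t => s - t) hf hg⟩

theorem LipC.const_mul (a : ℝ) (hf : LipC f c) : LipC (fun x => a * f x) (a * c) := by
  obtain ⟨K₁, h₁⟩ := hf.1
  exact ⟨⟨_, (lipschitzWith_smul a).comp h₁⟩, A1_two (Φ := fun s _ => a * s) hf hf⟩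

theorem LipC.max (hf : LipC f c) (hg : LipC g d) :
    LipC (fun x => max (f x) (g x)) (max c d) := by
  obtain ⟨K₁, h₁⟩ := hf.1
  obtain ⟨K₂, h₂⟩ := hg.1
  exact ⟨⟨_, h₁.max h₂⟩, A1_two (Φ := fun s t => Max.max s t) hf hg⟩

theorem LipC.min (hf : LipC f c) (hg : LipC g d) :
    LipC (fun x => min (f x) (g x)) (min c d) := by
  obtain ⟨K₁, h₁⟩ := hf.1
  obtain ⟨K₂, h₂⟩ := hg.1
  exact ⟨⟨_, h₁.min h₂⟩, A1_two (Φ := fun s t => Min.min s t) hf hg⟩

theorem LipC.comp {Φ : ℝ → ℝ} (hΦ : LipschitzWith K Φ) (hf : LipC f c) :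
    LipC (fun x => Φ (f x)) (Φ c) := by
  obtain ⟨K₁, h₁⟩ := hf.1
  exact ⟨⟨_, hΦ.comp h₁⟩, A1_two (Φ := fun s _ => Φ s) hf hf⟩

theorem LipC.translate (hf : LipC f c) (z : Sp N) : LipC (fun x => f (x + z)) c := by
  obtain ⟨⟨K₁, h₁⟩, R₁, h₂⟩ := hf
  refine ⟨⟨_, h₁.comp (isometry_add_right z).lipschitz⟩, R₁ + ‖z‖, fun x hx => h₂ _ ?_⟩
  have : ‖x‖ ≤ ‖x + z‖ + ‖z‖ := by simpa using norm_sub_le (x + z) z
  linarith

theorem lipschitz_cl (a b : ℝ) : LipschitzWith 1 (cl a b) :=
  (LipschitzWith.id.min_const b).const_max a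

theorem monotone_cl (a b : ℝ) : Monotone (cl a b) := fun _ _ h =>
  max_le_max le_rfl (min_le_min h le_rfl)

theorem cl_mem (hab : a ≤ b) (s : ℝ) : a ≤ cl a b s ∧ cl a b s ≤ b :=
  ⟨le_max_left _ _, max_le hab (min_le_right _ _)⟩

theorem cl_of_le (hab : a ≤ b) {s : ℝ} (hs : s ≤ a) : cl a b s = a := by
  have _ := hab
  exact max_eq_left ((min_le_left _ _).trans hs)

theorem neg_cl (hab : a ≤ b) (s : ℝ) : -cl a b s = cl (-b) (-a) (-s) := by
  unfold cl
  simp only [max_def, min_def]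
  split_ifs <;> linarith

theorem LipC.continuous (hf : LipC f c) : Continuous f := by
  obtain ⟨K₁, h₁⟩ := hf.1
  exact h₁.continuous

theorem LipC.hasCompactSupport (hf : LipC f c) : HasCompactSupport fun x => f x - c := by
  obtain ⟨R₁, h₂⟩ := hf.2
  refine HasCompactSupport.intro (isCompact_closedBall (0 : Sp N) R₁) fun x hx => ?_
  rw [mem_closedBall_zero_iff, not_le] at hx
  rw [h₂ x hx.le, sub_self]

theorem LipC.integrable_sub (hf : LipC f c) : Integrable fun x => f x - c :=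
  (hf.continuous.sub continuous_const).integrable_of_hasCompactSupport hf.hasCompactSupport

theorem LipC.integrable_zero (hf : LipC f 0) : Integrable f := by
  simpa using hf.integrable_sub

theorem LipC.integrable_fderiv (hf : LipC f c) : Integrable fun x => ‖fderiv ℝ f x‖ := by
  obtain ⟨⟨K₁, h₁⟩, R₁, h₂⟩ := hf
  have hs : Function.support (fun x => ‖fderiv ℝ f x‖) ⊆ closedBall (0 : Sp N) R₁ := by
    intro x hx
    by_contra hx'
    rw [mem_closedBall_zero_iff, not_le] at hx'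
    have he : f =ᶠ[𝓝 x] fun _ => c := by
      filter_upwards [(isOpen_lt continuous_const continuous_norm).mem_nhds hx'] with y hy
      exact h₂ y (le_of_lt hy)
    exact hx (by simp [he.fderiv_eq])
  rw [← integrableOn_iff_integrable_of_support_subset hs]
  refine Measure.integrableOn_of_bounded (M := K₁) measure_closedBall_lt_top.ne
    (measurable_fderiv ℝ f).norm.aestronglyMeasurable (Eventually.of_forall fun x => ?_)
  rw [norm_norm]
  exact norm_fderiv_le_of_lipschitz ℝ h₁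

theorem LipC.bounded (hf : LipC f c) : ∃ M : ℝ, ∀ x, |f x| ≤ M := by
  obtain ⟨M, hM⟩ :=
    (hf.continuous.sub continuous_const).bounded_above_of_compact_support hf.hasCompactSupport
  refine ⟨M + |c|, fun x => ?_⟩
  have h1 : |f x - c| ≤ M := hM x
  have h2 : |f x| ≤ |f x - c| + |c| := by simpa using abs_add_le (f x - c) c
  linarith

private theorem A1_touch {x : Sp N} (hf : DifferentiableAt ℝ f x) (hg : DifferentiableAt ℝ g x)
    (hle : ∀ y, f y ≤ g y) (hx : f x = g x) : fderiv ℝ g x = fderiv ℝ f x := by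
  have h : IsLocalMin (fun y => g y - f y) x :=
    Eventually.of_forall fun y => by
      have := hle y
      simp only [hx, sub_self]
      linarith
  have h0 := h.fderiv_eq_zero
  rwa [fderiv_fun_sub hg hf, sub_eq_zero] at h0

/-- At a point where `f`, `g`, `max f g` are differentiable and `f x = g x`, the functions
`max f g - f` and `max f g - g` have a local minimum. -/
theorem ae_fderiv_eq_of_eq (hf : LipschitzWith K f) (hg : LipschitzWith K' g) :
    ∀ᵐ x, f x = g x → fderiv ℝ f x = fderiv ℝ g x := by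
  filter_upwards [hf.ae_differentiableAt (μ := volume), hg.ae_differentiableAt (μ := volume),
    (hf.max hg).ae_differentiableAt (μ := volume)] with x h₁ h₂ h₃ hx
  rw [← A1_touch h₁ h₃ (fun y => le_max_left _ _) (by simp [hx]),
    ← A1_touch h₂ h₃ (fun y => le_max_right _ _) (by simp [hx])]

theorem ae_fderiv_max (hf : LipschitzWith K f) (hg : LipschitzWith K' g) :
    ∀ᵐ x, fderiv ℝ (fun y => max (f y) (g y)) x =
      if g x ≤ f x then fderiv ℝ f x else fderiv ℝ g x := by
  filter_upwards [hf.ae_differentiableAt (μ := volume), hg.ae_differentiableAt (μ := volume),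
    (hf.max hg).ae_differentiableAt (μ := volume)] with x h₁ h₂ h₃
  split_ifs with hx
  · exact A1_touch h₁ h₃ (fun y => le_max_left _ _) (max_eq_left hx).symm
  · exact A1_touch h₂ h₃ (fun y => le_max_right _ _) (max_eq_right (not_le.1 hx).le).symm

theorem ae_fderiv_min (hf : LipschitzWith K f) (hg : LipschitzWith K' g) :
    ∀ᵐ x, fderiv ℝ (fun y => min (f y) (g y)) x =
      if f x ≤ g x then fderiv ℝ f x else fderiv ℝ g x := by
  filter_upwards [hf.ae_differentiableAt (μ := volume), hg.ae_differentiableAt (μ := volume),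
    (hf.min hg).ae_differentiableAt (μ := volume)] with x h₁ h₂ h₃
  split_ifs with hx
  · exact (A1_touch h₃ h₁ (fun y => min_le_left _ _) (min_eq_left hx)).symm
  · exact (A1_touch h₃ h₂ (fun y => min_le_right _ _) (min_eq_right (not_le.1 hx).le)).symm

theorem ae_fderiv_cl (hf : LipschitzWith K f) (hab : a ≤ b) :
    ∀ᵐ x, fderiv ℝ (fun y => cl a b (f y)) x =
      if a < f x ∧ f x < b then fderiv ℝ f x else 0 := by
  have hc := (lipschitz_cl a b).comp hf
  filter_upwards [hc.ae_differentiableAt (μ := volume)] with x h₃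
  split_ifs with hx
  · refine Filter.EventuallyEq.fderiv_eq ?_
    filter_upwards [(isOpen_lt continuous_const hf.continuous).mem_nhds hx.1,
      (isOpen_lt hf.continuous continuous_const).mem_nhds hx.2] with y h1 h2
    have h1' : a < f y := h1
    have h2' : f y < b := h2
    simp only [cl, min_eq_left h2'.le, max_eq_right h1'.le]
  · rw [not_and_or, not_lt, not_lt] at hx
    rcases hx with hx | hx
    · refine IsLocalMin.fderiv_eq_zero (Eventually.of_forall fun y => ?_)
      simp only [cl_of_le hab hx]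
      exact (cl_mem hab _).1
    · refine IsLocalMax.fderiv_eq_zero (Eventually.of_forall fun y => ?_)
      have : cl a b (f x) = b := by simp only [cl, min_eq_right hx, max_eq_right hab]
      simp only [this]
      exact (cl_mem hab _).2

theorem tv_nonneg (f : Sp N → ℝ) : 0 ≤ tv f := integral_nonneg fun _ => norm_nonneg _

theorem tv_const (c : ℝ) : tv (fun _ : Sp N => c) = 0 := by simp [tv]

theorem tv_neg (f : Sp N → ℝ) : tv (fun x => -f x) = tv f := by
  simp only [tv, fderiv_fun_neg, norm_neg]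

theorem tv_add_const (f : Sp N → ℝ) (A : ℝ) : tv (fun x => f x + A) = tv f := by
  simp only [tv, fderiv_add_const]

private theorem A1_diff (hf : LipC f c) : ∀ᵐ x, DifferentiableAt ℝ f x := by
  obtain ⟨K₁, h₁⟩ := hf.1
  exact h₁.ae_differentiableAt

theorem tv_const_mul (hf : LipC f c) (a : ℝ) : tv (fun x => a * f x) = |a| * tv f := by
  unfold tv
  rw [← integral_const_mul]
  refine integral_congr_ae ?_
  filter_upwards [A1_diff hf] with x hx
  rw [fderiv_const_mul hx, norm_smul, Real.norm_eq_abs]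

theorem tv_add_le (hf : LipC f c) (hg : LipC g d) :
    tv (fun x => f x + g x) ≤ tv f + tv g := by
  unfold tv
  rw [← integral_add hf.integrable_fderiv hg.integrable_fderiv]
  refine integral_mono_ae (hf.add hg).integrable_fderiv
    (hf.integrable_fderiv.add hg.integrable_fderiv) ?_
  filter_upwards [A1_diff hf, A1_diff hg] with x h₁ h₂
  rw [fderiv_fun_add h₁ h₂]
  exact norm_add_le _ _

theorem tv_translate (f : Sp N → ℝ) (z : Sp N) : tv (fun x => f (x + z)) = tv f := by
  unfold tv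
  simp only [fderiv_comp_add_right]
  exact integral_add_right_eq_self (fun x => ‖fderiv ℝ f x‖) z

private theorem A1_sum {p q : Sp N → ℝ} {c' d' : ℝ} (hp : LipC p c') (hq : LipC q d')
    (hf : LipC f c) (hg : LipC g d)
    (h : ∀ᵐ x, ‖fderiv ℝ p x‖ + ‖fderiv ℝ q x‖ = ‖fderiv ℝ f x‖ + ‖fderiv ℝ g x‖) :
    tv p + tv q = tv f + tv g := by
  unfold tv
  rw [← integral_add hf.integrable_fderiv hg.integrable_fderiv,
    ← integral_add hp.integrable_fderiv hq.integrable_fderiv]
  exact integral_congr_ae h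

theorem tv_max_add_tv_min (hf : LipC f c) (hg : LipC g d) :
    tv (fun x => max (f x) (g x)) + tv (fun x => min (f x) (g x)) = tv f + tv g := by
  obtain ⟨K₁, h₁⟩ := hf.1
  obtain ⟨K₂, h₂⟩ := hg.1
  refine A1_sum (hf.max hg) (hf.min hg) hf hg ?_
  filter_upwards [ae_fderiv_max h₁ h₂, ae_fderiv_min h₁ h₂, ae_fderiv_eq_of_eq h₁ h₂]
    with x e₁ e₂ e₃
  rw [e₁, e₂]
  rcases lt_trichotomy (f x) (g x) with h | h | h
  · rw [if_neg (not_le.2 h), if_pos h.le, add_comm]
  · rw [if_pos h.ge, if_pos h.le, e₃ h]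
  · rw [if_pos h.le, if_neg (not_le.2 h)]

theorem tv_sub_cl (hw : LipC w c) (hab : a ≤ b) :
    tv (fun x => w x - cl a b (w x)) = tv w - tv (fun x => cl a b (w x)) := by
  obtain ⟨K₁, h₁⟩ := hw.1
  have hc := hw.comp (lipschitz_cl a b)
  have := A1_sum (hw.sub hc) hc hw (LipC.const (N := N) 0) ?_
  · rw [tv_const] at this
    linarith
  filter_upwards [ae_fderiv_cl h₁ hab, A1_diff hw, A1_diff hc] with x e₁ d₁ d₂
  rw [fderiv_fun_sub d₁ d₂, e₁]
  split_ifs <;> simp

/-- Exchange of gradients under a truncation. -/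
theorem tv_exchange (hf : LipC f c) (hg : LipC g d) (ha : 0 ≤ a) :
    tv (fun x => f x + cl (-a) a (g x - f x)) + tv (fun x => g x - cl (-a) a (g x - f x)) =
      tv f + tv g := by
  have hs := hg.sub hf
  obtain ⟨K₁, h₁⟩ := hs.1
  have hc := hs.comp (lipschitz_cl (-a) a)
  refine A1_sum (hf.add hc) (hg.sub hc) hf hg ?_
  filter_upwards [ae_fderiv_cl h₁ (neg_le_self ha), A1_diff hf, A1_diff hg, A1_diff hc]
    with x e₁ d₁ d₂ d₃
  rw [fderiv_fun_add d₁ d₃, fderiv_fun_sub d₂ d₃, e₁, fderiv_fun_sub d₂ d₁]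
  split_ifs
  · rw [add_sub_cancel, sub_sub_cancel, add_comm]
  · rw [add_zero, sub_zero]

/-- On the open set `0 < f` one has `w = l + f` and `w - f = l`; on `f = 0` the gradient of `f`
vanishes almost everywhere. -/
theorem tv_split (hw : LipC w c) (hf : LipC f 0) (hf0 : ∀ x, 0 ≤ f x) (hl : LipschitzWith K l)
    (h : ∀ x, 0 < f x → w x = l x + f x) :
    tv w - tv (fun x => w x - f x) =
      (∫ x in {x | 0 < f x}, ‖fderiv ℝ (fun y => l y + f y) x‖) -
        ∫ x in {x | 0 < f x}, ‖fderiv ℝ l x‖ := by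
  have _ := hl
  have hU : IsOpen {x | 0 < f x} := isOpen_lt continuous_const hf.continuous
  have hm := hU.measurableSet
  have e₁ : ∫ x in {x | 0 < f x}, ‖fderiv ℝ (fun y => l y + f y) x‖ =
      ∫ x in {x | 0 < f x}, ‖fderiv ℝ w x‖ := by
    refine setIntegral_congr_fun hm fun x hx => ?_
    have : (fun y => l y + f y) =ᶠ[𝓝 x] w := by
      filter_upwards [hU.mem_nhds hx] with y hy
      exact (h y hy).symm
    simp only [this.fderiv_eq]
  have e₂ : ∫ x in {x | 0 < f x}, ‖fderiv ℝ l x‖ =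
      ∫ x in {x | 0 < f x}, ‖fderiv ℝ (fun y => w y - f y) x‖ := by
    refine setIntegral_congr_fun hm fun x hx => ?_
    have : l =ᶠ[𝓝 x] fun y => w y - f y := by
      filter_upwards [hU.mem_nhds hx] with y hy
      rw [h y hy, add_sub_cancel_right]
    simp only [this.fderiv_eq]
  have e₃ : ∫ x in {x | 0 < f x}ᶜ, ‖fderiv ℝ w x‖ =
      ∫ x in {x | 0 < f x}ᶜ, ‖fderiv ℝ (fun y => w y - f y) x‖ := by
    refine setIntegral_congr_ae hm.compl ?_
    filter_upwards [A1_diff hw, A1_diff hf] with x d₁ d₂ hx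
    have hx0 : f x ≤ 0 := not_lt.1 hx
    have hmin : IsLocalMin f x := Eventually.of_forall fun y => hx0.trans (hf0 y)
    rw [fderiv_fun_sub d₁ d₂, hmin.fderiv_eq_zero, sub_zero]
  unfold tv
  rw [← integral_add_compl hm hw.integrable_fderiv,
    ← integral_add_compl hm (hw.sub hf).integrable_fderiv, e₁, e₂, e₃]
  ring

end

end Pool.Agent.MCF5
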