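import Pool.Agent.Lib.MP_5aed36_gt.A1

open MeasureTheory Set Filter Topology Metric
open scoped ENNReal NNReal RealInnerProductSpace

namespace Pool.Agent.MCF5

variable {N : ℕ}

section
variable {f : Sp N → ℝ} {Y : Sp N → Sp N} {c ε : ℝ} {K : ℝ≥0}

theorem A2_cs (hf : LipC f 0) : HasCompactSupport f := by
  simpa using hf.hasCompactSupport

theorem A2_apply_sum (A : Sp N →L[ℝ] ℝ) (y : Sp N) :
    A y = ∑ i, A (EuclideanSpace.single i 1) * y i := by
  have h : y = ∑ i, y i • EuclideanSpace.single i (1 : ℝ) := by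
    ext j
    simp [Finset.sum_apply, Pi.single_apply]
  conv_lhs => rw [h]
  simp [map_sum, mul_comm]

theorem A2_coord_lip (hY : LipschitzWith K Y) (i : Fin N) :
    LipschitzWith K fun x => Y x i := by
  refine LipschitzWith.of_dist_le_mul fun x y => ?_
  exact (PiLp.dist_apply_le (Y x) (Y y) i).trans (hY.dist_le_mul x y)

theorem A2_int_left (hf : LipC f 0) {g : Sp N → ℝ} (hg : Continuous g) (v : Sp N) :
    Integrable fun x => fderiv ℝ f x v * g x := by
  have hcs : HasCompactSupport fun x => fderiv ℝ f x v := (A2_cs hf).fderiv_apply ℝ v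
  have h1 : Integrable fun x => fderiv ℝ f x v := by
    refine (hf.integrable_fderiv.mul_const ‖v‖).mono'
      (measurable_fderiv_apply_const ℝ f v).aestronglyMeasurable (ae_of_all _ fun x => ?_)
    exact (fderiv ℝ f x).le_opNorm v
  have h2 : IntegrableOn (fun x => fderiv ℝ f x v * g x) (tsupport fun x => fderiv ℝ f x v) :=
    h1.integrableOn.mul_continuousOn hg.continuousOn hcs
  refine (integrableOn_iff_integrable_of_support_subset ?_).1 h2
  intro x hx
  refine subset_tsupport _ ?_
  intro h0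
  exact hx (by simp only [h0, zero_mul])

theorem A2_int_right (hf : LipC f 0) (hY : LipschitzWith K Y) (i : Fin N) :
    Integrable fun x => f x * fderiv ℝ Y x (EuclideanSpace.single i 1) i := by
  refine hf.integrable_zero.mul_bdd (c := K) ?_ (ae_of_all _ fun x => ?_)
  · have h1 : Measurable fun x => fderiv ℝ Y x (EuclideanSpace.single i 1) :=
      measurable_fderiv_apply_const ℝ Y _
    have h2 : Continuous fun y : Sp N => y i := by fun_prop
    exact (h2.measurable.comp h1).aestronglyMeasurable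
  · refine (PiLp.norm_apply_le _ i).trans ?_
    refine ((fderiv ℝ Y x).le_opNorm _).trans ?_
    have : ‖fderiv ℝ Y x‖ ≤ K := norm_fderiv_le_of_lipschitz ℝ hY
    simpa using this

theorem A2_ibp_coord (hf : LipC f 0) (hY : LipschitzWith K Y) (i : Fin N) :
    ∫ x, fderiv ℝ f x (EuclideanSpace.single i 1) * Y x i =
      -∫ x, f x * fderiv ℝ Y x (EuclideanSpace.single i 1) i := by
  obtain ⟨L, hL⟩ := hf.1
  have h := LipschitzWith.integral_lineDeriv_mul_eq (μ := volume) (A2_coord_lip hY i) hL
    (A2_cs hf) (EuclideanSpace.single i 1)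
  have e1 : ∫ x, lineDeriv ℝ (fun x => Y x i) x (EuclideanSpace.single i 1) * f x =
      ∫ x, f x * fderiv ℝ Y x (EuclideanSpace.single i 1) i := by
    refine integral_congr_ae ?_
    filter_upwards [hY.ae_differentiableAt (μ := volume)] with x hx
    have hd : HasFDerivAt (fun x => Y x i)
        ((EuclideanSpace.proj i : Sp N →L[ℝ] ℝ).comp (fderiv ℝ Y x)) x :=
      (EuclideanSpace.proj i : Sp N →L[ℝ] ℝ).hasFDerivAt.comp x hx.hasFDerivAt
    rw [(hd.hasLineDerivAt _).lineDeriv, mul_comm]
    simp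
  have e2 : ∫ x, lineDeriv ℝ f x (-EuclideanSpace.single i 1) * Y x i =
      -∫ x, fderiv ℝ f x (EuclideanSpace.single i 1) * Y x i := by
    rw [← integral_neg]
    refine integral_congr_ae ?_
    filter_upwards [hL.ae_differentiableAt (μ := volume)] with x hx
    rw [hx.lineDeriv_eq_fderiv]
    simp
  rw [e1, e2] at h
  rw [h, neg_neg]

/-- Integration by parts; use `LipschitzWith.integral_lineDeriv_mul_eq` for each coordinate. -/
theorem ibp (hf : LipC f 0) (hY : LipschitzWith K Y) :
    ∫ x, fderiv ℝ f x (Y x) = -∫ x, f x * dvg Y x := by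
  have e1 : ∫ x, fderiv ℝ f x (Y x) =
      ∑ i, ∫ x, fderiv ℝ f x (EuclideanSpace.single i 1) * Y x i := by
    rw [← integral_finsetSum _ fun i _ => A2_int_left hf (A2_coord_lip hY i).continuous _]
    exact integral_congr_ae (ae_of_all _ fun x => A2_apply_sum _ _)
  have e2 : ∫ x, f x * dvg Y x =
      ∑ i, ∫ x, f x * fderiv ℝ Y x (EuclideanSpace.single i 1) i := by
    rw [← integral_finsetSum _ fun i _ => A2_int_right hf hY i]
    refine integral_congr_ae (ae_of_all _ fun x => ?_)
    simp only [dvg, Finset.mul_sum]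
  rw [e1, e2, ← Finset.sum_neg_distrib]
  exact Finset.sum_congr rfl fun i _ => A2_ibp_coord hf hY i

theorem continuous_dvg (hY : ContDiff ℝ 1 Y) : Continuous (dvg Y) := by
  have h1 : Continuous (fderiv ℝ Y) := hY.continuous_fderiv one_ne_zero
  unfold dvg
  refine continuous_finsetSum _ fun i _ => ?_
  have h2 : Continuous fun y : Sp N => y i := by fun_prop
  exact h2.comp (h1.clm_apply continuous_const)

theorem hasCompactSupport_dvg (hc : HasCompactSupport Y) : HasCompactSupport (dvg Y) := by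
  have h1 : HasCompactSupport (fderiv ℝ Y) := hc.fderiv ℝ
  have h2 := h1.comp_left
    (g := fun A : Sp N →L[ℝ] Sp N => ∑ i, A (EuclideanSpace.single i 1) i) (by simp)
  exact h2

theorem integrable_dvg (hY : ContDiff ℝ 1 Y) (hc : HasCompactSupport Y) :
    Integrable (dvg Y) :=
  (continuous_dvg hY).integrable_of_hasCompactSupport (hasCompactSupport_dvg hc)

theorem integral_dvg_eq_zero (hY : ContDiff ℝ 1 Y) (hc : HasCompactSupport Y) :
    ∫ x, dvg Y x = 0 := by
  obtain ⟨K, hK⟩ := ContDiff.lipschitzWith_of_hasCompactSupport hc hY one_ne_zero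
  have h1 : Continuous (fderiv ℝ Y) := hY.continuous_fderiv one_ne_zero
  have hint : ∀ i : Fin N, Integrable fun x => fderiv ℝ Y x (EuclideanSpace.single i 1) i := by
    intro i
    have h2 : Continuous fun y : Sp N => y i := by fun_prop
    have h3 : Continuous fun x => fderiv ℝ Y x (EuclideanSpace.single i 1) i :=
      h2.comp (h1.clm_apply continuous_const)
    refine h3.integrable_of_hasCompactSupport ?_
    exact (hc.fderiv ℝ).comp_left
      (g := fun A : Sp N →L[ℝ] Sp N => A (EuclideanSpace.single i 1) i) (by simp)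
  unfold dvg
  rw [integral_finsetSum _ fun i _ => hint i]
  refine Finset.sum_eq_zero fun i _ => ?_
  have hci : HasCompactSupport fun x => Y x i :=
    hc.comp_left (g := fun y : Sp N => y i) (by simp)
  have h := LipschitzWith.integral_lineDeriv_mul_eq (μ := volume)
    (LipschitzWith.const (α := Sp N) (1 : ℝ)) (A2_coord_lip hK i) hci
    (-EuclideanSpace.single i 1)
  have e0 : ∀ x : Sp N, lineDeriv ℝ (fun _ : Sp N => (1 : ℝ)) x (-EuclideanSpace.single i 1)
      = 0 := by
    intro x
    simp [lineDeriv]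
  simp only [e0, zero_mul, integral_zero, neg_neg, mul_one] at h
  rw [h]
  refine integral_congr_ae (ae_of_all _ fun x => ?_)
  have hx : DifferentiableAt ℝ Y x := hY.differentiable one_ne_zero x
  have hd : HasFDerivAt (fun x => Y x i)
      ((EuclideanSpace.proj i : Sp N →L[ℝ] ℝ).comp (fderiv ℝ Y x)) x :=
    (EuclideanSpace.proj i : Sp N →L[ℝ] ℝ).hasFDerivAt.comp x hx.hasFDerivAt
  simp only
  rw [(hd.hasLineDerivAt _).lineDeriv]
  simp

theorem A2_sub (hf : LipC f c) : LipC (fun x => f x - c) 0 := by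
  simpa using hf.sub (LipC.const c)

theorem A2_pair_eq (hf : LipC f c) (hY : LipschitzWith K Y) :
    ∫ x, (f x - c) * dvg Y x = -∫ x, fderiv ℝ f x (Y x) := by
  have h := ibp (A2_sub hf) hY
  simp only [fderiv_sub_const] at h
  rw [h, neg_neg]

theorem pair_le_tv (hf : LipC f c) (hY : LipschitzWith K Y) (h1 : ∀ x, ‖Y x‖ ≤ 1) :
    ∫ x, (f x - c) * dvg Y x ≤ tv f := by
  rw [A2_pair_eq hf hY]
  refine (neg_le_abs _).trans ?_
  rw [← Real.norm_eq_abs]
  refine norm_integral_le_of_norm_le hf.integrable_fderiv (ae_of_all _ fun x => ?_)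
  refine ((fderiv ℝ f x).le_opNorm _).trans ?_
  exact mul_le_of_le_one_right (norm_nonneg _) (h1 x)

/-- The unit field opposite to the gradient. -/
noncomputable def A2_dir (A : Sp N →L[ℝ] ℝ) : Sp N :=
  (-‖A‖⁻¹) • (InnerProductSpace.toDual ℝ (Sp N)).symm A

theorem A2_dir_zero : A2_dir (0 : Sp N →L[ℝ] ℝ) = 0 := by
  simp [A2_dir]

theorem A2_dir_norm (A : Sp N →L[ℝ] ℝ) : ‖A2_dir A‖ ≤ 1 := by
  rw [A2_dir, norm_smul, LinearIsometryEquiv.norm_map, norm_neg, norm_inv, norm_norm]
  exact inv_mul_le_one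

theorem A2_dir_apply (A : Sp N →L[ℝ] ℝ) : A (A2_dir A) = -‖A‖ := by
  have h : A ((InnerProductSpace.toDual ℝ (Sp N)).symm A) = ‖A‖ ^ 2 := by
    rw [← InnerProductSpace.toDual_symm_apply, real_inner_self_eq_norm_sq,
      LinearIsometryEquiv.norm_map]
  rw [A2_dir, map_smul, h, smul_eq_mul]
  by_cases h0 : ‖A‖ = 0
  · simp [h0]
  · field_simp

theorem A2_dir_meas (f : Sp N → ℝ) : Measurable fun x => A2_dir (fderiv ℝ f x) := by
  have h1 : Measurable (fderiv ℝ f) := measurable_fderiv ℝ f
  have h2 : Measurable fun x => (InnerProductSpace.toDual ℝ (Sp N)).symm (fderiv ℝ f x) :=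
    (InnerProductSpace.toDual ℝ (Sp N)).symm.continuous.measurable.comp h1
  have h3 : Measurable fun x => -‖fderiv ℝ f x‖⁻¹ := h1.norm.inv.neg
  exact h3.smul h2

/-- The bump functions used to mollify. -/
noncomputable def A2_bump (N : ℕ) (n : ℕ) : ContDiffBump (0 : Sp N) where
  rIn := 1 / ((n : ℝ) + 1) / 2
  rOut := 1 / ((n : ℝ) + 1)
  rIn_pos := by positivity
  rIn_lt_rOut := half_lt_self (by positivity)

open scoped Convolution in
/-- Duality. Mollify the bounded compactly supported field `-∇f / ‖∇f‖` with bump functions,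
`ContDiffBump.ae_convolution_tendsto_right_of_locallyIntegrable`, dominated convergence. -/
theorem exists_field (hf : LipC f c) (hε : 0 < ε) :
    ∃ Y : Sp N → Sp N, ContDiff ℝ 1 Y ∧ HasCompactSupport Y ∧ (∀ x, ‖Y x‖ ≤ 1) ∧
      tv f ≤ (∫ x, (f x - c) * dvg Y x) + ε := by
  set V : Sp N → Sp N := fun x => A2_dir (fderiv ℝ f x) with hV
  have hVm : Measurable V := A2_dir_meas f
  have hV1 : ∀ x, ‖V x‖ ≤ 1 := fun x => A2_dir_norm _
  have hVc : HasCompactSupport V := by
    have h1 : HasCompactSupport (fderiv ℝ fun x => f x - c) := hf.hasCompactSupport.fderiv ℝ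
    have h2 : (fderiv ℝ fun x => f x - c) = fderiv ℝ f := by
      funext x
      exact fderiv_sub_const c
    rw [h2] at h1
    exact h1.comp_left (g := A2_dir) A2_dir_zero
  have hVl : LocallyIntegrable V := by
    refine (locallyIntegrable_const (1 : ℝ)).mono hVm.aestronglyMeasurable
      (ae_of_all _ fun x => ?_)
    simpa using hV1 x
  set Z : ℕ → Sp N → Sp N := fun n =>
    (A2_bump N n).normed volume ⋆[ContinuousLinearMap.lsmul ℝ ℝ, volume] V with hZ
  have hZd : ∀ n, ContDiff ℝ 1 (Z n) := fun n =>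
    (A2_bump N n).hasCompactSupport_normed.contDiff_convolution_left
      (ContinuousLinearMap.lsmul ℝ ℝ) (n := 1) (A2_bump N n).contDiff_normed hVl
  have hZc : ∀ n, HasCompactSupport (Z n) := fun n =>
    (A2_bump N n).hasCompactSupport_normed.convolution (ContinuousLinearMap.lsmul ℝ ℝ) hVc
  have hZ1 : ∀ n x, ‖Z n x‖ ≤ 1 := by
    intro n x
    have h1 : Z n x = ∫ t, (A2_bump N n).normed volume t • V (x - t) := by
      simp only [hZ, convolution_def, ContinuousLinearMap.lsmul_apply]
    rw [h1, ← (A2_bump N n).integral_normed (μ := volume)]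
    refine norm_integral_le_of_norm_le (A2_bump N n).integrable_normed (ae_of_all _ fun t => ?_)
    rw [norm_smul, Real.norm_of_nonneg ((A2_bump N n).nonneg_normed t)]
    exact mul_le_of_le_one_right ((A2_bump N n).nonneg_normed t) (hV1 _)
  have hae : ∀ᵐ x, Tendsto (fun n => Z n x) atTop (𝓝 (V x)) := by
    refine ContDiffBump.ae_convolution_tendsto_right_of_locallyIntegrable (K := 2) ?_ ?_ hVl
    · exact tendsto_one_div_add_atTop_nhds_zero_nat
    · refine Eventually.of_forall fun n => le_of_eq ?_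
      simp only [A2_bump]
      ring
  have hlim : Tendsto (fun n => ∫ x, fderiv ℝ f x (Z n x)) atTop
      (𝓝 (∫ x, fderiv ℝ f x (V x))) := by
    refine tendsto_integral_of_dominated_convergence (fun x => ‖fderiv ℝ f x‖) (fun n => ?_)
      hf.integrable_fderiv (fun n => ae_of_all _ fun x => ?_) ?_
    · have h1 : AEStronglyMeasurable (fderiv ℝ f) volume :=
        (measurable_fderiv ℝ f).aestronglyMeasurable
      have h2 : AEStronglyMeasurable (Z n) volume := (hZd n).continuous.aestronglyMeasurable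
      exact (isBoundedBilinearMap_apply (𝕜 := ℝ) (E := Sp N) (F := ℝ)).continuous.comp_aestronglyMeasurable
        (h1.prodMk h2)
    · exact ((fderiv ℝ f x).le_opNorm _).trans
        (mul_le_of_le_one_right (norm_nonneg _) (hZ1 n x))
    · filter_upwards [hae] with x hx
      exact ((fderiv ℝ f x).continuous.tendsto _).comp hx
  have hval : ∫ x, fderiv ℝ f x (V x) = -tv f := by
    rw [tv, ← integral_neg]
    exact integral_congr_ae (ae_of_all _ fun x => A2_dir_apply _)
  rw [hval] at hlim
  have hev : ∀ᶠ n in atTop, ∫ x, fderiv ℝ f x (Z n x) < -tv f + ε :=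
    hlim.eventually (gt_mem_nhds (by linarith))
  obtain ⟨n, hn⟩ := hev.exists
  obtain ⟨K, hK⟩ := ContDiff.lipschitzWith_of_hasCompactSupport (hZc n) (hZd n) one_ne_zero
  refine ⟨Z n, hZd n, hZc n, hZ1 n, ?_⟩
  rw [A2_pair_eq hf hK]
  linarith

theorem tv_lsc {ι : Type*} {l : Filter ι} {F : ι → Sp N → ℝ} (hF : ∀ i, LipC (F i) c)
    (hf : LipC f c) (hconv : TendstoUniformly F f l) (hε : 0 < ε) :
    ∀ᶠ i in l, tv f ≤ tv (F i) + ε := by
  obtain ⟨Y, hYd, hYc, hY1, hle⟩ := exists_field hf (half_pos hε)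
  obtain ⟨K, hK⟩ := ContDiff.lipschitzWith_of_hasCompactSupport hYc hYd one_ne_zero
  have hdi : Integrable (dvg Y) := integrable_dvg hYd hYc
  set M : ℝ := ∫ x, |dvg Y x| with hM
  have hM0 : 0 ≤ M := integral_nonneg fun x => abs_nonneg _
  have hδ : 0 < ε / 2 / (M + 1) := by positivity
  have hint : ∀ g : Sp N → ℝ, LipC g c → Integrable fun x => (g x - c) * dvg Y x := by
    intro g hg
    exact ((hg.continuous.sub continuous_const).mul
      (continuous_dvg hYd)).integrable_of_hasCompactSupport (hasCompactSupport_dvg hYc).mul_left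
  filter_upwards [Metric.tendstoUniformly_iff.1 hconv _ hδ] with i hi
  have h1 := pair_le_tv (hF i) hK hY1
  have h2 : (∫ x, (f x - c) * dvg Y x) - ∫ x, (F i x - c) * dvg Y x ≤ ε / 2 / (M + 1) * M := by
    rw [← integral_sub (hint f hf) (hint _ (hF i)), hM, ← integral_const_mul]
    refine integral_mono ((hint f hf).sub (hint _ (hF i))) (hdi.abs.const_mul _) fun x => ?_
    have h4 : |f x - F i x| ≤ ε / 2 / (M + 1) := by
      rw [← Real.dist_eq]
      exact (hi x).le
    calc (f x - c) * dvg Y x - (F i x - c) * dvg Y x = (f x - F i x) * dvg Y x := by ring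
      _ ≤ |(f x - F i x) * dvg Y x| := le_abs_self _
      _ = |f x - F i x| * |dvg Y x| := abs_mul _ _
      _ ≤ ε / 2 / (M + 1) * |dvg Y x| := mul_le_mul_of_nonneg_right h4 (abs_nonneg _)
  have h5 : ε / 2 / (M + 1) * M ≤ ε / 2 := by
    rw [div_mul_eq_mul_div, div_le_iff₀ (by positivity)]
    nlinarith
  linarith

end

end Pool.Agent.MCF5
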