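import Pool.Agent.Lib.MP_5aed36_gt.A1

open MeasureTheory Set Filter Topology Metric
open scoped ENNReal NNReal RealInnerProductSpace

namespace Pool.Agent.MCF5

variable {N : ℕ}

section
variable {f φ q l a : Sp N → ℝ} {c : ℝ} {K : ℝ≥0}

/-- Difference quotients converge at points of differentiability. -/
theorem A3_dq_tendsto {x : Sp N} (hx : DifferentiableAt ℝ f x) (v : Sp N) :
    Tendsto (fun t : ℝ => t⁻¹ * (f (x + t • v) - f x)) (𝓝[>] 0) (𝓝 (fderiv ℝ f x v)) := by
  have h := (hx.hasFDerivAt.hasLineDerivAt v).tendsto_slope_zero_right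
  simpa [smul_eq_mul] using h

theorem A3_dq_bound (hf : LipschitzWith K f) (x v : Sp N) {t : ℝ} (ht : 0 < t) :
    |t⁻¹ * (f (x + t • v) - f x)| ≤ K * ‖v‖ := by
  have h := hf.dist_le_mul (x + t • v) x
  rw [Real.dist_eq, dist_eq_norm, add_sub_cancel_left, norm_smul, Real.norm_of_nonneg ht.le] at h
  rw [abs_mul, abs_of_pos (inv_pos.2 ht), inv_mul_le_iff₀ ht]
  calc |f (x + t • v) - f x| ≤ K * (t * ‖v‖) := h
    _ = t * (K * ‖v‖) := by ring

theorem A3_dq_zero {R : ℝ} (hR : ∀ x, R ≤ ‖x‖ → f x = c) (x v : Sp N) {t : ℝ} (ht : 0 < t)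
    (ht1 : t ≤ 1) (hx : x ∉ closedBall (0 : Sp N) (|R| + ‖v‖)) : f (x + t • v) - f x = 0 := by
  rw [mem_closedBall, dist_zero_right, not_le] at hx
  have h1 : ‖t • v‖ ≤ ‖v‖ := by
    rw [norm_smul, Real.norm_of_nonneg ht.le]
    exact mul_le_of_le_one_left (norm_nonneg v) ht1
  have h2 : ‖x‖ ≤ ‖x + t • v‖ + ‖t • v‖ := by
    have := norm_sub_le (x + t • v) (t • v)
    rwa [add_sub_cancel_right] at this
  have h3 := le_abs_self R
  have h4 := norm_nonneg v
  rw [hR (x + t • v) (by linarith), hR x (by linarith), sub_self]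

theorem A3_bound_integrable (r M : ℝ) :
    Integrable (indicator (closedBall (0 : Sp N) r) fun _ => M) := by
  rw [integrable_indicator_iff measurableSet_closedBall]
  exact integrableOn_const (isCompact_closedBall _ _).measure_lt_top.ne

theorem A3_integrable_diff (hf : LipC f c) (u v : Sp N) :
    Integrable fun x => |f (x + u) - f (x + v)| := by
  have h := ((hf.translate u).sub (hf.translate v))
  rw [sub_self] at h
  exact h.integrable_zero.abs

theorem A3_nsmul (hf : LipC f c) (u : Sp N) (k : ℕ) :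
    ∫ x, |f (x + (k : ℝ) • u) - f x| ≤ k * ∫ x, |f (x + u) - f x| := by
  induction k with
  | zero => simp
  | succ k ih =>
    have h0 : Integrable fun x => |f (x + (k : ℝ) • u) - f x| := by
      simpa using A3_integrable_diff hf ((k : ℝ) • u) 0
    have h1 : Integrable fun x => |f (x + (k : ℝ) • u + u) - f (x + (k : ℝ) • u)| := by
      simpa [add_assoc] using A3_integrable_diff hf ((k : ℝ) • u + u) ((k : ℝ) • u)
    have h2 : Integrable fun x => |f (x + ((k + 1 : ℕ) : ℝ) • u) - f x| := by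
      simpa using A3_integrable_diff hf (((k + 1 : ℕ) : ℝ) • u) 0
    have h3 : ∫ x, |f (x + (k : ℝ) • u + u) - f (x + (k : ℝ) • u)| = ∫ x, |f (x + u) - f x| :=
      integral_add_right_eq_self (fun x => |f (x + u) - f x|) ((k : ℝ) • u)
    calc ∫ x, |f (x + ((k + 1 : ℕ) : ℝ) • u) - f x|
        ≤ ∫ x, (|f (x + (k : ℝ) • u + u) - f (x + (k : ℝ) • u)| +
            |f (x + (k : ℝ) • u) - f x|) := by
          refine integral_mono h2 (h1.add h0) fun x => ?_
          have e : x + ((k + 1 : ℕ) : ℝ) • u = x + (k : ℝ) • u + u := by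
            push_cast
            rw [add_smul, one_smul, add_assoc]
          simp only [e]
          exact abs_sub_le _ _ _
      _ = (∫ x, |f (x + u) - f x|) + ∫ x, |f (x + (k : ℝ) • u) - f x| := by
          rw [integral_add h1 h0, h3]
      _ ≤ ((k + 1 : ℕ) : ℝ) * ∫ x, |f (x + u) - f x| := by
          push_cast
          linarith

theorem A3_tendsto_inv : Tendsto (fun k : ℕ => ((k : ℝ) + 1)⁻¹) atTop (𝓝[>] 0) := by
  refine tendsto_nhdsWithin_iff.2 ⟨?_, Eventually.of_forall fun k => ?_⟩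
  · simpa [one_div] using tendsto_one_div_add_atTop_nhds_zero_nat (𝕜 := ℝ)
  · exact mem_Ioi.2 (by positivity)

/-- Cut `z` in `k` equal pieces, use translation invariance and dominated convergence for the
difference quotients. -/
theorem integral_abs_translate_le (hf : LipC f c) (z : Sp N) :
    ∫ x, |f (x + z) - f x| ≤ ‖z‖ * tv f := by
  obtain ⟨⟨K, hK⟩, R, hR⟩ := id hf
  have hlim : Tendsto (fun t : ℝ => ∫ x, |t⁻¹ * (f (x + t • z) - f x)|) (𝓝[>] 0)
      (𝓝 (∫ x, |fderiv ℝ f x z|)) := by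
    refine tendsto_integral_filter_of_dominated_convergence
      (indicator (closedBall (0 : Sp N) (|R| + ‖z‖)) fun _ => (K : ℝ) * ‖z‖) ?_ ?_
      (A3_bound_integrable _ _) ?_
    · refine Eventually.of_forall fun t => ?_
      have := hK.continuous
      exact (Continuous.aestronglyMeasurable (by fun_prop))
    · filter_upwards [Ioc_mem_nhdsGT (zero_lt_one (α := ℝ))] with t ht
      refine Eventually.of_forall fun x => ?_
      rw [Real.norm_eq_abs, abs_abs]
      by_cases hx : x ∈ closedBall (0 : Sp N) (|R| + ‖z‖)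
      · rw [indicator_of_mem hx]
        exact A3_dq_bound hK x z ht.1
      · rw [indicator_of_notMem hx, A3_dq_zero hR x z ht.1 ht.2 hx]
        simp
    · filter_upwards [hK.ae_differentiableAt] with x hx
      exact (A3_dq_tendsto hx z).abs
  have h1 : ∫ x, |f (x + z) - f x| ≤ ∫ x, |fderiv ℝ f x z| := by
    refine ge_of_tendsto' (hlim.comp A3_tendsto_inv) fun k => ?_
    have hk : (0 : ℝ) < (k : ℝ) + 1 := by positivity
    have h := A3_nsmul hf (((k : ℝ) + 1)⁻¹ • z) (k + 1)
    have e : ((k + 1 : ℕ) : ℝ) • ((k : ℝ) + 1)⁻¹ • z = z := by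
      push_cast
      rw [smul_smul, mul_inv_cancel₀ hk.ne', one_smul]
    rw [e] at h
    refine h.trans (le_of_eq ?_)
    simp only [Function.comp_apply, inv_inv]
    rw [← integral_const_mul]
    refine integral_congr_ae (Eventually.of_forall fun x => ?_)
    push_cast
    simp only [abs_mul, abs_of_pos hk]
  refine h1.trans ?_
  rw [tv, ← integral_const_mul]
  refine integral_mono_of_nonneg (Eventually.of_forall fun x => abs_nonneg _)
    (hf.integrable_fderiv.const_mul _) (Eventually.of_forall fun x => ?_)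
  have := (fderiv ℝ f x).le_opNorm z
  rw [Real.norm_eq_abs] at this
  simpa [mul_comm] using this

theorem A3_integrable_mul {g : Sp N → ℝ} (hg : Continuous g) (hφ : LipC φ 0) :
    Integrable fun x => g x * φ x := by
  have h : HasCompactSupport φ := by simpa using hφ.hasCompactSupport
  exact (hg.mul hφ.continuous).integrable_of_hasCompactSupport h.mul_left

theorem A3_dir_le (hq : LipschitzWith K q) (ha : Continuous a)
    (hsc : ∀ x k, q (x + k) + q (x - k) - 2 * q x ≤ a x * ‖k‖ ^ 2)
    (hφ : LipC φ 0) (hφ0 : ∀ x, 0 ≤ φ x) (e : Sp N) (he : ‖e‖ = 1) :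
    -(∫ x, fderiv ℝ q x e * fderiv ℝ φ x e) ≤ ∫ x, a x * φ x := by
  obtain ⟨⟨K', hK'⟩, R, hR⟩ := id hφ
  have hqc := hq.continuous
  have hφc := hK'.continuous
  have hlim : Tendsto (fun t : ℝ => ∫ x, (t⁻¹ * (q (x + t • e) - q x)) *
      (t⁻¹ * (φ (x + t • e) - φ x))) (𝓝[>] 0)
      (𝓝 (∫ x, fderiv ℝ q x e * fderiv ℝ φ x e)) := by
    refine tendsto_integral_filter_of_dominated_convergence
      (indicator (closedBall (0 : Sp N) (|R| + ‖e‖))
        fun _ => ((K : ℝ) * ‖e‖) * ((K' : ℝ) * ‖e‖)) ?_ ?_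
      (A3_bound_integrable _ _) ?_
    · refine Eventually.of_forall fun t => ?_
      exact (Continuous.aestronglyMeasurable (by fun_prop))
    · filter_upwards [Ioc_mem_nhdsGT (zero_lt_one (α := ℝ))] with t ht
      refine Eventually.of_forall fun x => ?_
      rw [Real.norm_eq_abs]
      by_cases hx : x ∈ closedBall (0 : Sp N) (|R| + ‖e‖)
      · rw [indicator_of_mem hx, abs_mul]
        exact mul_le_mul (A3_dq_bound hq x e ht.1) (A3_dq_bound hK' x e ht.1) (abs_nonneg _)
          (by positivity)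
      · rw [indicator_of_notMem hx, A3_dq_zero hR x e ht.1 ht.2 hx]
        simp
    · filter_upwards [hq.ae_differentiableAt, hK'.ae_differentiableAt] with x hx hx'
      exact (A3_dq_tendsto hx e).mul (A3_dq_tendsto hx' e)
  refine le_of_tendsto hlim.neg ?_
  filter_upwards [self_mem_nhdsWithin] with t ht
  have ht0 : (0 : ℝ) < t := ht
  set k : Sp N := t • e with hk
  have hkn : ‖k‖ = t := by rw [hk, norm_smul, he, mul_one, Real.norm_of_nonneg ht0.le]
  have i1 : Integrable fun x => (q (x + k) - q x) * φ (x + k) :=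
    A3_integrable_mul (by fun_prop) (hφ.translate k)
  have i2 : Integrable fun x => (q (x + k) - q x) * φ x := A3_integrable_mul (by fun_prop) hφ
  have i3 : Integrable fun x => (q x - q (x - k)) * φ x := A3_integrable_mul (by fun_prop) hφ
  have i4 : Integrable fun x => a x * φ x := A3_integrable_mul ha hφ
  have e1 : ∫ x, (q (x + k) - q x) * φ (x + k) = ∫ x, (q x - q (x - k)) * φ x := by
    have := integral_add_right_eq_self (μ := volume) (fun x => (q x - q (x - k)) * φ x) k
    simpa using this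
  have e2 : ∫ x, (t⁻¹ * (q (x + k) - q x)) * (t⁻¹ * (φ (x + k) - φ x)) =
      (t ^ 2)⁻¹ * ((∫ x, (q (x + k) - q x) * φ (x + k)) - ∫ x, (q (x + k) - q x) * φ x) := by
    rw [← integral_sub i1 i2, ← integral_const_mul]
    refine integral_congr_ae (Eventually.of_forall fun x => ?_)
    simp only
    field_simp
  have e3 : (∫ x, (q (x + k) - q x) * φ x) - ∫ x, (q x - q (x - k)) * φ x ≤
      t ^ 2 * ∫ x, a x * φ x := by
    rw [← integral_sub i2 i3, ← integral_const_mul]
    refine integral_mono (i2.sub i3) (i4.const_mul _) fun x => ?_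
    have h1 := mul_le_mul_of_nonneg_right (hsc x k) (hφ0 x)
    rw [hkn] at h1
    simp only
    nlinarith [h1]
  rw [e2, e1, ← mul_neg, neg_sub, inv_mul_le_iff₀ (by positivity)]
  exact e3

theorem A3_grad_sum (P : Sp N →L[ℝ] ℝ) (q : Sp N → ℝ) (x : Sp N) :
    P (gradient q x) =
      ∑ i, fderiv ℝ q x (EuclideanSpace.single i 1) * P (EuclideanSpace.single i 1) := by
  have h := (EuclideanSpace.basisFun (Fin N) ℝ).sum_repr' (gradient q x)
  conv_lhs => rw [← h]
  rw [map_sum]
  refine Finset.sum_congr rfl fun i _ => ?_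
  rw [map_smul, smul_eq_mul, EuclideanSpace.basisFun_apply, real_inner_comm, inner_gradient_left]

theorem A3_integrable_dir (hq : LipschitzWith K q) (hφ : LipC φ c) (e : Sp N) :
    Integrable fun x => fderiv ℝ q x e * fderiv ℝ φ x e := by
  refine Integrable.mono' (hφ.integrable_fderiv.const_mul ((K : ℝ) * ‖e‖ * ‖e‖))
    (((measurable_fderiv_apply_const ℝ q e).mul
      (measurable_fderiv_apply_const ℝ φ e)).aestronglyMeasurable)
    (Eventually.of_forall fun x => ?_)
  have h1 : ‖fderiv ℝ q x e‖ ≤ K * ‖e‖ :=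
    ((fderiv ℝ q x).le_opNorm e).trans
      (mul_le_mul_of_nonneg_right (norm_fderiv_le_of_lipschitz ℝ hq) (norm_nonneg e))
  have h2 := (fderiv ℝ φ x).le_opNorm e
  rw [norm_mul]
  calc ‖fderiv ℝ q x e‖ * ‖fderiv ℝ φ x e‖ ≤ (K * ‖e‖) * (‖fderiv ℝ φ x‖ * ‖e‖) :=
        mul_le_mul h1 h2 (norm_nonneg _) (by positivity)
    _ = K * ‖e‖ * ‖e‖ * ‖fderiv ℝ φ x‖ := by ring

theorem A3_integrable_field (hq : LipschitzWith K q) (hφ : LipC φ c) :
    Integrable fun x => fderiv ℝ φ x (gradient q x) := by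
  simp only [A3_grad_sum]
  exact integrable_finsetSum _ fun i _ => A3_integrable_dir hq hφ _

/-- For each basis vector `e`, the integral of
`(q (x + h e) - q x) (φ (x + h e) - φ x) / h ^ 2` equals
`-∫ φ x (q (x + h e) + q (x - h e) - 2 q x) / h ^ 2`; let `h → 0`. -/
theorem field_le (hq : LipschitzWith K q) (ha : Continuous a)
    (hsc : ∀ x k, q (x + k) + q (x - k) - 2 * q x ≤ a x * ‖k‖ ^ 2)
    (hφ : LipC φ 0) (hφ0 : ∀ x, 0 ≤ φ x) :
    -(∫ x, fderiv ℝ φ x (gradient q x)) ≤ N * ∫ x, a x * φ x := by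
  simp only [A3_grad_sum]
  rw [integral_finsetSum _ fun i _ => A3_integrable_dir hq hφ _, ← Finset.sum_neg_distrib]
  calc ∑ i : Fin N, -∫ x, fderiv ℝ q x (EuclideanSpace.single i 1) *
          fderiv ℝ φ x (EuclideanSpace.single i 1)
      ≤ ∑ _i : Fin N, ∫ x, a x * φ x :=
        Finset.sum_le_sum fun i _ => A3_dir_le hq ha hsc hφ hφ0 _ (by simp)
    _ = N * ∫ x, a x * φ x := by simp

theorem A3_integrableOn_fderiv (hl : LipschitzWith K l) (hf : LipC f 0) :
    IntegrableOn (fun x => ‖fderiv ℝ l x‖) {x | 0 < f x} := by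
  obtain ⟨-, R, hR⟩ := id hf
  have hsub : {x | 0 < f x} ⊆ closedBall (0 : Sp N) R := by
    intro x hx
    rw [mem_closedBall, dist_zero_right]
    by_contra hc
    have := hR x (not_le.1 hc).le
    simp only [mem_ofPred_eq] at hx
    linarith
  have hfin : volume {x | 0 < f x} ≠ ∞ :=
    ((measure_mono hsub).trans_lt (isCompact_closedBall _ _).measure_lt_top).ne
  refine Measure.integrableOn_of_bounded (M := K) hfin
    (measurable_fderiv ℝ l).norm.aestronglyMeasurable (Eventually.of_forall fun x => ?_)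
  rw [norm_norm]
  exact norm_fderiv_le_of_lipschitz ℝ hl

theorem calib_of_potential (hq : LipschitzWith 1 q) (ha : Continuous a)
    (hsc : ∀ x k, q (x + k) + q (x - k) - 2 * q x ≤ a x * ‖k‖ ^ 2)
    (hl : LipschitzWith K l)
    (hal : ∀ᵐ x, fderiv ℝ l x (gradient q x) = ‖fderiv ℝ l x‖) :
    Calib l (fun x => N * a x) univ := by
  intro f hf hf0 _
  obtain ⟨⟨K', hK'⟩, -⟩ := id hf
  have hfield := field_le hq ha hsc hf hf0
  have hmeas : MeasurableSet {x | 0 < f x} :=
    (isOpen_lt continuous_const hf.continuous).measurableSet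
  have iF := A3_integrable_field hq hf
  have i1 := A3_integrableOn_fderiv hl hf
  have i2 : IntegrableOn (fun x => ‖fderiv ℝ (fun y => l y + f y) x‖) {x | 0 < f x} :=
    A3_integrableOn_fderiv (hl.add hK') hf
  have e1 : ∫ x in {x | 0 < f x}, fderiv ℝ f x (gradient q x) =
      ∫ x, fderiv ℝ f x (gradient q x) := by
    refine setIntegral_eq_integral_of_forall_compl_eq_zero fun x hx => ?_
    have hx0 : f x = 0 := le_antisymm (not_lt.1 hx) (hf0 x)
    have hmin : IsLocalMin f x := Eventually.of_forall fun y => by rw [hx0]; exact hf0 y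
    rw [hmin.fderiv_eq_zero]
    simp
  have e2 : ∫ x, (N : ℝ) * a x * f x = N * ∫ x, a x * f x := by
    rw [← integral_const_mul]
    simp only [mul_assoc]
  have h3 : ∫ x in {x | 0 < f x}, ‖fderiv ℝ l x‖ ≤
      ∫ x in {x | 0 < f x}, (‖fderiv ℝ (fun y => l y + f y) x‖ - fderiv ℝ f x (gradient q x)) := by
    refine integral_mono_ae i1 (i2.sub iF.integrableOn) (ae_restrict_of_ae ?_)
    filter_upwards [hal, hl.ae_differentiableAt, hK'.ae_differentiableAt] with x hx h1 h2
    have hg : ‖gradient q x‖ ≤ 1 := by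
      have h := norm_fderiv_le_of_lipschitz ℝ hq (x₀ := x)
      rw [gradient, LinearIsometryEquiv.norm_map]
      simpa using h
    have hadd : fderiv ℝ (fun y => l y + f y) x = fderiv ℝ l x + fderiv ℝ f x :=
      fderiv_fun_add h1 h2
    have h4 := (fderiv ℝ (fun y => l y + f y) x).le_opNorm (gradient q x)
    have h5 : ‖fderiv ℝ (fun y => l y + f y) x‖ * ‖gradient q x‖ ≤
        ‖fderiv ℝ (fun y => l y + f y) x‖ := mul_le_of_le_one_right (norm_nonneg _) hg
    have h6 := le_abs_self (fderiv ℝ (fun y => l y + f y) x (gradient q x))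
    rw [Real.norm_eq_abs] at h4
    have h7 : fderiv ℝ (fun y => l y + f y) x (gradient q x) =
        ‖fderiv ℝ l x‖ + fderiv ℝ f x (gradient q x) := by
      rw [hadd, add_apply, hx]
    linarith
  rw [integral_sub i2 iF.integrableOn, e1] at h3
  rw [e2]
  linarith

theorem Calib.mono {U V : Set (Sp N)} (h : Calib l a U) (hV : V ⊆ U) : Calib l a V :=
  fun f hf hf0 hs => h f hf hf0 (hs.trans hV)

theorem calib_const (A : ℝ) : Calib (fun _ : Sp N => A) (fun _ => 0) univ := by
  intro f _ _ _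
  have h : 0 ≤ ∫ x in {x | 0 < f x}, ‖fderiv ℝ (fun y => A + f y) x‖ :=
    integral_nonneg fun x => norm_nonneg _
  simpa using h

end

end Pool.Agent.MCF5
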