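import Pool.Agent.Lib.MP_5aed36_gt.A3

open MeasureTheory Set Filter Topology Metric
open scoped ENNReal NNReal RealInnerProductSpace

namespace Pool.Agent.MCF5

variable {N : ℕ}

/-- Difference quotients along a ray. -/
private theorem A4_slope {f : Sp N → ℝ} {x : Sp N} (hf : DifferentiableAt ℝ f x) (k : Sp N) :
    Tendsto (fun t : ℝ => t⁻¹ * (f (x + t • k) - f x)) (𝓝[>] 0) (𝓝 (fderiv ℝ f x k)) := by
  have h1 : HasDerivAt (fun t : ℝ => x + t • k) k 0 := by
    simpa using ((hasDerivAt_id (0 : ℝ)).smul_const k).const_add x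
  have h0 : HasFDerivAt f (fderiv ℝ f x) (x + (0 : ℝ) • k) := by simpa using hf.hasFDerivAt
  have h2 : HasDerivAt (fun t : ℝ => f (x + t • k)) (fderiv ℝ f x k) 0 :=
    h0.comp_hasDerivAt (0 : ℝ) h1
  simpa using h2.tendsto_slope_zero_right

private theorem A4_dir {l q : Sp N → ℝ} {x : Sp N} (hl : DifferentiableAt ℝ l x)
    (hq : DifferentiableAt ℝ q x) (hm : ∀ᶠ y in 𝓝 x, q y ≤ q x → l y ≤ l x) {k : Sp N}
    (hk : fderiv ℝ q x k < 0) : fderiv ℝ l x k ≤ 0 := by
  have hc : Tendsto (fun t : ℝ => x + t • k) (𝓝[>] 0) (𝓝 x) := by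
    have h : Continuous fun t : ℝ => x + t • k := by fun_prop
    have h' := h.tendsto 0
    simp only [zero_smul, add_zero] at h'
    exact h'.mono_left nhdsWithin_le_nhds
  have h1 := (A4_slope hq k).eventually (gt_mem_nhds hk)
  refine le_of_tendsto (A4_slope hl k) ?_
  filter_upwards [h1, hc.eventually hm, self_mem_nhdsWithin] with t ht hmt ht0
  have ht0' : (0 : ℝ) < t⁻¹ := inv_pos.2 ht0
  have h2 : q (x + t • k) - q x < 0 := by
    by_contra hcon
    exact absurd ht (not_lt.2 (mul_nonneg ht0'.le (not_lt.1 hcon)))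
  have h3 := hmt (by linarith)
  exact mul_nonpos_of_nonneg_of_nonpos ht0'.le (by linarith)

/-- If `l` depends monotonically on `q` near `x` and `q` has a unit gradient there, the gradient
of `l` is aligned with it. -/
theorem align {l q : Sp N → ℝ} {x : Sp N} (hl : DifferentiableAt ℝ l x)
    (hq : DifferentiableAt ℝ q x) (h1 : ‖gradient q x‖ = 1)
    (hm : ∀ᶠ y in 𝓝 x, q y ≤ q x → l y ≤ l x) :
    fderiv ℝ l x (gradient q x) = ‖fderiv ℝ l x‖ := by
  set ν := gradient q x with hν
  have hD : ∀ k, fderiv ℝ q x k = ⟪ν, k⟫ := fun k => inner_gradient_left.symm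
  have hνν : ⟪ν, ν⟫ = (1 : ℝ) := by rw [real_inner_self_eq_norm_sq, h1]; norm_num
  have h0 : 0 ≤ fderiv ℝ l x ν := by
    have h := A4_dir hl hq hm (k := -ν) (by rw [hD, inner_neg_right, hνν]; norm_num)
    rw [map_neg] at h
    linarith
  have h2 : ∀ k, fderiv ℝ l x k ≤ fderiv ℝ l x ν * ‖k‖ := by
    intro k
    have h3 : ∀ ε : ℝ, 0 < ε → fderiv ℝ l x k ≤ fderiv ℝ l x ν * (‖k‖ + ε) := by
      intro ε hε
      have h4 : ⟪ν, k⟫ ≤ ‖k‖ := by simpa [h1] using real_inner_le_norm ν k
      have h := A4_dir hl hq hm (k := k - (‖k‖ + ε) • ν)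
        (by rw [hD, inner_sub_right, inner_smul_right, hνν]; linarith)
      rw [map_sub, map_smul, smul_eq_mul] at h
      linarith
    have h5 : Tendsto (fun ε : ℝ => fderiv ℝ l x ν * (‖k‖ + ε)) (𝓝[>] 0)
        (𝓝 (fderiv ℝ l x ν * (‖k‖ + 0))) := by
      have h : Continuous fun ε : ℝ => fderiv ℝ l x ν * (‖k‖ + ε) := by fun_prop
      exact (h.tendsto 0).mono_left nhdsWithin_le_nhds
    rw [add_zero] at h5
    exact ge_of_tendsto h5 (by filter_upwards [self_mem_nhdsWithin] with ε hε using h3 ε hε)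
  refine le_antisymm ?_ ?_
  · calc fderiv ℝ l x ν ≤ ‖fderiv ℝ l x ν‖ := Real.le_norm_self _
      _ ≤ ‖fderiv ℝ l x‖ * ‖ν‖ := (fderiv ℝ l x).le_opNorm ν
      _ = ‖fderiv ℝ l x‖ := by rw [h1, mul_one]
  · refine ContinuousLinearMap.opNorm_le_bound _ h0 fun k => ?_
    rw [Real.norm_eq_abs, abs_le]
    have h6 := h2 (-k)
    rw [map_neg, norm_neg] at h6
    exact ⟨by linarith, h2 k⟩

/-- The Huber function, shifted by a constant. -/
private noncomputable def A4_hub (R s : ℝ) : ℝ := s ^ 2 / (2 * max s R) + max s R / 2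

private theorem A4_amgm {ρ : ℝ} (hρ : 0 < ρ) (s : ℝ) : s ≤ s ^ 2 / (2 * ρ) + ρ / 2 := by
  have h : s ^ 2 / (2 * ρ) + ρ / 2 - s = (s - ρ) ^ 2 / (2 * ρ) := by field_simp; ring
  have h' : 0 ≤ (s - ρ) ^ 2 / (2 * ρ) := by positivity
  linarith

private theorem A4_hub_ge {R : ℝ} (hR : 0 < R) (s : ℝ) : s ≤ A4_hub R s :=
  A4_amgm (lt_max_of_lt_right hR) s

private theorem A4_hub_eq {R s : ℝ} (hR : 0 < R) (hs : R ≤ s) : A4_hub R s = s := by
  have h0 : 0 < s := lt_of_lt_of_le hR hs
  unfold A4_hub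
  rw [max_eq_left hs]
  field_simp
  ring

private theorem A4_hub_le {R s ρ : ℝ} (hR : 0 < R) (hs : 0 ≤ s) (hρ : R ≤ ρ) :
    A4_hub R s ≤ s ^ 2 / (2 * ρ) + ρ / 2 := by
  have hρ0 : 0 < ρ := lt_of_lt_of_le hR hρ
  rcases le_total R s with h | h
  · rw [A4_hub_eq hR h]
    exact A4_amgm hρ0 s
  · unfold A4_hub
    rw [max_eq_right h]
    have h1 : s ^ 2 / (2 * ρ) + ρ / 2 - (s ^ 2 / (2 * R) + R / 2) =
        (ρ - R) * (R * ρ - s ^ 2) / (2 * R * ρ) := by field_simp; ring
    have h2 : 0 ≤ R * ρ - s ^ 2 := by nlinarith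
    have h3 : 0 ≤ (ρ - R) * (R * ρ - s ^ 2) / (2 * R * ρ) :=
      div_nonneg (mul_nonneg (by linarith) h2) (by positivity)
    linarith

private theorem A4_hub_lip {R s t : ℝ} (hR : 0 < R) (hs : 0 ≤ s) :
    A4_hub R s ≤ A4_hub R t + |s - t| := by
  have hρ0 : 0 < max t R := lt_max_of_lt_right hR
  rcases le_total (max t R) s with h | h
  · rw [A4_hub_eq hR ((le_max_right t R).trans h)]
    linarith [A4_hub_ge hR t, le_abs_self (s - t)]
  · have h1 := A4_hub_le hR hs (le_max_right t R)
    have h2 : s ^ 2 / (2 * max t R) ≤ t ^ 2 / (2 * max t R) + |s - t| := by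
      rw [div_add' _ _ _ (by positivity), div_le_div_iff_of_pos_right (by positivity)]
      have h3 := le_max_left t R
      rcases le_total t s with h4 | h4
      · rw [abs_of_nonneg (by linarith)]
        nlinarith
      · rw [abs_of_nonpos (by linarith)]
        nlinarith
    unfold A4_hub at h1 ⊢
    linarith

/-- Potential `q = hub (infDist x S)` with `hub s = s ^ 2 / (2 R₀)` for `s ≤ R₀` and `s - R₀ / 2`
above. With `ρ = max (infDist x S) R₀` and a nearest point `z`,
`q y ≤ q x + (‖y - z‖ ^ 2 - ‖x - z‖ ^ 2) / (2 ρ)` for all `y`. The distance has a unit gradient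
at its points of differentiability outside `S`; on `infDist = R₀` the function is minimal. -/
theorem calib_dist {S : Set (Sp N)} (hS : S.Nonempty) (hc : IsClosed S) {G : ℝ → ℝ} {K : ℝ≥0}
    (hG : Monotone G) (hGl : LipschitzWith K G) {R₀ : ℝ} (hR : 0 < R₀) :
    Calib (fun x => G (max (infDist x S) R₀)) (fun x => N / max (infDist x S) R₀) univ := by
  set q : Sp N → ℝ := fun x => A4_hub R₀ (infDist x S) with hq
  have hd : LipschitzWith 1 fun x : Sp N => infDist x S := lipschitz_infDist_pt S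
  have hql : LipschitzWith 1 q := by
    refine LipschitzWith.of_le_add fun x y => ?_
    have h1 := A4_hub_lip (s := infDist x S) (t := infDist y S) hR infDist_nonneg
    have h2 := hd.dist_le_mul x y
    rw [Real.dist_eq] at h2
    simp only [NNReal.coe_one, one_mul] at h2
    simp only [hq]
    linarith
  have hρ0 : ∀ x : Sp N, 0 < max (infDist x S) R₀ := fun x => lt_max_of_lt_right hR
  have ha : Continuous fun x : Sp N => (max (infDist x S) R₀)⁻¹ :=
    (hd.continuous.max continuous_const).inv₀ fun x => (hρ0 x).ne'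
  have key : ∀ x : Sp N, ∃ z : Sp N, infDist x S = ‖x - z‖ ∧ ∀ y,
      q y ≤ ‖y - z‖ ^ 2 / (2 * max (infDist x S) R₀) + max (infDist x S) R₀ / 2 := by
    intro x
    obtain ⟨z, hz, hxz⟩ := hc.exists_infDist_eq_dist hS x
    refine ⟨z, by rw [hxz, dist_eq_norm], fun y => ?_⟩
    have h1 := A4_hub_le (s := infDist y S) hR infDist_nonneg (le_max_right (infDist x S) R₀)
    have h2 : infDist y S ≤ ‖y - z‖ := by rw [← dist_eq_norm]; exact infDist_le_dist_of_mem hz
    have h3 : infDist y S ^ 2 / (2 * max (infDist x S) R₀) ≤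
        ‖y - z‖ ^ 2 / (2 * max (infDist x S) R₀) :=
      div_le_div_of_nonneg_right (pow_le_pow_left₀ infDist_nonneg h2 2)
        (by have := hρ0 x; positivity)
    simp only [hq]
    linarith
  have hsc : ∀ x k : Sp N,
      q (x + k) + q (x - k) - 2 * q x ≤ (max (infDist x S) R₀)⁻¹ * ‖k‖ ^ 2 := by
    intro x k
    obtain ⟨z, hz, hy⟩ := key x
    have h1 := hy (x + k)
    have h2 := hy (x - k)
    have h3 : ‖x + k - z‖ ^ 2 + ‖x - k - z‖ ^ 2 = 2 * ‖x - z‖ ^ 2 + 2 * ‖k‖ ^ 2 := by
      have e1 : x + k - z = (x - z) + k := by abel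
      have e2 : x - k - z = (x - z) - k := by abel
      rw [e1, e2, norm_add_sq_real (x - z) k, norm_sub_sq_real (x - z) k]
      ring
    have h4 : q x = ‖x - z‖ ^ 2 / (2 * max (infDist x S) R₀) + max (infDist x S) R₀ / 2 := by
      simp only [hq, A4_hub]
      rw [← hz]
    have h5 : ‖x + k - z‖ ^ 2 / (2 * max (infDist x S) R₀) +
        ‖x - k - z‖ ^ 2 / (2 * max (infDist x S) R₀) =
        2 * (‖x - z‖ ^ 2 / (2 * max (infDist x S) R₀)) +
          (max (infDist x S) R₀)⁻¹ * ‖k‖ ^ 2 := by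
      rw [← add_div, h3]
      have := hρ0 x
      field_simp
    linarith
  have hl : LipschitzWith (K * 1) fun x : Sp N => G (max (infDist x S) R₀) :=
    hGl.comp (hd.max_const R₀)
  have hal : ∀ᵐ x, fderiv ℝ (fun x : Sp N => G (max (infDist x S) R₀)) x (gradient q x) =
      ‖fderiv ℝ (fun x : Sp N => G (max (infDist x S) R₀)) x‖ := by
    filter_upwards [hl.ae_differentiableAt, hql.ae_differentiableAt] with x hlx hqx
    rcases le_total (infDist x S) R₀ with h | h
    · have hmin : IsLocalMin (fun x : Sp N => G (max (infDist x S) R₀)) x :=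
        Eventually.of_forall fun y => hG (by rw [max_eq_right h]; exact le_max_right _ _)
      rw [hmin.fderiv_eq_zero]
      simp
    · refine align hlx hqx ?_ (Eventually.of_forall fun y hy => hG (max_le_max ?_ le_rfl))
      · obtain ⟨z, hz, hy⟩ := key x
        rw [max_eq_left h] at hy
        have hpos : 0 < infDist x S := lt_of_lt_of_le hR h
        have h1 : HasFDerivAt (fun y : Sp N => ‖y - z‖ ^ 2)
            (2 • (innerSL ℝ (x - z)).comp (ContinuousLinearMap.id ℝ (Sp N))) x :=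
          ((hasFDerivAt_id x).sub_const z).norm_sq
        have h2 := ((h1.const_mul (2 * infDist x S)⁻¹).add_const (infDist x S / 2)).sub
          hqx.hasFDerivAt
        have hmin : IsLocalMin
            ((fun y : Sp N => (2 * infDist x S)⁻¹ * ‖y - z‖ ^ 2 + infDist x S / 2) - q) x := by
          refine Eventually.of_forall fun y => ?_
          have h3 := hy y
          have h4 : q x = infDist x S := A4_hub_eq hR h
          have h5 : (2 * infDist x S)⁻¹ * ‖x - z‖ ^ 2 = infDist x S / 2 := by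
            rw [← hz]; field_simp
          rw [div_eq_inv_mul] at h3
          simp only [Pi.sub_apply]
          linarith
        have h6 := hmin.hasFDerivAt_eq_zero h2
        have h7 : gradient q x = (infDist x S)⁻¹ • (x - z) := by
          refine ext_inner_right ℝ fun k => ?_
          rw [inner_gradient_left, ← sub_eq_zero.1 h6, real_inner_smul_left]
          simp only [smul_apply, ContinuousLinearMap.comp_apply,
            ContinuousLinearMap.id_apply, innerSL_apply_apply, smul_eq_mul, nsmul_eq_mul]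
          push_cast
          field_simp
        rw [h7, norm_smul, ← hz, Real.norm_eq_abs, abs_of_pos (inv_pos.2 hpos)]
        exact inv_mul_cancel₀ hpos.ne'
      · have h3 : q x = infDist x S := A4_hub_eq hR h
        have h4 : infDist y S ≤ q y := A4_hub_ge hR _
        linarith
  simpa only [div_eq_mul_inv] using calib_of_potential hql ha hsc hl hal

theorem calib_radial (x₀ : Sp N) {G : ℝ → ℝ} {K : ℝ≥0}
    (hG : Monotone G) (hGl : LipschitzWith K G) {R₀ : ℝ} (hR : 0 < R₀) :
    Calib (fun x => G (max ‖x - x₀‖ R₀)) (fun x => N / max ‖x - x₀‖ R₀) univ := by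
  have h := calib_dist (singleton_nonempty x₀) isClosed_singleton hG hGl hR
  simpa only [infDist_singleton, dist_eq_norm] using h

/-- Potential `q = -‖x‖`, which is concave. -/
theorem calib_cone (hN : 0 < N) {G : ℝ → ℝ} {K : ℝ≥0} (hG : Monotone G)
    (hGl : LipschitzWith K G) :
    Calib (fun x : Sp N => G (-‖x‖)) (fun _ => 0) univ := by
  have : Nonempty (Fin N) := ⟨⟨0, hN⟩⟩
  have hn : LipschitzWith 1 fun x : Sp N => ‖x‖ := lipschitzWith_one_norm
  have hq : LipschitzWith 1 fun x : Sp N => -‖x‖ := hn.neg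
  have hsc : ∀ x k : Sp N,
      -‖x + k‖ + -‖x - k‖ - 2 * -‖x‖ ≤ (fun _ : Sp N => (0 : ℝ)) x * ‖k‖ ^ 2 := by
    intro x k
    have h1 := norm_add_le (x + k) (x - k)
    have h2 : x + k + (x - k) = (2 : ℝ) • x := by rw [two_smul]; abel
    rw [h2, norm_smul, Real.norm_eq_abs, abs_of_pos (by norm_num : (0 : ℝ) < 2)] at h1
    simp only [zero_mul]
    linarith
  have hl : LipschitzWith (K * 1) fun x : Sp N => G (-‖x‖) := hGl.comp hq
  have hal : ∀ᵐ x, fderiv ℝ (fun x : Sp N => G (-‖x‖)) x (gradient (fun x : Sp N => -‖x‖) x) =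
      ‖fderiv ℝ (fun x : Sp N => G (-‖x‖)) x‖ := by
    filter_upwards [hl.ae_differentiableAt, hn.ae_differentiableAt] with x hlx hnx
    refine align hlx hnx.neg ?_ (Eventually.of_forall fun y hy => hG hy)
    rw [gradient, LinearIsometryEquiv.norm_map, fderiv_fun_neg, norm_neg]
    exact norm_fderiv_norm hnx
  simpa only [mul_zero] using calib_of_potential hq continuous_const hsc hl hal

end Pool.Agent.MCF5
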