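import Pool.Agent.Lib.MP_5aed36_gt.Core

/-! Alexandrov's theorem through the resolvent of the subdifferential. -/

open MeasureTheory Set Filter Topology Metric Module
open scoped ENNReal NNReal RealInnerProductSpace

namespace Pool.Agent.MCF5

namespace Alex

section General

variable {W : Type*} [NormedAddCommGroup W] [NormedSpace ℝ W]

/-- A continuous midpoint convex function is convex. -/
theorem convexOn_of_midpoint {g : W → ℝ} (hc : Continuous g)
    (h : ∀ x k, 2 * g x ≤ g (x + k) + g (x - k)) : ConvexOn ℝ univ g := by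
  refine ⟨convex_univ, fun x _ y _ a b ha hb hab => ?_⟩
  have hab' : a = 1 - b := by linarith
  subst hab'
  have key : ∀ ε : ℝ, 0 < ε → g (x + b • (y - x)) ≤ (1 - b) * g x + b * g y + ε := by
    intro ε hε
    set φ : ℝ → ℝ := fun t => g (x + t • (y - x)) - ((1 - t) * g x + t * g y) + ε * (t ^ 2 - t)
      with hφ
    have hφc : Continuous φ := by
      simp only [hφ]; fun_prop
    obtain ⟨t, ht, hmax⟩ := isCompact_Icc.exists_isMaxOn (nonempty_Icc.2 (zero_le_one' ℝ))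
      hφc.continuousOn
    have h0 : φ t ≤ 0 := by
      rcases eq_or_lt_of_le ht.1 with h0 | h0
      · rw [← h0]; simp [hφ]
      rcases eq_or_lt_of_le ht.2 with h1 | h1
      · rw [h1]; simp [hφ]
      exfalso
      set s := min t (1 - t) with hs
      have hs0 : 0 < s := lt_min h0 (by linarith)
      have hs1 : s ≤ t := min_le_left _ _
      have hs2 : s ≤ 1 - t := min_le_right _ _
      have e1 : φ (t + s) ≤ φ t := hmax (⟨by linarith, by linarith⟩ : t + s ∈ Icc (0 : ℝ) 1)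
      have e2 : φ (t - s) ≤ φ t := hmax (⟨by linarith, by linarith⟩ : t - s ∈ Icc (0 : ℝ) 1)
      have e3 := h (x + t • (y - x)) (s • (y - x))
      have r1 : x + t • (y - x) + s • (y - x) = x + (t + s) • (y - x) := by module
      have r2 : x + t • (y - x) - s • (y - x) = x + (t - s) • (y - x) := by module
      rw [r1, r2] at e3
      simp only [hφ] at e1 e2
      have : 0 < ε * s ^ 2 := by positivity
      nlinarith
    have h1 : φ b ≤ φ t := hmax (⟨hb, by linarith⟩ : b ∈ Icc (0 : ℝ) 1)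
    have h2 : φ b ≤ 0 := h1.trans h0
    simp only [hφ] at h2
    have : 0 ≤ ε * b ^ 2 := by positivity
    have : 0 ≤ ε * (1 - b) := by positivity
    nlinarith
  have r : (1 - b) • x + b • y = x + b • (y - x) := by module
  rw [r]
  simp only [smul_eq_mul]
  exact le_of_forall_pos_le_add key

variable [FiniteDimensional ℝ W] [MeasurableSpace W] [BorelSpace W]

/-- Lipschitz maps preserve null sets. -/
theorem null_image {J : W → W} {K : ℝ≥0} (hJ : LipschitzWith K J) (μ : Measure W)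
    [μ.IsAddHaarMeasure] {s : Set W} (hs : μ s = 0) : μ (J '' s) = 0 := by
  have h1 : μH[finrank ℝ W] s = 0 :=
    Measure.absolutelyContinuous_isAddHaarMeasure (μH[finrank ℝ W]) μ hs
  have h2 : μH[finrank ℝ W] (J '' s) = 0 := by
    have := hJ.hausdorffMeasure_image_le (d := finrank ℝ W) (by positivity) s
    rw [h1, mul_zero] at this
    exact le_antisymm this zero_le
  exact Measure.absolutelyContinuous_isAddHaarMeasure μ (μH[finrank ℝ W]) h2

/-- Almost every value of a surjective Lipschitz map is taken at a regular point. -/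
theorem ae_regular {J : W → W} {K : ℝ≥0} (hJ : LipschitzWith K J) (hs : Function.Surjective J)
    (μ : Measure W) [μ.IsAddHaarMeasure] :
    ∀ᵐ x ∂μ, ∃ y, J y = x ∧ ∃ A : W ≃L[ℝ] W, HasFDerivAt J (A : W →L[ℝ] W) y := by
  have h1 : μ (J '' {y | ¬ DifferentiableAt ℝ J y}) = 0 :=
    null_image hJ μ (ae_iff.1 (hJ.ae_differentiableAt (μ := μ)))
  have h2 : μ (J '' {y | DifferentiableAt ℝ J y ∧ (fderiv ℝ J y).det = 0}) = 0 :=
    addHaar_image_eq_zero_of_det_fderivWithin_eq_zero μ (f' := fderiv ℝ J)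
      (fun y hy => hy.1.hasFDerivAt.hasFDerivWithinAt) (fun y hy => hy.2)
  filter_upwards [measure_eq_zero_iff_ae_notMem.1 h1, measure_eq_zero_iff_ae_notMem.1 h2]
    with x hx1 hx2
  obtain ⟨y, rfl⟩ := hs x
  have d : DifferentiableAt ℝ J y := by
    by_contra hd
    exact hx1 ⟨y, hd, rfl⟩
  have hdet : (fderiv ℝ J y).det ≠ 0 := fun h0 => hx2 ⟨y, ⟨d, h0⟩, rfl⟩
  refine ⟨y, rfl, (fderiv ℝ J y).toContinuousLinearEquivOfDetNeZero hdet, ?_⟩
  simpa using d.hasFDerivAt

end General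

section Inner

variable {E : Type*} [NormedAddCommGroup E] [InnerProductSpace ℝ E]

/-- `p` is a subgradient of `g` at `x`. -/
def SubG (g : E → ℝ) (x p : E) : Prop := ∀ z, g x + ⟪p, z - x⟫ ≤ g z

theorem SubG.mono {g : E → ℝ} {x p x' p' : E} (h : SubG g x p) (h' : SubG g x' p') :
    0 ≤ ⟪p - p', x - x'⟫ := by
  have h1 := h x'
  have h2 := h' x
  have e : x' - x = -(x - x') := by abel
  rw [e, inner_neg_right] at h1
  rw [inner_sub_left]
  linarith

theorem exists_subG [CompleteSpace E] {g : E → ℝ} (hc : Continuous g) (hg : ConvexOn ℝ univ g)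
    (x : E) : ∃ p, SubG g x p := by
  have hconv : Convex ℝ {q : E × ℝ | g q.1 < q.2} := by
    simpa using hg.convex_strict_epigraph
  have hopen : IsOpen {q : E × ℝ | g q.1 < q.2} :=
    isOpen_lt (hc.comp continuous_fst) continuous_snd
  obtain ⟨f, hf⟩ := geometric_hahn_banach_open_point hconv hopen
    (x := (x, g x)) (by simp)
  set c := f (0, 1) with hcdef
  set l : E →L[ℝ] ℝ := f.comp (ContinuousLinearMap.inl ℝ E ℝ) with hl
  have hsplit : ∀ (z : E) (t : ℝ), f (z, t) = l z + t * c := by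
    intro z t
    have : ((z, t) : E × ℝ) = (z, 0) + t • ((0 : E), (1 : ℝ)) := by simp
    rw [this, map_add, map_smul]; simp [hl, hcdef]
  have hc0 : c < 0 := by
    have := hf (x, g x + 1) (by simp)
    rw [hsplit, hsplit] at this
    linarith
  refine ⟨(InnerProductSpace.toDual ℝ E).symm ((-c)⁻¹ • l), fun z => ?_⟩
  rw [InnerProductSpace.toDual_symm_apply]
  refine le_of_forall_pos_le_add fun ε hε => ?_
  have := hf (z, g z + ε) (by simpa using hε)
  rw [hsplit, hsplit] at this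
  have h2 : l (z - x) ≤ (-c) * (g z + ε - g x) := by rw [map_sub]; linarith
  have h3 : (-c)⁻¹ * l (z - x) ≤ g z + ε - g x := by
    rw [inv_mul_le_iff₀ (by linarith)]; exact h2
  simp only [smul_apply, smul_eq_mul]
  linarith

theorem exists_prox [FiniteDimensional ℝ E] {g : E → ℝ} (hc : Continuous g)
    (hg : ConvexOn ℝ univ g) (y : E) : ∃ x, SubG g x (y - x) := by
  have : CompleteSpace E := FiniteDimensional.complete ℝ E
  have : ProperSpace E := FiniteDimensional.proper ℝ E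
  obtain ⟨p, hp⟩ := exists_subG hc hg y
  set F : E → ℝ := fun x => g x + ‖x - y‖ ^ 2 / 2 with hF
  have hFc : Continuous F := by simp only [hF]; fun_prop
  obtain ⟨x, hx, hmin⟩ := (isCompact_closedBall y (2 * ‖p‖)).exists_isMinOn
    ⟨y, mem_closedBall_self (by positivity)⟩ hFc.continuousOn
  have hglob : ∀ z, F x ≤ F z := by
    intro z
    by_cases hz : z ∈ closedBall y (2 * ‖p‖)
    · exact hmin hz
    · have h1 : F x ≤ F y := hmin (mem_closedBall_self (by positivity))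
      rw [mem_closedBall, dist_eq_norm, not_le] at hz
      have h2 := hp z
      have h3 := abs_real_inner_le_norm p (z - y)
      have h4 := neg_abs_le ⟪p, z - y⟫
      simp only [hF, sub_self, norm_zero] at h1 ⊢
      nlinarith [norm_nonneg p, norm_nonneg (z - y)]
  refine ⟨x, fun z => ?_⟩
  have key : ∀ t : ℝ, 0 < t → t ≤ 1 →
      g x + ⟪y - x, z - x⟫ ≤ g z + t * (‖z - x‖ ^ 2 / 2) := by
    intro t ht ht1
    have h1 := hglob (x + t • (z - x))
    have h2 := hg.2 (mem_univ x) (mem_univ z) (show 0 ≤ 1 - t by linarith) ht.le (by ring)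
    have r : (1 - t) • x + t • z = x + t • (z - x) := by module
    rw [r] at h2
    simp only [smul_eq_mul] at h2
    have r2 : x + t • (z - x) - y = (x - y) + t • (z - x) := by abel
    have r3 : ⟪y - x, z - x⟫ = -⟪x - y, z - x⟫ := by
      rw [← inner_neg_left, neg_sub]
    simp only [hF] at h1
    rw [r2, norm_add_sq_real, inner_smul_right, norm_smul, mul_pow, Real.norm_eq_abs,
      sq_abs] at h1
    rw [r3]
    have h4 : t * (g x + -⟪x - y, z - x⟫) ≤ t * (g z + t * (‖z - x‖ ^ 2 / 2)) := by nlinarith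
    exact le_of_mul_le_mul_left h4 ht
  refine le_of_forall_pos_le_add fun ε hε => ?_
  have hpos : 0 < ‖z - x‖ ^ 2 / 2 + 1 := by positivity
  have h1 := key (min 1 (ε / (‖z - x‖ ^ 2 / 2 + 1))) (lt_min one_pos (by positivity))
    (min_le_left _ _)
  have h2 : min 1 (ε / (‖z - x‖ ^ 2 / 2 + 1)) * (‖z - x‖ ^ 2 / 2) ≤ ε := by
    calc _ ≤ ε / (‖z - x‖ ^ 2 / 2 + 1) * (‖z - x‖ ^ 2 / 2 + 1) :=
          mul_le_mul (min_le_right _ _) (by linarith) (by positivity) (by positivity)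
      _ = ε := by field_simp
  linarith

theorem inverse_expansion {J : E → E} (hJ : ∀ y y', ‖J y - J y'‖ ^ 2 ≤ ⟪J y - J y', y - y'⟫)
    {y : E} {A : E ≃L[ℝ] E} (hA : HasFDerivAt J (A : E →L[ℝ] E) y) {ε : ℝ} (hε : 0 < ε) :
    ∃ δ, 0 < δ ∧ ∀ y', ‖J y' - J y‖ < δ →
      ‖y' - y - A.symm (J y' - J y)‖ ≤ ε * ‖J y' - J y‖ := by
  set a : ℝ := ‖(A.symm : E →L[ℝ] E)‖ + 1 with ha
  have ha0 : 0 < a := by positivity
  have hsym : ∀ v, ‖A.symm v‖ ≤ a * ‖v‖ := fun v =>
    ((A.symm : E →L[ℝ] E).le_opNorm v).trans (by gcongr; linarith)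
  set η : ℝ := min (1 / (2 * a)) (ε / (2 * a ^ 2)) with hη
  have hη0 : 0 < η := lt_min (by positivity) (by positivity)
  have hη1 : a * η ≤ 1 / 2 := by
    calc a * η ≤ a * (1 / (2 * a)) := by gcongr; exact min_le_left _ _
      _ = 1 / 2 := by field_simp
  have hη2 : a * η * (2 * a) ≤ ε := by
    calc a * η * (2 * a) ≤ a * (ε / (2 * a ^ 2)) * (2 * a) := by gcongr; exact min_le_right _ _
      _ = ε := by field_simp
  obtain ⟨ρ', hρ', hnear⟩ := Metric.eventually_nhds_iff.1 (hA.isLittleO.def hη0)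
  set ρ := ρ' / 2 with hρ
  have hρ0 : 0 < ρ := by positivity
  have near : ∀ y', ‖y' - y‖ ≤ ρ →
      ‖y' - y - A.symm (J y' - J y)‖ ≤ a * η * ‖y' - y‖ ∧ ‖y' - y‖ ≤ 2 * a * ‖J y' - J y‖ := by
    intro y' hy'
    have h1 := hnear (y := y') (by rw [dist_eq_norm]; linarith)
    have h2 : y' - y - A.symm (J y' - J y) = -A.symm (J y' - J y - A (y' - y)) := by
      rw [map_sub A.symm (J y' - J y), A.symm_apply_apply]; abel
    have h3 : ‖y' - y - A.symm (J y' - J y)‖ ≤ a * η * ‖y' - y‖ := by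
      rw [h2, norm_neg, mul_assoc]
      exact (hsym _).trans (mul_le_mul_of_nonneg_left h1 ha0.le)
    refine ⟨h3, ?_⟩
    have h4 := norm_sub_norm_le (y' - y) (A.symm (J y' - J y))
    have h5 := hsym (J y' - J y)
    have h6 : a * η * ‖y' - y‖ ≤ 1 / 2 * ‖y' - y‖ := by gcongr
    linarith
  refine ⟨ρ / (4 * a ^ 2), by positivity, fun y' hy' => ?_⟩
  by_cases hc : ‖y' - y‖ ≤ ρ
  · obtain ⟨h1, h2⟩ := near y' hc
    calc _ ≤ a * η * ‖y' - y‖ := h1
      _ ≤ a * η * (2 * a * ‖J y' - J y‖) := by gcongr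
      _ = a * η * (2 * a) * ‖J y' - J y‖ := by ring
      _ ≤ _ := by gcongr
  exfalso
  rw [not_le] at hc
  have hv : 0 < ‖y' - y‖ := hρ0.trans hc
  set s := ρ / ‖y' - y‖ with hs
  have hs0 : 0 < s := by positivity
  have hs1 : s < 1 := by rw [hs, div_lt_one hv]; exact hc
  set y₁ := y + s • (y' - y) with hy₁
  have e1 : y₁ - y = s • (y' - y) := by rw [hy₁]; abel
  have e2 : y' - y₁ = (1 - s) • (y' - y) := by rw [hy₁]; module
  have n1 : ‖y₁ - y‖ = ρ := by
    rw [e1, norm_smul, Real.norm_eq_abs, abs_of_pos hs0, hs]; field_simp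
  have h1 := (near y₁ n1.le).2
  rw [n1] at h1
  have h2 := hJ y₁ y
  have h3 : 0 ≤ ⟪J y' - J y₁, y₁ - y⟫ := by
    have h := (sq_nonneg _).trans (hJ y' y₁)
    rw [e2, inner_smul_right] at h
    rw [e1, inner_smul_right]
    exact mul_nonneg hs0.le (nonneg_of_mul_nonneg_right h (by linarith) |> fun h' => h')
  have h4 : ⟪J y' - J y, y₁ - y⟫ = ⟪J y' - J y₁, y₁ - y⟫ + ⟪J y₁ - J y, y₁ - y⟫ := by
    rw [← inner_add_left]; congr 1; abel
  have h5 := real_inner_le_norm (J y' - J y) (y₁ - y)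
  rw [n1] at h5
  have h6 : ρ ^ 2 ≤ (2 * a * ‖J y₁ - J y‖) ^ 2 := by gcongr
  have h7 : ‖J y' - J y‖ * (4 * a ^ 2) < ρ := by rwa [lt_div_iff₀ (by positivity)] at hy'
  have h8 : ‖J y₁ - J y‖ ^ 2 ≤ ‖J y' - J y‖ * ρ := by linarith
  have h9 : 4 * a ^ 2 * ‖J y₁ - J y‖ ^ 2 ≤ 4 * a ^ 2 * (‖J y' - J y‖ * ρ) := by gcongr
  nlinarith

/-- First order expansion of the subdifferential at almost every point. -/
theorem ae_grad_expansion [FiniteDimensional ℝ E] [MeasurableSpace E] [BorelSpace E]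
    (μ : Measure E) [μ.IsAddHaarMeasure] {g : E → ℝ} (hc : Continuous g)
    (hg : ConvexOn ℝ univ g) :
    ∀ᵐ x ∂μ, ∃ (p : E) (B : E →L[ℝ] E), ∀ ε : ℝ, 0 < ε → ∃ δ, 0 < δ ∧ ∀ x' p', SubG g x' p' →
      ‖x' - x‖ < δ → ‖p' - p - B (x' - x)‖ ≤ ε * ‖x' - x‖ := by
  have : CompleteSpace E := FiniteDimensional.complete ℝ E
  choose J hJ using exists_prox hc hg
  have firm : ∀ y y', ‖J y - J y'‖ ^ 2 ≤ ⟪J y - J y', y - y'⟫ := by
    intro y y'
    have h := (hJ y).mono (hJ y')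
    have e : y - J y - (y' - J y') = (y - y') - (J y - J y') := by abel
    rw [e, inner_sub_left, real_inner_self_eq_norm_sq, real_inner_comm] at h
    linarith
  have hlip : LipschitzWith 1 J := by
    refine LipschitzWith.of_dist_le_mul fun y y' => ?_
    rw [dist_eq_norm, dist_eq_norm, NNReal.coe_one, one_mul]
    have h1 := (firm y y').trans (real_inner_le_norm _ _)
    by_contra hlt
    rw [not_le] at hlt
    nlinarith [norm_nonneg (y - y')]
  have hfix : ∀ x p, SubG g x p → J (x + p) = x := by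
    intro x p h
    have h1 := h.mono (hJ (x + p))
    have e : p - (x + p - J (x + p)) = -(x - J (x + p)) := by abel
    rw [e, inner_neg_left, real_inner_self_eq_norm_sq] at h1
    have h2 : ‖x - J (x + p)‖ ^ 2 = 0 := le_antisymm (by linarith) (sq_nonneg _)
    rw [sq_eq_zero_iff, norm_eq_zero, sub_eq_zero] at h2
    exact h2.symm
  have hsurj : Function.Surjective J := fun x => by
    obtain ⟨p, hp⟩ := exists_subG hc hg x
    exact ⟨x + p, hfix x p hp⟩
  filter_upwards [ae_regular hlip hsurj μ] with x hx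
  obtain ⟨y, rfl, A, hA⟩ := hx
  refine ⟨y - J y, (A.symm : E →L[ℝ] E) - ContinuousLinearMap.id ℝ E, fun ε hε => ?_⟩
  obtain ⟨δ, hδ, h⟩ := inverse_expansion firm hA hε
  refine ⟨δ, hδ, fun x' p' hs hx' => ?_⟩
  have h1 := h (x' + p') (by rwa [hfix x' p' hs])
  rw [hfix x' p' hs] at h1
  convert h1 using 2
  simp only [sub_apply, ContinuousLinearMap.id_apply, ContinuousLinearEquiv.coe_coe]
  abel

/-- Integration of the expansion along rays. -/
theorem second_order [CompleteSpace E] {g : E → ℝ} (hc : Continuous g) (hg : ConvexOn ℝ univ g)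
    {x p : E} {B : E →L[ℝ] E} {ε δ : ℝ} (hε : 0 < ε)
    (h : ∀ x' p', SubG g x' p' → ‖x' - x‖ < δ → ‖p' - p - B (x' - x)‖ ≤ ε * ‖x' - x‖)
    {k : E} (hk : ‖k‖ < δ) :
    |g (x + k) - g x - ⟪p, k⟫ - (1 / 2) * ⟪B k, k⟫| ≤ ε * ‖k‖ ^ 2 := by
  choose q hq using exists_subG hc hg
  have hb : ∀ t : ℝ, 0 ≤ t → t ≤ 1 →
      |⟪q (x + t • k), k⟫ - ⟪p, k⟫ - t * ⟪B k, k⟫| ≤ ε * ‖k‖ ^ 2 := by
    intro t h0 h1
    have e : x + t • k - x = t • k := by abel
    have n : ‖t • k‖ ≤ ‖k‖ := by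
      rw [norm_smul, Real.norm_eq_abs, abs_of_nonneg h0]
      exact mul_le_of_le_one_left (norm_nonneg _) h1
    have h2 := h _ _ (hq (x + t • k)) (by rw [e]; linarith)
    rw [e] at h2
    have h3 := abs_real_inner_le_norm (q (x + t • k) - p - B (t • k)) k
    rw [inner_sub_left, inner_sub_left, map_smul, real_inner_smul_left] at h3
    calc _ ≤ _ := h3
      _ ≤ ε * ‖k‖ * ‖k‖ := by
          gcongr
          rw [← map_smul]
          exact h2.trans (by gcongr)
      _ = _ := by ring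
  have hφ : Continuous fun t : ℝ => g (x + t • k) := by fun_prop
  have hsl : ∀ s t : ℝ, g (x + s • k) + (t - s) * ⟪q (x + s • k), k⟫ ≤ g (x + t • k) := by
    intro s t
    have h1 := hq (x + s • k) (x + t • k)
    have e : x + t • k - (x + s • k) = (t - s) • k := by module
    rwa [e, inner_smul_right] at h1
  have hder : ∀ c₀ c₁ c₂ t : ℝ,
      HasDerivAt (fun t : ℝ => c₀ + c₁ * t + c₂ / 2 * t ^ 2) (c₁ + c₂ * t) t := by
    intro c₀ c₁ c₂ t
    have := (((hasDerivAt_id t).const_mul c₁).const_add c₀).add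
      ((hasDerivAt_pow 2 t).const_mul (c₂ / 2))
    exact this.congr_deriv (by simp; ring)
  have up := image_le_of_liminf_slope_right_le_deriv_boundary (a := 0) (b := 1)
    (f := fun t : ℝ => g (x + t • k)) hφ.continuousOn
    (B := fun t : ℝ => g x + (⟪p, k⟫ + ε * ‖k‖ ^ 2) * t + ⟪B k, k⟫ / 2 * t ^ 2)
    (B' := fun t : ℝ => (⟪p, k⟫ + ε * ‖k‖ ^ 2) + ⟪B k, k⟫ * t) (by simp) (by fun_prop)
    (fun t _ => (hder _ _ _ t).hasDerivWithinAt) (by
      intro t ht r hr
      apply Eventually.frequently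
      have c1 : ∀ᶠ s in 𝓝 t, (⟪p, k⟫ + ε * ‖k‖ ^ 2) + ⟪B k, k⟫ * s < r :=
        (by fun_prop : Continuous fun s : ℝ =>
          (⟪p, k⟫ + ε * ‖k‖ ^ 2) + ⟪B k, k⟫ * s).continuousAt.eventually_lt continuousAt_const hr
      filter_upwards [c1.filter_mono nhdsWithin_le_nhds, Ioo_mem_nhdsGT ht.2] with s hs1 hs2
      have h1 := (abs_le.1 (hb s (ht.1.trans hs2.1.le) hs2.2.le)).2
      have h2 := hsl s t
      rw [slope_def_field, div_lt_iff₀ (sub_pos.2 hs2.1)]
      have h3 : ⟪q (x + s • k), k⟫ < r := by linarith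
      nlinarith [hs2.1]) (x := 1) (by simp)
  have down := image_le_of_liminf_slope_right_le_deriv_boundary (a := 0) (b := 1)
    (f := fun t : ℝ => -g (x + t • k)) hφ.neg.continuousOn
    (B := fun t : ℝ => -g x + (-⟪p, k⟫ + ε * ‖k‖ ^ 2) * t + (-⟪B k, k⟫) / 2 * t ^ 2)
    (B' := fun t : ℝ => (-⟪p, k⟫ + ε * ‖k‖ ^ 2) + (-⟪B k, k⟫) * t) (by simp) (by fun_prop)
    (fun t _ => (hder _ _ _ t).hasDerivWithinAt) (by
      intro t ht r hr
      apply Eventually.frequently
      filter_upwards [self_mem_nhdsWithin] with s hs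
      have hs' : t < s := hs
      have h1 := (abs_le.1 (hb t ht.1 ht.2.le)).1
      have h2 := hsl t s
      rw [slope_def_field, div_lt_iff₀ (sub_pos.2 hs')]
      have h3 : -⟪q (x + t • k), k⟫ < r := by linarith
      nlinarith) (x := 1) (by simp)
  simp only [one_smul, mul_one, one_pow] at up down
  rw [abs_le]
  constructor <;> linarith

end Inner

theorem expands_symm {W : Type*} [NormedAddCommGroup W] [NormedSpace ℝ W] {f : W → ℝ} {z : W}
    {P : W →L[ℝ] ℝ} {Q : W →L[ℝ] W →L[ℝ] ℝ} (h : Expands f z P Q) :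
    ∃ Q' : W →L[ℝ] W →L[ℝ] ℝ, (∀ k l, Q' k l = Q' l k) ∧ Expands f z P Q' := by
  refine ⟨(1 / 2 : ℝ) • (Q + Q.flip), fun k l => ?_, ?_⟩
  · simp [add_comm]
  · unfold Expands at h ⊢
    convert h using 3 with k
    simp
    ring

end Alex

open Alex in
/-- Alexandrov's theorem for continuous semiconvex functions. -/
theorem alexandrov {W : Type*} [NormedAddCommGroup W] [NormedSpace ℝ W] [FiniteDimensional ℝ W]
    [MeasurableSpace W] [BorelSpace W] (μ : Measure W) [μ.IsAddHaarMeasure] {f : W → ℝ}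
    (hc : Continuous f) {C : ℝ} (h : ∀ x k, 2 * f x ≤ f (x + k) + f (x - k) + C * ‖k‖ ^ 2) :
    ∀ᵐ z ∂μ, ∃ (P : W →L[ℝ] ℝ) (Q : W →L[ℝ] W →L[ℝ] ℝ),
      (∀ k l, Q k l = Q l k) ∧ Expands f z P Q := by
  set e : W ≃L[ℝ] Sp (finrank ℝ W) := toEuclidean with he
  set K : ℝ := |C| * ‖(e.symm : Sp (finrank ℝ W) →L[ℝ] W)‖ ^ 2 with hK
  set g : Sp (finrank ℝ W) → ℝ := fun x => f (e.symm x) + K / 2 * ‖x‖ ^ 2 with hg
  have hgc : Continuous g := by simp only [hg]; fun_prop
  have hgv : ConvexOn ℝ univ g := by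
    refine convexOn_of_midpoint hgc fun x k => ?_
    have h1 := h (e.symm x) (e.symm k)
    have h2 : ‖e.symm k‖ ≤ ‖(e.symm : Sp (finrank ℝ W) →L[ℝ] W)‖ * ‖k‖ :=
      (e.symm : Sp (finrank ℝ W) →L[ℝ] W).le_opNorm k
    have h3 : C * ‖e.symm k‖ ^ 2 ≤ K * ‖k‖ ^ 2 := by
      calc _ ≤ |C| * ‖e.symm k‖ ^ 2 := by gcongr; exact le_abs_self C
        _ ≤ |C| * (‖(e.symm : Sp (finrank ℝ W) →L[ℝ] W)‖ * ‖k‖) ^ 2 := by gcongr
        _ = _ := by rw [hK]; ring
    simp only [hg, map_add, map_sub]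
    rw [norm_add_sq_real, norm_sub_sq_real]
    linarith
  have : (μ.map e).IsAddHaarMeasure := e.isAddHaarMeasure_map μ
  have hae := ae_of_ae_map e.continuous.measurable.aemeasurable
    (ae_grad_expansion (μ.map e) hgc hgv)
  filter_upwards [hae] with z hz
  obtain ⟨p, B, hB⟩ := hz
  refine ⟨(innB (p - K • e z)).comp (e : W →L[ℝ] Sp (finrank ℝ W)), expands_symm
    (Q := innB.bilinearComp ((B - K • ContinuousLinearMap.id ℝ _).comp
      (e : W →L[ℝ] Sp (finrank ℝ W))) (e : W →L[ℝ] Sp (finrank ℝ W))) ?_⟩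
  unfold Expands
  rw [Asymptotics.isLittleO_iff]
  intro c hc0
  set a : ℝ := ‖(e : W →L[ℝ] Sp (finrank ℝ W))‖ ^ 2 + 1 with ha
  have ha0 : 0 < a := by positivity
  obtain ⟨δ, hδ, hB'⟩ := hB (c / a) (by positivity)
  have c1 : ∀ᶠ k in 𝓝 (0 : W), ‖e k‖ < δ :=
    (by fun_prop : Continuous fun k : W => ‖e k‖).continuousAt.eventually_lt continuousAt_const
      (by simpa using hδ)
  filter_upwards [c1] with k hk
  have h1 := second_order hgc hgv (by positivity) hB' hk
  have h2 : ‖e k‖ ≤ ‖(e : W →L[ℝ] Sp (finrank ℝ W))‖ * ‖k‖ :=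
    (e : W →L[ℝ] Sp (finrank ℝ W)).le_opNorm k
  have h3 : c / a * ‖e k‖ ^ 2 ≤ c * ‖k‖ ^ 2 := by
    calc _ ≤ c / a * (‖(e : W →L[ℝ] Sp (finrank ℝ W))‖ * ‖k‖) ^ 2 := by gcongr
      _ ≤ c / a * (a * ‖k‖ ^ 2) := by rw [mul_pow]; gcongr; linarith
      _ = _ := by field_simp
  rw [Real.norm_eq_abs, Real.norm_eq_abs, abs_of_nonneg (sq_nonneg ‖k‖)]
  refine le_trans (le_of_eq ?_) (h1.trans h3)
  congr 1
  simp only [hg, map_add, ContinuousLinearEquiv.symm_apply_apply, ContinuousLinearMap.comp_apply,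
    ContinuousLinearMap.bilinearComp_apply, innB_apply, sub_apply, smul_apply,
    ContinuousLinearMap.id_apply, ContinuousLinearEquiv.coe_coe, inner_sub_left,
    real_inner_smul_left, real_inner_self_eq_norm_sq]
  rw [norm_add_sq_real]
  ring

end Pool.Agent.MCF5
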