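import Pool.Agent.Lib.MP_5aed36_gt.Core

/-! Definitions for the level argument. -/

open MeasureTheory Set Filter Topology Metric
open scoped ENNReal NNReal RealInnerProductSpace symmDiff

namespace Pool.Agent.MCF5

variable {N : ℕ}

/-- De Giorgi perimeter. -/
noncomputable def perim (A : Set (Sp N)) : ℝ≥0∞ :=
  ⨆ (φ : Sp N → Sp N) (_ : ContDiff ℝ 1 φ) (_ : HasCompactSupport φ) (_ : ∀ x, ‖φ x‖ ≤ 1),
    ENNReal.ofReal (∫ x in A, dvg φ x)

/-- The curvature mass near level `a` stays above `j`. -/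
def Bad (κ : ℕ → Sp N → ℝ) (w : Sp N → ℝ) (a σ j : ℝ) : Prop :=
  ∀ᶠ n in atTop, j ≤ ∫ x in {x | |w x - a| < σ}, |κ n x|

end Pool.Agent.MCF5
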