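import Pool.Agent.Lib.MP_5aed36_gt.Defs
import Pool.Agent.Lib.MP_5aed36_gt.FDefs

/-! From the definitions of the statement to the internal ones. -/

open MeasureTheory Set Filter Topology Metric
open scoped ENNReal NNReal RealInnerProductSpace ContDiff

namespace Pool.Agent.MCF5

open Pool.Agent.LevelSetFlow

variable {N : ℕ}

theorem perimeter_eq (A : Set (Sp N)) : perimeter A = perim A := rfl

/-- Extension to negative times by the initial value. -/
noncomputable def extT (u : Zs N → ℝ) (z : Zs N) : ℝ := u (z.1, max z.2 0)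

theorem extT_of_nonneg (u : Zs N → ℝ) (x : Sp N) {t : ℝ} (ht : 0 ≤ t) :
    extT u (x, t) = u (x, t) := by
  simp [extT, max_eq_left ht]

theorem extT_of_nonpos (u : Zs N → ℝ) (x : Sp N) {t : ℝ} (ht : t ≤ 0) :
    extT u (x, t) = u (x, 0) := by
  simp [extT, max_eq_right ht]

theorem nice_extT {u : Zs N → ℝ} {R c : ℝ} (hu : IsWeakSolution u)
    (hout : ∀ x t, 0 ≤ t → R ≤ ‖x‖ → u (x, t) = c) : ∃ M, Nice M R c (extT u) := by
  obtain ⟨M, hM⟩ := hu.bdd
  refine ⟨M, ?_, fun z => hM _ (le_max_right _ _), fun z hz => hout _ _ (le_max_right _ _) hz⟩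
  have hc : Continuous fun z : Zs N => ((z.1, max z.2 0) : Zs N) := by fun_prop
  exact hu.cont.comp_continuous hc fun z => (le_max_right z.2 0 : (0 : ℝ) ≤ max z.2 0)

/-- The quadratic polynomial with jet `(P, Q)` at `z`. -/
noncomputable def quad (z : Zs N) (P : Zs N →L[ℝ] ℝ) (Q : Zs N →L[ℝ] Zs N →L[ℝ] ℝ)
    (w : Zs N) : ℝ := P (w - z) + (1 / 2) * Q (w - z) (w - z)

theorem contDiff_quad (z : Zs N) (P : Zs N →L[ℝ] ℝ) (Q : Zs N →L[ℝ] Zs N →L[ℝ] ℝ) :
    ContDiff ℝ ∞ (quad z P Q) := by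
  have h : ContDiff ℝ ∞ fun w : Zs N => w - z := contDiff_id.sub contDiff_const
  refine (P.contDiff.comp h).add (contDiff_const.mul ?_)
  exact (Q.contDiff.comp h).clm_apply h

theorem hasFDerivAt_quad {W : Type*} [NormedAddCommGroup W] [NormedSpace ℝ W] (x₀ x : W)
    (p : W →L[ℝ] ℝ) (X : W →L[ℝ] W →L[ℝ] ℝ) :
    HasFDerivAt (fun y => p (y - x₀) + (1 / 2) * X (y - x₀) (y - x₀))
      (p + (1 / 2 : ℝ) • (X (x - x₀) + X.flip (x - x₀))) x := by
  have h : HasFDerivAt (fun y : W => y - x₀) (ContinuousLinearMap.id ℝ W) x :=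
    (hasFDerivAt_id x).sub_const x₀
  have h1 := p.hasFDerivAt.comp x h
  have h2 := (X.hasFDerivAt.comp x h).clm_apply h
  have h3 := h1.add (h2.const_mul (1 / 2 : ℝ))
  refine HasFDerivAt.congr_fderiv (f := fun y => p (y - x₀) + (1 / 2) * X (y - x₀) (y - x₀)) h3 ?_
  ext k
  simp

theorem second_quad {W : Type*} [NormedAddCommGroup W] [NormedSpace ℝ W] (x₀ : W)
    (p : W →L[ℝ] ℝ) (X : W →L[ℝ] W →L[ℝ] ℝ) (η : W) :
    iteratedFDeriv ℝ 2 (fun y => p (y - x₀) + (1 / 2) * X (y - x₀) (y - x₀)) x₀ ![η, η] =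
      X η η := by
  rw [iteratedFDeriv_two_apply]
  have h1 : fderiv ℝ (fun y => p (y - x₀) + (1 / 2) * X (y - x₀) (y - x₀)) =
      fun x => p + (1 / 2 : ℝ) • ((X + X.flip) (x - x₀)) := by
    funext x
    rw [(hasFDerivAt_quad x₀ x p X).fderiv]
    simp
  have h : HasFDerivAt (fun y : W => y - x₀) (ContinuousLinearMap.id ℝ W) x₀ :=
    (hasFDerivAt_id x₀).sub_const x₀
  have h2 := (((X + X.flip).hasFDerivAt.comp x₀ h).const_smul (1 / 2 : ℝ)).const_add p
  rw [h1]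
  have h3 : fderiv ℝ (fun x => p + (1 / 2 : ℝ) • ((X + X.flip) (x - x₀))) x₀ = _ := h2.fderiv
  rw [h3]
  simp
  ring

theorem quad_space (z : Zs N) (P : Zs N →L[ℝ] ℝ) (Q : Zs N →L[ℝ] Zs N →L[ℝ] ℝ) :
    (fun x => quad z P Q (x, z.2)) = fun y => spat P (y - z.1) + (1 / 2) *
      (Q.bilinearComp (ContinuousLinearMap.inl ℝ (Sp N) ℝ) (ContinuousLinearMap.inl ℝ (Sp N) ℝ))
        (y - z.1) (y - z.1) := by
  funext y
  have h : ((y, z.2) : Zs N) - z = (y - z.1, 0) := by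
    ext <;> simp
  simp only [quad, spat, h, ContinuousLinearMap.comp_apply, ContinuousLinearMap.inl_apply,
    ContinuousLinearMap.bilinearComp_apply]

theorem spaceHess_quad (z : Zs N) (P : Zs N →L[ℝ] ℝ) (Q : Zs N →L[ℝ] Zs N →L[ℝ] ℝ) (η : Sp N) :
    spaceHess (quad z P Q) z η = Q (η, 0) (η, 0) := by
  unfold spaceHess
  rw [quad_space, second_quad]
  simp

theorem curvOp_quad (z : Zs N) (P : Zs N →L[ℝ] ℝ) (Q : Zs N →L[ℝ] Zs N →L[ℝ] ℝ) (η : Sp N) :
    curvOp (quad z P Q) z η = trQ Q - Q (η, 0) (η, 0) := by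
  simp [curvOp, spaceHess_quad, trQ]

theorem timeDeriv_quad (z : Zs N) (P : Zs N →L[ℝ] ℝ) (Q : Zs N →L[ℝ] Zs N →L[ℝ] ℝ) :
    timeDeriv (quad z P Q) z = P (0, 1) := by
  unfold timeDeriv
  have h1 := hasFDerivAt_quad z z P Q
  have h2 : HasDerivAt (fun t : ℝ => ((z.1, t) : Zs N)) ((0, 1) : Zs N) z.2 :=
    (hasDerivAt_const z.2 z.1).prodMk (hasDerivAt_id z.2)
  have h3 := HasFDerivAt.comp_hasDerivAt (f := fun t : ℝ => ((z.1, t) : Zs N)) z.2 h1 h2
  have h4 : deriv (fun t => quad z P Q (z.1, t)) z.2 = _ := h3.deriv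
  rw [h4]
  simp

theorem spaceGrad_quad (z : Zs N) (P : Zs N →L[ℝ] ℝ) (Q : Zs N →L[ℝ] Zs N →L[ℝ] ℝ) :
    spaceGrad (quad z P Q) z = (InnerProductSpace.toDual ℝ (Sp N)).symm (spat P) := by
  unfold spaceGrad gradient
  rw [quad_space, (hasFDerivAt_quad z.1 z.1 _ _).fderiv]
  simp

theorem dir_of_grad (P : Zs N →L[ℝ] ℝ) {G : Sp N}
    (hG : G = (InnerProductSpace.toDual ℝ (Sp N)).symm (spat P)) :
    (G ≠ 0 → Dir P (‖G‖⁻¹ • G)) ∧ (G = 0 → ∀ η : Sp N, ‖η‖ ≤ 1 → Dir P η) := by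
  have hn : ‖G‖ = ‖spat P‖ := by rw [hG]; simp
  have hi : ∀ ξ : Sp N, P (ξ, 0) = ⟪G, ξ⟫ := by
    intro ξ
    rw [hG, InnerProductSpace.toDual_symm_apply]
    simp [spat]
  refine ⟨fun h0 => ⟨?_, fun ξ => ?_⟩, fun h0 η hη => ⟨hη, fun ξ => ?_⟩⟩
  · rw [norm_smul, norm_inv, norm_norm, inv_mul_cancel₀ (norm_ne_zero_iff.2 h0)]
  · rw [hi, ← hn, real_inner_smul_left, ← mul_assoc, mul_inv_cancel₀ (norm_ne_zero_iff.2 h0),
      one_mul]
  · rw [hi, ← hn, h0]
    simp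

theorem eventually_of_touch {U : Zs N → ℝ} {z : Zs N} {P : Zs N →L[ℝ] ℝ}
    {Q : Zs N →L[ℝ] Zs N →L[ℝ] ℝ} (h : Touch U z P Q) :
    ∀ᶠ w in 𝓝 z, U w - quad z P Q w ≤ U z := by
  have ht : Tendsto (fun w : Zs N => w - z) (𝓝 z) (𝓝 0) := by
    have : Continuous fun w : Zs N => w - z := by fun_prop
    simpa using this.tendsto z
  filter_upwards [ht.eventually h] with w hw
  simp only [add_sub_cancel] at hw
  unfold quad
  linarith

theorem eventually_extT (u : Zs N → ℝ) {z : Zs N} (hz : 0 < z.2) :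
    ∀ᶠ w in 𝓝 z, extT u w = u w := by
  have h : ∀ᶠ w : Zs N in 𝓝 z, 0 < w.2 := continuous_snd.continuousAt.eventually (lt_mem_nhds hz)
  filter_upwards [h] with w hw
  exact extT_of_nonneg u w.1 hw.le

theorem sub_extT {u : Zs N → ℝ} (hu : IsWeakSub u) : Sub AdmES (extT u) := by
  intro z hz P Q hT
  have hz0 : extT u z = u z := extT_of_nonneg u z.1 hz.le
  have hmax : IsLocalMax (fun w => u w - quad z P Q w) z := by
    filter_upwards [eventually_of_touch hT, eventually_extT u hz] with w h1 h2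
    have : quad z P Q z = 0 := by simp [quad]
    simp only [this]
    linarith
  obtain ⟨h1, h2⟩ := hu _ (contDiff_quad z P Q) z hz hmax
  obtain ⟨d1, d2⟩ := dir_of_grad P (spaceGrad_quad z P Q)
  by_cases h0 : spaceGrad (quad z P Q) z = 0
  · obtain ⟨η, hη, hle⟩ := h2 h0
    rw [timeDeriv_quad, curvOp_quad] at hle
    exact ⟨η, d2 h0 η hη, hle⟩
  · have hle := h1 h0
    rw [timeDeriv_quad, curvOp_quad] at hle
    exact ⟨_, d1 h0, hle⟩

theorem sub_neg_extT {u : Zs N → ℝ} (hu : IsWeakSuper u) :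
    Sub AdmES (fun z => -extT u z) := by
  intro z hz P Q hT
  have hz0 : extT u z = u z := extT_of_nonneg u z.1 hz.le
  have hq : ∀ w, quad z (-P) (-Q) w = -quad z P Q w := by
    intro w
    simp [quad]
    ring
  have hmin : IsLocalMin (fun w => u w - quad z (-P) (-Q) w) z := by
    filter_upwards [eventually_of_touch hT, eventually_extT u hz] with w h1 h2
    have : quad z P Q z = 0 := by simp [quad]
    simp only [hq, this]
    linarith
  obtain ⟨h1, h2⟩ := hu _ (contDiff_quad z (-P) (-Q)) z hz hmin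
  have hG : -spaceGrad (quad z (-P) (-Q)) z =
      (InnerProductSpace.toDual ℝ (Sp N)).symm (spat P) := by
    rw [spaceGrad_quad]
    simp [spat]
  obtain ⟨d1, d2⟩ := dir_of_grad P hG
  have htr : trQ (-Q) = -trQ Q := by simp [trQ]
  by_cases h0 : spaceGrad (quad z (-P) (-Q)) z = 0
  · obtain ⟨η, hη, hle⟩ := h2 h0
    rw [timeDeriv_quad, curvOp_quad, htr] at hle
    refine ⟨η, d2 (by rw [h0, neg_zero]) η hη, ?_⟩
    simp only [neg_apply] at hle
    linarith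
  · have hle := h1 h0
    rw [timeDeriv_quad, curvOp_quad, htr] at hle
    refine ⟨_, d1 (neg_ne_zero.2 h0), ?_⟩
    simp only [neg_apply] at hle
    set G := spaceGrad (quad z (-P) (-Q)) z
    have he : ((‖-G‖⁻¹ • -G, 0) : Zs N) = -((‖G‖⁻¹ • G, 0) : Zs N) := by
      ext <;> simp
    rw [he]
    simp only [map_neg, neg_apply, neg_neg]
    linarith

/-- Every regular level above `c` lies in a rational window of regular levels. -/
theorem exists_window {g : Sp N → ℝ} {R c a : ℝ} (hg : ContDiff ℝ 2 g)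
    (hout : ∀ x, R ≤ ‖x‖ → g x = c) (hc : c < a) (hreg : ∀ x, g x = a → fderiv ℝ g x ≠ 0) :
    ∃ a₁ a₂ : ℚ, c < a₁ ∧ (a₁ : ℝ) < a ∧ a < a₂ ∧
      ∀ x, (a₁ : ℝ) ≤ g x → g x ≤ a₂ → fderiv ℝ g x ≠ 0 := by
  have hcl : IsClosed {x | fderiv ℝ g x = 0} :=
    isClosed_eq (hg.continuous_fderiv (by norm_num)) continuous_const
  have hK : IsCompact (g '' (closedBall (0 : Sp N) R ∩ {x | fderiv ℝ g x = 0})) :=
    ((isCompact_closedBall _ _).inter_right hcl).image hg.continuous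
  have ha : a ∈ (g '' (closedBall (0 : Sp N) R ∩ {x | fderiv ℝ g x = 0}))ᶜ := by
    rintro ⟨x, hx, hxa⟩
    exact hreg x hxa hx.2
  obtain ⟨ε, hε, hb⟩ := Metric.isOpen_iff.1 hK.isClosed.isOpen_compl a ha
  obtain ⟨a₁, h1, h1'⟩ := exists_rat_btwn (max_lt hc (sub_lt_self a hε))
  obtain ⟨a₂, h2, h2'⟩ := exists_rat_btwn (lt_add_of_pos_right a hε)
  have h3 := (le_max_left _ _).trans_lt h1
  have h4 := (le_max_right _ _).trans_lt h1
  refine ⟨a₁, a₂, h3, h1', h2, fun x hx hx' h0 => ?_⟩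
  have hxR : ‖x‖ ≤ R := by
    by_contra hh
    have := hout x (not_le.1 hh).le
    linarith
  refine hb (a := g x) ?_ ⟨x, ⟨by simpa using hxR, h0⟩, rfl⟩
  rw [mem_ball, Real.dist_eq, abs_lt]
  constructor <;> linarith

theorem cl_eq_iff {a₁ a₂ a s : ℝ} (h1 : a₁ < a) (h2 : a < a₂) : cl a₁ a₂ s = a ↔ s = a := by
  unfold cl
  constructor
  · intro h
    rcases le_total s a₂ with h3 | h3
    · rw [min_eq_left h3] at h
      rcases le_total a₁ s with h4 | h4
      · rwa [max_eq_right h4] at h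
      · rw [max_eq_left h4] at h
        linarith
    · rw [min_eq_right h3, max_eq_right (by linarith)] at h
      linarith
  · rintro rfl
    rw [min_eq_left h2.le, max_eq_right h1.le]

theorem lt_cl_iff {a₁ a₂ a s : ℝ} (h1 : a₁ < a) (h2 : a < a₂) : a < cl a₁ a₂ s ↔ a < s := by
  unfold cl
  simp only [lt_max_iff, lt_min_iff]
  constructor
  · rintro (h | h)
    · linarith
    · exact h.1
  · intro h
    exact Or.inr ⟨h, h2⟩

end Pool.Agent.MCF5
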