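import Pool.Agent.Lib.MP_5aed36_gt.Core

open MeasureTheory Set Filter Topology Metric
open scoped ENNReal NNReal RealInnerProductSpace

namespace Pool.Agent.MCF5

variable {N : ℕ}

theorem C1_nonempty2 : Nonempty (closedBall (0 : Sp N) 2) :=
  ⟨⟨0, mem_closedBall_self (by norm_num)⟩⟩

theorem C1_nonempty1 : Nonempty (closedBall (0 : Sp N) 1) :=
  ⟨⟨0, mem_closedBall_self (by norm_num)⟩⟩

theorem C1_norm_le2 (e : closedBall (0 : Sp N) 2) : ‖(e : Sp N)‖ ≤ 2 :=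
  mem_closedBall_zero_iff.1 e.2

theorem C1_norm_le1 (b : closedBall (0 : Sp N) 1) : ‖(b : Sp N)‖ ≤ 1 :=
  mem_closedBall_zero_iff.1 b.2

theorem C1_norm_le3 (e : closedBall (0 : Sp N) 2) (b : closedBall (0 : Sp N) 1) :
    ‖(e : Sp N) + (‖(e : Sp N)‖ / 2) • (b : Sp N)‖ ≤ 3 := by
  have he := C1_norm_le2 e
  have hb := C1_norm_le1 b
  have h0 : 0 ≤ ‖(e : Sp N)‖ / 2 := by positivity
  have h1 : ‖(‖(e : Sp N)‖ / 2) • (b : Sp N)‖ ≤ 1 := by
    rw [norm_smul, Real.norm_of_nonneg h0]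
    nlinarith [norm_nonneg (b : Sp N)]
  linarith [norm_add_le (e : Sp N) ((‖(e : Sp N)‖ / 2) • (b : Sp N))]

theorem C1_mem (x : Sp N) (r : ℝ) (e : closedBall (0 : Sp N) 2) (b : closedBall (0 : Sp N) 1) :
    x + r • ((e : Sp N) + (‖(e : Sp N)‖ / 2) • (b : Sp N)) ∈ closedBall x (3 * |r|) := by
  rw [mem_closedBall, dist_eq_norm, add_sub_cancel_left, norm_smul, Real.norm_eq_abs, mul_comm]
  exact mul_le_mul_of_nonneg_right (C1_norm_le3 e b) (abs_nonneg r)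

/-- Comparison of two bounded sup-inf expressions. -/
theorem C1_cmp {α β : Type*} [Nonempty α] [Nonempty β] {F G : α → β → ℝ} {m M m' d : ℝ}
    (hF : ∀ a b, m ≤ F a b) (hG : ∀ a b, m' ≤ G a b) (hG' : ∀ a b, G a b ≤ M)
    (h : ∀ a, ∃ a', ∀ b', ∃ b, F a b ≤ G a' b' + d) :
    ⨆ a, ⨅ b, F a b ≤ (⨆ a, ⨅ b, G a b) + d := by
  refine ciSup_le fun a => ?_
  obtain ⟨a', ha'⟩ := h a
  have hb : BddBelow (range (F a)) := ⟨m, by rintro _ ⟨b, rfl⟩; exact hF a b⟩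
  have h1 : (⨅ b, F a b) - d ≤ ⨅ b, G a' b := by
    refine le_ciInf fun b' => ?_
    obtain ⟨b, hb'⟩ := ha' b'
    linarith [ciInf_le hb b]
  have h2 : (⨅ b, G a' b) ≤ ⨆ a, ⨅ b, G a b := by
    refine le_ciSup (f := fun a => ⨅ b, G a b) ⟨M, ?_⟩ a'
    rintro _ ⟨a, rfl⟩
    obtain ⟨b⟩ := ‹Nonempty β›
    exact (ciInf_le ⟨m', by rintro _ ⟨b, rfl⟩; exact hG a b⟩ b).trans (hG' a b)
  linarith

section
variable {v v' : Sp N → ℝ} {L L' : ℝ≥0}

theorem C1_abs_le (hv : LipschitzWith L v) (x y : Sp N) : |v x - v y| ≤ L * ‖x - y‖ := by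
  have h := hv.dist_le_mul x y
  rwa [Real.dist_eq, dist_eq_norm] at h

theorem C1_bd (hv : LipschitzWith L v) (x : Sp N) (r : ℝ) (e : closedBall (0 : Sp N) 2)
    (b : closedBall (0 : Sp N) 1) :
    v x - L * (3 * |r|) ≤ v (x + r • ((e : Sp N) + (‖(e : Sp N)‖ / 2) • (b : Sp N))) ∧
      v (x + r • ((e : Sp N) + (‖(e : Sp N)‖ / 2) • (b : Sp N))) ≤ v x + L * (3 * |r|) := by
  have h1 := C1_abs_le hv (x + r • ((e : Sp N) + (‖(e : Sp N)‖ / 2) • (b : Sp N))) x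
  have h2 := C1_mem x r e b
  rw [mem_closedBall, dist_eq_norm] at h2
  have h3 := abs_le.1 (h1.trans (mul_le_mul_of_nonneg_left h2 L.coe_nonneg))
  constructor <;> linarith [h3.1, h3.2]

theorem C1_mP_cmp (hv : LipschitzWith L v) (hv' : LipschitzWith L' v') {x x' : Sp N}
    {r r' d : ℝ}
    (h : ∀ e : closedBall (0 : Sp N) 2, ∃ e' : closedBall (0 : Sp N) 2,
      ∀ b' : closedBall (0 : Sp N) 1, ∃ b : closedBall (0 : Sp N) 1,
        v (x + r • ((e : Sp N) + (‖(e : Sp N)‖ / 2) • (b : Sp N))) ≤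
          v' (x' + r' • ((e' : Sp N) + (‖(e' : Sp N)‖ / 2) • (b' : Sp N))) + d) :
    mP v x r ≤ mP v' x' r' + d := by
  have := C1_nonempty2 (N := N)
  have := C1_nonempty1 (N := N)
  exact C1_cmp (fun e b => (C1_bd hv x r e b).1) (fun e b => (C1_bd hv' x' r' e b).1)
    (fun e b => (C1_bd hv' x' r' e b).2) h

theorem C1_mP_zero (v : Sp N → ℝ) (x : Sp N) : mP v x 0 = v x := by
  have := C1_nonempty2 (N := N)
  have := C1_nonempty1 (N := N)
  simp [mP]

theorem C1_mP_const (M : ℝ) (x : Sp N) (r : ℝ) : mP (fun _ => M) x r = M := by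
  have := C1_nonempty2 (N := N)
  have := C1_nonempty1 (N := N)
  simp [mP]

theorem C1_mm_of_nonneg (v : Sp N → ℝ) (x : Sp N) {r : ℝ} (hr : 0 ≤ r) :
    mm v x r = mP v x r := if_pos hr

theorem C1_mm_of_nonpos (v : Sp N → ℝ) (x : Sp N) {r : ℝ} (hr : r ≤ 0) :
    mm v x r = -mP (fun y => -v y) x (-r) := by
  rcases hr.eq_or_lt with rfl | h
  · rw [C1_mm_of_nonneg v x le_rfl, neg_zero, C1_mP_zero, C1_mP_zero, neg_neg]
  · exact if_neg (not_le.2 h)

theorem C1_lip_neg (hv : LipschitzWith L v) : LipschitzWith L fun y => -v y := hv.neg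

theorem C1_mP_mono (hv : LipschitzWith L v) (x : Sp N) {r r' : ℝ} (hr : 0 ≤ r) (hrr : r ≤ r') :
    mP v x r ≤ mP v x r' := by
  rcases (hr.trans hrr).eq_or_lt with h0 | h0
  · have h1 : r = r' := le_antisymm hrr (h0 ▸ hr)
    rw [h1]
  · have hq0 : 0 ≤ r / r' := div_nonneg hr h0.le
    have hq1 : r / r' ≤ 1 := (div_le_one h0).2 hrr
    have key := C1_mP_cmp hv hv (x := x) (x' := x) (r := r) (r' := r') (d := 0) fun e => by
      have hn : ‖(r / r') • (e : Sp N)‖ = r / r' * ‖(e : Sp N)‖ := by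
        rw [norm_smul, Real.norm_of_nonneg hq0]
      refine ⟨⟨(r / r') • (e : Sp N), mem_closedBall_zero_iff.2 ?_⟩, fun b => ⟨b, ?_⟩⟩
      · rw [hn]
        nlinarith [C1_norm_le2 e, norm_nonneg (e : Sp N)]
      · have h2 : r' • ((r / r') • (e : Sp N) + (‖(r / r') • (e : Sp N)‖ / 2) • (b : Sp N)) =
            r • ((e : Sp N) + (‖(e : Sp N)‖ / 2) • (b : Sp N)) := by
          have h3 : r' * (r / r') = r := by field_simp
          have h4 : r' * (r / r' * ‖(e : Sp N)‖ / 2) = r * (‖(e : Sp N)‖ / 2) := by field_simp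
          rw [hn, smul_add, smul_add, smul_smul, smul_smul, smul_smul, h3, h4]
        simp only [h2, add_zero, le_refl]
    simpa using key

theorem C1_mP_lip1 (hv : LipschitzWith L v) (x x' : Sp N) (r r' : ℝ) :
    mP v x r ≤ mP v x' r' + L * (‖x - x'‖ + 3 * |r - r'|) := by
  refine C1_mP_cmp hv hv fun e => ⟨e, fun b => ⟨b, ?_⟩⟩
  have h1 := C1_abs_le hv (x + r • ((e : Sp N) + (‖(e : Sp N)‖ / 2) • (b : Sp N)))
    (x' + r' • ((e : Sp N) + (‖(e : Sp N)‖ / 2) • (b : Sp N)))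
  have h2 : ‖x + r • ((e : Sp N) + (‖(e : Sp N)‖ / 2) • (b : Sp N)) -
      (x' + r' • ((e : Sp N) + (‖(e : Sp N)‖ / 2) • (b : Sp N)))‖ ≤
      ‖x - x'‖ + 3 * |r - r'| := by
    rw [add_sub_add_comm, ← sub_smul]
    refine (norm_add_le _ _).trans (add_le_add le_rfl ?_)
    rw [norm_smul, Real.norm_eq_abs, mul_comm]
    exact mul_le_mul_of_nonneg_right (C1_norm_le3 e b) (abs_nonneg _)
  have h3 := abs_le.1 (h1.trans (mul_le_mul_of_nonneg_left h2 L.coe_nonneg))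
  linarith [h3.2]

theorem C1_mP_lip (hv : LipschitzWith L v) (x x' : Sp N) (r r' : ℝ) :
    |mP v x r - mP v x' r'| ≤ L * (‖x - x'‖ + 3 * |r - r'|) := by
  have h1 := C1_mP_lip1 hv x x' r r'
  have h2 := C1_mP_lip1 hv x' x r' r
  rw [norm_sub_rev x' x, abs_sub_comm r' r] at h2
  rw [abs_le]
  constructor <;> linarith

theorem C1_mP_comp (hv : LipschitzWith L v) {Φ : ℝ → ℝ} (hΦ : Monotone Φ) (hc : Continuous Φ)
    (x : Sp N) (r : ℝ) : mP (fun y => Φ (v y)) x r = Φ (mP v x r) := by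
  have := C1_nonempty2 (N := N)
  have := C1_nonempty1 (N := N)
  have hb : ∀ e : closedBall (0 : Sp N) 2, BddBelow (range fun b : closedBall (0 : Sp N) 1 =>
      v (x + r • ((e : Sp N) + (‖(e : Sp N)‖ / 2) • (b : Sp N)))) := fun e =>
    ⟨v x - L * (3 * |r|), by rintro _ ⟨b, rfl⟩; exact (C1_bd hv x r e b).1⟩
  have ha : BddAbove (range fun e : closedBall (0 : Sp N) 2 => ⨅ b : closedBall (0 : Sp N) 1,
      v (x + r • ((e : Sp N) + (‖(e : Sp N)‖ / 2) • (b : Sp N)))) := by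
    refine ⟨v x + L * (3 * |r|), ?_⟩
    rintro _ ⟨e, rfl⟩
    obtain ⟨b⟩ := C1_nonempty1 (N := N)
    exact (ciInf_le (hb e) b).trans (C1_bd hv x r e b).2
  unfold mP
  rw [hΦ.map_ciSup_of_continuousAt hc.continuousAt ha]
  refine iSup_congr fun e => ?_
  rw [hΦ.map_ciInf_of_continuousAt hc.continuousAt (hb e)]

theorem C1_exists_unit (p : Sp N →L[ℝ] ℝ) : ∃ u : Sp N, ‖u‖ ≤ 1 ∧ p u = ‖p‖ := by
  rcases eq_or_ne p 0 with rfl | hp
  · exact ⟨0, by simp, by simp⟩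
  · have hn : ‖p‖ ≠ 0 := norm_ne_zero_iff.2 hp
    have hw : ‖(InnerProductSpace.toDual ℝ (Sp N)).symm p‖ = ‖p‖ :=
      LinearIsometryEquiv.norm_map _ _
    refine ⟨‖p‖⁻¹ • (InnerProductSpace.toDual ℝ (Sp N)).symm p, ?_, ?_⟩
    · rw [norm_smul, hw, norm_inv, norm_norm, inv_mul_cancel₀ hn]
    · rw [map_smul, ← InnerProductSpace.toDual_symm_apply, real_inner_self_eq_norm_sq, hw,
        smul_eq_mul]
      field_simp

theorem C1_mP_affine (p : Sp N →L[ℝ] ℝ) (A : ℝ) (x : Sp N) {r : ℝ} (hr : 0 ≤ r) :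
    mP (fun y => A + p y) x r = A + p x + r * ‖p‖ := by
  obtain ⟨u, hu1, hu⟩ := C1_exists_unit p
  have hl : LipschitzWith (0 + ‖p‖₊) fun y => A + p y :=
    (LipschitzWith.const A).add p.lipschitz
  have hp0 := norm_nonneg p
  apply le_antisymm
  · have key := C1_mP_cmp hl (LipschitzWith.const (A + p x + r * ‖p‖)) (x := x) (x' := x)
      (r := r) (r' := r) (d := 0) fun e => by
      refine ⟨e, fun _ => ⟨⟨-u, mem_closedBall_zero_iff.2 (by rwa [norm_neg])⟩, ?_⟩⟩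
      have h1 : p (e : Sp N) ≤ ‖p‖ * ‖(e : Sp N)‖ := (le_abs_self _).trans (p.le_opNorm _)
      have h2 := C1_norm_le2 e
      have h3 : p (e : Sp N) + ‖(e : Sp N)‖ / 2 * -‖p‖ ≤ ‖p‖ := by nlinarith
      have h4 := mul_le_mul_of_nonneg_left h3 hr
      simp only [map_add, map_smul, map_neg, smul_eq_mul, hu]
      linarith
    rwa [C1_mP_const, add_zero] at key
  · have key := C1_mP_cmp (LipschitzWith.const (A + p x + r * ‖p‖)) hl (x := x) (x' := x)
      (r := r) (r' := r) (d := 0) fun e => by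
      have hn : ‖(2 : ℝ) • u‖ ≤ 2 := by
        rw [norm_smul, Real.norm_of_nonneg (by norm_num)]
        linarith
      refine ⟨⟨(2 : ℝ) • u, mem_closedBall_zero_iff.2 hn⟩, fun b => ⟨b, ?_⟩⟩
      have h1 : |p (b : Sp N)| ≤ ‖p‖ * ‖(b : Sp N)‖ := p.le_opNorm _
      have h2 := C1_norm_le1 b
      have h5 : -‖p‖ ≤ p (b : Sp N) := by nlinarith [(abs_le.1 h1).1]
      have h6 := norm_nonneg ((2 : ℝ) • u)
      have h3 : ‖p‖ ≤ 2 * ‖p‖ + ‖(2 : ℝ) • u‖ / 2 * p (b : Sp N) := by nlinarith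
      have h4 := mul_le_mul_of_nonneg_left h3 hr
      simp only [map_add, map_smul, smul_eq_mul, hu]
      linarith
    rwa [C1_mP_const, add_zero] at key

theorem mm_zero (v : Sp N → ℝ) (x : Sp N) : mm v x 0 = v x := by
  rw [C1_mm_of_nonneg v x le_rfl, C1_mP_zero]

/-- For `0 ≤ r ≤ r'` use `e' = (r / r') • e`. -/
theorem mm_mono (hv : LipschitzWith L v) (x : Sp N) : Monotone (mm v x) := by
  have hpos : ∀ r r' : ℝ, 0 ≤ r → r ≤ r' → mm v x r ≤ mm v x r' := fun r r' h0 h => by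
    rw [C1_mm_of_nonneg v x h0, C1_mm_of_nonneg v x (h0.trans h)]
    exact C1_mP_mono hv x h0 h
  have hneg : ∀ r r' : ℝ, r' ≤ 0 → r ≤ r' → mm v x r ≤ mm v x r' := fun r r' h0 h => by
    rw [C1_mm_of_nonpos v x h0, C1_mm_of_nonpos v x (h.trans h0), neg_le_neg_iff]
    exact C1_mP_mono (C1_lip_neg hv) x (neg_nonneg.2 h0) (neg_le_neg h)
  intro r r' h
  rcases le_total 0 r with h0 | h0
  · exact hpos r r' h0 h
  · rcases le_total 0 r' with h1 | h1
    · exact (hneg r 0 le_rfl h0).trans (hpos 0 r' le_rfl h1)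
    · exact hneg r r' h1 h

theorem mm_lip (hv : LipschitzWith L v) (x x' : Sp N) (r r' : ℝ) :
    |mm v x r - mm v x' r'| ≤ L * (‖x - x'‖ + 3 * |r - r'|) := by
  have hpos : ∀ (x x' : Sp N) (r r' : ℝ), 0 ≤ r → 0 ≤ r' →
      |mm v x r - mm v x' r'| ≤ L * (‖x - x'‖ + 3 * |r - r'|) := fun x x' r r' h0 h1 => by
    rw [C1_mm_of_nonneg v x h0, C1_mm_of_nonneg v x' h1]
    exact C1_mP_lip hv x x' r r'
  have hneg : ∀ (x x' : Sp N) (r r' : ℝ), r ≤ 0 → r' ≤ 0 →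
      |mm v x r - mm v x' r'| ≤ L * (‖x - x'‖ + 3 * |r - r'|) := fun x x' r r' h0 h1 => by
    rw [C1_mm_of_nonpos v x h0, C1_mm_of_nonpos v x' h1, neg_sub_neg, abs_sub_comm]
    have h := C1_mP_lip (C1_lip_neg hv) x x' (-r) (-r')
    rwa [neg_sub_neg, abs_sub_comm r' r] at h
  have hmix : ∀ (x x' : Sp N) (r r' : ℝ), 0 ≤ r → r' ≤ 0 →
      |mm v x r - mm v x' r'| ≤ L * (‖x - x'‖ + 3 * |r - r'|) := fun x x' r r' h0 h1 => by
    have h2 := hpos x x r 0 h0 le_rfl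
    have h3 := hneg x x' 0 r' le_rfl h1
    rw [sub_self, norm_zero, sub_zero, abs_of_nonneg h0] at h2
    rw [zero_sub, abs_of_nonneg (neg_nonneg.2 h1)] at h3
    rw [abs_of_nonneg (by linarith : 0 ≤ r - r')]
    have h4 := abs_sub_le (mm v x r) (mm v x 0) (mm v x' r')
    linarith
  rcases le_total 0 r with h0 | h0 <;> rcases le_total 0 r' with h1 | h1
  · exact hpos x x' r r' h0 h1
  · exact hmix x x' r r' h0 h1
  · have h := hmix x' x r' r h1 h0
    rwa [abs_sub_comm, norm_sub_rev, abs_sub_comm r' r] at h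
  · exact hneg x x' r r' h0 h1

theorem mm_continuous (hv : LipschitzWith L v) :
    Continuous fun p : Sp N × ℝ => mm v p.1 p.2 := by
  have h : LipschitzWith (L * 4) fun p : Sp N × ℝ => mm v p.1 p.2 := by
    refine LipschitzWith.of_dist_le_mul fun p q => ?_
    have h1 : ‖p.1 - q.1‖ ≤ dist p q := by
      rw [← dist_eq_norm, Prod.dist_eq]
      exact le_max_left _ _
    have h2 : |p.2 - q.2| ≤ dist p q := by
      rw [← Real.dist_eq, Prod.dist_eq]
      exact le_max_right _ _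
    have h3 : ‖p.1 - q.1‖ + 3 * |p.2 - q.2| ≤ 4 * dist p q := by linarith
    rw [Real.dist_eq, NNReal.coe_mul, NNReal.coe_ofNat, mul_assoc]
    exact (mm_lip hv p.1 q.1 p.2 q.2).trans (mul_le_mul_of_nonneg_left h3 L.coe_nonneg)
  exact h.continuous

theorem mm_mono_local (hv : LipschitzWith L v) (hv' : LipschitzWith L' v') {x : Sp N} {r : ℝ}
    (h : ∀ y ∈ closedBall x (3 * |r|), v y ≤ v' y) : mm v x r ≤ mm v' x r := by
  rcases le_total 0 r with h0 | h0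
  · rw [C1_mm_of_nonneg v x h0, C1_mm_of_nonneg v' x h0]
    have key := C1_mP_cmp hv hv' (x := x) (x' := x) (r := r) (r' := r) (d := 0) fun e =>
      ⟨e, fun b => ⟨b, by rw [add_zero]; exact h _ (C1_mem x r e b)⟩⟩
    rwa [add_zero] at key
  · rw [C1_mm_of_nonpos v x h0, C1_mm_of_nonpos v' x h0, neg_le_neg_iff]
    have key := C1_mP_cmp (C1_lip_neg hv') (C1_lip_neg hv) (x := x) (x' := x) (r := -r)
      (r' := -r) (d := 0) fun e => ⟨e, fun b => ⟨b, by
        have hm := C1_mem x (-r) e b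
        rw [abs_neg] at hm
        rw [add_zero]
        exact neg_le_neg (h _ hm)⟩⟩
    rwa [add_zero] at key

theorem mm_le_of_le (hv : LipschitzWith L v) {x : Sp N} {r M : ℝ}
    (h : ∀ y ∈ closedBall x (3 * |r|), v y ≤ M) : mm v x r ≤ M := by
  have h1 := mm_mono_local hv (LipschitzWith.const M) h
  have h2 : mm (fun _ : Sp N => M) x r = M := by
    rcases le_total 0 r with h0 | h0
    · rw [C1_mm_of_nonneg _ x h0, C1_mP_const]
    · rw [C1_mm_of_nonpos _ x h0, C1_mP_const, neg_neg]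
  exact h1.trans h2.le

theorem C1_mm_comp (hv : LipschitzWith L v) {Φ : ℝ → ℝ} (hΦ : Monotone Φ) (hc : Continuous Φ)
    (x : Sp N) (r : ℝ) : mm (fun y => Φ (v y)) x r = Φ (mm v x r) := by
  rcases le_total 0 r with h0 | h0
  · rw [C1_mm_of_nonneg _ x h0, C1_mm_of_nonneg v x h0, C1_mP_comp hv hΦ hc]
  · rw [C1_mm_of_nonpos _ x h0, C1_mm_of_nonpos v x h0]
    have hm : Monotone fun s : ℝ => -Φ (-s) := fun s t h => neg_le_neg (hΦ (neg_le_neg h))
    have hc' : Continuous fun s : ℝ => -Φ (-s) := (hc.comp continuous_neg).neg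
    have h := C1_mP_comp (C1_lip_neg hv) hm hc' x (-r)
    simp only [neg_neg] at h
    rw [h, neg_neg]

theorem mm_add_const (hv : LipschitzWith L v) (A : ℝ) (x : Sp N) (r : ℝ) :
    mm (fun y => v y + A) x r = mm v x r + A :=
  C1_mm_comp hv (Φ := fun s => s + A) (fun _ _ h => add_le_add h le_rfl)
    (continuous_id.add continuous_const) x r

theorem mm_translate (v : Sp N → ℝ) (z x : Sp N) (r : ℝ) :
    mm (fun y => v (y + z)) x r = mm v (x + z) r := by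
  simp only [mm, mP, add_right_comm x _ z]

theorem mm_neg (v : Sp N → ℝ) (x : Sp N) (r : ℝ) :
    mm (fun y => -v y) x (-r) = -mm v x r := by
  rcases le_total 0 r with h0 | h0
  · rw [C1_mm_of_nonpos _ x (neg_nonpos.2 h0), C1_mm_of_nonneg v x h0]
    simp only [neg_neg]
  · rw [C1_mm_of_nonneg _ x (neg_nonneg.2 h0), C1_mm_of_nonpos v x h0, neg_neg]

theorem mm_comp (hv : LipschitzWith L v) {Φ : ℝ → ℝ} (hΦ : Monotone Φ) (hc : Continuous Φ)
    (x : Sp N) (r : ℝ) : mm (fun y => Φ (v y)) x r = Φ (mm v x r) :=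
  C1_mm_comp hv hΦ hc x r

theorem mm_affine (p : Sp N →L[ℝ] ℝ) (A : ℝ) (x : Sp N) (r : ℝ) :
    mm (fun y => A + p y) x r = A + p x + r * ‖p‖ := by
  rcases le_total 0 r with h0 | h0
  · rw [C1_mm_of_nonneg _ x h0, C1_mP_affine p A x h0]
  · rw [C1_mm_of_nonpos _ x h0]
    have h := C1_mP_affine (-p) (-A) x (neg_nonneg.2 h0)
    have h1 : (fun y => -(A + p y)) = fun y => -A + (-p) y := by
      funext y
      rw [neg_apply, neg_add]
    rw [h1, h, norm_neg, neg_apply]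
    ring

end

end Pool.Agent.MCF5
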