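import Pool.Agent.Lib.MP_5aed36_gt.C8

open MeasureTheory Set Filter Topology Metric
open scoped ENNReal NNReal RealInnerProductSpace

namespace Pool.Agent.MCF5

variable {N : ℕ}

private theorem C10_floor_sub {s t : ℝ} (hst : s ≤ t) :
    ((⌊t⌋₊ - ⌊s⌋₊ : ℕ) : ℝ) ≤ t - s + 1 := by
  have hmono : ⌊s⌋₊ ≤ ⌊t⌋₊ := Nat.floor_le_floor hst
  rw [Nat.cast_sub hmono]
  rcases le_or_gt 0 t with ht | ht
  · have h1 := Nat.floor_le ht
    have h2 := Nat.lt_floor_add_one s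
    linarith
  · have h1 : ⌊t⌋₊ = 0 := Nat.floor_of_nonpos ht.le
    have h2 : ⌊s⌋₊ = 0 := Nat.floor_of_nonpos (hst.trans ht.le)
    rw [h1, h2]
    simp only [Nat.cast_zero, sub_self]
    linarith

private theorem C10_time {L : ℝ≥0} {R c M : ℝ} {V ρ : ℕ → Sp N → ℝ} {n : ℕ}
    (hT : Traj (1 / ((n : ℝ) + 1)) L R c V ρ) (hM : 0 < M) {s t : ℝ} (hst : s ≤ t) (x : Sp N) :
    |V ⌊t * ((n : ℝ) + 1)⌋₊ x - V ⌊s * ((n : ℝ) + 1)⌋₊ x| ≤
      (L : ℝ) ^ 2 / (2 * M) + (t - s + 1 / ((n : ℝ) + 1)) * (KN N * M + N) := by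
  have hn : (0 : ℝ) < (n : ℝ) + 1 := by positivity
  have hst' : s * ((n : ℝ) + 1) ≤ t * ((n : ℝ) + 1) := mul_le_mul_of_nonneg_right hst hn.le
  have hmono := Nat.floor_le_floor hst'
  have hh : (0 : ℝ) < 1 / ((n : ℝ) + 1) := by positivity
  have hh1 : 1 / ((n : ℝ) + 1) ≤ 1 := by
    rw [div_le_one hn]
    have : (0 : ℝ) ≤ n := Nat.cast_nonneg n
    linarith
  have key := hT.time hh hh1 hM ⌊s * ((n : ℝ) + 1)⌋₊
    (⌊t * ((n : ℝ) + 1)⌋₊ - ⌊s * ((n : ℝ) + 1)⌋₊) x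
  rw [Nat.add_sub_cancel' hmono] at key
  refine key.trans ?_
  have hK : 0 ≤ KN N * M + N := by
    unfold KN
    positivity
  have hj := C10_floor_sub hst'
  have hj2 : ((⌊t * ((n : ℝ) + 1)⌋₊ - ⌊s * ((n : ℝ) + 1)⌋₊ : ℕ) : ℝ) * (1 / ((n : ℝ) + 1)) ≤
      t - s + 1 / ((n : ℝ) + 1) := by
    have h1 := mul_le_mul_of_nonneg_right hj hh.le
    refine h1.trans (le_of_eq ?_)
    field_simp
  have := mul_le_mul_of_nonneg_right hj2 hK
  linarith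

/-- A common modulus of continuity, up to the time step, of the interpolated trajectories. -/
private theorem C10_modulus (N : ℕ) (L : ℝ≥0) {ε : ℝ} (hε : 0 < ε) :
    ∃ δ : ℝ, 0 < δ ∧ ∀ (R c : ℝ) (V ρ : ℕ → Sp N → ℝ) (n : ℕ),
      Traj (1 / ((n : ℝ) + 1)) L R c V ρ → 1 / ((n : ℝ) + 1) ≤ δ →
      ∀ z y : Zs N, dist z y ≤ δ →
        |V ⌊z.2 * ((n : ℝ) + 1)⌋₊ z.1 - V ⌊y.2 * ((n : ℝ) + 1)⌋₊ y.1| ≤ ε := by
  have hL : (0 : ℝ) ≤ L := L.2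
  set M : ℝ := (L : ℝ) ^ 2 / ε + 1 with hMdef
  have hM : 0 < M := by positivity
  have hLM : (L : ℝ) ^ 2 / (2 * M) ≤ ε / 2 := by
    rw [div_le_iff₀ (by positivity)]
    have h1 : ε / 2 * (2 * M) = (L : ℝ) ^ 2 + ε := by
      rw [hMdef]
      field_simp
    rw [h1]
    linarith
  set K : ℝ := KN N * M + N with hKdef
  have hK : 0 ≤ K := by
    rw [hKdef]
    unfold KN
    positivity
  refine ⟨ε / (2 * (2 * K + L + 1)), by positivity, ?_⟩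
  intro R c V ρ n hT hn z y hzy
  set δ : ℝ := ε / (2 * (2 * K + L + 1)) with hδ
  have hδ0 : 0 < δ := by positivity
  have hδε : δ * (2 * K + L + 1) = ε / 2 := by
    rw [hδ]
    field_simp
  rw [Prod.dist_eq] at hzy
  have h1 : dist z.1 y.1 ≤ δ := (le_max_left _ _).trans hzy
  have h2 : dist z.2 y.2 ≤ δ := (le_max_right _ _).trans hzy
  have hx : |V ⌊y.2 * ((n : ℝ) + 1)⌋₊ z.1 - V ⌊y.2 * ((n : ℝ) + 1)⌋₊ y.1| ≤ L * δ := by
    have := (hT.data ⌊y.2 * ((n : ℝ) + 1)⌋₊).1.dist_le_mul z.1 y.1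
    rw [Real.dist_eq] at this
    exact this.trans (mul_le_mul_of_nonneg_left h1 hL)
  have ht : |V ⌊z.2 * ((n : ℝ) + 1)⌋₊ z.1 - V ⌊y.2 * ((n : ℝ) + 1)⌋₊ z.1| ≤
      ε / 2 + 2 * δ * K := by
    rw [Real.dist_eq, abs_le] at h2
    rcases le_total y.2 z.2 with hle | hle
    · refine (C10_time hT hM hle z.1).trans ?_
      have : (z.2 - y.2 + 1 / ((n : ℝ) + 1)) * K ≤ 2 * δ * K :=
        mul_le_mul_of_nonneg_right (by linarith [h2.2]) hK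
      linarith
    · rw [abs_sub_comm]
      refine (C10_time hT hM hle z.1).trans ?_
      have : (y.2 - z.2 + 1 / ((n : ℝ) + 1)) * K ≤ 2 * δ * K :=
        mul_le_mul_of_nonneg_right (by linarith [h2.1]) hK
      linarith
  have h3 := abs_sub_le (V ⌊z.2 * ((n : ℝ) + 1)⌋₊ z.1) (V ⌊y.2 * ((n : ℝ) + 1)⌋₊ z.1)
    (V ⌊y.2 * ((n : ℝ) + 1)⌋₊ y.1)
  nlinarith

private theorem C10_small {δ : ℝ} (hδ : 0 < δ) :
    ∀ᶠ n : ℕ in (hyperfilter ℕ : Filter ℕ), 1 / ((n : ℝ) + 1) ≤ δ := by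
  have h1 : ∀ᶠ n : ℕ in atTop, 1 / ((n : ℝ) + 1) ≤ δ :=
    (tendsto_one_div_add_atTop_nhds_zero_nat (𝕜 := ℝ)).eventually (ge_mem_nhds hδ)
  exact (Nat.hyperfilter_le_atTop) h1

/-- Pointwise limit along `hyperfilter ℕ` of the bounded family
`V n ⌊max t 0 * (n + 1)⌋₊ x`; `Traj.time` and the Lipschitz bound give continuity of the limit and
uniform convergence on bounded time intervals through a finite net. -/
theorem exists_limit {L : ℝ≥0} {R c a b : ℝ} {v₀ : Sp N → ℝ} {V ρ : ℕ → ℕ → Sp N → ℝ}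
    (hT : ∀ n : ℕ, Traj (1 / ((n : ℝ) + 1)) L R c (V n) (ρ n)) (h0 : ∀ n, V n 0 = v₀)
    (hr : ∀ n k x, a ≤ V n k x ∧ V n k x ≤ b) :
    ∃ ub : Zs N → ℝ, Continuous ub ∧ (∀ t, Data L R c fun x => ub (x, t)) ∧
      (∀ z, a ≤ ub z ∧ ub z ≤ b) ∧ (∀ z : Zs N, z.2 ≤ 0 → ub z = v₀ z.1) ∧
      ∀ T ε : ℝ, 0 < ε → ∀ᶠ n in (hyperfilter ℕ : Filter ℕ), ∀ (x : Sp N) (t : ℝ), 0 ≤ t → t ≤ T →
        |V n ⌊t * ((n : ℝ) + 1)⌋₊ x - ub (x, t)| ≤ ε := by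
  have hex : ∀ z : Zs N, ∃ l ∈ Icc a b,
      Tendsto (fun n : ℕ => V n ⌊z.2 * ((n : ℝ) + 1)⌋₊ z.1) (hyperfilter ℕ : Filter ℕ) (𝓝 l) := by
    intro z
    have hle : ((hyperfilter ℕ).map (fun n : ℕ => V n ⌊z.2 * ((n : ℝ) + 1)⌋₊ z.1) : Filter ℝ) ≤
        𝓟 (Icc a b) := by
      rw [le_principal_iff, Ultrafilter.coe_map, mem_map]
      exact Eventually.of_forall fun n => hr n _ _
    exact isCompact_Icc.ultrafilter_le_nhds _ hle
  choose ub hub hlim using hex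
  have hmod : ∀ ε : ℝ, 0 < ε → ∃ δ : ℝ, 0 < δ ∧
      (∀ z y : Zs N, dist z y ≤ δ → |ub z - ub y| ≤ ε) ∧
      ∀ᶠ n : ℕ in (hyperfilter ℕ : Filter ℕ), ∀ z y : Zs N, dist z y ≤ δ →
        |V n ⌊z.2 * ((n : ℝ) + 1)⌋₊ z.1 - V n ⌊y.2 * ((n : ℝ) + 1)⌋₊ y.1| ≤ ε := by
    intro ε hε
    obtain ⟨δ, hδ, hmain⟩ := C10_modulus N L hε
    have hev : ∀ᶠ n : ℕ in (hyperfilter ℕ : Filter ℕ), ∀ z y : Zs N, dist z y ≤ δ →
        |V n ⌊z.2 * ((n : ℝ) + 1)⌋₊ z.1 - V n ⌊y.2 * ((n : ℝ) + 1)⌋₊ y.1| ≤ ε :=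
      (C10_small hδ).mono fun n hn => hmain R c (V n) (ρ n) n (hT n) hn
    refine ⟨δ, hδ, fun z y hzy => ?_, hev⟩
    exact le_of_tendsto ((hlim z).sub (hlim y)).abs (hev.mono fun n hn => hn z y hzy)
  have hout : ∀ (x : Sp N) (t : ℝ), R ≤ ‖x‖ → ub (x, t) = c := by
    intro x t hx
    refine tendsto_nhds_unique (hlim (x, t)) ?_
    have : (fun n : ℕ => V n ⌊t * ((n : ℝ) + 1)⌋₊ x) = fun _ => c :=
      funext fun n => ((hT n).data _).2 x hx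
    simp only [this]
    exact tendsto_const_nhds
  refine ⟨ub, ?_, fun t => ⟨?_, fun x hx => hout x t hx⟩, fun z => hub z, ?_, ?_⟩
  · refine UniformContinuous.continuous (Metric.uniformContinuous_iff.2 fun ε hε => ?_)
    obtain ⟨δ, hδ, h1, -⟩ := hmod (ε / 2) (half_pos hε)
    refine ⟨δ, hδ, fun {z y} hzy => ?_⟩
    rw [Real.dist_eq]
    exact (h1 z y hzy.le).trans_lt (half_lt_self hε)
  · refine LipschitzWith.of_dist_le_mul fun x y => ?_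
    refine le_of_tendsto ((hlim (x, t)).dist (hlim (y, t))) (Eventually.of_forall fun n => ?_)
    exact ((hT n).data _).1.dist_le_mul x y
  · intro z hz
    refine tendsto_nhds_unique (hlim z) ?_
    have : (fun n : ℕ => V n ⌊z.2 * ((n : ℝ) + 1)⌋₊ z.1) = fun _ => v₀ z.1 := by
      funext n
      have hn : (0 : ℝ) ≤ (n : ℝ) + 1 := by positivity
      rw [Nat.floor_of_nonpos (mul_nonpos_of_nonpos_of_nonneg hz hn), h0]
    simp only [this]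
    exact tendsto_const_nhds
  · intro T ε hε
    have hε3 : 0 < ε / 3 := by positivity
    obtain ⟨δ, hδ, h1, h2⟩ := hmod (ε / 3) hε3
    have hK : IsCompact (closedBall (0 : Sp N) R ×ˢ Icc (0 : ℝ) T) :=
      (isCompact_closedBall _ _).prod isCompact_Icc
    obtain ⟨F, -, hF, hcov⟩ := finite_cover_balls_of_compact hK hδ
    have h3 : ∀ᶠ n : ℕ in (hyperfilter ℕ : Filter ℕ), ∀ y ∈ F,
        |V n ⌊y.2 * ((n : ℝ) + 1)⌋₊ y.1 - ub y| ≤ ε / 3 := by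
      refine (eventually_all_finite hF).2 fun y _ => ?_
      have := (Metric.tendsto_nhds.1 (hlim y)) (ε / 3) hε3
      exact this.mono fun n hn => by
        rw [Real.dist_eq] at hn
        exact hn.le
    filter_upwards [h2, h3] with n hn2 hn3 x t ht0 htT
    rcases le_or_gt R ‖x‖ with hx | hx
    · rw [hout x t hx, ((hT n).data _).2 x hx, sub_self, abs_zero]
      exact hε.le
    · have hmem : (x, t) ∈ closedBall (0 : Sp N) R ×ˢ Icc (0 : ℝ) T :=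
        ⟨mem_closedBall_zero_iff.2 hx.le, ht0, htT⟩
      obtain ⟨y, hy, hxy⟩ := mem_iUnion₂.1 (hcov hmem)
      have hd : dist (x, t) y ≤ δ := (mem_ball.1 hxy).le
      have e1 := hn2 (x, t) y hd
      have e2 := hn3 y hy
      have e3 := h1 (x, t) y hd
      simp only at e1
      rw [abs_le] at e1 e2 e3 ⊢
      constructor <;> linarith [e1.1, e1.2, e2.1, e2.2, e3.1, e3.2]

end Pool.Agent.MCF5
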