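import Pool.Agent.Lib.MP_5aed36_gt.A3
import Pool.Agent.Lib.MP_5aed36_gt.C1

open MeasureTheory Set Filter Topology Metric
open scoped ENNReal NNReal RealInnerProductSpace

namespace Pool.Agent.MCF5

variable {N : ℕ}

section
variable {h η c R a b δ : ℝ} {L K : ℝ≥0} {v w r κ ψ l f : Sp N → ℝ}

/-- Take `φ = ψ - cl a b w`, use `tv_add_le` and `tv_sub_cl`. -/
theorem EL.window (hw : LipC w c) (hel : EL w κ) (hab : a ≤ b) (hψ : LipC ψ (cl a b c)) :
    tv (fun x => cl a b (w x)) ≤ tv ψ + ∫ x, κ x * (ψ x - cl a b (w x)) := by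
  have hcl : LipC (fun x => cl a b (w x)) (cl a b c) := LipC.comp (lipschitz_cl a b) hw
  have hφ : LipC (fun x => ψ x - cl a b (w x)) 0 := by
    have := hψ.sub hcl
    rwa [sub_self] at this
  have h1 := hel _ hφ
  have h2 := tv_add_le (hw.sub hcl) hψ
  have h3 := tv_sub_cl (a := a) (b := b) hw hab
  have h4 : (fun x => w x + (ψ x - cl a b (w x))) = fun x => (w x - cl a b (w x)) + ψ x := by
    funext x; ring
  rw [h4] at h1
  linarith

theorem EL.tv_cl_le (hw : LipC w c) (hel : EL w κ) (hκ : Integrable κ) (hab : a ≤ b)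
    (hc : c ≤ a) : tv (fun x => cl a b (w x)) ≤ (∫ x, |κ x|) * (b - a) := by
  have hψ : LipC (fun _ : Sp N => a) (cl a b c) := by
    rw [cl_of_le hab hc]; exact LipC.const a
  have h1 := EL.window hw hel hab hψ
  rw [tv_const, zero_add] at h1
  refine h1.trans ((le_abs_self _).trans ?_)
  rw [← integral_mul_const, ← Real.norm_eq_abs]
  refine norm_integral_le_of_norm_le (hκ.abs.mul_const _) (Eventually.of_forall fun x => ?_)
  rw [Real.norm_eq_abs, abs_mul]
  refine mul_le_mul_of_nonneg_left ?_ (abs_nonneg _)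
  have := cl_mem hab (w x)
  rw [abs_le]; constructor <;> linarith [this.1, this.2]

theorem EL.neg (hel : EL w κ) : EL (fun x => -w x) (fun x => -κ x) := by
  intro φ hφ
  have hφ' : LipC (fun x => -φ x) 0 := by
    have := hφ.neg
    rwa [neg_zero] at this
  have h1 := hel _ hφ'
  have h2 : tv (fun x => w x + -φ x) = tv (fun x => -w x + φ x) := by
    rw [← tv_neg (fun x => -w x + φ x)]
    congr 1; funext x; ring
  have h3 : (fun x => κ x * -φ x) = fun x => -κ x * φ x := by funext x; ring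
  rw [h2, h3] at h1
  rw [tv_neg]
  exact h1

theorem Step.neg (hs : Step h η v w r) :
    Step h η (fun x => -v x) (fun x => -w x) (fun x => -r x) := by
  refine ⟨hs.cont.neg, fun x => ?_, ?_⟩
  · rw [mm_neg, hs.eq x]; ring
  · have h1 := hs.el.neg
    have h2 : (fun x => -(r x / h)) = fun x => -r x / h := by funext x; ring
    rw [h2] at h1
    exact h1

theorem Traj.neg {V ρ : ℕ → Sp N → ℝ} (hT : Traj h L R c V ρ) :
    Traj h L R (-c) (fun k x => -V k x) (fun k x => -ρ k x) := by
  refine ⟨fun k => ⟨(hT.data k).1.neg, fun x hx => ?_⟩, fun k => (hT.step k).neg⟩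
  simp only [(hT.data k).2 x hx]

private theorem C6_strict (hη : 0 < η) (hv : LipschitzWith L v) (x : Sp N) :
    StrictMono fun s => mm v x s + η * s := by
  intro s t hst
  have h1 := mm_mono hv x hst.le
  have h2 := mul_lt_mul_of_pos_left hst hη
  show mm v x s + η * s < mm v x t + η * t
  linarith

theorem Step.pos_iff (hη : 0 < η) (hv : LipschitzWith L v) (hs : Step h η v w r) (x : Sp N) :
    (0 < r x ↔ v x < w x) ∧ (r x < 0 ↔ w x < v x) := by
  have hm := C6_strict hη hv x
  have h0 : v x = mm v x 0 + η * 0 := by rw [mm_zero]; ring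
  have h1 : (0 < r x ↔ mm v x 0 + η * 0 < mm v x (r x) + η * r x) := hm.lt_iff_lt.symm
  have h2 : (r x < 0 ↔ mm v x (r x) + η * r x < mm v x 0 + η * 0) := hm.lt_iff_lt.symm
  rw [← h0, ← hs.eq x] at h1 h2
  exact ⟨h1, h2⟩

theorem Step.integrable (hη : 0 < η) (hv : Data L R c v) (hw : Data L R c w)
    (hs : Step h η v w r) : Integrable r := by
  refine hs.cont.integrable_of_hasCompactSupport
    (HasCompactSupport.intro (isCompact_closedBall (0 : Sp N) R) fun x hx => ?_)
  have hx' : R ≤ ‖x‖ := by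
    rw [mem_closedBall_zero_iff, not_le] at hx
    exact hx.le
  have h1 := hs.pos_iff hη hv.1 x
  rw [hv.2 x hx', hw.2 x hx'] at h1
  have h2 : ¬ 0 < r x := fun h => lt_irrefl _ (h1.1.1 h)
  have h3 : ¬ r x < 0 := fun h => lt_irrefl _ (h1.2.1 h)
  exact le_antisymm (not_lt.1 h2) (not_lt.1 h3)

private theorem C6_cl_abs (ha : 0 ≤ a) (s : ℝ) : |cl (-a) a s| ≤ a := by
  have := cl_mem (a := -a) (b := a) (by linarith) s
  exact abs_le.2 this

private theorem C6_l1_step (hv : Data L R c v) (hw : Data L R c w)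
    (hs : Step h η v w r) (hel : EL v κ) (hκ : Integrable κ) (ha : 0 < a) :
    ∫ x, r x / h * (cl (-a) a (w x - v x) / a) ≤ ∫ x, |κ x| := by
  have hφ : LipC (fun x => cl (-a) a (w x - v x)) 0 := by
    have h1 := LipC.comp (lipschitz_cl (-a) a) (hw.lipC.sub hv.lipC)
    have h2 : cl (-a) a (c - c) = 0 := by
      rw [sub_self]; unfold cl
      rw [min_eq_left ha.le, max_eq_right (by linarith)]
    rwa [h2] at h1
  have hφ' : LipC (fun x => -cl (-a) a (w x - v x)) 0 := by
    have := hφ.neg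
    rwa [neg_zero] at this
  have h1 := hel _ hφ
  have h2 := hs.el _ hφ'
  have h3 := tv_exchange hv.lipC hw.lipC ha.le
  have h4 : (fun x => w x + -cl (-a) a (w x - v x)) = fun x => w x - cl (-a) a (w x - v x) := by
    funext x; ring
  have h5 : ∫ x, r x / h * -cl (-a) a (w x - v x) =
      -((∫ x, r x / h * (cl (-a) a (w x - v x) / a)) * a) := by
    rw [← integral_mul_const, ← integral_neg]
    congr 1; funext x; field_simp
  have h6 : ∫ x, κ x * cl (-a) a (w x - v x) ≤ (∫ x, |κ x|) * a := by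
    refine (le_abs_self _).trans ?_
    rw [← integral_mul_const, ← Real.norm_eq_abs]
    refine norm_integral_le_of_norm_le (hκ.abs.mul_const _) (Eventually.of_forall fun x => ?_)
    rw [Real.norm_eq_abs, abs_mul]
    exact mul_le_mul_of_nonneg_left (C6_cl_abs ha.le _) (abs_nonneg _)
  rw [h4, h5] at h2
  refine le_of_mul_le_mul_right ?_ ha
  linarith

/-- Accretivity: test with `± cl (-a) a (w - v)`, use `tv_exchange`, divide by `a`, let `a → 0`;
the sign of `w - v` is the sign of `r`. -/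
theorem Step.l1 (hh : 0 < h) (hη : 0 < η) (hv : Data L R c v) (hw : Data L R c w)
    (hs : Step h η v w r) (hel : EL v κ) (hκ : Integrable κ) :
    ∫ x, |r x / h| ≤ ∫ x, |κ x| := by
  have hr : Integrable r := hs.integrable hη hv hw
  have hpos : ∀ n : ℕ, (0 : ℝ) < 1 / ((n : ℝ) + 1) := fun n => Nat.one_div_pos_of_nat
  have hsmall : ∀ s : ℝ, 0 < s → ∀ᶠ n : ℕ in atTop, 1 / ((n : ℝ) + 1) < s := fun s hs0 =>
    (tendsto_one_div_add_atTop_nhds_zero_nat (𝕜 := ℝ)).eventually (gt_mem_nhds hs0)
  have hlim : Tendsto (fun n : ℕ => ∫ x, r x / h *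
      (cl (-(1 / ((n : ℝ) + 1))) (1 / ((n : ℝ) + 1)) (w x - v x) / (1 / ((n : ℝ) + 1))))
      atTop (𝓝 (∫ x, |r x / h|)) := by
    refine tendsto_integral_of_dominated_convergence (fun x => |r x / h|) (fun n => ?_)
      (hr.div_const h).abs (fun n => Eventually.of_forall fun x => ?_)
      (Eventually.of_forall fun x => ?_)
    · refine Continuous.aestronglyMeasurable ?_
      exact (hs.cont.div_const h).mul
        (((lipschitz_cl _ _).continuous.comp
          (hw.1.continuous.sub hv.1.continuous)).div_const _)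
    · rw [Real.norm_eq_abs, abs_mul]
      refine mul_le_of_le_one_right (abs_nonneg _) ?_
      rw [abs_div, abs_of_pos (hpos n), div_le_one (hpos n)]
      exact C6_cl_abs (hpos n).le _
    · have hp := hs.pos_iff hη hv.1 x
      refine tendsto_const_nhds.congr' ?_
      rcases lt_trichotomy (r x) 0 with h0 | h0 | h0
      · have h1 : 0 < v x - w x := sub_pos.2 (hp.2.1 h0)
        filter_upwards [hsmall _ h1] with n hn
        have h2 : cl (-(1 / ((n : ℝ) + 1))) (1 / ((n : ℝ) + 1)) (w x - v x) =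
            -(1 / ((n : ℝ) + 1)) :=
          cl_of_le (by linarith [hpos n]) (by linarith)
        rw [h2, neg_div, div_self (hpos n).ne', abs_of_neg (div_neg_of_neg_of_pos h0 hh)]
        ring
      · refine Eventually.of_forall fun n => ?_
        simp [h0]
      · have h1 : 0 < w x - v x := sub_pos.2 (hp.1.1 h0)
        filter_upwards [hsmall _ h1] with n hn
        have h2 : cl (-(1 / ((n : ℝ) + 1))) (1 / ((n : ℝ) + 1)) (w x - v x) =
            1 / ((n : ℝ) + 1) := by
          unfold cl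
          rw [min_eq_right hn.le, max_eq_right (by linarith [hpos n])]
        rw [h2, div_self (hpos n).ne', abs_of_pos (div_pos h0 hh), mul_one]
  exact le_of_tendsto' hlim fun n => C6_l1_step hv hw hs hel hκ (hpos n)

/-- Test with `-f`; `tv_split` and the calibration give `∫ (r - h a) f ≤ 0`, while `h a < r` on
the open set `0 < f`. -/
theorem Step.barrier (hh : 0 < h) (hη : 0 < η) (hv : Data L R c v) (hw : Data L R c w)
    (hs : Step h η v w r) {α : Sp N → ℝ} {U : Set (Sp N)} (hl : LipschitzWith K l)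
    (hα : Continuous α) (hcal : Calib l α U) (hf : LipC f 0) (hf0 : ∀ x, 0 ≤ f x)
    (hU : tsupport f ⊆ U) (hfw : ∀ x, 0 < f x → w x = l x + f x)
    (hm : ∀ x, 0 < f x → mm v x (h * α x) + η * (h * α x) ≤ l x) : ∀ x, f x = 0 := by
  have hf' : LipC (fun x => -f x) 0 := by
    have := hf.neg
    rwa [neg_zero] at this
  have hfc : Continuous f := hf.continuous
  have hfs : HasCompactSupport f := by
    have := hf.hasCompactSupport
    simpa only [sub_zero] using this
  have h1 := hs.el _ hf'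
  have h2 := tv_split hw.lipC hf hf0 hl hfw
  have h3 := hcal f hf hf0 hU
  have h4 : (fun x => w x + -f x) = fun x => w x - f x := by funext x; ring
  have h5 : ∫ x, r x / h * -f x = -∫ x, r x / h * f x := by
    rw [← integral_neg]; congr 1; funext x; ring
  rw [h4, h5] at h1
  have i1 : Integrable fun x => r x / h * f x :=
    ((hs.cont.div_const h).mul hfc).integrable_of_hasCompactSupport hfs.mul_left
  have i2 : Integrable fun x => α x * f x :=
    (hα.mul hfc).integrable_of_hasCompactSupport hfs.mul_left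
  have h6 : ∫ x, (r x / h - α x) * f x ≤ 0 := by
    have : (fun x => (r x / h - α x) * f x) = fun x => r x / h * f x - α x * f x := by
      funext x; ring
    rw [this, integral_sub i1 i2]
    linarith
  have h7 : ∀ x, 0 < f x → 0 < r x / h - α x := by
    intro x hx
    have e1 : mm v x (h * α x) + η * (h * α x) < mm v x (r x) + η * r x := by
      have := hm x hx
      have := hfw x hx
      have := hs.eq x
      linarith
    have e2 : h * α x < r x := (C6_strict hη hv.1 x).lt_iff_lt.1 e1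
    rw [sub_pos, lt_div_iff₀ hh]
    linarith
  have h8 : ∀ x, 0 ≤ (r x / h - α x) * f x := by
    intro x
    rcases (hf0 x).eq_or_lt with e | e
    · rw [← e, mul_zero]
    · exact (mul_pos (h7 x e) e).le
  intro x
  by_contra hx
  have hx' : 0 < f x := lt_of_le_of_ne (hf0 x) (Ne.symm hx)
  have h9 : 0 < ∫ x, (r x / h - α x) * f x :=
    Continuous.integral_pos_of_hasCompactSupport_nonneg_nonzero
      (((hs.cont.div_const h).sub hα).mul hfc) hfs.mul_left h8 (mul_pos (h7 x hx') hx').ne'
  linarith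

/-- Use `f = min (w - l)₊ (Λ (3 δ / 4 - ‖x - x₀‖)₊)` with `Λ` large. -/
theorem Step.local_barrier (hh : 0 < h) (hη : 0 < η) (hv : Data L R c v) (hw : Data L R c w)
    (hs : Step h η v w r) {α : Sp N → ℝ} {x₀ : Sp N} (hδ : 0 < δ) (hl : LipschitzWith K l)
    (hα : Continuous α) (hcal : Calib l α (ball x₀ δ))
    (hstrip : ∀ x, δ / 2 ≤ ‖x - x₀‖ → ‖x - x₀‖ ≤ δ → w x ≤ l x)
    (hm : ∀ x ∈ closedBall x₀ (δ / 2), mm v x (h * α x) + η * (h * α x) ≤ l x) :
    ∀ x ∈ closedBall x₀ δ, w x ≤ l x := by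
  obtain ⟨M, hM⟩ := (isCompact_closedBall x₀ δ).exists_bound_of_continuousOn
    (f := fun x => w x - l x) (hw.1.continuous.sub hl.continuous).continuousOn
  have hM0 : 0 ≤ M := (norm_nonneg _).trans (hM x₀ (mem_closedBall_self hδ.le))
  obtain ⟨Λ, hΛ0, hΛ⟩ : ∃ Λ : ℝ, 0 < Λ ∧ M ≤ Λ * (δ / 4) := by
    refine ⟨(M + 1) / (δ / 4), by positivity, ?_⟩
    rw [div_mul_cancel₀ _ (by positivity)]
    linarith
  have hg : LipC (fun x : Sp N => Λ * max (3 * δ / 4 - ‖x - x₀‖) 0) 0 := by
    have e : LipC (fun x : Sp N => max (3 * δ / 4 - ‖x - x₀‖) 0) 0 := by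
      refine ⟨⟨1, ?_⟩, ‖x₀‖ + δ, fun x hx => ?_⟩
      · refine LipschitzWith.max_const (LipschitzWith.of_dist_le_mul fun x y => ?_) 0
        rw [Real.dist_eq, NNReal.coe_one, one_mul, dist_eq_norm]
        have e1 : 3 * δ / 4 - ‖x - x₀‖ - (3 * δ / 4 - ‖y - x₀‖) = ‖y - x₀‖ - ‖x - x₀‖ := by ring
        have e2 := abs_norm_sub_norm_le (y - x₀) (x - x₀)
        rw [sub_sub_sub_cancel_right, norm_sub_rev y x] at e2
        rw [e1]; exact e2
      · have := norm_sub_norm_le x x₀
        exact max_eq_right (by linarith)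
    have := e.const_mul Λ
    rwa [mul_zero] at this
  obtain ⟨⟨Kg, hKg⟩, Rg, hRg⟩ := hg
  set F : Sp N → ℝ := fun x => min (max (w x - l x) 0) (Λ * max (3 * δ / 4 - ‖x - x₀‖) 0)
    with hF
  have hF0 : ∀ x, 0 ≤ F x := fun x =>
    le_min (le_max_right _ _) (mul_nonneg hΛ0.le (le_max_right _ _))
  have hFl : LipC F 0 := by
    refine ⟨⟨_, ((hw.1.sub hl).max_const 0).min hKg⟩, Rg, fun x hx => ?_⟩
    have e : Λ * max (3 * δ / 4 - ‖x - x₀‖) 0 = 0 := hRg x hx
    simp only [hF]
    rw [e]
    exact min_eq_right (le_max_right _ _)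
  have hFpos : ∀ x, 0 < F x → ‖x - x₀‖ < δ / 2 ∧ l x < w x := by
    intro x hx
    have e1 : 0 < max (w x - l x) 0 := (lt_min_iff.1 hx).1
    have e2 : 0 < Λ * max (3 * δ / 4 - ‖x - x₀‖) 0 := (lt_min_iff.1 hx).2
    have e3 : 0 < max (3 * δ / 4 - ‖x - x₀‖) 0 := (mul_pos_iff_of_pos_left hΛ0).1 e2
    have e4 : 0 < w x - l x := (lt_max_iff.1 e1).resolve_right (lt_irrefl _)
    have e5 : 0 < 3 * δ / 4 - ‖x - x₀‖ := (lt_max_iff.1 e3).resolve_right (lt_irrefl _)
    refine ⟨?_, by linarith⟩
    by_contra e6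
    have := hstrip x (not_lt.1 e6) (by linarith)
    linarith
  have hin : ∀ x, ‖x - x₀‖ < δ / 2 → F x = max (w x - l x) 0 := by
    intro x hx
    refine min_eq_left (max_le ?_ (mul_nonneg hΛ0.le (le_max_right _ _)))
    have e1 : x ∈ closedBall x₀ δ := by
      rw [mem_closedBall, dist_eq_norm]; linarith
    have e2 : w x - l x ≤ M := (le_abs_self _).trans (hM x e1)
    have e3 : δ / 4 ≤ max (3 * δ / 4 - ‖x - x₀‖) 0 := le_max_of_le_left (by linarith)
    exact e2.trans (hΛ.trans (mul_le_mul_of_nonneg_left e3 hΛ0.le))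
  have hsupp : tsupport F ⊆ ball x₀ δ := by
    refine (closure_minimal (t := closedBall x₀ (δ / 2)) (fun x hx => ?_)
      isClosed_closedBall).trans (closedBall_subset_ball (by linarith))
    have e : 0 < F x := lt_of_le_of_ne (hF0 x) (Ne.symm hx)
    rw [mem_closedBall, dist_eq_norm]
    exact (hFpos x e).1.le
  have hz := hs.barrier hh hη hv hw hl hα hcal hFl hF0 hsupp
    (fun x hx => by
      have e := hFpos x hx
      rw [hin x e.1, max_eq_left (by linarith [e.2])]
      ring)
    (fun x hx => hm x (by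
      rw [mem_closedBall, dist_eq_norm]
      exact (hFpos x hx).1.le))
  intro x hx
  rw [mem_closedBall, dist_eq_norm] at hx
  rcases lt_or_ge ‖x - x₀‖ (δ / 2) with e | e
  · have e1 := hin x e
    rw [hz x] at e1
    have e2 : w x - l x ≤ max (w x - l x) 0 := le_max_left _ _
    linarith
  · exact hstrip x e hx

theorem Step.le_const (hh : 0 < h) (hη : 0 < η) (hv : Data L R c v) (hw : Data L R c w)
    (hs : Step h η v w r) (hc : c ≤ a) (hva : ∀ x, v x ≤ a) : ∀ x, w x ≤ a := by
  have hf : LipC (fun x => max (w x - a) 0) 0 := by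
    have := (hw.lipC.sub (LipC.const a)).max (LipC.const 0)
    rwa [max_eq_right (by linarith)] at this
  have hz := hs.barrier hh hη hv hw (l := fun _ => a) (α := fun _ => 0) (U := univ)
    (LipschitzWith.const a) continuous_const (calib_const a) hf (fun x => le_max_right _ _)
    (subset_univ _)
    (fun x hx => by
      have e : 0 < w x - a := (lt_max_iff.1 hx).resolve_right (lt_irrefl _)
      rw [max_eq_left e.le]
      ring)
    (fun x _ => by
      rw [mul_zero, mm_zero, mul_zero, add_zero]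
      exact hva x)
  intro x
  have e1 : max (w x - a) 0 = 0 := hz x
  have e2 : w x - a ≤ max (w x - a) 0 := le_max_left _ _
  linarith

private theorem C6_upper {V ρ : ℕ → Sp N → ℝ} (hh : 0 < h) (hT : Traj h L R c V ρ)
    (hc : c ≤ b) (h0 : ∀ x, V 0 x ≤ b) : ∀ k x, V k x ≤ b := by
  intro k
  induction k with
  | zero => exact h0
  | succ k ih => exact (hT.step k).le_const hh hh (hT.data k) (hT.data (k + 1)) hc ih

theorem Traj.range {V ρ : ℕ → Sp N → ℝ} (hh : 0 < h) (hT : Traj h L R c V ρ)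
    (hc : a ≤ c ∧ c ≤ b) (h0 : ∀ x, a ≤ V 0 x ∧ V 0 x ≤ b) :
    ∀ k x, a ≤ V k x ∧ V k x ≤ b := by
  intro k x
  refine ⟨?_, C6_upper hh hT hc.2 (fun x => (h0 x).2) k x⟩
  have := C6_upper (b := -a) hh hT.neg (neg_le_neg hc.1) (fun x => neg_le_neg (h0 x).1) k x
  exact neg_le_neg_iff.1 this

end

end Pool.Agent.MCF5
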