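import Pool.Agent.Lib.MP_5aed36_gt.A2
import Pool.Agent.Lib.MP_5aed36_gt.C6

open MeasureTheory Set Filter Topology Metric
open scoped ENNReal NNReal RealInnerProductSpace

namespace Pool.Agent.MCF5

variable {N : ℕ}

theorem C9_dvg_meas (Y : Sp N → Sp N) : Measurable (dvg Y) := by
  unfold dvg
  refine Finset.measurable_sum _ fun i _ => ?_
  have h1 : Continuous fun v : Sp N => v i := by fun_prop
  exact h1.measurable.comp (measurable_fderiv_apply_const ℝ Y _)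

theorem C9_dvg_bound {Y : Sp N → Sp N} {K : ℝ≥0} (hY : LipschitzWith K Y) (x : Sp N) :
    ‖dvg Y x‖ ≤ N * K := by
  unfold dvg
  refine (norm_sum_le _ _).trans ?_
  have : ∀ i ∈ (Finset.univ : Finset (Fin N)),
      ‖fderiv ℝ Y x (EuclideanSpace.single i 1) i‖ ≤ K := fun i _ => by
    refine (PiLp.norm_apply_le _ i).trans ?_
    refine (ContinuousLinearMap.le_opNorm _ _).trans ?_
    have h1 : ‖(EuclideanSpace.single i (1 : ℝ) : Sp N)‖ = 1 := by simp
    rw [h1, mul_one]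
    exact norm_fderiv_le_of_lipschitz ℝ hY
  refine (Finset.sum_le_sum this).trans ?_
  simp

theorem C9_calib_field {l : Sp N → ℝ} {Y : Sp N → Sp N} {K K' : ℝ≥0} {U : Set (Sp N)} {a : ℝ}
    (hl : LipschitzWith K l) (hY : LipschitzWith K' Y)
    (h1 : ∀ x ∈ U, ‖Y x‖ ≤ 1) (hal : ∀ x ∈ U, fderiv ℝ l x (Y x) = ‖fderiv ℝ l x‖)
    (hd : ∀ x ∈ U, dvg Y x ≤ a) : Calib l (fun _ => a) U := by
  intro f hf hf0 hU
  obtain ⟨Kf, hKf⟩ := hf.1
  have hfc := hf.continuous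
  have hcs : HasCompactSupport f := by simpa using hf.hasCompactSupport
  have hopen : IsOpen {x | 0 < f x} := isOpen_lt continuous_const hfc
  have hsub : {x | 0 < f x} ⊆ tsupport f := fun x hx =>
    subset_tsupport f (ne_of_gt hx)
  have hfin : volume {x | 0 < f x} < ∞ :=
    (measure_mono hsub).trans_lt hcs.isCompact.measure_lt_top
  have hint : ∀ (g : Sp N → ℝ) (Kg : ℝ≥0), LipschitzWith Kg g →
      IntegrableOn (fun x => ‖fderiv ℝ g x‖) {x | 0 < f x} := fun g Kg hg => by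
    refine Measure.integrableOn_of_bounded (M := Kg) hfin.ne
      (measurable_fderiv ℝ g).norm.aestronglyMeasurable (ae_of_all _ fun x => ?_)
    rw [norm_norm]
    exact norm_fderiv_le_of_lipschitz ℝ hg
  have hmeas : Measurable fun x => fderiv ℝ f x (Y x) := by
    have h2 : Continuous fun q : (Sp N →L[ℝ] ℝ) × Sp N => q.1 q.2 := by fun_prop
    exact h2.measurable.comp ((measurable_fderiv ℝ f).prodMk hY.continuous.measurable)
  have hint2 : IntegrableOn (fun x => fderiv ℝ f x (Y x)) {x | 0 < f x} := by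
    refine Measure.integrableOn_of_bounded (M := Kf) hfin.ne hmeas.aestronglyMeasurable ?_
    refine (ae_restrict_iff' hopen.measurableSet).2 (ae_of_all _ fun x hx => ?_)
    refine (ContinuousLinearMap.le_opNorm _ _).trans ?_
    calc ‖fderiv ℝ f x‖ * ‖Y x‖ ≤ Kf * 1 :=
          mul_le_mul (norm_fderiv_le_of_lipschitz ℝ hKf) (h1 x (hU (hsub hx))) (norm_nonneg _)
            Kf.2
      _ = Kf := mul_one _
  have e1 : ∫ x in {x | 0 < f x}, fderiv ℝ f x (Y x) = ∫ x, fderiv ℝ f x (Y x) := by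
    refine setIntegral_eq_integral_of_forall_compl_eq_zero fun x hx => ?_
    have hx0 : f x = 0 := le_antisymm (not_lt.1 hx) (hf0 x)
    have : IsLocalMin f x := Eventually.of_forall fun y => by rw [hx0]; exact hf0 y
    rw [this.fderiv_eq_zero]
    rfl
  have e2 := ibp hf hY
  have i1 : Integrable fun x => f x * dvg Y x :=
    hf.integrable_zero.mul_bdd (C9_dvg_meas Y).aestronglyMeasurable
      (ae_of_all _ (C9_dvg_bound hY))
  have e3 : ∫ x, f x * dvg Y x ≤ ∫ x, a * f x := by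
    refine integral_mono i1 (hf.integrable_zero.const_mul a) fun x => ?_
    rcases (hf0 x).eq_or_lt with h0 | h0
    · simp [← h0]
    · have := mul_le_mul_of_nonneg_left (hd x (hU (hsub h0))) h0.le
      simpa [mul_comm] using this
  have e4 : ∫ x in {x | 0 < f x}, ‖fderiv ℝ l x‖ ≤
      ∫ x in {x | 0 < f x}, (‖fderiv ℝ (fun y => l y + f y) x‖ - fderiv ℝ f x (Y x)) := by
    refine setIntegral_mono_on_ae (hint l K hl) ((hint _ _ (hl.add hKf)).sub hint2)
      hopen.measurableSet ?_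
    filter_upwards [hl.ae_differentiableAt (μ := volume), hKf.ae_differentiableAt (μ := volume)]
      with x hx1 hx2 hx
    have hxU := hU (hsub hx)
    have h3 : fderiv ℝ (fun y => l y + f y) x = fderiv ℝ l x + fderiv ℝ f x := fderiv_add hx1 hx2
    have h4 : fderiv ℝ (fun y => l y + f y) x (Y x) ≤ ‖fderiv ℝ (fun y => l y + f y) x‖ := by
      have h6 := (fderiv ℝ (fun y => l y + f y) x).le_opNorm (Y x)
      exact (le_abs_self _).trans
        (h6.trans (mul_le_of_le_one_right (norm_nonneg _) (h1 x hxU)))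
    have h5 : fderiv ℝ (fun y => l y + f y) x (Y x) =
        ‖fderiv ℝ l x‖ + fderiv ℝ f x (Y x) := by
      rw [h3, add_apply, hal x hxU]
    linarith
  rw [integral_sub (hint _ _ (hl.add hKf)) hint2, e1, e2] at e4
  linarith

theorem C9_exists_sym (X : Sp N →L[ℝ] Sp N →L[ℝ] ℝ) :
    ∃ S : Sp N →L[ℝ] Sp N, ∀ u k, ⟪S u, k⟫ = (1 / 2) * (X u k + X k u) := by
  refine ⟨InnerProductSpace.continuousLinearMapOfBilin (𝕜 := ℝ)
    ((1 / 2 : ℝ) • (X + X.flip) : Sp N →L[ℝ] Sp N →L[ℝ] ℝ), fun u k => ?_⟩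
  rw [InnerProductSpace.continuousLinearMapOfBilin_apply]
  rfl

theorem C9_hasFDeriv (x₀ : Sp N) (p : Sp N →L[ℝ] ℝ) (X : Sp N →L[ℝ] Sp N →L[ℝ] ℝ) (A : ℝ)
    (x : Sp N) :
    HasFDerivAt (fun x => A + (p (x - x₀) + (1 / 2) * X (x - x₀) (x - x₀)))
      (p + (1 / 2 : ℝ) • (X (x - x₀) + X.flip (x - x₀))) x := by
  have h0 : HasFDerivAt (fun x : Sp N => x - x₀) (ContinuousLinearMap.id ℝ _) x :=
    (hasFDerivAt_id x).sub_const x₀
  have h1 := p.hasFDerivAt.comp x h0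
  have h2 := (X.hasFDerivAt.comp x h0).clm_apply h0
  have h3 := ((h1.add (h2.const_mul (1 / 2 : ℝ))).const_add A)
  refine h3.congr_fderiv ?_
  ext k
  simp

theorem C9_dvg_unit {G : Sp N → Sp N} {S : Sp N →L[ℝ] Sp N} {x η : Sp N} {c : ℝ} (hc : 0 < c)
    (hη : ‖η‖ = 1) (hG : HasFDerivAt G S x) (hx : G x = c • η) :
    dvg (fun y => ‖G y‖⁻¹ • G y) x =
      ((∑ i, S (EuclideanSpace.single i 1) i) - ⟪η, S η⟫) / c := by
  have hn : ‖G x‖ = c := by rw [hx, norm_smul, hη, mul_one, Real.norm_of_nonneg hc.le]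
  have h1 := hG.norm_sq.sqrt (by rw [hn]; positivity)
  simp only [Real.sqrt_sq (norm_nonneg _)] at h1
  have h2 := (hasDerivAt_inv (x := ‖G x‖) (by rw [hn]; exact hc.ne')).comp_hasFDerivAt x h1
  have h3 := (HasFDerivAt.smul h2 hG).fderiv
  have h4 : ∀ k, fderiv ℝ (fun y => ‖G y‖⁻¹ • G y) x k = c⁻¹ • (S k - ⟪η, S k⟫ • η) := fun k => by
    have : fderiv ℝ (fun y => ‖G y‖⁻¹ • G y) x = _ := h3
    rw [this]
    simp only [Function.comp, hn, add_apply, smul_apply,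
      ContinuousLinearMap.smulRight_apply, ContinuousLinearMap.comp_apply, innerSL_apply_apply,
      smul_eq_mul, nsmul_eq_mul]
    rw [hx, real_inner_smul_left, smul_smul, smul_sub, smul_smul, sub_eq_add_neg, ← neg_smul]
    congr 2
    field_simp
    norm_num
  have h5 : ∑ i, ⟪η, S (EuclideanSpace.single i 1)⟫ * η i = ⟪η, S η⟫ := by
    have h6 : η = ∑ i, η i • (EuclideanSpace.single i (1 : ℝ) : Sp N) := by
      ext j
      simp [Pi.single_apply]
    conv_rhs => rw [show S η = S (∑ i, η i • (EuclideanSpace.single i (1 : ℝ) : Sp N)) by rw [← h6]]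
    rw [map_sum, inner_sum]
    refine Finset.sum_congr rfl fun i _ => ?_
    rw [map_smul, real_inner_smul_right, mul_comm]
  unfold dvg
  simp only [h4, PiLp.smul_apply, PiLp.sub_apply, smul_eq_mul]
  rw [← Finset.mul_sum, Finset.sum_sub_distrib, h5, div_eq_inv_mul]

theorem C9_norm_one {p : Sp N →L[ℝ] ℝ} (hp : p ≠ 0) {η : Sp N} (hη : ‖η‖ ≤ 1)
    (hpη : ∀ ξ, p ξ = ‖p‖ * ⟪η, ξ⟫) : ‖η‖ = 1 := by
  have hp0 : 0 < ‖p‖ := norm_pos_iff.2 hp
  have h1 : ‖p‖ ≤ ‖p‖ * ‖η‖ := by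
    refine p.opNorm_le_bound (by positivity) fun ξ => ?_
    rw [hpη, norm_mul, norm_norm, mul_assoc]
    exact mul_le_mul_of_nonneg_left (norm_inner_le_norm _ _) hp0.le
  refine le_antisymm hη ?_
  exact le_of_mul_le_mul_left (by simpa using h1) hp0

/-- Near `x₀` the field `ν = ∇ψ / ‖∇ψ‖` is smooth, its divergence is continuous and equals
`(trS X - X η η) / ‖p‖` at `x₀`; multiply by a cutoff to get a Lipschitz field and use `ibp`.
Only the symmetric part of `X` matters. -/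
theorem calib_quadratic (x₀ : Sp N) {p : Sp N →L[ℝ] ℝ} (hp : p ≠ 0) {η : Sp N} (hη : ‖η‖ ≤ 1)
    (hpη : ∀ ξ, p ξ = ‖p‖ * ⟪η, ξ⟫) (X : Sp N →L[ℝ] Sp N →L[ℝ] ℝ) {γ : ℝ} (hγ : 0 < γ) :
    ∃ δ₀ : ℝ, 0 < δ₀ ∧ ∀ (l : Sp N → ℝ) (K : ℝ≥0) (A : ℝ), LipschitzWith K l →
      (∀ x ∈ ball x₀ δ₀, l x = A + (p (x - x₀) + (1 / 2) * X (x - x₀) (x - x₀))) →
      Calib l (fun _ => (trS X - X η η) / ‖p‖ + γ) (ball x₀ δ₀) := by
  have hp0 : 0 < ‖p‖ := norm_pos_iff.2 hp
  have hη1 := C9_norm_one hp hη hpη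
  obtain ⟨S, hS⟩ := C9_exists_sym X
  obtain ⟨G, hG⟩ : ∃ G : Sp N → Sp N, G = fun x => ‖p‖ • η + S (x - x₀) := ⟨_, rfl⟩
  have hG0 : G x₀ = ‖p‖ • η := by simp [hG]
  have hGn : G x₀ ≠ 0 := by
    rw [hG0, ← norm_pos_iff, norm_smul, hη1, norm_norm, mul_one]
    exact hp0
  have hGc : ContDiff ℝ 1 G := by
    rw [hG]
    exact contDiff_const.add (S.contDiff.comp (contDiff_id.sub contDiff_const))
  have hGd : HasFDerivAt G S x₀ := by
    rw [hG]
    have h0 : HasFDerivAt (fun x : Sp N => x - x₀) (ContinuousLinearMap.id ℝ _) x₀ :=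
      (hasFDerivAt_id x₀).sub_const x₀
    exact (S.hasFDerivAt.comp x₀ h0).const_add _
  have hν : ContDiffAt ℝ 1 (fun y => ‖G y‖⁻¹ • G y) x₀ :=
    ((hGc.contDiffAt.norm ℝ hGn).inv (norm_ne_zero_iff.2 hGn)).smul hGc.contDiffAt
  obtain ⟨K₁, t, ht, hK₁⟩ := hν.exists_lipschitzOnWith
  obtain ⟨Y, hY, hYt⟩ := hK₁.extend_finite_dimension
  have hd0 : dvg (fun y => ‖G y‖⁻¹ • G y) x₀ = (trS X - X η η) / ‖p‖ := by
    rw [C9_dvg_unit hp0 hη1 hGd hG0, real_inner_comm, hS]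
    congr 2
    · unfold trS
      refine Finset.sum_congr rfl fun i _ => ?_
      have := hS (EuclideanSpace.single i 1) (EuclideanSpace.single i 1)
      rw [EuclideanSpace.inner_single_right] at this
      simp only [one_mul, conj_trivial] at this
      rw [this]
      ring
    · ring
  have hdc : ContinuousAt (dvg (fun y => ‖G y‖⁻¹ • G y)) x₀ := by
    have h1 := hν.continuousAt_fderiv one_ne_zero
    unfold dvg
    refine tendsto_finsetSum _ fun i _ => ?_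
    have h2 : Continuous fun T : Sp N →L[ℝ] Sp N => T (EuclideanSpace.single i 1) i := by fun_prop
    exact h2.continuousAt.tendsto.comp h1
  have hev : ∀ᶠ x in 𝓝 x₀, x ∈ t ∧ G x ≠ 0 ∧
      dvg (fun y => ‖G y‖⁻¹ • G y) x < (trS X - X η η) / ‖p‖ + γ := by
    refine Eventually.and ht (Eventually.and (hGc.continuous.continuousAt.eventually_ne hGn) ?_)
    exact hdc.eventually_lt continuousAt_const (by rw [hd0]; linarith)
  obtain ⟨δ₀, hδ₀, hb⟩ := Metric.eventually_nhds_iff_ball.1 hev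
  refine ⟨δ₀, hδ₀, fun l K A hl hlx => C9_calib_field hl hY ?_ ?_ ?_⟩
  · intro x hx
    rw [← hYt (hb x hx).1, norm_smul, norm_inv, norm_norm,
      inv_mul_cancel₀ (norm_ne_zero_iff.2 (hb x hx).2.1)]
  · intro x hx
    have h1 : l =ᶠ[𝓝 x] fun x => A + (p (x - x₀) + (1 / 2) * X (x - x₀) (x - x₀)) :=
      Filter.eventually_of_mem (isOpen_ball.mem_nhds hx) hlx
    have h2 : fderiv ℝ l x = innerSL ℝ (G x) := by
      rw [h1.fderiv_eq, (C9_hasFDeriv x₀ p X A x).fderiv]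
      ext k
      rw [innerSL_apply_apply, hG, inner_add_left, real_inner_smul_left, hS, ← hpη]
      simp only [add_apply, smul_apply, ContinuousLinearMap.flip_apply, smul_eq_mul]
    rw [h2, ← hYt (hb x hx).1, innerSL_apply_norm, innerSL_apply_apply, real_inner_smul_right,
      real_inner_self_eq_norm_mul_norm, ← mul_assoc,
      inv_mul_cancel₀ (norm_ne_zero_iff.2 (hb x hx).2.1), one_mul]
  · intro x hx
    have h1 : Y =ᶠ[𝓝 x] fun y => ‖G y‖⁻¹ • G y :=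
      Filter.eventually_of_mem (isOpen_ball.mem_nhds hx) fun y hy => (hYt (hb y hy).1).symm
    have h2 : dvg Y x = dvg (fun y => ‖G y‖⁻¹ • G y) x := by
      unfold dvg
      rw [h1.fderiv_eq]
    rw [h2]
    exact (hb x hx).2.2.le

theorem C9_mm_le (x₀ : Sp N) (p : Sp N →L[ℝ] ℝ) (X : Sp N →L[ℝ] Sp N →L[ℝ] ℝ) {A r : ℝ}
    {v : Sp N → ℝ} {L : ℝ≥0} (hv : LipschitzWith L v) {x : Sp N}
    (hle : ∀ y ∈ closedBall x (3 * |r|),
      v y ≤ A + (p (y - x₀) + (1 / 2) * X (y - x₀) (y - x₀))) :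
    mm v x r ≤ A + (p (x - x₀) + (1 / 2) * X (x - x₀) (x - x₀)) + r * ‖p‖ +
      |r| * (‖X‖ * ‖x - x₀‖) + 5 * ‖X‖ * r ^ 2 := by
  obtain ⟨P, hP⟩ : ∃ P : Sp N →L[ℝ] ℝ, P = p + (1 / 2 : ℝ) • (X (x - x₀) + X.flip (x - x₀)) :=
    ⟨_, rfl⟩
  have hPa : ∀ k, P k = p k + (1 / 2) * (X (x - x₀) k + X k (x - x₀)) := fun k => by
    simp only [hP, add_apply, smul_apply, ContinuousLinearMap.flip_apply, smul_eq_mul]
  obtain ⟨A', hA'⟩ : ∃ A', A' = A + (p (x - x₀) + (1 / 2) * X (x - x₀) (x - x₀)) - P x +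
    5 * ‖X‖ * r ^ 2 := ⟨_, rfl⟩
  have hlip : LipschitzWith ‖P‖₊ fun y => A' + P y :=
    LipschitzWith.of_dist_le_mul fun y z => by
      rw [dist_add_left]
      exact P.lipschitz.dist_le_mul y z
  have h1 : mm v x r ≤ mm (fun y => A' + P y) x r := by
    refine mm_mono_local hv hlip fun y hy => (hle y hy).trans ?_
    have hk : ‖y - x‖ ≤ 3 * |r| := by rwa [mem_closedBall, dist_eq_norm] at hy
    have e1 : y - x₀ = (x - x₀) + (y - x) := by abel
    have e2 : P y = P x + P (y - x) := by rw [map_sub]; ring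
    have e3 : X (y - x) (y - x) ≤ ‖X‖ * (3 * |r|) * (3 * |r|) := by
      refine (le_abs_self _).trans ((X.le_opNorm₂ _ _).trans ?_)
      gcongr
    have e4 : |r| * |r| = r ^ 2 := by rw [abs_mul_abs_self, sq]
    have e5 : 0 ≤ ‖X‖ * r ^ 2 := by positivity
    rw [e2, hPa (y - x), hA', e1]
    simp only [map_add, add_apply]
    have e6 : ‖X‖ * (3 * |r|) * (3 * |r|) = 9 * (‖X‖ * r ^ 2) := by rw [← e4]; ring
    linarith
  rw [mm_affine] at h1
  have h2 : ‖P - p‖ ≤ ‖X‖ * ‖x - x₀‖ := by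
    refine ContinuousLinearMap.opNorm_le_bound _ (by positivity) fun k => ?_
    have e1 := X.le_opNorm₂ (x - x₀) k
    have e2 := X.le_opNorm₂ k (x - x₀)
    have e3 : (P - p) k = (1 / 2) * (X (x - x₀) k + X k (x - x₀)) := by
      rw [sub_apply, hPa]; ring
    rw [e3, norm_mul]
    have e4 := norm_add_le (X (x - x₀) k) (X k (x - x₀))
    have e5 : ‖(1 / 2 : ℝ)‖ = 1 / 2 := by norm_num
    rw [e5]
    nlinarith
  have h3 : |‖P‖ - ‖p‖| ≤ ‖X‖ * ‖x - x₀‖ := (abs_norm_sub_norm_le _ _).trans h2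
  have h4 : r * (‖P‖ - ‖p‖) ≤ |r| * (‖X‖ * ‖x - x₀‖) := by
    refine (le_abs_self _).trans ?_
    rw [abs_mul]
    exact mul_le_mul_of_nonneg_left h3 (abs_nonneg _)
  rw [hA'] at h1
  linarith

/-- Extend the quadratic from a closed ball by `LipschitzOnWith.extend_real`; bound `mm` through
the tangent plane plus a constant of order `h ^ 2` (`mm_mono_local`, `mm_affine`). -/
theorem oneStep_quadratic (x₀ : Sp N) {p : Sp N →L[ℝ] ℝ} (hp : p ≠ 0) {η : Sp N} (hη : ‖η‖ ≤ 1)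
    (hpη : ∀ ξ, p ξ = ‖p‖ * ⟪η, ξ⟫) (X : Sp N →L[ℝ] Sp N →L[ℝ] ℝ) {γ : ℝ} (hγ : 0 < γ) :
    ∃ δ₀ : ℝ, 0 < δ₀ ∧ ∀ δ : ℝ, 0 < δ → δ ≤ δ₀ →
      OneStep (fun x => p (x - x₀) + (1 / 2) * X (x - x₀) (x - x₀)) x₀
        (trS X - X η η + γ) δ := by
  have hp0 : 0 < ‖p‖ := norm_pos_iff.2 hp
  obtain ⟨δ₁, hδ₁, hcal⟩ := calib_quadratic x₀ hp hη hpη X (γ := γ / 3 / ‖p‖) (by positivity)
  obtain ⟨a, ha⟩ : ∃ a, a = (trS X - X η η) / ‖p‖ + γ / 3 / ‖p‖ := ⟨_, rfl⟩
  obtain ⟨b, hb⟩ : ∃ b, b = trS X - X η η + γ := ⟨_, rfl⟩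
  have hap : a * ‖p‖ = b - 2 * γ / 3 := by
    rw [ha, hb]
    field_simp
    ring
  rw [← ha] at hcal
  rw [← hb]
  have hψ : ContDiff ℝ 1 fun x : Sp N => p (x - x₀) + (1 / 2) * X (x - x₀) (x - x₀) := by
    have h0 : ContDiff ℝ 1 fun x : Sp N => x - x₀ := contDiff_id.sub contDiff_const
    exact (p.contDiff.comp h0).add (contDiff_const.mul ((X.contDiff.comp h0).clm_apply h0))
  obtain ⟨K, hK⟩ := (hψ.contDiffOn (s := closedBall x₀ δ₁)).exists_lipschitzOnWith one_ne_zero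
    (convex_closedBall _ _) (isCompact_closedBall _ _)
  obtain ⟨g, hg, hgψ⟩ := hK.extend_real
  have hc1 : 0 < |a| * ‖X‖ + 1 := by positivity
  have hc2 : 0 < 5 * ‖X‖ * a ^ 2 + |a| + 1 := by positivity
  refine ⟨min δ₁ (γ / 3 / (|a| * ‖X‖ + 1)), lt_min hδ₁ (by positivity), fun δ hδ hδ0 μ hμ => ?_⟩
  have hδ1 : δ ≤ δ₁ := hδ0.trans (min_le_left _ _)
  have hδ2 : δ * (|a| * ‖X‖ + 1) ≤ γ / 3 := (le_div_iff₀ hc1).1 (hδ0.trans (min_le_right _ _))
  refine ⟨min (μ / (|b| + 1)) (min (δ / 2 / (3 * |a| + 1))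
    (γ / 3 / (5 * ‖X‖ * a ^ 2 + |a| + 1))), by positivity, ?_⟩
  intro h A L R c v w r hh hh0 hv hw hs hvle hwle
  have k1 : h * (|b| + 1) ≤ μ := (le_div_iff₀ (by positivity)).1 (hh0.trans (min_le_left _ _))
  have k2 : h * (3 * |a| + 1) ≤ δ / 2 :=
    (le_div_iff₀ (by positivity)).1 (hh0.trans ((min_le_right _ _).trans (min_le_left _ _)))
  have k3 : h * (5 * ‖X‖ * a ^ 2 + |a| + 1) ≤ γ / 3 :=
    (le_div_iff₀ hc2).1 (hh0.trans ((min_le_right _ _).trans (min_le_right _ _)))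
  have hl : LipschitzWith K fun x => A + h * b + g x :=
    LipschitzWith.of_dist_le_mul fun y z => by
      rw [dist_add_left]
      exact hg.dist_le_mul y z
  have hgx : ∀ x, ‖x - x₀‖ ≤ δ → g x = p (x - x₀) + (1 / 2) * X (x - x₀) (x - x₀) := fun x hx =>
    (hgψ (by rw [mem_closedBall, dist_eq_norm]; exact hx.trans hδ1)).symm
  have hc : Calib (fun x => A + h * b + g x) (fun _ => a) (ball x₀ δ) :=
    (hcal _ K (A + h * b) hl fun x hx => by
      rw [← hgψ (ball_subset_closedBall hx)]).mono (ball_subset_ball hδ1)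
  have main := Step.local_barrier hh hh hv hw hs hδ hl continuous_const hc ?_ ?_
  · intro x hx
    have := main x hx
    rw [hgx x (by rwa [mem_closedBall, dist_eq_norm] at hx)] at this
    exact this
  · intro x hx1 hx2
    have e1 := hwle x hx1 hx2
    have e2 : h * -|b| ≤ h * b := mul_le_mul_of_nonneg_left (neg_abs_le b) hh.le
    rw [hgx x hx2]
    linarith
  · intro x hx
    have hx' : ‖x - x₀‖ ≤ δ / 2 := by rwa [mem_closedBall, dist_eq_norm] at hx
    have hr : |h * a| = h * |a| := by rw [abs_mul, abs_of_pos hh]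
    have e1 := C9_mm_le x₀ p X (A := A) (r := h * a) hv.1 (x := x) fun y hy => hvle y (by
      rw [mem_closedBall] at hx hy ⊢
      have := dist_triangle y x x₀
      rw [hr] at hy
      linarith)
    rw [hgx x (by linarith)]
    rw [hr] at e1
    have e2 : |a| * (‖X‖ * ‖x - x₀‖) ≤ γ / 3 := by
      have : |a| * ‖X‖ * ‖x - x₀‖ ≤ |a| * ‖X‖ * δ :=
        mul_le_mul_of_nonneg_left (by linarith) (by positivity)
      linarith
    have e3 : h * a ≤ h * |a| := mul_le_mul_of_nonneg_left (le_abs_self a) hh.le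
    have e4 : a * ‖p‖ + |a| * (‖X‖ * ‖x - x₀‖) + h * (5 * ‖X‖ * a ^ 2) + h * a ≤ b := by linarith
    have e5 := mul_le_mul_of_nonneg_left e4 hh.le
    linarith

end Pool.Agent.MCF5
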