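import Pool.Agent.Lib.MP_5aed36_gt.C8
import Pool.Agent.Lib.MP_5aed36_gt.C9

open MeasureTheory Set Filter Topology Metric
open scoped ENNReal NNReal RealInnerProductSpace

namespace Pool.Agent.MCF5

variable {N : ℕ}

section
variable {L : ℝ≥0} {R c : ℝ} {V ρ : ℕ → ℕ → Sp N → ℝ} {ub : Zs N → ℝ} {l : Filter ℕ}

/-- Suppose `b' < b`. On a small backward cylinder `ub` lies below
`ub z + b' (t - t₀) + ψ x - (b - b') (t₀ - t) / 2 - ε ‖x - x₀‖ ^ 2`, so the barrier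
`ub z - μ + b' (t - t₀) + ψ x` has a margin at the bottom and on the strip. Induction over the
steps with `OneStep` gives `ub z ≤ ub z - μ / 2`. -/
theorem speed_le (hT : ∀ n : ℕ, Traj (1 / ((n : ℝ) + 1)) L R c (V n) (ρ n)) [l.NeBot]
    (hl : l ≤ atTop) (hc : Continuous ub)
    (hconv : ∀ T ε : ℝ, 0 < ε → ∀ᶠ n in l, ∀ (x : Sp N) (t : ℝ), 0 ≤ t → t ≤ T →
      |V n ⌊t * ((n : ℝ) + 1)⌋₊ x - ub (x, t)| ≤ ε)
    {x₀ : Sp N} {t₀ b b' K ε δ₀ : ℝ} (ht : 0 < t₀) (hε : 0 < ε) (hδ : 0 < δ₀) {ψ : Sp N → ℝ}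
    (hψ0 : ψ x₀ = 0) (hone : ∀ δ : ℝ, 0 < δ → δ ≤ δ₀ → OneStep ψ x₀ b' δ)
    (htouch : ∀ᶠ z in 𝓝 ((x₀, t₀) : Zs N), ub z ≤ ub (x₀, t₀) + b * (z.2 - t₀) +
      K * (z.2 - t₀) ^ 2 + ψ z.1 - ε * ‖z.1 - x₀‖ ^ 2) : b ≤ b' := by
  by_contra hbb
  have hg : 0 < b - b' := sub_pos.2 (not_le.1 hbb)
  obtain ⟨r, hr, hball⟩ := Metric.eventually_nhds_iff.1 htouch
  -- the size of the cylinder
  set δ : ℝ := min δ₀ (r / 2) with hδdef
  have hδp : 0 < δ := lt_min hδ (half_pos hr)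
  have hδr : δ < r := lt_of_le_of_lt (min_le_right _ _) (half_lt_self hr)
  have hK1 : 0 < |K| + 1 := by positivity
  set τ : ℝ := min (min (r / 2) t₀) ((b - b') / (2 * (|K| + 1))) with hτdef
  have hτp : 0 < τ := lt_min (lt_min (half_pos hr) ht) (by positivity)
  have hτr : τ < r := lt_of_le_of_lt ((min_le_left _ _).trans (min_le_left _ _)) (half_lt_self hr)
  have hτt : τ ≤ t₀ := (min_le_left _ _).trans (min_le_right _ _)
  have hτK : |K| * τ ≤ (b - b') / 2 := by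
    have h1 : τ ≤ (b - b') / (2 * (|K| + 1)) := min_le_right _ _
    rw [le_div_iff₀ (by positivity)] at h1
    linarith
  have hδ0 : δ ≤ δ₀ := min_le_left _ _
  clear_value δ τ
  have hcyl : ∀ (x : Sp N) (t : ℝ), ‖x - x₀‖ ≤ δ → t₀ - τ ≤ t → t ≤ t₀ →
      ub (x, t) ≤ ub (x₀, t₀) + b' * (t - t₀) - (b - b') / 2 * (t₀ - t) + ψ x -
        ε * ‖x - x₀‖ ^ 2 := by
    intro x t hx ht1 ht2
    have hd : dist ((x, t) : Zs N) (x₀, t₀) < r := by
      rw [Prod.dist_eq, max_lt_iff, dist_eq_norm, Real.dist_eq, abs_lt]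
      exact ⟨lt_of_le_of_lt hx hδr, by simp only; linarith, by simp only; linarith⟩
    have h1 := hball hd
    simp only at h1
    have h2 : K * (t - t₀) ^ 2 ≤ (b - b') / 2 * (t₀ - t) := by
      have h3 : K * (t - t₀) ^ 2 ≤ |K| * (t - t₀) ^ 2 :=
        mul_le_mul_of_nonneg_right (le_abs_self K) (sq_nonneg _)
      have h4 : |K| * (t₀ - t) ≤ |K| * τ :=
        mul_le_mul_of_nonneg_left (by linarith) (abs_nonneg K)
      have h5 : |K| * (t₀ - t) * (t₀ - t) ≤ (b - b') / 2 * (t₀ - t) :=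
        mul_le_mul_of_nonneg_right (h4.trans hτK) (by linarith)
      linarith
    linarith
  -- the margin
  set μ : ℝ := min ((b - b') * τ / 8) (ε * δ ^ 2 / 16) with hμdef
  have hμp : 0 < μ := lt_min (by positivity) (by positivity)
  have hμ1 : μ ≤ (b - b') * τ / 8 := min_le_left _ _
  have hμ2 : μ ≤ ε * δ ^ 2 / 16 := min_le_right _ _
  clear_value μ
  obtain ⟨h₀, hh₀, hstep⟩ := hone δ hδp hδ0 μ hμp
  have hb1 : 0 < |b'| + 1 := by positivity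
  set θ : ℝ := min (min h₀ (τ / 2)) (μ / (4 * (|b'| + 1))) with hθdef
  have hθp : 0 < θ := lt_min (lt_min hh₀ (half_pos hτp)) (by positivity)
  have hsmall : ∀ᶠ n : ℕ in l, 1 / ((n : ℝ) + 1) ≤ θ :=
    hl ((tendsto_one_div_add_atTop_nhds_zero_nat (𝕜 := ℝ)).eventually (ge_mem_nhds hθp))
  obtain ⟨n, hn, hcv⟩ := (hsmall.and (hconv t₀ (μ / 4) (by positivity))).exists
  set m : ℝ := (n : ℝ) + 1 with hm
  have hmp : 0 < m := by positivity
  set h : ℝ := 1 / m with hh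
  have hhp : 0 < h := by positivity
  have hhm : h * m = 1 := by rw [hh]; field_simp
  have hh1 : h ≤ h₀ := hn.trans ((min_le_left _ _).trans (min_le_left _ _))
  have hh2 : h ≤ τ / 2 := hn.trans ((min_le_left _ _).trans (min_le_right _ _))
  have hh3 : |b'| * h ≤ μ / 4 := by
    have h1 : h ≤ μ / (4 * (|b'| + 1)) := hn.trans (min_le_right _ _)
    rw [le_div_iff₀ (by positivity)] at h1
    linarith
  have hb'h : b' * h ≤ μ / 4 :=
    (mul_le_mul_of_nonneg_right (le_abs_self b') hhp.le).trans hh3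
  -- values at the grid times
  have hgrid : ∀ (k : ℕ) (x : Sp N), (k : ℝ) * h ≤ t₀ → V n k x ≤ ub (x, k * h) + μ / 4 := by
    intro k x hk
    have h1 := hcv x (k * h) (by positivity) hk
    have h2 : (k : ℝ) * h * m = k := by rw [mul_assoc, hhm, mul_one]
    rw [h2, Nat.floor_natCast] at h1
    linarith [(abs_le.1 h1).2]
  set k₀ : ℕ := ⌊t₀ * m⌋₊ with hk₀
  set k₁ : ℕ := ⌈(t₀ - τ) * m⌉₊ with hk₁
  have hk₀a : (k₀ : ℝ) * h ≤ t₀ := by
    have h1 : (k₀ : ℝ) ≤ t₀ * m := Nat.floor_le (by positivity)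
    calc (k₀ : ℝ) * h ≤ t₀ * m * h := mul_le_mul_of_nonneg_right h1 hhp.le
      _ = t₀ := by rw [mul_assoc, mul_comm m h, hhm, mul_one]
  have hk₀b : t₀ - h ≤ (k₀ : ℝ) * h := by
    have h1 : t₀ * m < (k₀ : ℝ) + 1 := Nat.lt_floor_add_one _
    have h2 : t₀ * m * h ≤ ((k₀ : ℝ) + 1) * h := mul_le_mul_of_nonneg_right h1.le hhp.le
    rw [mul_assoc, mul_comm m h, hhm, mul_one] at h2
    linarith
  have hk₁a : t₀ - τ ≤ (k₁ : ℝ) * h := by
    have h1 : (t₀ - τ) * m ≤ (k₁ : ℝ) := Nat.le_ceil _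
    have h2 : (t₀ - τ) * m * h ≤ (k₁ : ℝ) * h := mul_le_mul_of_nonneg_right h1 hhp.le
    rwa [mul_assoc, mul_comm m h, hhm, mul_one] at h2
  have hk₁b : (k₁ : ℝ) * h ≤ t₀ - τ + h := by
    have h1 : (k₁ : ℝ) < (t₀ - τ) * m + 1 :=
      Nat.ceil_lt_add_one (mul_nonneg (by linarith) hmp.le)
    have h2 : (k₁ : ℝ) * h ≤ ((t₀ - τ) * m + 1) * h := mul_le_mul_of_nonneg_right h1.le hhp.le
    rwa [add_mul, mul_assoc, mul_comm m h, hhm, mul_one, one_mul] at h2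
  have hk₁₀ : k₁ ≤ k₀ := by
    have h1 : (k₁ : ℝ) * h ≤ (k₀ : ℝ) * h := by linarith
    exact_mod_cast le_of_mul_le_mul_right h1 hhp
  have key : ∀ k : ℕ, k₁ ≤ k → k ≤ k₀ → ∀ x ∈ closedBall x₀ δ,
      V n k x ≤ (ub (x₀, t₀) - μ + b' * (k * h - t₀)) + ψ x := by
    intro k hk
    induction k, hk using Nat.le_induction with
    | base =>
      intro _ x hx
      rw [mem_closedBall, dist_eq_norm] at hx
      have h0 : (k₁ : ℝ) * h ≤ t₀ := by linarith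
      have h1 := hgrid k₁ x h0
      have h2 := hcyl x (k₁ * h) hx hk₁a h0
      have h3 : (b - b') / 2 * (τ / 2) ≤ (b - b') / 2 * (t₀ - k₁ * h) :=
        mul_le_mul_of_nonneg_left (by linarith) (by linarith)
      have h4 : 0 ≤ ε * ‖x - x₀‖ ^ 2 := by positivity
      linarith
    | succ k hk ih =>
      intro hk' x hx
      have hkr : (k₁ : ℝ) ≤ ((k + 1 : ℕ) : ℝ) := by exact_mod_cast hk.trans (Nat.le_succ k)
      have hkr' : ((k + 1 : ℕ) : ℝ) ≤ k₀ := by exact_mod_cast hk'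
      have ha : ((k + 1 : ℕ) : ℝ) * h ≤ t₀ :=
        (mul_le_mul_of_nonneg_right hkr' hhp.le).trans hk₀a
      have hb : t₀ - τ ≤ ((k + 1 : ℕ) : ℝ) * h :=
        hk₁a.trans (mul_le_mul_of_nonneg_right hkr hhp.le)
      have hres := hstep h (ub (x₀, t₀) - μ + b' * (k * h - t₀)) L R c (V n k) (V n (k + 1))
        (ρ n k) hhp hh1 ((hT n).data k) ((hT n).data (k + 1)) ((hT n).step k)
        (ih (Nat.le_of_succ_le hk')) (by
          intro y hy1 hy2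
          have h1 := hgrid (k + 1) y ha
          have h2 := hcyl y _ hy2 hb ha
          have h3 : 0 ≤ (b - b') / 2 * (t₀ - ((k + 1 : ℕ) : ℝ) * h) :=
            mul_nonneg (by linarith) (by linarith)
          have h4 : ε * (δ / 2) ^ 2 ≤ ε * ‖y - x₀‖ ^ 2 :=
            mul_le_mul_of_nonneg_left (pow_le_pow_left₀ (by positivity) hy1 2) hε.le
          have h6 : b' * (((k + 1 : ℕ) : ℝ) * h - t₀) = b' * (k * h - t₀) + b' * h := by
            rw [Nat.cast_succ]; ring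
          rw [h6] at h2
          linarith) x hx
      rw [Nat.cast_succ]
      linarith
  have hfin := key k₀ hk₁₀ le_rfl x₀ (mem_closedBall_self hδp.le)
  have hlow := (abs_le.1 (hcv x₀ t₀ ht.le le_rfl)).1
  have h5 : b' * ((k₀ : ℝ) * h - t₀) ≤ μ / 4 := by
    have h6 : b' * ((k₀ : ℝ) * h - t₀) ≤ |b'| * |(k₀ : ℝ) * h - t₀| := by
      rw [← abs_mul]; exact le_abs_self _
    have h7 : |(k₀ : ℝ) * h - t₀| ≤ h := abs_le.2 ⟨by linarith, by linarith⟩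
    exact h6.trans ((mul_le_mul_of_nonneg_left h7 (abs_nonneg _)).trans hh3)
  rw [hψ0] at hfin
  linarith

/-- Spatial part of a second order jet. -/
private noncomputable def C11_sp (Q : Zs N →L[ℝ] Zs N →L[ℝ] ℝ) : Sp N →L[ℝ] Sp N →L[ℝ] ℝ :=
  Q.bilinearComp (ContinuousLinearMap.inl ℝ (Sp N) ℝ) (ContinuousLinearMap.inl ℝ (Sp N) ℝ)

private theorem C11_sp_apply (Q : Zs N →L[ℝ] Zs N →L[ℝ] ℝ) (x y : Sp N) :
    C11_sp Q x y = Q (x, 0) (y, 0) := by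
  simp [C11_sp]

private theorem C11_touch {U : Zs N → ℝ} {x₀ : Sp N} {t₀ : ℝ} {P : Zs N →L[ℝ] ℝ}
    {Q : Zs N →L[ℝ] Zs N →L[ℝ] ℝ} (hto : Touch U (x₀, t₀) P Q) {ε : ℝ} (hε : 0 < ε) :
    ∃ K : ℝ, ∀ᶠ z in 𝓝 ((x₀, t₀) : Zs N), U z ≤ U (x₀, t₀) + P (0, 1) * (z.2 - t₀) +
      K * (z.2 - t₀) ^ 2 + (P (z.1 - x₀, 0) + (1 / 2) * Q (z.1 - x₀, 0) (z.1 - x₀, 0)) +
        ε * ‖z.1 - x₀‖ ^ 2 := by
  refine ⟨‖Q‖ ^ 2 / (4 * ε) + ‖Q‖ / 2, ?_⟩
  have hten : Tendsto (fun z : Zs N => z - (x₀, t₀)) (𝓝 (x₀, t₀)) (𝓝 0) := by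
    have : Continuous fun z : Zs N => z - (x₀, t₀) := continuous_id.sub continuous_const
    simpa using this.tendsto (x₀, t₀)
  filter_upwards [hten.eventually hto] with z hz
  rw [add_sub_cancel] at hz
  set ξ : Sp N := z.1 - x₀ with hξ
  set s : ℝ := z.2 - t₀ with hs
  have hk : z - (x₀, t₀) = ((ξ, 0) : Zs N) + s • ((0, 1) : Zs N) := by
    ext1 <;> simp [hξ, hs]
  have n1 : ‖((ξ, 0) : Zs N)‖ = ‖ξ‖ := by simp [Prod.norm_def]
  have n2 : ‖((0, 1) : Zs N)‖ = 1 := by simp [Prod.norm_def]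
  have e1 : |Q (ξ, 0) (0, 1)| ≤ ‖Q‖ * ‖ξ‖ := by
    have := Q.le_opNorm₂ (ξ, 0) (0, 1)
    rwa [n1, n2, mul_one, Real.norm_eq_abs] at this
  have e2 : |Q (0, 1) (ξ, 0)| ≤ ‖Q‖ * ‖ξ‖ := by
    have := Q.le_opNorm₂ (0, 1) (ξ, 0)
    rwa [n1, n2, mul_one, Real.norm_eq_abs] at this
  have e3 : Q (0, 1) (0, 1) ≤ ‖Q‖ := by
    have := Q.le_opNorm₂ (0, 1) (0, 1)
    rw [n2, mul_one, mul_one, Real.norm_eq_abs] at this
    exact (le_abs_self _).trans this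
  have hP : P (z - (x₀, t₀)) = P (ξ, 0) + P (0, 1) * s := by
    rw [hk, map_add, map_smul, smul_eq_mul, mul_comm]
  have hQ : Q (z - (x₀, t₀)) (z - (x₀, t₀)) = Q (ξ, 0) (ξ, 0) + s * Q (ξ, 0) (0, 1) +
      s * Q (0, 1) (ξ, 0) + s ^ 2 * Q (0, 1) (0, 1) := by
    rw [hk]
    simp only [map_add, map_smul, add_apply, smul_apply,
      smul_eq_mul]
    ring
  have f1 : s * Q (ξ, 0) (0, 1) ≤ |s| * (‖Q‖ * ‖ξ‖) :=
    (le_abs_self _).trans (by rw [abs_mul]; exact mul_le_mul_of_nonneg_left e1 (abs_nonneg s))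
  have f2 : s * Q (0, 1) (ξ, 0) ≤ |s| * (‖Q‖ * ‖ξ‖) :=
    (le_abs_self _).trans (by rw [abs_mul]; exact mul_le_mul_of_nonneg_left e2 (abs_nonneg s))
  have f3 : s ^ 2 * Q (0, 1) (0, 1) ≤ s ^ 2 * ‖Q‖ := mul_le_mul_of_nonneg_left e3 (sq_nonneg s)
  have f4 : |s| * (‖Q‖ * ‖ξ‖) ≤ ‖Q‖ ^ 2 / (4 * ε) * s ^ 2 + ε * ‖ξ‖ ^ 2 := by
    have h1 : ‖Q‖ ^ 2 / (4 * ε) * s ^ 2 + ε * ‖ξ‖ ^ 2 - |s| * (‖Q‖ * ‖ξ‖) =
        (‖Q‖ * |s| - 2 * ε * ‖ξ‖) ^ 2 / (4 * ε) := by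
      rw [← sq_abs s]; field_simp; ring
    have h2 : 0 ≤ (‖Q‖ * |s| - 2 * ε * ‖ξ‖) ^ 2 / (4 * ε) := by positivity
    linarith
  rw [hP, hQ] at hz
  linarith

/-- Absorb the mixed terms of `Q` into `ε ‖x‖ ^ 2 + K t ^ 2`; use `oneStep_quadratic` with
`X + 4 ε innB` if the spatial gradient is not zero and `oneStep_radial` with `M + 4 ε` otherwise;
let `ε, γ → 0`. -/
theorem sub_of_limit (hT : ∀ n : ℕ, Traj (1 / ((n : ℝ) + 1)) L R c (V n) (ρ n)) [l.NeBot]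
    (hl : l ≤ atTop) (hc : Continuous ub)
    (hconv : ∀ T ε : ℝ, 0 < ε → ∀ᶠ n in l, ∀ (x : Sp N) (t : ℝ), 0 ≤ t → t ≤ T →
      |V n ⌊t * ((n : ℝ) + 1)⌋₊ x - ub (x, t)| ≤ ε) :
    Sub (AdmW (KN N)) ub := by
  rintro ⟨x₀, t₀⟩ ht P Q hto
  have hspat : ∀ ξ : Sp N, spat P ξ = P (ξ, 0) := fun ξ => by simp [spat]
  refine ⟨fun hp η hdir => ?_, fun hp M hM hQM => ?_⟩
  · refine le_of_forall_pos_le_add fun e he => ?_
    have hN : (0 : ℝ) < 4 * N + 1 := by positivity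
    set ε : ℝ := e / (4 * N + 1) with hεdef
    have hε : 0 < ε := by positivity
    obtain ⟨K, hK⟩ := C11_touch hto hε
    set X : Sp N →L[ℝ] Sp N →L[ℝ] ℝ := C11_sp Q + (4 * ε) • innB with hX
    have hXa : ∀ x : Sp N, X x x = Q (x, 0) (x, 0) + 4 * ε * ‖x‖ ^ 2 := fun x => by
      simp only [hX, add_apply, smul_apply, C11_sp_apply,
        innB_apply, smul_eq_mul, real_inner_self_eq_norm_sq]
    obtain ⟨δ₀, hδ₀, hone⟩ := oneStep_quadratic x₀ hp hdir.1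
      (fun ξ => by rw [hspat]; exact hdir.2 ξ) X hε
    have hle := speed_le hT hl hc hconv (b := P (0, 1)) (K := K) ht hε hδ₀ (by simp) hone (by
      filter_upwards [hK] with z hz
      rw [hspat, hXa]
      linarith)
    have htr : trS X = trQ Q + 4 * ε * N := by
      simp only [trS, trQ, hXa, Finset.sum_add_distrib]
      simp [mul_comm]
    have he' : e = 4 * ε * N + ε := by rw [hεdef]; field_simp
    have h0 : 0 ≤ 4 * ε * ‖η‖ ^ 2 := by positivity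
    rw [htr, hXa] at hle
    linarith
  · refine le_of_forall_pos_le_add fun e he => ?_
    have hKN : 0 < KN N := by unfold KN; positivity
    set ε : ℝ := e / (4 * KN N + 1) with hεdef
    have hε : 0 < ε := by positivity
    obtain ⟨K, hK⟩ := C11_touch hto hε
    have hle := speed_le hT hl hc hconv (b := P (0, 1)) (K := K) (δ₀ := 1) ht hε one_pos
      (ψ := fun x => (M + 4 * ε) * ‖x - x₀‖ ^ 2 / 2) (by simp)
      (fun δ hδ _ => oneStep_radial x₀ (by positivity) hε hδ) (by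
        filter_upwards [hK] with z hz
        have h1 := hQM (z.1 - x₀)
        have h2 : P (z.1 - x₀, 0) = 0 := by rw [← hspat, hp]; rfl
        rw [h2] at hz
        linarith)
    have he' : e = 4 * ε * KN N + ε := by rw [hεdef]; field_simp
    linarith

end

end Pool.Agent.MCF5
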