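import Pool.Agent.Lib.MP_5aed36_gt.A3
import Pool.Agent.Lib.MP_5aed36_gt.C1

open MeasureTheory Set Filter Topology Metric
open scoped ENNReal NNReal RealInnerProductSpace

namespace Pool.Agent.MCF5

variable {N : ℕ}

/-- The kernel `‖y‖ ^ (1 - N)` is integrable near the origin. -/
theorem C2_kernel_fin :
    ∫⁻ y in ball (0 : Sp N) 4, ENNReal.ofReal (3 ^ N / ‖y‖ ^ N * ‖y‖) < ∞ := by
  have hmeas : Measurable fun y : Sp N => (3 : ℝ) ^ N / ‖y‖ ^ N * ‖y‖ := by fun_prop
  have hint : IntegrableOn (fun y : Sp N => (3 : ℝ) ^ N / ‖y‖ ^ N * ‖y‖) (ball 0 4) volume := by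
    rcases Nat.eq_zero_or_pos N with h0 | hpos
    · subst h0
      refine Measure.integrableOn_of_bounded (M := 4) measure_ball_lt_top.ne
        hmeas.aestronglyMeasurable ?_
      refine (ae_restrict_iff' measurableSet_ball).2 (Eventually.of_forall fun y hy => ?_)
      have : ‖y‖ < 4 := mem_ball_zero_iff.1 hy
      simp only [pow_zero, div_one, one_mul, norm_norm]
      exact this.le
    · refine integrableOn_ball_of_norm_le_rpow (μ := volume) (C := 3 ^ N) (α := (N : ℝ) - 1)
        (by rw [finrank_euclideanSpace_fin]; exact hpos) (by simp) ?_ hmeas.aestronglyMeasurable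
      refine Eventually.of_forall fun y => ?_
      rw [Real.norm_of_nonneg (by positivity)]
      rcases eq_or_lt_of_le (norm_nonneg y) with h | h
      · rw [← h, mul_zero]
        positivity
      · have : ‖y‖ ^ (-((N : ℝ) - 1)) = ‖y‖ / ‖y‖ ^ N := by
          rw [neg_sub, Real.rpow_sub h, Real.rpow_one, Real.rpow_natCast]
        rw [this]
        apply le_of_eq
        ring
  exact hint.lintegral_lt_top

/-- The infimum over one ball is at most the weighted integral. -/
theorem C2_ball {f : Sp N → ℝ} (hf : Continuous f) (x : Sp N) (ρ : ℝ) (e : Sp N) (he : ‖e‖ ≤ 2) :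
    ENNReal.ofReal ((⨅ b : closedBall (0 : Sp N) 1,
        f (x + ρ • (e + (‖e‖ / 2) • (b : Sp N)))) - f x) * volume (closedBall (0 : Sp N) 1) ≤
      ∫⁻ y in ball (0 : Sp N) 4, ENNReal.ofReal (3 ^ N / ‖y‖ ^ N * |f (x + ρ • y) - f x|) := by
  have : CompactSpace (closedBall (0 : Sp N) 1) :=
    isCompact_iff_compactSpace.1 (isCompact_closedBall _ _)
  have hbdd : BddBelow (range fun b : closedBall (0 : Sp N) 1 =>
      f (x + ρ • (e + (‖e‖ / 2) • (b : Sp N)))) :=
    (isCompact_range (by fun_prop)).bddBelow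
  set m : ℝ := ⨅ b : closedBall (0 : Sp N) 1, f (x + ρ • (e + (‖e‖ / 2) • (b : Sp N))) with hm
  rcases eq_or_lt_of_le (norm_nonneg e) with h0 | hpos
  · have he0 : e = 0 := norm_eq_zero.1 h0.symm
    have h1 : m ≤ f x := by
      refine le_trans (ciInf_le hbdd ⟨0, mem_closedBall_self zero_le_one⟩) (le_of_eq ?_)
      simp [he0]
    rw [ENNReal.ofReal_of_nonpos (by linarith), zero_mul]
    exact bot_le
  · set s : ℝ := ‖e‖ / 2 with hs
    have hs0 : 0 < s := by positivity
    have hes : ‖e‖ = 2 * s := by rw [hs]; ring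
    have hsub : closedBall e s ⊆ ball (0 : Sp N) 4 := by
      intro y hy
      have h1 : ‖y - e‖ ≤ s := mem_closedBall_iff_norm.1 hy
      have h2 : ‖y‖ ≤ ‖y - e‖ + ‖e‖ := by simpa using norm_add_le (y - e) e
      exact mem_ball_zero_iff.2 (by linarith)
    have hpt : ∀ y ∈ closedBall e s, ENNReal.ofReal ((m - f x) / s ^ N) ≤
        ENNReal.ofReal (3 ^ N / ‖y‖ ^ N * |f (x + ρ • y) - f x|) := by
      intro y hy
      have h1 : ‖y - e‖ ≤ s := mem_closedBall_iff_norm.1 hy
      have h2 : ‖y‖ ≤ ‖y - e‖ + ‖e‖ := by simpa using norm_add_le (y - e) e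
      have h3 : ‖e‖ ≤ ‖y‖ + ‖y - e‖ := by simpa using norm_sub_le y (y - e)
      have hy0 : 0 < ‖y‖ := by linarith
      have hb : s⁻¹ • (y - e) ∈ closedBall (0 : Sp N) 1 := by
        rw [mem_closedBall_zero_iff, norm_smul, norm_inv, Real.norm_of_nonneg hs0.le,
          inv_mul_le_iff₀ hs0, mul_one]
        exact h1
      have hle : m ≤ f (x + ρ • y) := by
        have := ciInf_le hbdd ⟨_, hb⟩
        have hy' : e + s • s⁻¹ • (y - e) = y := by
          rw [smul_inv_smul₀ hs0.ne']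
          abel
        simpa only [hy'] using this
      have hk : 1 / s ^ N ≤ 3 ^ N / ‖y‖ ^ N := by
        rw [div_le_div_iff₀ (by positivity) (by positivity), one_mul, ← mul_pow]
        exact pow_le_pow_left₀ hy0.le (by linarith) N
      apply ENNReal.ofReal_le_ofReal
      calc (m - f x) / s ^ N ≤ |f (x + ρ • y) - f x| / s ^ N := by
            apply div_le_div_of_nonneg_right _ (by positivity)
            exact le_trans (by linarith) (le_abs_self _)
        _ = 1 / s ^ N * |f (x + ρ • y) - f x| := by ring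
        _ ≤ _ := mul_le_mul_of_nonneg_right hk (abs_nonneg _)
    have hvol : volume (closedBall e s) =
        ENNReal.ofReal (s ^ N) * volume (closedBall (0 : Sp N) 1) := by
      simpa using Measure.addHaar_closedBall' (volume : Measure (Sp N)) e hs0.le
    calc ENNReal.ofReal (m - f x) * volume (closedBall (0 : Sp N) 1)
        = ENNReal.ofReal ((m - f x) / s ^ N) * volume (closedBall e s) := by
          rw [hvol, ← mul_assoc, mul_comm (ENNReal.ofReal ((m - f x) / s ^ N)),
            ← ENNReal.ofReal_mul (by positivity)]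
          congr 2
          field_simp
      _ = ∫⁻ _ in closedBall e s, ENNReal.ofReal ((m - f x) / s ^ N) := by
          rw [setLIntegral_const]
      _ ≤ ∫⁻ y in closedBall e s,
            ENNReal.ofReal (3 ^ N / ‖y‖ ^ N * |f (x + ρ • y) - f x|) :=
          setLIntegral_mono' measurableSet_closedBall hpt
      _ ≤ _ := lintegral_mono_set hsub

/-- The pointwise bound for the dilation. -/
theorem C2_point {f : Sp N → ℝ} (hf : Continuous f) (x : Sp N) {ρ : ℝ} (hρ : 0 ≤ ρ) :
    ENNReal.ofReal (mm f x ρ - f x) ≤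
      (∫⁻ y in ball (0 : Sp N) 4, ENNReal.ofReal (3 ^ N / ‖y‖ ^ N * |f (x + ρ • y) - f x|)) /
        volume (closedBall (0 : Sp N) 1) := by
  have hω0 : volume (closedBall (0 : Sp N) 1) ≠ 0 :=
    (measure_closedBall_pos volume _ one_pos).ne'
  have hωt : volume (closedBall (0 : Sp N) 1) ≠ ∞ := measure_closedBall_lt_top.ne
  set J := (∫⁻ y in ball (0 : Sp N) 4,
    ENNReal.ofReal (3 ^ N / ‖y‖ ^ N * |f (x + ρ • y) - f x|)) /
      volume (closedBall (0 : Sp N) 1) with hJ
  by_cases hJt : J = ∞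
  · rw [hJt]
    exact le_top
  have : Nonempty (closedBall (0 : Sp N) 2) := ⟨⟨0, mem_closedBall_self zero_le_two⟩⟩
  have h1 : mm f x ρ ≤ f x + J.toReal := by
    rw [mm, if_pos hρ, mP]
    refine ciSup_le fun e => ?_
    have h2 := C2_ball hf x ρ (e : Sp N) (mem_closedBall_zero_iff.1 e.2)
    have h3 := (ENNReal.le_div_iff_mul_le (Or.inl hω0) (Or.inl hωt)).2 h2
    have h4 := (ENNReal.ofReal_le_iff_le_toReal hJt).1 h3
    linarith
  exact (ENNReal.ofReal_le_iff_le_toReal hJt).2 (by linarith)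

/-- The integrated bound. -/
theorem C2_lint {f : Sp N → ℝ} {c ρ : ℝ} (hf : LipC f c) (hρ : 0 ≤ ρ) :
    ∫⁻ x, ENNReal.ofReal (mm f x ρ - f x) ≤ ENNReal.ofReal (ρ * tv f) *
      ((∫⁻ y in ball (0 : Sp N) 4, ENNReal.ofReal (3 ^ N / ‖y‖ ^ N * ‖y‖)) /
        volume (closedBall (0 : Sp N) 1)) := by
  have hc := hf.continuous
  have htv := tv_nonneg f
  have hω0 : volume (closedBall (0 : Sp N) 1) ≠ 0 :=
    (measure_closedBall_pos volume _ one_pos).ne'
  have hF : Measurable fun p : Sp N × Sp N =>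
      ENNReal.ofReal (3 ^ N / ‖p.2‖ ^ N * |f (p.1 + ρ • p.2) - f p.1|) := by
    have h1 : Measurable fun p : Sp N × Sp N => |f (p.1 + ρ • p.2) - f p.1| :=
      (by fun_prop : Continuous fun p : Sp N × Sp N => |f (p.1 + ρ • p.2) - f p.1|).measurable
    have h2 : Measurable fun p : Sp N × Sp N => (3 : ℝ) ^ N / ‖p.2‖ ^ N := by fun_prop
    exact (h2.mul h1).ennreal_ofReal
  have hin : ∀ y : Sp N, ∫⁻ x, ENNReal.ofReal (3 ^ N / ‖y‖ ^ N * |f (x + ρ • y) - f x|) ≤
      ENNReal.ofReal (ρ * tv f) * ENNReal.ofReal (3 ^ N / ‖y‖ ^ N * ‖y‖) := by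
    intro y
    have hz : LipC (fun x => f (x + ρ • y) - f x) 0 := by
      simpa using (hf.translate (ρ • y)).sub hf
    have hi : Integrable fun x => (3 : ℝ) ^ N / ‖y‖ ^ N * |f (x + ρ • y) - f x| :=
      hz.integrable_zero.abs.const_mul _
    rw [← ofReal_integral_eq_lintegral_ofReal hi (Eventually.of_forall fun x => by positivity),
      ← ENNReal.ofReal_mul (by positivity), integral_const_mul]
    apply ENNReal.ofReal_le_ofReal
    have h1 := integral_abs_translate_le hf (ρ • y)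
    rw [norm_smul, Real.norm_of_nonneg hρ] at h1
    calc (3 : ℝ) ^ N / ‖y‖ ^ N * ∫ x, |f (x + ρ • y) - f x|
        ≤ 3 ^ N / ‖y‖ ^ N * (ρ * ‖y‖ * tv f) := mul_le_mul_of_nonneg_left h1 (by positivity)
      _ = _ := by ring
  calc ∫⁻ x, ENNReal.ofReal (mm f x ρ - f x)
      ≤ ∫⁻ x, (∫⁻ y in ball (0 : Sp N) 4,
          ENNReal.ofReal (3 ^ N / ‖y‖ ^ N * |f (x + ρ • y) - f x|)) *
            (volume (closedBall (0 : Sp N) 1))⁻¹ :=
        lintegral_mono fun x => by simpa only [div_eq_mul_inv] using C2_point hc x hρ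
    _ = (∫⁻ x, ∫⁻ y in ball (0 : Sp N) 4,
          ENNReal.ofReal (3 ^ N / ‖y‖ ^ N * |f (x + ρ • y) - f x|)) *
            (volume (closedBall (0 : Sp N) 1))⁻¹ :=
        lintegral_mul_const' _ _ (ENNReal.inv_ne_top.2 hω0)
    _ = (∫⁻ y in ball (0 : Sp N) 4, ∫⁻ x,
          ENNReal.ofReal (3 ^ N / ‖y‖ ^ N * |f (x + ρ • y) - f x|)) *
            (volume (closedBall (0 : Sp N) 1))⁻¹ := by
        rw [lintegral_lintegral_swap hF.aemeasurable]
    _ ≤ (∫⁻ y in ball (0 : Sp N) 4,
          ENNReal.ofReal (ρ * tv f) * ENNReal.ofReal (3 ^ N / ‖y‖ ^ N * ‖y‖)) *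
            (volume (closedBall (0 : Sp N) 1))⁻¹ := by
        gcongr with y
        exact hin y
    _ = _ := by
        rw [lintegral_const_mul' _ _ ENNReal.ofReal_ne_top, div_eq_mul_inv, mul_assoc]

/-- For `e ≠ 0` put `s = ‖e‖ / 2`. The infimum of `y ↦ f (x + ρ y)` on the ball of centre `e` and
radius `s`, minus `f x`, is at most the average of `|f (x + ρ y) - f x|` on that ball, which lies in
`s ≤ ‖y‖ ≤ 3 s`; so it is at most the integral against the kernel `3 ^ N / ‖y‖ ^ N`. Integrate in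
`x`, use Tonelli and `integral_abs_translate_le`. -/
theorem exists_markov : ∃ C : ℝ, 0 ≤ C ∧ ∀ (f : Sp N → ℝ) (c ρ : ℝ), LipC f c → 0 ≤ ρ →
    Integrable (fun x => mm f x ρ - f x) ∧ ∫ x, (mm f x ρ - f x) ≤ C * ρ * tv f := by
  have hω0 : volume (closedBall (0 : Sp N) 1) ≠ 0 :=
    (measure_closedBall_pos volume _ one_pos).ne'
  set K := (∫⁻ y in ball (0 : Sp N) 4, ENNReal.ofReal (3 ^ N / ‖y‖ ^ N * ‖y‖)) /
    volume (closedBall (0 : Sp N) 1) with hK
  have hKt : K ≠ ∞ := ENNReal.div_ne_top C2_kernel_fin.ne hω0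
  refine ⟨K.toReal, ENNReal.toReal_nonneg, fun f c ρ hf hρ => ?_⟩
  obtain ⟨L, hL⟩ := hf.1
  have hcont : Continuous fun x => mm f x ρ - f x :=
    ((mm_continuous hL).comp (continuous_id.prodMk continuous_const)).sub hL.continuous
  have hnn : ∀ x, 0 ≤ mm f x ρ - f x := fun x => by
    have h1 := mm_mono hL x hρ
    rw [mm_zero] at h1
    linarith
  have hl := C2_lint hf hρ
  rw [← hK] at hl
  have hfin : ENNReal.ofReal (ρ * tv f) * K ≠ ∞ := ENNReal.mul_ne_top ENNReal.ofReal_ne_top hKt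
  refine ⟨⟨hcont.aestronglyMeasurable, ?_⟩, ?_⟩
  · rw [hasFiniteIntegral_iff_ofReal (Eventually.of_forall hnn)]
    exact lt_of_le_of_lt hl hfin.lt_top
  · rw [integral_eq_lintegral_of_nonneg_ae (Eventually.of_forall hnn) hcont.aestronglyMeasurable]
    calc (∫⁻ x, ENNReal.ofReal (mm f x ρ - f x)).toReal
        ≤ (ENNReal.ofReal (ρ * tv f) * K).toReal := ENNReal.toReal_mono hfin hl
      _ = K.toReal * ρ * tv f := by
          rw [ENNReal.toReal_mul, ENNReal.toReal_ofReal (mul_nonneg hρ (tv_nonneg f))]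
          ring

end Pool.Agent.MCF5
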