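import Pool.Agent.Lib.MP_5aed36_gt.A1
import Pool.Agent.Lib.MP_5aed36_gt.C1

open MeasureTheory Set Filter Topology Metric
open scoped ENNReal NNReal RealInnerProductSpace

namespace Pool.Agent.MCF5

variable {N : ℕ}

section
variable {v v' w : Sp N → ℝ} {L L' : ℝ≥0} {η c : ℝ}

theorem C3_strictMono (hv : LipschitzWith L v) (hη : 0 < η) (x : Sp N) :
    StrictMono fun r => mm v x r + η * r := by
  intro r r' h
  have h1 := mm_mono hv x h.le
  have h2 : η * r < η * r' := mul_lt_mul_of_pos_left h hη
  simp only
  linarith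

theorem C3_surj (hv : LipschitzWith L v) (hη : 0 < η) (x : Sp N) :
    Function.Surjective fun r => mm v x r + η * r := by
  have hc : Continuous fun r => mm v x r + η * r :=
    ((mm_continuous hv).comp (Continuous.prodMk continuous_const continuous_id)).add
      (continuous_const.mul continuous_id)
  refine hc.surjective ?_ ?_
  · refine tendsto_atTop_mono' atTop (f₁ := fun r => v x + η * r) ?_ ?_
    · filter_upwards [eventually_ge_atTop (0 : ℝ)] with r hr
      have h1 := mm_mono hv x hr
      rw [mm_zero] at h1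
      linarith
    · exact tendsto_atTop_add_const_left _ _ (tendsto_id.const_mul_atTop hη)
  · refine tendsto_atBot_mono' atBot (f₁ := fun r => v x + η * r) ?_ ?_
    · filter_upwards [eventually_le_atBot (0 : ℝ)] with r hr
      have h1 := mm_mono hv x hr
      rw [mm_zero] at h1
      linarith
    · exact tendsto_atBot_add_const_left _ _ (tendsto_id.const_mul_atBot hη)

theorem bet_spec (hv : LipschitzWith L v) (hη : 0 < η) (x : Sp N) (s : ℝ) :
    mm v x (bet η v x s) + η * bet η v x s = s :=
  Function.invFun_eq (f := fun r => mm v x r + η * r) (C3_surj hv hη x s)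

theorem bet_eq (hv : LipschitzWith L v) (hη : 0 < η) {x : Sp N} {s r : ℝ}
    (h : mm v x r + η * r = s) : bet η v x s = r :=
  (C3_strictMono hv hη x).injective ((bet_spec hv hη x s).trans h.symm)

theorem bet_strictMono (hv : LipschitzWith L v) (hη : 0 < η) (x : Sp N) :
    StrictMono (bet η v x) := by
  intro s s' h
  refine (C3_strictMono hv hη x).lt_iff_lt.1 ?_
  rw [bet_spec hv hη, bet_spec hv hη]
  exact h

theorem bet_self (hv : LipschitzWith L v) (hη : 0 < η) (x : Sp N) : bet η v x (v x) = 0 :=
  bet_eq hv hη (by rw [mm_zero]; ring)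

theorem C3_lip_aux (hv : LipschitzWith L v) (hη : 0 < η) (x x' : Sp N) (s s' : ℝ) :
    bet η v x s - bet η v x' s' ≤ (|s - s'| + L * ‖x - x'‖) / η := by
  have hn : 0 ≤ |s - s'| + L * ‖x - x'‖ := by positivity
  rcases le_total (bet η v x s) (bet η v x' s') with h | h
  · have := div_nonneg hn hη.le
    linarith
  · rw [le_div_iff₀ hη]
    have h1 := bet_spec hv hη x s
    have h2 := bet_spec hv hη x' s'
    have h3 := mm_mono hv x h
    have h4 := mm_lip hv x x' (bet η v x' s') (bet η v x' s')
    rw [sub_self, abs_zero, mul_zero, add_zero] at h4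
    have h5 := (abs_le.1 h4).1
    have h6 := le_abs_self (s - s')
    nlinarith

theorem bet_lip (hv : LipschitzWith L v) (hη : 0 < η) (x x' : Sp N) (s s' : ℝ) :
    |bet η v x s - bet η v x' s'| ≤ (|s - s'| + L * ‖x - x'‖) / η := by
  have h1 := C3_lip_aux hv hη x x' s s'
  have h2 := C3_lip_aux hv hη x' x s' s
  rw [abs_sub_comm s' s, norm_sub_rev x' x] at h2
  exact abs_le.2 ⟨by linarith, h1⟩

theorem bet_continuous (hv : LipschitzWith L v) (hη : 0 < η) :
    Continuous fun p : Sp N × ℝ => bet η v p.1 p.2 := by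
  refine continuous_iff_continuousAt.2 fun q => ?_
  rw [ContinuousAt, tendsto_iff_dist_tendsto_zero]
  have hc : Continuous fun p : Sp N × ℝ => (|p.2 - q.2| + L * ‖p.1 - q.1‖) / η := by
    fun_prop
  have ht := hc.tendsto q
  simp only [sub_self, abs_zero, norm_zero, mul_zero, add_zero, zero_div] at ht
  refine squeeze_zero (fun _ => dist_nonneg) (fun p => ?_) ht
  rw [Real.dist_eq]
  exact bet_lip hv hη _ _ _ _

theorem bet_anti (hv : LipschitzWith L v) (hv' : LipschitzWith L' v') (hη : 0 < η)
    (h : ∀ y, v y ≤ v' y) (x : Sp N) (s : ℝ) : bet η v' x s ≤ bet η v x s := by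
  refine (C3_strictMono hv hη x).le_iff_le.1 ?_
  have h1 := bet_spec hv hη x s
  have h2 := bet_spec hv' hη x s
  have h3 : mm v x (bet η v' x s) ≤ mm v' x (bet η v' x s) :=
    mm_mono_local hv hv' fun y _ => h y
  linarith

theorem C3_lipschitz_add_const (hv : LipschitzWith L v) (A : ℝ) :
    LipschitzWith L fun y => v y + A := by
  refine LipschitzWith.of_dist_le_mul fun x y => ?_
  rw [dist_add_right]
  exact hv.dist_le_mul x y

theorem bet_add_const (hv : LipschitzWith L v) (hη : 0 < η) (A : ℝ) (x : Sp N) (s : ℝ) :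
    bet η (fun y => v y + A) x (s + A) = bet η v x s := by
  refine bet_eq (C3_lipschitz_add_const hv A) hη ?_
  rw [mm_add_const hv]
  have h1 := bet_spec hv hη x s
  linarith

theorem C3_continuous_slice (hv : LipschitzWith L v) (hη : 0 < η) (x : Sp N) :
    Continuous (bet η v x) := by
  have h : Continuous fun s : ℝ => ((x, s) : Sp N × ℝ) := by fun_prop
  simpa only [Function.comp_def] using (bet_continuous hv hη).comp h

theorem C3_intervalIntegrable (hv : LipschitzWith L v) (hη : 0 < η) (x : Sp N) (a b : ℝ) :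
    IntervalIntegrable (bet η v x) volume a b :=
  (C3_continuous_slice hv hη x).intervalIntegrable a b

theorem BB_continuous (hv : LipschitzWith L v) (hη : 0 < η) :
    Continuous fun p : Sp N × ℝ => BB η v p.1 p.2 := by
  have hf : Continuous (Function.uncurry fun (p : Sp N × ℝ) (σ : ℝ) => bet η v p.1 σ) :=
    (bet_continuous hv hη).comp
      (Continuous.prodMk (continuous_fst.comp continuous_fst) continuous_snd)
  have h1 : Continuous fun p : Sp N × ℝ => ∫ σ in (0 : ℝ)..p.2, bet η v p.1 σ :=
    intervalIntegral.continuous_parametric_intervalIntegral_of_continuous hf continuous_snd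
  have h2 : Continuous fun p : Sp N × ℝ => ∫ σ in (0 : ℝ)..v p.1, bet η v p.1 σ :=
    intervalIntegral.continuous_parametric_intervalIntegral_of_continuous hf
      (hv.continuous.comp continuous_fst)
  refine (h1.sub h2).congr fun p => ?_
  exact intervalIntegral.integral_interval_sub_left (C3_intervalIntegrable hv hη _ _ _)
    (C3_intervalIntegrable hv hη _ _ _)

theorem BB_self (η : ℝ) (v : Sp N → ℝ) (x : Sp N) : BB η v x (v x) = 0 :=
  intervalIntegral.integral_same

theorem BB_sub (hv : LipschitzWith L v) (hη : 0 < η) (x : Sp N) (s s' : ℝ) :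
    BB η v x s' - BB η v x s = ∫ σ in s..s', bet η v x σ :=
  intervalIntegral.integral_interval_sub_left (C3_intervalIntegrable hv hη _ _ _)
    (C3_intervalIntegrable hv hη _ _ _)

theorem BB_le_of_above (hv : LipschitzWith L v) (hη : 0 < η) {x : Sp N} {s s' : ℝ}
    (h1 : v x ≤ s) (h2 : s ≤ s') : BB η v x s ≤ BB η v x s' := by
  rw [← sub_nonneg, BB_sub hv hη]
  refine intervalIntegral.integral_nonneg h2 fun σ hσ => ?_
  rw [← bet_self hv hη x]
  exact (bet_strictMono hv hη x).monotone (h1.trans hσ.1)

theorem BB_le_of_below (hv : LipschitzWith L v) (hη : 0 < η) {x : Sp N} {s s' : ℝ}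
    (h1 : s ≤ v x) (h2 : s' ≤ s) : BB η v x s ≤ BB η v x s' := by
  rw [← sub_nonneg, BB_sub hv hη, intervalIntegral.integral_symm,
    ← intervalIntegral.integral_neg]
  refine intervalIntegral.integral_nonneg h2 fun σ hσ => ?_
  rw [neg_nonneg, ← bet_self hv hη x]
  exact (bet_strictMono hv hη x).monotone (hσ.2.trans h1)

theorem BB_nonneg (hv : LipschitzWith L v) (hη : 0 < η) (x : Sp N) (s : ℝ) :
    0 ≤ BB η v x s := by
  rw [← BB_self η v x]
  rcases le_total (v x) s with h | h
  · exact BB_le_of_above hv hη le_rfl h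
  · exact BB_le_of_below hv hη le_rfl h

theorem BB_taylor (hv : LipschitzWith L v) (hη : 0 < η) (x : Sp N) (s τ : ℝ) :
    |BB η v x (s + τ) - BB η v x s - τ * bet η v x s| ≤ τ ^ 2 / η := by
  have h1 : BB η v x (s + τ) - BB η v x s - τ * bet η v x s =
      ∫ σ in s..s + τ, (bet η v x σ - bet η v x s) := by
    rw [BB_sub hv hη, intervalIntegral.integral_sub (C3_intervalIntegrable hv hη _ _ _)
      intervalIntegrable_const, intervalIntegral.integral_const]
    simp
  have h2 : ‖∫ σ in s..s + τ, (bet η v x σ - bet η v x s)‖ ≤ |τ| / η * |s + τ - s| := by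
    refine intervalIntegral.norm_integral_le_of_norm_le_const fun σ hσ => ?_
    have h3 := bet_lip hv hη x x σ s
    rw [sub_self, norm_zero, mul_zero, add_zero] at h3
    have h4 : |σ - s| ≤ |s + τ - s| := abs_sub_left_of_mem_uIcc (uIoc_subset_uIcc hσ)
    rw [add_sub_cancel_left] at h4
    exact h3.trans (div_le_div_of_nonneg_right h4 hη.le)
  rw [h1]
  rw [add_sub_cancel_left] at h2
  refine le_trans h2 (le_of_eq ?_)
  rw [div_mul_eq_mul_div, abs_mul_abs_self, sq]

theorem BB_add_const (hv : LipschitzWith L v) (hη : 0 < η) (A : ℝ) (x : Sp N) (s : ℝ) :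
    BB η (fun y => v y + A) x (s + A) = BB η v x s := by
  unfold BB
  rw [← intervalIntegral.integral_comp_add_right (fun σ => bet η (fun y => v y + A) x σ) A]
  simp only [bet_add_const hv hη]

theorem BB_translate (η : ℝ) (v : Sp N → ℝ) (z x : Sp N) (s : ℝ) :
    BB η (fun y => v (y + z)) x s = BB η v (x + z) s := by
  unfold BB bet
  simp only [mm_translate]

theorem BB_integrable (hv : LipC v c) (hw : LipC w c) (hη : 0 < η) :
    Integrable fun x => BB η v x (w x) := by
  obtain ⟨⟨K, hK⟩, R, hR⟩ := hv
  obtain ⟨⟨K', hK'⟩, R', hR'⟩ := hw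
  have hc : Continuous fun x => BB η v x (w x) := by
    have h : Continuous fun x : Sp N => ((x, w x) : Sp N × ℝ) :=
      Continuous.prodMk continuous_id hK'.continuous
    simpa only [Function.comp_def] using (BB_continuous hK hη).comp h
  refine hc.integrable_of_hasCompactSupport
    (HasCompactSupport.intro (isCompact_closedBall (0 : Sp N) (max R R')) fun x hx => ?_)
  rw [mem_closedBall_zero_iff, not_le] at hx
  have h1 : w x = v x := by
    rw [hR x ((le_max_left _ _).trans hx.le), hR' x ((le_max_right _ _).trans hx.le)]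
  rw [h1]
  exact BB_self η v x

end

end Pool.Agent.MCF5
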