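import Pool.Agent.Lib.MP_5aed36_gt.A2
import Pool.Agent.Lib.MP_5aed36_gt.A4
import Pool.Agent.Lib.MP_5aed36_gt.C3

open MeasureTheory Set Filter Topology Metric
open scoped ENNReal NNReal RealInnerProductSpace

namespace Pool.Agent.MCF5

variable {N : ℕ}

/-- Profile of the upper cone. -/
private noncomputable def C4_G (K : ℝ≥0) (R c s : ℝ) : ℝ := c + K * max (R + s) 0

private theorem C4_G_mono (K : ℝ≥0) (R c : ℝ) : Monotone (C4_G K R c) := by
  intro s t hst
  unfold C4_G
  have h1 : max (R + s) 0 ≤ max (R + t) 0 := max_le_max (by linarith) le_rfl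
  have h2 := mul_le_mul_of_nonneg_left h1 K.coe_nonneg
  linarith

private theorem C4_G_lip (K : ℝ≥0) (R c : ℝ) : LipschitzWith K (C4_G K R c) := by
  refine LipschitzWith.of_dist_le_mul fun s t => ?_
  unfold C4_G
  rw [Real.dist_eq, Real.dist_eq]
  have h1 : |max (R + s) 0 - max (R + t) 0| ≤ |s - t| := by
    have := abs_max_sub_max_le_abs (R + s) (R + t) 0
    rwa [show R + s - (R + t) = s - t by ring] at this
  rw [show c + K * max (R + s) 0 - (c + K * max (R + t) 0) =
    K * (max (R + s) 0 - max (R + t) 0) by ring, abs_mul, abs_of_nonneg K.coe_nonneg]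
  exact mul_le_mul_of_nonneg_left h1 K.coe_nonneg

private theorem C4_cone_data (K : ℝ≥0) (R c : ℝ) :
    Data K R c (fun x : Sp N => C4_G K R c (-‖x‖)) := by
  refine ⟨?_, fun x hx => ?_⟩
  · have h1 : LipschitzWith 1 (fun x : Sp N => -‖x‖) := lipschitzWith_one_norm.neg
    have h2 := (C4_G_lip K R c).comp h1
    rw [mul_one] at h2
    exact h2
  · show c + K * max (R + -‖x‖) 0 = c
    rw [max_eq_right (by linarith)]
    ring

/-- A function of the class lies between the cones. -/
private theorem C4_between (hN : 0 < N) {K : ℝ≥0} {R c : ℝ} {v : Sp N → ℝ} (hv : Data K R c v)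
    (x : Sp N) : |v x - c| ≤ K * max (R + -‖x‖) 0 := by
  by_cases hx : R ≤ ‖x‖
  · rw [hv.2 x hx, sub_self, abs_zero]
    exact mul_nonneg K.coe_nonneg (le_max_right _ _)
  · push Not at hx
    obtain ⟨e, he1, he⟩ : ∃ e : Sp N, ‖e‖ = 1 ∧ x = ‖x‖ • e := by
      by_cases h0 : x = 0
      · refine ⟨EuclideanSpace.single ⟨0, hN⟩ 1, by simp, ?_⟩
        rw [h0]; simp
      · have hn : ‖x‖ ≠ 0 := norm_ne_zero_iff.2 h0
        refine ⟨‖x‖⁻¹ • x, ?_, ?_⟩
        · rw [norm_smul, norm_inv, norm_norm, inv_mul_cancel₀ hn]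
        · rw [smul_smul, mul_inv_cancel₀ hn, one_smul]
    have hR : 0 ≤ R := le_trans (norm_nonneg x) hx.le
    have hy : R ≤ ‖R • e‖ := by
      rw [norm_smul, he1, mul_one, Real.norm_eq_abs, abs_of_nonneg hR]
    have hd : dist x (R • e) = R + -‖x‖ := by
      rw [dist_eq_norm]
      have : x - R • e = (‖x‖ - R) • e := by
        rw [sub_smul, ← he]
      rw [this, norm_smul, he1, mul_one, Real.norm_eq_abs, abs_of_nonpos (by linarith)]
      ring
    have h1 := hv.1.dist_le_mul x (R • e)
    rw [hv.2 _ hy, Real.dist_eq, hd] at h1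
    rw [max_eq_left (by linarith)]
    exact h1

private theorem C4_tv_min (hN : 0 < N) (K : ℝ≥0) (R : ℝ) {c : ℝ} {w : Sp N → ℝ} (hw : LipC w c) :
    tv (fun x => min (w x) (C4_G K R c (-‖x‖))) ≤ tv w := by
  have hu : Data K R c (fun x : Sp N => C4_G K R c (-‖x‖)) := C4_cone_data K R c
  have hf : LipC (fun x => max (w x - C4_G K R c (-‖x‖)) 0) 0 := by
    have := (hw.sub hu.lipC).max (LipC.const (N := N) 0)
    rw [sub_self, max_self] at this
    exact this
  have hf0 : ∀ x, 0 ≤ max (w x - C4_G K R c (-‖x‖)) 0 := fun x => le_max_right _ _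
  have h1 := tv_split hw hf hf0 hu.1 (fun x hx => by
    rcases le_total (w x - C4_G K R c (-‖x‖)) 0 with h | h
    · rw [max_eq_right h] at hx
      exact absurd hx (lt_irrefl _)
    · rw [max_eq_left h]; ring)
  have h2 := calib_cone hN (C4_G_mono K R c) (C4_G_lip K R c) _ hf hf0 (subset_univ _)
  have h3 : (fun x => w x - max (w x - C4_G K R c (-‖x‖)) 0) =
      fun x => min (w x) (C4_G K R c (-‖x‖)) := by
    funext x
    rcases le_total (w x) (C4_G K R c (-‖x‖)) with h | h
    · rw [max_eq_right (by linarith), min_eq_left h, sub_zero]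
    · rw [max_eq_left (by linarith), min_eq_right h]; ring
  rw [h3] at h1
  simp only [zero_mul, integral_zero, add_zero] at h2
  linarith

/-- Truncation by the cones `c ± L' (R - ‖x‖)₊` does not raise the energy: `calib_cone` with
`tv_split` for the total variation (lower cone by symmetry `w ↦ -w`), `BB_le_of_above` and
`BB_le_of_below` for the other term, since `v` lies between the cones. -/
theorem exists_truncation (hN : 0 < N) {h η R c : ℝ} {L L' : ℝ≥0} {v w : Sp N → ℝ} (hh : 0 < h)
    (hη : 0 < η) (hv : Data L R c v) (hL : L ≤ L') (hw : LipschitzWith L' w) (hwc : LipC w c) :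
    ∃ w', Data L' R c w' ∧ JJ h η v w' ≤ JJ h η v w := by
  have hu : Data L' R c (fun x : Sp N => C4_G L' R c (-‖x‖)) := C4_cone_data L' R c
  have hl : Data L' R (-c) (fun x : Sp N => C4_G L' R (-c) (-‖x‖)) := C4_cone_data L' R (-c)
  have h1c : LipC (fun x => min (w x) (C4_G L' R c (-‖x‖))) c := by
    have := hwc.min hu.lipC
    rw [min_self] at this
    exact this
  have h1l : LipschitzWith L' (fun x => min (w x) (C4_G L' R c (-‖x‖))) := by
    have := hw.min hu.1
    rw [max_self] at this
    exact this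
  have hD : Data L' R c
      (fun x => -min (-min (w x) (C4_G L' R c (-‖x‖))) (C4_G L' R (-c) (-‖x‖))) := by
    refine ⟨?_, fun x hx => ?_⟩
    · have := (h1l.neg.min hl.1).neg
      rw [max_self] at this
      exact this
    · have e1 : C4_G L' R c (-‖x‖) = c := hu.2 x hx
      have e2 : C4_G L' R (-c) (-‖x‖) = -c := hl.2 x hx
      show -min (-min (w x) (C4_G L' R c (-‖x‖))) (C4_G L' R (-c) (-‖x‖)) = c
      rw [e1, e2, min_eq_right (neg_le_neg (min_le_right _ _)), neg_neg]
  refine ⟨_, hD, ?_⟩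
  have ht : tv (fun x => -min (-min (w x) (C4_G L' R c (-‖x‖))) (C4_G L' R (-c) (-‖x‖))) ≤
      tv w := by
    rw [tv_neg (fun x => min (-min (w x) (C4_G L' R c (-‖x‖))) (C4_G L' R (-c) (-‖x‖)))]
    refine (C4_tv_min hN L' R h1c.neg).trans ?_
    rw [tv_neg (fun x => min (w x) (C4_G L' R c (-‖x‖)))]
    exact C4_tv_min hN L' R hwc
  have hB : ∫ x, BB η v x
      (-min (-min (w x) (C4_G L' R c (-‖x‖))) (C4_G L' R (-c) (-‖x‖))) ≤
      ∫ x, BB η v x (w x) := by
    refine integral_mono (BB_integrable hv.lipC hD.lipC hη) (BB_integrable hv.lipC hwc hη)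
      fun x => ?_
    have hb := abs_le.1 (C4_between hN (⟨hv.1.weaken hL, hv.2⟩ : Data L' R c v) x)
    have hup : v x ≤ C4_G L' R c (-‖x‖) := by unfold C4_G; linarith [hb.2]
    have hlo : -C4_G L' R (-c) (-‖x‖) ≤ v x := by unfold C4_G; linarith [hb.1]
    show BB η v x (-min (-min (w x) (C4_G L' R c (-‖x‖))) (C4_G L' R (-c) (-‖x‖))) ≤
      BB η v x (w x)
    rcases le_total (w x) (C4_G L' R c (-‖x‖)) with h1 | h1
    · rw [min_eq_left h1]
      rcases le_total (-w x) (C4_G L' R (-c) (-‖x‖)) with h2 | h2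
      · rw [min_eq_left h2, neg_neg]
      · rw [min_eq_right h2]
        exact BB_le_of_below hv.1 hη hlo (by linarith)
    · rw [min_eq_right h1, min_eq_left (by linarith), neg_neg]
      exact BB_le_of_above hv.1 hη hup h1
  unfold JJ
  have := mul_le_mul_of_nonneg_left hB (one_div_pos.2 hh).le
  linarith

/-- Pointwise convergence in the class is uniform. -/
private theorem C4_unif {ι : Type*} {l : Filter ι} {K : ℝ≥0} {R c : ℝ} {F : ι → Sp N → ℝ}
    {f : Sp N → ℝ} (hF : ∀ i, Data K R c (F i)) (hf : Data K R c f)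
    (hp : ∀ x, Tendsto (fun i => F i x) l (𝓝 (f x))) : TendstoUniformly F f l := by
  rw [Metric.tendstoUniformly_iff]
  intro ε hε
  have hK : (0 : ℝ) ≤ K := K.coe_nonneg
  have hδ : 0 < ε / (3 * (K + 1)) := by positivity
  obtain ⟨t, -, htf, hcov⟩ := finite_cover_balls_of_compact
    (isCompact_closedBall (0 : Sp N) R) hδ
  have h1 : ∀ᶠ i in l, ∀ y ∈ t, dist (F i y) (f y) < ε / 3 :=
    (eventually_all_finite htf).2 fun y _ =>
      Metric.tendsto_nhds.1 (hp y) (ε / 3) (by positivity)
  filter_upwards [h1] with i hi x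
  by_cases hx : R ≤ ‖x‖
  · rw [hf.2 x hx, (hF i).2 x hx, dist_self]
    exact hε
  · have hx' : x ∈ closedBall (0 : Sp N) R := by
      rw [mem_closedBall_zero_iff]; exact (not_le.1 hx).le
    obtain ⟨y, hy, hxy⟩ := mem_iUnion₂.1 (hcov hx')
    rw [mem_ball] at hxy
    have hKd : K * dist x y ≤ ε / 3 := by
      have h2 : (K : ℝ) * dist x y ≤ (K + 1) * (ε / (3 * (K + 1))) :=
        mul_le_mul (by linarith) hxy.le dist_nonneg (by linarith)
      have h3 : ((K : ℝ) + 1) * (ε / (3 * (K + 1))) = ε / 3 := by field_simp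
      linarith
    have a1 := hf.1.dist_le_mul x y
    have a2 := (hF i).1.dist_le_mul x y
    have a3 := hi y hy
    have a4 := dist_triangle4 (f x) (f y) (F i y) (F i x)
    rw [dist_comm (f y) (F i y), dist_comm (F i y) (F i x)] at a4
    linarith

private theorem C4_bound (hN : 0 < N) {K : ℝ≥0} {R c : ℝ} {v : Sp N → ℝ} (hv : Data K R c v)
    (x : Sp N) : |v x - c| ≤ K * |R| := by
  refine (C4_between hN hv x).trans (mul_le_mul_of_nonneg_left ?_ K.coe_nonneg)
  exact max_le (by linarith [le_abs_self R, norm_nonneg x]) (abs_nonneg R)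

/-- The second term of the energy is continuous for uniform convergence in the class. -/
private theorem C4_BB_le (hN : 0 < N) {η R c : ℝ} {L K : ℝ≥0} {v : Sp N → ℝ} (hη : 0 < η)
    (hv : Data L R c v) : ∃ C : ℝ, 0 ≤ C ∧ ∀ (w w' : Sp N → ℝ) (δ : ℝ), Data K R c w →
      Data K R c w' → 0 ≤ δ → δ ≤ 1 → (∀ x, |w' x - w x| ≤ δ) →
      ∫ x, BB η v x (w x) ≤ (∫ x, BB η v x (w' x)) + C * δ := by
  set A : ℝ := (K * |R| + L * |R| + 1) / η with hA
  have hA0 : 0 ≤ A := by positivity
  refine ⟨(volume : Measure (Sp N)).real (closedBall 0 R) * A, by positivity,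
    fun w w' δ hw hw' hδ0 hδ1 hd => ?_⟩
  have hind : Integrable ((closedBall (0 : Sp N) R).indicator fun _ => A * δ) :=
    (integrableOn_const (isCompact_closedBall (0 : Sp N) R).measure_lt_top.ne).integrable_indicator
      measurableSet_closedBall
  have h1 : ∫ x, BB η v x (w x) ≤
      ∫ x, (BB η v x (w' x) + (closedBall (0 : Sp N) R).indicator (fun _ => A * δ) x) := by
    refine integral_mono (BB_integrable hv.lipC hw.lipC hη)
      ((BB_integrable hv.lipC hw'.lipC hη).add hind) fun x => ?_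
    show BB η v x (w x) ≤
      BB η v x (w' x) + (closedBall (0 : Sp N) R).indicator (fun _ => A * δ) x
    by_cases hx : x ∈ closedBall (0 : Sp N) R
    · rw [indicator_of_mem hx]
      have t1 := BB_taylor hv.1 hη x (w x) (w' x - w x)
      rw [show w x + (w' x - w x) = w' x by ring] at t1
      have t2 := bet_lip hv.1 hη x x (w x) (v x)
      rw [bet_self hv.1 hη, sub_zero, sub_self, norm_zero, mul_zero, add_zero] at t2
      have t3 : |w x - v x| ≤ K * |R| + L * |R| := by
        have b1 := abs_le.1 (C4_bound hN hw x)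
        have b2 := abs_le.1 (C4_bound hN hv x)
        exact abs_le.2 ⟨by linarith [b1.1, b2.2], by linarith [b1.2, b2.1]⟩
      have t4 : |bet η v x (w x)| ≤ (K * |R| + L * |R|) / η :=
        t2.trans (div_le_div_of_nonneg_right t3 hη.le)
      have t5 : |(w' x - w x) * bet η v x (w x)| ≤ δ * ((K * |R| + L * |R|) / η) := by
        rw [abs_mul]
        exact mul_le_mul (hd x) t4 (abs_nonneg _) hδ0
      have t6 : (w' x - w x) ^ 2 / η ≤ δ / η := by
        refine div_le_div_of_nonneg_right ?_ hη.le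
        rw [← sq_abs]
        have := hd x
        nlinarith [abs_nonneg (w' x - w x)]
      have t7 : A * δ = δ * ((K * |R| + L * |R|) / η) + δ / η := by
        rw [hA]; field_simp
      have t8 := (abs_le.1 t1).1
      have t9 := (abs_le.1 t5).1
      linarith
    · rw [indicator_of_notMem hx, add_zero]
      have hx' : R ≤ ‖x‖ := by
        rw [mem_closedBall_zero_iff] at hx; exact (not_le.1 hx).le
      rw [hw.2 x hx', hw'.2 x hx']
  rw [integral_add (BB_integrable hv.lipC hw'.lipC hη) hind,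
    integral_indicator_const _ measurableSet_closedBall, smul_eq_mul] at h1
  linarith [mul_assoc ((volume : Measure (Sp N)).real (closedBall 0 R)) A δ]

/-- Direct method on the class `Data L' R c`: a minimising sequence has a uniformly convergent
subsequence (Arzela-Ascoli, or the pointwise limit along an ultrafilter, which is uniform for an
equi-Lipschitz family that is constant outside a ball), `tv_lsc`, and dominated convergence. -/
theorem exists_isMinJ (hN : 0 < N) {h η R c : ℝ} {L L' : ℝ≥0} {v : Sp N → ℝ} (hh : 0 < h)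
    (hη : 0 < η) (hv : Data L R c v) (hL : L ≤ L') :
    ∃ w, IsMinJ h η L' c v w ∧ ∀ x, R ≤ ‖x‖ → w x = c := by
  set S : Set ℝ := JJ h η v '' {w | Data L' R c w} with hS
  have hne : S.Nonempty := ⟨_, v, ⟨hv.1.weaken hL, hv.2⟩, rfl⟩
  have hbd : BddBelow S := by
    refine ⟨0, ?_⟩
    rintro _ ⟨w, -, rfl⟩
    unfold JJ
    exact add_nonneg (tv_nonneg w) (mul_nonneg (one_div_pos.2 hh).le
      (integral_nonneg fun x => BB_nonneg hv.1 hη x (w x)))
  obtain ⟨u, -, hu, huS⟩ := exists_seq_tendsto_sInf hne hbd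
  choose W hW hWu using huS
  set U : Ultrafilter ℕ := hyperfilter ℕ with hU
  have hUle : (U : Filter ℕ) ≤ atTop := by
    rw [← Nat.cofinite_eq_atTop]; exact hyperfilter_le_cofinite
  have hlim : ∀ x, ∃ a : ℝ, Tendsto (fun n => W n x) U (𝓝 a) := by
    intro x
    obtain ⟨a, -, ha⟩ := (isCompact_Icc (a := c - L' * |R|) (b := c + L' * |R|)).ultrafilter_le_nhds'
      (U.map fun n => W n x) (by
        rw [Ultrafilter.mem_map]
        refine Filter.univ_mem' fun n => ?_
        have b := abs_le.1 (C4_bound hN (hW n) x)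
        exact ⟨by linarith [b.1], by linarith [b.2]⟩)
    exact ⟨a, ha⟩
  choose w hw using hlim
  have hwD : Data L' R c w := by
    refine ⟨LipschitzWith.of_dist_le_mul fun x y => ?_, fun x hx => ?_⟩
    · exact le_of_tendsto' ((hw x).dist (hw y)) fun n => (hW n).1.dist_le_mul x y
    · have : (fun n => W n x) = fun _ => c := funext fun n => (hW n).2 x hx
      have h2 := hw x
      rw [this] at h2
      exact (tendsto_nhds_unique h2 tendsto_const_nhds)
  have hun : TendstoUniformly W w U := C4_unif hW hwD hw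
  obtain ⟨C, hC0, hC⟩ := C4_BB_le (K := L') hN hη hv
  have hmin : JJ h η v w ≤ sInf S := by
    refine le_of_forall_pos_le_add fun ε hε => ?_
    have hh' : 0 < 1 / h := one_div_pos.2 hh
    set δ : ℝ := min 1 (ε / 3 / (1 / h * C + 1)) with hδ
    have hδ0 : 0 < δ := lt_min one_pos (by positivity)
    have hδ2 : 1 / h * (C * δ) ≤ ε / 3 := by
      have a1 : δ ≤ ε / 3 / (1 / h * C + 1) := min_le_right _ _
      rw [le_div_iff₀ (by positivity)] at a1
      nlinarith
    have e1 := tv_lsc (fun n => (hW n).lipC) hwD.lipC hun (show 0 < ε / 3 by positivity)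
    have e2 := Metric.tendstoUniformly_iff.1 hun δ hδ0
    have e3 : ∀ᶠ n in (U : Filter ℕ), u n < sInf S + ε / 3 :=
      (hu.mono_left hUle).eventually (gt_mem_nhds (by linarith))
    obtain ⟨n, n1, n2, n3⟩ := (e1.and (e2.and e3)).exists
    have n4 := hC w (W n) δ hwD (hW n) hδ0.le (min_le_left _ _) fun x => by
      have := n2 x
      rw [dist_comm, Real.dist_eq] at this
      exact this.le
    have n5 := mul_le_mul_of_nonneg_left n4 hh'.le
    rw [← hWu n] at n3
    unfold JJ at n3 ⊢
    rw [mul_add] at n5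
    linarith
  refine ⟨w, ⟨hwD.1, hwD.lipC, fun w' hw' hw'c => ?_⟩, hwD.2⟩
  obtain ⟨w'', hD, hle⟩ := exists_truncation hN hh hη hv hL hw' hw'c
  exact hmin.trans ((csInf_le hbd ⟨w'', hD, rfl⟩).trans hle)

end Pool.Agent.MCF5
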