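import Pool.Agent.Lib.MP_5aed36_gt.C4

open MeasureTheory Set Filter Topology Metric
open scoped ENNReal NNReal RealInnerProductSpace

namespace Pool.Agent.MCF5

variable {N : ℕ}

section
variable {h η c c' R : ℝ} {L L' K : ℝ≥0} {v v' w w' : Sp N → ℝ}

theorem C5_lip_add_const (hw : LipschitzWith L w) (A : ℝ) :
    LipschitzWith L (fun x => w x + A) := by
  refine LipschitzWith.of_dist_le_mul fun x y => ?_
  rw [dist_add_right]
  exact hw.dist_le_mul x y

theorem C5_lip_translate (hw : LipschitzWith L w) (z : Sp N) :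
    LipschitzWith L (fun x => w (x + z)) := by
  refine LipschitzWith.of_dist_le_mul fun x y => ?_
  have := hw.dist_le_mul (x + z) (y + z)
  rwa [dist_add_right] at this

theorem C5_JJ_add_const (hη : 0 < η) (hv : LipschitzWith K v) (u : Sp N → ℝ) (A : ℝ) :
    JJ h η (fun x => v x + A) (fun x => u x + A) = JJ h η v u := by
  unfold JJ
  rw [tv_add_const]
  simp only [BB_add_const hv hη]

theorem C5_JJ_translate (v u : Sp N → ℝ) (z : Sp N) :
    JJ h η (fun x => v (x + z)) (fun x => u (x + z)) = JJ h η v u := by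
  unfold JJ
  rw [tv_translate]
  simp only [BB_translate]
  rw [integral_add_right_eq_self (fun x => BB η v x (u x)) z]

theorem IsMinJ.add_const (hη : 0 < η) (hv : LipschitzWith K v) (hw : IsMinJ h η L c v w) (A : ℝ) :
    IsMinJ h η L (c + A) (fun x => v x + A) (fun x => w x + A) := by
  refine ⟨C5_lip_add_const hw.1 A, hw.2.1.add (LipC.const A), fun u hu huc => ?_⟩
  have h1 : LipC (fun x => u x + -A) c := by
    have := huc.add (LipC.const (-A))
    simpa using this
  have h2 := hw.2.2 (fun x => u x + -A) (C5_lip_add_const hu (-A)) h1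
  rw [C5_JJ_add_const hη hv]
  have h3 := C5_JJ_add_const (h := h) hη hv (fun x => u x + -A) A
  have h4 : (fun x => u x + -A + A) = u := by
    funext x
    ring
  rw [h4] at h3
  rw [h3]
  exact h2

theorem IsMinJ.translate (hw : IsMinJ h η L c v w) (z : Sp N) :
    IsMinJ h η L c (fun x => v (x + z)) (fun x => w (x + z)) := by
  refine ⟨C5_lip_translate hw.1 z, hw.2.1.translate z, fun u hu huc => ?_⟩
  have h2 := hw.2.2 (fun x => u (x + -z)) (C5_lip_translate hu (-z)) (huc.translate (-z))
  rw [C5_JJ_translate]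
  have h3 := C5_JJ_translate (h := h) (η := η) v (fun x => u (x + -z)) z
  have h4 : (fun x => u (x + z + -z)) = u := by
    funext x
    rw [add_neg_cancel_right]
  rw [h4] at h3
  rw [h3]
  exact h2

theorem C5_BB_cont (hη : 0 < η) (hv : LipschitzWith K v) {u : Sp N → ℝ} (hu : Continuous u) :
    Continuous fun x => BB η v x (u x) := by
  have h1 : Continuous fun x : Sp N => (x, u x) := continuous_id.prodMk hu
  have h2 := (BB_continuous hv hη).comp h1
  simpa only [Function.comp_def] using h2

theorem C5_bet_cont (hη : 0 < η) (hv : LipschitzWith K v) {u : Sp N → ℝ} (hu : Continuous u) :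
    Continuous fun x => bet η v x (u x) := by
  have h1 : Continuous fun x : Sp N => (x, u x) := continuous_id.prodMk hu
  have h2 := (bet_continuous hv hη).comp h1
  simpa only [Function.comp_def] using h2

theorem C5_bet_cont' (hη : 0 < η) (hv : LipschitzWith K v) (x : Sp N) :
    Continuous fun s => bet η v x s := by
  have h1 : Continuous fun s : ℝ => (x, s) := continuous_const.prodMk continuous_id
  have h2 := (bet_continuous hv hη).comp h1
  simpa only [Function.comp_def] using h2

/-- Comparison under a strict inequality between the inverse functions. -/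
theorem C5_le_of_strict (hh : 0 < h) (hη : 0 < η) (hv : LipC v c) (hv' : LipC v' c') (hc : c ≤ c')
    (hlt : ∀ x s, bet η v' x s < bet η v x s) (hw : IsMinJ h η L c v w)
    (hw' : IsMinJ h η L c' v' w') : ∀ x, w x ≤ w' x := by
  obtain ⟨K, hK⟩ := hv.1
  obtain ⟨K', hK'⟩ := hv'.1
  have hmc : LipC (fun x => min (w x) (w' x)) c := by
    have := hw.2.1.min hw'.2.1
    rwa [min_eq_left hc] at this
  have hMc : LipC (fun x => max (w x) (w' x)) c' := by
    have := hw.2.1.max hw'.2.1
    rwa [max_eq_right hc] at this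
  have hml : LipschitzWith L (fun x => min (w x) (w' x)) := by
    have := hw.1.min hw'.1
    rwa [max_self] at this
  have hMl : LipschitzWith L (fun x => max (w x) (w' x)) := by
    have := hw.1.max hw'.1
    rwa [max_self] at this
  have e1 := hw.2.2 _ hml hmc
  have e2 := hw'.2.2 _ hMl hMc
  have e3 := tv_max_add_tv_min hw.2.1 hw'.2.1
  have i1 := BB_integrable hv hw.2.1 hη
  have i2 := BB_integrable hv hmc hη
  have i3 := BB_integrable hv' hw'.2.1 hη
  have i4 := BB_integrable hv' hMc hη
  set D : Sp N → ℝ := fun x => (BB η v x (w x) - BB η v x (min (w x) (w' x))) +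
    (BB η v' x (w' x) - BB η v' x (max (w x) (w' x))) with hD
  have hDi : Integrable D := (i1.sub i2).add (i3.sub i4)
  have hDc : Continuous D :=
    ((C5_BB_cont hη hK hw.1.continuous).sub (C5_BB_cont hη hK hml.continuous)).add
      ((C5_BB_cont hη hK' hw'.1.continuous).sub (C5_BB_cont hη hK' hMl.continuous))
  have hDpos : ∀ x, w' x < w x → 0 < D x := by
    intro x hx
    have a1 : D x = ∫ σ in w' x..w x, (bet η v x σ - bet η v' x σ) := by
      rw [intervalIntegral.integral_sub ((C5_bet_cont' hη hK x).intervalIntegrable _ _)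
        ((C5_bet_cont' hη hK' x).intervalIntegrable _ _), ← BB_sub hK hη, ← BB_sub hK' hη]
      simp only [hD, min_eq_right hx.le, max_eq_left hx.le]
      ring
    rw [a1]
    exact intervalIntegral.intervalIntegral_pos_of_pos
      (((C5_bet_cont' hη hK x).sub (C5_bet_cont' hη hK' x)).intervalIntegrable _ _)
      (fun σ => sub_pos.2 (hlt x σ)) hx
  have hD0 : ∀ x, 0 ≤ D x := by
    intro x
    rcases le_or_gt (w x) (w' x) with hx | hx
    · simp only [hD, min_eq_left hx, max_eq_right hx, sub_self, add_zero, le_refl]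
    · exact (hDpos x hx).le
  have hint : ∫ x, D x = ((∫ x, BB η v x (w x)) - ∫ x, BB η v x (min (w x) (w' x))) +
      ((∫ x, BB η v' x (w' x)) - ∫ x, BB η v' x (max (w x) (w' x))) := by
    have j1 : Integrable fun x => BB η v x (w x) - BB η v x (min (w x) (w' x)) := i1.sub i2
    have j2 : Integrable fun x => BB η v' x (w' x) - BB η v' x (max (w x) (w' x)) := i3.sub i4
    simp only [hD]
    rw [integral_add j1 j2, integral_sub i1 i2, integral_sub i3 i4]
  have hle0 : ∫ x, D x ≤ 0 := by
    unfold JJ at e1 e2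
    have hp : 0 < 1 / h := one_div_pos.2 hh
    have : (1 / h) * ∫ x, D x ≤ 0 := by
      rw [hint]
      linarith
    by_contra hcon
    have := mul_pos hp (not_le.1 hcon)
    linarith
  have hz : ∫ x, D x = 0 := le_antisymm hle0 (integral_nonneg hD0)
  have hae : D =ᵐ[volume] 0 := (integral_eq_zero_iff_of_nonneg hD0 hDi).1 hz
  have hall : D = 0 := (hDc.ae_eq_iff_eq volume continuous_zero).1 hae
  intro x
  by_contra hx
  have := hDpos x (not_le.1 hx)
  rw [hall] at this
  exact lt_irrefl _ this

/-- Compare with `v' + ε`, `w' + ε`: use `min` and `max` as competitors, `tv_max_add_tv_min`, and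
the strict inequality `bet (v' + ε) x σ < bet v x σ` on the open set `w' + ε < w`. -/
theorem IsMinJ.le (hh : 0 < h) (hη : 0 < η) (hv : LipC v c) (hv' : LipC v' c') (hc : c ≤ c')
    (hle : ∀ x, v x ≤ v' x) (hw : IsMinJ h η L c v w) (hw' : IsMinJ h η L c' v' w') :
    ∀ x, w x ≤ w' x := by
  obtain ⟨K, hK⟩ := hv.1
  obtain ⟨K', hK'⟩ := hv'.1
  intro x
  refine le_of_forall_pos_le_add fun ε hε => ?_
  refine C5_le_of_strict hh hη hv (hv'.add (LipC.const ε)) (by linarith) (fun y s => ?_) hw
    (hw'.add_const hη hK' ε) x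
  have a1 := bet_add_const hK' hη ε y (s - ε)
  rw [sub_add_cancel] at a1
  rw [a1]
  exact lt_of_lt_of_le (bet_strictMono hK' hη y (by linarith)) (bet_anti hK hK' hη hle y s)

theorem IsMinJ.lipschitz (hh : 0 < h) (hη : 0 < η) (hv : Data L R c v)
    (hw : IsMinJ h η L' c v w) : LipschitzWith L w := by
  refine LipschitzWith.of_le_add_mul L fun x y => ?_
  have hA : 0 ≤ (L : ℝ) * dist x y := by positivity
  have key := IsMinJ.le hh hη (hv.lipC.translate (x - y))
    (hv.lipC.add (LipC.const ((L : ℝ) * dist x y))) (by linarith) (fun p => ?_)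
    (hw.translate (x - y)) (hw.add_const hη hv.1 ((L : ℝ) * dist x y)) y
  · simpa using key
  · have a1 := hv.1.le_add_mul (p + (x - y)) p
    have a2 : dist (p + (x - y)) p = dist x y := by
      rw [dist_eq_norm, dist_eq_norm, add_sub_cancel_left]
    rwa [a2] at a1

/-- The subgradient inequality up to an error of order `s`. -/
theorem C5_el_approx (hh : 0 < h) (hη : 0 < η) (hv : Data L R c v)
    (hw : IsMinJ h η (L + 1) c v w) {φ : Sp N → ℝ} (hφ : LipC φ 0) (hK : LipschitzWith K φ)
    {s : ℝ} (hs : 0 < s) (hs1 : s ≤ 1) (hsK : s * K ≤ 1) :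
    tv w ≤ tv (fun x => w x + φ x) + (∫ x, bet η v x (w x) / h * φ x) +
      s * ((1 / h) * ∫ x, φ x ^ 2 / η) := by
  have hwl := hw.lipschitz hh hη hv
  have hwc := hw.2.1
  have hφc : HasCompactSupport φ := by simpa using hφ.hasCompactSupport
  have hrc := C5_bet_cont hη hv.1 hwl.continuous
  have hl : LipschitzWith (L + 1) (fun x => w x + s * φ x) := by
    refine LipschitzWith.of_dist_le_mul fun x y => ?_
    have a1 := hwl.dist_le_mul x y
    have a2 := hK.dist_le_mul x y
    have a3 : dist (w x + s * φ x) (w y + s * φ y) ≤ dist (w x) (w y) + s * dist (φ x) (φ y) := by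
      refine (dist_add_add_le _ _ _ _).trans (le_of_eq ?_)
      rw [Real.dist_eq (s * φ x), ← mul_sub, abs_mul, abs_of_pos hs, Real.dist_eq (φ x)]
    have a4 : s * dist (φ x) (φ y) ≤ dist x y := by
      have d0 : 0 ≤ dist x y := dist_nonneg
      calc s * dist (φ x) (φ y) ≤ s * (K * dist x y) := mul_le_mul_of_nonneg_left a2 hs.le
        _ = (s * K) * dist x y := by ring
        _ ≤ 1 * dist x y := mul_le_mul_of_nonneg_right hsK d0
        _ = dist x y := one_mul _
    push_cast
    linarith
  have hc2 : LipC (fun x => w x + s * φ x) c := by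
    have := hwc.add (hφ.const_mul s)
    simpa using this
  have hc3 : LipC (fun x => w x + φ x) (c + 0) := hwc.add hφ
  have e1 := hw.2.2 _ hl hc2
  have e2 : tv (fun x => w x + s * φ x) ≤ (1 - s) * tv w + s * tv (fun x => w x + φ x) := by
    have a1 := tv_add_le (hwc.const_mul (1 - s)) (hc3.const_mul s)
    rw [tv_const_mul hwc, tv_const_mul hc3, abs_of_nonneg (by linarith), abs_of_pos hs] at a1
    have a2 : (fun x => (1 - s) * w x + s * (w x + φ x)) = fun x => w x + s * φ x := by
      funext x
      ring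
    rwa [a2] at a1
  have i1 := BB_integrable hv.lipC hwc hη
  have i2 := BB_integrable hv.lipC hc2 hη
  have i3 : Integrable fun x => bet η v x (w x) * φ x :=
    (hrc.mul hK.continuous).integrable_of_hasCompactSupport hφc.mul_left
  have i4 : Integrable fun x => φ x ^ 2 / η := by
    have a1 : Integrable fun x => (φ x / η) * φ x :=
      ((hK.continuous.div_const η).mul hK.continuous).integrable_of_hasCompactSupport hφc.mul_left
    refine a1.congr (Eventually.of_forall fun x => ?_)
    simp only
    ring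
  have e3 : ∫ x, BB η v x (w x + s * φ x) ≤ (∫ x, BB η v x (w x)) +
      s * (∫ x, bet η v x (w x) * φ x) + s ^ 2 * ∫ x, φ x ^ 2 / η := by
    have j1 : Integrable fun x => BB η v x (w x) + s * (bet η v x (w x) * φ x) :=
      i1.add (i3.const_mul s)
    rw [← integral_const_mul, ← integral_const_mul, ← integral_add i1 (i3.const_mul s),
      ← integral_add j1 (i4.const_mul (s ^ 2))]
    refine integral_mono i2 (j1.add (i4.const_mul (s ^ 2))) fun x => ?_
    have a1 := (abs_le.1 (BB_taylor hv.1 hη x (w x) (s * φ x))).2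
    have a2 : (s * φ x) ^ 2 / η = s ^ 2 * (φ x ^ 2 / η) := by ring
    simp only
    nlinarith
  have e4 : ∫ x, bet η v x (w x) / h * φ x = (1 / h) * ∫ x, bet η v x (w x) * φ x := by
    rw [← integral_const_mul]
    congr 1
    funext x
    ring
  unfold JJ at e1
  have hp : 0 < 1 / h := one_div_pos.2 hh
  have e5 := mul_le_mul_of_nonneg_left e3 hp.le
  rw [e4]
  refine le_of_mul_le_mul_left ?_ hs
  nlinarith

/-- With `L' = L + 1` the competitors `w + s φ` are allowed for small `s > 0`; use convexity of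
`tv`, `BB_taylor`, and let `s → 0`. Put `r x = bet η v x (w x)`. -/
theorem step_exists (hN : 0 < N) (hh : 0 < h) (hη : 0 < η) (hv : Data L R c v) :
    ∃ w r, Data L R c w ∧ Step h η v w r := by
  obtain ⟨w, hw, hout⟩ := exists_isMinJ (L' := L + 1) hN hh hη hv le_self_add
  have hwl := hw.lipschitz hh hη hv
  refine ⟨w, fun x => bet η v x (w x), ⟨hwl, hout⟩, C5_bet_cont hη hv.1 hwl.continuous,
    fun x => (bet_spec hv.1 hη x (w x)).symm, fun φ hφ => ?_⟩
  obtain ⟨K, hK⟩ := hφ.1
  set Q : ℝ := (1 / h) * ∫ x, φ x ^ 2 / η with hQ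
  have hQ0 : 0 ≤ Q := mul_nonneg (by positivity) (integral_nonneg fun x => by positivity)
  refine le_of_forall_pos_le_add fun ε hε => ?_
  have hK0 : (0 : ℝ) ≤ K := K.2
  set s : ℝ := min (1 / (K + 1)) (ε / (Q + 1)) with hs
  have hs0 : 0 < s := lt_min (by positivity) (by positivity)
  have hs1 : s * (K + 1) ≤ 1 := by
    have := min_le_left (1 / ((K : ℝ) + 1)) (ε / (Q + 1))
    rwa [le_div_iff₀ (by positivity)] at this
  have hs2 : s * (Q + 1) ≤ ε := by
    have := min_le_right (1 / ((K : ℝ) + 1)) (ε / (Q + 1))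
    rwa [le_div_iff₀ (by positivity)] at this
  have key := C5_el_approx hh hη hv hw hφ hK hs0 (by nlinarith) (by nlinarith)
  rw [← hQ] at key
  nlinarith

theorem traj_exists (hN : 0 < N) (hh : 0 < h) (hv : Data L R c v) :
    ∃ V r : ℕ → Sp N → ℝ, V 0 = v ∧ Traj h L R c V r := by
  have H : ∀ u : {u : Sp N → ℝ // Data L R c u},
      ∃ (u' : {u : Sp N → ℝ // Data L R c u}) (r : Sp N → ℝ), Step h h u.1 u'.1 r := by
    intro u
    obtain ⟨w, r, h1, h2⟩ := step_exists hN hh hh u.2
    exact ⟨⟨w, h1⟩, r, h2⟩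
  choose F ρ hF using H
  refine ⟨fun k => (F^[k] ⟨v, hv⟩).1, fun k => ρ (F^[k] ⟨v, hv⟩), rfl,
    fun k => (F^[k] ⟨v, hv⟩).2, fun k => ?_⟩
  have := hF (F^[k] ⟨v, hv⟩)
  rw [← Function.iterate_succ_apply' F k] at this
  exact this

end

end Pool.Agent.MCF5
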