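import Pool.Agent.Lib.MP_5aed36_gt.C2
import Pool.Agent.Lib.MP_5aed36_gt.C6

open MeasureTheory Set Filter Topology Metric
open scoped ENNReal NNReal RealInnerProductSpace

namespace Pool.Agent.MCF5

variable {N : ℕ}

section
variable {h c R a b B lam : ℝ} {L : ℝ≥0} {V ρ : ℕ → Sp N → ℝ} {κ : Sp N → ℝ}

theorem C7_integrable (hh : 0 < h) (hT : Traj h L R c V ρ) (k : ℕ) : Integrable (ρ k) :=
  Step.integrable hh (hT.data k) (hT.data (k + 1)) (hT.step k)

theorem Traj.l1 (hh : 0 < h) (hT : Traj h L R c V ρ) (hel : EL (V 0) κ) (hκ : Integrable κ)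
    (hB : ∫ x, |κ x| ≤ B) (k : ℕ) : ∫ x, |ρ k x / h| ≤ B := by
  induction k with
  | zero => exact (Step.l1 hh hh (hT.data 0) (hT.data 1) (hT.step 0) hel hκ).trans hB
  | succ k ih =>
    exact (Step.l1 hh hh (hT.data (k + 1)) (hT.data (k + 1 + 1)) (hT.step (k + 1)) (hT.step k).el
      ((C7_integrable hh hT k).div_const h)).trans ih

theorem Traj.tv_cl_le (hh : 0 < h) (hT : Traj h L R c V ρ) (hel : EL (V 0) κ)
    (hκ : Integrable κ) (hB : ∫ x, |κ x| ≤ B) (hc : c ≤ a) (hab : a ≤ b) (k : ℕ) :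
    tv (fun x => cl a b (V k x)) ≤ B * (b - a) := by
  have hba : 0 ≤ b - a := sub_nonneg.2 hab
  cases k with
  | zero =>
    exact (EL.tv_cl_le (hT.data 0).lipC hel hκ hab hc).trans
      (mul_le_mul_of_nonneg_right hB hba)
  | succ k =>
    exact (EL.tv_cl_le (hT.data (k + 1)).lipC (hT.step k).el
      ((C7_integrable hh hT k).div_const h) hab hc).trans
      (mul_le_mul_of_nonneg_right (Traj.l1 hh hT hel hκ hB k) hba)

theorem C7_lipC (hT : Traj h L R c V ρ) (a b : ℝ) (k : ℕ) :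
    LipC (fun x => cl a b (V k x)) (cl a b c) :=
  LipC.comp (lipschitz_cl a b) (hT.data k).lipC

theorem C7_int_diff (hT : Traj h L R c V ρ) (a b : ℝ) (k j : ℕ) :
    Integrable fun x => |cl a b (V k x) - cl a b (V j x)| := by
  have h1 := ((C7_lipC hT a b k).integrable_sub.sub (C7_lipC hT a b j).integrable_sub).abs
  refine h1.congr (Eventually.of_forall fun x => ?_)
  simp only [Pi.sub_apply]
  congr 1
  ring

theorem C7_int_prod (hh : 0 < h) (hT : Traj h L R c V ρ) (hab : a ≤ b) (k : ℕ) :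
    Integrable fun x => |ρ k x| * |cl a b (V (k + 1) x) - cl a b (V k x)| := by
  refine Integrable.mul_bdd (c := b - a) (C7_integrable hh hT k).abs
    (C7_int_diff hT a b (k + 1) k).aestronglyMeasurable (Eventually.of_forall fun x => ?_)
  rw [Real.norm_eq_abs, abs_abs, abs_le]
  have h1 := cl_mem hab (V (k + 1) x)
  have h2 := cl_mem hab (V k x)
  constructor <;> linarith [h1.1, h1.2, h2.1, h2.2]

/-- The energy inequality of one step. -/
theorem C7_energy (hh : 0 < h) (hT : Traj h L R c V ρ) (hab : a ≤ b) (k : ℕ) :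
    tv (fun x => cl a b (V (k + 1) x)) +
      (∫ x, |ρ k x| * |cl a b (V (k + 1) x) - cl a b (V k x)|) / h ≤
      tv (fun x => cl a b (V k x)) := by
  have h1 := EL.window (hT.data (k + 1)).lipC (hT.step k).el hab (C7_lipC hT a b k)
  have h2 : ∀ x, ρ k x / h * (cl a b (V k x) - cl a b (V (k + 1) x)) =
      -(|ρ k x| * |cl a b (V (k + 1) x) - cl a b (V k x)| / h) := by
    intro x
    have hp := Step.pos_iff hh (hT.data k).1 (hT.step k) x
    rcases lt_trichotomy (ρ k x) 0 with hr | hr | hr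
    · have := monotone_cl a b (hp.2.1 hr).le
      rw [abs_of_neg hr, abs_of_nonpos (sub_nonpos.2 this)]
      ring
    · rw [hr]
      simp
    · have := monotone_cl a b (hp.1.1 hr).le
      rw [abs_of_pos hr, abs_of_nonneg (sub_nonneg.2 this)]
      ring
  simp only [h2] at h1
  rw [integral_neg, integral_div] at h1
  linarith

/-- The pointwise splitting according to the size of the displacement. -/
theorem C7_pointwise (hh : 0 < h) (hT : Traj h L R c V ρ) (a b : ℝ) (k : ℕ) {σ : ℝ} (hσ : 0 < σ)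
    (x : Sp N) :
    |cl a b (V (k + 1) x) - cl a b (V k x)| ≤
      h * h * |ρ k x / h| + (mm (fun y => cl a b (V k y)) x σ - cl a b (V k x)) +
        (mm (fun y => -cl a b (V k y)) x σ - -cl a b (V k x)) +
        |ρ k x| * |cl a b (V (k + 1) x) - cl a b (V k x)| / σ := by
  obtain ⟨⟨K, hK⟩, -⟩ := C7_lipC hT a b k
  have hmono := mm_mono hK x
  have h0 := mm_zero (fun y => cl a b (V k y)) x
  have hneg := mm_neg (fun y => cl a b (V k y)) x (-σ)
  rw [neg_neg] at hneg
  have hup : cl a b (V k x) ≤ mm (fun y => cl a b (V k y)) x σ := h0 ▸ hmono hσ.le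
  have hdown : mm (fun y => cl a b (V k y)) x (-σ) ≤ cl a b (V k x) :=
    h0 ▸ hmono (neg_nonpos.2 hσ.le)
  have habs : h * h * |ρ k x / h| = h * |ρ k x| := by
    rw [abs_div, abs_of_pos hh]
    field_simp
  rw [habs, hneg]
  have hr0 : 0 ≤ h * |ρ k x| := mul_nonneg hh.le (abs_nonneg _)
  rcases le_total σ |ρ k x| with hr | hr
  · have : |cl a b (V (k + 1) x) - cl a b (V k x)| ≤
        |ρ k x| * |cl a b (V (k + 1) x) - cl a b (V k x)| / σ := by
      rw [le_div_iff₀ hσ, mul_comm]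
      exact mul_le_mul_of_nonneg_right hr (abs_nonneg _)
    linarith
  · have hq : 0 ≤ |ρ k x| * |cl a b (V (k + 1) x) - cl a b (V k x)| / σ := by positivity
    have hcomp := mm_comp (hT.data k).1 (monotone_cl a b) (lipschitz_cl a b).continuous x (ρ k x)
    have hle := abs_le.1 hr
    have h1 := hmono hle.1
    have h2 := hmono hle.2
    have h3 : |cl a b (V (k + 1) x) - cl a b (mm (V k) x (ρ k x))| ≤ h * |ρ k x| := by
      have := (lipschitz_cl a b).dist_le_mul (V (k + 1) x) (mm (V k) x (ρ k x))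
      rw [Real.dist_eq, Real.dist_eq, (hT.step k).eq x, add_sub_cancel_left, abs_mul,
        abs_of_pos hh, NNReal.coe_one, one_mul, ← (hT.step k).eq x] at this
      exact this
    rw [hcomp] at h1 h2
    have h4 := abs_le.1 h3
    rw [abs_le]
    constructor <;> linarith [h4.1, h4.2]

theorem C7_step {C : ℝ} (hC0 : 0 ≤ C)
    (hC : ∀ (f : Sp N → ℝ) (c ρ : ℝ), LipC f c → 0 ≤ ρ →
      Integrable (fun x => mm f x ρ - f x) ∧ ∫ x, (mm f x ρ - f x) ≤ C * ρ * tv f)
    (hh : 0 < h) (hT : Traj h L R c V ρ) (hel : EL (V 0) κ) (hκ : Integrable κ)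
    (hB : ∫ x, |κ x| ≤ B) (hc : c ≤ a) (hab : a ≤ b) (hlam : 0 < lam) (k : ℕ) :
    lam * (∫ x, |cl a b (V (k + 1) x) - cl a b (V k x)|) + tv (fun x => cl a b (V (k + 1) x)) ≤
      h * (2 * C * lam ^ 2 * (B * (b - a)) + lam * h * B) + tv (fun x => cl a b (V k x)) := by
  have hσ : 0 < lam * h := mul_pos hlam hh
  obtain ⟨i1, e1⟩ := hC _ _ (lam * h) (C7_lipC hT a b k) hσ.le
  obtain ⟨i2, e2⟩ := hC _ _ (lam * h) (C7_lipC hT a b k).neg hσ.le
  rw [tv_neg] at e2
  have i0 : Integrable fun x => h * h * |ρ k x / h| :=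
    ((C7_integrable hh hT k).div_const h).abs.const_mul _
  have i3 := (C7_int_prod hh hT hab k).div_const (lam * h)
  have i01 : Integrable fun x => h * h * |ρ k x / h| +
      (mm (fun y => cl a b (V k y)) x (lam * h) - cl a b (V k x)) := i0.add i1
  have i012 : Integrable fun x => h * h * |ρ k x / h| +
      (mm (fun y => cl a b (V k y)) x (lam * h) - cl a b (V k x)) +
      (mm (fun y => -cl a b (V k y)) x (lam * h) - -cl a b (V k x)) := i01.add i2
  have hint := integral_mono (C7_int_diff hT a b (k + 1) k) (i012.add i3)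
    (fun x => C7_pointwise hh hT a b k hσ x)
  simp only [Pi.add_apply] at hint
  rw [integral_add i012 i3, integral_add i01 i2, integral_add i0 i1,
    integral_const_mul, integral_div] at hint
  have hl1 := Traj.l1 hh hT hel hκ hB k
  have htv := Traj.tv_cl_le hh hT hel hκ hB hc hab k
  have hen := C7_energy hh hT hab k
  set I := ∫ x, |ρ k x| * |cl a b (V (k + 1) x) - cl a b (V k x)|
  have hI : lam * (I / (lam * h)) = I / h := by field_simp
  have h1 : h * h * ∫ x, |ρ k x / h| ≤ h * h * B :=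
    mul_le_mul_of_nonneg_left hl1 (mul_nonneg hh.le hh.le)
  have h2 : C * (lam * h) * tv (fun x => cl a b (V k x)) ≤ C * (lam * h) * (B * (b - a)) :=
    mul_le_mul_of_nonneg_left htv (mul_nonneg hC0 hσ.le)
  have h3 : ∫ x, |cl a b (V (k + 1) x) - cl a b (V k x)| ≤
      h * h * B + 2 * (C * (lam * h) * (B * (b - a))) + I / (lam * h) := by linarith
  have h4 := mul_le_mul_of_nonneg_left h3 hlam.le
  rw [mul_add, hI] at h4
  nlinarith [h4, hen]

/-- One step: `EL.window` with `ψ = Φ v` gives `tv Φ w + (1 / h) ∫ |r| |Φ w - Φ v| ≤ tv Φ v`.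
Pointwise `|Φ w - Φ v| ≤ η |r| + (mm (Φ v) x σ - Φ v) + (Φ v - mm (Φ v) x (-σ)) +
|r| |Φ w - Φ v| / σ` with `σ = lam h` (`mm_comp`, `mm_mono`, `mm_neg`); integrate with
`exists_markov` for `Φ v` and `-Φ v`. Then sum over the steps. -/
theorem exists_diss : ∃ C₀ : ℝ, 0 ≤ C₀ ∧ ∀ (h c R a b B lam : ℝ) (L : ℝ≥0)
    (V ρ : ℕ → Sp N → ℝ) (κ : Sp N → ℝ), 0 < h → Traj h L R c V ρ → EL (V 0) κ → Integrable κ →
    ∫ x, |κ x| ≤ B → c ≤ a → a ≤ b → 0 < lam → ∀ j k : ℕ, j ≤ k →
      lam * (∫ x, |cl a b (V k x) - cl a b (V j x)|) + tv (fun x => cl a b (V k x)) ≤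
        ((k : ℝ) - j) * h * (C₀ * lam ^ 2 * (B * (b - a)) + lam * h * B) +
          tv (fun x => cl a b (V j x)) := by
  obtain ⟨C, hC0, hC⟩ := exists_markov (N := N)
  refine ⟨2 * C, by positivity, ?_⟩
  intro h c R a b B lam L V ρ κ hh hT hel hκ hB hc hab hlam j k hjk
  induction k, hjk using Nat.le_induction with
  | base => simp
  | succ k _ ih =>
    have hs := C7_step hC0 hC hh hT hel hκ hB hc hab hlam k
    have htri : ∫ x, |cl a b (V (k + 1) x) - cl a b (V j x)| ≤
        (∫ x, |cl a b (V (k + 1) x) - cl a b (V k x)|) +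
          ∫ x, |cl a b (V k x) - cl a b (V j x)| := by
      rw [← integral_add (C7_int_diff hT a b (k + 1) k) (C7_int_diff hT a b k j)]
      exact integral_mono (C7_int_diff hT a b (k + 1) j)
        ((C7_int_diff hT a b (k + 1) k).add (C7_int_diff hT a b k j)) fun x => abs_sub_le _ _ _
    have h4 := mul_le_mul_of_nonneg_left htri hlam.le
    push_cast
    nlinarith [h4, hs, ih]

end

end Pool.Agent.MCF5
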