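import Pool.Agent.Lib.MP_5aed36_gt.A2

open MeasureTheory Set Filter Topology Metric
open scoped ENNReal NNReal RealInnerProductSpace

namespace Pool.Agent.MCF5

variable {N : ℕ}

private theorem C7b_supp {F : Type*} [Zero F] {f : Sp N → F} {R : ℝ}
    (h : ∀ x, R ≤ ‖x‖ → f x = 0) : HasCompactSupport f := by
  refine HasCompactSupport.intro (isCompact_closedBall (0 : Sp N) R) fun x hx => h x ?_
  rw [mem_closedBall_zero_iff, not_le] at hx
  exact hx.le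

private theorem C7b_fderiv_out {g : Sp N → ℝ} {R c : ℝ} (hout : ∀ x, R ≤ ‖x‖ → g x = c)
    (x : Sp N) (hx : R + 1 ≤ ‖x‖) : fderiv ℝ g x = 0 := by
  have h : g =ᶠ[𝓝 x] fun _ => c := by
    have ho : IsOpen {y : Sp N | R < ‖y‖} := isOpen_lt continuous_const continuous_norm
    filter_upwards [ho.mem_nhds (show R < ‖x‖ by linarith)] with y hy
    exact hout y (le_of_lt hy)
  rw [h.fderiv_eq]
  exact fderiv_const_apply c

private theorem C7b_lip {g : Sp N → ℝ} {R c : ℝ} (hg : ContDiff ℝ 2 g)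
    (hout : ∀ x, R ≤ ‖x‖ → g x = c) : ∃ K : ℝ≥0, LipschitzWith K g := by
  have h1 : HasCompactSupport fun x => g x - c :=
    C7b_supp (R := R) fun x hx => by rw [hout x hx, sub_self]
  have h2 : ContDiff ℝ 2 fun x => g x - c := hg.sub contDiff_const
  obtain ⟨K, hK⟩ := h2.lipschitzWith_of_hasCompactSupport h1 (by norm_num)
  refine ⟨K, LipschitzWith.of_dist_le_mul fun x y => ?_⟩
  have := hK.dist_le_mul x y
  rwa [dist_sub_right] at this

theorem exists_data {g : Sp N → ℝ} {R c a₁ a₂ : ℝ} (hg : ContDiff ℝ 2 g)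
    (hout : ∀ x, R ≤ ‖x‖ → g x = c) (hc : c < a₁) (ha : a₁ < a₂) :
    ∃ L : ℝ≥0, Data L R a₁ (fun x => cl a₁ a₂ (g x)) := by
  obtain ⟨K, hK⟩ := C7b_lip hg hout
  refine ⟨1 * K, (lipschitz_cl a₁ a₂).comp hK, fun x hx => ?_⟩
  show cl a₁ a₂ (g x) = a₁
  rw [hout x hx]
  exact cl_of_le ha.le hc.le

/-- The gradient as a vector. -/
private noncomputable def C7b_vec (p : Sp N →L[ℝ] ℝ) : Sp N :=
  (InnerProductSpace.toDual ℝ (Sp N)).symm p

private theorem C7b_vec_norm (p : Sp N →L[ℝ] ℝ) : ‖C7b_vec p‖ = ‖p‖ :=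
  (InnerProductSpace.toDual ℝ (Sp N)).symm.norm_map p

private theorem C7b_vec_inner (p : Sp N →L[ℝ] ℝ) (y : Sp N) : ⟪C7b_vec p, y⟫ = p y :=
  InnerProductSpace.toDual_symm_apply

private theorem C7b_vec_self (p : Sp N →L[ℝ] ℝ) : p (C7b_vec p) = ‖p‖ ^ 2 := by
  rw [← C7b_vec_inner, real_inner_self_eq_norm_sq, C7b_vec_norm]

private theorem C7b_vec_contDiff : ContDiff ℝ 1 (C7b_vec (N := N)) := by
  have h : IsBoundedLinearMap ℝ (C7b_vec (N := N)) := by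
    refine ⟨⟨fun p q => ?_, fun a p => ?_⟩, 1, one_pos, fun p => ?_⟩
    · exact map_add (InnerProductSpace.toDual ℝ (Sp N)).symm p q
    · simp [C7b_vec]
    · rw [C7b_vec_norm, one_mul]
  exact h.contDiff

private theorem C7b_field {g : Sp N → ℝ} {R c a₁ a₂ : ℝ} (hg : ContDiff ℝ 2 g)
    (hout : ∀ x, R ≤ ‖x‖ → g x = c) (hc : c < a₁)
    (hreg : ∀ x, a₁ ≤ g x → g x ≤ a₂ → fderiv ℝ g x ≠ 0) :
    ∃ Y : Sp N → Sp N, ContDiff ℝ 1 Y ∧ HasCompactSupport Y ∧ (∀ x, ‖Y x‖ ≤ 1) ∧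
      ∀ x, a₁ ≤ g x → g x ≤ a₂ → fderiv ℝ g x (Y x) = -‖fderiv ℝ g x‖ := by
  have hD : ContDiff ℝ 1 (fderiv ℝ g) := hg.fderiv_right (by norm_num)
  have hKc : IsCompact (g ⁻¹' Icc a₁ a₂) := by
    refine (isCompact_closedBall (0 : Sp N) R).of_isClosed_subset
      (isClosed_Icc.preimage hg.continuous) fun x hx => ?_
    rw [mem_closedBall_zero_iff]
    by_contra h
    have h1 := hout x (le_of_lt (not_le.1 h))
    have h2 : a₁ ≤ g x := hx.1
    linarith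
  obtain ⟨m, hm, hmK⟩ : ∃ m : ℝ, 0 < m ∧ ∀ x ∈ g ⁻¹' Icc a₁ a₂, m ≤ ‖fderiv ℝ g x‖ ^ 2 := by
    rcases (g ⁻¹' Icc a₁ a₂).eq_empty_or_nonempty with he | hne
    · exact ⟨1, one_pos, fun x hx => by rw [he] at hx; exact hx.elim⟩
    · obtain ⟨x₀, hx₀, hmin⟩ := hKc.exists_isMinOn hne
        (f := fun x => ‖fderiv ℝ g x‖ ^ 2) (hD.continuous.norm.pow 2).continuousOn
      refine ⟨‖fderiv ℝ g x₀‖ ^ 2, ?_, fun x hx => hmin hx⟩
      exact pow_pos (norm_pos_iff.2 (hreg x₀ hx₀.1 hx₀.2)) 2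
  set G : Sp N → Sp N := fun x => C7b_vec (fderiv ℝ g x) with hG
  have hGc : ContDiff ℝ 1 G := C7b_vec_contDiff.comp hD
  have hGn : ∀ x, ‖G x‖ = ‖fderiv ℝ g x‖ := fun x => C7b_vec_norm _
  set σ : Sp N → ℝ := fun x => ‖G x‖ ^ 2 + expNegInvGlue (m - ‖G x‖ ^ 2) with hσ
  have hσc : ContDiff ℝ 1 σ := by
    have h1 : ContDiff ℝ 1 fun x => ‖G x‖ ^ 2 := hGc.norm_sq ℝ
    exact h1.add (expNegInvGlue.contDiff.comp (contDiff_const.sub h1))
  have hσge : ∀ x, ‖G x‖ ^ 2 ≤ σ x := fun x =>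
    le_add_of_nonneg_right (expNegInvGlue.nonneg _)
  have hσpos : ∀ x, 0 < σ x := fun x => by
    rcases (sq_nonneg ‖G x‖).eq_or_lt with h | h
    · have h2 : 0 < expNegInvGlue (m - ‖G x‖ ^ 2) :=
        expNegInvGlue.pos_of_pos (by rw [← h]; linarith)
      have h3 := sq_nonneg ‖G x‖
      show 0 < ‖G x‖ ^ 2 + expNegInvGlue (m - ‖G x‖ ^ 2)
      linarith
    · exact h.trans_le (hσge x)
  have hsq : ∀ x, 0 < √(σ x) := fun x => Real.sqrt_pos.2 (hσpos x)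
  refine ⟨fun x => (-(√(σ x))⁻¹) • G x, ?_, ?_, fun x => ?_, fun x h1 h2 => ?_⟩
  · exact (((hσc.sqrt fun x => (hσpos x).ne').inv fun x => (hsq x).ne').neg).smul hGc
  · refine C7b_supp (R := R + 1) fun x hx => ?_
    have h0 : G x = 0 := by
      rw [← norm_eq_zero, hGn, C7b_fderiv_out hout x hx, norm_zero]
    show (-(√(σ x))⁻¹) • G x = 0
    rw [h0, smul_zero]
  · show ‖(-(√(σ x))⁻¹) • G x‖ ≤ 1
    rw [norm_smul, norm_neg, norm_inv, Real.norm_eq_abs, abs_of_pos (hsq x),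
      inv_mul_le_iff₀ (hsq x), mul_one]
    exact Real.le_sqrt_of_sq_le (hσge x)
  · have h3 : m ≤ ‖G x‖ ^ 2 := by rw [hGn]; exact hmK x ⟨h1, h2⟩
    have h4 : σ x = ‖fderiv ℝ g x‖ ^ 2 := by
      show ‖G x‖ ^ 2 + expNegInvGlue (m - ‖G x‖ ^ 2) = _
      rw [expNegInvGlue.zero_of_nonpos (by linarith), add_zero, hGn]
    have h5 : ‖fderiv ℝ g x‖ ≠ 0 := norm_ne_zero_iff.2 (hreg x h1 h2)
    show fderiv ℝ g x ((-(√(σ x))⁻¹) • C7b_vec (fderiv ℝ g x)) = _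
    rw [map_smul, C7b_vec_self, h4, Real.sqrt_sq (norm_nonneg _), smul_eq_mul]
    field_simp

/-- The field `Z = ζ ∇g / ‖∇g‖` with a smooth cutoff `ζ` equal to one on the compact set
`g ⁻¹' Icc a₁ a₂` and supported in the open set `∇g ≠ 0`; `κ = dvg Z`; `ibp`, `ae_fderiv_cl`. -/
theorem exists_kappa {g : Sp N → ℝ} {R c a₁ a₂ : ℝ} (hg : ContDiff ℝ 2 g)
    (hout : ∀ x, R ≤ ‖x‖ → g x = c) (hc : c < a₁) (ha : a₁ < a₂)
    (hreg : ∀ x, a₁ ≤ g x → g x ≤ a₂ → fderiv ℝ g x ≠ 0) :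
    ∃ κ : Sp N → ℝ, Integrable κ ∧ EL (fun x => cl a₁ a₂ (g x)) κ := by
  obtain ⟨Y, hY1, hYc, hYn, hYg⟩ := C7b_field hg hout hc hreg
  obtain ⟨KY, hKY⟩ := hY1.lipschitzWith_of_hasCompactSupport hYc (by norm_num)
  obtain ⟨K, hK⟩ := C7b_lip hg hout
  obtain ⟨L, hL⟩ := exists_data hg hout hc ha
  have hw : LipC (fun x => cl a₁ a₂ (g x)) a₁ := hL.lipC
  have hw0 : LipC (fun x => cl a₁ a₂ (g x) - a₁) 0 := by
    have := hw.sub (LipC.const a₁)
    rwa [sub_self] at this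
  have hint : ∀ f : Sp N → ℝ, Continuous f → Integrable fun x => f x * dvg Y x := fun f hf =>
    (hf.mul (continuous_dvg hY1)).integrable_of_hasCompactSupport
      (hasCompactSupport_dvg hYc).mul_left
  have h1 : ∫ x, (cl a₁ a₂ (g x) - a₁) * dvg Y x = tv fun x => cl a₁ a₂ (g x) := by
    have h2 := ibp hw0 hKY
    have h3 : ∫ x, fderiv ℝ (fun x => cl a₁ a₂ (g x) - a₁) x (Y x) =
        ∫ x, -‖fderiv ℝ (fun x => cl a₁ a₂ (g x)) x‖ := by
      refine integral_congr_ae ?_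
      filter_upwards [ae_fderiv_cl hK ha.le] with x hx
      rw [fderiv_sub_const, hx]
      split_ifs with h
      · exact hYg x h.1.le h.2.le
      · simp
    rw [h3, integral_neg] at h2
    unfold tv
    linarith
  refine ⟨fun x => -dvg Y x, (integrable_dvg hY1 hYc).neg, fun φ hφ => ?_⟩
  have h4 := pair_le_tv (hw.add hφ) hKY hYn
  have h5 : ∫ x, (cl a₁ a₂ (g x) + φ x - (a₁ + 0)) * dvg Y x =
      (∫ x, (cl a₁ a₂ (g x) - a₁) * dvg Y x) + ∫ x, φ x * dvg Y x := by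
    rw [← integral_add (hint _ hw0.continuous) (hint _ hφ.continuous)]
    refine integral_congr_ae (Eventually.of_forall fun x => ?_)
    ring
  have h6 : ∫ x, -dvg Y x * φ x = -∫ x, φ x * dvg Y x := by
    rw [← integral_neg]
    refine integral_congr_ae (Eventually.of_forall fun x => ?_)
    ring
  rw [h5, h1] at h4
  show tv (fun x => cl a₁ a₂ (g x)) ≤
    tv (fun x => cl a₁ a₂ (g x) + φ x) + ∫ x, -dvg Y x * φ x
  rw [h6]
  linarith

private theorem C7b_nc {g : Sp N → ℝ} {R c : ℝ} (hg : ContDiff ℝ 2 g)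
    (hout : ∀ x, R ≤ ‖x‖ → g x = c) : ∃ c' : ℝ, 0 < c' ∧ ∀ c'', c' ≤ c'' → NC c'' g := by
  have hD : ContDiff ℝ 1 (fderiv ℝ g) := hg.fderiv_right (by norm_num)
  have hDc : HasCompactSupport (fderiv ℝ g) :=
    C7b_supp (R := R + 1) (C7b_fderiv_out hout)
  obtain ⟨K, hK⟩ := hD.lipschitzWith_of_hasCompactSupport hDc (by norm_num)
  have hK0 : (0 : ℝ) ≤ K := K.2
  refine ⟨K + 1, by linarith, fun c'' hc'' x y θ h0 h1 => ?_⟩
  set d : Sp N := y - x with hd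
  have hdiff : Differentiable ℝ g := hg.differentiable (by norm_num)
  have hder : ∀ t : ℝ, HasDerivAt (fun t : ℝ => g (x + t • d) + K * ‖d‖ ^ 2 / 2 * t ^ 2)
      (fderiv ℝ g (x + t • d) d + K * ‖d‖ ^ 2 * t) t := fun t => by
    have e1 : HasDerivAt (fun t : ℝ => x + t • d) d t := by
      simpa using ((hasDerivAt_id t).smul_const d).const_add x
    have e2 : HasDerivAt (fun t : ℝ => g (x + t • d)) (fderiv ℝ g (x + t • d) d) t :=
      (hdiff (x + t • d)).hasFDerivAt.comp_hasDerivAt t e1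
    have e3 : HasDerivAt (fun t : ℝ => K * ‖d‖ ^ 2 / 2 * t ^ 2) (K * ‖d‖ ^ 2 * t) t := by
      have := (hasDerivAt_pow 2 t).const_mul ((K : ℝ) * ‖d‖ ^ 2 / 2)
      refine this.congr_deriv ?_
      norm_num
      ring
    exact e2.add e3
  have hmono : Monotone (deriv fun t : ℝ => g (x + t • d) + K * ‖d‖ ^ 2 / 2 * t ^ 2) := by
    intro s t hst
    rw [(hder s).deriv, (hder t).deriv]
    have e1 : ‖fderiv ℝ g (x + s • d) - fderiv ℝ g (x + t • d)‖ ≤ K * ((t - s) * ‖d‖) := by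
      have := hK.dist_le_mul (x + s • d) (x + t • d)
      rw [dist_eq_norm, dist_eq_norm] at this
      have e : x + s • d - (x + t • d) = (s - t) • d := by rw [sub_smul]; abel
      rw [e, norm_smul, Real.norm_eq_abs, abs_sub_comm, abs_of_nonneg (by linarith)] at this
      exact this
    have e2 : (fderiv ℝ g (x + s • d) - fderiv ℝ g (x + t • d)) d ≤ K * ((t - s) * ‖d‖) * ‖d‖ :=
      (le_abs_self _).trans
        (((fderiv ℝ g (x + s • d) - fderiv ℝ g (x + t • d)).le_opNorm d).trans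
          (mul_le_mul_of_nonneg_right e1 (norm_nonneg d)))
    rw [sub_apply] at e2
    nlinarith [e2]
  have hconv := hmono.convexOn_univ_of_deriv fun t => (hder t).differentiableAt
  have h2 := hconv.2 (mem_univ (0 : ℝ)) (mem_univ (1 : ℝ)) (show 0 ≤ 1 - θ by linarith) h0
    (by ring)
  simp only [smul_eq_mul, mul_zero, mul_one, zero_add, zero_smul, add_zero, one_smul,
    one_pow] at h2
  have hy : x + d = y := by rw [hd]; abel
  rw [hy] at h2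
  have h3 : g x ≤ max (g x) (g y) := le_max_left _ _
  have h4 : g y ≤ max (g x) (g y) := le_max_right _ _
  have h5 : 0 ≤ θ * (1 - θ) * ‖d‖ ^ 2 :=
    mul_nonneg (mul_nonneg h0 (by linarith)) (sq_nonneg _)
  have h6 : (1 - θ) * g x ≤ (1 - θ) * max (g x) (g y) :=
    mul_le_mul_of_nonneg_left h3 (by linarith)
  have h7 : θ * g y ≤ θ * max (g x) (g y) := mul_le_mul_of_nonneg_left h4 h0
  have h8 : (K : ℝ) / 2 * (θ * (1 - θ) * ‖d‖ ^ 2) ≤ c'' * (θ * (1 - θ) * ‖d‖ ^ 2) :=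
    mul_le_mul_of_nonneg_right (by linarith) h5
  nlinarith [h2, h6, h7, h8]

/-- A bound on the second derivative gives `g (x + θ d) ≤ (1 - θ) g x + θ g y + c θ (1 - θ) ‖d‖²`. -/
theorem exists_nc {g : Sp N → ℝ} {R c : ℝ} (hg : ContDiff ℝ 2 g)
    (hout : ∀ x, R ≤ ‖x‖ → g x = c) :
    ∃ c' : ℝ, 0 < c' ∧ NC c' g ∧ NC c' (fun x => -g x) := by
  obtain ⟨c₁, h₁, H₁⟩ := C7b_nc hg hout
  obtain ⟨c₂, _, H₂⟩ := C7b_nc (g := fun x => -g x) (R := R) (c := -c) hg.neg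
    fun x hx => by rw [hout x hx]
  exact ⟨max c₁ c₂, h₁.trans_le (le_max_left _ _), H₁ _ (le_max_left _ _),
    H₂ _ (le_max_right _ _)⟩

theorem NC.cl {v : Sp N → ℝ} {c a b : ℝ} (hc : 0 ≤ c) (h : NC c v) :
    NC c (fun x => cl a b (v x)) := by
  intro x y θ h0 h1
  have he : 0 ≤ c * (θ * (1 - θ)) * ‖y - x‖ ^ 2 :=
    mul_nonneg (mul_nonneg hc (mul_nonneg h0 (by linarith))) (sq_nonneg _)
  have h2 := monotone_cl a b (h x y θ h0 h1)
  have h3 := (lipschitz_cl a b).dist_le_mul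
    (max (v x) (v y) + c * (θ * (1 - θ)) * ‖y - x‖ ^ 2) (max (v x) (v y))
  rw [Real.dist_eq, Real.dist_eq, add_sub_cancel_left, abs_of_nonneg he, NNReal.coe_one,
    one_mul] at h3
  have h4 := (le_abs_self _).trans h3
  rw [(monotone_cl a b).map_max] at h4
  show MCF5.cl a b (v (x + θ • (y - x))) ≤
    max (MCF5.cl a b (v x)) (MCF5.cl a b (v y)) + c * (θ * (1 - θ)) * ‖y - x‖ ^ 2
  linarith

end Pool.Agent.MCF5
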