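import Pool.Agent.Lib.MP_5aed36_gt.A4
import Pool.Agent.Lib.MP_5aed36_gt.C6

open MeasureTheory Set Filter Topology Metric
open scoped ENNReal NNReal RealInnerProductSpace

namespace Pool.Agent.MCF5

variable {N : ℕ}

/-- The cut off parabola. -/
noncomputable def C8_G (B M T s : ℝ) : ℝ := B + M * (cl 0 T s) ^ 2 / 2

theorem C8_G_mono {B M T : ℝ} (hM : 0 ≤ M) (hT : 0 ≤ T) : Monotone (C8_G B M T) := by
  intro s t hst
  unfold C8_G
  have h1 := (cl_mem hT s).1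
  have h2 := monotone_cl 0 T hst
  have h3 : (cl 0 T s) ^ 2 ≤ (cl 0 T t) ^ 2 := pow_le_pow_left₀ h1 h2 2
  have h4 := mul_le_mul_of_nonneg_left h3 hM
  linarith

theorem C8_G_lip {B M T : ℝ} (hM : 0 ≤ M) (hT : 0 ≤ T) :
    LipschitzWith (Real.toNNReal (M * T)) (C8_G B M T) := by
  apply LipschitzWith.of_dist_le'
  intro s t
  have h1 := cl_mem hT s
  have h2 := cl_mem hT t
  have h3 : dist (cl 0 T s) (cl 0 T t) ≤ dist s t := by
    simpa using (lipschitz_cl 0 T).dist_le_mul s t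
  rw [Real.dist_eq] at h3 ⊢
  have h4 : C8_G B M T s - C8_G B M T t =
      (M * ((cl 0 T s + cl 0 T t) / 2)) * (cl 0 T s - cl 0 T t) := by
    unfold C8_G; ring
  have h5 : 0 ≤ M * ((cl 0 T s + cl 0 T t) / 2) := by
    apply mul_nonneg hM; linarith [h1.1, h2.1]
  have h6 : M * ((cl 0 T s + cl 0 T t) / 2) ≤ M * T := by
    apply mul_le_mul_of_nonneg_left _ hM; linarith [h1.2, h2.2]
  rw [h4, abs_mul, abs_of_nonneg h5]
  exact mul_le_mul h6 h3 (abs_nonneg _) (mul_nonneg hM hT)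

theorem C8_G_of_mem {B M T s : ℝ} (h0 : 0 ≤ s) (hT : s ≤ T) :
    C8_G B M T s = B + M * s ^ 2 / 2 := by
  unfold C8_G cl
  rw [min_eq_left hT, max_eq_right h0]

theorem C8_G_of_ge {B M T s : ℝ} (h0 : 0 ≤ T) (hT : T ≤ s) :
    C8_G B M T s = B + M * T ^ 2 / 2 := by
  unfold C8_G cl
  rw [min_eq_right hT, max_eq_right h0]

theorem C8_G_le {B M T s : ℝ} (hM : 0 ≤ M) (hT : 0 ≤ T) (h0 : 0 ≤ s) :
    C8_G B M T s ≤ B + M * s ^ 2 / 2 := by
  rcases le_total s T with h | h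
  · rw [C8_G_of_mem h0 h]
  · rw [C8_G_of_ge hT h]
    have h3 : T ^ 2 ≤ s ^ 2 := pow_le_pow_left₀ hT h 2
    have h4 := mul_le_mul_of_nonneg_left h3 hM
    linarith

theorem C8_max_sq {ρ h : ℝ} (hh : 0 ≤ h) : (max ρ √h) ^ 2 ≤ ρ ^ 2 + h := by
  rcases le_total ρ √h with h1 | h1
  · rw [max_eq_right h1, Real.sq_sqrt hh]; nlinarith [sq_nonneg ρ]
  · rw [max_eq_left h1]; linarith

theorem C8_lip (x₀ : Sp N) {B M T R₀ : ℝ} (hM : 0 ≤ M) (hT : 0 ≤ T) :
    ∃ K : ℝ≥0, LipschitzWith K fun x : Sp N => C8_G B M T (max ‖x - x₀‖ R₀) := by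
  have h1 : LipschitzWith 1 fun x : Sp N => ‖x - x₀‖ := by
    have := LipschitzWith.dist_left x₀
    simpa [dist_eq_norm] using this
  exact ⟨_, (C8_G_lip (B := B) hM hT).comp (h1.max_const R₀)⟩

theorem C8_cont (x₀ : Sp N) {R₀ : ℝ} (hR : 0 < R₀) :
    Continuous fun x : Sp N => (N : ℝ) / max ‖x - x₀‖ R₀ := by
  apply continuous_const.div
  · fun_prop
  · intro x
    exact (lt_of_lt_of_le hR (le_max_right _ _)).ne'

theorem C8_KN_ge : (1 : ℝ) ≤ KN N := by
  unfold KN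
  have : (0 : ℝ) ≤ N := Nat.cast_nonneg N
  nlinarith

theorem C8_disp {ρ h : ℝ} (hh : 0 < h) :
    0 ≤ h * ((N : ℝ) / max ρ √h) ∧ h * ((N : ℝ) / max ρ √h) ≤ N * √h := by
  have hs : 0 < √h := Real.sqrt_pos.2 hh
  have hσ : 0 < max ρ √h := lt_of_lt_of_le hs (le_max_right _ _)
  have hN : (0 : ℝ) ≤ N := Nat.cast_nonneg N
  refine ⟨by positivity, ?_⟩
  have h1 : (N : ℝ) / max ρ √h ≤ N / √h :=
    div_le_div_of_nonneg_left hN hs (le_max_right _ _)
  have h2 : h * ((N : ℝ) / √h) = N * √h := by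
    have h3 : √h * √h = h := Real.mul_self_sqrt hh.le
    field_simp
    nlinarith
  calc h * ((N : ℝ) / max ρ √h) ≤ h * (N / √h) := mul_le_mul_of_nonneg_left h1 hh.le
    _ = N * √h := h2

/-- The pointwise estimate of the displaced barrier. -/
theorem C8_point {h M A : ℝ} {L : ℝ≥0} {v : Sp N → ℝ} (hh : 0 < h) (hM : 0 ≤ M)
    (hv : LipschitzWith L v) (x₀ x : Sp N)
    (hle : ∀ y, ‖y - x‖ ≤ 3 * (N * √h) → v y ≤ A + M * ‖y - x₀‖ ^ 2 / 2) :
    mm v x (h * ((N : ℝ) / max ‖x - x₀‖ √h)) + h * (h * ((N : ℝ) / max ‖x - x₀‖ √h)) ≤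
      A + h * (KN N * M + N * √h) - M * h / 2 + M * (max ‖x - x₀‖ √h) ^ 2 / 2 := by
  obtain ⟨hd0, hd1⟩ := C8_disp (N := N) (ρ := ‖x - x₀‖) hh
  have hs : 0 < √h := Real.sqrt_pos.2 hh
  have hσ : 0 < max ‖x - x₀‖ √h := lt_of_lt_of_le hs (le_max_right _ _)
  have hρσ : ‖x - x₀‖ ≤ max ‖x - x₀‖ √h := le_max_left _ _
  have hσd : max ‖x - x₀‖ √h * (h * ((N : ℝ) / max ‖x - x₀‖ √h)) = h * N := by
    field_simp
  set σ := max ‖x - x₀‖ √h with hσdef
  set d := h * ((N : ℝ) / σ) with hddef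
  have hN : (0 : ℝ) ≤ N := Nat.cast_nonneg N
  have hd2 : d ^ 2 ≤ N ^ 2 * h := by
    have h1 : d ^ 2 ≤ (N * √h) ^ 2 := pow_le_pow_left₀ hd0 hd1 2
    rwa [mul_pow (N : ℝ), Real.sq_sqrt hh.le] at h1
  have hmm : mm v x d ≤ A + M * (σ + 3 * d) ^ 2 / 2 := by
    apply mm_le_of_le hv
    intro y hy
    rw [mem_closedBall, dist_eq_norm, abs_of_nonneg hd0] at hy
    have h1 := hle y (by linarith)
    have h2 : ‖y - x₀‖ ≤ σ + 3 * d := by
      have h3 : ‖y - x₀‖ ≤ ‖y - x‖ + ‖x - x₀‖ := norm_sub_le_norm_sub_add_norm_sub y x x₀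
      linarith
    have h3 : ‖y - x₀‖ ^ 2 ≤ (σ + 3 * d) ^ 2 := pow_le_pow_left₀ (norm_nonneg _) h2 2
    have h4 := mul_le_mul_of_nonneg_left h3 hM
    linarith
  have h5 : (σ + 3 * d) ^ 2 ≤ σ ^ 2 + 6 * (h * N) + 9 * (N ^ 2 * h) := by
    have : (σ + 3 * d) ^ 2 = σ ^ 2 + 6 * (σ * d) + 9 * d ^ 2 := by ring
    rw [this, hσd]; linarith
  have h6 := mul_le_mul_of_nonneg_left h5 hM
  have h7 : h * d ≤ h * (N * √h) := mul_le_mul_of_nonneg_left hd1 hh.le
  have h8 : 0 ≤ M * (N ^ 2 * h) := by positivity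
  have h9 : 0 ≤ M * h := by positivity
  unfold KN
  nlinarith

section
variable {h c R M A γ δ : ℝ} {L : ℝ≥0} {v w r : Sp N → ℝ}

/-- Barrier `l x = A + h b - M h / 2 + M (max ‖x - x₀‖ √h) ^ 2 / 2`, cut off at a large radius to
be Lipschitz, `calib_radial` with `R₀ = √h`, displacement `h N / max ‖x - x₀‖ √h ≤ N √h`,
`mm_le_of_le`, `Step.local_barrier`. -/
theorem oneStep_radial (x₀ : Sp N) (hM : 0 ≤ M) (hγ : 0 < γ) (hδ : 0 < δ) :
    OneStep (fun x => M * ‖x - x₀‖ ^ 2 / 2) x₀ (KN N * M + γ) δ := by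
  intro μ hμ
  have hN : (0 : ℝ) ≤ N := Nat.cast_nonneg N
  set ε : ℝ := min (δ / 6) γ / (N + 1) with hε
  have hm0 : 0 < min (δ / 6) γ := lt_min (by linarith) hγ
  have hε0 : 0 < ε := by positivity
  refine ⟨ε ^ 2, by positivity, ?_⟩
  intro h A L R c v w r hh hh0 hv hw hs hle hstrip
  have hsq : √h ≤ ε := by
    rw [Real.sqrt_le_left hε0.le]; exact hh0
  have hs0 : 0 < √h := Real.sqrt_pos.2 hh
  have hε1 : (N + 1) * ε = min (δ / 6) γ := by
    rw [hε]; field_simp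
  have hNs : N * √h ≤ N * ε := mul_le_mul_of_nonneg_left hsq hN
  have hmin1 : min (δ / 6) γ ≤ δ / 6 := min_le_left _ _
  have hmin2 : min (δ / 6) γ ≤ γ := min_le_right _ _
  have hNε : 0 ≤ N * ε := by positivity
  have hA1 : N * √h ≤ δ / 6 := by nlinarith
  have hA2 : N * √h ≤ γ := by nlinarith
  have hA3 : √h ≤ δ := by nlinarith
  set B : ℝ := A + h * (KN N * M + γ) - M * h / 2 with hB
  obtain ⟨K, hK⟩ := C8_lip x₀ (B := B) (R₀ := √h) hM hδ.le
  have hcal := (calib_radial x₀ (C8_G_mono (B := B) hM hδ.le) (C8_G_lip hM hδ.le) hs0).mono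
    (subset_univ (ball x₀ δ))
  have hKN : (1 : ℝ) ≤ KN N := C8_KN_ge
  have hBA : A ≤ B := by
    have h1 : M ≤ KN N * M := by nlinarith
    have h2 : 0 ≤ h * (KN N * M + γ - M / 2) := by
      apply mul_nonneg hh.le; linarith
    rw [hB]; nlinarith
  have key := Step.local_barrier hh hh hv hw hs hδ hK (C8_cont x₀ hs0) hcal
    (by
      intro x h1 h2
      have h3 := hstrip x h1 h2
      have h4 : max ‖x - x₀‖ √h ≤ δ := max_le h2 hA3
      rw [C8_G_of_mem (le_trans hs0.le (le_max_right _ _)) h4]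
      have h5 : ‖x - x₀‖ ^ 2 ≤ (max ‖x - x₀‖ √h) ^ 2 :=
        pow_le_pow_left₀ (norm_nonneg _) (le_max_left _ _) 2
      have h6 := mul_le_mul_of_nonneg_left h5 hM
      simp only at h3
      linarith)
    (by
      intro x hx
      rw [mem_closedBall, dist_eq_norm] at hx
      have h4 : max ‖x - x₀‖ √h ≤ δ := max_le (by linarith) hA3
      rw [C8_G_of_mem (le_trans hs0.le (le_max_right _ _)) h4]
      have h5 := C8_point (A := A) hh hM hv.1 x₀ x (by
        intro y hy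
        apply hle y
        rw [mem_closedBall, dist_eq_norm]
        have h3 : ‖y - x₀‖ ≤ ‖y - x‖ + ‖x - x₀‖ := norm_sub_le_norm_sub_add_norm_sub y x x₀
        linarith)
      have h6 : h * (KN N * M + N * √h) ≤ h * (KN N * M + γ) :=
        mul_le_mul_of_nonneg_left (by linarith) hh.le
      linarith)
  intro x hx
  have h1 := key x hx
  have h2 := C8_G_le (B := B) (s := max ‖x - x₀‖ √h) hM hδ.le
    (le_trans hs0.le (le_max_right _ _))
  have h3 := mul_le_mul_of_nonneg_left (C8_max_sq (ρ := ‖x - x₀‖) hh.le) hM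
  simp only
  linarith

/-- The same barrier on the whole space with `f = (w - l)₊` and `Step.barrier`. -/
theorem Step.radial (hh : 0 < h) (hh1 : h ≤ 1) (hv : Data L R c v) (hw : Data L R c w)
    (hs : Step h h v w r) (x₀ : Sp N) (hM : 0 ≤ M)
    (hle : ∀ x, v x ≤ A + M * ‖x - x₀‖ ^ 2 / 2) :
    ∀ x, w x ≤ A + h * (KN N * M + N) + M * ‖x - x₀‖ ^ 2 / 2 := by
  have hN : (0 : ℝ) ≤ N := Nat.cast_nonneg N
  have hs0 : 0 < √h := Real.sqrt_pos.2 hh
  have hs1 : √h ≤ 1 := Real.sqrt_le_one.2 hh1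
  set T : ℝ := |R| + ‖x₀‖ + 1 with hT
  have hT1 : 1 ≤ T := by
    have := abs_nonneg R
    have := norm_nonneg x₀
    linarith
  have hT0 : 0 ≤ T := by linarith
  set B : ℝ := A + h * (KN N * M + N) - M * h / 2 with hB
  obtain ⟨K, hK⟩ := C8_lip x₀ (B := B) (R₀ := √h) hM hT0
  have hcal := calib_radial x₀ (C8_G_mono (B := B) hM hT0) (C8_G_lip hM hT0) hs0
  have hKN : (1 : ℝ) ≤ KN N := C8_KN_ge
  have hBA : A ≤ B := by
    have h1 : M ≤ KN N * M := by nlinarith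
    have h2 : 0 ≤ h * (KN N * M + N - M / 2) := by
      apply mul_nonneg hh.le; linarith
    rw [hB]; nlinarith
  have hfar : ∀ y : Sp N, T ≤ ‖y - x₀‖ → R ≤ ‖y‖ := by
    intro y hy
    have h1 : ‖y - x₀‖ ≤ ‖y‖ + ‖x₀‖ := norm_sub_le y x₀
    have h2 := le_abs_self R
    linarith
  have hout : ∀ x : Sp N, T ≤ ‖x - x₀‖ → w x ≤ C8_G B M T (max ‖x - x₀‖ √h) := by
    intro x hx
    rw [C8_G_of_ge hT0 (le_trans hx (le_max_left _ _)), hw.2 x (hfar x hx)]
    have hρ : 0 < ‖x - x₀‖ := by linarith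
    have hy : ‖(x₀ + (T / ‖x - x₀‖) • (x - x₀)) - x₀‖ = T := by
      rw [add_sub_cancel_left, norm_smul, Real.norm_eq_abs, abs_of_nonneg (by positivity)]
      field_simp
    have h1 := hle (x₀ + (T / ‖x - x₀‖) • (x - x₀))
    rw [hv.2 _ (hfar _ hy.ge), hy] at h1
    linarith
  set l : Sp N → ℝ := fun x => C8_G B M T (max ‖x - x₀‖ √h) with hl
  have hf : LipC (fun x => max (w x - l x) 0) 0 := by
    refine ⟨⟨_, (hw.1.sub hK).max_const 0⟩, T + ‖x₀‖, ?_⟩
    intro x hx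
    have h1 : ‖x‖ - ‖x₀‖ ≤ ‖x - x₀‖ := norm_sub_norm_le x x₀
    have h2 := hout x (by linarith)
    exact max_eq_right (by simp only [hl]; linarith)
  have hpos : ∀ x, 0 < max (w x - l x) 0 → l x < w x := by
    intro x hx
    rcases lt_max_iff.1 hx with h1 | h1
    · linarith
    · exact absurd h1 (lt_irrefl _)
  have key := Step.barrier hh hh hv hw hs hK (C8_cont x₀ hs0) hcal hf
    (fun x => le_max_right _ _) (subset_univ _)
    (by
      intro x hx
      have h1 := hpos x hx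
      rw [max_eq_left (by linarith)]
      ring)
    (by
      intro x hx
      have h1 := hpos x hx
      have h2 : ‖x - x₀‖ ≤ T := by
        by_contra h3
        have h4 := hout x (not_le.1 h3).le
        simp only [hl] at h1
        linarith
      have h4 : max ‖x - x₀‖ √h ≤ T := max_le h2 (by linarith)
      simp only [hl]
      rw [C8_G_of_mem (le_trans hs0.le (le_max_right _ _)) h4]
      have h5 := C8_point (A := A) hh hM hv.1 x₀ x (fun y _ => hle y)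
      have h7 : N * √h ≤ N := by nlinarith
      have h6 : h * (KN N * M + N * √h) ≤ h * (KN N * M + N) :=
        mul_le_mul_of_nonneg_left (by linarith) hh.le
      linarith)
  intro x
  have h0 : w x - l x ≤ 0 := (le_max_left _ _).trans (key x).le
  have h2 := C8_G_le (B := B) (s := max ‖x - x₀‖ √h) hM hT0
    (le_trans hs0.le (le_max_right _ _))
  have h3 := mul_le_mul_of_nonneg_left (C8_max_sq (ρ := ‖x - x₀‖) hh.le) hM
  simp only [hl] at h0
  linarith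

theorem C8_up {V ρ : ℕ → Sp N → ℝ} (hh : 0 < h) (hh1 : h ≤ 1) (hT : Traj h L R c V ρ)
    (hM : 0 < M) (k j : ℕ) (x : Sp N) :
    V (k + j) x - V k x ≤ (L : ℝ) ^ 2 / (2 * M) + j * h * (KN N * M + N) := by
  have key : ∀ (i : ℕ) (y : Sp N), V (k + i) y ≤
      (V k x + (L : ℝ) ^ 2 / (2 * M) + i * h * (KN N * M + N)) + M * ‖y - x‖ ^ 2 / 2 := by
    intro i
    induction i with
    | zero =>
      intro y
      have h1 := (hT.data k).1.dist_le_mul y x
      rw [Real.dist_eq, dist_eq_norm] at h1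
      have h2 := le_abs_self (V k y - V k x)
      have h3 : (L : ℝ) * ‖y - x‖ ≤ (L : ℝ) ^ 2 / (2 * M) + M * ‖y - x‖ ^ 2 / 2 := by
        have h4 : (L : ℝ) ^ 2 / (2 * M) + M * ‖y - x‖ ^ 2 / 2 - (L : ℝ) * ‖y - x‖ =
            ((L : ℝ) - M * ‖y - x‖) ^ 2 / (2 * M) := by
          field_simp
          ring
        have h5 : 0 ≤ ((L : ℝ) - M * ‖y - x‖) ^ 2 / (2 * M) := by positivity
        linarith
      simp only [Nat.cast_zero, zero_mul, add_zero]
      linarith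
    | succ i ih =>
      intro y
      have h1 := Step.radial hh hh1 (hT.data (k + i)) (hT.data (k + i + 1)) (hT.step (k + i)) x
        hM.le ih y
      rw [← Nat.add_assoc]
      push_cast
      linarith
  have h1 := key j x
  simp only [sub_self, norm_zero] at h1
  linarith

theorem Traj.time {V ρ : ℕ → Sp N → ℝ} (hh : 0 < h) (hh1 : h ≤ 1) (hT : Traj h L R c V ρ)
    (hM : 0 < M) (k j : ℕ) (x : Sp N) :
    |V (k + j) x - V k x| ≤ (L : ℝ) ^ 2 / (2 * M) + j * h * (KN N * M + N) := by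
  have h1 := C8_up hh hh1 hT hM k j x
  have h2 := C8_up hh hh1 hT.neg hM k j x
  rw [abs_le]
  constructor
  · linarith
  · exact h1

end

end Pool.Agent.MCF5
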