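import Mathlib

/-! Internal definitions for the almost every level mass continuity theorem. -/

open MeasureTheory Set Filter Topology Metric
open scoped ENNReal NNReal RealInnerProductSpace

namespace Pool.Agent.MCF5

abbrev Sp (N : ℕ) := EuclideanSpace ℝ (Fin N)

abbrev Zs (N : ℕ) := Sp N × ℝ

variable {N : ℕ}

/-- Lipschitz and equal to `c` outside a ball. -/
def LipC (f : Sp N → ℝ) (c : ℝ) : Prop :=
  (∃ K : ℝ≥0, LipschitzWith K f) ∧ ∃ R : ℝ, ∀ x, R ≤ ‖x‖ → f x = c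

/-- `L`-Lipschitz and equal to `c` outside the open ball of radius `R`. -/
def Data (L : ℝ≥0) (R c : ℝ) (f : Sp N → ℝ) : Prop :=
  LipschitzWith L f ∧ ∀ x, R ≤ ‖x‖ → f x = c

/-- Total variation of a Lipschitz function. -/
noncomputable def tv (f : Sp N → ℝ) : ℝ := ∫ x, ‖fderiv ℝ f x‖

/-- Clamp to `[a, b]`. -/
def cl (a b s : ℝ) : ℝ := max a (min s b)

/-- Divergence of a vector field. -/
noncomputable def dvg (Y : Sp N → Sp N) (x : Sp N) : ℝ :=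
  ∑ i, fderiv ℝ Y x (EuclideanSpace.single i 1) i

/-- `l` is a supersolution with curvature at most `a` in `U`. -/
def Calib (l a : Sp N → ℝ) (U : Set (Sp N)) : Prop :=
  ∀ f : Sp N → ℝ, LipC f 0 → (∀ x, 0 ≤ f x) → tsupport f ⊆ U →
    ∫ x in {x | 0 < f x}, ‖fderiv ℝ l x‖ ≤
      (∫ x in {x | 0 < f x}, ‖fderiv ℝ (fun y => l y + f y) x‖) + ∫ x, a x * f x

/-- Subgradient inequality of the total variation. -/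
def EL (w κ : Sp N → ℝ) : Prop :=
  ∀ φ : Sp N → ℝ, LipC φ 0 → tv w ≤ tv (fun x => w x + φ x) + ∫ x, κ x * φ x

/-- Dilation by `r ≥ 0` through balls. -/
noncomputable def mP (v : Sp N → ℝ) (x : Sp N) (r : ℝ) : ℝ :=
  ⨆ e : closedBall (0 : Sp N) 2, ⨅ b : closedBall (0 : Sp N) 1,
    v (x + r • ((e : Sp N) + (‖(e : Sp N)‖ / 2) • (b : Sp N)))

/-- Signed dilation. -/
noncomputable def mm (v : Sp N → ℝ) (x : Sp N) (r : ℝ) : ℝ :=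
  if 0 ≤ r then mP v x r else -mP (fun y => -v y) x (-r)

/-- One implicit step from `v` to `w` with signed displacement `r`. -/
structure Step (h η : ℝ) (v w r : Sp N → ℝ) : Prop where
  cont : Continuous r
  eq : ∀ x, w x = mm v x (r x) + η * r x
  el : EL w (fun x => r x / h)

/-- A trajectory of the scheme with time step `h` and `η = h`. -/
structure Traj (h : ℝ) (L : ℝ≥0) (R c : ℝ) (v r : ℕ → Sp N → ℝ) : Prop where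
  data : ∀ k, Data L R c (v k)
  step : ∀ k, Step h h (v k) (v (k + 1)) (r k)

/-- One step of the scheme respects the local barrier `ψ` moving with speed `b`. -/
def OneStep (ψ : Sp N → ℝ) (x₀ : Sp N) (b δ : ℝ) : Prop :=
  ∀ μ : ℝ, 0 < μ → ∃ h₀ : ℝ, 0 < h₀ ∧ ∀ (h A : ℝ) (L : ℝ≥0) (R c : ℝ) (v w r : Sp N → ℝ),
    0 < h → h ≤ h₀ → Data L R c v → Data L R c w → Step h h v w r →
    (∀ x ∈ closedBall x₀ δ, v x ≤ A + ψ x) →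
    (∀ x, δ / 2 ≤ ‖x - x₀‖ → ‖x - x₀‖ ≤ δ → w x ≤ A + ψ x - μ) →
    ∀ x ∈ closedBall x₀ δ, w x ≤ A + h * b + ψ x

/-- The constant of the radial barrier. -/
noncomputable def KN (N : ℕ) : ℝ := 1 + 3 * N + 5 * N ^ 2

/-- Spatial part of a first order jet. -/
noncomputable def spat (P : Zs N →L[ℝ] ℝ) : Sp N →L[ℝ] ℝ :=
  P.comp (ContinuousLinearMap.inl ℝ (Sp N) ℝ)

/-- Spatial trace of a second order jet. -/
noncomputable def trQ (Q : Zs N →L[ℝ] Zs N →L[ℝ] ℝ) : ℝ :=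
  ∑ i, Q (EuclideanSpace.single i 1, 0) (EuclideanSpace.single i 1, 0)

/-- `η` is a direction of the spatial gradient: the unit normal, or any vector of the unit ball
if the gradient vanishes. -/
def Dir (P : Zs N →L[ℝ] ℝ) (η : Sp N) : Prop :=
  ‖η‖ ≤ 1 ∧ ∀ ξ : Sp N, P (ξ, 0) = ‖spat P‖ * ⟪η, ξ⟫

/-- Admissible jets in the sense of Evans and Spruck. -/
def AdmES (P : Zs N →L[ℝ] ℝ) (Q : Zs N →L[ℝ] Zs N →L[ℝ] ℝ) : Prop :=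
  ∃ η : Sp N, Dir P η ∧ P (0, 1) ≤ trQ Q - Q (η, 0) (η, 0)

/-- Admissible jets in the weak sense used for comparison. -/
def AdmW (C : ℝ) (P : Zs N →L[ℝ] ℝ) (Q : Zs N →L[ℝ] Zs N →L[ℝ] ℝ) : Prop :=
  (spat P ≠ 0 → ∀ η : Sp N, Dir P η → P (0, 1) ≤ trQ Q - Q (η, 0) (η, 0)) ∧
  (spat P = 0 → ∀ M : ℝ, 0 ≤ M → (∀ ξ : Sp N, Q (ξ, 0) (ξ, 0) ≤ M * ‖ξ‖ ^ 2) → P (0, 1) ≤ C * M)

/-- A quadratic polynomial touches `U` from above at `z`. -/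
def Touch (U : Zs N → ℝ) (z : Zs N) (P : Zs N →L[ℝ] ℝ) (Q : Zs N →L[ℝ] Zs N →L[ℝ] ℝ) : Prop :=
  ∀ᶠ k in 𝓝 (0 : Zs N), U (z + k) ≤ U z + P k + (1 / 2) * Q k k

/-- Subsolution for a class `A` of admissible jets. -/
def Sub (A : (Zs N →L[ℝ] ℝ) → (Zs N →L[ℝ] Zs N →L[ℝ] ℝ) → Prop) (U : Zs N → ℝ) : Prop :=
  ∀ z : Zs N, 0 < z.2 → ∀ P Q, Touch U z P Q → A P Q

/-- The inner product as a bilinear map. -/
noncomputable def innB : Sp N →L[ℝ] Sp N →L[ℝ] ℝ := innerSL ℝ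

theorem innB_apply (x y : Sp N) : innB x y = ⟪x, y⟫ := rfl

/-- The Euclidean bilinear form on space-time. -/
noncomputable def eucl : Zs N →L[ℝ] Zs N →L[ℝ] ℝ :=
  (innB (N := N)).bilinearComp (ContinuousLinearMap.fst ℝ (Sp N) ℝ)
      (ContinuousLinearMap.fst ℝ (Sp N) ℝ) +
    (ContinuousLinearMap.mul ℝ ℝ).bilinearComp (ContinuousLinearMap.snd ℝ (Sp N) ℝ)
      (ContinuousLinearMap.snd ℝ (Sp N) ℝ)

theorem eucl_apply (k l : Zs N) : eucl k l = ⟪k.1, l.1⟫ + k.2 * l.2 := by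
  simp [eucl, innB_apply]

/-- The class of jets is closed under removing a small positive form. -/
def ClosedAdm (A : (Zs N →L[ℝ] ℝ) → (Zs N →L[ℝ] Zs N →L[ℝ] ℝ) → Prop) : Prop :=
  ∀ P Q, (∀ ε : ℝ, 0 < ε → A P (Q + ε • eucl)) → A P Q

/-- Second order expansion at a point. -/
def Expands {W : Type*} [NormedAddCommGroup W] [NormedSpace ℝ W] (f : W → ℝ) (z : W)
    (P : W →L[ℝ] ℝ) (Q : W →L[ℝ] W →L[ℝ] ℝ) : Prop :=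
  (fun k => f (z + k) - f z - P k - (1 / 2) * Q k k) =o[𝓝 (0 : W)] fun k => ‖k‖ ^ 2

/-- One dimensional penalty. -/
noncomputable def pen (s : ℝ) : ℝ := s ^ 4 / (1 + s ^ 2)

/-- Space-time penalty. -/
noncomputable def zeta (z : Zs N) : ℝ := (∑ i, pen (z.1 i)) + pen z.2

/-- Sup-convolution. -/
noncomputable def supc (lam : ℝ) (U : Zs N → ℝ) (z : Zs N) : ℝ :=
  ⨆ y : Zs N, (U y - zeta (z - y) / lam)

/-- Continuous, bounded by `M`, and equal to `c` for `R ≤ ‖x‖`. -/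
structure Nice (M R c : ℝ) (U : Zs N → ℝ) : Prop where
  cont : Continuous U
  bdd : ∀ z, |U z| ≤ M
  out : ∀ z : Zs N, R ≤ ‖z.1‖ → U z = c

/-- Smooth increasing approximation of `min s 0`. -/
noncomputable def Th (ε s : ℝ) : ℝ := (s - √(s ^ 2 + ε ^ 2)) / 2

/-- The three point inequality. -/
def NC (c : ℝ) (v : Sp N → ℝ) : Prop :=
  ∀ (x y : Sp N) (θ : ℝ), 0 ≤ θ → θ ≤ 1 →
    v (x + θ • (y - x)) ≤ max (v x) (v y) + c * (θ * (1 - θ)) * ‖y - x‖ ^ 2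

/-- Inverse of `r ↦ mm v x r + η r`. -/
noncomputable def bet (η : ℝ) (v : Sp N → ℝ) (x : Sp N) (s : ℝ) : ℝ :=
  Function.invFun (fun r => mm v x r + η * r) s

/-- Primitive of `bet` vanishing at `v x`. -/
noncomputable def BB (η : ℝ) (v : Sp N → ℝ) (x : Sp N) (s : ℝ) : ℝ :=
  ∫ σ in v x..s, bet η v x σ

/-- The energy of one step. -/
noncomputable def JJ (h η : ℝ) (v w : Sp N → ℝ) : ℝ :=
  tv w + (1 / h) * ∫ x, BB η v x (w x)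

/-- `w` minimises the energy among `L`-Lipschitz functions equal to `c` outside a ball. -/
def IsMinJ (h η : ℝ) (L : ℝ≥0) (c : ℝ) (v w : Sp N → ℝ) : Prop :=
  LipschitzWith L w ∧ LipC w c ∧
    ∀ w' : Sp N → ℝ, LipschitzWith L w' → LipC w' c → JJ h η v w ≤ JJ h η v w'

/-- Trace of a bilinear form on space. -/
noncomputable def trS (X : Sp N →L[ℝ] Sp N →L[ℝ] ℝ) : ℝ :=
  ∑ i, X (EuclideanSpace.single i 1) (EuclideanSpace.single i 1)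

/-- Approximate first and second order conditions of the three point maximum principle. -/
def TPData (c γ Λ ε : ℝ) (x₀ y₀ : Sp N) (θ₀ : ℝ) : Prop :=
  ∃ (x y : Sp N) (θ : ℝ) (p₀ p₁ p₂ η₀ η₁ η₂ : Sp N) (X₀ X₁ X₂ : Sp N →L[ℝ] Sp N →L[ℝ] ℝ),
    ‖x - x₀‖ ≤ ε ∧ ‖y - y₀‖ ≤ ε ∧ |θ - θ₀| ≤ ε ∧
    (‖η₀‖ ≤ 1 ∧ p₀ = ‖p₀‖ • η₀) ∧ (‖η₁‖ ≤ 1 ∧ p₁ = ‖p₁‖ • η₁) ∧ (‖η₂‖ ≤ 1 ∧ p₂ = ‖p₂‖ • η₂) ∧
    (‖p₀‖ ≤ Λ ∧ ‖p₁‖ ≤ Λ ∧ ‖p₂‖ ≤ Λ) ∧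
    ((∀ a b, X₀ a b = X₀ b a) ∧ (∀ a b, X₁ a b = X₁ b a) ∧ (∀ a b, X₂ a b = X₂ b a)) ∧
    (∀ ξ : Sp N, -Λ * ‖ξ‖ ^ 2 ≤ X₀ ξ ξ ∧ -Λ * ‖ξ‖ ^ 2 ≤ X₁ ξ ξ ∧ -Λ * ‖ξ‖ ^ 2 ≤ X₂ ξ ξ) ∧
    ‖(1 - θ) • p₀ + p₁ + (2 * c * (θ * (1 - θ))) • (y - x)‖ ≤ ε ∧
    ‖θ • p₀ + p₂ - (2 * c * (θ * (1 - θ))) • (y - x)‖ ≤ ε ∧
    |⟪p₀, y - x⟫ - c * (1 - 2 * θ) * ‖y - x‖ ^ 2| ≤ ε ∧
    (∀ (ξ₁ ξ₂ : Sp N) (ϑ : ℝ),
      X₀ ((1 - θ) • ξ₁ + θ • ξ₂ + ϑ • (y - x)) ((1 - θ) • ξ₁ + θ • ξ₂ + ϑ • (y - x)) +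
          X₁ ξ₁ ξ₁ + X₂ ξ₂ ξ₂ + 2 * ϑ * ⟪p₀, ξ₂ - ξ₁⟫ ≤
        2 * c * (θ * (1 - θ) * ‖ξ₂ - ξ₁‖ ^ 2 + 2 * (1 - 2 * θ) * ϑ * ⟪y - x, ξ₂ - ξ₁⟫ -
          ϑ ^ 2 * ‖y - x‖ ^ 2) + 2 * ε * (‖ξ₁‖ ^ 2 + ‖ξ₂‖ ^ 2 + ϑ ^ 2)) ∧
    γ - ε ≤ (trS X₀ - X₀ η₀ η₀) + (trS X₁ - X₁ η₁ η₁) + (trS X₂ - X₂ η₂ η₂)

/-- Everything the level argument needs about the clamped flow `v`. -/
structure Flow (L : ℝ≥0) (R a₁ a₂ B C₀ c : ℝ) (v : ℝ → Sp N → ℝ) : Prop where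
  cont : Continuous fun z : Zs N => v z.2 z.1
  data : ∀ s, Data L R a₁ (v s)
  range : ∀ s x, a₁ ≤ v s x ∧ v s x ≤ a₂
  calib : ∀ s, 0 ≤ s → ∃ κ : ℕ → Sp N → ℝ, (∀ n, Integrable (κ n)) ∧ (∀ n, ∫ x, |κ n x| ≤ B) ∧
    ∀ (a b : ℝ) (ψ : Sp N → ℝ), a₁ ≤ a → a < b → LipC ψ a → ∀ ε : ℝ, 0 < ε →
      ∀ᶠ n in atTop, tv (fun x => cl a b (v s x)) ≤
        tv ψ + (∫ x, |κ n x| * |ψ x - cl a b (v s x)|) + ε
  diss : ∀ s t a b lam : ℝ, 0 ≤ s → s ≤ t → a₁ ≤ a → a < b → 0 < lam →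
    lam * (∫ x, |cl a b (v t x) - cl a b (v s x)|) + tv (fun x => cl a b (v t x)) ≤
      C₀ * lam ^ 2 * (t - s) * (B * (b - a)) + tv (fun x => cl a b (v s x))
  ncUp : ∀ s, 0 ≤ s → NC c (v s)
  ncDown : ∀ s, 0 ≤ s → NC c (fun x => -v s x)

end Pool.Agent.MCF5
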