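import Pool.Agent.Lib.MP_5aed36_gt.Core

/-! The lemma of Jensen for semiconvex functions. -/

open MeasureTheory Set Filter Topology Metric
open scoped ENNReal NNReal RealInnerProductSpace

namespace Pool.Agent.MCF5

/-- A Lipschitz image of a null set is null. -/
theorem null_image_of_lipschitzOn {W : Type*} [NormedAddCommGroup W] [NormedSpace ℝ W]
    [FiniteDimensional ℝ W] [MeasurableSpace W] [BorelSpace W] (μ : Measure W)
    [μ.IsAddHaarMeasure] {f : W → W} {K : ℝ≥0} {s : Set W} (hf : LipschitzOnWith K f s)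
    (hs : μ s = 0) : μ (f '' s) = 0 := by
  have h1 : μ ≪ (Measure.hausdorffMeasure (Module.finrank ℝ W) : Measure W) :=
    Measure.absolutelyContinuous_isAddHaarMeasure _ _
  have h2 : (Measure.hausdorffMeasure (Module.finrank ℝ W) : Measure W) ≪ μ :=
    Measure.absolutelyContinuous_isAddHaarMeasure _ _
  apply h1
  have h3 := hf.hausdorffMeasure_image_le (d := (Module.finrank ℝ W : ℝ)) (by positivity)
  rw [h2 hs, mul_zero] at h3
  exact le_antisymm h3 bot_le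

theorem jensen_inner {V : Type*} [NormedAddCommGroup V] [InnerProductSpace ℝ V]
    [FiniteDimensional ℝ V] [MeasurableSpace V] [BorelSpace V] (μ : Measure V)
    [μ.IsAddHaarMeasure] {Ψ : V → ℝ} {w₀ : V} {r C : ℝ} (hr : 0 < r)
    (hc : ContinuousOn Ψ (closedBall w₀ r))
    (hmid : ∀ w k, w ∈ closedBall w₀ r → w + k ∈ closedBall w₀ r → w - k ∈ closedBall w₀ r →
      -(C * ‖k‖ ^ 2) ≤ Ψ (w + k) + Ψ (w - k) - 2 * Ψ w)
    (hmax : IsMaxOn Ψ (closedBall w₀ r) w₀) {G : Set V} (hG : μ Gᶜ = 0) {ε : ℝ} (hε : 0 < ε) :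
    ∃ w ∈ G, ‖w - w₀‖ < ε ∧ ∃ p : V, ‖p‖ ≤ ε ∧
      ∀ᶠ k in 𝓝 (0 : V), Ψ (w + k) ≤ Ψ w + ⟪p, k⟫ + ε * ‖k‖ ^ 2 := by
  classical
  set C' : ℝ := |C| + 2 * ε with hC'
  have hC'pos : 0 < C' := by positivity
  set δ : ℝ := min (min (ε * r / 2) (ε / 3)) (ε ^ 2 / 2) with hδ
  have hδpos : 0 < δ := by positivity
  have hδ1 : δ ≤ ε * r / 2 := (min_le_left _ _).trans (min_le_left _ _)
  have hδ2 : δ ≤ ε / 3 := (min_le_left _ _).trans (min_le_right _ _)
  have hδ3 : δ ≤ ε ^ 2 / 2 := min_le_right _ _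
  set Φ : V → ℝ := fun w => Ψ w - ε * ‖w - w₀‖ ^ 2 with hΦ
  have hΦmid : ∀ w k, w ∈ closedBall w₀ r → w + k ∈ closedBall w₀ r → w - k ∈ closedBall w₀ r →
      -(C' * ‖k‖ ^ 2) ≤ Φ (w + k) + Φ (w - k) - 2 * Φ w := by
    intro w k h0 h1 h2
    have h3 := hmid w k h0 h1 h2
    have e1 : w + k - w₀ = (w - w₀) + k := by abel
    have e2 : w - k - w₀ = (w - w₀) - k := by abel
    have h4 : C * ‖k‖ ^ 2 ≤ |C| * ‖k‖ ^ 2 :=
      mul_le_mul_of_nonneg_right (le_abs_self C) (sq_nonneg _)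
    simp only [hΦ, e1, e2, norm_add_sq_real, norm_sub_sq_real (w - w₀) k, hC']
    nlinarith
  have hex : ∀ p : V, ∃ w ∈ closedBall w₀ r,
      ∀ y ∈ closedBall w₀ r, Φ y - ⟪p, y⟫ ≤ Φ w - ⟪p, w⟫ := by
    intro p
    have hcont : ContinuousOn (fun y => Φ y - ⟪p, y⟫) (closedBall w₀ r) := by
      refine ContinuousOn.sub (hc.sub ?_) ?_
      · fun_prop
      · fun_prop
    obtain ⟨w, hw, hwm⟩ := (isCompact_closedBall w₀ r).exists_isMaxOn
      ⟨w₀, mem_closedBall_self hr.le⟩ hcont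
    exact ⟨w, hw, fun y hy => hwm hy⟩
  choose T hTm hT using hex
  have hT' : ∀ p y, y ∈ closedBall w₀ r → Φ y ≤ Φ (T p) + ⟪p, y - T p⟫ := by
    intro p y hy
    have := hT p y hy
    rw [inner_sub_right]; linarith
  have hclose : ∀ p, ‖p‖ ≤ δ → ε * ‖T p - w₀‖ ≤ δ := by
    intro p hp
    have h1 := hT' p w₀ (mem_closedBall_self hr.le)
    have h2 : Ψ (T p) ≤ Ψ w₀ := hmax (hTm p)
    have h3 : ⟪p, w₀ - T p⟫ ≤ δ * ‖T p - w₀‖ := by
      refine (real_inner_le_norm _ _).trans ?_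
      rw [norm_sub_rev]
      exact mul_le_mul_of_nonneg_right hp (norm_nonneg _)
    simp only [hΦ, sub_self, norm_zero] at h1
    rcases (norm_nonneg (T p - w₀)).eq_or_lt with h0 | h0
    · rw [← h0]; simpa using hδpos.le
    · have : (ε * ‖T p - w₀‖) * ‖T p - w₀‖ ≤ δ * ‖T p - w₀‖ := by nlinarith
      exact le_of_mul_le_mul_right this h0
  have hhalf : ∀ p, ‖p‖ ≤ δ → ‖T p - w₀‖ ≤ r / 2 := by
    intro p hp
    have h1 := (hclose p hp).trans hδ1
    have : ε * ‖T p - w₀‖ ≤ ε * (r / 2) := by linarith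
    exact le_of_mul_le_mul_left this hε
  have hin : ∀ p k : V, ‖p‖ ≤ δ → ‖k‖ ≤ r / 2 → T p + k ∈ closedBall w₀ r := by
    intro p k hp hk
    rw [mem_closedBall, dist_eq_norm]
    have e1 : T p + k - w₀ = (T p - w₀) + k := by abel
    rw [e1]
    have := norm_add_le (T p - w₀) k
    have := hhalf p hp
    linarith
  have hlow : ∀ p k : V, ‖p‖ ≤ δ → ‖k‖ ≤ r / 2 →
      Φ (T p) + ⟪p, k⟫ - C' * ‖k‖ ^ 2 ≤ Φ (T p + k) := by
    intro p k hp hk
    have hm : T p - k ∈ closedBall w₀ r := by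
      have := hin p (-k) hp (by simpa using hk)
      simpa [sub_eq_add_neg] using this
    have h1 := hΦmid (T p) k (hTm p) (hin p k hp hk) hm
    have h2 := hT' p _ hm
    have e1 : T p - k - T p = -k := by abel
    rw [e1, inner_neg_right] at h2
    linarith
  have hlip : ∀ p p' : V, ‖p‖ ≤ δ → ‖p'‖ ≤ δ → ‖p - p'‖ ≤ 2 * C' * ‖T p - T p'‖ := by
    intro p p' hp hp'
    set k : V := (2 * C')⁻¹ • (p - p') with hk
    have hpk : p - p' = (2 * C') • k := by
      rw [hk, smul_smul, mul_inv_cancel₀ (by positivity), one_smul]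
    have hnk : ‖p - p'‖ = 2 * C' * ‖k‖ := by
      rw [hpk, norm_smul, Real.norm_of_nonneg (by positivity)]
    have hkr : ‖k‖ ≤ r / 2 := by
      have h1 : ‖p - p'‖ ≤ 2 * δ := (norm_sub_le _ _).trans (by linarith)
      have h2 : 2 * ε ≤ C' := by rw [hC']; linarith [abs_nonneg C]
      have h3 : C' * ‖k‖ ≤ C' * (r / 2) := by nlinarith
      exact le_of_mul_le_mul_left h3 hC'pos
    have h1 := hlow p k hp hkr
    have h2 := hT' p' _ (hin p k hp hkr)
    have h3 := hlow p' (-k) hp' (by simpa using hkr)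
    have h4 := hT' p _ (hin p' (-k) hp' (by simpa using hkr))
    have e1 : T p + k - T p' = (T p - T p') + k := by abel
    have e2 : T p' + -k - T p = -((T p - T p') + k) := by abel
    rw [e1, inner_add_right] at h2
    rw [e2, inner_neg_right, inner_add_right] at h4
    rw [inner_neg_right, norm_neg] at h3
    have h5 : ⟪p, k⟫ - ⟪p', k⟫ = 2 * C' * ‖k‖ ^ 2 := by
      rw [← inner_sub_left, hpk, real_inner_smul_left, real_inner_self_eq_norm_sq]
    have h6 : ⟪p', T p - T p'⟫ - ⟪p, T p - T p'⟫ ≤ 2 * C' * ‖k‖ * ‖T p - T p'‖ := by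
      rw [← inner_sub_left, ← hnk, norm_sub_rev p p']
      exact real_inner_le_norm _ _
    have h7 : 2 * C' * ‖k‖ * ‖k‖ ≤ 2 * C' * ‖k‖ * ‖T p - T p'‖ := by nlinarith
    rw [hnk]
    rcases (norm_nonneg k).eq_or_lt with h0 | h0
    · rw [← h0, mul_zero]; positivity
    · have h8 := le_of_mul_le_mul_left h7 (by positivity)
      exact mul_le_mul_of_nonneg_left h8 (by positivity)
  have hsome : ∃ p : V, ‖p‖ ≤ δ ∧ T p ∈ G := by
    by_contra hno
    push Not at hno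
    set B : Set V := closedBall 0 δ with hB
    have hBm : ∀ p, p ∈ B ↔ ‖p‖ ≤ δ := fun p => by simp [hB]
    have hK : μ (T '' B) = 0 := by
      refine measure_mono_null ?_ hG
      rintro _ ⟨p, hp, rfl⟩
      exact hno p ((hBm p).1 hp)
    have hg : LipschitzOnWith (Real.toNNReal (2 * C')) (Function.invFunOn T B) (T '' B) := by
      refine LipschitzOnWith.of_dist_le_mul fun w hw w' hw' => ?_
      have a1 := Function.invFunOn_pos (f := T) (s := B) (b := w) hw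
      have a2 := Function.invFunOn_pos (f := T) (s := B) (b := w') hw'
      have a3 := hlip _ _ ((hBm _).1 a1.1) ((hBm _).1 a2.1)
      rw [a1.2, a2.2] at a3
      rw [dist_eq_norm, dist_eq_norm, Real.coe_toNNReal _ (by positivity)]
      exact a3
    have hnull := null_image_of_lipschitzOn μ hg hK
    have hsub : B ⊆ Function.invFunOn T B '' (T '' B) := by
      intro p hp
      refine ⟨T p, ⟨p, hp, rfl⟩, ?_⟩
      have a1 := Function.invFunOn_pos (f := T) (s := B) (b := T p) ⟨p, hp, rfl⟩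
      have a3 := hlip _ _ ((hBm _).1 a1.1) ((hBm _).1 hp)
      rw [a1.2, sub_self, norm_zero, mul_zero] at a3
      exact sub_eq_zero.1 (norm_le_zero_iff.1 a3)
    exact (measure_closedBall_pos μ (0 : V) hδpos).ne' (measure_mono_null hsub hnull)
  obtain ⟨p, hp, hpG⟩ := hsome
  have hcl := hclose p hp
  refine ⟨T p, hpG, ?_, p + (2 * ε) • (T p - w₀), ?_, ?_⟩
  · have : ε * ‖T p - w₀‖ < ε * ε := by nlinarith
    exact lt_of_mul_lt_mul_left this hε.le
  · refine (norm_add_le _ _).trans ?_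
    rw [norm_smul, Real.norm_of_nonneg (by positivity)]
    nlinarith
  · filter_upwards [closedBall_mem_nhds (0 : V) (half_pos hr)] with k hk
    have h1 := hT' p _ (hin p k hp (by simpa using hk))
    have e1 : T p + k - T p = k := by abel
    have e2 : T p + k - w₀ = (T p - w₀) + k := by abel
    simp only [hΦ, e1, e2, norm_add_sq_real] at h1
    rw [inner_add_left, real_inner_smul_left]
    nlinarith

/-- The lemma of Jensen, in the form used for comparison arguments. -/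
theorem jensen_on {W : Type*} [NormedAddCommGroup W] [NormedSpace ℝ W]
    [FiniteDimensional ℝ W] [MeasurableSpace W] [BorelSpace W] (μ : Measure W)
    [μ.IsAddHaarMeasure] {Ψ : W → ℝ} {w₀ : W} {r C : ℝ} (hr : 0 < r)
    (hc : ContinuousOn Ψ (closedBall w₀ r))
    (hmid : ∀ w k, w ∈ closedBall w₀ r → w + k ∈ closedBall w₀ r → w - k ∈ closedBall w₀ r →
      -(C * ‖k‖ ^ 2) ≤ Ψ (w + k) + Ψ (w - k) - 2 * Ψ w)
    (hmax : IsMaxOn Ψ (closedBall w₀ r) w₀) {G : Set W} (hG : μ Gᶜ = 0) {ε : ℝ} (hε : 0 < ε) :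
    ∃ w ∈ G, ‖w - w₀‖ < ε ∧ ∃ p : W →L[ℝ] ℝ, ‖p‖ ≤ ε ∧
      ∀ᶠ k in 𝓝 (0 : W), Ψ (w + k) ≤ Ψ w + p k + ε * ‖k‖ ^ 2 := by
  set e := toEuclidean (E := W) with he
  set a : ℝ := ‖e.toContinuousLinearMap‖ + ‖e.symm.toContinuousLinearMap‖ + 1 with ha
  have ha1 : 1 ≤ a := by
    have := norm_nonneg e.toContinuousLinearMap
    have := norm_nonneg e.symm.toContinuousLinearMap
    linarith
  have hapos : 0 < a := by linarith
  have hfw : ∀ k, ‖e k‖ ≤ a * ‖k‖ := fun k => by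
    refine (e.toContinuousLinearMap.le_opNorm k).trans (mul_le_mul_of_nonneg_right ?_ (norm_nonneg _))
    have := norm_nonneg e.symm.toContinuousLinearMap
    linarith
  have hbw : ∀ k, ‖e.symm k‖ ≤ a * ‖k‖ := fun k => by
    refine (e.symm.toContinuousLinearMap.le_opNorm k).trans (mul_le_mul_of_nonneg_right ?_ (norm_nonneg _))
    have := norm_nonneg e.toContinuousLinearMap
    linarith
  have hmaps : ∀ v ∈ closedBall (e w₀) (r / a), e.symm v ∈ closedBall w₀ r := by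
    intro v hv
    rw [mem_closedBall, dist_eq_norm] at hv ⊢
    have e1 : e.symm v - w₀ = e.symm (v - e w₀) := by simp
    rw [e1]
    refine (hbw _).trans ?_
    rwa [le_div_iff₀' hapos] at hv
  have : (μ.map e).IsAddHaarMeasure := e.isAddHaarMeasure_map μ
  have hG' : (μ.map e) (e.symm ⁻¹' G)ᶜ = 0 := by
    have h1 := e.toHomeomorph.toMeasurableEquiv.map_apply (μ := μ) (e.symm ⁻¹' G)ᶜ
    have h2 : (e.toHomeomorph.toMeasurableEquiv ⁻¹' (e.symm ⁻¹' G)ᶜ) = Gᶜ := by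
      ext x; simp
    rw [h2, hG] at h1
    exact h1
  obtain ⟨v, hvG, hv, p, hp, hev⟩ := jensen_inner (μ.map e) (Ψ := fun v => Ψ (e.symm v))
    (w₀ := e w₀) (r := r / a) (C := |C| * a ^ 2) (by positivity)
    (hc.comp e.symm.continuous.continuousOn hmaps)
    (by
      intro w k h0 h1 h2
      have g1 := hmaps _ h1
      have g2 := hmaps _ h2
      rw [map_add] at g1
      rw [map_sub] at g2
      have h3 := hmid _ _ (hmaps _ h0) g1 g2
      have h4 : ‖e.symm k‖ ^ 2 ≤ (a * ‖k‖) ^ 2 := pow_le_pow_left₀ (norm_nonneg _) (hbw k) 2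
      have h5 : C * ‖e.symm k‖ ^ 2 ≤ |C| * (a * ‖k‖) ^ 2 :=
        mul_le_mul (le_abs_self C) h4 (sq_nonneg _) (abs_nonneg _)
      simp only [map_add, map_sub]
      nlinarith)
    (by
      intro v hv
      have := hmax (hmaps v hv)
      simpa using this)
    hG' (ε := ε / (2 * a ^ 2)) (by positivity)
  have hsm : a * (ε / (2 * a ^ 2)) < ε := by
    rw [← mul_div_assoc, div_lt_iff₀ (by positivity)]
    nlinarith [mul_pos hε hapos]
  refine ⟨e.symm v, hvG, ?_, (innerSL ℝ p).comp e.toContinuousLinearMap, ?_, ?_⟩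
  · have e1 : e.symm v - w₀ = e.symm (v - e w₀) := by simp
    rw [e1]
    exact (hbw _).trans_lt ((mul_le_mul_of_nonneg_left hv.le hapos.le).trans_lt hsm)
  · refine ContinuousLinearMap.opNorm_le_bound _ hε.le fun k => ?_
    have h1 : ‖⟪p, e k⟫‖ ≤ ‖p‖ * ‖e k‖ := norm_inner_le_norm _ _
    have h2 : ‖p‖ * ‖e k‖ ≤ (ε / (2 * a ^ 2)) * (a * ‖k‖) :=
      mul_le_mul hp (hfw k) (norm_nonneg _) (by positivity)
    have h3 : (a * (ε / (2 * a ^ 2))) * ‖k‖ ≤ ε * ‖k‖ :=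
      mul_le_mul_of_nonneg_right hsm.le (norm_nonneg _)
    have h4 : ((innerSL ℝ p).comp e.toContinuousLinearMap) k = ⟪p, e k⟫ := rfl
    rw [h4]
    nlinarith
  · have ht : Tendsto e (𝓝 (0 : W)) (𝓝 0) := by
      simpa using e.continuous.tendsto 0
    filter_upwards [ht.eventually hev] with k hk
    have h4 : ((innerSL ℝ p).comp e.toContinuousLinearMap) k = ⟪p, e k⟫ := rfl
    have h5 : ‖e k‖ ^ 2 ≤ (a * ‖k‖) ^ 2 := pow_le_pow_left₀ (norm_nonneg _) (hfw k) 2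
    have h6 : ε / (2 * a ^ 2) * ‖e k‖ ^ 2 ≤ ε / (2 * a ^ 2) * (a * ‖k‖) ^ 2 :=
      mul_le_mul_of_nonneg_left h5 (by positivity)
    have h7 : ε / (2 * a ^ 2) * (a * ‖k‖) ^ 2 = ε / 2 * ‖k‖ ^ 2 := by field_simp
    simp only [map_add, ContinuousLinearEquiv.symm_apply_apply] at hk
    rw [h4]
    nlinarith [mul_nonneg hε.le (sq_nonneg ‖k‖)]

theorem jensen {W : Type*} [NormedAddCommGroup W] [NormedSpace ℝ W] [FiniteDimensional ℝ W]
    [MeasurableSpace W] [BorelSpace W] (μ : Measure W) [μ.IsAddHaarMeasure] {Ψ : W → ℝ}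
    (hc : Continuous Ψ) {w₀ : W} {r C : ℝ} (hr : 0 < r)
    (hmid : ∀ w k, w ∈ closedBall w₀ r → w + k ∈ closedBall w₀ r → w - k ∈ closedBall w₀ r →
      -(C * ‖k‖ ^ 2) ≤ Ψ (w + k) + Ψ (w - k) - 2 * Ψ w)
    (hmax : IsMaxOn Ψ (closedBall w₀ r) w₀) {G : Set W} (hG : μ Gᶜ = 0) {ε : ℝ} (hε : 0 < ε) :
    ∃ w ∈ G, ‖w - w₀‖ < ε ∧ ∃ p : W →L[ℝ] ℝ, ‖p‖ ≤ ε ∧
      ∀ᶠ k in 𝓝 (0 : W), Ψ (w + k) ≤ Ψ w + p k + ε * ‖k‖ ^ 2 :=
  jensen_on μ hr hc.continuousOn hmid hmax hG hε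

end Pool.Agent.MCF5
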