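import Pool.Agent.Lib.MP_5aed36_gt.D4

open MeasureTheory Set Filter Topology Metric
open scoped ENNReal NNReal RealInnerProductSpace

namespace Pool.Agent.MCF5

variable {N : ℕ}

theorem D3_pen_formula (s k : ℝ) :
    pen (s + k) + pen (s - k) - 2 * pen s =
      2 * k ^ 2 + 2 * k ^ 2 * (3 * s ^ 2 - 1 - k ^ 2) /
        ((1 + 2 * s ^ 2 + 2 * k ^ 2 + (s ^ 2 - k ^ 2) ^ 2) * (1 + s ^ 2)) := by
  have h1 : (1 + (s + k) ^ 2) ≠ 0 := by positivity
  have h2 : (1 + (s - k) ^ 2) ≠ 0 := by positivity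
  have h3 : (1 + s ^ 2) ≠ 0 := by positivity
  have h4 : 1 + 2 * s ^ 2 + 2 * k ^ 2 + (s ^ 2 - k ^ 2) ^ 2 =
      (1 + (s + k) ^ 2) * (1 + (s - k) ^ 2) := by ring
  rw [h4]
  unfold pen
  field_simp
  ring

/-- `pen s = s ^ 2 - 1 + 1 / (1 + s ^ 2)`, `pen'' s = 2 + (6 s ^ 2 - 2) / (1 + s ^ 2) ^ 3` lies
between `0` and `min 3 (12 s ^ 2)`. -/
theorem pen_second (s k : ℝ) : pen (s + k) + pen (s - k) - 2 * pen s ≤ 3 * k ^ 2 := by
  rw [D3_pen_formula]
  obtain ⟨S, hS⟩ : ∃ S, S = s ^ 2 := ⟨_, rfl⟩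
  obtain ⟨K, hK⟩ : ∃ K, K = k ^ 2 := ⟨_, rfl⟩
  have hS0 : 0 ≤ S := by rw [hS]; positivity
  have hK0 : 0 ≤ K := by rw [hK]; positivity
  rw [← hS, ← hK]
  have hD : 0 < (1 + 2 * S + 2 * K + (S - K) ^ 2) * (1 + S) := by positivity
  have h1 : 2 * (3 * S - 1 - K) ≤ (1 + 2 * S + 2 * K + (S - K) ^ 2) * (1 + S) := by
    have e1 : 0 ≤ (S - K) ^ 2 * (1 + S) := by positivity
    have e2 : 0 ≤ K * S := by positivity
    nlinarith [sq_nonneg (S - 1)]
  have h2 : 2 * K * (3 * S - 1 - K) / ((1 + 2 * S + 2 * K + (S - K) ^ 2) * (1 + S)) ≤ K := by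
    rw [div_le_iff₀ hD]
    have := mul_le_mul_of_nonneg_left h1 hK0
    linarith
  linarith

theorem pen_second' (s k : ℝ) :
    pen (s + k) + pen (s - k) - 2 * pen s ≤ 12 * (|s| + |k|) ^ 2 * k ^ 2 := by
  rw [D3_pen_formula]
  have hT : s ^ 2 + k ^ 2 ≤ (|s| + |k|) ^ 2 := by
    have e1 : 0 ≤ |s| * |k| := by positivity
    nlinarith [sq_abs s, sq_abs k]
  obtain ⟨S, hS⟩ : ∃ S, S = s ^ 2 := ⟨_, rfl⟩
  obtain ⟨K, hK⟩ : ∃ K, K = k ^ 2 := ⟨_, rfl⟩
  have hS0 : 0 ≤ S := by rw [hS]; positivity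
  have hK0 : 0 ≤ K := by rw [hK]; positivity
  rw [← hS, ← hK] at hT
  rw [← hS, ← hK]
  have hD : 0 < (1 + 2 * S + 2 * K + (S - K) ^ 2) * (1 + S) := by positivity
  have h1 : 3 * S - 1 - K ≤
      (6 * (S + K) - 1) * ((1 + 2 * S + 2 * K + (S - K) ^ 2) * (1 + S)) := by
    have e : (6 * (S + K) - 1) * ((1 + 2 * S + 2 * K + (S - K) ^ 2) * (1 + S)) -
        (3 * S - 1 - K) = 5 * K + 15 * S ^ 2 + 30 * S * K + 11 * K ^ 2 +
          (5 * S + 6 * K) * (S - K) ^ 2 +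
          6 * (S + K) * (2 * S ^ 2 + 2 * K * S + (S - K) ^ 2 * S) := by ring
    have e' : 0 ≤ 5 * K + 15 * S ^ 2 + 30 * S * K + 11 * K ^ 2 +
          (5 * S + 6 * K) * (S - K) ^ 2 +
          6 * (S + K) * (2 * S ^ 2 + 2 * K * S + (S - K) ^ 2 * S) := by positivity
    linarith
  have h2 : 2 * K * (3 * S - 1 - K) / ((1 + 2 * S + 2 * K + (S - K) ^ 2) * (1 + S)) ≤
      2 * K * (6 * (S + K) - 1) := by
    rw [div_le_iff₀ hD]
    have := mul_le_mul_of_nonneg_left h1 (show 0 ≤ 2 * K by positivity)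
    linarith
  have h3 := mul_le_mul_of_nonneg_right hT hK0
  linarith

theorem D3_pen_nonneg (s : ℝ) : 0 ≤ pen s := by
  unfold pen
  positivity

theorem D3_pen_zero : pen 0 = 0 := by simp [pen]

theorem D3_pen_eq (s : ℝ) : pen s = s ^ 2 - 1 + 1 / (1 + s ^ 2) := by
  have h3 : (1 + s ^ 2) ≠ 0 := by positivity
  unfold pen
  field_simp
  ring

theorem D3_continuous_pen : Continuous pen := by
  unfold pen
  exact (continuous_pow 4).div (continuous_const.add (continuous_pow 2))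
    fun s => by positivity

theorem D3_sq_le (s : ℝ) : s ^ 2 ≤ pen s + 1 := by
  rw [D3_pen_eq]
  have : 0 ≤ 1 / (1 + s ^ 2) := by positivity
  linarith

theorem D3_sq_le_of_pen_le {s η : ℝ} (hη : 0 < η) (h : pen s ≤ η ^ 2 / (1 + η)) :
    s ^ 2 ≤ η := by
  by_contra hc
  push Not at hc
  unfold pen at h
  obtain ⟨t, ht⟩ : ∃ t, t = s ^ 2 := ⟨_, rfl⟩
  have e : s ^ 4 = t ^ 2 := by rw [ht]; ring
  rw [e, ← ht] at h
  rw [← ht] at hc
  have ht0 : 0 < t := hη.trans hc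
  rw [div_le_div_iff₀ (by positivity) (by positivity)] at h
  have e1 : 0 < (t - η) * (t + η + t * η) := mul_pos (sub_pos.2 hc) (by positivity)
  nlinarith

theorem D3_pen_sub_le (a b : ℝ) : pen a - pen b ≤ |a - b| * (|a| + |b|) := by
  have h1 : (1 + a ^ 2) ≠ 0 := by positivity
  have h2 : (1 + b ^ 2) ≠ 0 := by positivity
  have e : pen a - pen b = (a - b) * (a + b) * (1 - 1 / ((1 + a ^ 2) * (1 + b ^ 2))) := by
    unfold pen
    field_simp
    ring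
  have t0 : 0 ≤ 1 / ((1 + a ^ 2) * (1 + b ^ 2)) := by positivity
  have t1 : 1 / ((1 + a ^ 2) * (1 + b ^ 2)) ≤ 1 := by
    rw [div_le_one (by positivity)]
    nlinarith [sq_nonneg a, sq_nonneg b, mul_nonneg (sq_nonneg a) (sq_nonneg b)]
  have t2 : (a - b) * (a + b) ≤ |a - b| * (|a| + |b|) := by
    calc (a - b) * (a + b) ≤ |(a - b) * (a + b)| := le_abs_self _
      _ = |a - b| * |a + b| := abs_mul _ _
      _ ≤ |a - b| * (|a| + |b|) := mul_le_mul_of_nonneg_left (abs_add_le _ _) (abs_nonneg _)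
  have t3 : 0 ≤ |a - b| * (|a| + |b|) := by positivity
  rw [e]
  calc (a - b) * (a + b) * (1 - 1 / ((1 + a ^ 2) * (1 + b ^ 2)))
      ≤ |a - b| * (|a| + |b|) * (1 - 1 / ((1 + a ^ 2) * (1 + b ^ 2))) :=
        mul_le_mul_of_nonneg_right t2 (by linarith)
    _ ≤ |a - b| * (|a| + |b|) * 1 := mul_le_mul_of_nonneg_left (by linarith) t3
    _ = |a - b| * (|a| + |b|) := mul_one _

theorem D3_hasDerivAt_pen (s : ℝ) :
    HasDerivAt pen (2 * s * (1 - 1 / (1 + s ^ 2) ^ 2)) s := by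
  have h3 : (1 + s ^ 2) ≠ 0 := by positivity
  have h1 : HasDerivAt (fun x : ℝ => x ^ 4) (4 * s ^ 3) s := by
    simpa using hasDerivAt_pow 4 s
  have h2 : HasDerivAt (fun x : ℝ => 1 + x ^ 2) (2 * s) s := by
    simpa using (hasDerivAt_pow 2 s).const_add 1
  have h := h1.div h2 h3
  have e : (4 * s ^ 3 * (1 + s ^ 2) - s ^ 4 * (2 * s)) / (1 + s ^ 2) ^ 2 =
      2 * s * (1 - 1 / (1 + s ^ 2) ^ 2) := by
    field_simp
    ring
  rw [e] at h
  exact h

theorem zeta_nonneg (z : Zs N) : 0 ≤ zeta z :=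
  add_nonneg (Finset.sum_nonneg fun _ _ => D3_pen_nonneg _) (D3_pen_nonneg _)

theorem zeta_zero : zeta (0 : Zs N) = 0 := by simp [zeta, D3_pen_zero]

theorem continuous_zeta : Continuous (zeta (N := N)) := by
  unfold zeta
  refine Continuous.add (continuous_finsetSum _ fun i _ => ?_)
    (D3_continuous_pen.comp continuous_snd)
  exact D3_continuous_pen.comp ((EuclideanSpace.proj (𝕜 := ℝ) i).continuous.comp continuous_fst)

theorem D3_pen_le_zeta₁ (z : Zs N) (i : Fin N) : pen (z.1 i) ≤ zeta z := by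
  have h1 : pen (z.1 i) ≤ ∑ j, pen (z.1 j) :=
    Finset.single_le_sum (f := fun j => pen (z.1 j)) (fun _ _ => D3_pen_nonneg _)
      (Finset.mem_univ i)
  have h2 := D3_pen_nonneg z.2
  unfold zeta
  linarith

theorem D3_pen_le_zeta₂ (z : Zs N) : pen z.2 ≤ zeta z := by
  have h1 : 0 ≤ ∑ j, pen (z.1 j) := Finset.sum_nonneg fun _ _ => D3_pen_nonneg _
  unfold zeta
  linarith

theorem D3_norm_le {z : Zs N} {η ρ : ℝ} (hρ : 0 ≤ ρ) (hη : 0 ≤ η) (h : (N + 1) * η ≤ ρ ^ 2)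
    (h1 : ∀ i, z.1 i ^ 2 ≤ η) (h2 : z.2 ^ 2 ≤ η) : ‖z‖ ≤ ρ := by
  have hN : (0 : ℝ) ≤ N := Nat.cast_nonneg N
  have a1 : ‖z.1‖ ^ 2 ≤ N * η := by
    rw [EuclideanSpace.real_norm_sq_eq]
    calc ∑ i, z.1 i ^ 2 ≤ ∑ _i : Fin N, η := Finset.sum_le_sum fun i _ => h1 i
      _ = N * η := by simp
  have a2 : 0 ≤ N * η := mul_nonneg hN hη
  rw [Prod.norm_def]
  refine max_le ?_ ?_
  · exact (abs_le_of_sq_le_sq' (by nlinarith) hρ).2
  · rw [Real.norm_eq_abs]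
    exact abs_le_of_sq_le_sq (by nlinarith) hρ

theorem zeta_small {δ : ℝ} (hδ : 0 < δ) :
    ∃ σ : ℝ, 0 < σ ∧ ∀ z : Zs N, zeta z ≤ σ → ‖z‖ ≤ δ := by
  have hη : 0 < δ ^ 2 / (N + 1) := by positivity
  refine ⟨(δ ^ 2 / (N + 1)) ^ 2 / (1 + δ ^ 2 / (N + 1)), by positivity, fun z hz => ?_⟩
  refine D3_norm_le hδ.le hη.le (le_of_eq (by field_simp)) (fun i => ?_) ?_
  · exact D3_sq_le_of_pen_le hη ((D3_pen_le_zeta₁ z i).trans hz)
  · exact D3_sq_le_of_pen_le hη ((D3_pen_le_zeta₂ z).trans hz)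

theorem zeta_bounded (A : ℝ) : ∃ ρ : ℝ, ∀ z : Zs N, zeta z ≤ A → ‖z‖ ≤ ρ := by
  refine ⟨√((N + 1) * (|A| + 1)), fun z hz => ?_⟩
  have hA := le_abs_self A
  refine D3_norm_le (η := |A| + 1) (Real.sqrt_nonneg _) (by positivity)
    (le_of_eq (Real.sq_sqrt (by positivity)).symm) (fun i => ?_) ?_
  · have := D3_sq_le (z.1 i)
    have := D3_pen_le_zeta₁ z i
    linarith
  · have := D3_sq_le z.2
    have := D3_pen_le_zeta₂ z
    linarith

theorem D3_abs_fst_le (z : Zs N) (i : Fin N) : |z.1 i| ≤ ‖z‖ := by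
  have h1 : ‖z.1 i‖ ≤ ‖z.1‖ := PiLp.norm_apply_le z.1 i
  rw [Real.norm_eq_abs] at h1
  exact h1.trans (norm_fst_le z)

theorem D3_abs_snd_le (z : Zs N) : |z.2| ≤ ‖z‖ := by
  have h1 := norm_snd_le z
  rwa [Real.norm_eq_abs] at h1

theorem D3_zeta_second (w k : Zs N) :
    zeta (w + k) + zeta (w - k) - 2 * zeta w ≤ 6 * ‖k‖ ^ 2 := by
  have h1 : ∑ i, (pen (w.1 i + k.1 i) + pen (w.1 i - k.1 i) - 2 * pen (w.1 i)) ≤
      ∑ i, 3 * k.1 i ^ 2 := Finset.sum_le_sum fun i _ => pen_second _ _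
  rw [Finset.sum_sub_distrib, Finset.sum_add_distrib, ← Finset.mul_sum, ← Finset.mul_sum,
    ← EuclideanSpace.real_norm_sq_eq] at h1
  have h2 := pen_second w.2 k.2
  have h3 : ‖k.1‖ ^ 2 ≤ ‖k‖ ^ 2 := pow_le_pow_left₀ (norm_nonneg _) (norm_fst_le k) 2
  have h4 : k.2 ^ 2 ≤ ‖k‖ ^ 2 := by
    rw [← sq_abs]
    exact pow_le_pow_left₀ (abs_nonneg _) (D3_abs_snd_le k) 2
  simp only [zeta, Prod.fst_add, Prod.fst_sub, Prod.snd_add, Prod.snd_sub, PiLp.add_apply,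
    PiLp.sub_apply]
  linarith

theorem D3_zeta_sub_le {w k : Zs N} {ρ : ℝ} (hw : ‖w‖ ≤ ρ) (hk : ‖k‖ ≤ 1) :
    zeta (w + k) - zeta w ≤ (N + 1) * (2 * ρ + 1) * ‖k‖ := by
  have key : ∀ a b : ℝ, |a| ≤ ρ → |b| ≤ ‖k‖ → pen (a + b) - pen a ≤ (2 * ρ + 1) * ‖k‖ := by
    intro a b ha hb
    have h1 := D3_pen_sub_le (a + b) a
    rw [add_sub_cancel_left] at h1
    have h2 := abs_add_le a b
    have h3 : |a + b| + |a| ≤ 2 * ρ + 1 := by linarith
    calc pen (a + b) - pen a ≤ |b| * (|a + b| + |a|) := h1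
      _ ≤ ‖k‖ * (2 * ρ + 1) := mul_le_mul hb h3 (by positivity) (norm_nonneg _)
      _ = (2 * ρ + 1) * ‖k‖ := mul_comm _ _
  have h1 : ∑ i, (pen (w.1 i + k.1 i) - pen (w.1 i)) ≤ ∑ _i : Fin N, (2 * ρ + 1) * ‖k‖ :=
    Finset.sum_le_sum fun i _ => key _ _ ((D3_abs_fst_le w i).trans hw) (D3_abs_fst_le k i)
  rw [Finset.sum_sub_distrib] at h1
  simp only [Finset.sum_const, Finset.card_univ, Fintype.card_fin, nsmul_eq_mul] at h1
  have h2 := key w.2 k.2 ((D3_abs_snd_le w).trans hw) (D3_abs_snd_le k)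
  simp only [zeta, Prod.fst_add, Prod.snd_add, PiLp.add_apply]
  linarith

section
variable {U : Zs N → ℝ} {M R c lam : ℝ}

theorem D3_bdd (hb : ∀ z, |U z| ≤ M) (hlam : 0 < lam) (z : Zs N) :
    BddAbove (range fun y : Zs N => U y - zeta (z - y) / lam) := by
  refine ⟨M, ?_⟩
  rintro _ ⟨y, rfl⟩
  have h1 := (abs_le.1 (hb y)).2
  have h2 : 0 ≤ zeta (z - y) / lam := div_nonneg (zeta_nonneg _) hlam.le
  linarith

theorem D3_le_supc (hb : ∀ z, |U z| ≤ M) (hlam : 0 < lam) (z y : Zs N) :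
    U y - zeta (z - y) / lam ≤ supc lam U z :=
  le_ciSup (D3_bdd hb hlam z) y

theorem le_supc (hb : ∀ z, |U z| ≤ M) (hlam : 0 < lam) (z : Zs N) : U z ≤ supc lam U z := by
  have h := D3_le_supc hb hlam z z
  rwa [sub_self, zeta_zero, zero_div, sub_zero] at h

theorem supc_le (hb : ∀ z, |U z| ≤ M) (hlam : 0 < lam) (z : Zs N) : supc lam U z ≤ M := by
  refine ciSup_le fun y => ?_
  have h1 := (abs_le.1 (hb y)).2
  have h2 : 0 ≤ zeta (z - y) / lam := div_nonneg (zeta_nonneg _) hlam.le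
  linarith

theorem supc_attained (hc : Continuous U) (hb : ∀ z, |U z| ≤ M) (hlam : 0 < lam) (z : Zs N) :
    ∃ y, supc lam U z = U y - zeta (z - y) / lam ∧ zeta (z - y) ≤ 2 * M * lam := by
  have hM : 0 ≤ M := (abs_nonneg _).trans (hb z)
  have hz : Continuous fun y : Zs N => zeta (z - y) :=
    continuous_zeta.comp (continuous_const.sub continuous_id)
  obtain ⟨ρ, hρ⟩ := zeta_bounded (N := N) (2 * M * lam)
  have hK : IsCompact {y : Zs N | zeta (z - y) ≤ 2 * M * lam} := by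
    refine (isCompact_closedBall z ρ).of_isClosed_subset (isClosed_le hz continuous_const) ?_
    intro y hy
    rw [mem_closedBall, dist_comm, dist_eq_norm]
    exact hρ _ hy
  have hzK : z ∈ {y : Zs N | zeta (z - y) ≤ 2 * M * lam} := by
    simp only [mem_ofPred_eq, sub_self, zeta_zero]
    positivity
  have hF : Continuous fun y : Zs N => U y - zeta (z - y) / lam := hc.sub (hz.div_const lam)
  obtain ⟨y, hyK, hy⟩ := hK.exists_isMaxOn ⟨z, hzK⟩ hF.continuousOn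
  refine ⟨y, le_antisymm (ciSup_le fun x => ?_) (D3_le_supc hb hlam z y), hyK⟩
  by_cases hx : x ∈ {y : Zs N | zeta (z - y) ≤ 2 * M * lam}
  · exact hy hx
  · have h1 : U z - zeta (z - z) / lam ≤ U y - zeta (z - y) / lam := hy hzK
    rw [sub_self, zeta_zero, zero_div, sub_zero] at h1
    have h2 : 2 * M * lam < zeta (z - x) := not_le.1 hx
    have h3 : 2 * M < zeta (z - x) / lam := by rwa [lt_div_iff₀ hlam]
    have h4 := (abs_le.1 (hb x)).2
    have h5 := (abs_le.1 (hb z)).1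
    linarith

theorem supc_midpoint (hb : ∀ z, |U z| ≤ M) (hlam : 0 < lam) (z k : Zs N) :
    2 * supc lam U z ≤ supc lam U (z + k) + supc lam U (z - k) + (6 / lam) * ‖k‖ ^ 2 := by
  have h : supc lam U z ≤
      (supc lam U (z + k) + supc lam U (z - k) + (6 / lam) * ‖k‖ ^ 2) / 2 := by
    refine ciSup_le fun y => ?_
    have h1 := D3_le_supc hb hlam (z + k) y
    have h2 := D3_le_supc hb hlam (z - k) y
    have h3 := D3_zeta_second (z - y) k
    have e1 : z + k - y = z - y + k := by abel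
    have e2 : z - k - y = z - y - k := by abel
    rw [e1] at h1
    rw [e2] at h2
    have h4 := div_le_div_of_nonneg_right h3 hlam.le
    have e3 : (zeta (z - y + k) + zeta (z - y - k) - 2 * zeta (z - y)) / lam =
        zeta (z - y + k) / lam + zeta (z - y - k) / lam - 2 * (zeta (z - y) / lam) := by ring
    have e4 : 6 * ‖k‖ ^ 2 / lam = 6 / lam * ‖k‖ ^ 2 := by ring
    rw [e3, e4] at h4
    linarith
  linarith

theorem supc_lipschitz (hc : Continuous U) (hb : ∀ z, |U z| ≤ M) (hlam : 0 < lam) :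
    ∃ K : ℝ≥0, LipschitzWith K (supc lam U) := by
  have hM : 0 ≤ M := (abs_nonneg _).trans (hb 0)
  obtain ⟨ρ, hρ⟩ := zeta_bounded (N := N) (2 * M * lam)
  have hρ0 : 0 ≤ ρ := (norm_nonneg _).trans (hρ 0 (by rw [zeta_zero]; positivity))
  have hK : 0 ≤ (N + 1) * (2 * ρ + 1) / lam + 2 * M := by positivity
  refine ⟨⟨_, hK⟩, LipschitzWith.of_le_add_mul _ fun z z' => ?_⟩
  change supc lam U z ≤ supc lam U z' + ((N + 1) * (2 * ρ + 1) / lam + 2 * M) * dist z z'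
  rw [dist_comm, dist_eq_norm]
  have hA : 0 ≤ (N + 1) * (2 * ρ + 1) / lam * ‖z' - z‖ := by positivity
  have hB : 0 ≤ 2 * M * ‖z' - z‖ := by positivity
  rw [add_mul]
  rcases le_total ‖z' - z‖ 1 with h | h
  · obtain ⟨y, hy, hy'⟩ := supc_attained hc hb hlam z
    have h1 := D3_le_supc hb hlam z' y
    have h2 := D3_zeta_sub_le (hρ _ hy') h
    have e1 : z - y + (z' - z) = z' - y := by abel
    rw [e1] at h2
    have h4 := div_le_div_of_nonneg_right h2 hlam.le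
    have e3 : (zeta (z' - y) - zeta (z - y)) / lam =
        zeta (z' - y) / lam - zeta (z - y) / lam := by ring
    have e4 : (N + 1) * (2 * ρ + 1) * ‖z' - z‖ / lam =
        (N + 1) * (2 * ρ + 1) / lam * ‖z' - z‖ := by ring
    rw [e3, e4] at h4
    linarith
  · have h1 := supc_le hb hlam z
    have h2 := le_supc hb hlam z'
    have h3 := (abs_le.1 (hb z')).1
    have h4 : 2 * M * 1 ≤ 2 * M * ‖z' - z‖ := mul_le_mul_of_nonneg_left h (by positivity)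
    linarith

theorem D3_near (hc : Continuous U) (hb : ∀ z, |U z| ≤ M) {δ : ℝ} (hδ : 0 < δ) :
    ∃ lam₀ : ℝ, 0 < lam₀ ∧ ∀ lam : ℝ, 0 < lam → lam ≤ lam₀ → ∀ z : Zs N,
      ∃ y, supc lam U z = U y - zeta (z - y) / lam ∧ ‖z - y‖ ≤ δ := by
  have hM : 0 ≤ M := (abs_nonneg _).trans (hb 0)
  obtain ⟨σ, hσ, hs⟩ := zeta_small (N := N) hδ
  refine ⟨σ / (2 * M + 1), by positivity, fun lam hlam hl z => ?_⟩
  obtain ⟨y, hy, hy'⟩ := supc_attained hc hb hlam z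
  refine ⟨y, hy, hs _ (hy'.trans ?_)⟩
  rw [le_div_iff₀ (by positivity)] at hl
  nlinarith

theorem supc_close (h : Nice M R c U) (T : ℝ) {ε : ℝ} (hε : 0 < ε) :
    ∃ lam₀ : ℝ, 0 < lam₀ ∧ ∀ lam : ℝ, 0 < lam → lam ≤ lam₀ → ∀ z : Zs N, |z.2| ≤ T →
      supc lam U z ≤ U z + ε := by
  obtain ⟨δ, hδ, hu⟩ := h.unif T hε
  obtain ⟨lam₀, h0, h1⟩ := D3_near h.cont h.bdd hδ
  refine ⟨lam₀, h0, fun lam hlam hl z hz => ?_⟩
  obtain ⟨y, hy, hy'⟩ := h1 lam hlam hl z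
  have h2 := (abs_le.1 (hu z y hz (by rwa [norm_sub_rev]))).2
  have h3 : 0 ≤ zeta (z - y) / lam := div_nonneg (zeta_nonneg _) hlam.le
  linarith

/-- Move the touching polynomial to the point `y` where the supremum is attained. -/
theorem supc_adm {A : (Zs N →L[ℝ] ℝ) → (Zs N →L[ℝ] Zs N →L[ℝ] ℝ) → Prop} (hA : ClosedAdm A)
    (hc : Continuous U) (hb : ∀ z, |U z| ≤ M) (hsub : Sub A U) {δ : ℝ} (hδ : 0 < δ) :
    ∃ lam₀ : ℝ, 0 < lam₀ ∧ ∀ lam : ℝ, 0 < lam → lam ≤ lam₀ → ∀ z : Zs N, δ ≤ z.2 →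
      ∀ P Q, Expands (supc lam U) z P Q → A P Q := by
  obtain ⟨lam₀, h0, h1⟩ := D3_near hc hb (half_pos hδ)
  refine ⟨lam₀, h0, fun lam hlam hl z hz P Q hE => ?_⟩
  obtain ⟨y, hy, hy'⟩ := h1 lam hlam hl z
  have h2 : |z.2 - y.2| ≤ δ / 2 := (D3_abs_snd_le (z - y)).trans hy'
  have h3 : 0 < y.2 := by
    have := (abs_le.1 h2).2
    linarith
  refine hA P Q fun ε hε => hsub y h3 P _ ?_
  have h4 := hE.touch hε
  unfold Touch at h4 ⊢
  filter_upwards [h4] with k hk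
  have h5 := D3_le_supc hb hlam (z + k) (y + k)
  rw [add_sub_add_right_eq_sub] at h5
  linarith

theorem D3_zeta_single (w : Zs N) (i : Fin N) (s : ℝ) :
    zeta (w + s • ((EuclideanSpace.single i 1, 0) : Zs N)) =
      zeta w + (pen (w.1 i + s) - pen (w.1 i)) := by
  have h1 : ∀ j, pen ((w + s • ((EuclideanSpace.single i 1, 0) : Zs N)).1 j) =
      pen (w.1 j) + if j = i then pen (w.1 i + s) - pen (w.1 i) else 0 := by
    intro j
    by_cases hj : j = i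
    · subst hj
      simp
    · simp [hj]
  unfold zeta
  rw [Finset.sum_congr rfl fun j _ => h1 j, Finset.sum_add_distrib]
  simp only [Finset.sum_ite_eq', Finset.mem_univ, if_true, Prod.snd_add, Prod.smul_snd,
    smul_zero, add_zero]
  ring

theorem D3_first (hb : ∀ z, |U z| ≤ M) (hlam : 0 < lam) {z y : Zs N} {P : Zs N →L[ℝ] ℝ}
    (hy : supc lam U z = U y - zeta (z - y) / lam) (hP : HasFDerivAt (supc lam U) P z)
    (i : Fin N) :
    P (EuclideanSpace.single i 1, 0) +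
      2 * (z - y).1 i * (1 - 1 / (1 + (z - y).1 i ^ 2) ^ 2) / lam = 0 := by
  have a1 : HasDerivAt (fun s : ℝ => z + s • ((EuclideanSpace.single i 1, 0) : Zs N))
      ((EuclideanSpace.single i 1, 0) : Zs N) 0 := by
    simpa using ((hasDerivAt_id (0 : ℝ)).smul_const
      ((EuclideanSpace.single i 1, 0) : Zs N)).const_add z
  have a2 : HasDerivAt
      (fun s : ℝ => supc lam U (z + s • ((EuclideanSpace.single i 1, 0) : Zs N)))
      (P (EuclideanSpace.single i 1, 0)) 0 :=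
    hP.comp_hasDerivAt_of_eq 0 a1 (by simp)
  have a3 : HasDerivAt (fun s : ℝ => pen ((z - y).1 i + s))
      (2 * (z - y).1 i * (1 - 1 / (1 + (z - y).1 i ^ 2) ^ 2)) 0 := by
    have b1 := D3_hasDerivAt_pen ((z - y).1 i + 0)
    have b2 := b1.comp_const_add ((z - y).1 i) 0
    simpa only [add_zero] using b2
  have a4 := a2.add (a3.div_const lam)
  refine IsLocalMin.hasDerivAt_eq_zero ?_ a4
  refine Eventually.of_forall fun s => ?_
  have h1 := D3_le_supc hb hlam (z + s • ((EuclideanSpace.single i 1, 0) : Zs N)) y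
  have e1 : z + s • ((EuclideanSpace.single i 1, 0) : Zs N) - y =
      z - y + s • ((EuclideanSpace.single i 1, 0) : Zs N) := by abel
  rw [e1, D3_zeta_single] at h1
  have e2 : (zeta (z - y) + (pen ((z - y).1 i + s) - pen ((z - y).1 i))) / lam =
      zeta (z - y) / lam + pen ((z - y).1 i + s) / lam - pen ((z - y).1 i) / lam := by ring
  rw [e2] at h1
  simp only [Pi.add_apply, zero_smul, add_zero]
  linarith

theorem D3_deriv_lower {s η : ℝ} (hη : 0 < η) (h : η ≤ |s|) :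
    2 * η * (1 - 1 / (1 + η ^ 2) ^ 2) ≤ |2 * s * (1 - 1 / (1 + s ^ 2) ^ 2)| := by
  have h1 : η ^ 2 ≤ s ^ 2 := by
    rw [← sq_abs s]
    exact pow_le_pow_left₀ hη.le h 2
  have h2 : 1 / (1 + s ^ 2) ^ 2 ≤ 1 / (1 + η ^ 2) ^ 2 :=
    one_div_le_one_div_of_le (by positivity) (pow_le_pow_left₀ (by positivity) (by linarith) 2)
  have h3 : 1 / (1 + η ^ 2) ^ 2 ≤ 1 := by
    rw [div_le_one (by positivity)]
    exact one_le_pow₀ (by nlinarith [sq_nonneg η])
  rw [abs_mul, abs_mul, abs_two, abs_of_nonneg (a := 1 - 1 / (1 + s ^ 2) ^ 2) (by linarith)]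
  exact mul_le_mul (by linarith) (by linarith) (by linarith) (by positivity)

theorem D3_zeta_second' {w : Zs N} {ξ : Sp N} {η : ℝ} (hw : ∀ i, |w.1 i| ≤ η) (hξ : ‖ξ‖ ≤ η) :
    zeta (w + (ξ, 0)) + zeta (w - (ξ, 0)) - 2 * zeta w ≤ 48 * η ^ 2 * ‖ξ‖ ^ 2 := by
  have h1 : ∑ i, (pen (w.1 i + ξ i) + pen (w.1 i - ξ i) - 2 * pen (w.1 i)) ≤
      ∑ i, 48 * η ^ 2 * ξ i ^ 2 := by
    refine Finset.sum_le_sum fun i _ => (pen_second' _ _).trans ?_
    have b1 : ‖ξ i‖ ≤ ‖ξ‖ := PiLp.norm_apply_le ξ i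
    rw [Real.norm_eq_abs] at b1
    have b2 : (|w.1 i| + |ξ i|) ^ 2 ≤ (2 * η) ^ 2 :=
      pow_le_pow_left₀ (by positivity) (by linarith [hw i]) 2
    have b3 := mul_le_mul_of_nonneg_right b2 (sq_nonneg (ξ i))
    linarith
  rw [Finset.sum_sub_distrib, Finset.sum_add_distrib, ← Finset.mul_sum, ← Finset.mul_sum,
    ← EuclideanSpace.real_norm_sq_eq] at h1
  simp only [zeta, Prod.fst_add, Prod.fst_sub, Prod.snd_add, Prod.snd_sub, PiLp.add_apply,
    PiLp.sub_apply, add_zero, sub_zero]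
  linarith

/-- At the maximiser `y`, `k ↦ U y - zeta (z + k - y) / lam` touches from below, so
`P (e i, 0) = -pen' ((z - y).1 i) / lam`; `pen'` is small only near `0`; then `pen_second'`. -/
theorem supc_small (hlam : 0 < lam) {τ : ℝ} (hτ : 0 < τ) :
    ∃ σ : ℝ, 0 < σ ∧ ∀ (U : Zs N → ℝ) (M : ℝ), Continuous U → (∀ z, |U z| ≤ M) →
      ∀ z P Q, Expands (supc lam U) z P Q → ‖spat P‖ ≤ σ →
        ∀ ξ : Sp N, -τ * ‖ξ‖ ^ 2 ≤ Q (ξ, 0) (ξ, 0) := by
  obtain ⟨η, hη, hη2⟩ : ∃ η : ℝ, 0 < η ∧ η ^ 2 = τ * lam / 48 :=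
    ⟨√(τ * lam / 48), Real.sqrt_pos.2 (by positivity), Real.sq_sqrt (by positivity)⟩
  have hm : 0 < 2 * η * (1 - 1 / (1 + η ^ 2) ^ 2) := by
    refine mul_pos (by positivity) (sub_pos.2 ?_)
    rw [div_lt_one (by positivity)]
    exact one_lt_pow₀ (by nlinarith [sq_pos_of_pos hη]) (by norm_num)
  refine ⟨2 * η * (1 - 1 / (1 + η ^ 2) ^ 2) / (2 * lam), by positivity,
    fun U M hc hb z P Q hE hσ ξ => ?_⟩
  obtain ⟨y, hy, -⟩ := supc_attained hc hb hlam z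
  have hw : ∀ i, |(z - y).1 i| ≤ η := by
    intro i
    by_contra hcon
    have h1 := D3_deriv_lower hη (not_le.1 hcon).le
    have h2 := D3_first hb hlam hy hE.hasFDerivAt i
    have h3 : |P (EuclideanSpace.single i 1, 0)| ≤ ‖spat P‖ := by
      have := (spat P).le_opNorm (EuclideanSpace.single i 1)
      simpa [spat] using this
    have h4 : 2 * (z - y).1 i * (1 - 1 / (1 + (z - y).1 i ^ 2) ^ 2) =
        -(P (EuclideanSpace.single i 1, 0) * lam) := by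
      have h5 : 2 * (z - y).1 i * (1 - 1 / (1 + (z - y).1 i ^ 2) ^ 2) / lam =
          -P (EuclideanSpace.single i 1, 0) := by linarith
      rw [div_eq_iff hlam.ne'] at h5
      linarith
    rw [h4, abs_neg, abs_mul, abs_of_pos hlam] at h1
    have h6 := mul_le_mul_of_nonneg_right (h3.trans hσ) hlam.le
    have h7 : 2 * η * (1 - 1 / (1 + η ^ 2) ^ 2) / (2 * lam) * lam =
        2 * η * (1 - 1 / (1 + η ^ 2) ^ 2) / 2 := by field_simp
    rw [h7] at h6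
    linarith
  have hev : ∀ᶠ s in 𝓝 (0 : ℝ), ‖s • ξ‖ ≤ η := by
    have h1 : Continuous fun s : ℝ => ‖s • ξ‖ := (continuous_id.smul continuous_const).norm
    have h2 := h1.tendsto 0
    simp only [zero_smul, norm_zero] at h2
    exact h2.eventually (ge_mem_nhds hη)
  have hlow := hE.lower (k := ((ξ, 0) : Zs N)) (β := τ * ‖ξ‖ ^ 2) (by
    filter_upwards [hev] with s hs
    have e0 : s • ((ξ, 0) : Zs N) = (s • ξ, 0) := by simp
    rw [e0]
    have h1 := D3_le_supc hb hlam (z + (s • ξ, 0)) y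
    have h2 := D3_le_supc hb hlam (z - (s • ξ, 0)) y
    have h3 := D3_zeta_second' hw hs
    have e1 : z + (s • ξ, 0) - y = z - y + (s • ξ, 0) := by abel
    have e2 : z - (s • ξ, 0) - y = z - y - (s • ξ, 0) := by abel
    rw [e1] at h1
    rw [e2] at h2
    have h4 := div_le_div_of_nonneg_right h3 hlam.le
    have e3 : (zeta (z - y + (s • ξ, 0)) + zeta (z - y - (s • ξ, 0)) - 2 * zeta (z - y)) / lam =
        zeta (z - y + (s • ξ, 0)) / lam + zeta (z - y - (s • ξ, 0)) / lam -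
          2 * (zeta (z - y) / lam) := by ring
    have e4 : 48 * η ^ 2 * ‖s • ξ‖ ^ 2 / lam = τ * ‖ξ‖ ^ 2 * s ^ 2 := by
      rw [hη2, norm_smul, mul_pow, Real.norm_eq_abs, sq_abs]
      field_simp
    rw [e3, e4] at h4
    linarith)
  linarith

end

end Pool.Agent.MCF5
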