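import Pool.Agent.Lib.MP_5aed36_gt.D4a
import Pool.Agent.Lib.MP_5aed36_gt.A1

open MeasureTheory Set Filter Topology Metric
open scoped ENNReal NNReal RealInnerProductSpace

namespace Pool.Agent.MCF5

variable {N : ℕ}

theorem D4_spat_apply (P : Zs N →L[ℝ] ℝ) (ξ : Sp N) : spat P ξ = P (ξ, 0) := by
  simp [spat]

theorem D4_trQ_add (Q Q' : Zs N →L[ℝ] Zs N →L[ℝ] ℝ) : trQ (Q + Q') = trQ Q + trQ Q' := by
  simp [trQ, Finset.sum_add_distrib]

theorem D4_trQ_smul (a : ℝ) (Q : Zs N →L[ℝ] Zs N →L[ℝ] ℝ) : trQ (a • Q) = a * trQ Q := by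
  simp [trQ, Finset.mul_sum]

theorem D4_trQ_eucl : trQ (eucl (N := N)) = N := by
  simp [trQ, eucl_space]

theorem D4_add_eucl (Q : Zs N →L[ℝ] Zs N →L[ℝ] ℝ) (ε : ℝ) (ξ : Sp N) :
    (Q + ε • eucl : Zs N →L[ℝ] Zs N →L[ℝ] ℝ) (ξ, 0) (ξ, 0) = Q (ξ, 0) (ξ, 0) + ε * ‖ξ‖ ^ 2 := by
  simp [eucl_space]

theorem D4_trQ_add_eucl (Q : Zs N →L[ℝ] Zs N →L[ℝ] ℝ) (ε : ℝ) :
    trQ (Q + ε • eucl) = trQ Q + ε * N := by
  rw [D4_trQ_add, D4_trQ_smul, D4_trQ_eucl]

theorem D4_le_of_forall {x y K : ℝ} (h : ∀ ε : ℝ, 0 < ε → x ≤ y + K * ε) : x ≤ y := by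
  refine le_of_forall_pos_le_add fun δ hδ => ?_
  have hK : 0 < |K| + 1 := by positivity
  have h1 := h (δ / (|K| + 1)) (div_pos hδ hK)
  have h2 : K * (δ / (|K| + 1)) ≤ δ := by
    rw [← mul_div_assoc, div_le_iff₀ hK]
    nlinarith [le_abs_self K]
  linarith

theorem D4_Th_neg {ε : ℝ} (hε : 0 < ε) (s : ℝ) : Th ε s < 0 := by
  have h : s < √(s ^ 2 + ε ^ 2) := Real.lt_sqrt_of_sq_lt (by nlinarith)
  unfold Th
  linarith

theorem D4_Th_inv {ε : ℝ} (hε : 0 < ε) (s : ℝ) : Th ε s - ε ^ 2 / (4 * Th ε s) = s := by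
  have hneg := D4_Th_neg hε s
  have hw : √(s ^ 2 + ε ^ 2) ^ 2 = s ^ 2 + ε ^ 2 := Real.sq_sqrt (by positivity)
  have h4 : (4 * Th ε s) ≠ 0 := by linarith
  have key : ε ^ 2 = (Th ε s - s) * (4 * Th ε s) := by
    unfold Th
    nlinarith
  rw [key, mul_div_assoc, div_self h4]
  ring

/-- Monotonicity and the second order bound of `r ↦ r - ε ^ 2 / (4 r)` on the negative reals. -/
theorem D4_Theta_le {ε r r' h : ℝ} (hr : r < 0) (hr' : r' < 0) (hle : r' ≤ r + h)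
    (hh : h ≤ -r / 2) :
    r' - ε ^ 2 / (4 * r') ≤
      r - ε ^ 2 / (4 * r) + (1 + ε ^ 2 / (4 * r ^ 2)) * h + ε ^ 2 / (2 * (-r) ^ 3) * h ^ 2 := by
  have ht : r + h < 0 := by linarith
  have h1 : r' - ε ^ 2 / (4 * r') ≤ (r + h) - ε ^ 2 / (4 * (r + h)) := by
    have e1 : -(ε ^ 2 / (4 * r')) = ε ^ 2 / (4 * (-r')) := by
      rw [mul_neg, div_neg]
    have e2 : -(ε ^ 2 / (4 * (r + h))) = ε ^ 2 / (4 * (-(r + h))) := by
      rw [mul_neg, div_neg]
    have : ε ^ 2 / (4 * (-r')) ≤ ε ^ 2 / (4 * (-(r + h))) :=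
      div_le_div_of_nonneg_left (sq_nonneg ε) (by linarith) (by linarith)
    linarith
  have hr0 : r ≠ 0 := hr.ne
  have ht0 : r + h ≠ 0 := ht.ne
  have h2 : (r + h) - ε ^ 2 / (4 * (r + h)) =
      r - ε ^ 2 / (4 * r) + (1 + ε ^ 2 / (4 * r ^ 2)) * h +
        ε ^ 2 / (4 * r ^ 2 * (-(r + h))) * h ^ 2 := by
    field_simp
    ring
  have h3 : ε ^ 2 / (4 * r ^ 2 * (-(r + h))) ≤ ε ^ 2 / (2 * (-r) ^ 3) := by
    have hpos : 0 < -r := by linarith
    refine div_le_div_of_nonneg_left (sq_nonneg ε) (by positivity) ?_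
    have : 0 ≤ r ^ 2 * (-r / 2 - h) := mul_nonneg (sq_nonneg r) (by linarith)
    nlinarith
  have h4 := mul_le_mul_of_nonneg_right h3 (sq_nonneg h)
  linarith

section
variable {P : Zs N →L[ℝ] ℝ} {Q : Zs N →L[ℝ] Zs N →L[ℝ] ℝ} {U : Zs N → ℝ} {C C' M R c ε : ℝ}

theorem exists_dir (P : Zs N →L[ℝ] ℝ) : ∃ η : Sp N, Dir P η := by
  by_cases hP : spat P = 0
  · refine ⟨0, by simp, fun ξ => ?_⟩
    rw [← D4_spat_apply, hP]
    simp
  · have hn : ‖spat P‖ ≠ 0 := norm_ne_zero_iff.2 hP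
    refine ⟨‖spat P‖⁻¹ • (InnerProductSpace.toDual ℝ (Sp N)).symm (spat P), ?_, fun ξ => ?_⟩
    · rw [norm_smul, LinearIsometryEquiv.norm_map, norm_inv, norm_norm, inv_mul_cancel₀ hn]
    · rw [real_inner_smul_left, InnerProductSpace.toDual_symm_apply, ← mul_assoc,
        mul_inv_cancel₀ hn, one_mul, D4_spat_apply]

private theorem D4_vec {η : Sp N} (h : Dir P η) :
    (InnerProductSpace.toDual ℝ (Sp N)).symm (spat P) = ‖spat P‖ • η := by
  refine ext_inner_right ℝ fun ξ => ?_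
  rw [InnerProductSpace.toDual_symm_apply, real_inner_smul_left, D4_spat_apply, h.2]

theorem Dir.norm_eq_one {η : Sp N} (h : Dir P η) (hP : spat P ≠ 0) : ‖η‖ = 1 := by
  have hn : ‖spat P‖ ≠ 0 := norm_ne_zero_iff.2 hP
  have h1 := congrArg norm (D4_vec h)
  rw [LinearIsometryEquiv.norm_map, norm_smul, norm_norm] at h1
  exact mul_left_cancel₀ hn (by rw [← h1, mul_one])

theorem Dir.unique {η η' : Sp N} (h : Dir P η) (h' : Dir P η') (hP : spat P ≠ 0) :
    η = η' := by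
  have hn : ‖spat P‖ ≠ 0 := norm_ne_zero_iff.2 hP
  exact smul_right_injective (Sp N) hn ((D4_vec h).symm.trans (D4_vec h'))

/-- The vector that represents the spatial gradient. -/
theorem Dir.vec {η : Sp N} (h : Dir P η) :
    (InnerProductSpace.toDual ℝ (Sp N)).symm (spat P) = ‖spat P‖ • η := D4_vec h

theorem norm_spat_le (P : Zs N →L[ℝ] ℝ) : ‖spat P‖ ≤ ‖P‖ := by
  refine ContinuousLinearMap.opNorm_le_bound _ (norm_nonneg _) fun ξ => ?_
  rw [D4_spat_apply]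
  have h := P.le_opNorm ((ξ, 0) : Zs N)
  simpa [Prod.norm_def] using h

/-- Compactness of the unit ball. -/
theorem closedAdm_ES : ClosedAdm (N := N) AdmES := by
  intro P Q h
  have hcl : IsClosed {η : Sp N | Dir P η} := by
    have e : {η : Sp N | Dir P η} =
        {η : Sp N | ‖η‖ ≤ 1} ∩ ⋂ ξ : Sp N, {η : Sp N | P (ξ, 0) = ‖spat P‖ * ⟪η, ξ⟫} := by
      ext η
      simp [Dir]
    rw [e]
    refine (isClosed_le continuous_norm continuous_const).inter
      (isClosed_iInter fun ξ => isClosed_eq continuous_const ?_)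
    fun_prop
  have hcp : IsCompact {η : Sp N | Dir P η} :=
    (isCompact_closedBall (0 : Sp N) 1).of_isClosed_subset hcl fun η hη => by
      simpa using hη.1
  have hf : Continuous fun η : Sp N => trQ Q - Q (η, 0) (η, 0) := by fun_prop
  obtain ⟨η₀, hη₀, hmax⟩ := hcp.exists_isMaxOn (exists_dir P) hf.continuousOn
  refine ⟨η₀, hη₀, D4_le_of_forall (K := N) fun ε hε => ?_⟩
  obtain ⟨η, hη, hle⟩ := h ε hε
  rw [D4_trQ_add_eucl, D4_add_eucl] at hle
  have h1 : trQ Q - Q (η, 0) (η, 0) ≤ trQ Q - Q (η₀, 0) (η₀, 0) := hmax hη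
  have h2 : 0 ≤ ε * ‖η‖ ^ 2 := by positivity
  linarith

theorem closedAdm_W (C : ℝ) : ClosedAdm (N := N) (AdmW C) := by
  intro P Q h
  refine ⟨fun hP η hη => D4_le_of_forall (K := N) fun ε hε => ?_,
    fun hP M hM hQ => D4_le_of_forall (K := C) fun ε hε => ?_⟩
  · have hle := (h ε hε).1 hP η hη
    rw [D4_trQ_add_eucl, D4_add_eucl] at hle
    have h2 : 0 ≤ ε * ‖η‖ ^ 2 := by positivity
    linarith
  · have hle := (h ε hε).2 hP (M + ε) (by linarith) fun ξ => by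
      rw [D4_add_eucl]
      have := hQ ξ
      linarith
    linarith

theorem AdmES.admW (h : AdmES P Q) : AdmW N P Q := by
  obtain ⟨η, hη, hle⟩ := h
  refine ⟨fun hP η' hη' => ?_, fun _ M hM hQ => hle.trans (trQ_sub_le hM hQ hη.1)⟩
  rwa [hη'.unique hη hP]

theorem AdmW.mono (h : AdmW C P Q) (hC : C ≤ C') : AdmW C' P Q :=
  ⟨h.1, fun hP M hM hQ => (h.2 hP M hM hQ).trans (mul_le_mul_of_nonneg_right hC hM)⟩

theorem Sub.admW (h : Sub AdmES U) (hC : (N : ℝ) ≤ C) : Sub (AdmW C) U :=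
  fun z hz P Q ht => (h z hz P Q ht).admW.mono hC

theorem Sub.add_const {A : (Zs N →L[ℝ] ℝ) → (Zs N →L[ℝ] Zs N →L[ℝ] ℝ) → Prop} (h : Sub A U)
    (a : ℝ) : Sub A fun z => U z + a := by
  intro z hz P Q ht
  refine h z hz P Q ?_
  filter_upwards [ht] with k hk
  linarith

/-- Where `a ≤ U z` the jet touches `U`; where `U z < a` it touches the constant, so `P = 0`. -/
theorem Sub.max_const (h : Sub (AdmW C) U) (hC : 0 ≤ C) (a : ℝ) :
    Sub (AdmW C) fun z => max (U z) a := by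
  intro z hz P Q ht
  rcases le_or_gt a (U z) with ha | ha
  · refine h z hz P Q ?_
    filter_upwards [ht] with k hk
    rw [max_eq_left ha] at hk
    exact (le_max_left _ _).trans hk
  · have hP : P = 0 := by
      refine ContinuousLinearMap.ext fun k => ?_
      have hc : Tendsto (fun s : ℝ => s • k) (𝓝 0) (𝓝 (0 : Zs N)) := by
        have : Continuous fun s : ℝ => s • k := by fun_prop
        simpa using this.tendsto 0
      have hl := jet_line (g := fun _ => (0 : ℝ)) (a := 0) (b := 0) (α := P k)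
        (β := (1 / 2) * Q k k) (by simp) (by
          filter_upwards [hc.eventually ht] with s hs
          rw [max_eq_right ha.le] at hs
          have h1 := le_max_right (U (z + s • k)) a
          simp only [map_smul, smul_apply, smul_eq_mul] at hs
          nlinarith)
      simpa using hl.1.symm
    subst hP
    refine ⟨fun hP => absurd (by ext1 ξ; simp [D4_spat_apply]) hP, fun _ M hM _ => ?_⟩
    simpa using mul_nonneg hC hM

theorem Th_le (ε s : ℝ) : Th ε s ≤ min s 0 := by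
  have h : |s| ≤ √(s ^ 2 + ε ^ 2) := Real.abs_le_sqrt (by nlinarith)
  have h1 := le_abs_self s
  have h2 := neg_abs_le s
  unfold Th
  exact le_min (by linarith) (by linarith)

theorem le_Th (hε : 0 ≤ ε) (s : ℝ) : min s 0 - ε / 2 ≤ Th ε s := by
  have h : √(s ^ 2 + ε ^ 2) ≤ |s| + ε := by
    refine Real.sqrt_le_iff.2 ⟨by positivity, ?_⟩
    have := sq_abs s
    have := mul_nonneg (abs_nonneg s) hε
    nlinarith
  unfold Th
  rcases le_total s 0 with hs | hs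
  · rw [min_eq_left hs]
    rw [abs_of_nonpos hs] at h
    linarith
  · rw [min_eq_right hs]
    rw [abs_of_nonneg hs] at h
    linarith

theorem continuous_Th (ε : ℝ) : Continuous (Th ε) := by
  unfold Th
  fun_prop

/-- A positive multiple of the jet and a multiple of `P ⊗ P` do not change admissibility. -/
theorem D4_admES_of_scale {a b : ℝ} (ha : 0 < a)
    (h : AdmES (a • P) (a • Q + b • P.smulRight P)) : AdmES P Q := by
  obtain ⟨η, hη, hle⟩ := h
  have hs : ‖spat (a • P)‖ = a * ‖spat P‖ := by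
    have : spat (a • P) = a • spat P := by
      ext1 ξ
      simp [D4_spat_apply]
    rw [this, norm_smul, Real.norm_of_nonneg ha.le]
  have hd : Dir P η := by
    refine ⟨hη.1, fun ξ => mul_left_cancel₀ ha.ne' ?_⟩
    have := hη.2 ξ
    rw [hs] at this
    simp only [smul_apply, smul_eq_mul] at this
    rw [this]
    ring
  have htr : trQ (P.smulRight P) = P (η, 0) * P (η, 0) := by
    by_cases hP : spat P = 0
    · have h0 : ∀ ξ : Sp N, P (ξ, 0) = 0 := fun ξ => by rw [← D4_spat_apply, hP]; rfl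
      simp [trQ, h0]
    · have h1 := hd.norm_eq_one hP
      have h2 : ∑ i, η i ^ 2 = 1 := by
        rw [← EuclideanSpace.real_norm_sq_eq, h1, one_pow]
      have h3 : P (η, 0) = ‖spat P‖ := by
        rw [hd.2, real_inner_self_eq_norm_sq, h1]
        ring
      have h4 : ∀ i, P (EuclideanSpace.single i 1, 0) = ‖spat P‖ * η i := fun i => by
        rw [hd.2]
        simp [EuclideanSpace.inner_single_right]
      simp only [trQ, ContinuousLinearMap.smulRight_apply, smul_apply,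
        smul_eq_mul, h3, h4]
      calc ∑ i, ‖spat P‖ * η i * (‖spat P‖ * η i)
          = ‖spat P‖ * ‖spat P‖ * ∑ i, η i ^ 2 := by
            rw [Finset.mul_sum]
            exact Finset.sum_congr rfl fun i _ => by ring
        _ = ‖spat P‖ * ‖spat P‖ := by rw [h2, mul_one]
  refine ⟨η, hd, le_of_mul_le_mul_left ?_ ha⟩
  rw [D4_trQ_add, D4_trQ_smul, D4_trQ_smul, htr] at hle
  simp only [add_apply, smul_apply,
    ContinuousLinearMap.smulRight_apply, smul_eq_mul] at hle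
  linarith

/-- With `Θ r = r - ε ^ 2 / (4 r)` one has `Θ (Th ε s) = s`, `Th ε s < 0`, and `Θ` is increasing
on the negative reals, with `Θ' = 1 + ε ^ 2 / (4 r ^ 2) > 0`. If `(P, Q)` touches `Th ε ∘ U`, then
`(Θ' • P, Θ' • Q + b • P ⊗ P + δ • eucl)` touches `U` for a large `b` and every `δ > 0`; use
`closedAdm_ES`.
The term `P ⊗ P` drops out because `∑ i, P (e i, 0) ^ 2 = ‖spat P‖ ^ 2 = P (η, 0) ^ 2`. -/
theorem Sub.relabel (h : Sub AdmES U) (hε : 0 < ε) : Sub AdmES fun z => Th ε (U z) := by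
  intro z hz P Q ht
  have hr : Th ε (U z) < 0 := D4_Th_neg hε _
  obtain ⟨r, hrdef⟩ : ∃ r, r = Th ε (U z) := ⟨_, rfl⟩
  rw [← hrdef] at hr
  have hU : r - ε ^ 2 / (4 * r) = U z := by rw [hrdef]; exact D4_Th_inv hε _
  obtain ⟨a, hadef⟩ : ∃ a, a = 1 + ε ^ 2 / (4 * r ^ 2) := ⟨_, rfl⟩
  obtain ⟨B, hBdef⟩ : ∃ B, B = ε ^ 2 / (2 * (-r) ^ 3) := ⟨_, rfl⟩
  have ha : 0 < a := by rw [hadef]; positivity
  have hB : 0 ≤ B := by
    have : 0 < -r := by linarith
    rw [hBdef]; positivity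
  refine D4_admES_of_scale (b := 4 * B) ha (closedAdm_ES _ _ fun δ hδ => h z hz _ _ ?_)
  have c1 : Continuous fun k : Zs N => P k + (1 / 2) * Q k k := by fun_prop
  have e1 : ∀ᶠ k in 𝓝 (0 : Zs N), P k + (1 / 2) * Q k k ≤ -r / 2 :=
    (c1.tendsto 0).eventually (eventually_le_nhds (by simp; linarith))
  have c2 : Continuous fun k : Zs N => B * ‖Q‖ ^ 2 * ‖k‖ ^ 2 := by fun_prop
  have e2 : ∀ᶠ k in 𝓝 (0 : Zs N), B * ‖Q‖ ^ 2 * ‖k‖ ^ 2 ≤ δ :=
    (c2.tendsto 0).eventually (eventually_le_nhds (by simpa using hδ))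
  filter_upwards [ht, e1, e2] with k hk h1 h2
  rw [← hrdef] at hk
  have h3 := D4_Theta_le (ε := ε) hr (D4_Th_neg hε (U (z + k)))
    (h := P k + (1 / 2) * Q k k) (by linarith) h1
  rw [D4_Th_inv hε, hU, ← hadef, ← hBdef] at h3
  have h4 : |Q k k| ≤ ‖Q‖ * ‖k‖ * ‖k‖ := by simpa using Q.le_opNorm₂ k k
  have h5 : (Q k k) ^ 2 ≤ (‖Q‖ * ‖k‖ * ‖k‖) ^ 2 := by
    rw [← sq_abs (Q k k)]
    exact pow_le_pow_left₀ (abs_nonneg _) h4 2
  have h6 : B * (Q k k) ^ 2 ≤ δ * eucl k k := by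
    calc B * (Q k k) ^ 2 ≤ B * (‖Q‖ * ‖k‖ * ‖k‖) ^ 2 := mul_le_mul_of_nonneg_left h5 hB
      _ = B * ‖Q‖ ^ 2 * ‖k‖ ^ 2 * ‖k‖ ^ 2 := by ring
      _ ≤ δ * ‖k‖ ^ 2 := mul_le_mul_of_nonneg_right h2 (sq_nonneg _)
      _ ≤ δ * eucl k k := mul_le_mul_of_nonneg_left (norm_sq_le_eucl k) hδ.le
  have h7 : B * (P k + (1 / 2) * Q k k) ^ 2 ≤ B * (2 * (P k) ^ 2 + (1 / 2) * (Q k k) ^ 2) :=
    mul_le_mul_of_nonneg_left (by nlinarith [sq_nonneg (P k - (1 / 2) * Q k k)]) hB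
  simp only [add_apply, smul_apply,
    ContinuousLinearMap.smulRight_apply, smul_eq_mul]
  nlinarith

theorem Nice.comp (h : Nice M R c U) {Φ : ℝ → ℝ} (hΦ : Continuous Φ) :
    ∃ M' : ℝ, Nice M' R (Φ c) fun z => Φ (U z) := by
  obtain ⟨M', hM'⟩ := (isCompact_Icc (a := -M) (b := M)).exists_bound_of_continuousOn
    hΦ.continuousOn
  exact ⟨M', hΦ.comp h.cont, fun z => hM' _ (abs_le.1 (h.bdd z)),
    fun z hz => by rw [h.out z hz]⟩

theorem Nice.neg (h : Nice M R c U) : Nice M R (-c) fun z => -U z :=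
  ⟨h.cont.neg, fun z => by rw [abs_neg]; exact h.bdd z, fun z hz => by rw [h.out z hz]⟩

/-- Uniform continuity on a slab. -/
theorem Nice.unif (h : Nice M R c U) (T : ℝ) (hε : 0 < ε) :
    ∃ δ : ℝ, 0 < δ ∧ ∀ z z' : Zs N, |z.2| ≤ T → ‖z' - z‖ ≤ δ → |U z' - U z| ≤ ε := by
  have huc := (isCompact_closedBall (0 : Zs N) (|R| + |T| + 2)).uniformContinuousOn_of_continuous
    h.cont.continuousOn
  obtain ⟨δ, hδ, hU⟩ := Metric.uniformContinuousOn_iff_le.1 huc ε hε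
  refine ⟨min δ 1, lt_min hδ one_pos, fun z z' hz hzz => ?_⟩
  have h1 : ‖z' - z‖ ≤ 1 := hzz.trans (min_le_right _ _)
  have h2 : ‖z' - z‖ ≤ δ := hzz.trans (min_le_left _ _)
  have hR := le_abs_self R
  have hR0 := abs_nonneg R
  have hT := le_abs_self T
  have hT0 := abs_nonneg T
  rcases le_total ‖z.1‖ (|R| + 1) with hx | hx
  · have h3 : ‖z‖ ≤ |R| + |T| + 1 := by
      rw [Prod.norm_def]
      exact max_le (by linarith) (by rw [Real.norm_eq_abs]; linarith)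
    have h4 : ‖z'‖ ≤ |R| + |T| + 2 := by
      have := norm_sub_norm_le z' z
      linarith
    have := hU z' (by simpa using h4) z (by simp; linarith) (by rwa [dist_eq_norm])
    rwa [Real.dist_eq] at this
  · have h3 : ‖z.1 - z'.1‖ ≤ 1 := by
      rw [norm_sub_rev]
      exact (norm_fst_le (z' - z)).trans h1
    have h4 : R ≤ ‖z'.1‖ := by
      have := norm_sub_norm_le z.1 z'.1
      linarith
    rw [h.out z' h4, h.out z (by linarith)]
    simpa using hε.le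

end

end Pool.Agent.MCF5
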