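import Pool.Agent.Lib.MP_5aed36_gt.Core

open MeasureTheory Set Filter Topology Metric
open scoped ENNReal NNReal RealInnerProductSpace

namespace Pool.Agent.MCF5

variable {N : ℕ}

section Expansion
variable {W : Type*} [NormedAddCommGroup W] [NormedSpace ℝ W] {f : W → ℝ} {z : W}
  {P : W →L[ℝ] ℝ} {Q : W →L[ℝ] W →L[ℝ] ℝ}

theorem D4a_quad_bigO (Q : W →L[ℝ] W →L[ℝ] ℝ) :
    (fun k : W => (1 / 2 : ℝ) * Q k k) =O[𝓝 (0 : W)] fun k => ‖k‖ ^ 2 := by
  refine Asymptotics.IsBigO.const_mul_left ?_ _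
  refine Asymptotics.IsBigO.of_bound ‖Q‖ (Eventually.of_forall fun k => ?_)
  have h := Q.le_opNorm₂ k k
  rw [Real.norm_of_nonneg (sq_nonneg ‖k‖)]
  calc ‖Q k k‖ ≤ ‖Q‖ * ‖k‖ * ‖k‖ := h
    _ = ‖Q‖ * ‖k‖ ^ 2 := by ring

theorem Expands.hasFDerivAt (h : Expands f z P Q) : HasFDerivAt f P z := by
  rw [hasFDerivAt_iff_isLittleO_nhds_zero]
  have h2 : (fun k : W => ‖k‖ ^ 2) =o[𝓝 (0 : W)] fun k => k :=
    Asymptotics.isLittleO_norm_pow_id (by norm_num)
  have h3 := (Asymptotics.IsLittleO.trans h h2).add ((D4a_quad_bigO Q).trans_isLittleO h2)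
  refine h3.congr_left fun k => ?_
  ring

theorem Expands.norm_le {K : ℝ≥0} (h : Expands f z P Q) (hf : LipschitzWith K f) :
    ‖P‖ ≤ K := h.hasFDerivAt.le_of_lipschitz hf

theorem Expands.add {g : W → ℝ} {P' : W →L[ℝ] ℝ} {Q' : W →L[ℝ] W →L[ℝ] ℝ}
    (h : Expands f z P Q) (h' : Expands g z P' Q') :
    Expands (fun w => f w + g w) z (P + P') (Q + Q') := by
  have h3 := Asymptotics.IsLittleO.add h h'
  refine h3.congr_left fun k => ?_
  simp only [_root_.add_apply]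
  ring

/-- Expansion along a parabola. -/
theorem Expands.curve (h : Expands f z P Q) (a b : W) :
    (fun s : ℝ => f (z + s • a + s ^ 2 • b) - f z - s * P a - s ^ 2 * (P b + (1 / 2) * Q a a))
      =o[𝓝 (0 : ℝ)] fun s => s ^ 2 := by
  have hc : Continuous fun s : ℝ => s • a + s ^ 2 • b := by fun_prop
  have ht : Tendsto (fun s : ℝ => s • a + s ^ 2 • b) (𝓝 0) (𝓝 0) := by
    have := hc.tendsto 0
    simpa using this
  have h1 := Asymptotics.IsLittleO.comp_tendsto h ht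
  have hc2 : Continuous fun s : ℝ => ‖a + s • b‖ ^ 2 := by fun_prop
  have h2 : (fun s : ℝ => ‖s • a + s ^ 2 • b‖ ^ 2) =O[𝓝 (0 : ℝ)] fun s => s ^ 2 := by
    have h3 : (fun s : ℝ => ‖a + s • b‖ ^ 2) =O[𝓝 (0 : ℝ)] fun _ => (1 : ℝ) :=
      (hc2.tendsto 0).isBigO_one ℝ
    have h4 := (Asymptotics.isBigO_refl (fun s : ℝ => s ^ 2) (𝓝 (0 : ℝ))).mul h3
    refine h4.congr (fun s => ?_) (fun s => by ring)
    have : s • a + s ^ 2 • b = s • (a + s • b) := by
      rw [smul_add, smul_smul, sq]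
    rw [this, norm_smul, mul_pow, Real.norm_eq_abs, sq_abs]
  have h5 := h1.trans_isBigO h2
  have hc3 : Continuous fun s : ℝ => (1 / 2 : ℝ) * (s * (Q a b + Q b a) + s ^ 2 * Q b b) := by
    fun_prop
  have h6 : (fun s : ℝ => (1 / 2 : ℝ) * (s * (Q a b + Q b a) + s ^ 2 * Q b b)) =o[𝓝 (0 : ℝ)]
      fun _ => (1 : ℝ) := by
    rw [Asymptotics.isLittleO_one_iff]
    have := hc3.tendsto 0
    simpa using this
  have h7 := (Asymptotics.isBigO_refl (fun s : ℝ => s ^ 2) (𝓝 (0 : ℝ))).mul_isLittleO h6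
  have h8 := h5.add (h7.congr_right (g₂ := fun s => s ^ 2) (fun s => by ring))
  refine h8.congr_left fun s => ?_
  simp only [Function.comp, map_add, map_smul, _root_.add_apply,
    _root_.smul_apply, smul_eq_mul, add_assoc]
  ring

theorem D4a_lin_zero {d C : ℝ} (h : ∀ᶠ s in 𝓝 (0 : ℝ), s * d ≤ s ^ 2 * C) : d = 0 := by
  have hc : Tendsto (fun s : ℝ => s * C) (𝓝 0) (𝓝 0) := by
    have : Continuous fun s : ℝ => s * C := by fun_prop
    simpa using this.tendsto 0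
  apply le_antisymm
  · refine ge_of_tendsto (x := 𝓝[>] (0 : ℝ)) (hc.mono_left nhdsWithin_le_nhds) ?_
    filter_upwards [h.filter_mono nhdsWithin_le_nhds, self_mem_nhdsWithin] with s hs hs0
    have hs0' : (0 : ℝ) < s := hs0
    have : s * d ≤ s * (s * C) := by nlinarith
    exact le_of_mul_le_mul_left this hs0'
  · refine le_of_tendsto (x := 𝓝[<] (0 : ℝ)) (hc.mono_left nhdsWithin_le_nhds) ?_
    filter_upwards [h.filter_mono nhdsWithin_le_nhds, self_mem_nhdsWithin] with s hs hs0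
    have hs0' : (0 : ℝ) < -s := by
      have : s < 0 := hs0
      linarith
    have : (-s) * (s * C) ≤ (-s) * d := by nlinarith
    exact le_of_mul_le_mul_left this hs0'

/-- First and second order conditions on the line. -/
theorem jet_line {g : ℝ → ℝ} {a b α β : ℝ}
    (h : (fun s : ℝ => g s - g 0 - s * a - s ^ 2 * b) =o[𝓝 (0 : ℝ)] fun s => s ^ 2)
    (hle : ∀ᶠ s in 𝓝 (0 : ℝ), g s ≤ g 0 + s * α + s ^ 2 * β) : a = α ∧ b ≤ β := by
  have key : ∀ δ : ℝ, 0 < δ → ∀ᶠ s in 𝓝 (0 : ℝ), s * (a - α) ≤ s ^ 2 * (β - b + δ) := by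
    intro δ hδ
    filter_upwards [h.bound hδ, hle] with s h1 h2
    rw [Real.norm_eq_abs, Real.norm_of_nonneg (sq_nonneg s)] at h1
    have h3 := (abs_le.1 h1).1
    nlinarith
  have ha : a - α = 0 := D4a_lin_zero (key 1 one_pos)
  refine ⟨by linarith, ?_⟩
  refine le_of_forall_pos_le_add fun δ hδ => ?_
  have h1 := ((key δ hδ).filter_mono (nhdsWithin_le_nhds (s := Ioi (0 : ℝ)))).and
    self_mem_nhdsWithin
  obtain ⟨s, hs, hs0⟩ := h1.exists
  have hs0' : (0 : ℝ) < s := hs0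
  rw [ha, mul_zero] at hs
  have h2 : 0 ≤ β - b + δ := by
    by_contra hneg
    have : s ^ 2 * (β - b + δ) < 0 := mul_neg_of_pos_of_neg (by positivity) (not_le.1 hneg)
    linarith
  linarith

theorem Expands.of_le (h : Expands f z P Q) {p : W →L[ℝ] ℝ} {ε : ℝ}
    (hle : ∀ᶠ k in 𝓝 (0 : W), f (z + k) ≤ f z + p k + ε * ‖k‖ ^ 2) :
    P = p ∧ ∀ k, Q k k ≤ 2 * ε * ‖k‖ ^ 2 := by
  have key : ∀ k : W, P k = p k ∧ (1 / 2) * Q k k ≤ ε * ‖k‖ ^ 2 := by
    intro k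
    have h1 := h.curve k 0
    have hc : Continuous fun s : ℝ => s • k := by fun_prop
    have ht : Tendsto (fun s : ℝ => s • k) (𝓝 0) (𝓝 0) := by
      simpa using hc.tendsto 0
    refine jet_line (g := fun s : ℝ => f (z + s • k)) ?_ ?_
    · refine h1.congr_left fun s => ?_
      simp
    · filter_upwards [ht.eventually hle] with s hs
      rw [map_smul, norm_smul, mul_pow, Real.norm_eq_abs, sq_abs, smul_eq_mul] at hs
      simp only [zero_smul, add_zero]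
      linarith
  refine ⟨ContinuousLinearMap.ext fun k => (key k).1, fun k => ?_⟩
  have := (key k).2
  linarith

/-- A midpoint inequality along the direction `k` bounds the second order jet from below. -/
theorem Expands.lower (h : Expands f z P Q) {k : W} {β : ℝ}
    (hm : ∀ᶠ s in 𝓝 (0 : ℝ), 2 * f z ≤ f (z + s • k) + f (z - s • k) + β * s ^ 2) :
    -β ≤ Q k k := by
  have h1 := ((h.curve k 0).add (h.curve (-k) 0)).neg_left
  have h2 := jet_line (g := fun s : ℝ => -(f (z + s • k) + f (z - s • k))) (a := 0)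
    (b := -Q k k) (α := 0) (β := β) ?_ ?_
  · linarith [h2.2]
  · refine h1.congr_left fun s => ?_
    simp only [smul_zero, add_zero, map_zero, zero_add, map_neg, smul_neg, zero_smul, sub_zero,
      _root_.neg_apply, ← sub_eq_add_neg]
    ring
  · filter_upwards [hm] with s hs
    simp only [zero_smul, add_zero, sub_zero]
    linarith

/-- The derivative is Lipschitz on the compact convex ball; mean value inequality for
`s ↦ φ (w + s k) + φ (w - s k)`. -/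
theorem midpoint_of_contDiff [FiniteDimensional ℝ W] {φ : W → ℝ} (hφ : ContDiff ℝ 2 φ) (w₀ : W)
    (r : ℝ) : ∃ C : ℝ, 0 ≤ C ∧ ∀ w k, w + k ∈ closedBall w₀ r → w - k ∈ closedBall w₀ r →
      |φ (w + k) + φ (w - k) - 2 * φ w| ≤ C * ‖k‖ ^ 2 := by
  have : ProperSpace W := FiniteDimensional.proper_real W
  have hd : ContDiff ℝ 1 (fderiv ℝ φ) := hφ.fderiv_right (by norm_num)
  obtain ⟨K, hK⟩ := (hd.contDiffOn (s := closedBall w₀ r)).exists_lipschitzOnWith (by norm_num)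
    (convex_closedBall w₀ r) (isCompact_closedBall w₀ r)
  refine ⟨2 * K, by positivity, fun w k h1 h2 => ?_⟩
  have hdiff : Differentiable ℝ φ := hφ.differentiable (by norm_num)
  have hmem : ∀ s : ℝ, -1 ≤ s → s ≤ 1 → w + s • k ∈ closedBall w₀ r := by
    intro s hs1 hs2
    have hcv : Convex ℝ (closedBall w₀ r) := convex_closedBall w₀ r
    have : ((1 + s) / 2) • (w + k) + ((1 - s) / 2) • (w - k) ∈ closedBall w₀ r :=
      hcv h1 h2 (by linarith) (by linarith) (by ring)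
    convert this using 1
    module
  have hder : ∀ s : ℝ, HasDerivAt (fun s : ℝ => φ (w + s • k) + φ (w - s • k))
      (fderiv ℝ φ (w + s • k) k - fderiv ℝ φ (w - s • k) k) s := by
    intro s
    have e1 : HasDerivAt (fun s : ℝ => w + s • k) k s := by
      simpa using ((hasDerivAt_id s).smul_const k).const_add w
    have e2 : HasDerivAt (fun s : ℝ => w - s • k) (-k) s := by
      simpa using ((hasDerivAt_id s).smul_const k).const_sub w
    have f1 := (hdiff (w + s • k)).hasFDerivAt.comp_hasDerivAt s e1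
    have f2 := (hdiff (w - s • k)).hasFDerivAt.comp_hasDerivAt s e2
    have := f1.add f2
    rw [map_neg, ← sub_eq_add_neg] at this
    exact this
  have hb : ∀ s ∈ Ico (0 : ℝ) 1,
      ‖fderiv ℝ φ (w + s • k) k - fderiv ℝ φ (w - s • k) k‖ ≤ 2 * K * ‖k‖ ^ 2 := by
    intro s hs
    have m1 := hmem s (by linarith [hs.1]) hs.2.le
    have m2 := hmem (-s) (by linarith [hs.2]) (by linarith [hs.1])
    rw [neg_smul, ← sub_eq_add_neg] at m2
    have l1 := hK.norm_sub_le m1 m2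
    have e : w + s • k - (w - s • k) = (2 * s) • k := by module
    rw [e, norm_smul, Real.norm_of_nonneg (by linarith [hs.1])] at l1
    have l2 := (fderiv ℝ φ (w + s • k) - fderiv ℝ φ (w - s • k)).le_opNorm k
    rw [_root_.sub_apply] at l2
    have hk := norm_nonneg k
    have hK0 : (0 : ℝ) ≤ K := K.2
    have l3 : (K : ℝ) * (2 * s * ‖k‖) ≤ K * (2 * ‖k‖) := by
      apply mul_le_mul_of_nonneg_left _ hK0
      nlinarith [hs.1, hs.2]
    calc _ ≤ ‖fderiv ℝ φ (w + s • k) - fderiv ℝ φ (w - s • k)‖ * ‖k‖ := l2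
      _ ≤ K * (2 * ‖k‖) * ‖k‖ := mul_le_mul_of_nonneg_right (l1.trans l3) hk
      _ = 2 * K * ‖k‖ ^ 2 := by ring
  have hmv := norm_image_sub_le_of_norm_deriv_le_segment_01'
    (f := fun s : ℝ => φ (w + s • k) + φ (w - s • k))
    (fun s _ => (hder s).hasDerivWithinAt) hb
  simp only [one_smul, zero_smul, add_zero, sub_zero, Real.norm_eq_abs] at hmv
  have e : φ (w + k) + φ (w - k) - 2 * φ w = φ (w + k) + φ (w - k) - (φ w + φ w) := by ring
  rw [e]
  exact hmv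

end Expansion

theorem D4a_eucl_self (k : Zs N) : eucl k k = ‖k.1‖ ^ 2 + ‖k.2‖ ^ 2 := by
  rw [eucl_apply, real_inner_self_eq_norm_sq, Real.norm_eq_abs, sq_abs]
  ring

theorem norm_sq_le_eucl (k : Zs N) : ‖k‖ ^ 2 ≤ eucl k k := by
  rw [D4a_eucl_self, Prod.norm_def]
  rcases le_total ‖k.1‖ ‖k.2‖ with h | h
  · rw [max_eq_right h]; nlinarith [sq_nonneg ‖k.1‖]
  · rw [max_eq_left h]; nlinarith [sq_nonneg ‖k.2‖]

theorem eucl_le (k : Zs N) : eucl k k ≤ 2 * ‖k‖ ^ 2 := by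
  rw [D4a_eucl_self]
  have h1 : ‖k.1‖ ^ 2 ≤ ‖k‖ ^ 2 := pow_le_pow_left₀ (norm_nonneg _) (norm_fst_le k) 2
  have h2 : ‖k.2‖ ^ 2 ≤ ‖k‖ ^ 2 := pow_le_pow_left₀ (norm_nonneg _) (norm_snd_le k) 2
  linarith

theorem eucl_space (ξ : Sp N) : eucl ((ξ, 0) : Zs N) (ξ, 0) = ‖ξ‖ ^ 2 := by
  rw [D4a_eucl_self]
  simp

theorem Expands.touch {U : Zs N → ℝ} {z : Zs N} {P : Zs N →L[ℝ] ℝ}
    {Q : Zs N →L[ℝ] Zs N →L[ℝ] ℝ} (h : Expands U z P Q) {ε : ℝ} (hε : 0 < ε) :
    Touch U z P (Q + ε • eucl) := by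
  have h1 := Asymptotics.IsLittleO.bound h (half_pos hε)
  filter_upwards [h1] with k hk
  rw [Real.norm_eq_abs, Real.norm_of_nonneg (sq_nonneg ‖k‖)] at hk
  have h2 := (abs_le.1 hk).2
  have h3 := mul_le_mul_of_nonneg_left (norm_sq_le_eucl k) (half_pos hε).le
  simp only [_root_.add_apply, _root_.smul_apply, smul_eq_mul]
  linarith

theorem D4a_sum_basis (a : Sp N) :
    ∑ i, ⟪a, (EuclideanSpace.single i 1 : Sp N)⟫ • (EuclideanSpace.single i 1 : Sp N) = a := by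
  have := (EuclideanSpace.basisFun (Fin N) ℝ).sum_repr' a
  simp only [EuclideanSpace.basisFun_apply] at this
  simpa only [real_inner_comm a] using this

theorem D4a_sum_lin (L : Sp N →L[ℝ] ℝ) (a : Sp N) :
    ∑ i, ⟪a, (EuclideanSpace.single i 1 : Sp N)⟫ * L (EuclideanSpace.single i 1) = L a := by
  conv_rhs => rw [← D4a_sum_basis a]
  rw [map_sum]
  simp only [map_smul, smul_eq_mul]

theorem D4a_sum_inner (a b : Sp N) :
    ∑ i, ⟪a, (EuclideanSpace.single i 1 : Sp N)⟫ * ⟪b, (EuclideanSpace.single i 1 : Sp N)⟫ =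
      ⟪b, a⟫ := D4a_sum_lin (innB b) a

/-- Removing an arbitrary pair of directions from the trace. -/
theorem D4a_trS_pair (X : Sp N →L[ℝ] Sp N →L[ℝ] ℝ) (e u : Sp N) :
    ∑ i, X (EuclideanSpace.single i 1 - ⟪e, EuclideanSpace.single i 1⟫ • e -
          ⟪u, EuclideanSpace.single i 1⟫ • u)
        (EuclideanSpace.single i 1 - ⟪e, EuclideanSpace.single i 1⟫ • e -
          ⟪u, EuclideanSpace.single i 1⟫ • u) =
      trS X - 2 * X e e - 2 * X u u + ⟪e, e⟫ * X e e + ⟪u, u⟫ * X u u +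
        ⟪u, e⟫ * (X e u + X u e) := by
  have a1 := D4a_sum_lin (X e) e
  have a2 := D4a_sum_lin (X u) u
  have a3 := D4a_sum_lin (X.flip e) e
  have a4 := D4a_sum_lin (X.flip u) u
  simp only [ContinuousLinearMap.flip_apply] at a3 a4
  rw [← D4a_sum_inner e e, ← D4a_sum_inner u u, ← D4a_sum_inner e u]
  have b : ∀ i, X (EuclideanSpace.single i 1 - ⟪e, EuclideanSpace.single i 1⟫ • e -
          ⟪u, EuclideanSpace.single i 1⟫ • u)
        (EuclideanSpace.single i 1 - ⟪e, EuclideanSpace.single i 1⟫ • e -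
          ⟪u, EuclideanSpace.single i 1⟫ • u) =
      X (EuclideanSpace.single i 1) (EuclideanSpace.single i 1) -
        ⟪e, (EuclideanSpace.single i 1 : Sp N)⟫ * X e (EuclideanSpace.single i 1) -
        ⟪u, (EuclideanSpace.single i 1 : Sp N)⟫ * X u (EuclideanSpace.single i 1) -
        ⟪e, (EuclideanSpace.single i 1 : Sp N)⟫ * X (EuclideanSpace.single i 1) e -
        ⟪u, (EuclideanSpace.single i 1 : Sp N)⟫ * X (EuclideanSpace.single i 1) u +
        ⟪e, (EuclideanSpace.single i 1 : Sp N)⟫ * ⟪e, (EuclideanSpace.single i 1 : Sp N)⟫ * X e e +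
        ⟪u, (EuclideanSpace.single i 1 : Sp N)⟫ * ⟪u, (EuclideanSpace.single i 1 : Sp N)⟫ * X u u +
        ⟪e, (EuclideanSpace.single i 1 : Sp N)⟫ * ⟪u, (EuclideanSpace.single i 1 : Sp N)⟫ *
          (X e u + X u e) := by
    intro i
    simp only [map_sub, map_smul, _root_.sub_apply, _root_.smul_apply,
      smul_eq_mul]
    ring
  simp only [b, Finset.sum_add_distrib, Finset.sum_sub_distrib, ← Finset.sum_mul, a1, a2, a3, a4,
    trS]
  ring

/-- Removing a unit direction from the trace: with `π ξ = ξ - ⟪n, ξ⟫ n`. -/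
theorem trS_proj (X : Sp N →L[ℝ] Sp N →L[ℝ] ℝ) {n : Sp N} (hn : ‖n‖ = 1) :
    ∑ i, X (EuclideanSpace.single i 1 - ⟪n, EuclideanSpace.single i 1⟫ • n)
        (EuclideanSpace.single i 1 - ⟪n, EuclideanSpace.single i 1⟫ • n) =
      trS X - X n n := by
  have h := D4a_trS_pair X n 0
  rw [real_inner_self_eq_norm_sq n, hn] at h
  simp only [smul_zero, sub_zero, map_zero, inner_zero_left, zero_mul, mul_zero, add_zero] at h
  rw [h]
  ring

/-- Removing an orthonormal pair from the trace. -/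
theorem trS_proj₂ (X : Sp N →L[ℝ] Sp N →L[ℝ] ℝ) {e u : Sp N} (he : ‖e‖ = 1) (hu : ‖u‖ = 1)
    (heu : ⟪e, u⟫ = 0) :
    ∑ i, X (EuclideanSpace.single i 1 - ⟪e, EuclideanSpace.single i 1⟫ • e -
          ⟪u, EuclideanSpace.single i 1⟫ • u)
        (EuclideanSpace.single i 1 - ⟪e, EuclideanSpace.single i 1⟫ • e -
          ⟪u, EuclideanSpace.single i 1⟫ • u) =
      trS X - X e e - X u u := by
  rw [D4a_trS_pair, real_inner_self_eq_norm_sq e, real_inner_self_eq_norm_sq u, he, hu,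
    real_inner_comm e u, heu]
  ring

theorem trS_sub_nonpos {X : Sp N →L[ℝ] Sp N →L[ℝ] ℝ} (hX : ∀ ξ, X ξ ξ ≤ 0) {η : Sp N}
    (hη : ‖η‖ ≤ 1) : trS X - X η η ≤ 0 := by
  by_cases h0 : η = 0
  · subst h0
    simp only [map_zero, sub_zero, trS]
    exact Finset.sum_nonpos fun i _ => hX _
  · have hp : 0 < ‖η‖ := norm_pos_iff.2 h0
    have hn : ‖(‖η‖⁻¹ • η : Sp N)‖ = 1 := by
      rw [norm_smul, norm_inv, norm_norm, inv_mul_cancel₀ hp.ne']
    have h1 := trS_proj X hn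
    have h2 : trS X - X (‖η‖⁻¹ • η) (‖η‖⁻¹ • η) ≤ 0 := by
      rw [← h1]
      exact Finset.sum_nonpos fun i _ => hX _
    have h3 : X η η = ‖η‖ ^ 2 * X (‖η‖⁻¹ • η) (‖η‖⁻¹ • η) := by
      simp only [map_smul, _root_.smul_apply, smul_eq_mul]
      field_simp
    have h4 := hX (‖η‖⁻¹ • η)
    have h5 : ‖η‖ ^ 2 ≤ 1 := by nlinarith
    rw [h3]
    nlinarith

/-- Apply `trS_sub_nonpos` to `X - M • innB`. -/
theorem trS_sub_le {X : Sp N →L[ℝ] Sp N →L[ℝ] ℝ} {M : ℝ} (hM : 0 ≤ M)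
    (hX : ∀ ξ, X ξ ξ ≤ M * ‖ξ‖ ^ 2) {η : Sp N} (hη : ‖η‖ ≤ 1) :
    trS X - X η η ≤ N * M := by
  have happ : ∀ ξ : Sp N, (X - M • innB (N := N)) ξ ξ = X ξ ξ - M * ‖ξ‖ ^ 2 := by
    intro ξ
    simp only [_root_.sub_apply, _root_.smul_apply, smul_eq_mul,
      innB_apply, real_inner_self_eq_norm_sq]
  have h1 := trS_sub_nonpos (X := X - M • innB (N := N)) (fun ξ => by rw [happ]; linarith [hX ξ]) hη
  have h2 : trS (X - M • innB (N := N)) = trS X - N * M := by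
    simp only [trS, happ, Finset.sum_sub_distrib]
    simp
  rw [h2, happ] at h1
  have h3 : 0 ≤ M * ‖η‖ ^ 2 := by positivity
  linarith

theorem trQ_sub_le {Q : Zs N →L[ℝ] Zs N →L[ℝ] ℝ} {M : ℝ} (hM : 0 ≤ M)
    (hQ : ∀ ξ : Sp N, Q (ξ, 0) (ξ, 0) ≤ M * ‖ξ‖ ^ 2) {η : Sp N} (hη : ‖η‖ ≤ 1) :
    trQ Q - Q (η, 0) (η, 0) ≤ N * M := by
  have h := trS_sub_le (X := Q.bilinearComp (ContinuousLinearMap.inl ℝ (Sp N) ℝ)
    (ContinuousLinearMap.inl ℝ (Sp N) ℝ)) hM (fun ξ => by simpa using hQ ξ) hη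
  simpa [trS, trQ] using h

/-- Polarisation. -/
theorem abs_bilin_le {X : Sp N →L[ℝ] Sp N →L[ℝ] ℝ} {Λ : ℝ} (hs : ∀ a b, X a b = X b a)
    (hX : ∀ ξ, |X ξ ξ| ≤ Λ * ‖ξ‖ ^ 2) (a b : Sp N) : |X a b| ≤ Λ * ‖a‖ * ‖b‖ := by
  have key : ∀ a b : Sp N, ‖a‖ = 1 → ‖b‖ = 1 → |X a b| ≤ Λ := by
    intro a b ha hb
    have h1 := abs_le.1 (hX (a + b))
    have h2 := abs_le.1 (hX (a - b))
    have h3 : X (a + b) (a + b) - X (a - b) (a - b) = 4 * X a b := by
      simp only [map_add, map_sub, _root_.add_apply, _root_.sub_apply,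
        hs b a]
      ring
    have h4 : ‖a + b‖ ^ 2 + ‖a - b‖ ^ 2 = 4 := by
      rw [norm_add_sq_real, norm_sub_sq_real, ha, hb]
      ring
    have h5 : Λ * ‖a + b‖ ^ 2 + Λ * ‖a - b‖ ^ 2 = 4 * Λ := by
      rw [← mul_add, h4, mul_comm]
    rw [abs_le]
    constructor <;> linarith [h1.1, h1.2, h2.1, h2.2]
  by_cases ha : a = 0
  · subst ha; simp
  by_cases hb : b = 0
  · subst hb; simp
  have pa : 0 < ‖a‖ := norm_pos_iff.2 ha
  have pb : 0 < ‖b‖ := norm_pos_iff.2 hb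
  have na : ‖(‖a‖⁻¹ • a : Sp N)‖ = 1 := by
    rw [norm_smul, norm_inv, norm_norm, inv_mul_cancel₀ pa.ne']
  have nb : ‖(‖b‖⁻¹ • b : Sp N)‖ = 1 := by
    rw [norm_smul, norm_inv, norm_norm, inv_mul_cancel₀ pb.ne']
  have h1 := key _ _ na nb
  have h2 : X a b = ‖a‖ * ‖b‖ * X (‖a‖⁻¹ • a) (‖b‖⁻¹ • b) := by
    simp only [map_smul, _root_.smul_apply, smul_eq_mul]
    field_simp
  rw [h2, abs_mul, abs_of_pos (mul_pos pa pb)]
  calc ‖a‖ * ‖b‖ * |X (‖a‖⁻¹ • a) (‖b‖⁻¹ • b)| ≤ ‖a‖ * ‖b‖ * Λ :=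
        mul_le_mul_of_nonneg_left h1 (mul_pos pa pb).le
    _ = Λ * ‖a‖ * ‖b‖ := by ring

end Pool.Agent.MCF5
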