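import Pool.Agent.Lib.MP_5aed36_gt.D4

open MeasureTheory Set Filter Topology Metric
open scoped ENNReal NNReal RealInnerProductSpace

namespace Pool.Agent.MCF5

variable {N : ℕ}

theorem D5a_small {C M : ℝ} {P : Zs N →L[ℝ] ℝ} {Q : Zs N →L[ℝ] Zs N →L[ℝ] ℝ} (hC : 0 ≤ C)
    (h : AdmW C P Q) (hM : 0 ≤ M) (hQ : ∀ ξ : Sp N, Q (ξ, 0) (ξ, 0) ≤ M * ‖ξ‖ ^ 2) :
    P (0, 1) ≤ (C + N) * M := by
  have hN : (0 : ℝ) ≤ N := Nat.cast_nonneg N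
  by_cases hP : spat P = 0
  · have := h.2 hP M hM hQ
    nlinarith [mul_nonneg hN hM]
  · obtain ⟨η, hη⟩ := exists_dir P
    have h1 := h.1 hP η hη
    have h2 := trQ_sub_le hM hQ hη.1
    nlinarith [mul_nonneg hC hM]

theorem D5a_dir {P₁ P₂ : Zs N →L[ℝ] ℝ} {η₁ η₂ : Sp N} {ε : ℝ} (h₁ : Dir P₁ η₁) (h₂ : Dir P₂ η₂)
    (hε : ‖spat P₁ + spat P₂‖ ≤ ε) : ‖spat P₁‖ * ‖η₁ + η₂‖ ≤ 2 * ε := by
  have hv : ‖‖spat P₁‖ • η₁ + ‖spat P₂‖ • η₂‖ ≤ ε := by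
    rw [← h₁.vec, ← h₂.vec, ← map_add, LinearIsometryEquiv.norm_map]
    exact hε
  have hab : |‖spat P₁‖ - ‖spat P₂‖| ≤ ε := by
    have := abs_norm_sub_norm_le (spat P₁) (-spat P₂)
    rw [norm_neg, sub_neg_eq_add] at this
    exact this.trans hε
  have he : ‖spat P₁‖ • (η₁ + η₂) =
      (‖spat P₁‖ • η₁ + ‖spat P₂‖ • η₂) + (‖spat P₁‖ - ‖spat P₂‖) • η₂ := by
    rw [smul_add, sub_smul]; abel
  have h3 : ‖(‖spat P₁‖ - ‖spat P₂‖) • η₂‖ ≤ ε := by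
    rw [norm_smul, Real.norm_eq_abs]
    calc |‖spat P₁‖ - ‖spat P₂‖| * ‖η₂‖ ≤ |‖spat P₁‖ - ‖spat P₂‖| * 1 :=
          mul_le_mul_of_nonneg_left h₂.1 (abs_nonneg _)
      _ ≤ ε := by rw [mul_one]; exact hab
  calc ‖spat P₁‖ * ‖η₁ + η₂‖ = ‖‖spat P₁‖ • (η₁ + η₂)‖ := by
        rw [norm_smul, Real.norm_eq_abs, abs_of_nonneg (norm_nonneg _)]
    _ ≤ ε + ε := by rw [he]; exact (norm_add_le _ _).trans (add_le_add hv h3)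
    _ = 2 * ε := by ring

theorem D5a_diff {Q : Zs N →L[ℝ] Zs N →L[ℝ] ℝ} {Λ : ℝ} (hΛ : 0 ≤ Λ)
    (hs : ∀ k l, Q k l = Q l k) (hQ : ∀ ξ : Sp N, |Q (ξ, 0) (ξ, 0)| ≤ Λ * ‖ξ‖ ^ 2)
    {η₁ η₂ : Sp N} (h₁ : ‖η₁‖ ≤ 1) (h₂ : ‖η₂‖ ≤ 1) :
    Q (η₁, 0) (η₁, 0) - Q (η₂, 0) (η₂, 0) ≤ 2 * Λ * ‖η₁ + η₂‖ := by
  set X : Sp N →L[ℝ] Sp N →L[ℝ] ℝ :=
    Q.bilinearComp (ContinuousLinearMap.inl ℝ (Sp N) ℝ) (ContinuousLinearMap.inl ℝ (Sp N) ℝ)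
    with hX
  have hXa : ∀ a b : Sp N, X a b = Q (a, 0) (b, 0) := fun a b => by simp [hX]
  have hb := abs_bilin_le (X := X) (Λ := Λ) (fun a b => by rw [hXa, hXa, hs])
    (fun ξ => by rw [hXa]; exact hQ ξ) (η₁ + η₂) (η₁ - η₂)
  have hexp : X (η₁ + η₂) (η₁ - η₂) = Q (η₁, 0) (η₁, 0) - Q (η₂, 0) (η₂, 0) := by
    simp only [map_add, map_sub, _root_.add_apply]
    rw [hXa, hXa, hXa, hXa, hs (η₂, 0) (η₁, 0)]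
    ring
  have hn : ‖η₁ - η₂‖ ≤ 2 := (norm_sub_le _ _).trans (by linarith)
  calc Q (η₁, 0) (η₁, 0) - Q (η₂, 0) (η₂, 0) ≤ Λ * ‖η₁ + η₂‖ * ‖η₁ - η₂‖ := by
        rw [← hexp]; exact (le_abs_self _).trans hb
    _ ≤ Λ * ‖η₁ + η₂‖ * 2 :=
        mul_le_mul_of_nonneg_left hn (mul_nonneg hΛ (norm_nonneg _))
    _ = 2 * Λ * ‖η₁ + η₂‖ := by ring

/-- If `‖spat P₁‖ ≤ σ / 2` both gradients are small, both forms lie below `τ + ε`, and each time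
derivative is at most `max C N * (τ + ε)` (`exists_dir`, `trQ_sub_le`). Otherwise the directions
satisfy `‖η₁ + η₂‖ ≤ 4 ε / σ`, and `trQ_sub_le` for `Q₁ + Q₂` with `abs_bilin_le` for `Q₂`
conclude. -/
theorem comparison_alg {C γ : ℝ} (Λ : ℝ) (hC : 0 ≤ C) (hγ : 0 < γ) :
    ∃ τ : ℝ, 0 < τ ∧ ∀ σ : ℝ, 0 < σ → ∃ ε : ℝ, 0 < ε ∧
      ∀ (P₁ P₂ : Zs N →L[ℝ] ℝ) (Q₁ Q₂ : Zs N →L[ℝ] Zs N →L[ℝ] ℝ),
        AdmW C P₁ Q₁ → AdmW C P₂ Q₂ → (∀ k l, Q₁ k l = Q₁ l k) → (∀ k l, Q₂ k l = Q₂ l k) →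
        (∀ ξ : Sp N, -Λ * ‖ξ‖ ^ 2 ≤ Q₁ (ξ, 0) (ξ, 0)) →
        (∀ ξ : Sp N, -Λ * ‖ξ‖ ^ 2 ≤ Q₂ (ξ, 0) (ξ, 0)) →
        (‖spat P₁‖ ≤ σ → ∀ ξ : Sp N, -τ * ‖ξ‖ ^ 2 ≤ Q₁ (ξ, 0) (ξ, 0)) →
        (‖spat P₂‖ ≤ σ → ∀ ξ : Sp N, -τ * ‖ξ‖ ^ 2 ≤ Q₂ (ξ, 0) (ξ, 0)) →
        ‖spat P₁ + spat P₂‖ ≤ ε →
        (∀ ξ : Sp N, Q₁ (ξ, 0) (ξ, 0) + Q₂ (ξ, 0) (ξ, 0) ≤ ε * ‖ξ‖ ^ 2) →
        P₁ (0, 1) + P₂ (0, 1) ≤ γ / 2 := by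
  have hN : (0 : ℝ) ≤ N := Nat.cast_nonneg N
  have hK : 0 < C + N + 1 := by linarith
  refine ⟨γ / (8 * (C + N + 1)), by positivity, fun σ hσ => ?_⟩
  set τ := γ / (8 * (C + N + 1)) with hτ
  have hτ0 : 0 < τ := by positivity
  have hτK : τ * (8 * (C + N + 1)) = γ := by rw [hτ]; field_simp
  set D : ℝ := N + 8 * (|Λ| + 1) / σ with hD
  have hD0 : 0 < D := by positivity
  refine ⟨min (min τ (σ / 4)) (min 1 (γ / (2 * D))), by positivity, ?_⟩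
  set ε := min (min τ (σ / 4)) (min 1 (γ / (2 * D))) with hε
  have hε0 : 0 < ε := by positivity
  have hετ : ε ≤ τ := (min_le_left _ _).trans (min_le_left _ _)
  have hεσ : ε ≤ σ / 4 := (min_le_left _ _).trans (min_le_right _ _)
  have hε1 : ε ≤ 1 := (min_le_right _ _).trans (min_le_left _ _)
  have hεD : ε * (2 * D) ≤ γ := by
    have : ε ≤ γ / (2 * D) := (min_le_right _ _).trans (min_le_right _ _)
    rwa [le_div_iff₀ (by positivity)] at this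
  clear_value ε
  intro P₁ P₂ Q₁ Q₂ hA₁ hA₂ _ hs₂ hl₁ hl₂ ht₁ ht₂ hsum hQ
  have hab : |‖spat P₁‖ - ‖spat P₂‖| ≤ ε := by
    have := abs_norm_sub_norm_le (spat P₁) (-spat P₂)
    rw [norm_neg, sub_neg_eq_add] at this
    exact this.trans hsum
  obtain ⟨hab1, hab2⟩ := abs_le.1 hab
  by_cases hsm : ‖spat P₁‖ ≤ σ / 2
  · have h1 := ht₁ (by linarith)
    have h2 := ht₂ (by linarith)
    have hM : 0 ≤ ε + τ := by linarith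
    have b1 := D5a_small hC hA₁ hM fun ξ => by have := hQ ξ; have := h2 ξ; linarith
    have b2 := D5a_small hC hA₂ hM fun ξ => by have := hQ ξ; have := h1 ξ; linarith
    have b3 : (C + N) * (ε + τ) ≤ (C + N + 1) * (2 * τ) :=
      mul_le_mul (by linarith) (by linarith) hM hK.le
    linarith
  · push Not at hsm
    have hP₁ : spat P₁ ≠ 0 := by
      intro h; rw [h, norm_zero] at hsm; linarith
    have hP₂ : spat P₂ ≠ 0 := by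
      intro h; rw [h, norm_zero] at hab2; linarith
    obtain ⟨η₁, hη₁⟩ := exists_dir P₁
    obtain ⟨η₂, hη₂⟩ := exists_dir P₂
    have a1 := hA₁.1 hP₁ η₁ hη₁
    have a2 := hA₂.1 hP₂ η₂ hη₂
    have hdir := D5a_dir hη₁ hη₂ hsum
    have hη : ‖η₁ + η₂‖ ≤ 4 * ε / σ := by
      rw [le_div_iff₀ hσ]
      nlinarith [norm_nonneg (η₁ + η₂)]
    have htr := trQ_sub_le (Q := Q₁ + Q₂) hε0.le (fun ξ => by simpa using hQ ξ) hη₁.1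
    have htr' : trQ (Q₁ + Q₂) = trQ Q₁ + trQ Q₂ := by
      simp [trQ, Finset.sum_add_distrib]
    have hΛ0 : 0 ≤ |Λ| + 1 := by positivity
    have hd := D5a_diff (Q := Q₂) hΛ0 hs₂ (fun ξ => by
      have e1 := hQ ξ
      have e2 := hl₁ ξ
      have e3 := hl₂ ξ
      have e4 : 0 ≤ ‖ξ‖ ^ 2 := by positivity
      have e5 : Λ * ‖ξ‖ ^ 2 ≤ |Λ| * ‖ξ‖ ^ 2 := mul_le_mul_of_nonneg_right (le_abs_self Λ) e4
      have e6 : ε * ‖ξ‖ ^ 2 ≤ 1 * ‖ξ‖ ^ 2 := mul_le_mul_of_nonneg_right hε1 e4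
      rw [abs_le]
      constructor <;> nlinarith) hη₁.1 hη₂.1
    have hd' : 2 * (|Λ| + 1) * ‖η₁ + η₂‖ ≤ 2 * (|Λ| + 1) * (4 * ε / σ) :=
      mul_le_mul_of_nonneg_left hη (by positivity)
    have hfin : N * ε + 2 * (|Λ| + 1) * (4 * ε / σ) = ε * D := by rw [hD]; ring
    rw [htr'] at htr
    simp only [_root_.add_apply] at htr
    linarith

end Pool.Agent.MCF5
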