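import Pool.Agent.Lib.MP_5aed36_gt.D1
import Pool.Agent.Lib.MP_5aed36_gt.D3
import Pool.Agent.Lib.MP_5aed36_gt.D5a
import Pool.Agent.Lib.MP_5aed36_gt.Alex

open MeasureTheory Set Filter Topology Metric
open scoped ENNReal NNReal RealInnerProductSpace

namespace Pool.Agent.MCF5

variable {N : ℕ}

/-- The second order jet of a sup-convolution is bounded below in the spatial directions. -/
theorem D5_lower {U : Zs N → ℝ} {M lam : ℝ} (hb : ∀ z, |U z| ≤ M) (hlam : 0 < lam) {z : Zs N}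
    {P : Zs N →L[ℝ] ℝ} {Q : Zs N →L[ℝ] Zs N →L[ℝ] ℝ} (h : Expands (supc lam U) z P Q)
    (ξ : Sp N) : -(6 / lam) * ‖ξ‖ ^ 2 ≤ Q (ξ, 0) (ξ, 0) := by
  have hn : ‖((ξ, 0) : Zs N)‖ = ‖ξ‖ := by simp [Prod.norm_def]
  have h1 : -((6 / lam) * ‖ξ‖ ^ 2) ≤ Q (ξ, 0) (ξ, 0) := by
    refine h.lower (Eventually.of_forall fun s => ?_)
    have h2 := supc_midpoint hb hlam z (s • ((ξ, 0) : Zs N))
    rw [norm_smul, hn, Real.norm_eq_abs, mul_pow, sq_abs] at h2
    linarith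
  linarith

/-- No interior maximum of the penalised sum of two sup-convolutions with admissible jets. -/
theorem D5_no_max {U W : Zs N → ℝ} {M M' C γ lam r : ℝ} (hC : 0 ≤ C) (hγ : 0 < γ)
    (hlam : 0 < lam) (hr : 0 < r) (hcU : Continuous U) (hcW : Continuous W)
    (hbU : ∀ z, |U z| ≤ M) (hbW : ∀ z, |W z| ≤ M') {w₀ : Zs N}
    (haU : ∀ z : Zs N, ‖z - w₀‖ < r → ∀ P Q, Expands (supc lam U) z P Q → AdmW C P Q)
    (haW : ∀ z : Zs N, ‖z - w₀‖ < r → ∀ P Q, Expands (supc lam W) z P Q → AdmW C P Q)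
    (hmax : IsMaxOn (fun z : Zs N => supc lam U z + supc lam W z - γ * z.2) (closedBall w₀ r) w₀) :
    False := by
  obtain ⟨KU, hKU⟩ := supc_lipschitz hcU hbU hlam
  obtain ⟨KW, hKW⟩ := supc_lipschitz hcW hbW hlam
  have hc1 := hKU.continuous
  have hc2 := hKW.continuous
  obtain ⟨τ, hτ, halg⟩ := comparison_alg (N := N) (6 / lam) hC hγ
  obtain ⟨σ, hσ, hsm⟩ := supc_small (N := N) hlam hτ
  obtain ⟨ε₀, hε₀, halg⟩ := halg σ hσ
  set ε : ℝ := min (ε₀ / 2) (min (γ / 4) r) with hεdef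
  have hε : 0 < ε := lt_min (by linarith) (lt_min (by linarith) hr)
  have hε1 : ε ≤ ε₀ / 2 := min_le_left _ _
  have hε2 : ε ≤ γ / 4 := (min_le_right _ _).trans (min_le_left _ _)
  have hε3 : ε ≤ r := (min_le_right _ _).trans (min_le_right _ _)
  have hA1 := alexandrov (Measure.addHaar : Measure (Zs N)) hc1 (supc_midpoint hbU hlam)
  have hA2 := alexandrov (Measure.addHaar : Measure (Zs N)) hc2 (supc_midpoint hbW hlam)
  have hG := hA1.and hA2
  have hcΨ : Continuous fun z : Zs N => supc lam U z + supc lam W z - γ * z.2 := by fun_prop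
  obtain ⟨w, hwG, hw, p, hp, hle⟩ := jensen (Measure.addHaar : Measure (Zs N)) hcΨ
    (C := 12 / lam) hr (fun w k _ _ _ => by
      have h1 := supc_midpoint hbU hlam w k
      have h2 := supc_midpoint hbW hlam w k
      have h3 : 12 / lam * ‖k‖ ^ 2 = 6 / lam * ‖k‖ ^ 2 + 6 / lam * ‖k‖ ^ 2 := by ring
      simp only [Prod.snd_add, Prod.snd_sub]
      linarith) hmax (mem_ae_iff.1 hG) hε
  obtain ⟨⟨P₁, Q₁, hs₁, hE₁⟩, ⟨P₂, Q₂, hs₂, hE₂⟩⟩ := hwG
  have hsum := (hE₁.add hE₂).of_le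
    (p := p + γ • ContinuousLinearMap.snd ℝ (Sp N) ℝ) (ε := ε) (by
      filter_upwards [hle] with k hk
      simp only [Prod.snd_add, add_apply, smul_apply,
        ContinuousLinearMap.coe_snd', smul_eq_mul] at hk ⊢
      linarith)
  obtain ⟨hP, hQ⟩ := hsum
  have hwr : ‖w - w₀‖ < r := hw.trans_le hε3
  have hsp : spat P₁ + spat P₂ = spat p := by
    ext1 ξ
    have h1 := congrArg (fun L : Zs N →L[ℝ] ℝ => L (ξ, 0)) hP
    simpa [spat] using h1
  have hfin := halg P₁ P₂ Q₁ Q₂ (haU w hwr _ _ hE₁) (haW w hwr _ _ hE₂) hs₁ hs₂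
    (D5_lower hbU hlam hE₁) (D5_lower hbW hlam hE₂)
    (hsm U M hcU hbU w P₁ Q₁ hE₁) (hsm W M' hcW hbW w P₂ Q₂ hE₂)
    (by rw [hsp]; linarith [norm_spat_le p])
    (fun ξ => by
      have h1 := hQ (ξ, 0)
      have hn : ‖((ξ, 0) : Zs N)‖ = ‖ξ‖ := by simp [Prod.norm_def]
      rw [hn] at h1
      simp only [add_apply] at h1
      nlinarith [sq_nonneg ‖ξ‖])
  have ht := congrArg (fun L : Zs N →L[ℝ] ℝ => L (0, 1)) hP
  simp only [add_apply, smul_apply,
    ContinuousLinearMap.coe_snd', smul_eq_mul, mul_one] at ht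
  have hp1 : |p (0, 1)| ≤ ε := by
    have h1 := p.le_opNorm ((0, 1) : Zs N)
    have hn : ‖((0, 1) : Zs N)‖ = 1 := by simp [Prod.norm_def]
    rw [hn, mul_one, Real.norm_eq_abs] at h1
    linarith
  have hp2 := neg_abs_le (p (0, 1))
  linarith

/-- Suppose `U z - V z = 3 m > 0`, so `0 < z.2`. Take `γ z.2 ≤ m` and maximise
`Φ = supc lam U + supc lam (-V) - γ t` on `0 ≤ t`. For `lam` small (`supc_close` on
`|t| ≤ T = (M + M') / γ + 1`, `Nice.unif`) the set `2 m ≤ Φ` is compact and lies in `2 δ ≤ t` with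
`δ` fixed before `lam`. At the maximum use `jensen` with the set where both sup-convolutions
expand (`alexandrov`), `Expands.of_le`, `supc_adm`, `supc_small`, `Expands.lower` and
`comparison_alg`. -/
theorem comparison {U V : Zs N → ℝ} {M M' R c c' C : ℝ} (hC : 0 ≤ C) (hU : Nice M R c U)
    (hV : Nice M' R c' V) (hsU : Sub (AdmW C) U) (hsV : Sub (AdmW C) fun z => -V z)
    (h0 : ∀ z : Zs N, z.2 ≤ 0 → U z ≤ V z) : ∀ z, U z ≤ V z := by
  intro z₀
  by_contra hne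
  rw [not_le] at hne
  have hW := hV.neg
  have ht₀ : 0 < z₀.2 := by
    by_contra h
    exact absurd (h0 z₀ (not_lt.1 h)) (not_le.2 hne)
  obtain ⟨m, hm⟩ : ∃ m : ℝ, m = (U z₀ - V z₀) / 3 := ⟨_, rfl⟩
  have hm0 : 0 < m := by rw [hm]; linarith
  obtain ⟨γ, hγdef⟩ : ∃ γ : ℝ, γ = m / z₀.2 := ⟨_, rfl⟩
  have hγ : 0 < γ := by rw [hγdef]; exact div_pos hm0 ht₀
  have hγt : γ * z₀.2 = m := by rw [hγdef]; field_simp
  obtain ⟨T, hT⟩ : ∃ T : ℝ, T = (M + M') / γ := ⟨_, rfl⟩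
  have hγT : γ * T = M + M' := by rw [hT]; field_simp
  have hm4 : 0 < m / 4 := by linarith
  obtain ⟨δ₁, hδ₁, hu₁⟩ := hU.unif T hm4
  obtain ⟨δ₂, hδ₂, hu₂⟩ := hV.unif T hm4
  obtain ⟨δ, hδdef⟩ : ∃ δ : ℝ, δ = min δ₁ δ₂ := ⟨_, rfl⟩
  have hδ : 0 < δ := by rw [hδdef]; exact lt_min hδ₁ hδ₂
  have hδa : δ ≤ δ₁ := by rw [hδdef]; exact min_le_left _ _
  have hδb : δ ≤ δ₂ := by rw [hδdef]; exact min_le_right _ _
  have hδ2 : 0 < δ / 2 := by linarith
  obtain ⟨l₁, hl₁, hcl₁⟩ := supc_close hU T hm4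
  obtain ⟨l₂, hl₂, hcl₂⟩ := supc_close hW T hm4
  obtain ⟨l₃, hl₃, had₁⟩ := supc_adm (closedAdm_W C) hU.cont hU.bdd hsU hδ2
  obtain ⟨l₄, hl₄, had₂⟩ := supc_adm (closedAdm_W C) hW.cont hW.bdd hsV hδ2
  obtain ⟨lam, hlamdef⟩ : ∃ lam : ℝ, lam = min (min l₁ l₂) (min l₃ l₄) := ⟨_, rfl⟩
  have hlam : 0 < lam := by rw [hlamdef]; exact lt_min (lt_min hl₁ hl₂) (lt_min hl₃ hl₄)
  have h₁ : lam ≤ l₁ := by rw [hlamdef]; exact (min_le_left _ _).trans (min_le_left _ _)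
  have h₂ : lam ≤ l₂ := by rw [hlamdef]; exact (min_le_left _ _).trans (min_le_right _ _)
  have h₃ : lam ≤ l₃ := by rw [hlamdef]; exact (min_le_right _ _).trans (min_le_left _ _)
  have h₄ : lam ≤ l₄ := by rw [hlamdef]; exact (min_le_right _ _).trans (min_le_right _ _)
  obtain ⟨Φ, hΦ⟩ : ∃ Φ : Zs N → ℝ,
      Φ = fun z : Zs N => supc lam U z + supc lam (fun z => -V z) z - γ * z.2 := ⟨_, rfl⟩
  have hΦc : Continuous Φ := by
    obtain ⟨KU, hKU⟩ := supc_lipschitz hU.cont hU.bdd hlam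
    obtain ⟨KW, hKW⟩ := supc_lipschitz hW.cont hW.bdd hlam
    have hc1 := hKU.continuous
    have hc2 := hKW.continuous
    rw [hΦ]
    fun_prop
  have hΦ₀ : 2 * m ≤ Φ z₀ := by
    have a1 := le_supc hU.bdd hlam z₀
    have a2 := le_supc hW.bdd hlam z₀
    rw [hΦ]
    simp only at a2 ⊢
    linarith
  have hloc : ∀ z : Zs N, 0 ≤ z.2 → 2 * m ≤ Φ z → ‖z.1‖ ≤ R ∧ δ < z.2 ∧ z.2 ≤ T := by
    intro z hz hΦz
    rw [hΦ] at hΦz
    simp only at hΦz
    have hzT : z.2 ≤ T := by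
      by_contra h
      have a1 := supc_le hU.bdd hlam z
      have a2 := supc_le hW.bdd hlam z
      have a3 : γ * T < γ * z.2 := mul_lt_mul_of_pos_left (not_le.1 h) hγ
      linarith
    have habs : |z.2| ≤ T := by rwa [abs_of_nonneg hz]
    have a1 := hcl₁ lam hlam h₁ z habs
    have a2 := hcl₂ lam hlam h₂ z habs
    have a3 : 0 ≤ γ * z.2 := mul_nonneg hγ.le hz
    have a4 := h0 (z.1, 0) le_rfl
    refine ⟨?_, ?_, hzT⟩
    · by_contra h
      have hR : R ≤ ‖z.1‖ := (not_le.1 h).le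
      have b1 := hU.out z hR
      have b2 := hV.out z hR
      have b3 := hU.out (z.1, 0) hR
      have b4 := hV.out (z.1, 0) hR
      linarith
    · by_contra h
      have hn : ‖((z.1, 0) : Zs N) - z‖ ≤ δ := by
        have : ((z.1, 0) : Zs N) - z = (0, -z.2) := by ext <;> simp
        rw [this]
        simp only [Prod.norm_def, norm_zero, norm_neg, Real.norm_eq_abs, abs_of_nonneg hz]
        exact max_le hδ.le (not_lt.1 h)
      have b1 := abs_le.1 (hu₁ z (z.1, 0) habs (hn.trans hδa))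
      have b2 := abs_le.1 (hu₂ z (z.1, 0) habs (hn.trans hδb))
      linarith [b1.1, b1.2, b2.1, b2.2]
  have hK : IsCompact (closedBall (0 : Sp N) R ×ˢ Icc (0 : ℝ) T) :=
    (isCompact_closedBall _ _).prod isCompact_Icc
  have hmemK : ∀ z : Zs N, 0 ≤ z.2 → 2 * m ≤ Φ z →
      z ∈ closedBall (0 : Sp N) R ×ˢ Icc (0 : ℝ) T := fun z hz h =>
    ⟨mem_closedBall_zero_iff.2 (hloc z hz h).1, hz, (hloc z hz h).2.2⟩
  obtain ⟨w₀, hw₀K, hw₀⟩ := hK.exists_isMaxOn ⟨z₀, hmemK z₀ ht₀.le hΦ₀⟩ hΦc.continuousOn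
  have hw₀m : 2 * m ≤ Φ w₀ := hΦ₀.trans (hw₀ (hmemK z₀ ht₀.le hΦ₀))
  have hw₀δ : δ < w₀.2 := (hloc w₀ hw₀K.2.1 hw₀m).2.1
  have hball : ∀ z : Zs N, ‖z - w₀‖ ≤ δ / 2 → δ / 2 ≤ z.2 := by
    intro z hz
    have b1 : |z.2 - w₀.2| ≤ δ / 2 := by
      have := norm_snd_le (z - w₀)
      rw [Prod.snd_sub, Real.norm_eq_abs] at this
      exact this.trans hz
    linarith [(abs_le.1 b1).1]
  refine D5_no_max (w₀ := w₀) hC hγ hlam hδ2 hU.cont hW.cont hU.bdd hW.bdd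
    (fun z hz => had₁ lam hlam h₃ z (hball z hz.le))
    (fun z hz => had₂ lam hlam h₄ z (hball z hz.le)) ?_
  rw [← hΦ]
  intro z hz
  have hz2 : 0 ≤ z.2 := hδ2.le.trans (hball z (mem_closedBall_iff_norm.1 hz))
  by_cases h : 2 * m ≤ Φ z
  · exact hw₀ (hmemK z hz2 h)
  · exact (not_le.1 h).le.trans hw₀m

/-- Compare `max (Th ε (U - b) + b) a` with `V` and let `ε → 0`. -/
theorem cl_le_of_sub {U V : Zs N → ℝ} {M M' R c c' C a b : ℝ} (hC : (N : ℝ) ≤ C)
    (hU : Nice M R c U) (hV : Nice M' R c' V) (hsU : Sub AdmES U)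
    (hsV : Sub (AdmW C) fun z => -V z)
    (h0 : ∀ z : Zs N, z.2 ≤ 0 → cl a b (U z) ≤ V z) : ∀ z, cl a b (U z) ≤ V z := by
  have hC0 : 0 ≤ C := (Nat.cast_nonneg N).trans hC
  intro z
  refine le_of_forall_pos_le_add fun ε hε => ?_
  have hΦ : Continuous fun s : ℝ => max (Th ε (s + -b) + b) a := by
    have := continuous_Th ε
    fun_prop
  obtain ⟨M₁, hN⟩ := hU.comp hΦ
  have hsub : Sub (AdmW C) fun z => max (Th ε (U z + -b) + b) a :=
    (((((hsU.add_const (-b)).relabel hε).admW hC).add_const b).max_const hC0 a)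
  have hup : ∀ s : ℝ, max (Th ε (s + -b) + b) a ≤ cl a b s := by
    intro s
    have h1 := Th_le ε (s + -b)
    have h2 : min (s + -b) 0 + b = min s b := by
      rcases le_total s b with h | h
      · rw [min_eq_left h, min_eq_left (by linarith)]; ring
      · rw [min_eq_right h, min_eq_right (by linarith)]; ring
    unfold cl
    exact max_le (le_max_of_le_right (by linarith)) (le_max_left _ _)
  have hlow : ∀ s : ℝ, cl a b s ≤ max (Th ε (s + -b) + b) a + ε := by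
    intro s
    have h1 := le_Th hε.le (s + -b)
    have h2 : min (s + -b) 0 + b = min s b := by
      rcases le_total s b with h | h
      · rw [min_eq_left h, min_eq_left (by linarith)]; ring
      · rw [min_eq_right h, min_eq_right (by linarith)]; ring
    have h3 := le_max_left (Th ε (s + -b) + b) a
    have h4 := le_max_right (Th ε (s + -b) + b) a
    unfold cl
    exact max_le (by linarith) (by linarith)
  have hcmp := comparison hC0 hN hV hsub hsV (fun z hz => (hup _).trans (h0 z hz)) z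
  have := hlow (U z)
  linarith

end Pool.Agent.MCF5
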