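import Pool.Agent.Lib.MP_5aed36_gt.D4a

open MeasureTheory Set Filter Topology Metric
open scoped ENNReal NNReal RealInnerProductSpace

namespace Pool.Agent.MCF5

variable {N : ℕ}

theorem D6_scalar {c θ D ω A₀ B₀ C₀ A₁ B₁ C₁ A₂ B₂ C₂ : ℝ} (hD : 0 < D) (hω : 0 < ω)
    (H : ∀ a₁ b₁ a₂ b₂ ϑ : ℝ,
      (((1 - θ) * a₁ + θ * a₂ + ϑ * D) ^ 2 * A₀ +
          2 * ((1 - θ) * a₁ + θ * a₂ + ϑ * D) * ((1 - θ) * b₁ + θ * b₂) * B₀ +
          ((1 - θ) * b₁ + θ * b₂) ^ 2 * C₀) +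
        (a₁ ^ 2 * A₁ + 2 * a₁ * b₁ * B₁ + b₁ ^ 2 * C₁) +
        (a₂ ^ 2 * A₂ + 2 * a₂ * b₂ * B₂ + b₂ ^ 2 * C₂) +
        2 * ϑ * (c * ((1 - 2 * θ) * D * (a₂ - a₁) + ω * (b₂ - b₁))) ≤
      2 * c * (θ * (1 - θ) * ((a₂ - a₁) ^ 2 + (b₂ - b₁) ^ 2) +
        2 * (1 - 2 * θ) * ϑ * (D * (a₂ - a₁)) - ϑ ^ 2 * D ^ 2)) :
    (ω ^ 2 * A₀ - 2 * (1 - 2 * θ) * D * ω * B₀ + (1 - 2 * θ) ^ 2 * D ^ 2 * C₀) /
        ((1 - 2 * θ) ^ 2 * D ^ 2 + ω ^ 2) +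
      (ω ^ 2 * A₁ - 2 * D * ω * B₁ + D ^ 2 * C₁) / (D ^ 2 + ω ^ 2) +
      (ω ^ 2 * A₂ + 2 * D * ω * B₂ + D ^ 2 * C₂) / (D ^ 2 + ω ^ 2) ≤ 0 := by
  have hr : 0 < D ^ 2 + ω ^ 2 := by positivity
  have hl : 0 < (1 - 2 * θ) ^ 2 * D ^ 2 + ω ^ 2 := by positivity
  have h1 := H (-ω * (D ^ 2 + ω ^ 2 - 2 * θ * D ^ 2)) (D * (D ^ 2 + ω ^ 2 - 2 * θ * D ^ 2))
    (-ω * (D ^ 2 + ω ^ 2 - 2 * (1 - θ) * D ^ 2)) (-D * (D ^ 2 + ω ^ 2 - 2 * (1 - θ) * D ^ 2))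
    (-4 * θ * (1 - θ) * D * ω)
  have h2 := H (-ω * (2 * θ * D * ω)) (D * (2 * θ * D * ω))
    (-ω * (2 * (1 - θ) * D * ω)) (-D * (2 * (1 - θ) * D * ω)) (4 * θ * (1 - θ) * ω ^ 2)
  set t₀ := ω ^ 2 * A₀ - 2 * (1 - 2 * θ) * D * ω * B₀ + (1 - 2 * θ) ^ 2 * D ^ 2 * C₀ with ht₀
  set t₁ := ω ^ 2 * A₁ - 2 * D * ω * B₁ + D ^ 2 * C₁ with ht₁
  set t₂ := ω ^ 2 * A₂ + 2 * D * ω * B₂ + D ^ 2 * C₂ with ht₂
  have h3 : (D ^ 2 + ω ^ 2) * ((D ^ 2 + ω ^ 2) * t₀ +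
      ((1 - 2 * θ) ^ 2 * D ^ 2 + ω ^ 2) * (t₁ + t₂)) ≤ 0 := by
    rw [ht₀, ht₁, ht₂]
    linarith
  have h4 : (D ^ 2 + ω ^ 2) * t₀ + ((1 - 2 * θ) ^ 2 * D ^ 2 + ω ^ 2) * (t₁ + t₂) ≤ 0 :=
    nonpos_of_mul_nonpos_right h3 hr
  have h5 : t₀ / ((1 - 2 * θ) ^ 2 * D ^ 2 + ω ^ 2) + t₁ / (D ^ 2 + ω ^ 2) + t₂ / (D ^ 2 + ω ^ 2) =
      ((D ^ 2 + ω ^ 2) * t₀ + ((1 - 2 * θ) ^ 2 * D ^ 2 + ω ^ 2) * (t₁ + t₂)) /
        (((1 - 2 * θ) ^ 2 * D ^ 2 + ω ^ 2) * (D ^ 2 + ω ^ 2)) := by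
    field_simp
    ring
  rw [h5]
  exact div_nonpos_of_nonpos_of_nonneg h4 (by positivity)

theorem D6_quad {X : Sp N →L[ℝ] Sp N →L[ℝ] ℝ} (hs : ∀ a b, X a b = X b a) (e u : Sp N)
    (a b : ℝ) : X (a • e + b • u) (a • e + b • u) =
      a ^ 2 * X e e + 2 * a * b * X e u + b ^ 2 * X u u := by
  simp only [map_add, map_smul, add_apply, smul_apply,
    smul_eq_mul]
  rw [hs u e]
  ring

theorem D6_inner {e u : Sp N} (he : ‖e‖ = 1) (hu : ‖u‖ = 1) (heu : ⟪e, u⟫ = 0) (a b a' b' : ℝ) :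
    ⟪a • e + b • u, a' • e + b' • u⟫ = a * a' + b * b' := by
  have hue : ⟪u, e⟫ = 0 := by rw [real_inner_comm]; exact heu
  simp only [inner_add_left, inner_add_right, real_inner_smul_left, real_inner_smul_right,
    real_inner_self_eq_norm_sq, he, hu, heu, hue]
  ring

/-- The tangential value of a form in the plane, for the direction of `a e + b u`. -/
theorem D6_tangent {X : Sp N →L[ℝ] Sp N →L[ℝ] ℝ} (hs : ∀ a b, X a b = X b a) {e u p η : Sp N}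
    (he : ‖e‖ = 1) (hu : ‖u‖ = 1) (heu : ⟪e, u⟫ = 0) {s a b : ℝ} (hs0 : s ≠ 0)
    (hab : 0 < a ^ 2 + b ^ 2) (hp : p = s • (a • e + b • u)) (hη : p = ‖p‖ • η) :
    X e e + X u u - X η η =
      (b ^ 2 * X e e - 2 * a * b * X e u + a ^ 2 * X u u) / (a ^ 2 + b ^ 2) := by
  have h1 : ‖p‖ ^ 2 = s ^ 2 * (a ^ 2 + b ^ 2) := by
    rw [hp, norm_smul, mul_pow, Real.norm_eq_abs, sq_abs, ← real_inner_self_eq_norm_sq,
      D6_inner he hu heu]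
    ring
  have h2 : X p p = ‖p‖ ^ 2 * X η η := by
    conv_lhs => rw [hη]
    simp only [map_smul, smul_apply, smul_eq_mul]
    ring
  have h3 : X p p = s ^ 2 * (a ^ 2 * X e e + 2 * a * b * X e u + b ^ 2 * X u u) := by
    rw [← D6_quad hs, hp]
    simp only [map_smul X s, smul_apply, map_smul _ s, smul_eq_mul]
    ring
  have h4 : (a ^ 2 + b ^ 2) * X η η = a ^ 2 * X e e + 2 * a * b * X e u + b ^ 2 * X u u := by
    have h5 : s ^ 2 ≠ 0 := pow_ne_zero 2 hs0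
    apply mul_left_cancel₀ h5
    rw [← h3, h2, h1]
    ring
  rw [eq_div_iff hab.ne']
  linarith

theorem D6_line {X : Sp N →L[ℝ] Sp N →L[ℝ] ℝ} {e p η : Sp N} (he : ‖e‖ = 1) {s : ℝ}
    (hs0 : s ≠ 0) (hp : p = s • e) (hη : p = ‖p‖ • η) : X η η = X e e := by
  have h1 : ‖p‖ ^ 2 = s ^ 2 := by
    rw [hp, norm_smul, he, mul_one, Real.norm_eq_abs, sq_abs]
  have h2 : X p p = ‖p‖ ^ 2 * X η η := by
    conv_lhs => rw [hη]
    simp only [map_smul, smul_apply, smul_eq_mul]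
    ring
  have h3 : X p p = s ^ 2 * X e e := by
    rw [hp]
    simp only [map_smul, smul_apply, smul_eq_mul]
    ring
  apply mul_left_cancel₀ (pow_ne_zero 2 hs0)
  rw [← h3, h2, h1]

theorem D6_trS_add (X Y : Sp N →L[ℝ] Sp N →L[ℝ] ℝ) : trS (X + Y) = trS X + trS Y := by
  simp [trS, Finset.sum_add_distrib]

theorem D6_sum_sq (e : Sp N) : ∑ i, ⟪e, EuclideanSpace.single i (1 : ℝ)⟫ ^ 2 = ‖e‖ ^ 2 := by
  rw [EuclideanSpace.real_norm_sq_eq]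
  refine Finset.sum_congr rfl fun i _ => ?_
  simp [EuclideanSpace.inner_single_right]

theorem three_alg {c γ Λ θ : ℝ} {x y : Sp N} (h : TPData c γ Λ 0 x y θ) (hxy : x ≠ y)
    (h0 : 0 < θ) (h1 : θ < 1) (hc : 0 < c) : γ ≤ 0 := by
  obtain ⟨x', y', θ', p₀, p₁, p₂, η₀, η₁, η₂, X₀, X₁, X₂, hx, hy, hθ, ⟨hη₀, e₀⟩, ⟨-, e₁⟩, ⟨-, e₂⟩,
    -, ⟨s₀, s₁, s₂⟩, -, f₁, f₂, f₃, H, hγ⟩ := h
  have hx' : x' = x := sub_eq_zero.1 (norm_le_zero_iff.1 hx)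
  have hy' : y' = y := sub_eq_zero.1 (norm_le_zero_iff.1 hy)
  have hθ' : θ' = θ := sub_eq_zero.1 (abs_nonpos_iff.1 hθ)
  subst hx' hy' hθ'
  set d : Sp N := y' - x' with hd
  have hd0 : d ≠ 0 := sub_ne_zero.2 hxy.symm
  clear_value d
  have hD : 0 < ‖d‖ := norm_pos_iff.2 hd0
  have g₁ := norm_le_zero_iff.1 f₁
  have g₂ := norm_le_zero_iff.1 f₂
  have g₃ : ⟪p₀, d⟫ = c * (1 - 2 * θ') * ‖d‖ ^ 2 := sub_eq_zero.1 (abs_nonpos_iff.1 f₃)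
  simp only [mul_zero, zero_mul, add_zero, sub_zero] at H hγ
  refine hγ.trans ?_
  obtain ⟨e, he, hde⟩ : ∃ e : Sp N, ‖e‖ = 1 ∧ d = ‖d‖ • e :=
    ⟨‖d‖⁻¹ • d, norm_smul_inv_norm hd0, by rw [smul_smul, mul_inv_cancel₀ hD.ne', one_smul]⟩
  generalize ‖d‖ = D at hD hde g₃ H
  subst hde
  obtain ⟨w, hw⟩ : ∃ w : Sp N, p₀ = c • (((1 - 2 * θ') * D) • e + w) :=
    ⟨c⁻¹ • p₀ - ((1 - 2 * θ') * D) • e, by
      rw [add_sub_cancel, smul_smul, mul_inv_cancel₀ hc.ne', one_smul]⟩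
  have hew : ⟪e, w⟫ = 0 := by
    rw [hw] at g₃
    simp only [inner_add_left, real_inner_smul_left, real_inner_smul_right,
      real_inner_self_eq_norm_sq, he] at g₃
    rw [real_inner_comm]
    have h5 : c * D * ⟪w, e⟫ = 0 := by linarith
    exact (mul_eq_zero.1 h5).resolve_left (mul_pos hc hD).ne'
  have hp₁ : p₁ = (-((1 - θ') * c)) • (D • e + w) := by
    have : p₁ = -((1 - θ') • p₀) - (2 * c * (θ' * (1 - θ'))) • D • e := by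
      rw [← sub_eq_zero, ← g₁]; abel
    rw [this, hw]
    module
  have hp₂ : p₂ = (θ' * c) • (D • e - w) := by
    have : p₂ = -(θ' • p₀) + (2 * c * (θ' * (1 - θ'))) • D • e := by
      rw [← sub_eq_zero, ← g₂]; abel
    rw [this, hw]
    module
  have hs₁ : -((1 - θ') * c) ≠ 0 := neg_ne_zero.2 (mul_pos (sub_pos.2 h1) hc).ne'
  have hs₂ : θ' * c ≠ 0 := (mul_pos h0 hc).ne'
  have hZ : ∀ ξ, (X₀ + X₁ + X₂) ξ ξ ≤ 0 := fun ξ => by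
    have h5 := H ξ ξ 0
    have h6 : (1 - θ') • ξ + θ' • ξ + (0 : ℝ) • D • e = ξ := by module
    rw [h6] at h5
    simpa using h5
  by_cases hw0 : w = 0
  · subst hw0
    have k₁ : X₁ η₁ η₁ = X₁ e e :=
      D6_line he (mul_ne_zero hs₁ hD.ne') (by rw [hp₁, add_zero, smul_smul]) e₁
    have k₂ : X₂ η₂ η₂ = X₂ e e :=
      D6_line he (mul_ne_zero hs₂ hD.ne') (by rw [hp₂, sub_zero, smul_smul]) e₂
    rw [k₁, k₂]
    by_cases hk : 1 - 2 * θ' = 0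
    · set π : Sp N →L[ℝ] Sp N := ContinuousLinearMap.id ℝ (Sp N) - (innB e).smulRight e with hπ
      have hπa : ∀ ξ, π ξ = ξ - ⟪e, ξ⟫ • e := fun ξ => by simp [hπ, innB_apply]
      set Y : Sp N →L[ℝ] Sp N →L[ℝ] ℝ := X₀ + X₁.bilinearComp π π + X₂.bilinearComp π π +
        (2 * c) • (innB e).smulRight (innB e) with hY
      have hYa : ∀ ξ, Y ξ ξ = X₀ ξ ξ + X₁ (π ξ) (π ξ) + X₂ (π ξ) (π ξ) + 2 * c * ⟪e, ξ⟫ ^ 2 :=
        fun ξ => by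
          simp only [hY, add_apply, ContinuousLinearMap.bilinearComp_apply,
            smul_apply, ContinuousLinearMap.smulRight_apply, innB_apply,
            smul_eq_mul]
          ring
      have hYn : ∀ ξ, Y ξ ξ ≤ 0 := fun ξ => by
        have h5 := H (π ξ) (π ξ) (⟪e, ξ⟫ / D)
        have h6 : (1 - θ') • π ξ + θ' • π ξ + (⟪e, ξ⟫ / D) • D • e = ξ := by
          rw [smul_smul, div_mul_cancel₀ _ hD.ne', hπa]
          module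
        rw [h6] at h5
        have h7 : (⟪e, ξ⟫ / D) ^ 2 * D ^ 2 = ⟪e, ξ⟫ ^ 2 := by field_simp
        simp only [sub_self, inner_zero_right, norm_zero, h7] at h5
        rw [hYa]
        linarith
      have h8 := trS_sub_nonpos hYn hη₀
      have h9 : trS Y = trS X₀ + (trS X₁ - X₁ e e) + (trS X₂ - X₂ e e) + 2 * c := by
        rw [← trS_proj X₁ he, ← trS_proj X₂ he]
        unfold trS
        simp only [hYa, hπa, Finset.sum_add_distrib, ← Finset.mul_sum, D6_sum_sq, he]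
        ring
      have h10 := H (π η₀) (-π η₀) 0
      have h11 : (1 - θ') • π η₀ + θ' • (-π η₀) + (0 : ℝ) • D • e = 0 := by
        have : (1 - θ') • π η₀ + θ' • (-π η₀) + (0 : ℝ) • D • e = (1 - 2 * θ') • π η₀ := by module
        rw [this, hk, zero_smul]
      have h12 : ‖-π η₀ - π η₀‖ ^ 2 = 4 * (‖η₀‖ ^ 2 - ⟪e, η₀⟫ ^ 2) := by
        have : -π η₀ - π η₀ = (-2 : ℝ) • π η₀ := by module
        rw [this, norm_smul, mul_pow, hπa, norm_sub_sq_real, norm_smul, he, real_inner_smul_right,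
          real_inner_comm e η₀]
        simp only [Real.norm_eq_abs, sq_abs, mul_one]
        ring
      rw [h11, h12] at h10
      simp only [map_zero, map_neg, neg_apply, neg_neg] at h10
      have hθ2 : θ' = 1 / 2 := by linarith
      rw [hθ2] at h10
      have h13 : ‖η₀‖ ^ 2 ≤ 1 := by nlinarith [norm_nonneg η₀]
      rw [h9, hYa] at h8
      nlinarith
    · have k₀ : X₀ η₀ η₀ = X₀ e e :=
        D6_line he (mul_ne_zero hc.ne' (mul_ne_zero hk hD.ne'))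
          (by rw [hw, add_zero, smul_smul]) e₀
      have h5 := trS_sub_nonpos hZ he.le
      rw [D6_trS_add, D6_trS_add] at h5
      simp only [add_apply] at h5
      rw [k₀]
      linarith
  · have hω : 0 < ‖w‖ := norm_pos_iff.2 hw0
    obtain ⟨u, hu, hwu⟩ : ∃ u : Sp N, ‖u‖ = 1 ∧ w = ‖w‖ • u :=
      ⟨‖w‖⁻¹ • w, norm_smul_inv_norm hw0, by rw [smul_smul, mul_inv_cancel₀ hω.ne', one_smul]⟩
    generalize ‖w‖ = ω at hω hwu
    subst hwu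
    have heu : ⟪e, u⟫ = 0 := by
      rw [real_inner_smul_right] at hew
      exact (mul_eq_zero.1 hew).resolve_left hω.ne'
    have k₀ := D6_tangent s₀ he hu heu hc.ne' (by positivity) hw e₀
    have k₁ := D6_tangent s₁ he hu heu hs₁ (by positivity) hp₁ e₁
    have k₂ := D6_tangent s₂ he hu heu (a := D) (b := -ω) hs₂ (by positivity)
      (by rw [hp₂, neg_smul, sub_eq_add_neg]) e₂
    have h5 : trS (X₀ + X₁ + X₂) - (X₀ + X₁ + X₂) e e - (X₀ + X₁ + X₂) u u ≤ 0 := by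
      rw [← trS_proj₂ _ he hu heu]
      exact Finset.sum_nonpos fun i _ => hZ _
    rw [D6_trS_add, D6_trS_add] at h5
    simp only [add_apply] at h5
    have h6 := D6_scalar (c := c) (θ := θ') (A₀ := X₀ e e) (B₀ := X₀ e u) (C₀ := X₀ u u)
      (A₁ := X₁ e e) (B₁ := X₁ e u) (C₁ := X₁ u u) (A₂ := X₂ e e) (B₂ := X₂ e u) (C₂ := X₂ u u)
      hD hω fun a₁ b₁ a₂ b₂ ϑ => by
        have h7 := H (a₁ • e + b₁ • u) (a₂ • e + b₂ • u) ϑ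
        have h8 : (1 - θ') • (a₁ • e + b₁ • u) + θ' • (a₂ • e + b₂ • u) + ϑ • D • e =
            ((1 - θ') * a₁ + θ' * a₂ + ϑ * D) • e + ((1 - θ') * b₁ + θ' * b₂) • u := by module
        have h9 : (a₂ • e + b₂ • u) - (a₁ • e + b₁ • u) = (a₂ - a₁) • e + (b₂ - b₁) • u := by
          module
        have h10 : D • e = D • e + (0 : ℝ) • u := by simp
        rw [h8, h9, D6_quad s₀, D6_quad s₁, D6_quad s₂, hw, real_inner_smul_left,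
          D6_inner he hu heu, ← real_inner_self_eq_norm_sq, D6_inner he hu heu, h10,
          D6_inner he hu heu] at h7
        linarith
    have k₀' : (ω ^ 2 * X₀ e e - 2 * ((1 - 2 * θ') * D) * ω * X₀ e u +
        ((1 - 2 * θ') * D) ^ 2 * X₀ u u) / (((1 - 2 * θ') * D) ^ 2 + ω ^ 2) =
        (ω ^ 2 * X₀ e e - 2 * (1 - 2 * θ') * D * ω * X₀ e u + (1 - 2 * θ') ^ 2 * D ^ 2 * X₀ u u) /
          ((1 - 2 * θ') ^ 2 * D ^ 2 + ω ^ 2) := by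
      congr 1 <;> ring
    have k₂' : ((-ω) ^ 2 * X₂ e e - 2 * D * (-ω) * X₂ e u + D ^ 2 * X₂ u u) / (D ^ 2 + (-ω) ^ 2) =
        (ω ^ 2 * X₂ e e + 2 * D * ω * X₂ e u + D ^ 2 * X₂ u u) / (D ^ 2 + ω ^ 2) := by
      congr 1 <;> ring
    rw [k₀'] at k₀
    rw [k₂'] at k₂
    linarith

end Pool.Agent.MCF5
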