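import Pool.Agent.Lib.MP_5aed36_gt.D4a

open MeasureTheory Set Filter Topology Metric
open scoped ENNReal NNReal RealInnerProductSpace

namespace Pool.Agent.MCF5

variable {N : ℕ}

/-- The three point function at `w = ((x, t), (y, θ))`. -/
noncomputable def tpF (F G : Zs N → ℝ) (c γ : ℝ) (w : Zs N × Zs N) : ℝ :=
  F (w.1.1 + w.2.2 • (w.2.1 - w.1.1), w.1.2) + G w.1 + G (w.2.1, w.1.2) -
    c * (w.2.2 * (1 - w.2.2)) * ‖w.2.1 - w.1.1‖ ^ 2 - γ * w.1.2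

/-- Fubini: for fixed `(y, θ)` with `θ ≠ 1` the map `(x, t) ↦ (x + θ (y - x), t)` is an affine
bijection. The other two maps are linear and onto. -/
theorem ae_three {S S' : Set (Zs N)} (hS : ∀ᵐ z, z ∈ S) (hS' : ∀ᵐ z, z ∈ S') :
    ∀ᵐ w : Zs N × Zs N, ((w.1.1 + w.2.2 • (w.2.1 - w.1.1), w.1.2) : Zs N) ∈ S ∧ w.1 ∈ S' ∧
      ((w.2.1, w.1.2) : Zs N) ∈ S' := by
  have h2 : ∀ᵐ w : Zs N × Zs N, w.1 ∈ S' :=
    (Measure.quasiMeasurePreserving_fst (μ := (volume : Measure (Zs N)))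
      (ν := (volume : Measure (Zs N)))).ae hS'
  have h3 : ∀ᵐ w : Zs N × Zs N, ((w.2.1, w.1.2) : Zs N) ∈ S' := by
    have hq : Measure.QuasiMeasurePreserving
        (Prod.map (Prod.fst : Zs N → Sp N) (Prod.snd : Zs N → ℝ))
        ((volume : Measure (Zs N)).prod (volume : Measure (Zs N)))
        ((volume : Measure (Sp N)).prod (volume : Measure ℝ)) :=
      QuasiMeasurePreserving.prodMap Measure.quasiMeasurePreserving_fst
        Measure.quasiMeasurePreserving_snd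
    exact (hq.comp (Measure.measurePreserving_swap (μ := (volume : Measure (Zs N)))
      (ν := (volume : Measure (Zs N)))).quasiMeasurePreserving).ae hS'
  have h1 : ∀ᵐ w : Zs N × Zs N, ((w.1.1 + w.2.2 • (w.2.1 - w.1.1), w.1.2) : Zs N) ∈ S := by
    obtain ⟨T, hST, hTm, hT0⟩ := exists_measurable_superset_of_null (ae_iff.1 hS)
    have hT : ∀ᵐ z : Zs N, z ∈ Tᶜ := by
      rw [ae_iff]
      simpa using hT0
    have hmap : Measurable fun w : Zs N × Zs N =>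
        ((w.1.1 + w.2.2 • (w.2.1 - w.1.1), w.1.2) : Zs N) := by fun_prop
    have hmeas : MeasurableSet {w : Zs N × Zs N |
        ((w.1.1 + w.2.2 • (w.2.1 - w.1.1), w.1.2) : Zs N) ∈ Tᶜ} := hmap hTm.compl
    have hne : ∀ᵐ b : Zs N, b.2 ≠ 1 :=
      (Measure.quasiMeasurePreserving_snd (μ := (volume : Measure (Sp N)))
        (ν := (volume : Measure ℝ))).ae (Measure.ae_ne volume 1)
    have hin : ∀ᵐ b : Zs N, ∀ᵐ a : Zs N, ((a.1 + b.2 • (b.1 - a.1), a.2) : Zs N) ∈ Tᶜ := by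
      filter_upwards [hne] with b hb
      have hs : Measure.QuasiMeasurePreserving (fun x : Sp N => (1 - b.2) • x + b.2 • b.1)
          volume volume :=
        (measurePreserving_add_right volume (b.2 • b.1)).quasiMeasurePreserving.comp
          (Measure.quasiMeasurePreserving_smul volume (sub_ne_zero.2 hb.symm))
      have hq := QuasiMeasurePreserving.prodMap hs
        (Measure.QuasiMeasurePreserving.id (volume : Measure ℝ))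
      filter_upwards [hq.ae hT] with a ha
      have : a.1 + b.2 • (b.1 - a.1) = (1 - b.2) • a.1 + b.2 • b.1 := by module
      rw [this]
      exact ha
    have hall : ∀ᵐ w : Zs N × Zs N, ((w.1.1 + w.2.2 • (w.2.1 - w.1.1), w.1.2) : Zs N) ∈ Tᶜ :=
      (Measure.ae_prod_iff_ae_ae hmeas).2 ((Measure.ae_ae_comm hmeas).2 hin)
    filter_upwards [hall] with w hw
    by_contra hc
    exact hw (hST hc)
  filter_upwards [h1, h2, h3] with w a b c using ⟨a, b, c⟩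

/-- A midpoint inequality with a bound on the step. -/
theorem D7m_mid {G : Zs N → ℝ} {Λ : ℝ}
    (hm : ∀ z k, 2 * G z ≤ G (z + k) + G (z - k) + Λ * ‖k‖ ^ 2) (z a : Zs N) {s : ℝ}
    (ha : ‖a‖ ≤ s) : 2 * G z ≤ G (z + a) + G (z - a) + |Λ| * s ^ 2 := by
  have h1 : Λ * ‖a‖ ^ 2 ≤ |Λ| * s ^ 2 :=
    mul_le_mul (le_abs_self _) (pow_le_pow_left₀ (norm_nonneg _) ha 2) (by positivity)
      (abs_nonneg _)
  linarith [hm z a]

/-- The point `z (w ± k)` is `z w ± a + b` with `‖a‖ ≤ C ‖k‖`, `‖b‖ ≤ 2 ‖k‖ ^ 2`. -/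
theorem tpF_midpoint {F G : Zs N → ℝ} {K : ℝ≥0} {Λ : ℝ} (c γ : ℝ) (hF : LipschitzWith K F)
    (hmF : ∀ z k, 2 * F z ≤ F (z + k) + F (z - k) + Λ * ‖k‖ ^ 2)
    (hmG : ∀ z k, 2 * G z ≤ G (z + k) + G (z - k) + Λ * ‖k‖ ^ 2) (w₀ : Zs N × Zs N) (r : ℝ) :
    ∃ C : ℝ, ∀ w k, w ∈ closedBall w₀ r → w + k ∈ closedBall w₀ r → w - k ∈ closedBall w₀ r →
      -(C * ‖k‖ ^ 2) ≤ tpF F G c γ (w + k) + tpF F G c γ (w - k) - 2 * tpF F G c γ w := by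
  have hφ : ContDiff ℝ 2 fun w : Zs N × Zs N =>
      c * (w.2.2 * (1 - w.2.2)) * ‖w.2.1 - w.1.1‖ ^ 2 + γ * w.1.2 := by
    have h1 : ContDiff ℝ 2 fun w : Zs N × Zs N => ‖w.2.1 - w.1.1‖ ^ 2 :=
      ContDiff.norm_sq ℝ (by fun_prop)
    have h2 : ContDiff ℝ 2 fun w : Zs N × Zs N => c * (w.2.2 * (1 - w.2.2)) := by fun_prop
    exact (h2.mul h1).add (by fun_prop)
  obtain ⟨C₀, -, hC₀⟩ := midpoint_of_contDiff hφ w₀ r
  set ρ : ℝ := ‖w₀‖ + r with hρ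
  refine ⟨|Λ| * (1 + 4 * ρ) ^ 2 + 4 * K + 2 * |Λ| + C₀, fun w k hw hp hm => ?_⟩
  have hwρ : ‖w‖ ≤ ρ := by
    have h1 : ‖w - w₀‖ ≤ r := mem_closedBall_iff_norm.1 hw
    have h2 : ‖w‖ ≤ ‖w - w₀‖ + ‖w₀‖ := by simpa using norm_add_le (w - w₀) w₀
    linarith
  have hP := (abs_le.1 (hC₀ w k hp hm)).2
  obtain ⟨⟨x, t⟩, ⟨y, θ⟩⟩ := w
  obtain ⟨⟨ξ, τ⟩, ⟨η, ϑ⟩⟩ := k
  set κ : ℝ := ‖(((ξ, τ), (η, ϑ)) : Zs N × Zs N)‖ with hκ
  have hκ0 : 0 ≤ κ := norm_nonneg _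
  have hk1 : ‖((ξ, τ) : Zs N)‖ ≤ κ := norm_fst_le (((ξ, τ), (η, ϑ)) : Zs N × Zs N)
  have hk2 : ‖((η, ϑ) : Zs N)‖ ≤ κ := norm_snd_le (((ξ, τ), (η, ϑ)) : Zs N × Zs N)
  have hξ : ‖ξ‖ ≤ κ := (norm_fst_le ((ξ, τ) : Zs N)).trans hk1
  have hτ : ‖τ‖ ≤ κ := (norm_snd_le ((ξ, τ) : Zs N)).trans hk1
  have hη : ‖η‖ ≤ κ := (norm_fst_le ((η, ϑ) : Zs N)).trans hk2
  have hϑ : ‖ϑ‖ ≤ κ := (norm_snd_le ((η, ϑ) : Zs N)).trans hk2
  have hw1 : ‖((x, t) : Zs N)‖ ≤ ρ := (norm_fst_le (((x, t), (y, θ)) : Zs N × Zs N)).trans hwρ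
  have hw2 : ‖((y, θ) : Zs N)‖ ≤ ρ := (norm_snd_le (((x, t), (y, θ)) : Zs N × Zs N)).trans hwρ
  have hx : ‖x‖ ≤ ρ := (norm_fst_le ((x, t) : Zs N)).trans hw1
  have hy : ‖y‖ ≤ ρ := (norm_fst_le ((y, θ) : Zs N)).trans hw2
  have hθ : ‖θ‖ ≤ ρ := (norm_snd_le ((y, θ) : Zs N)).trans hw2
  have hρ0 : 0 ≤ ρ := (norm_nonneg _).trans hx
  have hd : ‖η - ξ‖ ≤ 2 * κ := (norm_sub_le _ _).trans (by linarith)
  have hyx : ‖y - x‖ ≤ 2 * ρ := (norm_sub_le _ _).trans (by linarith)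
  set z : Zs N := (x + θ • (y - x), t) with hz
  set a : Zs N := (ξ + θ • (η - ξ) + ϑ • (y - x), τ) with ha
  set b : Zs N := (ϑ • (η - ξ), 0) with hb
  have hna : ‖a‖ ≤ (1 + 4 * ρ) * κ := by
    have h1 : ‖θ • (η - ξ)‖ ≤ ρ * (2 * κ) := by
      rw [norm_smul]
      exact mul_le_mul hθ hd (norm_nonneg _) hρ0
    have h2 : ‖ϑ • (y - x)‖ ≤ κ * (2 * ρ) := by
      rw [norm_smul]
      exact mul_le_mul hϑ hyx (norm_nonneg _) hκ0
    have h3 : ‖ξ + θ • (η - ξ) + ϑ • (y - x)‖ ≤ ‖ξ‖ + ‖θ • (η - ξ)‖ + ‖ϑ • (y - x)‖ :=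
      norm_add₃_le
    have h4 : 0 ≤ ρ * κ := mul_nonneg hρ0 hκ0
    rw [ha, Prod.norm_mk]
    exact max_le (by linarith) (by linarith)
  have hnb : ‖b‖ ≤ 2 * κ ^ 2 := by
    have h1 : ‖ϑ • (η - ξ)‖ ≤ κ * (2 * κ) := by
      rw [norm_smul]
      exact mul_le_mul hϑ hd (norm_nonneg _) hκ0
    rw [hb, Prod.norm_mk]
    exact max_le (by linarith) (by rw [norm_zero]; positivity)
  have hL : ∀ u : Zs N, F u - K * (2 * κ ^ 2) ≤ F (u + b) := by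
    intro u
    have h1 := hF.dist_le_mul u (u + b)
    rw [dist_self_add_right, Real.dist_eq] at h1
    have h2 : (K : ℝ) * ‖b‖ ≤ K * (2 * κ ^ 2) := mul_le_mul_of_nonneg_left hnb K.coe_nonneg
    linarith [le_abs_self (F u - F (u + b))]
  have e1 : ((x + ξ + (θ + ϑ) • (y + η - (x + ξ)), t + τ) : Zs N) = z + a + b := by
    rw [hz, ha, hb]
    refine Prod.ext ?_ ?_
    · simp only [Prod.fst_add]
      module
    · simp
  have e2 : ((x - ξ + (θ - ϑ) • (y - η - (x - ξ)), t - τ) : Zs N) = z - a + b := by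
    rw [hz, ha, hb]
    refine Prod.ext ?_ ?_
    · simp only [Prod.fst_add, Prod.fst_sub]
      module
    · simp
  have hF1 := D7m_mid hmF z a hna
  have hG1 := D7m_mid hmG (x, t) (ξ, τ) hk1
  have hG2 := D7m_mid hmG (y, t) (η, τ) (s := κ) (by rw [Prod.norm_mk]; exact max_le hη hτ)
  have hL1 := hL (z + a)
  have hL2 := hL (z - a)
  simp only [tpF, Prod.mk_add_mk, Prod.mk_sub_mk] at hP hG1 hG2 ⊢
  rw [e1, e2]
  nlinarith [hP, hF1, hG1, hG2, hL1, hL2]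

end Pool.Agent.MCF5
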