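import Pool.Agent.Lib.MP_5aed36_gt.D1
import Pool.Agent.Lib.MP_5aed36_gt.D4
import Pool.Agent.Lib.MP_5aed36_gt.D7m
import Pool.Agent.Lib.MP_5aed36_gt.Alex

open MeasureTheory Set Filter Topology Metric
open scoped ENNReal NNReal RealInnerProductSpace

namespace Pool.Agent.MCF5

variable {N : ℕ}

private theorem D7a_cube (A B : ℝ) :
    (fun s : ℝ => s ^ 3 * A + s ^ 4 * B) =o[𝓝 (0 : ℝ)] fun s => s ^ 2 := by
  have h3 : (fun s : ℝ => s ^ 3) =o[𝓝 (0 : ℝ)] fun s => s ^ 2 :=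
    Asymptotics.isLittleO_pow_pow (by norm_num)
  have h4 : (fun s : ℝ => s ^ 4) =o[𝓝 (0 : ℝ)] fun s => s ^ 2 :=
    Asymptotics.isLittleO_pow_pow (by norm_num)
  have := (h3.const_mul_left A).add (h4.const_mul_left B)
  refine this.congr_left fun s => ?_
  ring

/-- First and second order conditions along the line `w + s k`. -/
private theorem D7a_line {F G : Zs N → ℝ} {c γ ε θ t : ℝ} {x y : Sp N}
    {P₀ P₁ P₂ : Zs N →L[ℝ] ℝ} {Q₀ Q₁ Q₂ : Zs N →L[ℝ] Zs N →L[ℝ] ℝ}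
    (h₀ : Expands F (x + θ • (y - x), t) P₀ Q₀) (h₁ : Expands G (x, t) P₁ Q₁)
    (h₂ : Expands G (y, t) P₂ Q₂) {p : Zs N × Zs N →L[ℝ] ℝ}
    (hle : ∀ᶠ k in 𝓝 (0 : Zs N × Zs N), tpF F G c γ (((x, t), (y, θ)) + k) ≤
      tpF F G c γ ((x, t), (y, θ)) + p k + ε * ‖k‖ ^ 2) (ξ₁ ξ₂ : Sp N) (τ ϑ : ℝ) :
    P₀ ((1 - θ) • ξ₁ + θ • ξ₂ + ϑ • (y - x), τ) + P₁ (ξ₁, τ) + P₂ (ξ₂, τ) -
        c * (2 * (θ * (1 - θ)) * ⟪y - x, ξ₂ - ξ₁⟫ + ϑ * (1 - 2 * θ) * ‖y - x‖ ^ 2) - γ * τ =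
      p ((ξ₁, τ), (ξ₂, ϑ)) ∧
    P₀ (ϑ • (ξ₂ - ξ₁), 0) +
        (1 / 2) * Q₀ ((1 - θ) • ξ₁ + θ • ξ₂ + ϑ • (y - x), τ)
          ((1 - θ) • ξ₁ + θ • ξ₂ + ϑ • (y - x), τ) +
        (1 / 2) * Q₁ (ξ₁, τ) (ξ₁, τ) + (1 / 2) * Q₂ (ξ₂, τ) (ξ₂, τ) -
        c * (θ * (1 - θ) * ‖ξ₂ - ξ₁‖ ^ 2 + 2 * (1 - 2 * θ) * ϑ * ⟪y - x, ξ₂ - ξ₁⟫ -
          ϑ ^ 2 * ‖y - x‖ ^ 2) ≤
      ε * ‖(((ξ₁, τ), (ξ₂, ϑ)) : Zs N × Zs N)‖ ^ 2 := by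
  set k : Zs N × Zs N := ((ξ₁, τ), (ξ₂, ϑ)) with hk
  set a : Zs N := ((1 - θ) • ξ₁ + θ • ξ₂ + ϑ • (y - x), τ) with ha
  set b : Zs N := (ϑ • (ξ₂ - ξ₁), 0) with hb
  have e₀ := h₀.curve a b
  have e₁ := h₁.curve (ξ₁, τ) 0
  have e₂ := h₂.curve (ξ₂, τ) 0
  have e₃ := D7a_cube
    (-(c * ((1 - 2 * θ) * ϑ * ‖ξ₂ - ξ₁‖ ^ 2 - 2 * ϑ ^ 2 * ⟪y - x, ξ₂ - ξ₁⟫)))
    (c * ϑ ^ 2 * ‖ξ₂ - ξ₁‖ ^ 2)
  have hval : ∀ s : ℝ, tpF F G c γ (((x, t), (y, θ)) + s • k) =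
      F ((x + θ • (y - x), t) + s • a + s ^ 2 • b) +
        G ((x, t) + s • ((ξ₁, τ) : Zs N) + s ^ 2 • (0 : Zs N)) +
        G ((y, t) + s • ((ξ₂, τ) : Zs N) + s ^ 2 • (0 : Zs N)) -
        c * ((θ + s * ϑ) * (1 - (θ + s * ϑ))) *
          (‖y - x‖ ^ 2 + 2 * (s * ⟪y - x, ξ₂ - ξ₁⟫) + s ^ 2 * ‖ξ₂ - ξ₁‖ ^ 2) -
        γ * (t + s * τ) := by
    intro s
    have n1 : y + s • ξ₂ - (x + s • ξ₁) = (y - x) + s • (ξ₂ - ξ₁) := by module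
    have n2 : ‖(y - x) + s • (ξ₂ - ξ₁)‖ ^ 2 =
        ‖y - x‖ ^ 2 + 2 * (s * ⟪y - x, ξ₂ - ξ₁⟫) + s ^ 2 * ‖ξ₂ - ξ₁‖ ^ 2 := by
      rw [norm_add_sq_real, real_inner_smul_right, norm_smul, mul_pow, Real.norm_eq_abs, sq_abs]
    have n3 : ((x + s • ξ₁ + (θ + s * ϑ) • ((y - x) + s • (ξ₂ - ξ₁)), t + s * τ) : Zs N) =
        (x + θ • (y - x), t) + s • a + s ^ 2 • b := by
      refine Prod.ext ?_ ?_
      · simp only [ha, hb, Prod.fst_add, Prod.smul_fst]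
        module
      · simp [ha, hb]
    simp only [tpF, hk, Prod.fst_add, Prod.snd_add, Prod.smul_fst, Prod.smul_snd, smul_eq_mul,
      smul_zero, add_zero]
    rw [n1, n2, n3]
    rfl
  have hline : Tendsto (fun s : ℝ => s • k) (𝓝 0) (𝓝 0) := by
    have : Continuous fun s : ℝ => s • k := by fun_prop
    simpa using this.tendsto 0
  refine jet_line (g := fun s : ℝ => tpF F G c γ (((x, t), (y, θ)) + s • k)) ?_ ?_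
  · refine (((e₀.add e₁).add e₂).add e₃).congr_left fun s => ?_
    simp only [hval]
    simp only [zero_smul, add_zero, map_zero, smul_zero, ne_eq, OfNat.ofNat_ne_zero,
      not_false_eq_true, zero_pow]
    ring
  · filter_upwards [hline.eventually hle] with s hs
    simp only [zero_smul, add_zero]
    rw [map_smul, norm_smul, mul_pow, Real.norm_eq_abs, sq_abs, smul_eq_mul] at hs
    linarith

private theorem D7a_norm_le {v : Sp N} {ε : ℝ} (hε : 0 ≤ ε)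
    (h : ∀ ξ : Sp N, ⟪v, ξ⟫ ≤ ε * ‖ξ‖) : ‖v‖ ≤ ε := by
  have h1 := h v
  rw [real_inner_self_eq_norm_sq] at h1
  by_contra hc
  have h2 : ε < ‖v‖ := not_le.1 hc
  nlinarith

/-- The spatial part of a second order jet. -/
private noncomputable def D7a_sp (Q : Zs N →L[ℝ] Zs N →L[ℝ] ℝ) : Sp N →L[ℝ] Sp N →L[ℝ] ℝ :=
  Q.bilinearComp (ContinuousLinearMap.inl ℝ (Sp N) ℝ) (ContinuousLinearMap.inl ℝ (Sp N) ℝ)

private theorem D7a_sp_apply (Q : Zs N →L[ℝ] Zs N →L[ℝ] ℝ) (a b : Sp N) :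
    D7a_sp Q a b = Q (a, 0) (b, 0) := rfl

/-- What one admissible jet gives. -/
private theorem D7a_jet {F : Zs N → ℝ} {K : ℝ≥0} {Λ : ℝ} (hF : LipschitzWith K F)
    (hK : (K : ℝ) ≤ Λ) (hm : ∀ z k, 2 * F z ≤ F (z + k) + F (z - k) + Λ * ‖k‖ ^ 2) {z : Zs N}
    {P : Zs N →L[ℝ] ℝ} {Q : Zs N →L[ℝ] Zs N →L[ℝ] ℝ} (h : Expands F z P Q) (ha : AdmES P Q) :
    ∃ p η : Sp N, (‖η‖ ≤ 1 ∧ p = ‖p‖ • η) ∧ ‖p‖ ≤ Λ ∧ (∀ ξ : Sp N, P (ξ, 0) = ⟪p, ξ⟫) ∧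
      (∀ ξ : Sp N, -Λ * ‖ξ‖ ^ 2 ≤ D7a_sp Q ξ ξ) ∧
      P (0, 1) ≤ trS (D7a_sp Q) - D7a_sp Q η η := by
  obtain ⟨η, hη, hle⟩ := ha
  have hn : ‖‖spat P‖ • η‖ = ‖spat P‖ := by
    rw [← hη.vec]
    exact LinearIsometryEquiv.norm_map _ _
  refine ⟨‖spat P‖ • η, η, ⟨hη.1, by rw [hn]⟩, ?_, fun ξ => ?_, fun ξ => ?_, hle⟩
  · rw [hn]
    exact (norm_spat_le P).trans ((h.norm_le hF).trans hK)
  · rw [hη.2 ξ, real_inner_smul_left]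
  · have := h.lower (k := ((ξ, 0) : Zs N)) (β := Λ * ‖ξ‖ ^ 2) (Eventually.of_forall fun s => by
      have h1 := hm z (s • ((ξ, 0) : Zs N))
      have h2 : ‖s • ((ξ, 0) : Zs N)‖ ^ 2 = s ^ 2 * ‖ξ‖ ^ 2 := by
        rw [norm_smul, mul_pow, Real.norm_eq_abs, sq_abs]
        simp [Prod.norm_def]
      rw [h2] at h1
      linarith)
    rw [D7a_sp_apply]
    linarith

private theorem D7a_norm_sq (ξ₁ ξ₂ : Sp N) (ϑ : ℝ) :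
    ‖(((ξ₁, 0), (ξ₂, ϑ)) : Zs N × Zs N)‖ ^ 2 ≤ ‖ξ₁‖ ^ 2 + ‖ξ₂‖ ^ 2 + ϑ ^ 2 := by
  have h1 := sq_nonneg ‖ξ₁‖
  have h2 := sq_nonneg ‖ξ₂‖
  have h3 := sq_nonneg ϑ
  simp only [Prod.norm_def, norm_zero, Real.norm_eq_abs]
  rw [max_eq_left (norm_nonneg ξ₁)]
  rcases max_choice ‖ξ₁‖ (max ‖ξ₂‖ |ϑ|) with h | h <;> rw [h]
  · linarith
  · rcases max_choice ‖ξ₂‖ |ϑ| with h' | h' <;> rw [h']
    · linarith
    · rw [sq_abs]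
      linarith

/-- Jensen point, then `Expands.curve` and `jet_line` along `w + s k` with
`k = ((ξ₁, τ), (ξ₂, ϑ))`. -/
theorem tp_data {F G : Zs N → ℝ} {K : ℝ≥0} {Λ c γ δ r : ℝ} (hF : LipschitzWith K F)
    (hG : LipschitzWith K G) (hK : (K : ℝ) ≤ Λ)
    (hmF : ∀ z k, 2 * F z ≤ F (z + k) + F (z - k) + Λ * ‖k‖ ^ 2)
    (hmG : ∀ z k, 2 * G z ≤ G (z + k) + G (z - k) + Λ * ‖k‖ ^ 2)
    (haF : ∀ z : Zs N, δ ≤ z.2 → ∀ P Q, Expands F z P Q → AdmES P Q)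
    (haG : ∀ z : Zs N, δ ≤ z.2 → ∀ P Q, Expands G z P Q → AdmES P Q)
    {w₀ : Zs N × Zs N} (hr : 0 < r) (ht : δ + r ≤ w₀.1.2)
    (hmax : IsMaxOn (tpF F G c γ) (closedBall w₀ r) w₀) {ε : ℝ} (hε : 0 < ε) :
    TPData c γ Λ ε w₀.1.1 w₀.2.1 w₀.2.2 := by
  have i1 : (volume : Measure (Zs N)).IsAddHaarMeasure :=
    Measure.prod.instIsAddHaarMeasure (volume : Measure (Sp N)) (volume : Measure ℝ)
  have i2 : (volume : Measure (Zs N × Zs N)).IsAddHaarMeasure :=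
    Measure.prod.instIsAddHaarMeasure (volume : Measure (Zs N)) (volume : Measure (Zs N))
  have hFc := hF.continuous
  have hGc := hG.continuous
  have hc : Continuous (tpF F G c γ) := by
    unfold tpF
    fun_prop
  obtain ⟨C, hC⟩ := tpF_midpoint c γ hF hmF hmG w₀ r
  have hae := ae_three (S := {z | ∃ (P : Zs N →L[ℝ] ℝ) (Q : Zs N →L[ℝ] Zs N →L[ℝ] ℝ),
      (∀ k l, Q k l = Q l k) ∧ Expands F z P Q})
    (S' := {z | ∃ (P : Zs N →L[ℝ] ℝ) (Q : Zs N →L[ℝ] Zs N →L[ℝ] ℝ),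
      (∀ k l, Q k l = Q l k) ∧ Expands G z P Q})
    (alexandrov volume hFc hmF) (alexandrov volume hGc hmG)
  have he : 0 < min ε r := lt_min hε hr
  have he1 : min ε r ≤ ε := min_le_left _ _
  have he2 : min ε r ≤ r := min_le_right _ _
  obtain ⟨w, hw, hd, p, hp, hle⟩ := jensen volume hc hr hC hmax (mem_ae_iff.1 hae) he
  obtain ⟨⟨x, t⟩, ⟨y, θ⟩⟩ := w
  obtain ⟨⟨P₀, Q₀, s₀, h₀⟩, ⟨P₁, Q₁, s₁, h₁⟩, ⟨P₂, Q₂, s₂, h₂⟩⟩ := hw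
  have d1 : ‖x - w₀.1.1‖ ≤ min ε r :=
    ((norm_fst_le (((x, t) : Zs N) - w₀.1)).trans
      (norm_fst_le ((((x, t), (y, θ)) : Zs N × Zs N) - w₀))).trans hd.le
  have d2 : ‖y - w₀.2.1‖ ≤ min ε r :=
    ((norm_fst_le (((y, θ) : Zs N) - w₀.2)).trans
      (norm_snd_le ((((x, t), (y, θ)) : Zs N × Zs N) - w₀))).trans hd.le
  have d3 : |θ - w₀.2.2| ≤ min ε r :=
    ((norm_snd_le (((y, θ) : Zs N) - w₀.2)).trans
      (norm_snd_le ((((x, t), (y, θ)) : Zs N × Zs N) - w₀))).trans hd.le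
  have d4 : |t - w₀.1.2| ≤ min ε r :=
    ((norm_snd_le (((x, t) : Zs N) - w₀.1)).trans
      (norm_fst_le ((((x, t), (y, θ)) : Zs N × Zs N) - w₀))).trans hd.le
  have hδ : δ ≤ t := by
    have := (abs_le.1 d4).1
    linarith
  obtain ⟨p₀, η₀, a₀, b₀, c₀, l₀, t₀⟩ := D7a_jet hF hK hmF h₀ (haF _ hδ _ _ h₀)
  obtain ⟨p₁, η₁, a₁, b₁, c₁, l₁, t₁⟩ := D7a_jet hG hK hmG h₁ (haG _ hδ _ _ h₁)
  obtain ⟨p₂, η₂, a₂, b₂, c₂, l₂, t₂⟩ := D7a_jet hG hK hmG h₂ (haG _ hδ _ _ h₂)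
  have line := D7a_line h₀ h₁ h₂ hle
  have hpk : ∀ k : Zs N × Zs N, |p k| ≤ ε * ‖k‖ := fun k =>
    (p.le_opNorm k).trans (mul_le_mul_of_nonneg_right (hp.trans he1) (norm_nonneg k))
  refine ⟨x, y, θ, p₀, p₁, p₂, η₀, η₁, η₂, D7a_sp Q₀, D7a_sp Q₁, D7a_sp Q₂, d1.trans he1,
    d2.trans he1, d3.trans he1, a₀, a₁, a₂, ⟨b₀, b₁, b₂⟩,
    ⟨fun a b => s₀ _ _, fun a b => s₁ _ _, fun a b => s₂ _ _⟩,
    fun ξ => ⟨l₀ ξ, l₁ ξ, l₂ ξ⟩, ?_, ?_, ?_, fun ξ₁ ξ₂ ϑ => ?_, ?_⟩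
  · refine D7a_norm_le hε.le fun ξ => ?_
    have h1 := (line ξ 0 0 0).1
    have h2 := (abs_le.1 (hpk ((ξ, 0), (0, 0)))).2
    have h3 : ‖(((ξ, 0), (0, 0)) : Zs N × Zs N)‖ = ‖ξ‖ := by simp [Prod.norm_def]
    rw [c₀, c₁, c₂] at h1
    rw [h3, ← h1] at h2
    simp only [smul_zero, zero_smul, add_zero, zero_sub, inner_neg_right, inner_zero_right,
      real_inner_smul_right] at h2
    simp only [inner_add_left, real_inner_smul_left]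
    linarith
  · refine D7a_norm_le hε.le fun ξ => ?_
    have h1 := (line 0 ξ 0 0).1
    have h2 := (abs_le.1 (hpk ((0, 0), (ξ, 0)))).2
    have h3 : ‖(((0, 0), (ξ, 0)) : Zs N × Zs N)‖ = ‖ξ‖ := by simp [Prod.norm_def]
    rw [c₀, c₁, c₂] at h1
    rw [h3, ← h1] at h2
    simp only [smul_zero, zero_smul, add_zero, zero_add, sub_zero, inner_zero_right,
      real_inner_smul_right] at h2
    rw [inner_sub_left, inner_add_left, real_inner_smul_left, real_inner_smul_left]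
    linarith
  · have h1 := (line 0 0 0 1).1
    have h2 := hpk ((0, 0), (0, 1))
    have h3 : ‖(((0, 0), (0, 1)) : Zs N × Zs N)‖ = 1 := by simp [Prod.norm_def]
    rw [c₀, c₁, c₂] at h1
    rw [h3, ← h1] at h2
    simp only [smul_zero, one_smul, add_zero, zero_add, sub_zero, inner_zero_right, mul_zero,
      one_mul, mul_one] at h2
    rwa [mul_assoc]
  · have h1 := (line ξ₁ ξ₂ 0 ϑ).2
    have h2 := D7a_norm_sq ξ₁ ξ₂ ϑ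
    have h3 : min ε r * ‖(((ξ₁, 0), (ξ₂, ϑ)) : Zs N × Zs N)‖ ^ 2 ≤
        ε * (‖ξ₁‖ ^ 2 + ‖ξ₂‖ ^ 2 + ϑ ^ 2) :=
      mul_le_mul he1 h2 (sq_nonneg _) hε.le
    rw [c₀, real_inner_smul_right] at h1
    simp only [D7a_sp_apply]
    linarith
  · have h1 := (line 0 0 1 0).1
    have h2 := (abs_le.1 (hpk ((0, 1), (0, 0)))).1
    have h3 : ‖(((0, 1), (0, 0)) : Zs N × Zs N)‖ = 1 := by simp [Prod.norm_def]
    rw [h3, ← h1] at h2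
    simp only [smul_zero, zero_smul, add_zero, sub_zero, inner_zero_right, mul_zero,
      zero_mul, mul_one] at h2
    linarith

end Pool.Agent.MCF5
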