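import Pool.Agent.Lib.MP_5aed36_gt.D4a

open MeasureTheory Set Filter Topology Metric
open scoped ENNReal NNReal RealInnerProductSpace

namespace Pool.Agent.MCF5

variable {N : ℕ}

/-- Bilinear forms on space. -/
abbrev D7b_B (N : ℕ) := Sp N →L[ℝ] Sp N →L[ℝ] ℝ

/-- The relations of `TPData`, with all data explicit. -/
def D7b_R (c γ Λ : ℝ) (x₀ y₀ : Sp N) (θ₀ ε : ℝ) (x y : Sp N) (θ : ℝ)
    (p₀ p₁ p₂ η₀ η₁ η₂ : Sp N) (X₀ X₁ X₂ : D7b_B N) : Prop :=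
    ‖x - x₀‖ ≤ ε ∧ ‖y - y₀‖ ≤ ε ∧ |θ - θ₀| ≤ ε ∧
    (‖η₀‖ ≤ 1 ∧ p₀ = ‖p₀‖ • η₀) ∧ (‖η₁‖ ≤ 1 ∧ p₁ = ‖p₁‖ • η₁) ∧ (‖η₂‖ ≤ 1 ∧ p₂ = ‖p₂‖ • η₂) ∧
    (‖p₀‖ ≤ Λ ∧ ‖p₁‖ ≤ Λ ∧ ‖p₂‖ ≤ Λ) ∧
    ((∀ a b, X₀ a b = X₀ b a) ∧ (∀ a b, X₁ a b = X₁ b a) ∧ (∀ a b, X₂ a b = X₂ b a)) ∧
    (∀ ξ : Sp N, -Λ * ‖ξ‖ ^ 2 ≤ X₀ ξ ξ ∧ -Λ * ‖ξ‖ ^ 2 ≤ X₁ ξ ξ ∧ -Λ * ‖ξ‖ ^ 2 ≤ X₂ ξ ξ) ∧
    ‖(1 - θ) • p₀ + p₁ + (2 * c * (θ * (1 - θ))) • (y - x)‖ ≤ ε ∧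
    ‖θ • p₀ + p₂ - (2 * c * (θ * (1 - θ))) • (y - x)‖ ≤ ε ∧
    |⟪p₀, y - x⟫ - c * (1 - 2 * θ) * ‖y - x‖ ^ 2| ≤ ε ∧
    (∀ (ξ₁ ξ₂ : Sp N) (ϑ : ℝ),
      X₀ ((1 - θ) • ξ₁ + θ • ξ₂ + ϑ • (y - x)) ((1 - θ) • ξ₁ + θ • ξ₂ + ϑ • (y - x)) +
          X₁ ξ₁ ξ₁ + X₂ ξ₂ ξ₂ + 2 * ϑ * ⟪p₀, ξ₂ - ξ₁⟫ ≤
        2 * c * (θ * (1 - θ) * ‖ξ₂ - ξ₁‖ ^ 2 + 2 * (1 - 2 * θ) * ϑ * ⟪y - x, ξ₂ - ξ₁⟫ -
          ϑ ^ 2 * ‖y - x‖ ^ 2) + 2 * ε * (‖ξ₁‖ ^ 2 + ‖ξ₂‖ ^ 2 + ϑ ^ 2)) ∧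
    γ - ε ≤ (trS X₀ - X₀ η₀ η₀) + (trS X₁ - X₁ η₁ η₁) + (trS X₂ - X₂ η₂ η₂)

theorem D7b_continuous_trS : Continuous (trS : D7b_B N → ℝ) := by
  unfold trS
  fun_prop

theorem D7b_closed {T : Type*} [TopologicalSpace T] (c γ Λ : ℝ) (x₀ y₀ : Sp N) (θ₀ : ℝ)
    {ε θ : T → ℝ} {x y p₀ p₁ p₂ η₀ η₁ η₂ : T → Sp N} {X₀ X₁ X₂ : T → D7b_B N}
    (hε : Continuous ε) (hθ : Continuous θ) (hx : Continuous x) (hy : Continuous y)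
    (hp₀ : Continuous p₀) (hp₁ : Continuous p₁) (hp₂ : Continuous p₂)
    (hη₀ : Continuous η₀) (hη₁ : Continuous η₁) (hη₂ : Continuous η₂)
    (hX₀ : Continuous X₀) (hX₁ : Continuous X₁) (hX₂ : Continuous X₂) :
    IsClosed {t | D7b_R c γ Λ x₀ y₀ θ₀ (ε t) (x t) (y t) (θ t) (p₀ t) (p₁ t) (p₂ t)
      (η₀ t) (η₁ t) (η₂ t) (X₀ t) (X₁ t) (X₂ t)} := by
  have hall : ∀ {ι : Type} {q : ι → T → Prop}, (∀ i, IsClosed {t | q i t}) →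
      IsClosed {t | ∀ i, q i t} := fun h => by
    rw [Set.ofPred_forall]
    exact isClosed_iInter h
  have ht₀ : Continuous fun t => trS (X₀ t) := D7b_continuous_trS.comp hX₀
  have ht₁ : Continuous fun t => trS (X₁ t) := D7b_continuous_trS.comp hX₁
  have ht₂ : Continuous fun t => trS (X₂ t) := D7b_continuous_trS.comp hX₂
  unfold D7b_R
  refine (isClosed_le (by fun_prop) hε).and ((isClosed_le (by fun_prop) hε).and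
    ((isClosed_le (by fun_prop) hε).and ?_))
  refine ((isClosed_le (by fun_prop) continuous_const).and (isClosed_eq hp₀ (by fun_prop))).and
    (((isClosed_le (by fun_prop) continuous_const).and (isClosed_eq hp₁ (by fun_prop))).and
    (((isClosed_le (by fun_prop) continuous_const).and (isClosed_eq hp₂ (by fun_prop))).and ?_))
  refine ((isClosed_le (by fun_prop) continuous_const).and
    ((isClosed_le (by fun_prop) continuous_const).and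
      (isClosed_le (by fun_prop) continuous_const))).and ?_
  refine ((hall fun a => hall fun b => isClosed_eq (by fun_prop) (by fun_prop)).and
    ((hall fun a => hall fun b => isClosed_eq (by fun_prop) (by fun_prop)).and
      (hall fun a => hall fun b => isClosed_eq (by fun_prop) (by fun_prop)))).and ?_
  refine (hall fun ξ => (isClosed_le continuous_const (by fun_prop)).and
    ((isClosed_le continuous_const (by fun_prop)).and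
      (isClosed_le continuous_const (by fun_prop)))).and ?_
  refine (isClosed_le (by fun_prop) hε).and ((isClosed_le (by fun_prop) hε).and
    ((isClosed_le (by fun_prop) hε).and ?_))
  refine (hall fun ξ₁ => hall fun ξ₂ => hall fun ϑ =>
    isClosed_le (by fun_prop) (by fun_prop)).and ?_
  exact isClosed_le (by fun_prop) (by fun_prop)

theorem D7b_norm_le {X : D7b_B N} {M : ℝ} (hM : 0 ≤ M) (hs : ∀ a b, X a b = X b a)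
    (hX : ∀ ξ, |X ξ ξ| ≤ M * ‖ξ‖ ^ 2) : ‖X‖ ≤ M :=
  ContinuousLinearMap.opNorm_le_bound₂ X hM fun a b => abs_bilin_le hs hX a b

theorem D7b_bound {c γ Λ θ₀ ε θ : ℝ} {x₀ y₀ x y p₀ p₁ p₂ η₀ η₁ η₂ : Sp N} {X₀ X₁ X₂ : D7b_B N}
    (h : D7b_R c γ Λ x₀ y₀ θ₀ ε x y θ p₀ p₁ p₂ η₀ η₁ η₂ X₀ X₁ X₂) (h1 : ε ≤ 1) :
    ‖X₀‖ ≤ 2 * Λ + 4 ∧ ‖X₁‖ ≤ 2 * Λ + 4 ∧ ‖X₂‖ ≤ 2 * Λ + 4 := by
  obtain ⟨-, -, -, -, -, -, ⟨hp, -, -⟩, ⟨s0, s1, s2⟩, hlow, -, -, -, hup, -⟩ := h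
  have hΛ : 0 ≤ Λ := (norm_nonneg _).trans hp
  have hM : 0 ≤ 2 * Λ + 4 := by linarith
  have key : ∀ ξ : Sp N, X₀ ξ ξ + X₁ ξ ξ + X₂ ξ ξ ≤ 4 * ‖ξ‖ ^ 2 := fun ξ => by
    have h2 := hup ξ ξ 0
    have e : (1 - θ) • ξ + θ • ξ + (0 : ℝ) • (y - x) = ξ := by
      rw [zero_smul, add_zero, ← add_smul]
      simp
    rw [e, sub_self] at h2
    simp only [norm_zero, inner_zero_right] at h2
    have h3 : 0 ≤ ‖ξ‖ ^ 2 := by positivity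
    nlinarith
  refine ⟨D7b_norm_le hM s0 fun ξ => ?_, D7b_norm_le hM s1 fun ξ => ?_,
    D7b_norm_le hM s2 fun ξ => ?_⟩ <;>
  · obtain ⟨a0, a1, a2⟩ := hlow ξ
    have h2 := key ξ
    have h3 : 0 ≤ ‖ξ‖ ^ 2 := by positivity
    have h4 : 0 ≤ Λ * ‖ξ‖ ^ 2 := by positivity
    rw [abs_le]
    constructor <;> nlinarith

/-- Take `ε = 1 / (n + 1)`. The forms are bounded above through the variations `(ξ, ξ, 0)`,
`(ξ, 0, 0)`, `(0, ξ, 0)`, hence bounded in norm by `abs_bilin_le`; extract a convergent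
subsequence (or take the limit along an ultrafilter) in the finite dimensional product and pass
to the limit in each relation. -/
theorem tp_limit {c γ Λ θ : ℝ} {x y : Sp N} (h : ∀ ε : ℝ, 0 < ε → TPData c γ Λ ε x y θ) :
    TPData c γ Λ 0 x y θ := by
  have : ProperSpace (D7b_B N) := FiniteDimensional.proper_real (D7b_B N)
  let K : Set ((ℝ × ℝ × Sp N × Sp N) × (Sp N × Sp N × Sp N) × (Sp N × Sp N × Sp N) ×
      (D7b_B N × D7b_B N × D7b_B N)) :=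
    {t | D7b_R c γ Λ x y θ t.1.1 t.1.2.2.1 t.1.2.2.2 t.1.2.1 t.2.1.1 t.2.1.2.1 t.2.1.2.2
      t.2.2.1.1 t.2.2.1.2.1 t.2.2.1.2.2 t.2.2.2.1 t.2.2.2.2.1 t.2.2.2.2.2}
  have hK : IsClosed K :=
    D7b_closed c γ Λ x y θ (by fun_prop) (by fun_prop) (by fun_prop) (by fun_prop) (by fun_prop)
      (by fun_prop) (by fun_prop) (by fun_prop) (by fun_prop) (by fun_prop) (by fun_prop)
      (by fun_prop) (by fun_prop)
  have hC : IsCompact ((Icc (0 : ℝ) 1 ×ˢ closedBall θ 1 ×ˢ closedBall x 1 ×ˢ closedBall y 1) ×ˢ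
      (closedBall (0 : Sp N) Λ ×ˢ closedBall (0 : Sp N) Λ ×ˢ closedBall (0 : Sp N) Λ) ×ˢ
      (closedBall (0 : Sp N) 1 ×ˢ closedBall (0 : Sp N) 1 ×ˢ closedBall (0 : Sp N) 1) ×ˢ
      (closedBall (0 : D7b_B N) (2 * Λ + 4) ×ˢ closedBall (0 : D7b_B N) (2 * Λ + 4) ×ˢ
        closedBall (0 : D7b_B N) (2 * Λ + 4))) :=
    (isCompact_Icc.prod ((isCompact_closedBall _ _).prod
      ((isCompact_closedBall _ _).prod (isCompact_closedBall _ _)))).prod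
      (((isCompact_closedBall _ _).prod
        ((isCompact_closedBall _ _).prod (isCompact_closedBall _ _))).prod
      (((isCompact_closedBall _ _).prod
        ((isCompact_closedBall _ _).prod (isCompact_closedBall _ _))).prod
      ((isCompact_closedBall _ _).prod
        ((isCompact_closedBall _ _).prod (isCompact_closedBall _ _)))))
  have hI := ((hC.inter_left hK).image (f := fun t => t.1.1) (by fun_prop)).isClosed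
  have hsub := closure_minimal (s := Ioo (0 : ℝ) 1) (fun ε hε => ?_) hI
  · rw [closure_Ioo zero_ne_one] at hsub
    obtain ⟨t, ⟨ht, -⟩, h0⟩ := hsub (left_mem_Icc.2 zero_le_one)
    have h0' : t.1.1 = 0 := h0
    have ht' : D7b_R c γ Λ x y θ t.1.1 t.1.2.2.1 t.1.2.2.2 t.1.2.1 t.2.1.1 t.2.1.2.1 t.2.1.2.2
      t.2.2.1.1 t.2.2.1.2.1 t.2.2.1.2.2 t.2.2.2.1 t.2.2.2.2.1 t.2.2.2.2.2 := ht
    rw [h0'] at ht'
    exact ⟨_, _, _, _, _, _, _, _, _, _, _, _, ht'⟩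
  · obtain ⟨x', y', θ', p₀, p₁, p₂, η₀, η₁, η₂, X₀, X₁, X₂, hR⟩ := h ε hε.1
    have hR' : D7b_R c γ Λ x y θ ε x' y' θ' p₀ p₁ p₂ η₀ η₁ η₂ X₀ X₁ X₂ := hR
    obtain ⟨b0, b1, b2⟩ := D7b_bound hR' hε.2.le
    have hb : ∀ X : D7b_B N, ‖X‖ ≤ 2 * Λ + 4 → X ∈ closedBall (0 : D7b_B N) (2 * Λ + 4) :=
      fun X hX => (mem_closedBall_zero_iff (a := X)).2 hX
    refine ⟨((ε, θ', x', y'), (p₀, p₁, p₂), (η₀, η₁, η₂), (X₀, X₁, X₂)), ⟨hR', ?_⟩, rfl⟩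
    obtain ⟨hx, hy, hθ, ⟨e0, -⟩, ⟨e1, -⟩, ⟨e2, -⟩, ⟨q0, q1, q2⟩, -⟩ := hR
    exact ⟨⟨⟨hε.1.le, hε.2.le⟩, mem_closedBall_iff_norm.2 (hθ.trans hε.2.le),
      mem_closedBall_iff_norm.2 (hx.trans hε.2.le), mem_closedBall_iff_norm.2 (hy.trans hε.2.le)⟩,
      ⟨mem_closedBall_zero_iff.2 q0, mem_closedBall_zero_iff.2 q1, mem_closedBall_zero_iff.2 q2⟩,
      ⟨mem_closedBall_zero_iff.2 e0, mem_closedBall_zero_iff.2 e1, mem_closedBall_zero_iff.2 e2⟩,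
      hb _ b0, hb _ b1, hb _ b2⟩

end Pool.Agent.MCF5
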