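import Pool.Agent.Lib.MP_5aed36_gt.D3
import Pool.Agent.Lib.MP_5aed36_gt.D6
import Pool.Agent.Lib.MP_5aed36_gt.D7a
import Pool.Agent.Lib.MP_5aed36_gt.D7b

open MeasureTheory Set Filter Topology Metric
open scoped ENNReal NNReal RealInnerProductSpace

namespace Pool.Agent.MCF5

variable {N : ℕ}

theorem D7c_norm_le (x y : Sp N) {θ : ℝ} (h0 : 0 ≤ θ) (h1 : θ ≤ 1) :
    ‖x + θ • (y - x)‖ ≤ max ‖x‖ ‖y‖ := by
  have h2 : x + θ • (y - x) = (1 - θ) • x + θ • y := by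
    rw [smul_sub, sub_smul, one_smul]
    abel
  rw [h2]
  refine (norm_add_le _ _).trans ?_
  rw [norm_smul, norm_smul, Real.norm_of_nonneg h0, Real.norm_of_nonneg (sub_nonneg.2 h1)]
  have h3 := mul_le_mul_of_nonneg_left (le_max_left ‖x‖ ‖y‖) (sub_nonneg.2 h1)
  have h4 := mul_le_mul_of_nonneg_left (le_max_right ‖x‖ ‖y‖) h0
  linarith

theorem D7c_norm_left (x y : Sp N) {θ : ℝ} (h0 : 0 ≤ θ) :
    ‖x - (x + θ • (y - x))‖ = θ * ‖y - x‖ := by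
  rw [sub_add_cancel_left, norm_neg, norm_smul, Real.norm_of_nonneg h0]

theorem D7c_norm_right (x y : Sp N) {θ : ℝ} (h1 : θ ≤ 1) :
    ‖y - (x + θ • (y - x))‖ = (1 - θ) * ‖y - x‖ := by
  have h2 : y - (x + θ • (y - x)) = (1 - θ) • (y - x) := by
    rw [sub_smul, one_smul]
    abel
  rw [h2, norm_smul, Real.norm_of_nonneg (sub_nonneg.2 h1)]

theorem D7c_norm_space (x y : Sp N) (t : ℝ) : ‖((x, t) : Zs N) - (y, t)‖ = ‖x - y‖ := by
  rw [Prod.mk_sub_mk, sub_self, Prod.norm_def, norm_zero]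
  exact max_eq_left (norm_nonneg _)

theorem D7c_norm_time (x : Sp N) (t s : ℝ) : ‖((x, t) : Zs N) - (x, s)‖ = |t - s| := by
  rw [Prod.mk_sub_mk, sub_self, Prod.norm_def, norm_zero, Real.norm_eq_abs]
  exact max_eq_right (abs_nonneg _)

theorem D7c_tpF (F G : Zs N → ℝ) (c γ : ℝ) (x y : Sp N) (t θ : ℝ) :
    tpF F G c γ ((x, t), (y, θ)) = F (x + θ • (y - x), t) + G (x, t) + G (y, t) -
      c * (θ * (1 - θ)) * ‖y - x‖ ^ 2 - γ * t := rfl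

theorem D7c_continuous {F G : Zs N → ℝ} (hF : Continuous F) (hG : Continuous G) (c γ : ℝ) :
    Continuous (tpF F G c γ) := by
  unfold tpF
  fun_prop

theorem D7c_pen_nonneg {c θ : ℝ} (hc : 0 < c) (h0 : 0 ≤ θ) (h1 : θ ≤ 1) (d : Sp N) :
    0 ≤ c * (θ * (1 - θ)) * ‖d‖ ^ 2 :=
  mul_nonneg (mul_nonneg hc.le (mul_nonneg h0 (sub_nonneg.2 h1))) (sq_nonneg _)

/-- For small times the three point function stays small. -/
theorem D7c_time {U V : Zs N → ℝ} {M M' R c₀ c₁ c m : ℝ} (hU : Nice M R c₀ U)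
    (hV : Nice M' R c₁ V) (hm : 0 < m)
    (h0 : ∀ w : Zs N × Zs N, 0 ≤ w.2.2 → w.2.2 ≤ 1 → w.1.2 ≤ 0 →
      tpF U (fun z => -V z) c 0 w ≤ 0) :
    ∃ δ : ℝ, 0 < δ ∧ ∀ w : Zs N × Zs N, 0 ≤ w.2.2 → w.2.2 ≤ 1 → 0 ≤ w.1.2 → w.1.2 ≤ δ →
      tpF U (fun z => -V z) c 0 w ≤ m := by
  obtain ⟨δ₁, hδ₁, h₁⟩ := hU.unif 0 (show 0 < m / 3 by positivity)
  obtain ⟨δ₂, hδ₂, h₂⟩ := hV.unif 0 (show 0 < m / 3 by positivity)
  refine ⟨min δ₁ δ₂, lt_min hδ₁ hδ₂, ?_⟩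
  rintro ⟨⟨x, t⟩, ⟨y, θ⟩⟩ hθ0 hθ1 ht0 ht1
  have hn : ∀ p : Sp N, ‖((p, t) : Zs N) - (p, 0)‖ ≤ min δ₁ δ₂ := fun p => by
    rw [D7c_norm_time, sub_zero, abs_of_nonneg ht0]
    exact ht1
  have e0 := h0 ((x, 0), (y, θ)) hθ0 hθ1 le_rfl
  have e1 := abs_le.1 (h₁ (x + θ • (y - x), 0) (x + θ • (y - x), t) (by simp)
    ((hn _).trans (min_le_left _ _)))
  have e2 := abs_le.1 (h₂ (x, 0) (x, t) (by simp) ((hn _).trans (min_le_right _ _)))
  have e3 := abs_le.1 (h₂ (y, 0) (y, t) (by simp) ((hn _).trans (min_le_right _ _)))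
  rw [D7c_tpF] at e0 ⊢
  linarith [e1.2, e2.1, e3.1]

/-- A point where the inequality fails is not degenerate. -/
theorem D7c_nondeg {U V : Zs N → ℝ} {c : ℝ} (hUV : ∀ z, U z ≤ V z) (hV0 : ∀ z, 0 ≤ V z)
    {w : Zs N × Zs N} (h0 : 0 ≤ w.2.2) (h1 : w.2.2 ≤ 1)
    (h : 0 < tpF U (fun z => -V z) c 0 w) : 0 < w.2.2 ∧ w.2.2 < 1 ∧ w.1.1 ≠ w.2.1 := by
  obtain ⟨⟨x, t⟩, ⟨y, θ⟩⟩ := w
  rw [D7c_tpF] at h
  refine ⟨h0.lt_of_ne ?_, h1.lt_of_ne ?_, ?_⟩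
  · intro h2
    have h3 : θ = 0 := h2.symm
    subst h3
    simp only [zero_smul, add_zero, zero_mul, mul_zero, sub_zero] at h
    linarith [hUV (x, t), hV0 (y, t)]
  · intro h2
    have h3 : θ = 1 := h2
    subst h3
    simp only [one_smul, add_sub_cancel, sub_self, zero_mul, mul_zero, sub_zero] at h
    linarith [hUV (y, t), hV0 (x, t)]
  · intro h2
    have h3 : x = y := h2
    subst h3
    simp only [sub_self, smul_zero, add_zero, norm_zero, zero_mul, sub_zero] at h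
    nlinarith [hUV (x, t), hV0 (x, t)]

/-- The set where the inequality fails by `m` is bounded for bounded times: with
`z = x + θ (y - x)` one has `θ (1 - θ) ‖y - x‖ ^ 2 = ‖z - x‖ ‖y - z‖`. If `R ≤ ‖z‖` then `x` or
`y` is outside the ball and there is no failure. Otherwise `m ≤ U (z, t) - U (y, t)` forces
`ρ ≤ ‖y - z‖`, the same for `x`, and the product is at most `M / c`. -/
theorem tp_bounded {U V : Zs N → ℝ} {M M' R c₀ c₁ c m : ℝ} (T : ℝ) (hU : Nice M R c₀ U)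
    (hV : Nice M' R c₁ V) (hUV : ∀ z, U z ≤ V z) (hV0 : ∀ z, 0 ≤ V z) (hc : 0 < c) (hm : 0 < m) :
    ∃ ρ : ℝ, ∀ w : Zs N × Zs N, 0 ≤ w.2.2 → w.2.2 ≤ 1 → |w.1.2| ≤ T →
      m ≤ tpF U (fun z => -V z) c 0 w → ‖w‖ ≤ ρ := by
  obtain ⟨δ, hδ, hu⟩ := hU.unif T (show 0 < m / 2 by positivity)
  refine ⟨max (R + M / (c * δ)) (max T 1), ?_⟩
  rintro ⟨⟨x, t⟩, ⟨y, θ⟩⟩ hθ0 hθ1 ht hw
  have hθ0' : 0 ≤ θ := hθ0
  have hθ1' : θ ≤ 1 := hθ1
  have ht' : |t| ≤ T := ht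
  rw [D7c_tpF] at hw
  have hp := D7c_pen_nonneg hc hθ0' hθ1' (y - x)
  have hx0 := hV0 (x, t)
  have hy0 := hV0 (y, t)
  have hx1 := hUV (x, t)
  have hy1 := hUV (y, t)
  have hz : ‖x + θ • (y - x)‖ < R := by
    by_contra hcon
    have h1 : R ≤ ‖x + θ • (y - x)‖ := not_lt.1 hcon
    have h2 := hU.out (x + θ • (y - x), t) h1
    rcases le_max_iff.1 (h1.trans (D7c_norm_le x y hθ0' hθ1')) with h3 | h3
    · have h4 := hU.out (x, t) h3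
      linarith
    · have h4 := hU.out (y, t) h3
      linarith
  have hfar : ∀ p : Sp N, m ≤ U (x + θ • (y - x), t) - U (p, t) →
      δ < ‖p - (x + θ • (y - x))‖ := fun p hp' => by
    by_contra hcon
    have h1 := abs_le.1 (hu (x + θ • (y - x), t) (p, t) ht'
      (by rw [D7c_norm_space]; exact not_lt.1 hcon))
    linarith [h1.1]
  have hx := hfar x (by linarith)
  have hy := hfar y (by linarith)
  have hprod : c * (‖x - (x + θ • (y - x))‖ * ‖y - (x + θ • (y - x))‖) ≤ M := by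
    rw [D7c_norm_left x y hθ0', D7c_norm_right x y hθ1']
    have h1 := (abs_le.1 (hU.bdd (x + θ • (y - x), t))).2
    have h2 : c * (θ * ‖y - x‖ * ((1 - θ) * ‖y - x‖)) = c * (θ * (1 - θ)) * ‖y - x‖ ^ 2 := by
      ring
    linarith
  have hcδ : 0 < c * δ := mul_pos hc hδ
  have key : ∀ (p : Sp N) (b : ℝ), δ < b → c * (‖p - (x + θ • (y - x))‖ * b) ≤ M →
      ‖p‖ ≤ R + M / (c * δ) := fun p b hb hp' => by
    have h1 : ‖p - (x + θ • (y - x))‖ ≤ M / (c * δ) := by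
      rw [le_div_iff₀ hcδ]
      have h2 := mul_le_mul_of_nonneg_left hb.le (norm_nonneg (p - (x + θ • (y - x))))
      have h3 := mul_le_mul_of_nonneg_left h2 hc.le
      linarith
    have h2 := norm_sub_norm_le p (x + θ • (y - x))
    linarith
  have hxb := key x _ hy hprod
  have hyb := key y _ hx (by rw [mul_comm ‖y - (x + θ • (y - x))‖]; exact hprod)
  rw [Prod.norm_def, Prod.norm_def, Prod.norm_def]
  refine max_le (max_le (hxb.trans (le_max_left _ _)) ?_)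
    (max_le (hyb.trans (le_max_left _ _)) ?_)
  · exact ht'.trans ((le_max_left _ _).trans (le_max_right _ _))
  · rw [Real.norm_of_nonneg hθ0']
    exact hθ1'.trans ((le_max_right _ _).trans (le_max_right _ _))

/-- Suppose `tpF U (-V) c 0 w = 4 m > 0`. Take `γ t ≤ m`, maximise
`tpF (supc lam U) (supc lam (-V)) c γ` on `0 ≤ θ ≤ 1`, `0 ≤ t`. The set where it is at least
`3 m` lies in `{m ≤ tpF U (-V) c 0, t ≤ T}`, which is bounded, has `2 δ ≤ t` (`Nice.unif`, `δ`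
fixed before `lam`), `0 < θ < 1` and `x ≠ y`. Then `tp_data`, `tp_limit`, `three_alg`. -/
theorem three_point {U V : Zs N → ℝ} {M M' R c₀ c₁ c : ℝ} (hU : Nice M R c₀ U)
    (hV : Nice M' R c₁ V) (hsU : Sub AdmES U) (hsV : Sub AdmES fun z => -V z)
    (hUV : ∀ z, U z ≤ V z) (hV0 : ∀ z, 0 ≤ V z) (hc : 0 < c)
    (h0 : ∀ w : Zs N × Zs N, 0 ≤ w.2.2 → w.2.2 ≤ 1 → w.1.2 ≤ 0 →
      tpF U (fun z => -V z) c 0 w ≤ 0) :
    ∀ w : Zs N × Zs N, 0 ≤ w.2.2 → w.2.2 ≤ 1 → tpF U (fun z => -V z) c 0 w ≤ 0 := by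
  intro w₁ hw0 hw1
  by_contra hcon
  have hpos : 0 < tpF U (fun z => -V z) c 0 w₁ := not_le.1 hcon
  obtain ⟨m, hm4⟩ : ∃ m : ℝ, tpF U (fun z => -V z) c 0 w₁ = 4 * m :=
    ⟨tpF U (fun z => -V z) c 0 w₁ / 4, by ring⟩
  have hm : 0 < m := by linarith
  have ht₁ : 0 < w₁.1.2 := by
    by_contra h
    exact hcon (h0 w₁ hw0 hw1 (not_lt.1 h))
  obtain ⟨γ, hγ, hγt⟩ : ∃ γ : ℝ, 0 < γ ∧ γ * w₁.1.2 = m :=
    ⟨m / w₁.1.2, div_pos hm ht₁, div_mul_cancel₀ _ ht₁.ne'⟩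
  have hW := hV.neg
  obtain ⟨ρ, hρ⟩ := tp_bounded ((M + 2 * M') / γ) hU hV hUV hV0 hc hm
  obtain ⟨δ, hδ, hsmall⟩ := D7c_time hU hV hm h0
  obtain ⟨l₁, hl₁, hc₁⟩ := supc_close hU ((M + 2 * M') / γ) (show 0 < m / 3 by positivity)
  obtain ⟨l₂, hl₂, hc₂⟩ := supc_close hW ((M + 2 * M') / γ) (show 0 < m / 3 by positivity)
  obtain ⟨l₃, hl₃, ha₁⟩ := supc_adm closedAdm_ES hU.cont hU.bdd hsU (half_pos hδ)
  obtain ⟨l₄, hl₄, ha₂⟩ := supc_adm closedAdm_ES hW.cont hW.bdd hsV (half_pos hδ)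
  obtain ⟨lam, hlam, hle₁, hle₂, hle₃, hle₄⟩ :
      ∃ lam : ℝ, 0 < lam ∧ lam ≤ l₁ ∧ lam ≤ l₂ ∧ lam ≤ l₃ ∧ lam ≤ l₄ :=
    ⟨min (min l₁ l₂) (min l₃ l₄), lt_min (lt_min hl₁ hl₂) (lt_min hl₃ hl₄),
      (min_le_left _ _).trans (min_le_left _ _), (min_le_left _ _).trans (min_le_right _ _),
      (min_le_right _ _).trans (min_le_left _ _), (min_le_right _ _).trans (min_le_right _ _)⟩
  obtain ⟨K₁, hK₁⟩ := supc_lipschitz hU.cont hU.bdd hlam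
  obtain ⟨K₂, hK₂⟩ := supc_lipschitz hW.cont hW.bdd hlam
  have hcont := D7c_continuous hK₁.continuous hK₂.continuous c γ
  have hlev : ∀ w : Zs N × Zs N, 0 ≤ w.2.2 → w.2.2 ≤ 1 → 0 ≤ w.1.2 →
      3 * m ≤ tpF (supc lam U) (supc lam fun z => -V z) c γ w →
      |w.1.2| ≤ (M + 2 * M') / γ ∧ 2 * m ≤ tpF U (fun z => -V z) c 0 w := by
    rintro ⟨⟨x, t⟩, ⟨y, θ⟩⟩ hθ0 hθ1 ht hw
    have ht' : 0 ≤ t := ht
    rw [D7c_tpF] at hw
    have hp := D7c_pen_nonneg hc hθ0 hθ1 (y - x)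
    have hT : |t| ≤ (M + 2 * M') / γ := by
      rw [abs_of_nonneg ht', le_div_iff₀ hγ]
      have e1 := supc_le hU.bdd hlam (x + θ • (y - x), t)
      have e2 := supc_le hW.bdd hlam (x, t)
      have e3 := supc_le hW.bdd hlam (y, t)
      linarith
    refine ⟨hT, ?_⟩
    have e1 := hc₁ lam hlam hle₁ (x + θ • (y - x), t) hT
    have e2 := hc₂ lam hlam hle₂ (x, t) hT
    have e3 := hc₂ lam hlam hle₂ (y, t) hT
    have e4 := mul_nonneg hγ.le ht'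
    rw [D7c_tpF]
    linarith
  have hw₁ : 3 * m ≤ tpF (supc lam U) (supc lam fun z => -V z) c γ w₁ := by
    obtain ⟨⟨x, t⟩, ⟨y, θ⟩⟩ := w₁
    rw [D7c_tpF] at hm4 ⊢
    have e1 := le_supc hU.bdd hlam (x + θ • (y - x), t)
    have e2 := le_supc hW.bdd hlam (x, t)
    have e3 := le_supc hW.bdd hlam (y, t)
    have e4 : γ * t = m := hγt
    linarith
  have hbd : ∀ w : Zs N × Zs N, 0 ≤ w.2.2 → w.2.2 ≤ 1 → 0 ≤ w.1.2 →
      3 * m ≤ tpF (supc lam U) (supc lam fun z => -V z) c γ w → ‖w‖ ≤ ρ :=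
    fun w h1 h2 h3 h4 => by
      obtain ⟨h5, h6⟩ := hlev w h1 h2 h3 h4
      exact hρ w h1 h2 h5 (by linarith)
  have hcl : IsClosed {w : Zs N × Zs N | 0 ≤ w.2.2 ∧ w.2.2 ≤ 1 ∧ 0 ≤ w.1.2} := by
    have k1 : Continuous fun w : Zs N × Zs N => w.2.2 := by fun_prop
    have k2 : Continuous fun w : Zs N × Zs N => w.1.2 := by fun_prop
    exact (isClosed_le continuous_const k1).inter
      ((isClosed_le k1 continuous_const).inter (isClosed_le continuous_const k2))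
  have hcomp := (isCompact_closedBall (0 : Zs N × Zs N) ρ).inter_right hcl
  obtain ⟨w₀, ⟨-, hb0, hb1, hb2⟩, hmax⟩ := hcomp.exists_isMaxOn
    ⟨w₁, mem_closedBall_zero_iff.2 (hbd w₁ hw0 hw1 ht₁.le hw₁), hw0, hw1, ht₁.le⟩
    hcont.continuousOn
  have hw₀ : 3 * m ≤ tpF (supc lam U) (supc lam fun z => -V z) c γ w₀ :=
    hw₁.trans (hmax ⟨mem_closedBall_zero_iff.2 (hbd w₁ hw0 hw1 ht₁.le hw₁), hw0, hw1, ht₁.le⟩)
  have hall : ∀ w : Zs N × Zs N, 0 ≤ w.2.2 → w.2.2 ≤ 1 → 0 ≤ w.1.2 →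
      tpF (supc lam U) (supc lam fun z => -V z) c γ w ≤
        tpF (supc lam U) (supc lam fun z => -V z) c γ w₀ := fun w h1 h2 h3 => by
    rcases le_total (3 * m) (tpF (supc lam U) (supc lam fun z => -V z) c γ w) with h4 | h4
    · exact hmax ⟨mem_closedBall_zero_iff.2 (hbd w h1 h2 h3 h4), h1, h2, h3⟩
    · exact h4.trans hw₀
  obtain ⟨-, h2m⟩ := hlev w₀ hb0 hb1 hb2 hw₀
  obtain ⟨hθ0, hθ1, hxy⟩ := D7c_nondeg hUV hV0 hb0 hb1 (by linarith)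
  have ht₀ : δ < w₀.1.2 := by
    by_contra h
    have h1 := hsmall w₀ hb0 hb1 hb2 (not_lt.1 h)
    linarith
  obtain ⟨r, hr, hr1, hr2, hr3⟩ :
      ∃ r : ℝ, 0 < r ∧ r ≤ δ / 2 ∧ r ≤ w₀.2.2 ∧ r ≤ 1 - w₀.2.2 :=
    ⟨min (δ / 2) (min w₀.2.2 (1 - w₀.2.2)),
      lt_min (half_pos hδ) (lt_min hθ0 (sub_pos.2 hθ1)), min_le_left _ _,
      (min_le_right _ _).trans (min_le_left _ _), (min_le_right _ _).trans (min_le_right _ _)⟩
  have hloc : IsMaxOn (tpF (supc lam U) (supc lam fun z => -V z) c γ) (closedBall w₀ r) w₀ := by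
    intro w hw
    rw [mem_closedBall, dist_eq_norm] at hw
    have e1 : |w.2.2 - w₀.2.2| ≤ r :=
      ((norm_snd_le (w - w₀).2).trans (norm_snd_le (w - w₀))).trans hw
    have e2 : |w.1.2 - w₀.1.2| ≤ r :=
      ((norm_snd_le (w - w₀).1).trans (norm_fst_le (w - w₀))).trans hw
    have e3 := abs_le.1 e1
    have e4 := abs_le.1 e2
    exact hall w (by linarith [e3.1]) (by linarith [e3.2]) (by linarith [e4.1])
  have hmid : ∀ (F : Zs N → ℝ) (B : ℝ), (∀ z, |F z| ≤ B) → ∀ z k : Zs N,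
      2 * supc lam F z ≤ supc lam F (z + k) + supc lam F (z - k) +
        max ((max K₁ K₂ : ℝ≥0) : ℝ) (6 / lam) * ‖k‖ ^ 2 := fun F B hB z k => by
    have e1 := supc_midpoint hB hlam z k
    have e2 := mul_le_mul_of_nonneg_right (le_max_right ((max K₁ K₂ : ℝ≥0) : ℝ) (6 / lam))
      (sq_nonneg ‖k‖)
    linarith
  have hdata : ∀ ε : ℝ, 0 < ε →
      TPData c γ (max ((max K₁ K₂ : ℝ≥0) : ℝ) (6 / lam)) ε w₀.1.1 w₀.2.1 w₀.2.2 := fun ε hε =>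
    tp_data (hK₁.weaken (le_max_left K₁ K₂)) (hK₂.weaken (le_max_right K₁ K₂)) (le_max_left _ _)
      (hmid U M hU.bdd) (hmid _ M' hW.bdd) (ha₁ lam hlam hle₃) (ha₂ lam hlam hle₄) hr
      (by linarith) hloc hε
  exact absurd (three_alg (tp_limit hdata) hxy hθ0 hθ1 hc) (not_le.2 hγ)

/-- Fix `x, y, t`, put `a = max (U (x, t)) (U (y, t))`, apply `three_point` to `U - a` and
`V = -Th ε (-(U - a))`, let `ε → 0`. -/
theorem nc_of_sub {U : Zs N → ℝ} {M R c₀ c : ℝ} (hU : Nice M R c₀ U) (hs : Sub AdmES U)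
    (hs' : Sub AdmES fun z => -U z) (hc : 0 < c)
    (h0 : ∀ t : ℝ, t ≤ 0 → NC c fun x => U (x, t)) (t : ℝ) : NC c fun x => U (x, t) := by
  intro x y θ hθ0 hθ1
  obtain ⟨a, ha⟩ : ∃ a : ℝ, a = max (U (x, t)) (U (y, t)) := ⟨_, rfl⟩
  refine le_of_forall_pos_le_add fun ε hε => ?_
  obtain ⟨M₁, hU₁⟩ := hU.comp (Φ := fun s => s + -a) (by fun_prop)
  obtain ⟨M₂, hV₁⟩ := hU.comp (Φ := fun s => -Th ε (-s + a))
    ((continuous_Th ε).comp (by fun_prop)).neg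
  have hsV : Sub AdmES fun z => - -Th ε (-U z + a) := by
    simpa only [neg_neg] using (hs'.add_const a).relabel hε
  have hUV : ∀ z, U z + -a ≤ -Th ε (-U z + a) := fun z => by
    linarith [Th_le ε (-U z + a), min_le_left (-U z + a) 0]
  have hV0 : ∀ z, 0 ≤ -Th ε (-U z + a) := fun z => by
    linarith [Th_le ε (-U z + a), min_le_right (-U z + a) 0]
  have key := three_point hU₁ hV₁ (hs.add_const (-a)) hsV hUV hV0 hc (by
    rintro ⟨⟨x', t'⟩, ⟨y', θ'⟩⟩ h1 h2 h3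
    have e1 := h0 t' h3 x' y' θ' h1 h2
    have e2 := hUV (x', t')
    have e3 := hUV (y', t')
    have e4 := hV0 (x', t')
    have e5 := hV0 (y', t')
    rw [D7c_tpF]
    rcases le_total (U (x', t')) (U (y', t')) with h4 | h4
    · rw [max_eq_right h4] at e1
      linarith
    · rw [max_eq_left h4] at e1
      linarith) ((x, t), (y, θ)) hθ0 hθ1
  rw [D7c_tpF] at key
  have e1 := le_Th hε.le (-U (x, t) + a)
  have e2 := le_Th hε.le (-U (y, t) + a)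
  rw [min_eq_right (by linarith [le_max_left (U (x, t)) (U (y, t))])] at e1
  rw [min_eq_right (by linarith [le_max_right (U (x, t)) (U (y, t))])] at e2
  rw [← ha]
  linarith

end Pool.Agent.MCF5
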