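import Mathlib

/-! Statement definitions: weak (viscosity) solutions of the level set mean curvature flow in the
sense of Evans and Spruck, and the perimeter of De Giorgi. -/

open MeasureTheory
open scoped ENNReal ContDiff

namespace Pool.Agent.LevelSetFlow

variable {N : ℕ}

/-- Time derivative of `φ` at the space-time point `z = (x, t)`. -/
noncomputable def timeDeriv (φ : EuclideanSpace ℝ (Fin N) × ℝ → ℝ)
    (z : EuclideanSpace ℝ (Fin N) × ℝ) : ℝ :=
  deriv (fun t => φ (z.1, t)) z.2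

/-- Spatial gradient of `φ` at `z`. -/
noncomputable def spaceGrad (φ : EuclideanSpace ℝ (Fin N) × ℝ → ℝ)
    (z : EuclideanSpace ℝ (Fin N) × ℝ) : EuclideanSpace ℝ (Fin N) :=
  gradient (fun x => φ (x, z.2)) z.1

/-- Second spatial derivative of `φ` at `z` in the direction `η`, that is
`∑ i j, η i * η j * φ_{x i, x j}`. -/
noncomputable def spaceHess (φ : EuclideanSpace ℝ (Fin N) × ℝ → ℝ)
    (z : EuclideanSpace ℝ (Fin N) × ℝ) (η : EuclideanSpace ℝ (Fin N)) : ℝ :=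
  iteratedFDeriv ℝ 2 (fun x => φ (x, z.2)) z.1 ![η, η]

/-- `∑ i j, (δ i j - η i * η j) * φ_{x i, x j}` at `z`. -/
noncomputable def curvOp (φ : EuclideanSpace ℝ (Fin N) × ℝ → ℝ)
    (z : EuclideanSpace ℝ (Fin N) × ℝ) (η : EuclideanSpace ℝ (Fin N)) : ℝ :=
  (∑ i, spaceHess φ z (EuclideanSpace.single i 1)) - spaceHess φ z η

/-- Weak subsolution: the inequality holds for every smooth `φ` at every local maximum of `u - φ`
with positive time. -/
def IsWeakSub (u : EuclideanSpace ℝ (Fin N) × ℝ → ℝ) : Prop :=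
  ∀ φ : EuclideanSpace ℝ (Fin N) × ℝ → ℝ, ContDiff ℝ ∞ φ →
    ∀ z : EuclideanSpace ℝ (Fin N) × ℝ, 0 < z.2 → IsLocalMax (fun w => u w - φ w) z →
      (spaceGrad φ z ≠ 0 →
        timeDeriv φ z ≤ curvOp φ z (‖spaceGrad φ z‖⁻¹ • spaceGrad φ z)) ∧
      (spaceGrad φ z = 0 → ∃ η, ‖η‖ ≤ 1 ∧ timeDeriv φ z ≤ curvOp φ z η)

/-- Weak supersolution: the reverse inequality at every local minimum of `u - φ`. -/
def IsWeakSuper (u : EuclideanSpace ℝ (Fin N) × ℝ → ℝ) : Prop :=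
  ∀ φ : EuclideanSpace ℝ (Fin N) × ℝ → ℝ, ContDiff ℝ ∞ φ →
    ∀ z : EuclideanSpace ℝ (Fin N) × ℝ, 0 < z.2 → IsLocalMin (fun w => u w - φ w) z →
      (spaceGrad φ z ≠ 0 →
        curvOp φ z (‖spaceGrad φ z‖⁻¹ • spaceGrad φ z) ≤ timeDeriv φ z) ∧
      (spaceGrad φ z = 0 → ∃ η, ‖η‖ ≤ 1 ∧ curvOp φ z η ≤ timeDeriv φ z)

/-- Weak solution of `u_t = |∇u| div (∇u / |∇u|)`: bounded and continuous for `t ≥ 0`, a weak
subsolution and a weak supersolution. -/
structure IsWeakSolution (u : EuclideanSpace ℝ (Fin N) × ℝ → ℝ) : Prop where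
  cont : ContinuousOn u {z | 0 ≤ z.2}
  bdd : ∃ M : ℝ, ∀ z : EuclideanSpace ℝ (Fin N) × ℝ, 0 ≤ z.2 → |u z| ≤ M
  sub : IsWeakSub u
  super : IsWeakSuper u

/-- Divergence of a vector field. -/
noncomputable def divergence (Y : EuclideanSpace ℝ (Fin N) → EuclideanSpace ℝ (Fin N))
    (x : EuclideanSpace ℝ (Fin N)) : ℝ :=
  ∑ i, fderiv ℝ Y x (EuclideanSpace.single i 1) i

/-- Perimeter in the sense of De Giorgi: the supremum of the integral of `div Y` over `A` among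
compactly supported `C¹` fields of length at most one. -/
noncomputable def perimeter (A : Set (EuclideanSpace ℝ (Fin N))) : ℝ≥0∞ :=
  ⨆ (Y : EuclideanSpace ℝ (Fin N) → EuclideanSpace ℝ (Fin N)) (_ : ContDiff ℝ 1 Y)
    (_ : HasCompactSupport Y) (_ : ∀ x, ‖Y x‖ ≤ 1), ENNReal.ofReal (∫ x in A, divergence Y x)

end Pool.Agent.LevelSetFlow
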