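import Pool.Agent.Lib.MP_5aed36_gt.A2
import Pool.Agent.Lib.MP_5aed36_gt.C7

open MeasureTheory Set Filter Topology Metric
open scoped ENNReal NNReal RealInnerProductSpace

namespace Pool.Agent.MCF5

variable {N : ℕ}

private theorem E1_int_mul {κ φ : Sp N → ℝ} {d : ℝ} (hκ : Integrable κ) (hφ : LipC φ d) :
    Integrable fun x => κ x * φ x := by
  obtain ⟨M, hM⟩ := hφ.bounded
  exact hκ.mul_bdd (c := M) hφ.continuous.aestronglyMeasurable (Eventually.of_forall hM)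

private theorem E1_cl_sub (a b s t : ℝ) : |cl a b s - cl a b t| ≤ |s - t| := by
  have := (lipschitz_cl a b).dist_le_mul s t
  simpa [Real.dist_eq] using this

private theorem E1_lipC_cl {f : Sp N → ℝ} {a b c : ℝ} (hf : LipC f c) (hc : c ≤ a) (hab : a ≤ b) :
    LipC (fun x => cl a b (f x)) a := by
  have := hf.comp (lipschitz_cl a b)
  rwa [cl_of_le hab hc] at this

private theorem E1_window {w u κ ψ : Sp N → ℝ} {a b c B δ : ℝ} (hw : LipC w c) (hu : LipC u c)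
    (hel : EL w κ) (hκ : Integrable κ) (hB : ∫ x, |κ x| ≤ B) (hc : c ≤ a) (hab : a ≤ b)
    (hψ : LipC ψ a) (hδ : 0 ≤ δ) (hwu : ∀ x, |w x - u x| ≤ δ) :
    tv (fun x => cl a b (w x)) ≤ tv ψ + (∫ x, |κ x| * |ψ x - cl a b (u x)|) + δ * B := by
  have hψ' : LipC ψ (cl a b c) := by rwa [cl_of_le hab hc]
  have h1 := EL.window hw hel hab hψ'
  have i1 : Integrable fun x => κ x * (ψ x - cl a b (w x)) :=
    E1_int_mul hκ (hψ.sub (E1_lipC_cl hw hc hab))
  have i2 : Integrable fun x => |κ x| * |ψ x - cl a b (u x)| := by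
    have := (E1_int_mul hκ (hψ.sub (E1_lipC_cl hu hc hab))).abs
    simpa only [abs_mul] using this
  have i3 : Integrable fun x => δ * |κ x| := hκ.abs.const_mul δ
  have h2 : ∫ x, κ x * (ψ x - cl a b (w x)) ≤
      ∫ x, (|κ x| * |ψ x - cl a b (u x)| + δ * |κ x|) := by
    refine integral_mono i1 (i2.add i3) fun x => ?_
    have e1 : |ψ x - cl a b (w x)| ≤ |ψ x - cl a b (u x)| + δ := by
      have t1 := abs_sub_le (ψ x) (cl a b (u x)) (cl a b (w x))
      have t2 := E1_cl_sub a b (u x) (w x)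
      have t3 := hwu x
      rw [abs_sub_comm] at t3
      linarith
    calc κ x * (ψ x - cl a b (w x)) ≤ |κ x| * |ψ x - cl a b (w x)| := by
          rw [← abs_mul]; exact le_abs_self _
      _ ≤ |κ x| * (|ψ x - cl a b (u x)| + δ) := mul_le_mul_of_nonneg_left e1 (abs_nonneg _)
      _ = |κ x| * |ψ x - cl a b (u x)| + δ * |κ x| := by ring
  rw [integral_add i2 i3, integral_const_mul] at h2
  have h3 : δ * ∫ x, |κ x| ≤ δ * B := mul_le_mul_of_nonneg_left hB hδ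
  linarith

private theorem E1_unif {ι : Type*} {l : Filter ι} {W : ι → Sp N → ℝ} {u : Sp N → ℝ} (a b : ℝ)
    (h : ∀ ε : ℝ, 0 < ε → ∀ᶠ i in l, ∀ x, |W i x - u x| ≤ ε) :
    TendstoUniformly (fun i x => cl a b (W i x)) (fun x => cl a b (u x)) l := by
  rw [Metric.tendstoUniformly_iff]
  intro ε hε
  filter_upwards [h (ε / 2) (half_pos hε)] with i hi x
  rw [Real.dist_eq, abs_sub_comm]
  exact ((E1_cl_sub a b _ _).trans (hi x)).trans_lt (half_lt_self hε)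

private theorem E1_l1 {f g f' g' : Sp N → ℝ} {L : ℝ≥0} {R a b c δ : ℝ} (hf : Data L R c f)
    (hg : Data L R c g) (hf' : Data L R c f') (hg' : Data L R c g') (hc : c ≤ a) (hab : a ≤ b)
    (h1 : ∀ x, |f' x - f x| ≤ δ) (h2 : ∀ x, |g' x - g x| ≤ δ) :
    ∫ x, |cl a b (f x) - cl a b (g x)| ≤ (∫ x, |cl a b (f' x) - cl a b (g' x)|) +
      2 * δ * volume.real (closedBall (0 : Sp N) R) := by
  have i1 : Integrable fun x => |cl a b (f x) - cl a b (g x)| := by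
    have := (E1_lipC_cl hf.lipC hc hab).sub (E1_lipC_cl hg.lipC hc hab)
    rw [sub_self] at this
    exact this.integrable_zero.abs
  have i2 : Integrable fun x => |cl a b (f' x) - cl a b (g' x)| := by
    have := (E1_lipC_cl hf'.lipC hc hab).sub (E1_lipC_cl hg'.lipC hc hab)
    rw [sub_self] at this
    exact this.integrable_zero.abs
  have i3 : Integrable ((closedBall (0 : Sp N) R).indicator fun _ => 2 * δ) :=
    (integrable_indicator_iff measurableSet_closedBall).2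
      (integrableOn_const measure_closedBall_lt_top.ne)
  have h3 : ∫ x, |cl a b (f x) - cl a b (g x)| ≤ ∫ x, (|cl a b (f' x) - cl a b (g' x)| +
      (closedBall (0 : Sp N) R).indicator (fun _ => 2 * δ) x) := by
    refine integral_mono i1 (i2.add i3) fun x => ?_
    by_cases hx : x ∈ closedBall (0 : Sp N) R
    · have t1 := abs_sub_le (cl a b (f x)) (cl a b (f' x)) (cl a b (g x))
      have t2 := abs_sub_le (cl a b (f' x)) (cl a b (g' x)) (cl a b (g x))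
      have t3 := E1_cl_sub a b (f x) (f' x)
      have t4 := E1_cl_sub a b (g' x) (g x)
      have t5 := h1 x
      have t6 := h2 x
      rw [abs_sub_comm] at t5
      simp only [indicator_of_mem hx]
      linarith
    · simp only [indicator_of_notMem hx]
      rw [mem_closedBall_zero_iff, not_le] at hx
      rw [hf.2 x hx.le, hg.2 x hx.le, sub_self, abs_zero, add_zero]
      exact abs_nonneg _
  rw [integral_add i2 i3, integral_indicator_const _ measurableSet_closedBall, smul_eq_mul] at h3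
  linarith

private theorem E1_small {δ : ℝ} (hδ : 0 < δ) : ∀ᶠ n : ℕ in atTop, 1 / ((n : ℝ) + 1) ≤ δ :=
  (tendsto_one_div_add_atTop_nhds_zero_nat (𝕜 := ℝ)).eventually (ge_mem_nhds hδ)

section
variable {L : ℝ≥0} {R c B : ℝ} {V ρ : ℕ → ℕ → Sp N → ℝ} {ub : Zs N → ℝ} {κ : Sp N → ℝ}
  {v₀ : Sp N → ℝ} {l : Filter ℕ}

theorem Traj.exists_el {h : ℝ} {W σ : ℕ → Sp N → ℝ} (hh : 0 < h) (hT : Traj h L R c W σ)
    (hel : EL (W 0) κ) (hκ : Integrable κ) (hB : ∫ x, |κ x| ≤ B) (k : ℕ) :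
    ∃ κ' : Sp N → ℝ, Integrable κ' ∧ ∫ x, |κ' x| ≤ B ∧ EL (W k) κ' := by
  cases k with
  | zero => exact ⟨κ, hκ, hB, hel⟩
  | succ k =>
    exact ⟨fun x => σ k x / h,
      (Step.integrable hh (hT.data k) (hT.data (k + 1)) (hT.step k)).div_const h,
      Traj.l1 hh hT hel hκ hB k, (hT.step k).el⟩

/-- Choose `n j` with uniform error at most `1 / (j + 1)` at time `s`; `EL.window`, `tv_lsc`. -/
theorem calib_of_limit (hT : ∀ n : ℕ, Traj (1 / ((n : ℝ) + 1)) L R c (V n) (ρ n))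
    (h0 : ∀ n, V n 0 = v₀) (hel : EL v₀ κ) (hκ : Integrable κ) (hB : ∫ x, |κ x| ≤ B) [l.NeBot]
    (hd : ∀ t, Data L R c fun x => ub (x, t))
    (hconv : ∀ T ε : ℝ, 0 < ε → ∀ᶠ n in l, ∀ (x : Sp N) (t : ℝ), 0 ≤ t → t ≤ T →
      |V n ⌊t * ((n : ℝ) + 1)⌋₊ x - ub (x, t)| ≤ ε) {s : ℝ} (hs : 0 ≤ s) :
    ∃ κ' : ℕ → Sp N → ℝ, (∀ n, Integrable (κ' n)) ∧ (∀ n, ∫ x, |κ' n x| ≤ B) ∧
      ∀ (a b : ℝ) (ψ : Sp N → ℝ), c ≤ a → a < b → LipC ψ a → ∀ ε : ℝ, 0 < ε →
        ∀ᶠ n in atTop, tv (fun x => cl a b (ub (x, s))) ≤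
          tv ψ + (∫ x, |κ' n x| * |ψ x - cl a b (ub (x, s))|) + ε := by
  have hpos : ∀ j : ℕ, 0 < 1 / ((j : ℝ) + 1) := fun j => by positivity
  choose n hn using fun j : ℕ => (hconv s _ (hpos j)).exists
  have hel' : ∀ m, EL (V m 0) κ := fun m => by rw [h0]; exact hel
  choose κ' hi hb he using fun j : ℕ =>
    Traj.exists_el (hpos (n j)) (hT (n j)) (hel' (n j)) hκ hB ⌊s * ((n j : ℝ) + 1)⌋₊
  have hB0 : 0 ≤ B := (integral_nonneg fun x => abs_nonneg (κ x)).trans hB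
  refine ⟨κ', hi, hb, fun a b ψ hc hab hψ ε hε => ?_⟩
  have hW : ∀ j, LipC (V (n j) ⌊s * ((n j : ℝ) + 1)⌋₊) c := fun j => ((hT (n j)).data _).lipC
  have hu : LipC (fun x => ub (x, s)) c := (hd s).lipC
  have hun := E1_unif (l := atTop) (W := fun j => V (n j) ⌊s * ((n j : ℝ) + 1)⌋₊)
    (u := fun x => ub (x, s)) a b fun δ hδ => by
      filter_upwards [E1_small hδ] with j hj x
      exact (hn j x s hs le_rfl).trans hj
  have hlsc := tv_lsc (fun j => E1_lipC_cl (hW j) hc hab.le) (E1_lipC_cl hu hc hab.le) hun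
    (half_pos hε)
  have hδ : 0 < ε / 2 / (B + 1) := by positivity
  filter_upwards [hlsc, E1_small hδ] with j h1 h2
  have h3 := E1_window (hW j) hu (he j) (hi j) (hb j) hc hab.le hψ hδ.le
    fun x => (hn j x s hs le_rfl).trans h2
  have h4 : ε / 2 / (B + 1) * B ≤ ε / 2 := by
    rw [div_mul_eq_mul_div, div_le_iff₀ (by positivity)]
    nlinarith
  linarith

/-- Pass to the limit in `exists_diss` along `l`: lower bound at time `t` by `tv_lsc`, upper bound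
at time `s` by `EL.window` with `ψ = cl a b (ub (·, s))`. -/
theorem diss_of_limit : ∃ C₀ : ℝ, 0 ≤ C₀ ∧ ∀ (L : ℝ≥0) (R c B : ℝ) (V ρ : ℕ → ℕ → Sp N → ℝ)
    (ub : Zs N → ℝ) (κ v₀ : Sp N → ℝ) (l : Filter ℕ), l.NeBot → l ≤ atTop →
    (∀ n : ℕ, Traj (1 / ((n : ℝ) + 1)) L R c (V n) (ρ n)) → (∀ n, V n 0 = v₀) → EL v₀ κ →
    Integrable κ → ∫ x, |κ x| ≤ B → (∀ t, Data L R c fun x => ub (x, t)) →
    (∀ T ε : ℝ, 0 < ε → ∀ᶠ n in l, ∀ (x : Sp N) (t : ℝ), 0 ≤ t → t ≤ T →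
      |V n ⌊t * ((n : ℝ) + 1)⌋₊ x - ub (x, t)| ≤ ε) →
    ∀ s t a b lam : ℝ, 0 ≤ s → s ≤ t → c ≤ a → a < b → 0 < lam →
      lam * (∫ x, |cl a b (ub (x, t)) - cl a b (ub (x, s))|) +
          tv (fun x => cl a b (ub (x, t))) ≤
        C₀ * lam ^ 2 * (t - s) * (B * (b - a)) + tv (fun x => cl a b (ub (x, s))) := by
  obtain ⟨C₀, hC₀, hdiss⟩ := exists_diss (N := N)
  refine ⟨C₀, hC₀, ?_⟩
  intro L R c B V ρ ub κ v₀ l hl hle hT h0 hel hκ hB hd hconv s t a b lam hs hst hc hab hlam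
  have hpos : ∀ j : ℕ, 0 < 1 / ((j : ℝ) + 1) := fun j => by positivity
  have hel' : ∀ m, EL (V m 0) κ := fun m => by rw [h0]; exact hel
  have hB0 : 0 ≤ B := (integral_nonneg fun x => abs_nonneg (κ x)).trans hB
  have ht : 0 ≤ t := hs.trans hst
  set A : ℝ := C₀ * lam ^ 2 * (B * (b - a)) with hA
  have hA0 : 0 ≤ A := by
    have : 0 ≤ b - a := sub_nonneg.2 hab.le
    positivity
  set vol : ℝ := volume.real (closedBall (0 : Sp N) R) with hvol
  have hun := E1_unif (l := l) (W := fun n => V n ⌊t * ((n : ℝ) + 1)⌋₊)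
    (u := fun x => ub (x, t)) a b fun δ hδ => by
      filter_upwards [hconv t δ hδ] with n hn x
      exact hn x t ht le_rfl
  have key : ∀ δ : ℝ, 0 < δ →
      lam * (∫ x, |cl a b (ub (x, t)) - cl a b (ub (x, s))|) + tv (fun x => cl a b (ub (x, t))) ≤
        lam * (2 * δ * vol) + δ + (t - s + δ) * (A + lam * δ * B) + δ * B +
          tv (fun x => cl a b (ub (x, s))) := by
    intro δ hδ
    have hlsc := tv_lsc (fun n : ℕ => E1_lipC_cl ((hT n).data ⌊t * ((n : ℝ) + 1)⌋₊).lipC hc hab.le)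
      (E1_lipC_cl (hd t).lipC hc hab.le) hun hδ
    obtain ⟨n, h1, h2, h3⟩ := (hlsc.and ((hconv t δ hδ).and (hle (E1_small hδ)))).exists
    have h3' : 1 / ((n : ℝ) + 1) ≤ δ := h3
    have hn1 : 0 < (n : ℝ) + 1 := by positivity
    have hjk : ⌊s * ((n : ℝ) + 1)⌋₊ ≤ ⌊t * ((n : ℝ) + 1)⌋₊ :=
      Nat.floor_le_floor (mul_le_mul_of_nonneg_right hst hn1.le)
    have h4 := hdiss _ c R a b B lam L (V n) (ρ n) κ (hpos n) (hT n) (hel' n) hκ hB hc hab.le hlam
      _ _ hjk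
    obtain ⟨κ', hi, hb, he⟩ := Traj.exists_el (hpos n) (hT n) (hel' n) hκ hB ⌊s * ((n : ℝ) + 1)⌋₊
    have h5 := E1_window ((hT n).data ⌊s * ((n : ℝ) + 1)⌋₊).lipC (hd s).lipC he hi hb hc hab.le
      (E1_lipC_cl (hd s).lipC hc hab.le) hδ.le fun x => h2 x s hs hst
    simp only [sub_self, abs_zero, mul_zero, integral_zero, add_zero] at h5
    have h6 := E1_l1 (hd t) (hd s) ((hT n).data ⌊t * ((n : ℝ) + 1)⌋₊)
      ((hT n).data ⌊s * ((n : ℝ) + 1)⌋₊) hc hab.le (fun x => h2 x t ht le_rfl)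
      fun x => h2 x s hs hst
    have h7 : ((⌊t * ((n : ℝ) + 1)⌋₊ : ℝ) - (⌊s * ((n : ℝ) + 1)⌋₊ : ℝ)) * (1 / ((n : ℝ) + 1)) ≤
        t - s + δ := by
      have f1 : (⌊t * ((n : ℝ) + 1)⌋₊ : ℝ) ≤ t * ((n : ℝ) + 1) := Nat.floor_le (by positivity)
      have f2 : s * ((n : ℝ) + 1) < (⌊s * ((n : ℝ) + 1)⌋₊ : ℝ) + 1 := Nat.lt_floor_add_one _
      have f3 : 1 ≤ δ * ((n : ℝ) + 1) := by rwa [div_le_iff₀ hn1] at h3'
      rw [mul_one_div, div_le_iff₀ hn1]
      nlinarith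
    have h8 : A + lam * (1 / ((n : ℝ) + 1)) * B ≤ A + lam * δ * B := by gcongr
    have h9 : 0 ≤ A + lam * (1 / ((n : ℝ) + 1)) * B := by positivity
    have h10 : 0 ≤ t - s + δ := by linarith
    have h11 := mul_le_mul h7 h8 h9 h10
    have h12 := mul_le_mul_of_nonneg_left h6 hlam.le
    rw [mul_add] at h12
    linarith
  have hcont : Continuous fun δ : ℝ => lam * (2 * δ * vol) + δ +
      (t - s + δ) * (A + lam * δ * B) + δ * B + tv (fun x => cl a b (ub (x, s))) := by fun_prop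
  have hlim := (hcont.tendsto 0).mono_left (nhdsWithin_le_nhds (s := Ioi (0 : ℝ)))
  have := ge_of_tendsto hlim (eventually_nhdsWithin_of_forall fun δ hδ => key δ hδ)
  have e : C₀ * lam ^ 2 * (t - s) * (B * (b - a)) = (t - s) * A := by rw [hA]; ring
  rw [e]
  simpa using this

end

end Pool.Agent.MCF5
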