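import Pool.Agent.Lib.MP_5aed36_gt.C5
import Pool.Agent.Lib.MP_5aed36_gt.C7b
import Pool.Agent.Lib.MP_5aed36_gt.C10
import Pool.Agent.Lib.MP_5aed36_gt.C11
import Pool.Agent.Lib.MP_5aed36_gt.D5
import Pool.Agent.Lib.MP_5aed36_gt.D7c
import Pool.Agent.Lib.MP_5aed36_gt.E1

open MeasureTheory Set Filter Topology Metric
open scoped ENNReal NNReal RealInnerProductSpace

namespace Pool.Agent.MCF5

variable {N : ℕ}

theorem exists_flow (hN : 0 < N) {U : Zs N → ℝ} {g : Sp N → ℝ} {M R c a₁ a₂ : ℝ}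
    (hU : Nice M R c U) (hs : Sub AdmES U) (hs' : Sub AdmES fun z => -U z)
    (hg0 : ∀ z : Zs N, z.2 ≤ 0 → U z = g z.1) (hg : ContDiff ℝ 2 g) (hc : c < a₁) (ha : a₁ < a₂)
    (hreg : ∀ x, a₁ ≤ g x → g x ≤ a₂ → fderiv ℝ g x ≠ 0) :
    ∃ (L : ℝ≥0) (B C₀ c' : ℝ), 0 ≤ B ∧ 0 ≤ C₀ ∧ 0 < c' ∧
      Flow L R a₁ a₂ B C₀ c' fun s x => cl a₁ a₂ (U (x, s)) := by
  have hout : ∀ x, R ≤ ‖x‖ → g x = c := fun x hx => by
    rw [← hg0 (x, 0) le_rfl]; exact hU.out (x, 0) hx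
  obtain ⟨κ, hκ, hel⟩ := exists_kappa hg hout hc ha hreg
  obtain ⟨L, hL⟩ := exists_data hg hout hc ha
  obtain ⟨c', hc', hn1, hn2⟩ := exists_nc hg hout
  obtain ⟨C₀, hC₀, hdiss⟩ := diss_of_limit (N := N)
  have hex : ∀ n : ℕ, ∃ V r : ℕ → Sp N → ℝ, V 0 = (fun x => cl a₁ a₂ (g x)) ∧
      Traj (1 / ((n : ℝ) + 1)) L R a₁ V r := fun n =>
    traj_exists hN (by positivity) hL
  choose V ρ hV0 hT using hex
  have hr : ∀ n k x, a₁ ≤ V n k x ∧ V n k x ≤ a₂ := fun n =>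
    (hT n).range (by positivity) ⟨le_rfl, ha.le⟩ fun x => by
      rw [hV0 n]; exact cl_mem ha.le _
  obtain ⟨ub, hcont, hdata, hrange, hinit, hconv⟩ := exists_limit hT hV0 hr
  have hl : (hyperfilter ℕ : Filter ℕ) ≤ atTop := Nat.hyperfilter_le_atTop
  have hsub : Sub (AdmW (KN N)) ub := sub_of_limit hT hl hcont hconv
  have hsub' : Sub (AdmW (KN N)) fun z => -ub z := by
    refine sub_of_limit (fun n => (hT n).neg) hl hcont.neg fun T ε hε => ?_
    filter_upwards [hconv T ε hε] with n hn x t h0 h1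
    have h2 := hn x t h0 h1
    rw [← abs_neg] at h2
    convert h2 using 2
    ring
  have hK : (N : ℝ) ≤ KN N := by
    unfold KN
    have : (0 : ℝ) ≤ N := Nat.cast_nonneg N
    nlinarith
  have hnice : Nice (max |a₁| |a₂|) R a₁ ub := by
    refine ⟨hcont, fun z => ?_, fun z hz => (hdata z.2).2 z.1 hz⟩
    obtain ⟨h1, h2⟩ := hrange z
    exact abs_le_max_abs_abs h1 h2
  have hlow : ∀ z, cl a₁ a₂ (U z) ≤ ub z :=
    cl_le_of_sub hK hU hnice hs hsub' fun z hz => by rw [hinit z hz, hg0 z hz]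
  have hup : ∀ z, cl (-a₂) (-a₁) (-U z) ≤ -ub z := by
    refine cl_le_of_sub hK hU.neg hnice.neg hs' (by simpa using hsub) fun z hz => ?_
    rw [← neg_cl ha.le, hinit z hz, hg0 z hz]
  have heq : ∀ z, cl a₁ a₂ (U z) = ub z := fun z => by
    have h1 := hup z
    rw [← neg_cl ha.le] at h1
    linarith [hlow z]
  have hnU : ∀ t, NC c' fun x => U (x, t) := nc_of_sub hU hs hs' hc' fun t ht => by
    have : (fun x => U (x, t)) = g := funext fun x => hg0 (x, t) ht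
    rw [this]; exact hn1
  have hnU' : ∀ t, NC c' fun x => -U (x, t) :=
    nc_of_sub (U := fun z => -U z) hU.neg hs' (by simpa using hs) hc' fun t ht => by
      have : (fun x => -U (x, t)) = fun x => -g x := funext fun x => by rw [hg0 (x, t) ht]
      rw [this]; exact hn2
  have hfun : (fun (s : ℝ) (x : Sp N) => cl a₁ a₂ (U (x, s))) = fun s x => ub (x, s) := by
    funext s x; exact heq _
  refine ⟨L, ∫ x, |κ x|, C₀, c', integral_nonneg fun x => abs_nonneg _, hC₀, hc', ?_⟩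
  refine ⟨?_, ?_, ?_, ?_, ?_, ?_, ?_⟩
  · simpa only [heq] using hcont
  · intro s; simpa only [heq] using hdata s
  · intro s x; exact cl_mem ha.le _
  · intro s hs0
    simpa only [heq] using calib_of_limit hT hV0 hel hκ le_rfl hdata hconv hs0
  · intro s t a b lam h1 h2 h3 h4 h5
    simpa only [heq] using hdiss L R a₁ _ V ρ ub κ _ _ inferInstance hl hT hV0 hel hκ le_rfl hdata
      hconv s t a b lam h1 h2 h3 h4 h5
  · intro s _
    exact (hnU s).cl hc'.le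
  · intro s _
    have h1 := (hnU' s).cl (a := -a₂) (b := -a₁) hc'.le
    simpa only [← neg_cl ha.le] using h1

end Pool.Agent.MCF5
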