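import Pool.Agent.Lib.MP_5aed36_gt.Bridge

/-! The weak admissibility condition implies the condition of Evans and Spruck. -/

open MeasureTheory Set Filter Topology Metric
open scoped ENNReal NNReal RealInnerProductSpace ContDiff

namespace Pool.Agent.MCF5

open Pool.Agent.LevelSetFlow

variable {N : ℕ}

theorem ex_eucl_self (k : Zs N) : eucl k k = ‖k.1‖ ^ 2 + k.2 ^ 2 := by
  rw [eucl_apply, real_inner_self_eq_norm_sq]; ring

theorem ex_sq_le (k : Zs N) : ‖k‖ ^ 2 ≤ eucl k k := by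
  rw [ex_eucl_self, Prod.norm_def]
  rcases le_total ‖k.1‖ ‖k.2‖ with h | h
  · rw [max_eq_right h, Real.norm_eq_abs, sq_abs]; nlinarith [sq_nonneg ‖k.1‖]
  · rw [max_eq_left h]; nlinarith [sq_nonneg k.2]

theorem ex_tr_add (Q : Zs N →L[ℝ] Zs N →L[ℝ] ℝ) (ε : ℝ) (hε : 0 ≤ ε) (η : Sp N) :
    trQ (Q + ε • eucl) - (Q + ε • eucl (N := N)) (η, 0) (η, 0) ≤ trQ Q - Q (η, 0) (η, 0) + ε * N := by
  have h1 : trQ (Q + ε • eucl) = trQ Q + ε * N := by
    simp [trQ, Finset.sum_add_distrib, ex_eucl_self, mul_comm]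
  have h2 : (Q + ε • eucl (N := N)) (η, 0) (η, 0) = Q (η, 0) (η, 0) + ε * ‖η‖ ^ 2 := by
    simp [ex_eucl_self]
  rw [h1, h2]
  nlinarith [mul_nonneg hε (sq_nonneg ‖η‖)]

theorem ex_exists_dir (P : Zs N →L[ℝ] ℝ) : ∃ η, Dir P η := by
  obtain ⟨d1, d2⟩ := dir_of_grad P rfl
  by_cases h : (InnerProductSpace.toDual ℝ (Sp N)).symm (spat P) = 0
  · exact ⟨0, d2 h 0 (by simp)⟩
  · exact ⟨_, d1 h⟩

theorem ex_key {U : Zs N → ℝ} {C : ℝ} (hU : Continuous U) (hs : Sub (AdmW C) U) {z : Zs N}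
    (hz : 0 < z.2) {P : Zs N →L[ℝ] ℝ} {Q : Zs N →L[ℝ] Zs N →L[ℝ] ℝ} (hT : Touch U z P Q)
    (hP : spat P = 0) {δ : ℝ} (hδ : 0 < δ) :
    ∃ η : Sp N, ‖η‖ ≤ 1 ∧ P (0, 1) ≤ trQ Q - Q (η, 0) (η, 0) + δ := by
  have hP0 : ∀ ξ : Sp N, P (ξ, 0) = 0 := fun ξ => by
    have : spat P ξ = 0 := by rw [hP]; rfl
    simpa [spat] using this
  set ε : ℝ := δ / (2 * (N + 1)) with hε
  have hεpos : 0 < ε := by positivity
  have hεN : ε * N ≤ δ / 2 := by
    have : ε * (2 * (N + 1)) = δ := by rw [hε]; field_simp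
    nlinarith
  set Q' := Q + ε • eucl with hQ'
  have hQ'a : ∀ k, Q' k k = Q k k + ε * eucl k k := fun k => by simp [hQ']
  obtain ⟨r₀, hr₀, hball⟩ := Metric.nhds_basis_closedBall.eventually_iff.1 hT
  set r : ℝ := min r₀ z.2 with hr
  have hrpos : 0 < r := lt_min hr₀ hz
  have hr1 : r ≤ r₀ := min_le_left _ _
  have hr2 : r ≤ z.2 := min_le_right _ _
  set A : ℝ := ‖Q'‖ + 1 with hA
  have hApos : 0 < A := by positivity
  have hQb : ∀ k l, |Q' k l| ≤ A * ‖k‖ * ‖l‖ := fun k l => by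
    have h1 := Q'.le_opNorm₂ k l
    rw [Real.norm_eq_abs] at h1
    have : 0 ≤ ‖k‖ * ‖l‖ := by positivity
    nlinarith
  set ρ : ℝ := min (r / 4) (δ / (2 * A)) with hρ
  have hρpos : 0 < ρ := by positivity
  have hρ1 : ρ ≤ r / 4 := min_le_left _ _
  have hρ2 : A * ρ ≤ δ / 2 := by
    have : ρ ≤ δ / (2 * A) := min_le_right _ _
    rw [le_div_iff₀ (by positivity)] at this
    linarith
  set β : ℝ := min (ρ / 2) (ε * ρ ^ 2 / (8 * A * r)) with hβ
  have hβpos : 0 < β := by positivity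
  have hβ1 : β ≤ ρ / 2 := min_le_left _ _
  have hβ2 : β * (8 * A * r) ≤ ε * ρ ^ 2 := by
    rw [← le_div_iff₀ (by positivity)]; exact min_le_right _ _
  set μ : ℝ := A * r / β ^ 3 with hμ
  have hμpos : 0 < μ := by positivity
  have hμβ : μ * β ^ 3 = A * r := by rw [hμ]; field_simp
  clear_value μ β ρ A r
  clear hμ hβ hρ hA hr
  have hQ'd := hQ'
  clear_value Q' ε
  clear hε
  set q : Zs N → ℝ := fun k => P k + (1 / 2) * Q' k k with hq
  set G : Zs N × Sp N → ℝ := fun w => U (z + w.1 + (w.2, 0)) - q w.1 - μ * ‖w.2‖ ^ 4 with hG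
  have hGc : Continuous G := by
    have h1 : Continuous fun w : Zs N × Sp N => Q' w.1 w.1 :=
      (Q'.continuous.comp continuous_fst).clm_apply continuous_fst
    have h2 : Continuous fun w : Zs N × Sp N => U (z + w.1 + (w.2, 0)) := hU.comp (by fun_prop)
    have h3 : Continuous fun w : Zs N × Sp N => P w.1 := P.continuous.comp continuous_fst
    exact (h2.sub (h3.add (continuous_const.mul h1))).sub (by fun_prop)
  obtain ⟨⟨k, h⟩, hmem, hmax⟩ := (isCompact_closedBall (0 : Zs N × Sp N) (r / 2)).exists_isMaxOn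
    ⟨0, mem_closedBall_self (by positivity)⟩ hGc.continuousOn
  rw [mem_closedBall, dist_zero_right, Prod.norm_def, max_le_iff] at hmem
  obtain ⟨hk, hh⟩ : ‖k‖ ≤ r / 2 ∧ ‖h‖ ≤ r / 2 := hmem
  have hnh : ∀ ξ : Sp N, ‖((ξ, 0) : Zs N)‖ = ‖ξ‖ := fun ξ => by simp [Prod.norm_def]
  set P' : Zs N →L[ℝ] ℝ := P + (1 / 2 : ℝ) • (Q' k + Q'.flip k) with hP'
  have hP'a : ∀ l, P' l = P l + (1 / 2) * (Q' k l + Q' l k) := fun l => by
    simp [hP']; ring
  clear_value P'
  have hqadd : ∀ l, q (k + l) = q k + P' l + (1 / 2) * Q' l l := fun l => by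
    simp only [hq, hP'a, map_add, add_apply]; ring
  have hbasic : μ * ‖h‖ ^ 4 + ε / 2 * ‖k + (h, 0)‖ ^ 2 ≤ A * r * ‖h‖ := by
    have h0 : G 0 ≤ G (k, h) := hmax (mem_closedBall_self (by positivity))
    have h1 : G 0 = U z := by
      have : ((0 : Sp N), (0 : ℝ)) = (0 : Zs N) := rfl
      simp [hG, hq, this]
    have h2 := hball (x := k + (h, 0)) (by
      rw [mem_closedBall, dist_zero_right]
      have := norm_add_le k ((h, 0) : Zs N)
      rw [hnh] at this
      linarith)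
    have h3 := hqadd (h, 0)
    have h4 := ex_sq_le (k + (h, 0))
    have h5 := hQ'a (k + (h, 0))
    have h6 := (abs_le.1 (hQb k (h, 0))).2
    have h7 := (abs_le.1 (hQb (h, 0) k)).2
    have h8 := (abs_le.1 (hQb (h, 0) (h, 0))).2
    rw [hP'a, hP0] at h3
    rw [hnh] at h6 h7 h8
    simp only [hG, hq] at h0 h1 h3
    rw [← add_assoc] at h2
    have a1 : A * ‖k‖ * ‖h‖ ≤ A * (r / 2) * ‖h‖ := by gcongr
    have a2 : A * ‖h‖ * ‖h‖ ≤ A * (r / 2) * ‖h‖ := by gcongr
    have a3 : 0 ≤ A * r * ‖h‖ := by positivity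
    nlinarith [mul_le_mul_of_nonneg_left h4 hεpos.le]
  have hhβ : ‖h‖ ≤ β := by
    by_contra hlt
    push Not at hlt
    have hpos : 0 < ‖h‖ := hβpos.trans hlt
    have h1 : β ^ 3 < ‖h‖ ^ 3 := pow_lt_pow_left₀ hlt hβpos.le (by norm_num)
    have h2 := hμβ
    have h3 : μ * β ^ 3 * ‖h‖ < μ * ‖h‖ ^ 3 * ‖h‖ := by gcongr
    have h4 : 0 ≤ ε / 2 * ‖k + (h, 0)‖ ^ 2 := by positivity
    rw [h2] at h3
    nlinarith
  have hkρ : ‖k‖ ≤ ρ := by
    have h1 : A * r * ‖h‖ ≤ A * r * β := by gcongr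
    have h2 : 0 ≤ μ * ‖h‖ ^ 4 := by positivity
    have h3 : ε * ‖k + (h, 0)‖ ^ 2 ≤ ε * (ρ / 2) ^ 2 := by nlinarith
    have h4 : ‖k + (h, 0)‖ ≤ ρ / 2 :=
      (pow_le_pow_iff_left₀ (norm_nonneg _) (by positivity) two_ne_zero).1
        (le_of_mul_le_mul_left h3 hεpos)
    have h5 : ‖k‖ ≤ ‖k + (h, 0)‖ + ‖((h, 0) : Zs N)‖ := by
      have := norm_sub_le (k + (h, 0)) ((h, 0) : Zs N)
      rwa [add_sub_cancel_right] at this
    rw [hnh] at h5
    linarith
  have hloc : ∀ (l : Zs N) (ξ : Sp N), ‖l‖ ≤ r / 4 → ‖ξ‖ ≤ r / 4 →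
      U (z + k + (h, 0) + (l + (ξ, 0))) ≤ U (z + k + (h, 0)) + P' l + (1 / 2) * Q' l l +
        μ * (‖h + ξ‖ ^ 4 - ‖h‖ ^ 4) := by
    intro l ξ hl hξ
    have h1 : G (k + l, h + ξ) ≤ G (k, h) := hmax (by
      rw [mem_closedBall, dist_zero_right, Prod.norm_def, max_le_iff]
      have := norm_add_le k l
      have := norm_add_le h ξ
      constructor <;> simp only <;> linarith)
    have e1 : z + (k + l) + ((h + ξ, 0) : Zs N) = z + k + (h, 0) + (l + (ξ, 0)) := by
      have : ((h + ξ, 0) : Zs N) = (h, 0) + (ξ, 0) := by simp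
      rw [this]; abel
    simp only [hG, e1, hqadd] at h1
    linarith
  have hS : ∀ ξ : Sp N, ‖ξ‖ ≤ r / 4 →
      0 ≤ -P' (ξ, 0) + (1 / 2) * Q' (ξ, 0) (ξ, 0) + μ * (‖h + ξ‖ ^ 4 - ‖h‖ ^ 4) := by
    intro ξ hξ
    have h1 := hloc (-(ξ, 0)) ξ (by rw [norm_neg, hnh]; exact hξ) hξ
    simp only [neg_add_cancel, add_zero, map_neg, neg_apply, neg_neg] at h1
    linarith
  have hpos : 0 < (z + k + ((h, 0) : Zs N)).2 := by
    have h1 : |k.2| ≤ ‖k‖ := norm_snd_le k
    have := (abs_le.1 h1).1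
    simp only [Prod.snd_add, add_zero]
    linarith
  have hb : P (0, 1) ≤ P' (0, 1) + δ / 2 := by
    have h1 := (abs_le.1 (hQb k (0, 1))).1
    have h2 := (abs_le.1 (hQb (0, 1) k)).1
    have h3 : ‖((0, 1) : Zs N)‖ = 1 := by simp [Prod.norm_def]
    have h4 : A * ‖k‖ ≤ A * ρ := by gcongr
    rw [h3] at h1 h2
    rw [hP'a]
    linarith
  suffices H : ∃ η : Sp N, ‖η‖ ≤ 1 ∧ P' (0, 1) ≤ trQ Q' - Q' (η, 0) (η, 0) by
    obtain ⟨η, h1, h2⟩ := H
    have := ex_tr_add Q ε hεpos.le η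
    rw [← hQ'd] at this
    exact ⟨η, h1, by linarith⟩
  have hsm : ∀ (s : ℝ) (ξ : Sp N), ((s • ξ, 0) : Zs N) = s • ((ξ, 0) : Zs N) := fun s ξ => by simp
  by_cases h0 : h = 0
  · have hb0 : P' (0, 1) ≤ 0 := by
      have hM : ∀ M : ℝ, 0 < M → P' (0, 1) ≤ C * M := by
        intro M hM
        set S : Zs N →L[ℝ] ℝ := ContinuousLinearMap.snd ℝ (Sp N) ℝ with hSdef
        have ht : Touch U (z + k + (h, 0)) (P' (0, 1) • S)
            (M • eucl + Q' (0, 1) (0, 1) • (ContinuousLinearMap.mul ℝ ℝ).bilinearComp S S) := by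
          have e1 : ∀ᶠ l in 𝓝 (0 : Zs N), μ * ‖l.1‖ ^ 2 < M / 2 := by
            have hc : Continuous fun l : Zs N => μ * ‖l.1‖ ^ 2 := by fun_prop
            exact hc.continuousAt.eventually_lt_const (by simpa using hM)
          filter_upwards [closedBall_mem_nhds (0 : Zs N) (by positivity : 0 < r / 4), e1]
            with l hl hl2
          rw [mem_closedBall, dist_zero_right] at hl
          have a1 := hloc (0, l.2) l.1 (by
            have := norm_snd_le l
            simpa [Prod.norm_def] using this.trans hl) ((norm_fst_le l).trans hl)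
          have a2 : ((0, l.2) : Zs N) + (l.1, 0) = l := by simp
          have a3 : ((0, l.2) : Zs N) = l.2 • ((0, 1) : Zs N) := by simp
          rw [a2, a3, h0] at a1
          simp only [map_smul, smul_apply, smul_eq_mul, zero_add,
            norm_zero] at a1
          rw [h0]
          simp only [add_apply, smul_apply, smul_eq_mul,
            ex_eucl_self, ContinuousLinearMap.bilinearComp_apply, ContinuousLinearMap.mul_apply',
            hSdef, ContinuousLinearMap.coe_snd']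
          nlinarith [mul_le_mul_of_nonneg_right hl2.le (sq_nonneg ‖l.1‖),
            mul_nonneg hM.le (sq_nonneg l.2)]
        have := (hs _ hpos _ _ ht).2 (by ext ξ; simp [spat, hSdef]) M hM.le (fun ξ => by
          simp [ex_eucl_self, hSdef])
        simpa [hSdef] using this
      by_contra hlt
      push Not at hlt
      have h1 := hM (P' (0, 1) / (2 * (|C| + 1))) (by positivity)
      have h2 : C * (P' (0, 1) / (2 * (|C| + 1))) ≤ (|C| + 1) * (P' (0, 1) / (2 * (|C| + 1))) :=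
        mul_le_mul_of_nonneg_right (by linarith [le_abs_self C]) (by positivity)
      have h3 : (|C| + 1) * (P' (0, 1) / (2 * (|C| + 1))) = P' (0, 1) / 2 := by field_simp
      linarith
    have hpsd : ∀ ξ : Sp N, ‖ξ‖ = 1 → 0 ≤ Q' (ξ, 0) (ξ, 0) := by
      intro ξ hξ
      refine le_of_forall_pos_le_add fun γ hγ => ?_
      set s : ℝ := min (min (r / 4) 1) (γ / (2 * μ)) with hs'
      have s0 : 0 < s := by positivity
      have s1 : s ≤ r / 4 := (min_le_left _ _).trans (min_le_left _ _)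
      have s2 : s ≤ 1 := (min_le_left _ _).trans (min_le_right _ _)
      have s3 : s * (2 * μ) ≤ γ := by
        rw [← le_div_iff₀ (by positivity)]; exact min_le_right _ _
      have n1 : ‖s • ξ‖ = s := by rw [norm_smul, hξ, Real.norm_of_nonneg s0.le, mul_one]
      have n2 : ‖(-s) • ξ‖ = s := by rw [neg_smul, norm_neg, n1]
      have a1 := hS (s • ξ) (by rw [n1]; exact s1)
      have a2 := hS ((-s) • ξ) (by rw [n2]; exact s1)
      rw [h0, zero_add, n1, hsm] at a1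
      rw [h0, zero_add, n2, hsm] at a2
      simp only [map_smul, smul_apply, smul_eq_mul, norm_zero] at a1 a2
      have a3 : s ^ 2 * 0 ≤ s ^ 2 * (Q' (ξ, 0) (ξ, 0) + 2 * μ * s ^ 2) := by nlinarith
      have a4 := le_of_mul_le_mul_left a3 (by positivity)
      have a5 : 2 * μ * s ^ 2 ≤ γ := by nlinarith [mul_pos s0 hμpos]
      linarith
    refine ⟨0, by simp, ?_⟩
    have h1 : 0 ≤ trQ Q' := Finset.sum_nonneg fun i _ => hpsd _ (by simp)
    have h2 : ((0 : Sp N), (0 : ℝ)) = (0 : Zs N) := rfl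
    simp only [h2, map_zero]
    linarith
  · have hhpos : 0 < ‖h‖ := norm_pos_iff.2 h0
    have hne : spat P' ≠ 0 := by
      intro hz0
      have hP'0 : ∀ ξ : Sp N, P' (ξ, 0) = 0 := fun ξ => by
        have : spat P' ξ = 0 := by rw [hz0]; rfl
        simpa [spat] using this
      set D : ℝ := Q' (h, 0) (h, 0) with hD
      set s : ℝ := min 1 (μ * ‖h‖ ^ 4 / (|D| + 1)) with hs'
      have s0 : 0 < s := by positivity
      have s1 : s ≤ 1 := min_le_left _ _
      have s2 : s * (|D| + 1) ≤ μ * ‖h‖ ^ 4 := by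
        rw [← le_div_iff₀ (by positivity)]; exact min_le_right _ _
      have n1 : ‖(-s) • h‖ ≤ r / 4 := by
        rw [neg_smul, norm_neg, norm_smul, Real.norm_of_nonneg s0.le]
        nlinarith
      have n2 : ‖h + (-s) • h‖ = (1 - s) * ‖h‖ := by
        have : h + (-s) • h = (1 - s) • h := by rw [sub_smul, one_smul, neg_smul]; abel
        rw [this, norm_smul, Real.norm_of_nonneg (by linarith)]
      have a1 := hS ((-s) • h) n1
      rw [hP'0, n2, hsm] at a1
      simp only [map_smul, smul_apply, smul_eq_mul] at a1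
      have a2 : (1 - s) ^ 4 ≤ 1 - s := pow_le_of_le_one (by linarith) (by linarith) (by norm_num)
      have a3 : μ * ‖h‖ ^ 4 * (1 - s) ^ 4 ≤ μ * ‖h‖ ^ 4 * (1 - s) := by gcongr
      have a4 : s * (μ * ‖h‖ ^ 4) ≤ s * (s * |D| / 2) := by
        nlinarith [mul_le_mul_of_nonneg_left (le_abs_self D) (sq_nonneg s)]
      have a5 := le_of_mul_le_mul_left a4 s0
      nlinarith [abs_nonneg D, mul_nonneg s0.le (abs_nonneg D)]
    have ht : Touch U (z + k + (h, 0)) P' Q' := by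
      filter_upwards [closedBall_mem_nhds (0 : Zs N) (by positivity : 0 < r / 4)] with l hl
      rw [mem_closedBall, dist_zero_right] at hl
      have a1 := hloc l 0 hl (by rw [norm_zero]; positivity)
      have h2 : ((0 : Sp N), (0 : ℝ)) = (0 : Zs N) := rfl
      simpa [h2] using a1
    obtain ⟨η, hη⟩ := ex_exists_dir P'
    exact ⟨η, hη.1, (hs _ hpos _ _ ht).1 hne η hη⟩

end Pool.Agent.MCF5
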