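import Pool.Agent.Lib.MP_5aed36_gt.ExistA
import Pool.Agent.Lib.MP_5aed36_gt.C5
import Pool.Agent.Lib.MP_5aed36_gt.C10
import Pool.Agent.Lib.MP_5aed36_gt.C11

/-! Existence of weak solutions for Lipschitz data that are constant outside a ball. -/

open MeasureTheory Set Filter Topology Metric
open scoped ENNReal NNReal RealInnerProductSpace ContDiff

namespace Pool.Agent.MCF5

open Pool.Agent.LevelSetFlow

variable {N : ℕ}

theorem ex_taylor {W : Type*} [NormedAddCommGroup W] [NormedSpace ℝ W] {φ : W → ℝ}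
    (hφ : ContDiff ℝ 2 φ) (z : W) {ε : ℝ} (hε : 0 < ε) :
    ∀ᶠ k in 𝓝 (0 : W), φ (z + k) ≤ φ z + fderiv ℝ φ z k +
      (1 / 2) * fderiv ℝ (fderiv ℝ φ) z k k + ε * ‖k‖ ^ 2 := by
  have hd : Differentiable ℝ φ := hφ.differentiable (by norm_num)
  have hd2 : Differentiable ℝ (fderiv ℝ φ) :=
    (hφ.fderiv_right (m := 1) (by norm_num)).differentiable (by norm_num)
  have hev := (hasFDerivAt_iff_isLittleO_nhds_zero.1 (hd2 z).hasFDerivAt).def hε
  obtain ⟨ρ, hρ, hball⟩ := Metric.nhds_basis_closedBall.eventually_iff.1 hev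
  filter_upwards [closedBall_mem_nhds (0 : W) hρ] with k hk
  rw [mem_closedBall, dist_zero_right] at hk
  set a := fderiv ℝ φ z k with ha
  set b := fderiv ℝ (fderiv ℝ φ) z k k with hb
  have hder : ∀ t : ℝ, HasDerivAt (fun t : ℝ => φ (z + t • k) - t * a - t ^ 2 / 2 * b)
      (fderiv ℝ φ (z + t • k) k - a - t * b) t := by
    intro t
    have h1 : HasDerivAt (fun t : ℝ => z + t • k) k t := by
      simpa using ((hasDerivAt_id t).smul_const k).const_add z
    have h2 := (hd (z + t • k)).hasFDerivAt.comp_hasDerivAt t h1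
    have h3 : HasDerivAt (fun t : ℝ => t * a) a t := by simpa using (hasDerivAt_id t).mul_const a
    have h4 : HasDerivAt (fun t : ℝ => t ^ 2 / 2 * b) (t * b) t := by
      have := (((hasDerivAt_id t).pow 2).div_const 2).mul_const b
      simpa using this
    exact (h2.sub h3).sub h4
  have hbound : ∀ t ∈ Ico (0 : ℝ) 1, ‖fderiv ℝ φ (z + t • k) k - a - t * b‖ ≤ ε * ‖k‖ ^ 2 := by
    intro t ht
    have hn : ‖t • k‖ ≤ ‖k‖ := by
      rw [norm_smul, Real.norm_of_nonneg ht.1]; nlinarith [norm_nonneg k, ht.2]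
    have h1 := hball (x := t • k) (by rw [mem_closedBall, dist_zero_right]; exact hn.trans hk)
    have e1 : fderiv ℝ φ (z + t • k) k - a - t * b =
        (fderiv ℝ φ (z + t • k) - fderiv ℝ φ z - fderiv ℝ (fderiv ℝ φ) z (t • k)) k := by
      simp [ha, hb]
    rw [e1]
    refine (ContinuousLinearMap.le_opNorm _ _).trans ?_
    have h2 : ε * ‖t • k‖ ≤ ε * ‖k‖ := mul_le_mul_of_nonneg_left hn hε.le
    nlinarith [norm_nonneg k]
  have := norm_image_sub_le_of_norm_deriv_le_segment_01'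
    (fun t _ => (hder t).hasDerivWithinAt) hbound
  rw [Real.norm_eq_abs] at this
  have := (abs_le.1 this).2
  simp only [one_smul, zero_smul, add_zero] at this
  linarith

theorem ex_fderiv_space {φ : Zs N → ℝ} (hφ : Differentiable ℝ φ) (t : ℝ) (x : Sp N) :
    fderiv ℝ (fun y => φ (y, t)) x = spat (fderiv ℝ φ (x, t)) :=
  ((hφ (x, t)).hasFDerivAt.comp x (hasFDerivAt_prodMk_left x t)).fderiv

theorem ex_spaceHess {φ : Zs N → ℝ} (hφ : ContDiff ℝ 2 φ) (z : Zs N) (η : Sp N) :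
    spaceHess φ z η = fderiv ℝ (fderiv ℝ φ) z (η, 0) (η, 0) := by
  have hd : Differentiable ℝ φ := hφ.differentiable (by norm_num)
  have hd2 : Differentiable ℝ (fderiv ℝ φ) :=
    (hφ.fderiv_right (m := 1) (by norm_num)).differentiable (by norm_num)
  unfold spaceHess
  rw [iteratedFDeriv_two_apply]
  have h1 : fderiv ℝ (fun y => φ (y, z.2)) = fun x => spat (fderiv ℝ φ (x, z.2)) :=
    funext fun x => ex_fderiv_space hd z.2 x
  have h2 := (hd2 (z.1, z.2)).hasFDerivAt.comp z.1 (hasFDerivAt_prodMk_left (𝕜 := ℝ) z.1 z.2)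
  have h3 := h2.clm_comp (hasFDerivAt_const (ContinuousLinearMap.inl ℝ (Sp N) ℝ) z.1)
  have h4 : fderiv ℝ (fun x => spat (fderiv ℝ φ (x, z.2))) z.1 = _ := h3.fderiv
  rw [h1, h4]
  simp

theorem ex_timeDeriv {φ : Zs N → ℝ} (hφ : Differentiable ℝ φ) (z : Zs N) :
    timeDeriv φ z = fderiv ℝ φ z (0, 1) := by
  have h2 : HasDerivAt (fun t : ℝ => ((z.1, t) : Zs N)) ((0, 1) : Zs N) z.2 :=
    (hasDerivAt_const z.2 z.1).prodMk (hasDerivAt_id z.2)
  exact (HasFDerivAt.comp_hasDerivAt (f := fun t : ℝ => ((z.1, t) : Zs N)) z.2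
    (hφ z).hasFDerivAt h2).deriv

theorem ex_adm {U φ : Zs N → ℝ} {C : ℝ} (hU : Continuous U) (hs : Sub (AdmW C) U)
    (hφ : ContDiff ℝ 2 φ) {z : Zs N} (hz : 0 < z.2) (hmax : IsLocalMax (fun w => U w - φ w) z) :
    (∀ η, spat (fderiv ℝ φ z) ≠ 0 → Dir (fderiv ℝ φ z) η → fderiv ℝ φ z (0, 1) ≤
      trQ (fderiv ℝ (fderiv ℝ φ) z) - fderiv ℝ (fderiv ℝ φ) z (η, 0) (η, 0)) ∧
    (spat (fderiv ℝ φ z) = 0 → ∃ η : Sp N, ‖η‖ ≤ 1 ∧ fderiv ℝ φ z (0, 1) ≤
      trQ (fderiv ℝ (fderiv ℝ φ) z) - fderiv ℝ (fderiv ℝ φ) z (η, 0) (η, 0)) := by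
  set P := fderiv ℝ φ z with hP
  set Q := fderiv ℝ (fderiv ℝ φ) z with hQ
  have hT : ∀ ε : ℝ, 0 < ε → Touch U z P (Q + ε • eucl) := by
    intro ε hε
    have ht : Tendsto (fun k : Zs N => z + k) (𝓝 0) (𝓝 z) := by
      have : Continuous fun k : Zs N => z + k := by fun_prop
      simpa using this.tendsto 0
    filter_upwards [ex_taylor hφ z (half_pos hε), ht.eventually hmax] with k h1 h2
    have h3 := mul_le_mul_of_nonneg_left (ex_sq_le k) hε.le
    simp only [add_apply, smul_apply, smul_eq_mul]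
    linarith
  have hsmall : ∀ δ : ℝ, 0 < δ → δ / (N + 1) * N ≤ δ := fun δ hδ => by
    rw [div_mul_eq_mul_div, div_le_iff₀ (by positivity)]
    nlinarith
  refine ⟨fun η hne hη => le_of_forall_pos_le_add fun δ hδ => ?_, fun h0 => ?_⟩
  · have h1 := (hs z hz _ _ (hT (δ / (N + 1)) (by positivity))).1 hne η hη
    have h2 := ex_tr_add Q (δ / (N + 1)) (by positivity) η
    have := hsmall δ hδ
    linarith
  · have hc : Continuous fun η : Sp N => trQ Q - Q (η, 0) (η, 0) := by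
      have h1 : Continuous fun η : Sp N => ((η, 0) : Zs N) := by fun_prop
      exact continuous_const.sub ((Q.continuous.comp h1).clm_apply h1)
    obtain ⟨η, hη, hm⟩ := (isCompact_closedBall (0 : Sp N) 1).exists_isMaxOn
      ⟨0, mem_closedBall_self zero_le_one⟩ hc.continuousOn
    refine ⟨η, by simpa using hη, le_of_forall_pos_le_add fun δ hδ => ?_⟩
    obtain ⟨η', h1, h2⟩ := ex_key hU hs hz (hT (δ / 2 / (N + 1)) (by positivity)) h0 (half_pos hδ)
    have h3 := ex_tr_add Q (δ / 2 / (N + 1)) (by positivity) η'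
    have h4 := hsmall _ (half_pos hδ)
    have h5 : trQ Q - Q (η', 0) (η', 0) ≤ trQ Q - Q (η, 0) (η, 0) := hm (by simpa using h1)
    linarith

theorem ex_curvOp {φ : Zs N → ℝ} (hφ : ContDiff ℝ 2 φ) (z : Zs N) (η : Sp N) :
    curvOp φ z η = trQ (fderiv ℝ (fderiv ℝ φ) z) - fderiv ℝ (fderiv ℝ φ) z (η, 0) (η, 0) := by
  simp [curvOp, ex_spaceHess hφ, trQ]

theorem ex_spaceGrad {φ : Zs N → ℝ} (hφ : Differentiable ℝ φ) (z : Zs N) :
    spaceGrad φ z = (InnerProductSpace.toDual ℝ (Sp N)).symm (spat (fderiv ℝ φ z)) := by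
  unfold spaceGrad gradient
  rw [ex_fderiv_space hφ]

theorem isWeakSub_of_sub {U : Zs N → ℝ} {C : ℝ} (hU : Continuous U) (hs : Sub (AdmW C) U) :
    IsWeakSub U := by
  intro φ hφ z hz hmax
  have hφ2 : ContDiff ℝ 2 φ := hφ.of_le (WithTop.coe_le_coe.2 (le_top : (2 : ℕ∞) ≤ ⊤))
  have hd : Differentiable ℝ φ := hφ2.differentiable (by norm_num)
  obtain ⟨h1, h2⟩ := ex_adm hU hs hφ2 hz hmax
  have hG := ex_spaceGrad hd z
  have hiff : spaceGrad φ z = 0 ↔ spat (fderiv ℝ φ z) = 0 := by rw [hG]; simp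
  refine ⟨fun h => ?_, fun h => ?_⟩
  · rw [ex_timeDeriv hd, ex_curvOp hφ2]
    exact h1 _ (fun h0 => h (hiff.2 h0)) ((dir_of_grad _ hG).1 h)
  · obtain ⟨η, a1, a2⟩ := h2 (hiff.1 h)
    exact ⟨η, a1, by rw [ex_timeDeriv hd, ex_curvOp hφ2]; exact a2⟩

theorem isWeakSuper_of_neg {U : Zs N → ℝ} (h : IsWeakSub fun z => -U z) : IsWeakSuper U := by
  intro φ hφ z hz hmin
  have hmax : IsLocalMax (fun w => -U w - -φ w) z := by
    filter_upwards [hmin] with w hw
    linarith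
  obtain ⟨h1, h2⟩ := h (fun w => -φ w) hφ.neg z hz hmax
  have e1 : timeDeriv (fun w => -φ w) z = -timeDeriv φ z := by
    simp [timeDeriv]
  have e2 : spaceGrad (fun w => -φ w) z = -spaceGrad φ z := by
    simp [spaceGrad, gradient]
  have e3 : ∀ η, spaceHess (fun w => -φ w) z η = -spaceHess φ z η := fun η => by
    have := iteratedFDeriv_neg_apply (𝕜 := ℝ) (i := 2) (f := fun x => φ (x, z.2)) (x := z.1)
    unfold spaceHess
    have e : (fun x => -φ (x, z.2)) = -fun x => φ (x, z.2) := rfl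
    rw [e, this]
    rfl
  have e4 : ∀ η, curvOp (fun w => -φ w) z η = -curvOp φ z η := fun η => by
    simp only [curvOp, e3, Finset.sum_neg_distrib]; ring
  have e5 : ∀ η, curvOp φ z (-η) = curvOp φ z η := fun η => by
    have hφ2 : ContDiff ℝ 2 φ := hφ.of_le (WithTop.coe_le_coe.2 (le_top : (2 : ℕ∞) ≤ ⊤))
    have : ((-η, 0) : Zs N) = -((η, 0) : Zs N) := by simp
    rw [ex_curvOp hφ2, ex_curvOp hφ2, this]
    simp only [map_neg, neg_apply, neg_neg]
  rw [e1, e2] at h1 h2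
  refine ⟨fun h0 => ?_, fun h0 => ?_⟩
  · have := h1 (neg_ne_zero.2 h0)
    rw [e4, norm_neg, smul_neg, e5] at this
    linarith
  · obtain ⟨η, a1, a2⟩ := h2 (by rw [h0, neg_zero])
    rw [e4] at a2
    exact ⟨η, a1, by linarith⟩

/-- A weak solution exists for Lipschitz data that are constant outside a ball. -/
theorem exists_weakSolution (hN : 0 < N) {g : Sp N → ℝ} {L : ℝ≥0} {R c : ℝ}
    (hg : Data L R c g) :
    ∃ u : Zs N → ℝ, IsWeakSolution u ∧ (∀ x, u (x, 0) = g x) ∧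
      ∀ x t, 0 ≤ t → R ≤ ‖x‖ → u (x, t) = c := by
  have hex : ∀ n : ℕ, ∃ V r : ℕ → Sp N → ℝ, V 0 = g ∧ Traj (1 / ((n : ℝ) + 1)) L R c V r :=
    fun n => traj_exists hN (by positivity) hg
  choose V ρ h0 hT using hex
  obtain ⟨M, hM⟩ := hg.lipC.bounded
  have hb : ∀ s : ℝ, |s| ≤ M + |c| → -(M + |c|) ≤ s ∧ s ≤ M + |c| := fun s hs => abs_le.1 hs
  have hM0 : 0 ≤ M := (abs_nonneg _).trans (hM 0)
  have hr : ∀ n k x, -(M + |c|) ≤ V n k x ∧ V n k x ≤ M + |c| := fun n =>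
    (hT n).range (by positivity) (hb c (by linarith)) fun x => by
      rw [h0]; exact hb _ ((hM x).trans (by linarith [abs_nonneg c]))
  obtain ⟨ub, hc, hd, hrange, hinit, hconv⟩ := exists_limit hT h0 hr
  have hs := sub_of_limit hT Nat.hyperfilter_le_atTop hc hconv
  have hs' := sub_of_limit (ub := fun z => -ub z) (fun n => (hT n).neg) Nat.hyperfilter_le_atTop
    hc.neg fun T ε hε => by
      filter_upwards [hconv T ε hε] with n hn x t h1 h2
      have := hn x t h1 h2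
      rw [abs_le] at this ⊢
      constructor <;> linarith [this.1, this.2]
  refine ⟨ub, ⟨hc.continuousOn, ⟨M + |c|, fun z _ => abs_le.2 (hrange z)⟩,
    isWeakSub_of_sub hc hs, isWeakSuper_of_neg (isWeakSub_of_sub hc.neg hs')⟩,
    fun x => hinit (x, 0) le_rfl, fun x t _ hx => (hd t).2 x hx⟩

/-- The same for `C²` data. -/
theorem exists_weakSolution_of_contDiff (hN : 0 < N) {g : Sp N → ℝ} {R c : ℝ}
    (hg : ContDiff ℝ 2 g) (hout : ∀ x, R ≤ ‖x‖ → g x = c) :
    ∃ u : Zs N → ℝ, IsWeakSolution u ∧ (∀ x, u (x, 0) = g x) ∧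
      ∀ x t, 0 ≤ t → R ≤ ‖x‖ → u (x, t) = c := by
  have h1 : HasCompactSupport fun x => g x - c :=
    HasCompactSupport.intro (isCompact_closedBall 0 R) fun x hx => by
      rw [mem_closedBall, dist_zero_right, not_le] at hx
      rw [hout x hx.le, sub_self]
  obtain ⟨L, hL⟩ := (hg.sub contDiff_const).lipschitzWith_of_hasCompactSupport h1 two_ne_zero
  refine exists_weakSolution hN (L := L) ⟨LipschitzWith.of_dist_le_mul fun x y => ?_, hout⟩
  have := hL.dist_le_mul x y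
  rwa [dist_sub_right] at this

end Pool.Agent.MCF5
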