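import Pool.Agent.Lib.MP_5aed36_gt.FDefs

open MeasureTheory Set Filter Topology Metric
open scoped ENNReal NNReal RealInnerProductSpace symmDiff

namespace Pool.Agent.MCF5

variable {N : ℕ}

/-- An eventual property has measure at most any eventual bound of the stages. -/
lemma fb_eventually_le {G : ℕ → Set ℝ} {c : ℝ≥0∞} (h : ∀ᶠ n in atTop, volume (G n) ≤ c) :
    volume {a : ℝ | ∀ᶠ n in atTop, a ∈ G n} ≤ c := by
  obtain ⟨M₀, hM₀⟩ := eventually_atTop.mp h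
  have h1 : {a : ℝ | ∀ᶠ n in atTop, a ∈ G n} ⊆ ⋃ M : ℕ, {a | ∀ n, M ≤ n → a ∈ G n} := by
    intro a ha
    obtain ⟨M, hM⟩ := eventually_atTop.mp ha
    exact mem_iUnion.mpr ⟨M, hM⟩
  have h2 : Monotone fun M : ℕ => {a : ℝ | ∀ n, M ≤ n → a ∈ G n} :=
    fun M M' hMM' a ha n hn => ha n (hMM'.trans hn)
  refine (measure_mono h1).trans ?_
  rw [h2.measure_iUnion]
  refine iSup_le fun M => (measure_mono ?_).trans (hM₀ (max M M₀) (le_max_right _ _))
  exact fun a ha => ha _ (le_max_left _ _)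

lemma fb_stage_le {f w : Sp N → ℝ} {B σ j : ℝ} (hw : Measurable w) (hi : Integrable f)
    (hB : ∫ x, |f x| ≤ B) (hσ : 0 < σ) (hj : 0 < j) :
    volume {a : ℝ | j ≤ ∫ x in {x | |w x - a| < σ}, |f x|} ≤ ENNReal.ofReal (2 * σ * B / j) := by
  obtain ⟨g, hg, hfg⟩ := hi.aestronglyMeasurable.aemeasurable
  set S : Set (ℝ × Sp N) := {p | |w p.2 - p.1| < σ} with hS
  have hSm : MeasurableSet S :=
    measurableSet_lt ((hw.comp measurable_snd).sub measurable_fst).abs measurable_const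
  set F : ℝ × Sp N → ℝ≥0∞ := S.indicator fun p => ENNReal.ofReal |g p.2| with hF
  have hFm : Measurable F := ((hg.comp measurable_snd).abs.ennreal_ofReal).indicator hSm
  have hslice : ∀ a : ℝ, MeasurableSet {x : Sp N | |w x - a| < σ} := fun a =>
    measurableSet_lt (hw.sub measurable_const).abs measurable_const
  have h1 : ∀ a : ℝ, ENNReal.ofReal (∫ x in {x | |w x - a| < σ}, |f x|) = ∫⁻ x, F (a, x) := by
    intro a
    rw [ofReal_integral_eq_lintegral_ofReal hi.abs.integrableOn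
      (Eventually.of_forall fun x => abs_nonneg _), ← lintegral_indicator (hslice a)]
    refine lintegral_congr_ae ?_
    filter_upwards [hfg] with x hx
    simp only [hF, hS, indicator, mem_ofPred_eq, hx]
  have h2 : ∀ x : Sp N, ∫⁻ a : ℝ, F (a, x) = ENNReal.ofReal |g x| * ENNReal.ofReal (2 * σ) := by
    intro x
    have : (fun a : ℝ => F (a, x)) = (ball (w x) σ).indicator fun _ => ENNReal.ofReal |g x| := by
      funext a
      simp only [hF, hS, indicator, mem_ofPred_eq, mem_ball, Real.dist_eq, abs_sub_comm a]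
    rw [this, lintegral_indicator measurableSet_ball, setLIntegral_const, Real.volume_ball]
  have h3 : ∫⁻ a : ℝ, ∫⁻ x, F (a, x) ≤ ENNReal.ofReal B * ENNReal.ofReal (2 * σ) := by
    rw [lintegral_lintegral_swap (f := fun a x => F (a, x)) hFm.aemeasurable]
    simp only [h2]
    rw [lintegral_mul_const _ hg.abs.ennreal_ofReal]
    refine mul_le_mul_left ?_ _
    have : ∫⁻ x, ENNReal.ofReal |g x| = ENNReal.ofReal (∫ x, |f x|) := by
      rw [ofReal_integral_eq_lintegral_ofReal hi.abs (Eventually.of_forall fun x => abs_nonneg _)]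
      refine lintegral_congr_ae ?_
      filter_upwards [hfg] with x hx
      rw [hx]
    rw [this]
    exact ENNReal.ofReal_le_ofReal hB
  have h4 : {a : ℝ | j ≤ ∫ x in {x | |w x - a| < σ}, |f x|}
      ⊆ {a : ℝ | ENNReal.ofReal j ≤ ∫⁻ x, F (a, x)} := by
    intro a ha
    rw [mem_ofPred_eq, ← h1]
    exact ENNReal.ofReal_le_ofReal ha
  have hj0 : ENNReal.ofReal j ≠ 0 := by simpa using hj
  have h5 := meas_ge_le_lintegral_div (μ := (volume : Measure ℝ))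
    (f := fun a : ℝ => ∫⁻ x, F (a, x)) hFm.lintegral_prod_right'.aemeasurable hj0
    ENNReal.ofReal_ne_top
  have hB0 : 0 ≤ B := (integral_nonneg fun x => abs_nonneg _).trans hB
  refine (measure_mono h4).trans (h5.trans ?_)
  rw [ENNReal.ofReal_div_of_pos hj, mul_comm (2 * σ) B, ENNReal.ofReal_mul hB0]
  exact ENNReal.div_le_div_right h3 _

theorem measure_bad_le {κ : ℕ → Sp N → ℝ} {w : Sp N → ℝ} {B σ j : ℝ} (hw : Measurable w)
    (hi : ∀ n, Integrable (κ n)) (hB : ∀ n, ∫ x, |κ n x| ≤ B) (hσ : 0 < σ) (hj : 0 < j) :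
    volume {a : ℝ | Bad κ w a σ j} ≤ ENNReal.ofReal (2 * σ * B / j) :=
  fb_eventually_le (G := fun n => {a : ℝ | j ≤ ∫ x in {x | |w x - a| < σ}, |κ n x|})
    (Eventually.of_forall fun n => fb_stage_le hw (hi n) (hB n) hσ hj)

lemma fb_fixed {κ : ℝ → ℕ → Sp N → ℝ} {v : ℝ → Sp N → ℝ} {B : ℝ}
    (hv : ∀ s, Measurable (v s)) (hi : ∀ s, 0 ≤ s → ∀ n, Integrable (κ s n))
    (hB : ∀ s, 0 ≤ s → ∀ n, ∫ x, |κ s n x| ≤ B) (T₀ : ℕ) {j : ℝ} (hj : 0 < j) :
    ∀ᵐ a : ℝ, ∃ k : ℝ, 0 < k ∧ ∃ᶠ m : ℕ in atTop, ∀ i : ℕ,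
      i ≤ m * T₀ → ¬ Bad (κ ((i : ℝ) / m)) (v ((i : ℝ) / m)) a (k / m) j := by
  have hB0 : 0 ≤ B := (integral_nonneg fun x => abs_nonneg _).trans (hB 0 le_rfl 0)
  rw [ae_iff]
  set E : Set ℝ := {a | ¬ ∃ k : ℝ, 0 < k ∧ ∃ᶠ m : ℕ in atTop, ∀ i : ℕ,
      i ≤ m * T₀ → ¬ Bad (κ ((i : ℝ) / m)) (v ((i : ℝ) / m)) a (k / m) j} with hE
  have key : ∀ k : ℝ, 0 < k → volume E ≤ ENNReal.ofReal (k * (2 * (T₀ + 1) * B / j)) := by
    intro k hk
    set G : ℕ → Set ℝ := fun m => ⋃ i ∈ Finset.range (m * T₀ + 1),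
      {a | Bad (κ ((i : ℝ) / m)) (v ((i : ℝ) / m)) a (k / m) j} with hG
    have h1 : E ⊆ {a : ℝ | ∀ᶠ m in atTop, a ∈ G m} := by
      intro a ha
      have h2 : ¬ ∃ᶠ m : ℕ in atTop, ∀ i : ℕ,
          i ≤ m * T₀ → ¬ Bad (κ ((i : ℝ) / m)) (v ((i : ℝ) / m)) a (k / m) j :=
        fun h => ha ⟨k, hk, h⟩
      rw [not_frequently] at h2
      filter_upwards [h2] with m hm
      push Not at hm
      obtain ⟨i, hi1, hi2⟩ := hm
      exact mem_iUnion₂.mpr ⟨i, Finset.mem_range.mpr (Nat.lt_succ_of_le hi1), hi2⟩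
    refine (measure_mono h1).trans (fb_eventually_le ?_)
    filter_upwards [eventually_ge_atTop 1] with m hm
    have hm0 : (0 : ℝ) < m := by exact_mod_cast hm
    have hm1 : (1 : ℝ) ≤ m := by exact_mod_cast hm
    refine (measure_biUnion_finset_le _ _).trans ?_
    have h3 : ∀ i ∈ Finset.range (m * T₀ + 1),
        volume {a | Bad (κ ((i : ℝ) / m)) (v ((i : ℝ) / m)) a (k / m) j}
          ≤ ENNReal.ofReal (2 * (k / m) * B / j) := fun i _ =>
      measure_bad_le (hv _) (hi _ (by positivity)) (hB _ (by positivity)) (by positivity) hj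
    refine (Finset.sum_le_card_nsmul _ _ _ h3).trans ?_
    rw [Finset.card_range, nsmul_eq_mul, ← ENNReal.ofReal_natCast,
      ← ENNReal.ofReal_mul (Nat.cast_nonneg _)]
    refine ENNReal.ofReal_le_ofReal ?_
    have h4 : ((m * T₀ + 1 : ℕ) : ℝ) ≤ m * (T₀ + 1) := by
      push_cast
      nlinarith
    calc ((m * T₀ + 1 : ℕ) : ℝ) * (2 * (k / m) * B / j)
        ≤ (m * (T₀ + 1)) * (2 * (k / m) * B / j) :=
          mul_le_mul_of_nonneg_right h4 (by positivity)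
      _ = k * (2 * (T₀ + 1) * B / j) := by field_simp
  have hlim : Tendsto (fun k : ℝ => ENNReal.ofReal (k * (2 * (T₀ + 1) * B / j))) (𝓝[>] 0)
      (𝓝 0) := by
    have : Tendsto (fun k : ℝ => k * (2 * (T₀ + 1) * B / j)) (𝓝[>] 0) (𝓝 0) := by
      have h := (continuous_mul_const (2 * ((T₀ : ℝ) + 1) * B / j)).tendsto 0
      rw [zero_mul] at h
      exact h.mono_left nhdsWithin_le_nhds
    simpa using ENNReal.tendsto_ofReal this
  refine le_antisymm (ge_of_tendsto hlim ?_) zero_le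
  filter_upwards [self_mem_nhdsWithin] with k hk
  exact key k hk

theorem ae_not_bad {κ : ℝ → ℕ → Sp N → ℝ} {v : ℝ → Sp N → ℝ} {B : ℝ}
    (hv : ∀ s, Measurable (v s)) (hi : ∀ s, 0 ≤ s → ∀ n, Integrable (κ s n))
    (hB : ∀ s, 0 ≤ s → ∀ n, ∫ x, |κ s n x| ≤ B) :
    ∀ᵐ a : ℝ, ∀ (T₀ : ℕ) (j : ℝ), 0 < j → ∃ k : ℝ, 0 < k ∧ ∃ᶠ m : ℕ in atTop, ∀ i : ℕ,
      i ≤ m * T₀ → ¬ Bad (κ ((i : ℝ) / m)) (v ((i : ℝ) / m)) a (k / m) j := by
  have h : ∀ᵐ a : ℝ, ∀ (T₀ l : ℕ), ∃ k : ℝ, 0 < k ∧ ∃ᶠ m : ℕ in atTop, ∀ i : ℕ,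
      i ≤ m * T₀ → ¬ Bad (κ ((i : ℝ) / m)) (v ((i : ℝ) / m)) a (k / m) (1 / ((l : ℝ) + 1)) :=
    ae_all_iff.mpr fun T₀ => ae_all_iff.mpr fun l => fb_fixed hv hi hB T₀ (by positivity)
  filter_upwards [h] with a ha T₀ j hj
  obtain ⟨l, hl⟩ := exists_nat_one_div_lt hj
  obtain ⟨k, hk, hf⟩ := ha T₀ l
  refine ⟨k, hk, hf.mono fun m hm i hi hb => hm i hi ?_⟩
  exact hb.mono fun n hn => hl.le.trans hn

end Pool.Agent.MCF5
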