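import Pool.Agent.Lib.MP_5aed36_gt.FMollA

open MeasureTheory Set Filter Topology Metric
open scoped ENNReal NNReal RealInnerProductSpace symmDiff

namespace Pool.Agent.MCF5

variable {N : ℕ}

theorem mb_trunc {f : Sp N → ℝ} (hf : LipC f 0) {e : ℝ} (he : 0 < e) (he2 : e < 1 / 2) :
    LipC (fun x => cl 0 1 ((f x - e) / (1 - 2 * e))) 0 ∧
      tv (fun x => cl 0 1 ((f x - e) / (1 - 2 * e))) ≤ tv f / (1 - 2 * e) := by
  have hint := hf.integrable_norm_fderiv
  obtain ⟨⟨K, hK⟩, R, hR⟩ := hf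
  have hd : 0 < 1 - 2 * e := by linarith
  have hg : LipschitzWith (⟨(1 - 2 * e)⁻¹, (inv_pos.2 hd).le⟩ * K)
      (fun x => (f x - e) / (1 - 2 * e)) := by
    refine LipschitzWith.of_dist_le_mul fun x y => ?_
    have h1 := hK.dist_le_mul x y
    rw [Real.dist_eq] at h1 ⊢
    have h2 : (f x - e) / (1 - 2 * e) - (f y - e) / (1 - 2 * e) = (1 - 2 * e)⁻¹ * (f x - f y) := by
      field_simp
      ring
    rw [h2, abs_mul, abs_of_pos (inv_pos.2 hd), NNReal.coe_mul, mul_assoc]
    exact mul_le_mul_of_nonneg_left h1 (inv_pos.2 hd).le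
  have hψ : LipschitzWith (⟨(1 - 2 * e)⁻¹, (inv_pos.2 hd).le⟩ * K)
      (fun x => cl 0 1 ((f x - e) / (1 - 2 * e))) := (hg.min_const 1).const_max 0
  have hL : LipC (fun x => cl 0 1 ((f x - e) / (1 - 2 * e))) 0 := by
    refine ⟨⟨_, hψ⟩, R, fun x hx => ?_⟩
    have h1 : (f x - e) / (1 - 2 * e) ≤ 0 := by
      rw [hR x hx]
      exact div_nonpos_of_nonpos_of_nonneg (by linarith) hd.le
    exact max_eq_left ((min_le_left _ _).trans h1)
  refine ⟨hL, ?_⟩
  have hbd : ∀ᵐ x, ‖fderiv ℝ (fun x => cl 0 1 ((f x - e) / (1 - 2 * e))) x‖ ≤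
      ‖fderiv ℝ f x‖ / (1 - 2 * e) := by
    filter_upwards [ae_fderiv_eq_of_eq hψ hg, ae_fderiv_eq_of_eq hψ (LipschitzWith.const (0 : ℝ)),
      ae_fderiv_eq_of_eq hψ (LipschitzWith.const (1 : ℝ)),
      hK.ae_differentiableAt (μ := volume)] with x h1 h2 h3 h4
    have hpos : 0 ≤ ‖fderiv ℝ f x‖ / (1 - 2 * e) := div_nonneg (norm_nonneg _) hd.le
    rcases le_total ((f x - e) / (1 - 2 * e)) 0 with h0 | h0
    · rw [h2 (max_eq_left ((min_le_left _ _).trans h0))]
      simpa using hpos
    rcases le_total 1 ((f x - e) / (1 - 2 * e)) with h5 | h5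
    · have : cl 0 1 ((f x - e) / (1 - 2 * e)) = 1 := by
        rw [cl, min_eq_right h5, max_eq_right zero_le_one]
      rw [h3 this]
      simpa using hpos
    · have : cl 0 1 ((f x - e) / (1 - 2 * e)) = (f x - e) / (1 - 2 * e) := by
        rw [cl, min_eq_left h5, max_eq_right h0]
      rw [h1 this]
      have h6 : HasFDerivAt (fun x => (f x - e) / (1 - 2 * e))
          ((1 - 2 * e)⁻¹ • fderiv ℝ f x) x := by
        have h7 := (h4.hasFDerivAt.sub_const e).const_smul (1 - 2 * e)⁻¹
        refine h7.congr_of_eventuallyEq (Eventually.of_forall fun y => ?_)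
        simp only [Pi.smul_apply, smul_eq_mul]
        rw [div_eq_inv_mul]
      rw [h6.fderiv, norm_smul, Real.norm_eq_abs, abs_of_pos (inv_pos.2 hd), div_eq_inv_mul]
  calc tv (fun x => cl 0 1 ((f x - e) / (1 - 2 * e)))
      ≤ ∫ x, ‖fderiv ℝ f x‖ / (1 - 2 * e) :=
        integral_mono_ae hL.integrable_norm_fderiv (hint.div_const _) hbd
    _ = tv f / (1 - 2 * e) := integral_div _ _

/-- A sequence of bumps with shrinking support. -/
noncomputable def mb_bump (N : ℕ) (k : ℕ) : ContDiffBump (0 : Sp N) where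
  rIn := 1 / ((k : ℝ) + 1) / 2
  rOut := 1 / ((k : ℝ) + 1)
  rIn_pos := by positivity
  rIn_lt_rOut := half_lt_self (by positivity)

theorem mb_ae {A : Set (Sp N)} (hA : MeasurableSet A) :
    ∀ᵐ x, Tendsto (fun k => ∫ y in A, (mb_bump N k).normed volume (x - y)) atTop
      (𝓝 (A.indicator (1 : Sp N → ℝ) x)) := by
  have hloc : LocallyIntegrable (A.indicator (1 : Sp N → ℝ)) volume :=
    (locallyIntegrable_const (1 : ℝ)).indicator hA
  have h := ContDiffBump.ae_convolution_tendsto_right_of_locallyIntegrable (μ := volume)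
    (φ := mb_bump N) (l := atTop) (K := 2) tendsto_one_div_add_atTop_nhds_zero_nat
    (Eventually.of_forall fun k => by
      show 1 / ((k : ℝ) + 1) ≤ 2 * (1 / ((k : ℝ) + 1) / 2)
      linarith) hloc
  filter_upwards [h] with x hx
  refine hx.congr fun k => ?_
  rw [convolution_lsmul_swap, ← integral_indicator hA]
  refine integral_congr_ae (Eventually.of_forall fun y => ?_)
  by_cases hy : y ∈ A <;> simp [hy]

theorem mb_supp {A : Set (Sp N)} {R : ℝ} (hR : A ⊆ closedBall 0 R) (k : ℕ)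
    {x : Sp N} (hx : x ∉ closedBall (0 : Sp N) (R + 1)) :
    ∫ y in A, (mb_bump N k).normed volume (x - y) = 0 := by
  refine setIntegral_eq_zero_of_forall_eq_zero fun y hy => ?_
  by_contra hne
  have h1 : x - y ∈ Function.support ((mb_bump N k).normed volume) := hne
  rw [ContDiffBump.support_normed_eq, mem_ball_zero_iff] at h1
  have h2 : (mb_bump N k).rOut ≤ 1 := by
    show 1 / ((k : ℝ) + 1) ≤ 1
    rw [div_le_one (by positivity)]
    have : (0 : ℝ) ≤ k := Nat.cast_nonneg k
    linarith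
  have h3 := mem_closedBall_zero_iff.1 (hR hy)
  apply hx
  rw [mem_closedBall_zero_iff]
  have h4 : ‖x‖ ≤ ‖x - y‖ + ‖y‖ := by simpa using norm_add_le (x - y) y
  linarith

theorem exists_moll {A : Set (Sp N)} (hA : MeasurableSet A) (hb : Bornology.IsBounded A)
    (hP : perim A ≠ ∞) {γ : ℝ} (hγ : 0 < γ) :
    ∃ ψ : Sp N → ℝ, LipC ψ 0 ∧ (∀ x, 0 ≤ ψ x ∧ ψ x ≤ 1) ∧ tv ψ ≤ (perim A).toReal + γ ∧
      volume {x | ψ x ≠ A.indicator 1 x} ≤ ENNReal.ofReal γ := by
  obtain ⟨R, hR⟩ := hb.subset_closedBall 0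
  set P := (perim A).toReal with hPdef
  have hP0 : 0 ≤ P := ENNReal.toReal_nonneg
  set e := γ / (4 * (P + γ)) with hedef
  have he : 0 < e := by positivity
  have he1 : e * (4 * (P + γ)) = γ := div_mul_cancel₀ _ (by positivity)
  have he2 : e < 1 / 2 := by
    rw [hedef, div_lt_iff₀ (by positivity)]
    linarith
  have hd : 0 < 1 - 2 * e := by linarith
  let f : ℕ → Sp N → ℝ := fun k x => ∫ y in A, (mb_bump N k).normed volume (x - y)
  have hf := fun k => moll_tv hA hb hP (mb_bump N k)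
  let S : ℕ → Set (Sp N) := fun k => {x | e ≤ |f k x - A.indicator 1 x|}
  have hSm : ∀ k, MeasurableSet (S k) := fun k => by
    obtain ⟨⟨K, hK⟩, -⟩ := (hf k).1
    have h1 : Measurable (f k) := hK.continuous.measurable
    have h2 : Measurable (A.indicator (1 : Sp N → ℝ)) := measurable_one.indicator hA
    exact measurableSet_le measurable_const (h1.sub h2).abs
  have hSB : ∀ k, S k ⊆ closedBall 0 (R + 1) := fun k x hx => by
    by_contra hn
    have h1 : f k x = 0 := mb_supp hR k hn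
    have h2 : x ∉ A := fun h => hn (closedBall_subset_closedBall (by linarith) (hR h))
    have h3 : e ≤ |f k x - A.indicator 1 x| := hx
    rw [h1, indicator_of_notMem h2, sub_zero, abs_zero] at h3
    linarith
  have hlim : Tendsto (fun k => volume (S k)) atTop (𝓝 (volume (∅ : Set (Sp N)))) := by
    refine tendsto_measure_of_ae_tendsto_indicator atTop MeasurableSet.empty hSm
      measurableSet_closedBall measure_closedBall_lt_top.ne (Eventually.of_forall hSB) ?_
    filter_upwards [mb_ae hA] with x hx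
    filter_upwards [Metric.tendsto_nhds.1 hx e he] with k hk
    rw [Real.dist_eq] at hk
    simp only [mem_empty_iff_false, iff_false]
    exact not_le.2 hk
  rw [measure_empty] at hlim
  obtain ⟨k, hk⟩ := (hlim.eventually (ge_mem_nhds (ENNReal.ofReal_pos.2 hγ))).exists
  obtain ⟨h1, h2⟩ := mb_trunc (hf k).1 he he2
  refine ⟨_, h1, fun x => ⟨le_max_left _ _, max_le zero_le_one (min_le_right _ _)⟩, ?_, ?_⟩
  · refine h2.trans ?_
    rw [div_le_iff₀ hd]
    have h3 := (hf k).2.2
    nlinarith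
  · refine (measure_mono fun x hx => ?_).trans hk
    by_contra hn
    have h3 : |f k x - A.indicator 1 x| < e := not_le.1 hn
    apply hx
    show cl 0 1 ((f k x - e) / (1 - 2 * e)) = A.indicator 1 x
    rw [abs_lt] at h3
    by_cases hx' : x ∈ A
    · rw [indicator_of_mem hx', Pi.one_apply] at h3 ⊢
      have h4 : 1 ≤ (f k x - e) / (1 - 2 * e) := by
        rw [le_div_iff₀ hd]
        linarith [h3.1]
      rw [cl, min_eq_right h4, max_eq_right zero_le_one]
    · rw [indicator_of_notMem hx'] at h3 ⊢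
      have h4 : (f k x - e) / (1 - 2 * e) ≤ 0 :=
        div_nonpos_of_nonpos_of_nonneg (by linarith [h3.2]) hd.le
      exact max_eq_left ((min_le_left _ _).trans h4)

end Pool.Agent.MCF5
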