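import Pool.Agent.Lib.MP_5aed36_gt.FUp
import Pool.Agent.Lib.MP_5aed36_gt.FMollB

open MeasureTheory Set Filter Topology Metric
open scoped ENNReal NNReal RealInnerProductSpace symmDiff

namespace Pool.Agent.MCF5

variable {N : ℕ}

theorem fc_tv_one_sub (f : Sp N → ℝ) : tv (fun x => 1 - f x) = tv f := by
  unfold tv
  congr 1
  funext x
  rw [fderiv_const_sub, norm_neg]

theorem fc_lipC_one_sub {f : Sp N → ℝ} {c d : ℝ} (hf : LipC f c) (hd : d = 1 - c) :
    LipC (fun x => 1 - f x) d := by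
  obtain ⟨⟨K, hK⟩, R, hR⟩ := hf
  refine ⟨⟨K, ?_⟩, R, fun x hx => by simp only [hR x hx, hd]⟩
  refine LipschitzWith.of_dist_le_mul fun x y => ?_
  have h := hK.dist_le_mul x y
  rw [Real.dist_eq] at h ⊢
  have e : 1 - f x - (1 - f y) = -(f x - f y) := by ring
  rw [e, abs_neg]
  exact h

theorem fc_real_le {S T Z : Set (Sp N)} {g : ℝ} (hg : 0 ≤ g) (hT : Bornology.IsBounded T)
    (hZ : volume Z ≤ ENNReal.ofReal g) (h : S ⊆ T ∪ Z) :
    volume.real S ≤ volume.real T + g := by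
  have hT' : volume T ≠ ∞ := hT.measure_lt_top.ne
  have hZ' : volume Z ≠ ∞ := ne_top_of_le_ne_top ENNReal.ofReal_ne_top hZ
  have h1 : volume.real S ≤ volume.real (T ∪ Z) :=
    measureReal_mono h (measure_union_ne_top hT' hZ')
  have h2 : volume.real (T ∪ Z) ≤ volume.real T + volume.real Z := measureReal_union_le T Z
  have h3 : volume.real Z ≤ g := ENNReal.toReal_le_of_le_ofReal hg hZ
  linarith

theorem exists_competitor {v : Sp N → ℝ} {L : ℝ≥0} {c a σ ρ γ : ℝ} (hv : LipschitzWith L v)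
    (hc : 0 < c) (hup : NC c v) (hdown : NC c fun x => -v x) (hσ : 0 < σ) (hρ : 0 < ρ)
    (hγ : 0 < γ) (hb : Bornology.IsBounded {x | a < v x}) {A : Set (Sp N)}
    (hA : MeasurableSet A) (hAb : Bornology.IsBounded A) (hP : perim A ≠ ∞) :
    ∃ ψ : Sp N → ℝ, LipC ψ 0 ∧ (∀ x, 0 ≤ ψ x ∧ ψ x ≤ 1) ∧ (∀ x, a + σ ≤ v x → ψ x = 1) ∧
      (∀ x, v x ≤ a - σ → ψ x = 0) ∧
      tv ψ ≤ (perim A).toReal + (2 * N * c / ρ + 2 * ρ / σ) * volume.real ({x | a < v x} ∆ A)
        + γ := by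
  obtain ⟨K, hK⟩ : ∃ K : ℝ, K = 2 * N * c / ρ + 2 * ρ / σ := ⟨_, rfl⟩
  have hK0 : 0 ≤ K := by rw [hK]; positivity
  obtain ⟨g, hg⟩ : ∃ g : ℝ, g = γ / (1 + 2 * K) := ⟨_, rfl⟩
  have hg0 : 0 < g := by rw [hg]; positivity
  have hgγ : g * (1 + 2 * K) = γ := by
    rw [hg]; field_simp
  obtain ⟨ψ₀, hL₀, h01₀, htv₀, hZ⟩ := exists_moll hA hAb hP hg0
  obtain ⟨ψ₁, hL₁, h01₁, hone₁, hsame₁, htv₁⟩ :=
    up_modify (a := a) hv hc hup hσ hρ hL₀ h01₀ (hb.subset fun x hx => hx.1)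
  have hsub₂ : ∀ x, (-a < -v x ∧ 1 - ψ₁ x < 1) → v x < a ∧ 0 < ψ₀ x := by
    rintro x ⟨h1, h2⟩
    have h3 : v x < a := by linarith
    have h4 : ψ₁ x = ψ₀ x := hsame₁ x fun h => absurd h.1 (not_lt.mpr h3.le)
    exact ⟨h3, by linarith⟩
  have hb₂ : Bornology.IsBounded {x | -a < -v x ∧ 1 - ψ₁ x < 1} := by
    obtain ⟨R, hR⟩ := hL₀.2
    refine (isBounded_ball (x := (0 : Sp N)) (r := R)).subset fun x hx => ?_
    rw [mem_ball_zero_iff]
    by_contra h
    have h1 := hR x (not_lt.mp h)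
    have h2 := (hsub₂ x hx).2
    linarith
  obtain ⟨ψ₂, hL₂, h01₂, hone₂, hsame₂, htv₂⟩ :=
    up_modify (v := fun x => -v x) (ψ := fun x => 1 - ψ₁ x) (a := -a) (c₀ := 1) hv.neg hc hdown
      hσ hρ (fc_lipC_one_sub hL₁ (by norm_num))
      (fun x => ⟨by linarith [(h01₁ x).2], by linarith [(h01₁ x).1]⟩) hb₂
  refine ⟨fun x => 1 - ψ₂ x, fc_lipC_one_sub hL₂ (by norm_num),
    fun x => ⟨by linarith [(h01₂ x).2], by linarith [(h01₂ x).1]⟩, fun x hx => ?_,
    fun x hx => ?_, ?_⟩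
  · have h1 : ψ₂ x = 1 - ψ₁ x := hsame₂ x fun h => by linarith [h.1]
    have h2 := hone₁ x hx
    show 1 - ψ₂ x = 1
    linarith
  · have h1 : ψ₂ x = 1 := hone₂ x (by linarith)
    show 1 - ψ₂ x = 0
    linarith
  · have hU : MeasurableSet {x | a < v x} :=
      (isOpen_lt continuous_const hv.continuous).measurableSet
    have hb₃ : Bornology.IsBounded ({x | a < v x} \ A) := hb.subset sdiff_subset
    have hb₄ : Bornology.IsBounded (A \ {x | a < v x}) := hAb.subset sdiff_subset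
    have e1 : volume.real {x | a < v x ∧ ψ₀ x < 1} ≤ volume.real ({x | a < v x} \ A) + g := by
      refine fc_real_le hg0.le hb₃ hZ fun x hx => ?_
      by_cases hxA : x ∈ A
      · right
        show ψ₀ x ≠ A.indicator 1 x
        rw [indicator_of_mem hxA]
        exact hx.2.ne
      · exact Or.inl ⟨hx.1, hxA⟩
    have e2 : volume.real {x | -a < -v x ∧ 1 - ψ₁ x < 1} ≤
        volume.real (A \ {x | a < v x}) + g := by
      refine fc_real_le hg0.le hb₄ hZ fun x hx => ?_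
      obtain ⟨h1, h2⟩ := hsub₂ x hx
      by_cases hxA : x ∈ A
      · exact Or.inl ⟨hxA, not_lt.mpr h1.le⟩
      · right
        show ψ₀ x ≠ A.indicator 1 x
        rw [indicator_of_notMem hxA]
        exact h2.ne'
    have e3 : volume.real ({x | a < v x} ∆ A) =
        volume.real ({x | a < v x} \ A) + volume.real (A \ {x | a < v x}) := by
      rw [Set.symmDiff_def]
      exact measureReal_union disjoint_sdiff_sdiff (hA.diff hU) hb₃.measure_lt_top.ne
        hb₄.measure_lt_top.ne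
    rw [fc_tv_one_sub] at htv₂ ⊢
    rw [← hK] at htv₁ htv₂ ⊢
    rw [e3]
    have m1 := mul_le_mul_of_nonneg_left e1 hK0
    have m2 := mul_le_mul_of_nonneg_left e2 hK0
    nlinarith

end Pool.Agent.MCF5
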