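import Pool.Agent.Lib.MP_5aed36_gt.FDefs

open MeasureTheory Set Filter Topology Metric
open scoped ENNReal NNReal RealInnerProductSpace symmDiff

namespace Pool.Agent.MCF5

variable {N : ℕ}

/-- A bound up to an arbitrarily small multiple of a fixed constant. -/
theorem fk_le_of_mul {a b c : ℝ} (hc : 0 ≤ c) (h : ∀ μ : ℝ, 0 < μ → a ≤ b + c * μ) : a ≤ b := by
  refine le_of_forall_pos_le_add fun ε hε => ?_
  have h1 : 0 < c + 1 := by linarith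
  have h2 := h (ε / (c + 1)) (div_pos hε h1)
  have h3 : c * (ε / (c + 1)) ≤ ε := by
    rw [← mul_div_assoc, div_le_iff₀ h1]
    nlinarith
  linarith

theorem fk_anti {p : ℝ → ℝ} {D : ℝ → ℝ → ℝ} {C : ℝ} (hC : 0 ≤ C) (hD0 : ∀ s t, 0 ≤ D s t)
    (hV : ∀ s t lam : ℝ, 0 ≤ s → s ≤ t → 0 < lam →
      lam * D s t + p t ≤ C * lam ^ 2 * (t - s) + p s)
    {s t : ℝ} (hs : 0 ≤ s) (hst : s ≤ t) : p t ≤ p s := by
  have hc : 0 ≤ C * (t - s) := mul_nonneg hC (by linarith)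
  refine fk_le_of_mul hc fun μ hμ => ?_
  have h1 := hV s t (Real.sqrt μ) hs hst (Real.sqrt_pos.mpr hμ)
  rw [Real.sq_sqrt hμ.le] at h1
  have h2 : 0 ≤ Real.sqrt μ * D s t := mul_nonneg (Real.sqrt_nonneg _) (hD0 s t)
  nlinarith

/-- The dissipation bound up to the end point, with the left limit in place of the value. -/
theorem fk_left {p : ℝ → ℝ} {D : ℝ → ℝ → ℝ} {B C : ℝ} (hC : 0 ≤ C)
    (hp : ∀ s, 0 ≤ s → 0 ≤ p s ∧ p s ≤ B)
    (htri : ∀ s t T, D s T ≤ D s t + D t T)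
    (hV : ∀ s t lam : ℝ, 0 ≤ s → s ≤ t → 0 < lam →
      lam * D s t + p t ≤ C * lam ^ 2 * (t - s) + p s)
    {s T r lam : ℝ} (hs : 0 ≤ s) (hsT : s < T) (hlam : 0 < lam)
    (hr : ∀ t, 0 ≤ t → t < T → r ≤ p t) :
    lam * D s T ≤ C * lam ^ 2 * (T - s) + p s - r := by
  have hB : 0 ≤ B := (hp 0 le_rfl).1.trans (hp 0 le_rfl).2
  have hc : 0 ≤ lam * (C + B) := mul_nonneg hlam.le (by linarith)
  refine fk_le_of_mul hc fun μ hμ => ?_
  -- a time `t` close to `T`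
  obtain ⟨t, hst, htT, hd⟩ : ∃ t, s ≤ t ∧ t < T ∧ T - t ≤ μ ^ 2 := by
    refine ⟨max s (T - μ ^ 2), le_max_left _ _, max_lt hsT ?_, ?_⟩
    · have := pow_pos hμ 2
      linarith
    · have := le_max_right s (T - μ ^ 2)
      linarith
  have ht : 0 ≤ t := hs.trans hst
  have h1 := hV s t lam hs hst hlam
  have h2 := hV t T μ⁻¹ ht htT.le (inv_pos.mpr hμ)
  have h3 : D t T ≤ (C + B) * μ := by
    have hT := (hp T (ht.trans htT.le)).1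
    have hB' := (hp t ht).2
    have h4 : C * μ⁻¹ ^ 2 * (T - t) ≤ C := by
      have h5 : μ⁻¹ ^ 2 * (T - t) ≤ 1 := by
        have h6 : μ⁻¹ ^ 2 * μ ^ 2 = 1 := by field_simp
        have h7 : 0 ≤ μ⁻¹ ^ 2 := by positivity
        nlinarith [mul_le_mul_of_nonneg_left hd h7]
      nlinarith [mul_le_mul_of_nonneg_left h5 hC]
    have h8 : μ⁻¹ * D t T ≤ C + B := by linarith
    have h9 := mul_le_mul_of_nonneg_left h8 hμ.le
    rw [← mul_assoc, mul_inv_cancel₀ hμ.ne', one_mul] at h9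
    linarith
  have h10 := mul_le_mul_of_nonneg_left (htri s t T) hlam.le
  have h11 := mul_le_mul_of_nonneg_left h3 hlam.le
  have h12 : C * lam ^ 2 * (t - s) ≤ C * lam ^ 2 * (T - s) :=
    mul_le_mul_of_nonneg_left (by linarith) (by positivity)
  have h13 := hr t ht htT
  nlinarith

/-- The left limit of `p` at `T` is at most `P T`. -/
theorem fk_low {P p : ℝ → ℝ} {D : ℝ → ℝ → ℝ} {B C K : ℝ} (hC : 0 ≤ C) (hK : 0 ≤ K)
    (hp : ∀ s, 0 ≤ s → 0 ≤ p s ∧ p s ≤ B) (hD0 : ∀ s t, 0 ≤ D s t)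
    (htri : ∀ s t T, D s T ≤ D s t + D t T)
    (hV : ∀ s t lam : ℝ, 0 ≤ s → s ≤ t → 0 < lam →
      lam * D s t + p t ≤ C * lam ^ 2 * (t - s) + p s)
    (hgrid : ∀ (T₀ : ℕ) (j : ℝ), 0 < j → ∃ k : ℝ, 0 < k ∧ ∃ᶠ m : ℕ in atTop, ∀ i : ℕ,
      i ≤ m * T₀ → ∀ T ρ : ℝ, 0 ≤ T → 0 < ρ →
        p ((i : ℝ) / m) ≤ P T + j + (K / ρ + 2 * ρ / (k / m)) * D ((i : ℝ) / m) T)
    {T r : ℝ} (hT : 0 < T) (hr : ∀ t, 0 ≤ t → t < T → r ≤ p t)
    (hr' : ∀ ε, 0 < ε → ∃ s, 0 ≤ s ∧ s < T ∧ p s ≤ r + ε) : r ≤ P T := by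
  refine le_of_forall_pos_le_add fun j hj => ?_
  obtain ⟨k, hk, hfr⟩ := hgrid ⌈T⌉₊ j hj
  have hA : 0 ≤ K + 2 / k := by positivity
  have hc : 0 ≤ (K + 2 / k) * (C + 1) := mul_nonneg hA (by linarith)
  refine fk_le_of_mul hc fun μ hμ => ?_
  obtain ⟨s₀, hs₀, hs₀T, hps₀⟩ := hr' (μ ^ 2) (pow_pos hμ 2)
  have hgap : 0 < T - s₀ := by linarith
  have hev : ∀ᶠ m : ℕ in atTop, 1 / (T - s₀) ≤ (m : ℝ) :=
    tendsto_natCast_atTop_atTop.eventually (eventually_ge_atTop _)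
  obtain ⟨m, hm, hm'⟩ := (hfr.and_eventually hev).exists
  have hm0 : (0 : ℝ) < m := lt_of_lt_of_le (one_div_pos.mpr hgap) hm'
  have hmT : 0 < (m : ℝ) * T := mul_pos hm0 hT
  have hceil : 1 ≤ ⌈(m : ℝ) * T⌉₊ := Nat.one_le_iff_ne_zero.mpr (Nat.ceil_pos.mpr hmT).ne'
  obtain ⟨i, hi⟩ : ∃ i : ℕ, ⌈(m : ℝ) * T⌉₊ = i + 1 := ⟨⌈(m : ℝ) * T⌉₊ - 1, by omega⟩
  have hi1 : (i : ℝ) < m * T := by
    have := Nat.ceil_lt_add_one hmT.le
    rw [hi] at this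
    push_cast at this
    linarith
  have hi2 : (m : ℝ) * T ≤ i + 1 := by
    have := Nat.le_ceil ((m : ℝ) * T)
    rw [hi] at this
    push_cast at this
    linarith
  have hi3 : i ≤ m * ⌈T⌉₊ := by
    have h1 : (m : ℝ) * T ≤ m * (⌈T⌉₊ : ℝ) := mul_le_mul_of_nonneg_left (Nat.le_ceil T) hm0.le
    have h2 : (i : ℝ) ≤ ((m * ⌈T⌉₊ : ℕ) : ℝ) := by
      push_cast
      linarith
    exact_mod_cast h2
  obtain ⟨q, hq, hqq⟩ : ∃ q : ℝ, 0 < q ∧ q ^ 2 = m :=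
    ⟨Real.sqrt m, Real.sqrt_pos.mpr hm0, Real.sq_sqrt hm0.le⟩
  have hg := hm i hi3 T q⁻¹ hT.le (inv_pos.mpr hq)
  have hfac : K / q⁻¹ + 2 * q⁻¹ / (k / m) = (K + 2 / k) * q := by
    rw [← hqq]
    field_simp
  rw [hfac] at hg
  obtain ⟨s, hs⟩ : ∃ s : ℝ, s = (i : ℝ) / m := ⟨_, rfl⟩
  rw [← hs] at hg
  have hsm : s * m = i := by
    rw [hs]
    field_simp
  have hs0 : 0 ≤ s := by
    rw [hs]
    positivity
  have hsT : s < T := by
    by_contra hcon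
    have := mul_le_mul_of_nonneg_right (not_lt.mp hcon) hm0.le
    nlinarith
  have hTs : (m : ℝ) * (T - s) ≤ 1 := by nlinarith
  have hss : s₀ ≤ s := by
    have h1 : 1 ≤ (m : ℝ) * (T - s₀) := by
      rwa [div_le_iff₀ hgap] at hm'
    by_contra hcon
    have h2 : s < s₀ := not_le.mp hcon
    nlinarith
  have hps : p s ≤ r + μ ^ 2 := (fk_anti hC hD0 hV hs₀ hss).trans hps₀
  have hl := fk_left hC hp htri hV hs0 hsT (mul_pos hμ hq) hr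
  have h1 : C * (μ * q) ^ 2 * (T - s) ≤ C * μ ^ 2 := by
    have h2 : C * (μ * q) ^ 2 * (T - s) = C * μ ^ 2 * ((m : ℝ) * (T - s)) := by
      rw [← hqq]
      ring
    rw [h2]
    have h3 : 0 ≤ C * μ ^ 2 := by positivity
    nlinarith [mul_le_mul_of_nonneg_left hTs h3]
  have h4 : μ * (q * D s T) ≤ μ * ((C + 1) * μ) := by nlinarith
  have h5 : q * D s T ≤ (C + 1) * μ := le_of_mul_le_mul_left h4 hμ
  have h6 := mul_le_mul_of_nonneg_left h5 hA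
  have h7 := hr s hs0 hsT
  nlinarith

theorem continuousOn_of_level {P p : ℝ → ℝ} {D : ℝ → ℝ → ℝ} {B C K : ℝ} (hC : 0 ≤ C) (hK : 0 ≤ K)
    (hp : ∀ s, 0 ≤ s → 0 ≤ p s ∧ p s ≤ B) (hD0 : ∀ s t, 0 ≤ D s t) (hDs : ∀ s, D s s = 0)
    (htri : ∀ s t T, D s T ≤ D s t + D t T)
    (hV : ∀ s t lam : ℝ, 0 ≤ s → s ≤ t → 0 < lam → lam * D s t + p t ≤ C * lam ^ 2 * (t - s) + p s)
    (hlsc : ∀ T r : ℝ, 0 ≤ T → (∀ t, T < t → p t ≤ r) → P T ≤ r)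
    (hgrid : ∀ (T₀ : ℕ) (j : ℝ), 0 < j → ∃ k : ℝ, 0 < k ∧ ∃ᶠ m : ℕ in atTop, ∀ i : ℕ,
      i ≤ m * T₀ → ∀ T ρ : ℝ, 0 ≤ T → 0 < ρ →
        p ((i : ℝ) / m) ≤ P T + j + (K / ρ + 2 * ρ / (k / m)) * D ((i : ℝ) / m) T) :
    ContinuousOn P (Ici 0) := by
  have hanti : ∀ {s t : ℝ}, 0 ≤ s → s ≤ t → p t ≤ p s := fun hs hst => fk_anti hC hD0 hV hs hst
  have hup : ∀ T, 0 ≤ T → P T ≤ p T := fun T hT =>
    hlsc T (p T) hT fun t ht => hanti hT ht.le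
  -- for positive times: the left limit is below `P T`
  have hleft : ∀ T, 0 < T → ∀ ε, 0 < ε → ∃ s, 0 ≤ s ∧ s < T ∧ p s < P T + ε := by
    intro T hT ε hε
    have hne : (p '' Ico 0 T).Nonempty := ⟨p 0, 0, ⟨le_rfl, hT⟩, rfl⟩
    have hbd : BddBelow (p '' Ico 0 T) := ⟨0, by
      rintro _ ⟨t, ht, rfl⟩
      exact (hp t ht.1).1⟩
    have hr : ∀ t, 0 ≤ t → t < T → sInf (p '' Ico 0 T) ≤ p t := fun t h0 h1 =>
      csInf_le hbd ⟨t, ⟨h0, h1⟩, rfl⟩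
    have hr' : ∀ e, 0 < e → ∃ s, 0 ≤ s ∧ s < T ∧ p s < sInf (p '' Ico 0 T) + e := by
      intro e he
      obtain ⟨_, ⟨s, hs, rfl⟩, h⟩ :=
        exists_lt_of_csInf_lt hne (show sInf (p '' Ico 0 T) < sInf (p '' Ico 0 T) + e by linarith)
      exact ⟨s, hs.1, hs.2, h⟩
    have hlow := fk_low hC hK hp hD0 htri hV hgrid hT hr fun e he => by
      obtain ⟨s, h0, h1, h2⟩ := hr' e he
      exact ⟨s, h0, h1, h2.le⟩
    obtain ⟨s, h0, h1, h2⟩ := hr' ε hε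
    exact ⟨s, h0, h1, by linarith⟩
  have heq : ∀ T, 0 ≤ T → P T = p T := by
    intro T hT
    refine le_antisymm (hup T hT) (le_of_forall_pos_le_add fun j hj => ?_)
    rcases hT.eq_or_lt with h0 | h0
    · subst h0
      obtain ⟨k, -, hfr⟩ := hgrid 0 j hj
      obtain ⟨m, hm⟩ := hfr.exists
      have := hm 0 (Nat.zero_le _) 0 1 le_rfl one_pos
      simpa [hDs] using this
    · obtain ⟨s, h1, h2, h3⟩ := hleft T h0 j hj
      have := hanti h1 h2.le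
      linarith
  intro T hT
  have hT0 : 0 ≤ T := hT
  rw [Metric.continuousWithinAt_iff]
  intro ε hε
  obtain ⟨t, htT, ht⟩ : ∃ t, T < t ∧ P T - ε < p t := by
    by_contra hcon
    have h1 := hlsc T (P T - ε) hT0 fun t ht => by
      by_contra h2
      exact hcon ⟨t, ht, not_le.mp h2⟩
    linarith
  obtain ⟨δ, hδ, hl⟩ : ∃ δ, 0 < δ ∧ ∀ x, 0 ≤ x → x < T → T - δ < x → p x < P T + ε := by
    rcases hT0.eq_or_lt with h0 | h0
    · exact ⟨1, one_pos, fun x h1 h2 _ => absurd h2 (by rw [← h0]; exact not_lt.mpr h1)⟩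
    · obtain ⟨s, h1, h2, h3⟩ := hleft T h0 ε hε
      refine ⟨T - s, by linarith, fun x _ _ h4 => ?_⟩
      exact lt_of_le_of_lt (hanti h1 (by linarith)) h3
  refine ⟨min δ (t - T), lt_min hδ (by linarith), fun x hx hd => ?_⟩
  have hx0 : 0 ≤ x := hx
  rw [Real.dist_eq, abs_lt] at hd
  have hm1 := min_le_left δ (t - T)
  have hm2 := min_le_right δ (t - T)
  rw [Real.dist_eq, abs_lt, heq x hx0]
  rcases lt_or_ge x T with h | h
  · have h1 := hl x hx0 h (by linarith [hd.1])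
    have h2 := hanti hx0 h.le
    have h3 := heq T hT0
    constructor <;> linarith
  · have h1 := hanti hT0 h
    have h2 := hanti hx0 (show x ≤ t by linarith [hd.2])
    have h3 := heq T hT0
    constructor <;> linarith

end Pool.Agent.MCF5
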