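import Pool.Agent.Lib.MP_5aed36_gt.FDefs

open MeasureTheory Set Filter Topology Metric
open scoped ENNReal NNReal RealInnerProductSpace symmDiff

namespace Pool.Agent.MCF5

variable {N : ℕ}

theorem ff_symm {v : ℝ → Sp N → ℝ} {a₁ : ℝ} (hfin : ∀ s, volume {x | a₁ < v s x} ≠ ∞)
    {b s t γ : ℝ} (hb : a₁ ≤ b)
    (h : volume.real ({x | b < v s x} ∆ {x | b < v t x}) ≤ γ) :
    volume ({x | b < v s x} ∆ {x | b < v t x}) ≤ ENNReal.ofReal γ := by
  have hsub : ({x | b < v s x} ∆ {x | b < v t x}) ⊆ {x | a₁ < v s x} ∪ {x | a₁ < v t x} := by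
    intro x hx
    rcases Set.mem_symmDiff.1 hx with h1 | h1
    · exact Or.inl (lt_of_le_of_lt hb h1.1)
    · exact Or.inr (lt_of_le_of_lt hb h1.1)
  have hne : volume ({x | b < v s x} ∆ {x | b < v t x}) ≠ ∞ :=
    measure_ne_top_of_subset hsub (measure_union_ne_top (hfin s) (hfin t))
  rw [← ENNReal.ofReal_toReal hne]
  exact ENNReal.ofReal_le_ofReal h

theorem ff_strip {w : Sp N → ℝ} {a₁ a : ℝ} (hw : Measurable w)
    (hfin : volume {x | a₁ < w x} ≠ ∞) (ha : a₁ < a) (h0 : volume {x | w x = a} = 0) :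
    Tendsto (fun n : ℕ => volume {x | a - (a - a₁) * (1 / ((n : ℝ) + 1)) < w x ∧ w x ≤ a})
      atTop (𝓝 0) := by
  have hd : 0 < a - a₁ := sub_pos.2 ha
  have hanti : Antitone fun n : ℕ =>
      {x | a - (a - a₁) * (1 / ((n : ℝ) + 1)) < w x ∧ w x ≤ a} := by
    intro m n hmn x hx
    refine ⟨lt_of_le_of_lt ?_ hx.1, hx.2⟩
    have h1 : (1 : ℝ) / ((n : ℝ) + 1) ≤ 1 / ((m : ℝ) + 1) := Nat.one_div_le_one_div hmn
    have h2 := mul_le_mul_of_nonneg_left h1 hd.le
    linarith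
  have hmeas : ∀ n : ℕ, NullMeasurableSet
      {x | a - (a - a₁) * (1 / ((n : ℝ) + 1)) < w x ∧ w x ≤ a} volume := fun n =>
    ((measurableSet_lt measurable_const hw).inter
      (measurableSet_le hw measurable_const)).nullMeasurableSet
  have hf : ∃ n : ℕ, volume {x | a - (a - a₁) * (1 / ((n : ℝ) + 1)) < w x ∧ w x ≤ a} ≠ ∞ := by
    refine ⟨0, measure_ne_top_of_subset ?_ hfin⟩
    intro x hx
    have h1 := hx.1
    simp only [Nat.cast_zero, zero_add, div_one, mul_one, sub_sub_cancel] at h1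
    exact h1
  have hlim := tendsto_measure_iInter_atTop hmeas hanti hf
  have hz : volume (⋂ n : ℕ, {x | a - (a - a₁) * (1 / ((n : ℝ) + 1)) < w x ∧ w x ≤ a}) = 0 := by
    refine measure_mono_null ?_ h0
    intro x hx
    have hx' := mem_iInter.1 hx
    refine le_antisymm (hx' 0).2 ?_
    have ht : Tendsto (fun n : ℕ => a - (a - a₁) * (1 / ((n : ℝ) + 1))) atTop
        (𝓝 (a - (a - a₁) * 0)) :=
      tendsto_const_nhds.sub (tendsto_one_div_add_atTop_nhds_zero_nat.const_mul _)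
    rw [mul_zero, sub_zero] at ht
    exact le_of_tendsto' ht fun n => (hx' n).1.le
  rw [hz] at hlim
  exact hlim

theorem ae_nofat {v : ℝ → Sp N → ℝ} {a₁ : ℝ} (hv : ∀ s, Measurable (v s))
    (hfin : ∀ s, volume {x | a₁ < v s x} ≠ ∞)
    (hmod : ∀ γ : ℝ, 0 < γ → ∃ r : ℝ, 0 < r ∧ ∀ b s t : ℝ, a₁ ≤ b → 0 ≤ s → s ≤ t → t - s ≤ r →
      volume.real ({x | b < v s x} ∆ {x | b < v t x}) ≤ γ) :
    ∀ᵐ a : ℝ, a₁ < a → ∀ T, 0 ≤ T → volume {x | v T x = a} = 0 := by
  have hq : ∀ᵐ a : ℝ, ∀ q : ℚ, volume {x | v (q : ℝ) x = a} = 0 := by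
    rw [ae_all_iff]
    intro q
    have hc := Measure.countable_meas_level_set_pos (μ := (volume : Measure (Sp N))) (hv (q : ℝ))
    have h0 : (volume : Measure ℝ) {t | 0 < volume {x | v (q : ℝ) x = t}} = 0 := hc.measure_zero _
    rw [ae_iff]
    refine measure_mono_null ?_ h0
    intro t ht
    exact pos_iff_ne_zero.2 ht
  filter_upwards [hq] with a hqa ha T hT
  have key : ∀ γ : ℝ, 0 < γ →
      volume {x | v T x = a} ≤ ENNReal.ofReal γ + ENNReal.ofReal γ := by
    intro γ hγ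
    obtain ⟨r, hr, hm⟩ := hmod γ hγ
    obtain ⟨q, hq1, hq2⟩ := exists_rat_btwn (show T < T + r by linarith)
    have hd : 0 < a - a₁ := sub_pos.2 ha
    have hlim := ff_strip (hv (q : ℝ)) (hfin (q : ℝ)) ha (hqa q)
    have hlim2 := hlim.const_add (ENNReal.ofReal γ + ENNReal.ofReal γ)
    rw [add_zero] at hlim2
    refine ge_of_tendsto' hlim2 fun n => ?_
    have hpos : (0 : ℝ) < 1 / ((n : ℝ) + 1) := Nat.one_div_pos_of_nat
    have hle : (1 : ℝ) / ((n : ℝ) + 1) ≤ 1 := by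
      rw [div_le_one (by positivity)]
      have : (0 : ℝ) ≤ (n : ℝ) := Nat.cast_nonneg n
      linarith
    have hb1 : a₁ ≤ a - (a - a₁) * (1 / ((n : ℝ) + 1)) := by
      have := mul_le_mul_of_nonneg_left hle hd.le
      linarith
    have hb2 : a - (a - a₁) * (1 / ((n : ℝ) + 1)) < a := by
      have := mul_pos hd hpos
      linarith
    generalize a - (a - a₁) * (1 / ((n : ℝ) + 1)) = b at hb1 hb2 ⊢
    have h1 := ff_symm hfin hb1 (hm b T q hb1 hT hq1.le (by linarith))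
    have h2 := ff_symm hfin ha.le (hm a T q ha.le hT hq1.le (by linarith))
    have hsub : {x | v T x = a} ⊆
        (({x | b < v T x} ∆ {x | b < v (q : ℝ) x}) ∪ ({x | a < v T x} ∆ {x | a < v (q : ℝ) x})) ∪
          {x | b < v (q : ℝ) x ∧ v (q : ℝ) x ≤ a} := by
      intro x hx
      have hx' : v T x = a := hx
      by_cases c1 : b < v (q : ℝ) x
      · by_cases c2 : a < v (q : ℝ) x
        · refine Or.inl (Or.inr (Set.mem_symmDiff.2 (Or.inr ⟨c2, ?_⟩)))
          intro hh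
          have hh' : a < v T x := hh
          exact absurd hx' hh'.ne'
        · exact Or.inr ⟨c1, not_lt.1 c2⟩
      · refine Or.inl (Or.inl (Set.mem_symmDiff.2 (Or.inl ⟨?_, c1⟩)))
        show b < v T x
        rw [hx']
        exact hb2
    refine (measure_mono hsub).trans ((measure_union_le _ _).trans ?_)
    exact add_le_add ((measure_union_le _ _).trans (add_le_add h1 h2)) le_rfl
  refine le_antisymm ?_ (zero_le)
  refine ENNReal.le_of_forall_pos_le_add fun ε hε _ => ?_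
  have hε' : (0 : ℝ) < (ε : ℝ) / 2 := by positivity
  refine (key _ hε').trans ?_
  rw [← ENNReal.ofReal_add hε'.le hε'.le, add_halves, zero_add, ENNReal.ofReal_coe_nnreal]

end Pool.Agent.MCF5
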