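import Pool.Agent.Lib.MP_5aed36_gt.FTv

open MeasureTheory Set Filter Topology Metric
open scoped ENNReal NNReal RealInnerProductSpace symmDiff

namespace Pool.Agent.MCF5

variable {N : ℕ}

/-- The Huber function. -/
noncomputable def fh_hub (R s : ℝ) : ℝ := if s ≤ R then s ^ 2 / 2 else R * s - R ^ 2 / 2

theorem fh_hub_sub_le {R s t : ℝ} (hR : 0 < R) (hs : 0 ≤ s) (hst : s ≤ t) :
    0 ≤ fh_hub R t - fh_hub R s ∧ fh_hub R t - fh_hub R s ≤ R * (t - s) := by
  unfold fh_hub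
  split_ifs with h1 h2 h2
  · constructor <;> nlinarith
  · exact absurd (hst.trans h1) h2
  · push Not at h1
    constructor <;> nlinarith
  · constructor <;> nlinarith

theorem fh_hub_abs_le {R s t : ℝ} (hR : 0 < R) (hs : 0 ≤ s) (ht : 0 ≤ t) :
    |fh_hub R s - fh_hub R t| ≤ R * |s - t| := by
  rcases le_total s t with h | h
  · obtain ⟨h1, h2⟩ := fh_hub_sub_le hR hs h
    rw [abs_sub_comm, abs_of_nonneg h1, abs_sub_comm, abs_of_nonneg (sub_nonneg.2 h)]
    exact h2
  · obtain ⟨h1, h2⟩ := fh_hub_sub_le hR ht h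
    rw [abs_of_nonneg h1, abs_of_nonneg (sub_nonneg.2 h)]
    exact h2

theorem fh_hub_le_quad {R s m : ℝ} (hR : 0 < R) (hs : 0 ≤ s) (hm : R ≤ m) :
    fh_hub R s ≤ R / m * s ^ 2 / 2 + (R * m - R ^ 2) / 2 := by
  have hm0 : 0 < m := hR.trans_le hm
  have key : R / m * s ^ 2 / 2 + (R * m - R ^ 2) / 2 =
      (R * s ^ 2 + R * m ^ 2 - R ^ 2 * m) / (2 * m) := by
    field_simp
    ring
  rw [key, le_div_iff₀ (by positivity)]
  unfold fh_hub
  split_ifs with h1
  · have h2 : s ^ 2 ≤ R * m := by nlinarith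
    nlinarith [mul_nonneg (sub_nonneg.2 h2) (sub_nonneg.2 hm)]
  · nlinarith [mul_nonneg hR.le (sq_nonneg (s - m))]

theorem fh_hub_eq_quad {R s : ℝ} (hR : 0 < R) :
    fh_hub R s = R / max s R * s ^ 2 / 2 + (R * max s R - R ^ 2) / 2 := by
  unfold fh_hub
  split_ifs with h1
  · rw [max_eq_right h1, div_self hR.ne']
    ring
  · push Not at h1
    have hs : 0 < s := hR.trans h1
    rw [max_eq_left h1.le]
    field_simp
    ring

theorem fh_nearest {S : Set (Sp N)} (hS : S.Nonempty) (x : Sp N) :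
    ∃ z, infDist x S = ‖x - z‖ ∧ ∀ y, infDist y S ≤ ‖y - z‖ := by
  obtain ⟨z, hz, hd⟩ := (isClosed_closure (s := S)).exists_infDist_eq_dist hS.closure x
  refine ⟨z, ?_, fun y => ?_⟩
  · rw [← infDist_closure, hd, dist_eq_norm]
  · rw [← infDist_closure, ← dist_eq_norm]
    exact infDist_le_dist_of_mem hz

theorem fh_second {S : Set (Sp N)} (hS : S.Nonempty) {R : ℝ} (hR : 0 < R) (x k : Sp N) :
    fh_hub R (infDist (x + k) S) + fh_hub R (infDist (x - k) S) - 2 * fh_hub R (infDist x S) ≤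
      ‖k‖ ^ 2 := by
  obtain ⟨z, hz, hle⟩ := fh_nearest hS x
  set m := max (infDist x S) R with hm
  have hRm : R ≤ m := le_max_right _ _
  have hm0 : 0 < m := hR.trans_le hRm
  have ht0 : 0 ≤ R / m := by positivity
  have ht1 : R / m ≤ 1 := (div_le_one hm0).2 hRm
  have h0 : fh_hub R (infDist x S) = R / m * ‖x - z‖ ^ 2 / 2 + (R * m - R ^ 2) / 2 := by
    rw [fh_hub_eq_quad hR, ← hm, hz]
  have h1 : ∀ y : Sp N, fh_hub R (infDist y S) ≤
      R / m * ‖y - z‖ ^ 2 / 2 + (R * m - R ^ 2) / 2 := by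
    intro y
    have a1 := (fh_hub_sub_le hR infDist_nonneg (hle y)).1
    have a2 := fh_hub_le_quad hR (norm_nonneg (y - z)) hRm
    linarith
  have hp : ‖x + k - z‖ ^ 2 + ‖x - k - z‖ ^ 2 = 2 * ‖x - z‖ ^ 2 + 2 * ‖k‖ ^ 2 := by
    have e1 : x + k - z = (x - z) + k := by abel
    have e2 : x - k - z = (x - z) - k := by abel
    rw [e1, e2, norm_add_sq_real (x - z) k, norm_sub_sq_real (x - z) k]
    ring
  have b1 := h1 (x + k)
  have b2 := h1 (x - k)
  have b3 : R / m * ‖k‖ ^ 2 ≤ ‖k‖ ^ 2 := mul_le_of_le_one_left (sq_nonneg _) ht1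
  have b4 : R / m * ‖x + k - z‖ ^ 2 + R / m * ‖x - k - z‖ ^ 2 =
      2 * (R / m * ‖x - z‖ ^ 2) + 2 * (R / m * ‖k‖ ^ 2) := by
    rw [← mul_add, hp]
    ring
  rw [h0]
  linarith

theorem fh_lip_q (S : Set (Sp N)) {R : ℝ} (hR : 0 < R) :
    LipschitzWith R.toNNReal fun x : Sp N => fh_hub R (infDist x S) := by
  refine LipschitzWith.of_dist_le_mul fun x y => ?_
  rw [Real.dist_eq, Real.coe_toNNReal _ hR.le]
  refine (fh_hub_abs_le hR infDist_nonneg infDist_nonneg).trans ?_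
  have h := (lipschitz_infDist_pt S).dist_le_mul x y
  rw [Real.dist_eq, NNReal.coe_one, one_mul] at h
  exact mul_le_mul_of_nonneg_left h hR.le

theorem fh_one_le_norm {S : Set (Sp N)} (hS : S.Nonempty) {x : Sp N} (hx : 0 < infDist x S)
    {D : Sp N →L[ℝ] ℝ} (hD : HasFDerivAt (fun y => infDist y S) D x) : 1 ≤ ‖D‖ := by
  obtain ⟨z, hz, hle⟩ := fh_nearest hS x
  have hl : HasDerivAt (fun t : ℝ => x + t • (z - x)) (z - x) 0 := by
    simpa using ((hasDerivAt_id (0 : ℝ)).smul_const (z - x)).const_add x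
  have hD' : HasFDerivAt (fun y => infDist y S) D (x + (0 : ℝ) • (z - x)) := by
    simpa using hD
  have hc : HasDerivAt (fun t : ℝ => infDist (x + t • (z - x)) S) (D (z - x)) 0 :=
    HasFDerivAt.comp_hasDerivAt (l := fun y => infDist y S) (f := fun t : ℝ => x + t • (z - x))
      (0 : ℝ) hD' hl
  have hsl := hc.tendsto_slope_zero_right
  have hev : ∀ᶠ t : ℝ in 𝓝[>] 0, t⁻¹ • (infDist (x + (0 + t) • (z - x)) S -
      infDist (x + (0 : ℝ) • (z - x)) S) ≤ -infDist x S := by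
    filter_upwards [Ioo_mem_nhdsGT (zero_lt_one' ℝ)] with t ht
    have e1 : x + (0 + t) • (z - x) - z = (1 - t) • (x - z) := by
      module
    have e2 := hle (x + (0 + t) • (z - x))
    rw [e1, norm_smul, Real.norm_eq_abs, abs_of_pos (sub_pos.2 ht.2), ← hz] at e2
    rw [zero_smul, add_zero, smul_eq_mul, inv_mul_le_iff₀ ht.1]
    linarith
  have h1 : D (z - x) ≤ -infDist x S := le_of_tendsto hsl hev
  have h2 : |D (z - x)| ≤ ‖D‖ * ‖z - x‖ := D.le_opNorm _
  rw [norm_sub_rev, ← hz] at h2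
  have h3 : infDist x S ≤ ‖D‖ * infDist x S := by
    have := neg_abs_le (D (z - x))
    linarith
  exact le_of_mul_le_mul_right (by linarith) hx

theorem fh_norm_gradient (q : Sp N → ℝ) (x : Sp N) : ‖gradient q x‖ = ‖fderiv ℝ q x‖ := by
  simp [gradient]

theorem fh_apply_gradient (q : Sp N → ℝ) (x : Sp N) :
    fderiv ℝ q x (gradient q x) = ‖fderiv ℝ q x‖ ^ 2 := by
  rw [← fh_norm_gradient, ← real_inner_self_eq_norm_sq]
  exact (InnerProductSpace.toDual_symm_apply (𝕜 := ℝ)).symm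

theorem fh_lip_cl : LipschitzWith 1 (cl 0 1) := by
  have h : LipschitzWith 1 fun s : ℝ => max (0 : ℝ) (min s 1) :=
    (LipschitzWith.id.min_const 1).const_max 0
  exact h

theorem fh_lip_omega (S : Set (Sp N)) (R : ℝ) {δ : ℝ} (hδ : 0 < δ) :
    LipschitzWith (δ⁻¹).toNNReal fun x : Sp N => cl 0 1 ((R + δ - infDist x S) / δ) := by
  refine LipschitzWith.of_dist_le_mul fun x y => ?_
  refine (fh_lip_cl.dist_le_mul _ _).trans ?_
  have h := (lipschitz_infDist_pt S).dist_le_mul x y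
  rw [Real.dist_eq, NNReal.coe_one, one_mul] at h
  rw [NNReal.coe_one, one_mul, Real.dist_eq, Real.coe_toNNReal _ (inv_pos.2 hδ).le, ← sub_div,
    abs_div, abs_of_pos hδ, div_eq_inv_mul]
  refine mul_le_mul_of_nonneg_left ?_ (inv_pos.2 hδ).le
  have e : R + δ - infDist x S - (R + δ - infDist y S) = -(infDist x S - infDist y S) := by ring
  rw [e, abs_neg]
  exact h

theorem fh_ae_omega {S : Set (Sp N)} (hS : S.Nonempty) {R δ : ℝ} (hR : 0 < R) (hδ : 0 < δ) :
    ∀ᵐ x : Sp N, fderiv ℝ (fun y : Sp N => cl 0 1 ((R + δ - infDist y S) / δ)) x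
        (gradient (fun y : Sp N => fh_hub R (infDist y S)) x) ≤
      -(R * ‖fderiv ℝ (fun y : Sp N => cl 0 1 ((R + δ - infDist y S) / δ)) x‖) := by
  have hω := fh_lip_omega S R hδ
  have hcont : Continuous fun y : Sp N => infDist y S := continuous_infDist_pt S
  filter_upwards [ae_fderiv_eq_of_eq hω (LipschitzWith.const (0 : ℝ)),
    ae_fderiv_eq_of_eq hω (LipschitzWith.const (1 : ℝ)),
    (lipschitz_infDist_pt S).ae_differentiableAt (μ := volume)] with x h0 h1 hd
  by_cases a1 : infDist x S ≤ R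
  · have e : cl 0 1 ((R + δ - infDist x S) / δ) = 1 := by
      have : 1 ≤ (R + δ - infDist x S) / δ := by
        rw [le_div_iff₀ hδ]
        linarith
      rw [cl, min_eq_right this, max_eq_right zero_le_one]
    rw [h1 e]
    simp
  by_cases a2 : R + δ ≤ infDist x S
  · have e : cl 0 1 ((R + δ - infDist x S) / δ) = 0 := by
      have : (R + δ - infDist x S) / δ ≤ 0 := div_nonpos_of_nonpos_of_nonneg (by linarith) hδ.le
      rw [cl, max_eq_left (min_le_of_left_le this)]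
    rw [h0 e]
    simp
  push Not at a1 a2
  set D := fderiv ℝ (fun y : Sp N => infDist y S) x with hDdef
  have hD : HasFDerivAt (fun y : Sp N => infDist y S) D x := hd.hasFDerivAt
  have hn : 1 ≤ ‖D‖ := fh_one_le_norm hS (hR.trans a1) hD
  have ev1 : ∀ᶠ y in 𝓝 x, R < infDist y S := hcont.continuousAt.eventually (lt_mem_nhds a1)
  have ev2 : ∀ᶠ y in 𝓝 x, infDist y S < R + δ := hcont.continuousAt.eventually (gt_mem_nhds a2)
  have hq : HasFDerivAt (fun y : Sp N => fh_hub R (infDist y S)) (R • D) x := by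
    have h := (hD.const_mul R).sub_const (R ^ 2 / 2)
    refine h.congr_of_eventuallyEq ?_
    filter_upwards [ev1] with y hy
    rw [fh_hub, if_neg (not_le.2 hy)]
  have hw : HasFDerivAt (fun y : Sp N => cl 0 1 ((R + δ - infDist y S) / δ)) ((-δ⁻¹) • D) x := by
    have h := (hD.const_mul (-δ⁻¹)).add_const ((R + δ) / δ)
    refine h.congr_of_eventuallyEq ?_
    filter_upwards [ev1, ev2] with y hy1 hy2
    have b1 : (R + δ - infDist y S) / δ ≤ 1 := by
      rw [div_le_one hδ]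
      linarith
    have b2 : 0 ≤ (R + δ - infDist y S) / δ := div_nonneg (by linarith) hδ.le
    rw [cl, min_eq_left b1, max_eq_right b2]
    field_simp
    ring
  have hg := fh_apply_gradient (fun y : Sp N => fh_hub R (infDist y S)) x
  rw [hq.fderiv, norm_smul, smul_apply, smul_eq_mul, Real.norm_eq_abs,
    abs_of_pos hR] at hg
  have hg' : D (gradient (fun y : Sp N => fh_hub R (infDist y S)) x) = R * ‖D‖ ^ 2 := by
    apply mul_left_cancel₀ hR.ne'
    rw [hg]
    ring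
  rw [hw.fderiv, norm_smul, smul_apply, smul_eq_mul, hg', Real.norm_eq_abs,
    abs_neg, abs_of_pos (inv_pos.2 hδ)]
  have hp : 0 < δ⁻¹ * R := mul_pos (inv_pos.2 hδ) hR
  have h2 : ‖D‖ ≤ ‖D‖ ^ 2 := by nlinarith
  nlinarith [mul_le_mul_of_nonneg_left h2 hp.le]

theorem fh_integrableOn {f : Sp N → ℝ} {K : ℝ≥0} (hf : LipschitzWith K f) {U : Set (Sp N)}
    (hU : Bornology.IsBounded U) : IntegrableOn (fun x => ‖fderiv ℝ f x‖) U := by
  refine Measure.integrableOn_of_bounded (M := K) hU.measure_lt_top.ne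
    (measurable_fderiv ℝ f).norm.aestronglyMeasurable ?_
  refine Eventually.of_forall fun x => ?_
  rw [norm_norm]
  exact norm_fderiv_le_of_lipschitz ℝ hf

theorem fh_integrable_pair {q φ : Sp N → ℝ} {K : ℝ≥0} (hq : LipschitzWith K q) (hφ : LipC φ 0) :
    Integrable fun x => fderiv ℝ φ x (gradient q x) := by
  have m1 : Measurable (fderiv ℝ φ) := measurable_fderiv ℝ φ
  have m2 : Measurable (gradient q) :=
    (InnerProductSpace.toDual ℝ (Sp N)).symm.continuous.measurable.comp (measurable_fderiv ℝ q)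
  have m3 : AEStronglyMeasurable (fun x => fderiv ℝ φ x (gradient q x)) volume :=
    (isBoundedBilinearMap_apply (𝕜 := ℝ) (E := Sp N) (F := ℝ)).continuous.comp_aestronglyMeasurable
      (m1.aestronglyMeasurable.prodMk m2.aestronglyMeasurable)
  refine (hφ.integrable_norm_fderiv.mul_const (K : ℝ)).mono' m3 ?_
  refine Eventually.of_forall fun x => ?_
  refine ((fderiv ℝ φ x).le_opNorm _).trans ?_
  refine mul_le_mul_of_nonneg_left ?_ (norm_nonneg _)
  rw [fh_norm_gradient]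
  exact norm_fderiv_le_of_lipschitz ℝ hq

theorem exists_huber {S : Set (Sp N)} (hS : S.Nonempty) {R₀ δ : ℝ} (hR : 0 < R₀) (hδ : 0 < δ) :
    ∃ (ω : Sp N → ℝ) (K : ℝ≥0), LipschitzWith K ω ∧ (∀ x, 0 ≤ ω x ∧ ω x ≤ 1) ∧
      (∀ x, infDist x S ≤ R₀ → ω x = 1) ∧ (∀ x, R₀ + δ ≤ infDist x S → ω x = 0) ∧
      ∀ (ψ : Sp N → ℝ) (K' : ℝ≥0), LipschitzWith K' ψ → Bornology.IsBounded {x | ψ x < ω x} →
        ∫ x in {x | ψ x < ω x}, ‖fderiv ℝ ω x‖ ≤
          (∫ x in {x | ψ x < ω x}, ‖fderiv ℝ ψ x‖) + N / R₀ * ∫ x, max (ω x - ψ x) 0 := by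
  have hae := fh_ae_omega hS hR hδ
  have hω := fh_lip_omega S R₀ hδ
  have hq := fh_lip_q S hR
  have h2 := fh_second hS hR
  set ω : Sp N → ℝ := fun y => cl 0 1 ((R₀ + δ - infDist y S) / δ) with hωdef
  set q : Sp N → ℝ := fun y => fh_hub R₀ (infDist y S) with hqdef
  refine ⟨ω, _, hω, fun x => ⟨le_max_left _ _, max_le zero_le_one (min_le_right _ _)⟩,
    fun x hx => ?_, fun x hx => ?_, fun ψ K' hψ hb => ?_⟩
  · have : 1 ≤ (R₀ + δ - infDist x S) / δ := by
      rw [le_div_iff₀ hδ]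
      linarith
    simp only [hωdef]
    rw [cl, min_eq_right this, max_eq_right zero_le_one]
  · have : (R₀ + δ - infDist x S) / δ ≤ 0 := div_nonpos_of_nonpos_of_nonneg (by linarith) hδ.le
    simp only [hωdef]
    rw [cl, max_eq_left (min_le_of_left_le this)]
  set U : Set (Sp N) := {x | ψ x < ω x} with hU
  have hUo : IsOpen U := isOpen_lt hψ.continuous hω.continuous
  set φ : Sp N → ℝ := fun x => max (ω x - ψ x) 0 with hφdef
  have hφl : LipschitzWith ((δ⁻¹).toNNReal + K') φ := (hω.sub hψ).max_const 0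
  have hφ0 : ∀ x, x ∉ U → φ x = 0 := fun x hx =>
    max_eq_right (sub_nonpos.2 (not_lt.1 hx))
  have hφ : LipC φ 0 := by
    refine ⟨⟨_, hφl⟩, ?_⟩
    obtain ⟨r, hr⟩ := hb.subset_ball 0
    refine ⟨r, fun x hx => hφ0 x fun hxU => ?_⟩
    have := hr hxU
    rw [mem_ball_zero_iff] at this
    linarith
  have hfield := field_lemma hq h2 hφ fun x => le_max_right _ _
  have iω := fh_integrableOn hω hb
  have iψ := fh_integrableOn hψ hb
  have hle : ∀ᵐ x : Sp N, U.indicator (fun x => R₀ * (‖fderiv ℝ ω x‖ - ‖fderiv ℝ ψ x‖)) x ≤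
      -fderiv ℝ φ x (gradient q x) := by
    filter_upwards [hae, ae_fderiv_eq_of_eq hφl (LipschitzWith.const (0 : ℝ)),
      hω.ae_differentiableAt (μ := volume), hψ.ae_differentiableAt (μ := volume)]
      with x h1 h0 dω dψ
    by_cases hx : x ∈ U
    · have hd : HasFDerivAt φ (fderiv ℝ ω x - fderiv ℝ ψ x) x := by
        refine (dω.hasFDerivAt.sub dψ.hasFDerivAt).congr_of_eventuallyEq ?_
        filter_upwards [hUo.mem_nhds hx] with y hy
        exact max_eq_left (sub_nonneg.2 (le_of_lt hy))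
      rw [indicator_of_mem hx, hd.fderiv, sub_apply]
      have b1 : |fderiv ℝ ψ x (gradient q x)| ≤ ‖fderiv ℝ ψ x‖ * ‖gradient q x‖ :=
        (fderiv ℝ ψ x).le_opNorm _
      have b2 : ‖gradient q x‖ ≤ R₀ := by
        rw [fh_norm_gradient]
        have := norm_fderiv_le_of_lipschitz ℝ hq (x₀ := x)
        rwa [Real.coe_toNNReal _ hR.le] at this
      have b3 := mul_le_mul_of_nonneg_left b2 (norm_nonneg (fderiv ℝ ψ x))
      have b4 := neg_abs_le (fderiv ℝ ψ x (gradient q x))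
      nlinarith
    · rw [indicator_of_notMem hx, h0 (hφ0 x hx)]
      simp
  have iU : IntegrableOn (fun x => R₀ * (‖fderiv ℝ ω x‖ - ‖fderiv ℝ ψ x‖)) U :=
    Integrable.const_mul (iω.sub iψ) R₀
  have hint := integral_mono_ae (iU.integrable_indicator hUo.measurableSet)
    (fh_integrable_pair hq hφ).neg hle
  simp only [Pi.neg_apply] at hint
  rw [integral_indicator hUo.measurableSet, integral_const_mul, integral_sub iω iψ,
    integral_neg] at hint
  have h3 := hint.trans hfield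
  rw [← sub_le_iff_le_add', div_mul_eq_mul_div, le_div_iff₀ hR]
  linarith

end Pool.Agent.MCF5
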