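import Pool.Agent.Lib.MP_5aed36_gt.FTv

open MeasureTheory Set Filter Topology Metric
open scoped ENNReal NNReal RealInnerProductSpace symmDiff

namespace Pool.Agent.MCF5

variable {N : ℕ}

theorem fp_dvg_cont {φ : Sp N → Sp N} (hφ : ContDiff ℝ 1 φ) : Continuous (dvg φ) := by
  have h : Continuous (fderiv ℝ φ) := hφ.continuous_fderiv one_ne_zero
  unfold dvg
  refine continuous_finsetSum _ fun i _ => ?_
  exact (EuclideanSpace.proj i : Sp N →L[ℝ] ℝ).continuous.comp (h.clm_apply continuous_const)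

theorem fp_dvg_supp {φ : Sp N → Sp N} (hc : HasCompactSupport φ) : HasCompactSupport (dvg φ) := by
  have h : HasCompactSupport (fderiv ℝ φ) := hc.fderiv ℝ
  exact h.comp_left
    (g := fun T : Sp N →L[ℝ] Sp N => ∑ i, T (EuclideanSpace.single i 1) i) (by simp)

theorem fp_dvg_int {φ : Sp N → Sp N} (hφ : ContDiff ℝ 1 φ) (hc : HasCompactSupport φ) :
    Integrable (dvg φ) :=
  (fp_dvg_cont hφ).integrable_of_hasCompactSupport (fp_dvg_supp hc)

theorem fp_int_le_tv {f : Sp N → ℝ} (hf : LipC f 0) {φ : Sp N → Sp N} (hφ : ContDiff ℝ 1 φ)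
    (hc : HasCompactSupport φ) (h1 : ∀ x, ‖φ x‖ ≤ 1) : ∫ x, f x * dvg φ x ≤ tv f := by
  rw [integral_mul_dvg hf hφ hc]
  have h : ‖∫ x, fderiv ℝ f x (φ x)‖ ≤ ∫ x, ‖fderiv ℝ f x‖ := by
    refine norm_integral_le_of_norm_le hf.integrable_norm_fderiv (Eventually.of_forall fun x => ?_)
    calc ‖fderiv ℝ f x (φ x)‖ ≤ ‖fderiv ℝ f x‖ * ‖φ x‖ := (fderiv ℝ f x).le_opNorm _
      _ ≤ ‖fderiv ℝ f x‖ * 1 := mul_le_mul_of_nonneg_left (h1 x) (norm_nonneg _)
      _ = ‖fderiv ℝ f x‖ := mul_one _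
  rw [Real.norm_eq_abs] at h
  exact (neg_le_abs _).trans h

theorem perim_le_of_ramps {A : Set (Sp N)} (hA : MeasurableSet A) {χ : ℕ → Sp N → ℝ}
    (hχ : ∀ k, LipC (χ k) 0) (h01 : ∀ k x, 0 ≤ χ k x ∧ χ k x ≤ 1)
    (hlim : ∀ x, Tendsto (fun k => χ k x) atTop (𝓝 (A.indicator 1 x)))
    {l : Filter ℕ} [l.NeBot] (hl : l ≤ atTop) {p : ℝ} (hp : Tendsto (fun k => tv (χ k)) l (𝓝 p)) :
    perim A ≤ ENNReal.ofReal p := by
  unfold perim
  refine iSup_le fun φ => iSup_le fun hφ => iSup_le fun hc => iSup_le fun h1 =>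
    ENNReal.ofReal_le_ofReal ?_
  have hint := fp_dvg_int hφ hc
  have hI : Tendsto (fun k => ∫ x, χ k x * dvg φ x) atTop
      (𝓝 (∫ x, A.indicator (1 : Sp N → ℝ) x * dvg φ x)) := by
    refine tendsto_integral_of_dominated_convergence (fun x => ‖dvg φ x‖) (fun k => ?_) hint.norm
      (fun k => Eventually.of_forall fun x => ?_)
      (Eventually.of_forall fun x => (hlim x).mul_const _)
    · obtain ⟨K, hK⟩ := (hχ k).1
      exact (hK.continuous.mul (fp_dvg_cont hφ)).aestronglyMeasurable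
    · rw [norm_mul, Real.norm_of_nonneg (h01 k x).1]
      exact mul_le_of_le_one_left (norm_nonneg _) (h01 k x).2
  have heq : ∫ x, A.indicator (1 : Sp N → ℝ) x * dvg φ x = ∫ x in A, dvg φ x := by
    rw [← integral_indicator hA]
    refine integral_congr_ae (Eventually.of_forall fun x => ?_)
    by_cases hx : x ∈ A <;> simp [hx]
  rw [heq] at hI
  exact le_of_tendsto_of_tendsto' (hI.mono_left hl) hp fun k => fp_int_le_tv (hχ k) hφ hc h1

theorem fp_setIntegral_sub {g : Sp N → ℝ} (hg : Integrable g) {M : ℝ} (hM : ∀ x, ‖g x‖ ≤ M)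
    {A B : Set (Sp N)} (hA : MeasurableSet A) (hB : MeasurableSet B)
    (hfin : volume (A ∆ B) ≠ ∞) :
    ‖(∫ x in A, g x) - ∫ x in B, g x‖ ≤ M * volume.real (A ∆ B) := by
  have hAB : MeasurableSet (A ∆ B) := hA.symmDiff hB
  rw [← integral_indicator hA, ← integral_indicator hB,
    ← integral_sub (hg.indicator hA) (hg.indicator hB)]
  have hc : Integrable ((A ∆ B).indicator fun _ : Sp N => M) :=
    (integrable_indicator_iff hAB).2 (integrableOn_const hfin)
  refine (norm_integral_le_of_norm_le hc (Eventually.of_forall fun x => ?_)).trans (le_of_eq ?_)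
  · by_cases hxA : x ∈ A <;> by_cases hxB : x ∈ B
    · have : x ∉ A ∆ B := by simp [Set.mem_symmDiff, hxA, hxB]
      simp [hxA, hxB, this]
    · have : x ∈ A ∆ B := by simp [Set.mem_symmDiff, hxA, hxB]
      simpa [hxA, hxB, this] using hM x
    · have : x ∈ A ∆ B := by simp [Set.mem_symmDiff, hxA, hxB]
      simpa [hxA, hxB, this] using hM x
    · have : x ∉ A ∆ B := by simp [Set.mem_symmDiff, hxA, hxB]
      simp [hxA, hxB, this]
  · rw [integral_indicator_const _ hAB, smul_eq_mul, mul_comm]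

theorem perim_lsc {ι : Type*} {l : Filter ι} [l.NeBot] {A : ι → Set (Sp N)} {A₀ : Set (Sp N)}
    (hA : ∀ i, MeasurableSet (A i)) (hA₀ : MeasurableSet A₀)
    (hfin : ∀ i, volume (A i ∆ A₀) ≠ ∞)
    (hlim : Tendsto (fun i => volume.real (A i ∆ A₀)) l (𝓝 0)) {p : ℝ≥0∞}
    (hp : ∀ᶠ i in l, perim (A i) ≤ p) : perim A₀ ≤ p := by
  refine iSup_le fun φ => iSup_le fun hφ => iSup_le fun hc => iSup_le fun h1 => ?_
  have hint := fp_dvg_int hφ hc
  obtain ⟨M, hM⟩ := (fp_dvg_cont hφ).bounded_above_of_compact_support (fp_dvg_supp hc)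
  have hI : Tendsto (fun i => ∫ x in A i, dvg φ x) l (𝓝 (∫ x in A₀, dvg φ x)) := by
    rw [tendsto_iff_norm_sub_tendsto_zero]
    refine squeeze_zero (fun i => norm_nonneg _)
      (fun i => fp_setIntegral_sub hint hM (hA i) hA₀ (hfin i)) ?_
    simpa using hlim.const_mul M
  refine le_of_tendsto ((ENNReal.continuous_ofReal.tendsto _).comp hI) (hp.mono fun i hi => ?_)
  refine le_trans ?_ hi
  exact le_iSup_of_le φ (le_iSup_of_le hφ (le_iSup_of_le hc (le_iSup_of_le h1 le_rfl)))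

end Pool.Agent.MCF5
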