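import Pool.Agent.Lib.MP_5aed36_gt.FComp
import Pool.Agent.Lib.MP_5aed36_gt.FPerim

open MeasureTheory Set Filter Topology Metric
open scoped ENNReal NNReal RealInnerProductSpace symmDiff

namespace Pool.Agent.MCF5

variable {N : ℕ}

/-- Ramp of width `θ` above the level `a`. -/
noncomputable def flRamp (a θ s : ℝ) : ℝ := θ⁻¹ * (cl a (a + θ) s + -a)

theorem fl_ramp_mem {a θ : ℝ} (hθ : 0 < θ) (s : ℝ) : 0 ≤ flRamp a θ s ∧ flRamp a θ s ≤ 1 := by
  obtain ⟨h1, h2⟩ := cl_mem (a := a) (b := a + θ) (by linarith) s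
  refine ⟨mul_nonneg (inv_nonneg.2 hθ.le) (by linarith), ?_⟩
  unfold flRamp
  rw [inv_mul_le_iff₀ hθ]
  linarith

theorem fl_ramp_of_le {a θ s : ℝ} (hθ : 0 < θ) (hs : s ≤ a) : flRamp a θ s = 0 := by
  unfold flRamp
  rw [cl_of_le (by linarith) hs]
  simp

theorem fl_cl_of_ge {a b s : ℝ} (hab : a ≤ b) (hs : b ≤ s) : cl a b s = b := by
  unfold cl
  rw [min_eq_right hs, max_eq_right hab]

theorem fl_ramp_of_ge {a θ s : ℝ} (hθ : 0 < θ) (hs : a + θ ≤ s) : flRamp a θ s = 1 := by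
  unfold flRamp
  rw [fl_cl_of_ge (by linarith) hs]
  field_simp
  ring

theorem fl_th_pos (k : ℕ) : (0 : ℝ) < 1 / ((k : ℝ) + 1) := by positivity

theorem fl_ramp_tendsto (a : ℝ) (w : Sp N → ℝ) (x : Sp N) :
    Tendsto (fun k : ℕ => flRamp a (1 / ((k : ℝ) + 1)) (w x)) atTop
      (𝓝 ({y | a < w y}.indicator 1 x)) := by
  by_cases hx : a < w x
  · have h1 : {y | a < w y}.indicator (1 : Sp N → ℝ) x = 1 := by
      rw [indicator_of_mem (by exact hx)]; rfl
    rw [h1]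
    have h2 : ∀ᶠ k : ℕ in atTop, 1 / ((k : ℝ) + 1) < w x - a :=
      tendsto_one_div_add_atTop_nhds_zero_nat.eventually (gt_mem_nhds (by linarith))
    refine tendsto_const_nhds.congr' (h2.mono fun k hk => ?_)
    exact (fl_ramp_of_ge (fl_th_pos k) (by linarith)).symm
  · have h1 : {y | a < w y}.indicator (1 : Sp N → ℝ) x = 0 := by
      rw [indicator_of_notMem (by exact hx)]
    rw [h1]
    refine tendsto_const_nhds.congr fun k => ?_
    exact (fl_ramp_of_le (fl_th_pos k) (not_lt.1 hx)).symm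

section
variable {L : ℝ≥0} {R a₁ a b θ : ℝ} {w w' : Sp N → ℝ}

theorem fl_lipC_cl (hw : Data L R a₁ w) (ha : a₁ ≤ a) (hab : a ≤ b) :
    LipC (fun x => cl a b (w x)) a := by
  have h := hw.lipC.comp (lipschitz_cl a b)
  rwa [cl_of_le hab ha] at h

theorem fl_lipC_ramp (hw : Data L R a₁ w) (ha : a₁ ≤ a) (hθ : 0 < θ) :
    LipC (fun x => flRamp a θ (w x)) 0 := by
  have h := ((fl_lipC_cl (b := a + θ) hw ha (by linarith)).add (LipC.const (-a))).const_mul θ⁻¹
  simpa [flRamp] using h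

theorem fl_tv_ramp (hw : Data L R a₁ w) (ha : a₁ ≤ a) (hθ : 0 < θ) :
    tv (fun x => flRamp a θ (w x)) = θ⁻¹ * tv (fun x => cl a (a + θ) (w x)) := by
  have h := (fl_lipC_cl (b := a + θ) hw ha (by linarith)).add (LipC.const (-a))
  unfold flRamp
  rw [tv_const_mul h, tv_add_const, abs_of_pos (inv_pos.2 hθ)]

theorem fl_subset (hw : Data L R a₁ w) (ha : a₁ ≤ a) : {x | a < w x} ⊆ ball 0 R := by
  intro x hx
  rw [mem_ball_zero_iff]
  by_contra h
  have := hw.2 x (not_lt.1 h)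
  have hx' : a < w x := hx
  linarith

theorem fl_meas (hw : Data L R a₁ w) (a : ℝ) : MeasurableSet {x | a < w x} :=
  (isOpen_lt continuous_const hw.1.continuous).measurableSet

theorem fl_sd_tendsto (hw : Data L R a₁ w) (hw' : Data L R a₁ w') (ha : a₁ ≤ a) :
    Tendsto (fun k : ℕ => ∫ x, |flRamp a (1 / ((k : ℝ) + 1)) (w' x) -
      flRamp a (1 / ((k : ℝ) + 1)) (w x)|) atTop
      (𝓝 (volume.real ({x | a < w x} ∆ {x | a < w' x}))) := by
  have hm : MeasurableSet ({x | a < w x} ∆ {x | a < w' x}) :=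
    (fl_meas hw a).symmDiff (fl_meas hw' a)
  rw [← integral_indicator_one hm]
  refine tendsto_integral_of_dominated_convergence ((ball (0 : Sp N) R).indicator fun _ => 1)
    (fun k => ?_) ?_ (fun k => Eventually.of_forall fun x => ?_)
    (Eventually.of_forall fun x => ?_)
  · exact (((fl_lipC_ramp hw' ha (fl_th_pos k)).continuous.sub
      (fl_lipC_ramp hw ha (fl_th_pos k)).continuous).abs).aestronglyMeasurable
  · exact (integrable_indicator_iff measurableSet_ball).2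
      (integrableOn_const measure_ball_lt_top.ne)
  · rw [Real.norm_eq_abs, abs_abs]
    by_cases hx : x ∈ ball (0 : Sp N) R
    · rw [indicator_of_mem hx, abs_le]
      obtain ⟨h1, h2⟩ := fl_ramp_mem (a := a) (fl_th_pos k) (w x)
      obtain ⟨h3, h4⟩ := fl_ramp_mem (a := a) (fl_th_pos k) (w' x)
      constructor <;> linarith
    · have hR : R ≤ ‖x‖ := by simpa using hx
      rw [indicator_of_notMem hx, hw.2 x hR, hw'.2 x hR]
      simp
  · have h := ((fl_ramp_tendsto a w' x).sub (fl_ramp_tendsto a w x)).abs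
    convert h using 2
    by_cases h1 : a < w x <;> by_cases h2 : a < w' x <;>
      simp [indicator, mem_symmDiff, h1, h2]

/-- The calibration inequality for a ramp. -/
theorem fl_calib {κ : ℕ → Sp N → ℝ} {ψ : Sp N → ℝ} {σ j : ℝ} (hw : Data L R a₁ w) (ha : a₁ ≤ a)
    (hθ : 0 < θ) (hσ : θ ≤ σ) (hi : ∀ n, Integrable (κ n))
    (hcal : ∀ ψ : Sp N → ℝ, LipC ψ a → ∀ ε : ℝ, 0 < ε →
      ∀ᶠ n in atTop, tv (fun x => cl a (a + θ) (w x)) ≤
        tv ψ + (∫ x, |κ n x| * |ψ x - cl a (a + θ) (w x)|) + ε)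
    (hψ : LipC ψ 0) (h01 : ∀ x, 0 ≤ ψ x ∧ ψ x ≤ 1) (h1 : ∀ x, a + σ ≤ w x → ψ x = 1)
    (h0 : ∀ x, w x ≤ a - σ → ψ x = 0) (hb : ¬ Bad κ w a σ j) :
    tv (fun x => flRamp a θ (w x)) ≤ tv ψ + j := by
  have hψ' : LipC (fun x => θ * ψ x + a) a := by
    simpa using (hψ.const_mul θ).add (LipC.const a)
  have htv : tv (fun x => θ * ψ x + a) = θ * tv ψ := by
    rw [tv_add_const, tv_const_mul hψ, abs_of_pos hθ]
  have hms : MeasurableSet {x | |w x - a| < σ} :=
    (isOpen_lt (hw.1.continuous.sub continuous_const).abs continuous_const).measurableSet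
  have hint : ∀ n, ∫ x, |κ n x| * |θ * ψ x + a - cl a (a + θ) (w x)| ≤
      θ * ∫ x in {x | |w x - a| < σ}, |κ n x| := by
    intro n
    rw [← integral_indicator hms, ← integral_const_mul]
    refine integral_mono_of_nonneg (Eventually.of_forall fun x => by positivity)
      (((hi n).abs.indicator hms).const_mul θ) (Eventually.of_forall fun x => ?_)
    by_cases hx : |w x - a| < σ
    · simp only
      rw [indicator_of_mem (by exact hx), mul_comm θ |κ n x|]
      refine mul_le_mul_of_nonneg_left ?_ (abs_nonneg (κ n x))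
      obtain ⟨h2, h3⟩ := cl_mem (a := a) (b := a + θ) (by linarith) (w x)
      obtain ⟨h4, h5⟩ := h01 x
      have h6 : θ * ψ x ≤ θ := by nlinarith
      have h7 : 0 ≤ θ * ψ x := by positivity
      rw [abs_le]
      constructor <;> linarith
    · simp only
      rw [indicator_of_notMem (by exact hx)]
      have hx' : σ ≤ |w x - a| := not_lt.1 hx
      rcases le_abs'.1 hx' with h | h
      · rw [h0 x (by linarith), cl_of_le (by linarith) (by linarith)]
        simp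
      · rw [h1 x (by linarith), fl_cl_of_ge (by linarith) (by linarith)]
        have : θ * 1 + a - (a + θ) = 0 := by ring
        rw [this]
        simp
  rw [fl_tv_ramp hw ha hθ, inv_mul_le_iff₀ hθ]
  refine le_of_forall_pos_le_add fun ε hε => ?_
  have hfr : ∃ᶠ n in atTop, ∫ x in {x | |w x - a| < σ}, |κ n x| < j := by
    unfold Bad at hb
    rw [not_eventually] at hb
    exact hb.mono fun n hn => not_le.1 hn
  obtain ⟨n, hn1, hn2⟩ := (hfr.and_eventually (hcal _ hψ' ε hε)).exists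
  have h3 := hint n
  have h4 := mul_le_mul_of_nonneg_left hn1.le hθ.le
  rw [htv] at hn2
  linarith

theorem fl_tv_le {κ : ℕ → Sp N → ℝ} {B : ℝ} (hw : Data L R a₁ w) (ha : a₁ ≤ a)
    (hθ : 0 < θ) (hi : ∀ n, Integrable (κ n)) (hB : ∀ n, ∫ x, |κ n x| ≤ B)
    (hcal : ∀ ψ : Sp N → ℝ, LipC ψ a → ∀ ε : ℝ, 0 < ε →
      ∀ᶠ n in atTop, tv (fun x => cl a (a + θ) (w x)) ≤
        tv ψ + (∫ x, |κ n x| * |ψ x - cl a (a + θ) (w x)|) + ε) :
    tv (fun x => flRamp a θ (w x)) ≤ B := by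
  rw [fl_tv_ramp hw ha hθ, inv_mul_le_iff₀ hθ]
  refine le_of_forall_pos_le_add fun ε hε => ?_
  obtain ⟨n, hn⟩ := (hcal _ (LipC.const a) ε hε).exists
  rw [tv_const] at hn
  have hint : ∫ x, |κ n x| * |a - cl a (a + θ) (w x)| ≤ θ * ∫ x, |κ n x| := by
    rw [← integral_const_mul]
    refine integral_mono_of_nonneg (Eventually.of_forall fun x => by positivity)
      ((hi n).abs.const_mul θ) (Eventually.of_forall fun x => ?_)
    simp only
    rw [mul_comm θ]
    refine mul_le_mul_of_nonneg_left ?_ (abs_nonneg _)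
    obtain ⟨h2, h3⟩ := cl_mem (a := a) (b := a + θ) (by linarith) (w x)
    rw [abs_le]
    constructor <;> linarith
  have h4 := mul_le_mul_of_nonneg_left (hB n) hθ.le
  linarith

end

theorem exists_level {L : ℝ≥0} {R a₁ a₂ B C₀ c : ℝ} {v : ℝ → Sp N → ℝ}
    (hF : Flow L R a₁ a₂ B C₀ c v) (hc : 0 < c) {κ : ℝ → ℕ → Sp N → ℝ}
    (hκ : ∀ s, 0 ≤ s → (∀ n, Integrable (κ s n)) ∧ (∀ n, ∫ x, |κ s n x| ≤ B) ∧
      ∀ (a b : ℝ) (ψ : Sp N → ℝ), a₁ ≤ a → a < b → LipC ψ a → ∀ ε : ℝ, 0 < ε →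
        ∀ᶠ n in atTop, tv (fun x => cl a b (v s x)) ≤
          tv ψ + (∫ x, |κ s n x| * |ψ x - cl a b (v s x)|) + ε)
    {a : ℝ} (ha : a₁ ≤ a) :
    ∃ p : ℝ → ℝ, (∀ s, 0 ≤ s → 0 ≤ p s ∧ p s ≤ B) ∧
      (∀ s t lam : ℝ, 0 ≤ s → s ≤ t → 0 < lam →
        lam * volume.real ({x | a < v s x} ∆ {x | a < v t x}) + p t ≤
          C₀ * B * lam ^ 2 * (t - s) + p s) ∧
      (∀ s, 0 ≤ s → perim {x | a < v s x} ≤ ENNReal.ofReal (p s)) ∧
      (∀ s T σ ρ j : ℝ, 0 ≤ s → 0 ≤ T → 0 < σ → 0 < ρ → ¬ Bad (κ s) (v s) a σ j →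
        p s ≤ (perim {x | a < v T x}).toReal + j +
          (2 * N * c / ρ + 2 * ρ / σ) * volume.real ({x | a < v s x} ∆ {x | a < v T x})) := by
  have hcal : ∀ s, 0 ≤ s → ∀ k : ℕ, ∀ ψ : Sp N → ℝ, LipC ψ a → ∀ ε : ℝ, 0 < ε →
      ∀ᶠ n in atTop, tv (fun x => cl a (a + 1 / ((k : ℝ) + 1)) (v s x)) ≤
        tv ψ + (∫ x, |κ s n x| * |ψ x - cl a (a + 1 / ((k : ℝ) + 1)) (v s x)|) + ε :=
    fun s hs k ψ hψ ε hε => (hκ s hs).2.2 a _ ψ ha (by linarith [fl_th_pos k]) hψ ε hε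
  have hex : ∀ s, 0 ≤ s → ∃ p ∈ Icc 0 B, Tendsto
      (fun k : ℕ => tv fun x => flRamp a (1 / ((k : ℝ) + 1)) (v s x)) (hyperfilter ℕ) (𝓝 p) := by
    intro s hs
    refine isCompact_Icc.ultrafilter_le_nhds (Ultrafilter.map
      (fun k : ℕ => tv fun x => flRamp a (1 / ((k : ℝ) + 1)) (v s x)) (hyperfilter ℕ)) ?_
    rw [le_principal_iff, Ultrafilter.coe_map, mem_map]
    exact univ_mem' fun k => ⟨tv_nonneg _, fl_tv_le (hF.data s) ha (fl_th_pos k) (hκ s hs).1
      (hκ s hs).2.1 (hcal s hs k)⟩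
  choose! p hp hlim using hex
  have hper : ∀ s, 0 ≤ s → perim {x | a < v s x} ≤ ENNReal.ofReal (p s) := fun s hs =>
    perim_le_of_ramps (fl_meas (hF.data s) a) (fun k => fl_lipC_ramp (hF.data s) ha (fl_th_pos k))
      (fun k x => fl_ramp_mem (fl_th_pos k) _) (fl_ramp_tendsto a (v s))
      Nat.hyperfilter_le_atTop (hlim s hs)
  refine ⟨p, hp, fun s t lam hs hst hl => ?_, hper, fun s T σ ρ j hs hT hσ hρ hb => ?_⟩
  · have h1 := ((fl_sd_tendsto (hF.data s) (hF.data t) ha).mono_left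
      Nat.hyperfilter_le_atTop).const_mul lam
    refine le_of_tendsto_of_tendsto' (h1.add (hlim t (hs.trans hst)))
      ((hlim s hs).const_add (C₀ * B * lam ^ 2 * (t - s))) fun k => ?_
    have hθ := fl_th_pos k
    set θ : ℝ := 1 / ((k : ℝ) + 1) with hθd
    have h2 := hF.diss s t a (a + θ) lam hs hst ha (by linarith) hl
    have h3 : ∫ x, |flRamp a θ (v t x) - flRamp a θ (v s x)| =
        θ⁻¹ * ∫ x, |cl a (a + θ) (v t x) - cl a (a + θ) (v s x)| := by
      rw [← integral_const_mul]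
      refine integral_congr_ae (Eventually.of_forall fun x => ?_)
      simp only [flRamp]
      rw [← mul_sub, abs_mul, abs_of_pos (inv_pos.2 hθ)]
      congr 2
      ring
    rw [h3, fl_tv_ramp (hF.data s) ha hθ, fl_tv_ramp (hF.data t) ha hθ]
    have h4 := mul_le_mul_of_nonneg_left h2 (inv_pos.2 hθ).le
    have h5 : θ⁻¹ * (C₀ * lam ^ 2 * (t - s) * (B * (a + θ - a))) = C₀ * B * lam ^ 2 * (t - s) := by
      field_simp
      ring
    rw [mul_add, mul_add, h5] at h4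
    linarith
  · refine le_of_forall_pos_le_add fun γ hγ => ?_
    have hP : perim {x | a < v T x} ≠ ∞ := ne_top_of_le_ne_top ENNReal.ofReal_ne_top (hper T hT)
    obtain ⟨ψ, hψ, h01, h1, h0, htv⟩ := exists_competitor (a := a) (hF.data s).1 hc (hF.ncUp s hs)
      (hF.ncDown s hs) hσ hρ hγ (isBounded_ball.subset (fl_subset (hF.data s) ha))
      (fl_meas (hF.data T) a) (isBounded_ball.subset (fl_subset (hF.data T) ha)) hP
    have hev : ∀ᶠ k : ℕ in atTop, 1 / ((k : ℝ) + 1) < σ :=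
      tendsto_one_div_add_atTop_nhds_zero_nat.eventually (gt_mem_nhds hσ)
    refine le_of_tendsto (hlim s hs) ((hev.filter_mono Nat.hyperfilter_le_atTop).mono
      fun k hk => ?_)
    have := fl_calib (hF.data s) ha (fl_th_pos k) hk.le (hκ s hs).1 (hcal s hs k) hψ h01 h1 h0 hb
    linarith

end Pool.Agent.MCF5
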