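import Pool.Agent.Lib.MP_5aed36_gt.FLevel
import Pool.Agent.Lib.MP_5aed36_gt.FBad
import Pool.Agent.Lib.MP_5aed36_gt.FCont
import Pool.Agent.Lib.MP_5aed36_gt.FFat

open MeasureTheory Set Filter Topology Metric
open scoped ENNReal NNReal RealInnerProductSpace symmDiff

namespace Pool.Agent.MCF5

variable {N : ℕ}

/-- A uniform modulus from the volume estimate. -/
theorem fm_modulus {B C γ : ℝ} (hB : 0 ≤ B) (hC : 0 ≤ C) (hγ : 0 < γ) :
    ∃ r : ℝ, 0 < r ∧ ∀ D x y τ : ℝ, 0 ≤ τ → τ ≤ r → 0 ≤ y → x ≤ B →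
      (∀ lam : ℝ, 0 < lam → lam * D + y ≤ C * lam ^ 2 * τ + x) → D ≤ γ := by
  set lam : ℝ := 2 * (B + 1) / γ with hlam
  have hl : 0 < lam := by positivity
  refine ⟨1 / ((C + 1) * lam ^ 2), by positivity, fun D x y τ h0 hτ hy hx h => ?_⟩
  have h1 := h lam hl
  have h2 : C * lam ^ 2 * τ ≤ 1 := by
    have h3 : (C + 1) * lam ^ 2 * τ ≤ 1 := by
      rw [le_div_iff₀ (by positivity)] at hτ
      linarith
    have h4 : 0 ≤ lam ^ 2 * τ := by positivity
    nlinarith
  have h5 : lam * γ = 2 * (B + 1) := by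
    rw [hlam]
    field_simp
  have h6 : lam * D ≤ lam * γ := by linarith
  exact le_of_mul_le_mul_left h6 hl

theorem flow_ae {L : ℝ≥0} {R a₁ a₂ B C₀ c : ℝ} {v : ℝ → Sp N → ℝ}
    (hF : Flow L R a₁ a₂ B C₀ c v) (hc : 0 < c) (hB : 0 ≤ B) (hC : 0 ≤ C₀) :
    ∀ᵐ a : ℝ, a₁ < a → (∀ t, 0 ≤ t → volume {x | v t x = a} = 0) ∧
      (∀ t, 0 ≤ t → perim {x | a < v t x} ≠ ∞) ∧
      ContinuousOn (fun t => perim {x | a < v t x}) (Ici 0) := by
  choose! κ hκ using hF.calib
  have hmeas : ∀ s, Measurable (v s) := fun s => (hF.data s).1.continuous.measurable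
  have hfin : ∀ a, a₁ ≤ a → ∀ s, volume {x | a < v s x} ≠ ∞ := fun a ha s =>
    ne_top_of_le_ne_top measure_ball_lt_top.ne (measure_mono (fl_subset (hF.data s) ha))
  have hsd : ∀ a, a₁ ≤ a → ∀ s t, volume ({x | a < v s x} ∆ {x | a < v t x}) ≠ ∞ :=
    fun a ha s t => ne_top_of_le_ne_top (measure_union_ne_top (hfin a ha s) (hfin a ha t))
      (measure_mono symmDiff_subset_union)
  have hmod : ∀ γ : ℝ, 0 < γ → ∃ r : ℝ, 0 < r ∧ ∀ b s t : ℝ, a₁ ≤ b → 0 ≤ s → s ≤ t →
      t - s ≤ r → volume.real ({x | b < v s x} ∆ {x | b < v t x}) ≤ γ := by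
    intro γ hγ
    obtain ⟨r, hr, h⟩ := fm_modulus hB (mul_nonneg hC hB) hγ
    refine ⟨r, hr, fun b s t hb hs hst hts => ?_⟩
    obtain ⟨p, hp, hV, -, -⟩ := exists_level hF hc hκ hb
    exact h _ (p s) (p t) (t - s) (sub_nonneg.2 hst) hts (hp t (hs.trans hst)).1 (hp s hs).2
      fun lam hl => hV s t lam hs hst hl
  filter_upwards [ae_nofat hmeas (hfin a₁ le_rfl) hmod,
    ae_not_bad hmeas (fun s hs => (hκ s hs).1) (fun s hs => (hκ s hs).2.1)] with a hfat hgood ha
  obtain ⟨p, hp, hV, hP, hcomp⟩ := exists_level hF hc hκ ha.le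
  have hne : ∀ t, 0 ≤ t → perim {x | a < v t x} ≠ ∞ := fun t ht =>
    ne_top_of_le_ne_top ENNReal.ofReal_ne_top (hP t ht)
  refine ⟨hfat ha, hne, ?_⟩
  have hcont : ContinuousOn (fun t => (perim {x | a < v t x}).toReal) (Ici 0) := by
    refine continuousOn_of_level (p := p) (B := B) (C := C₀ * B) (K := 2 * N * c)
      (D := fun s t => volume.real ({x | a < v s x} ∆ {x | a < v t x})) (mul_nonneg hC hB)
      (by positivity) hp (fun s t => measureReal_nonneg) (fun s => by simp) (fun s t T => ?_) hV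
      (fun T r hT hr => ?_) (fun T₀ j hj => ?_)
    · refine (measureReal_mono (symmDiff_triangle _ {x | a < v t x} _)
        (measure_union_ne_top (hsd a ha.le s t) (hsd a ha.le t T))).trans ?_
      exact measureReal_union_le _ _
    · have hr0 : 0 ≤ r := (hp (T + 1) (by linarith)).1.trans (hr _ (by linarith))
      refine ENNReal.toReal_le_of_le_ofReal hr0 ?_
      refine perim_lsc (l := 𝓝[>] T) (A := fun t => {x | a < v t x})
        (fun t => fl_meas (hF.data t) a) (fl_meas (hF.data T) a) (fun t => hsd a ha.le t T) ?_ ?_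
      · rw [Metric.tendsto_nhds]
        intro γ hγ
        obtain ⟨r', hr', h⟩ := hmod (γ / 2) (half_pos hγ)
        filter_upwards [Ioo_mem_nhdsGT (show T < T + r' by linarith)] with t ht
        have h1 := h a T t ha.le hT ht.1.le (by linarith [ht.2])
        rw [symmDiff_comm] at h1
        rw [Real.dist_eq, sub_zero, abs_of_nonneg measureReal_nonneg]
        linarith
      · filter_upwards [self_mem_nhdsWithin] with t ht
        exact (hP t (hT.trans (le_of_lt ht))).trans (ENNReal.ofReal_le_ofReal (hr t ht))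
    · obtain ⟨k, hk, hfr⟩ := hgood T₀ j hj
      refine ⟨k, hk, (hfr.and_eventually (eventually_gt_atTop 0)).mono ?_⟩
      rintro m ⟨hm, hm0⟩ i hi T ρ hT hρ
      have hm' : (0 : ℝ) < m := Nat.cast_pos.2 hm0
      exact hcomp _ T (k / m) ρ j (by positivity) hT (by positivity) hρ (hm i hi)
  refine (ENNReal.continuous_ofReal.comp_continuousOn hcont).congr fun t ht => ?_
  exact (ENNReal.ofReal_toReal (hne t ht)).symm

end Pool.Agent.MCF5
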