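import Pool.Agent.Lib.MP_5aed36_gt.FTv

open MeasureTheory Set Filter Topology Metric
open scoped ENNReal NNReal RealInnerProductSpace symmDiff

namespace Pool.Agent.MCF5

variable {N : ℕ}

theorem ma_dvg_cont {φ : Sp N → Sp N} (hφ : ContDiff ℝ 1 φ) : Continuous (dvg φ) := by
  have h1 : Continuous (fderiv ℝ φ) := hφ.continuous_fderiv (by norm_num)
  unfold dvg
  refine continuous_finsetSum _ fun i _ => ?_
  have h2 : Continuous fun x => fderiv ℝ φ x (EuclideanSpace.single i 1) :=
    h1.clm_apply continuous_const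
  exact (EuclideanSpace.proj (𝕜 := ℝ) i).continuous.comp h2

theorem ma_dvg_supp {φ : Sp N → Sp N} (hc : HasCompactSupport φ) :
    HasCompactSupport (dvg φ) := by
  have h1 : HasCompactSupport (fderiv ℝ φ) := hc.fderiv ℝ
  have h2 := h1.comp_left
    (g := fun T : Sp N →L[ℝ] Sp N => ∑ i, T (EuclideanSpace.single i 1) i) (by simp)
  exact h2

theorem ma_dvg_shift (φ : Sp N → Sp N) (h y : Sp N) :
    dvg (fun z => φ (h + z)) y = dvg φ (h + y) := by
  unfold dvg
  rw [fderiv_comp_add_left]

theorem ma_inner_le {A : Set (Sp N)} (hP : perim A ≠ ∞) {φ : Sp N → Sp N}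
    (hφ : ContDiff ℝ 1 φ) (hc : HasCompactSupport φ) (h1 : ∀ x, ‖φ x‖ ≤ 1) (h : Sp N) :
    ∫ y in A, dvg φ (h + y) ≤ (perim A).toReal := by
  have e : (fun y => dvg φ (h + y)) = dvg (fun z => φ (h + z)) := by
    funext y
    rw [ma_dvg_shift]
  rw [e, ← ENNReal.ofReal_le_iff_le_toReal hP]
  have a1 : ContDiff ℝ 1 fun z => φ (h + z) := hφ.comp (contDiff_const.add contDiff_id)
  have a2 : HasCompactSupport fun z => φ (h + z) :=
    hc.comp_homeomorph (Homeomorph.addLeft h)
  have a3 : ∀ x, ‖(fun z => φ (h + z)) x‖ ≤ 1 := fun x => h1 _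
  unfold perim
  exact le_iSup_of_le (fun z => φ (h + z)) (le_iSup_of_le a1 (le_iSup_of_le a2
    (le_iSup_of_le a3 le_rfl)))

theorem ma_int_prod {ν : Measure (Sp N)} [IsFiniteMeasure ν] {u : Sp N → ℝ} (hu : Integrable u)
    {w : Sp N × Sp N → ℝ} (hw : Continuous w) {C : ℝ} (hC : ∀ p, ‖w p‖ ≤ C) :
    Integrable (fun p : Sp N × Sp N => w p * u p.1) ((volume : Measure (Sp N)).prod ν) := by
  have h1 : Integrable (fun p : Sp N × Sp N => u p.1 * (1 : ℝ))
      ((volume : Measure (Sp N)).prod ν) :=
    Integrable.mul_prod (g := fun _ => (1 : ℝ)) hu (integrable_const _)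
  simp only [mul_one] at h1
  exact h1.bdd_mul hw.aestronglyMeasurable (Eventually.of_forall hC)

theorem ma_swap {A : Set (Sp N)} (hA : volume A < ∞) {f D : Sp N → ℝ} (hf : Continuous f)
    (hfc : HasCompactSupport f) (hD : Continuous D) (hDc : HasCompactSupport D) :
    ∫ x, (∫ y in A, f (x - y)) * D x = ∫ h, f h * ∫ y in A, D (h + y) := by
  have : IsFiniteMeasure ((volume : Measure (Sp N)).restrict A) :=
    isFiniteMeasure_restrict.mpr hA.ne
  obtain ⟨C, hC⟩ := hf.bounded_above_of_compact_support hfc
  obtain ⟨C', hC'⟩ := hD.bounded_above_of_compact_support hDc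
  have hfi : Integrable f := hf.integrable_of_hasCompactSupport hfc
  have hDi : Integrable D := hD.integrable_of_hasCompactSupport hDc
  have i1 : Integrable (fun p : Sp N × Sp N => f (p.1 - p.2) * D p.1)
      ((volume : Measure (Sp N)).prod (volume.restrict A)) :=
    ma_int_prod hDi (w := fun p => f (p.1 - p.2)) (hf.comp (continuous_fst.sub continuous_snd))
      (fun p => hC _)
  have i2 : Integrable (fun p : Sp N × Sp N => D (p.1 + p.2) * f p.1)
      ((volume : Measure (Sp N)).prod (volume.restrict A)) :=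
    ma_int_prod hfi (w := fun p => D (p.1 + p.2)) (hD.comp (continuous_fst.add continuous_snd))
      (fun p => hC' _)
  calc ∫ x, (∫ y in A, f (x - y)) * D x
      = ∫ x, ∫ y in A, f (x - y) * D x := by
        refine integral_congr_ae (Eventually.of_forall fun x => ?_)
        exact (integral_mul_const _ _).symm
    _ = ∫ y in A, ∫ x, f (x - y) * D x :=
        integral_integral_swap (f := fun x y => f (x - y) * D x) i1
    _ = ∫ y in A, ∫ h, D (h + y) * f h := by
        refine integral_congr_ae (Eventually.of_forall fun y => ?_)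
        have := integral_add_right_eq_self (μ := (volume : Measure (Sp N)))
          (fun x => f (x - y) * D x) y
        simp only [add_sub_cancel_right] at this
        beta_reduce
        rw [← this]
        refine integral_congr_ae (Eventually.of_forall fun h => ?_)
        exact mul_comm _ _
    _ = ∫ h, ∫ y in A, D (h + y) * f h :=
        (integral_integral_swap (f := fun h y => D (h + y) * f h) i2).symm
    _ = ∫ h, f h * ∫ y in A, D (h + y) := by
        refine integral_congr_ae (Eventually.of_forall fun h => ?_)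
        beta_reduce
        rw [integral_mul_const, mul_comm]

theorem ma_lipC {A : Set (Sp N)} (hb : Bornology.IsBounded A) (ρ : ContDiffBump (0 : Sp N)) :
    LipC (fun x => ∫ y in A, ρ.normed volume (x - y)) 0 := by
  have hAv : volume A < ∞ := hb.measure_lt_top
  have hi : ∀ x : Sp N, IntegrableOn (fun y => ρ.normed volume (x - y)) A := fun x =>
    (ρ.integrable_normed.comp_sub_left x).integrableOn
  constructor
  · obtain ⟨K, hK⟩ := (ρ.contDiff_normed (μ := volume) (n := 1)).lipschitzWith_of_hasCompactSupport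
      ρ.hasCompactSupport_normed (by norm_num)
    refine ⟨K * (volume A).toNNReal, LipschitzWith.of_dist_le_mul fun x z => ?_⟩
    rw [dist_eq_norm, ← integral_sub (hi x) (hi z)]
    have h1 : ∀ y ∈ A, ‖ρ.normed volume (x - y) - ρ.normed volume (z - y)‖ ≤ K * dist x z := by
      intro y _
      have := hK.dist_le_mul (x - y) (z - y)
      rwa [dist_sub_right, dist_eq_norm] at this
    have h2 := norm_setIntegral_le_of_norm_le_const hAv h1
    refine h2.trans (le_of_eq ?_)
    simp only [NNReal.coe_mul, Measure.real, ENNReal.toReal]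
    ring
  · obtain ⟨R, hR⟩ := hb.subset_closedBall (0 : Sp N)
    refine ⟨R + ρ.rOut, fun x hx => ?_⟩
    refine setIntegral_eq_zero_of_forall_eq_zero fun y hy => ?_
    have h1 : ‖y‖ ≤ R := by simpa using hR hy
    have h2 : x - y ∉ Function.support (ρ.normed volume) := by
      rw [ρ.support_normed_eq, mem_ball_zero_iff, not_lt]
      have := norm_sub_norm_le x y
      linarith
    simpa using h2

theorem moll_tv {A : Set (Sp N)} (hA : MeasurableSet A) (hb : Bornology.IsBounded A)
    (hP : perim A ≠ ∞) (ρ : ContDiffBump (0 : Sp N)) :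
    LipC (fun x => ∫ y in A, ρ.normed volume (x - y)) 0 ∧
      (∀ x, 0 ≤ ∫ y in A, ρ.normed volume (x - y) ∧ ∫ y in A, ρ.normed volume (x - y) ≤ 1) ∧
      tv (fun x => ∫ y in A, ρ.normed volume (x - y)) ≤ (perim A).toReal := by
  have hAv : volume A < ∞ := hb.measure_lt_top
  refine ⟨ma_lipC hb ρ, fun x => ⟨?_, ?_⟩, ?_⟩
  · exact setIntegral_nonneg hA fun y _ => ρ.nonneg_normed _
  · have h1 : ∫ y in A, ρ.normed volume (x - y) ≤ ∫ y, ρ.normed volume (x - y) :=
      setIntegral_le_integral (ρ.integrable_normed.comp_sub_left x)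
        (Eventually.of_forall fun y => ρ.nonneg_normed _)
    rw [integral_sub_left_eq_self (ρ.normed volume) volume x, ρ.integral_normed] at h1
    exact h1
  · refine tv_le_of_forall_field (ma_lipC hb ρ) fun φ hφ hc h1 => ?_
    rw [ma_swap hAv ρ.continuous_normed ρ.hasCompactSupport_normed (ma_dvg_cont hφ)
      (ma_dvg_supp hc)]
    have hP0 : 0 ≤ (perim A).toReal := ENNReal.toReal_nonneg
    by_cases hI : Integrable fun h => ρ.normed volume h * ∫ y in A, dvg φ (h + y)
    · calc ∫ h, ρ.normed volume h * ∫ y in A, dvg φ (h + y)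
          ≤ ∫ h, ρ.normed volume h * (perim A).toReal := by
            refine integral_mono hI (ρ.integrable_normed.mul_const _) fun h => ?_
            exact mul_le_mul_of_nonneg_left (ma_inner_le hP hφ hc h1 h) (ρ.nonneg_normed _)
        _ = (perim A).toReal := by
            rw [integral_mul_const, ρ.integral_normed, one_mul]
    · rw [integral_undef hI]
      exact hP0

end Pool.Agent.MCF5
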