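import Pool.Agent.Lib.MP_5aed36_gt.FDefs
import Pool.Agent.Lib.MP_5aed36_gt.A2
import Pool.Agent.Lib.MP_5aed36_gt.A4

open MeasureTheory Set Filter Topology Metric
open scoped ENNReal NNReal RealInnerProductSpace symmDiff

namespace Pool.Agent.MCF5

variable {N : ℕ}

theorem LipC.integrable_norm_fderiv {f : Sp N → ℝ} {c : ℝ} (hf : LipC f c) :
    Integrable fun x => ‖fderiv ℝ f x‖ := hf.integrable_fderiv

theorem integral_mul_dvg {f : Sp N → ℝ} (hf : LipC f 0) {φ : Sp N → Sp N} (hφ : ContDiff ℝ 1 φ)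
    (hc : HasCompactSupport φ) : ∫ x, f x * dvg φ x = -∫ x, fderiv ℝ f x (φ x) := by
  obtain ⟨K, hK⟩ := hφ.lipschitzWith_of_hasCompactSupport hc one_ne_zero
  rw [ibp hf hK, neg_neg]

theorem tv_le_of_forall_field {f : Sp N → ℝ} (hf : LipC f 0) {p : ℝ}
    (h : ∀ φ : Sp N → Sp N, ContDiff ℝ 1 φ → HasCompactSupport φ → (∀ x, ‖φ x‖ ≤ 1) →
      ∫ x, f x * dvg φ x ≤ p) : tv f ≤ p := by
  refine le_of_forall_pos_le_add fun ε hε => ?_
  obtain ⟨Y, h1, h2, h3, h4⟩ := exists_field hf hε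
  have := h Y h1 h2 h3
  simp only [sub_zero] at h4
  linarith

theorem field_lemma {q φ : Sp N → ℝ} {K : ℝ≥0} (hq : LipschitzWith K q)
    (h2 : ∀ x k, q (x + k) + q (x - k) - 2 * q x ≤ ‖k‖ ^ 2) (hφ : LipC φ 0) (h0 : ∀ x, 0 ≤ φ x) :
    -∫ x, fderiv ℝ φ x (gradient q x) ≤ N * ∫ x, φ x := by
  have := field_le (a := fun _ => 1) hq continuous_const (by simpa using h2) hφ h0
  simpa using this

end Pool.Agent.MCF5
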