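import Pool.Agent.Lib.MP_5aed36_gt.FHuber

open MeasureTheory Set Filter Topology Metric
open scoped ENNReal NNReal RealInnerProductSpace symmDiff

namespace Pool.Agent.MCF5

variable {N : ℕ}

theorem fu_deriv_le {v : Sp N → ℝ} {c : ℝ} (hc : 0 < c) (hnc : NC c v) {x y : Sp N}
    (hd : DifferentiableAt ℝ v x) (hxy : v y ≤ v x) :
    fderiv ℝ v x (y - x) ≤ c * ‖y - x‖ ^ 2 := by
  have h1 : HasDerivAt (fun θ : ℝ => x + θ • (y - x)) (y - x) 0 := by
    simpa using ((hasDerivAt_id (0 : ℝ)).smul_const (y - x)).const_add x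
  have h2 : HasFDerivAt v (fderiv ℝ v x) (x + (0 : ℝ) • (y - x)) := by
    simpa using hd.hasFDerivAt
  have h3 : HasDerivAt (fun θ : ℝ => v (x + θ • (y - x))) (fderiv ℝ v x (y - x)) 0 :=
    h2.comp_hasDerivAt (0 : ℝ) h1
  have h4 := h3.tendsto_slope_zero_right
  refine le_of_tendsto h4 ?_
  filter_upwards [Ioo_mem_nhdsGT (zero_lt_one' ℝ)] with θ hθ
  have h5 := hnc x y θ hθ.1.le hθ.2.le
  rw [max_eq_left hxy] at h5
  simp only [zero_add, zero_smul, add_zero, smul_eq_mul]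
  rw [inv_mul_le_iff₀ hθ.1]
  have h6 : 0 ≤ c * (θ * θ) * ‖y - x‖ ^ 2 := by
    have := hθ.1
    positivity
  nlinarith

theorem ball_subset_of_nc {v : Sp N → ℝ} {c ρ : ℝ} (hc : 0 < c) (hρ : 0 < ρ) (hnc : NC c v)
    {x : Sp N} (hd : DifferentiableAt ℝ v x) (hx : ρ ≤ ‖fderiv ℝ v x‖) :
    ∃ z, dist x z = ρ / (2 * c) ∧ ∀ y ∈ ball z (ρ / (2 * c)), v x < v y := by
  obtain ⟨g, hg, hgn⟩ : ∃ g : Sp N, (∀ d, ⟪g, d⟫ = fderiv ℝ v x d) ∧ ‖g‖ = ‖fderiv ℝ v x‖ :=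
    ⟨(InnerProductSpace.toDual ℝ (Sp N)).symm (fderiv ℝ v x),
      fun d => InnerProductSpace.toDual_symm_apply, LinearIsometryEquiv.norm_map _ _⟩
  rw [← hgn] at hx
  have hg0 : 0 < ‖g‖ := hρ.trans_le hx
  set R := ρ / (2 * c) with hR
  have hR0 : 0 < R := by positivity
  have hn : ‖(R / ‖g‖) • g‖ = R := by
    rw [norm_smul, Real.norm_of_nonneg (by positivity)]
    field_simp
  refine ⟨x + (R / ‖g‖) • g, ?_, fun y hy => ?_⟩
  · rw [dist_self_add_right, hn]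
  · by_contra hle
    have hle : v y ≤ v x := not_lt.1 hle
    have h1 := fu_deriv_le hc hnc hd hle
    rw [← hg] at h1
    have h2 : ‖(y - x) - (R / ‖g‖) • g‖ < R := by
      rw [mem_ball, dist_eq_norm, ← sub_sub] at hy
      exact hy
    have h3 : ‖(y - x) - (R / ‖g‖) • g‖ ^ 2 < R ^ 2 := by gcongr
    rw [norm_sub_sq_real, hn, real_inner_smul_right, real_inner_comm] at h3
    set p := ⟪g, y - x⟫ with hp
    set q := ‖y - x‖ ^ 2 with hq
    have hq0 : 0 ≤ q := by positivity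
    have h4 : q < 2 * (R / ‖g‖ * p) := by linarith
    have h5 : 2 * (R / ‖g‖ * p) ≤ 2 * (R / ‖g‖ * (c * q)) := by gcongr
    have h6 : 2 * (R / ‖g‖ * (c * q)) = ρ / ‖g‖ * q := by
      rw [hR]
      field_simp
    have h7 : ρ / ‖g‖ ≤ 1 := (div_le_one hg0).2 hx
    nlinarith

theorem fu_tv_max {f g : Sp N → ℝ} {c₀ : ℝ} {K : ℝ≥0} (hf : LipC f c₀) (hg : LipschitzWith K g)
    (hb : Bornology.IsBounded {x | f x < g x}) :
    LipC (fun x => max (f x) (g x)) c₀ ∧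
      tv (fun x => max (f x) (g x)) + (∫ x in {x | f x < g x}, ‖fderiv ℝ f x‖) =
        tv f + ∫ x in {x | f x < g x}, ‖fderiv ℝ g x‖ := by
  obtain ⟨⟨K', hK'⟩, R, hR⟩ := id hf
  have hm : LipschitzWith (max K' K) fun x => max (f x) (g x) := hK'.max hg
  have hL : LipC (fun x => max (f x) (g x)) c₀ := by
    refine ⟨⟨_, hm⟩, ?_⟩
    obtain ⟨R', hR'⟩ := hb.subset_ball 0
    refine ⟨max R R', fun x hx => ?_⟩
    have h1 : ¬ f x < g x := fun h => by
      have := hR' h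
      rw [mem_ball_zero_iff] at this
      exact absurd ((le_max_right _ _).trans hx) (not_le.2 this)
    show max (f x) (g x) = c₀
    rw [max_eq_left (not_lt.1 h1), hR x ((le_max_left _ _).trans hx)]
  refine ⟨hL, ?_⟩
  have hU : MeasurableSet {x | f x < g x} :=
    (isOpen_lt hK'.continuous hg.continuous).measurableSet
  have e1 := integral_add_compl hU hL.integrable_norm_fderiv
  have e2 := integral_add_compl hU hf.integrable_norm_fderiv
  have e3 : ∫ x in {x | f x < g x}, ‖fderiv ℝ (fun x => max (f x) (g x)) x‖ =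
      ∫ x in {x | f x < g x}, ‖fderiv ℝ g x‖ := by
    refine setIntegral_congr_ae hU ?_
    filter_upwards [ae_fderiv_eq_of_eq hm hg] with x hx hxU
    rw [hx (max_eq_right (le_of_lt hxU))]
  have e4 : ∫ x in {x | f x < g x}ᶜ, ‖fderiv ℝ (fun x => max (f x) (g x)) x‖ =
      ∫ x in {x | f x < g x}ᶜ, ‖fderiv ℝ f x‖ := by
    refine setIntegral_congr_ae hU.compl ?_
    filter_upwards [ae_fderiv_eq_of_eq hm hK'] with x hx hxU
    rw [hx (max_eq_left (not_lt.1 hxU))]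
  unfold tv
  linarith

theorem fu_omega {v : Sp N → ℝ} {L : ℝ≥0} {c a σ ρ : ℝ} (hv : LipschitzWith L v)
    (hc : 0 < c) (hnc : NC c v) (hσ : 0 < σ) (hρ : 0 < ρ) :
    ∃ (ω : Sp N → ℝ) (K : ℝ≥0), LipschitzWith K ω ∧ (∀ x, 0 ≤ ω x ∧ ω x ≤ 1) ∧
      (∀ x, 0 < ω x → a < v x) ∧
      (∀ x, DifferentiableAt ℝ v x → a + σ / 2 ≤ v x → ρ ≤ ‖fderiv ℝ v x‖ → ω x = 1) ∧
      ∀ (ψ : Sp N → ℝ) (K' : ℝ≥0), LipschitzWith K' ψ → Bornology.IsBounded {x | ψ x < ω x} →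
        ∫ x in {x | ψ x < ω x}, ‖fderiv ℝ ω x‖ ≤
          (∫ x in {x | ψ x < ω x}, ‖fderiv ℝ ψ x‖) +
            2 * N * c / ρ * ∫ x, max (ω x - ψ x) 0 := by
  set R := ρ / (2 * c) with hR
  have hR0 : 0 < R := by positivity
  set S : Set (Sp N) := {z | ∀ y ∈ ball z R, a + σ / 2 ≤ v y} with hS
  have key : ∀ x, DifferentiableAt ℝ v x → a + σ / 2 ≤ v x → ρ ≤ ‖fderiv ℝ v x‖ →
      ∃ z ∈ S, dist x z = R := by
    intro x hd h1 h2
    obtain ⟨z, hz, hz'⟩ := ball_subset_of_nc hc hρ hnc hd h2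
    exact ⟨z, fun y hy => h1.trans (hz' y hy).le, hz⟩
  rcases S.eq_empty_or_nonempty with hE | hE
  · refine ⟨fun _ => 0, 0, LipschitzWith.const 0, fun x => ⟨le_rfl, zero_le_one⟩,
      fun x hx => absurd hx (lt_irrefl _), fun x hd h1 h2 => ?_, fun ψ K' _ _ => ?_⟩
    · obtain ⟨z, hz, -⟩ := key x hd h1 h2
      rw [hE] at hz
      exact absurd hz (notMem_empty z)
    · have h1 : 0 ≤ ∫ x in {x | ψ x < 0}, ‖fderiv ℝ ψ x‖ :=
        integral_nonneg fun x => norm_nonneg _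
      have h2 : 0 ≤ ∫ x, max (0 - ψ x) 0 := integral_nonneg fun x => le_max_right _ _
      have h3 : 0 ≤ 2 * N * c / ρ * ∫ x, max (0 - ψ x) 0 := by positivity
      have h4 : ∫ x in {x | ψ x < 0}, ‖fderiv ℝ (fun _ : Sp N => (0 : ℝ)) x‖ = 0 := by simp
      show ∫ x in {x | ψ x < 0}, ‖fderiv ℝ (fun _ : Sp N => (0 : ℝ)) x‖ ≤
        (∫ x in {x | ψ x < 0}, ‖fderiv ℝ ψ x‖) + 2 * N * c / ρ * ∫ x, max (0 - ψ x) 0
      linarith
  · have hL : (0 : ℝ) ≤ L := L.2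
    have hδ : 0 < σ / (4 * (L + 1)) := by positivity
    obtain ⟨ω, K, h1, h2, h3, h4, h5⟩ := exists_huber hE hR0 hδ
    refine ⟨ω, K, h1, h2, fun x hx => ?_, fun x hd h6 h7 => ?_, fun ψ K' h6 h7 => ?_⟩
    · have h6 : infDist x S < R + σ / (4 * (L + 1)) := by
        by_contra h
        exact hx.ne' (h4 x (not_lt.1 h))
      obtain ⟨z, hz, hxz⟩ := (infDist_lt_iff hE).1 h6
      obtain ⟨y, hy1, hy2⟩ := exists_dist_lt_lt hδ hR0 hxz
      have h7 := hz y hy2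
      have h8 := hv.dist_le_mul x y
      rw [Real.dist_eq] at h8
      have h9 : (L : ℝ) * dist x y ≤ (L + 1) * (σ / (4 * (L + 1))) := by
        gcongr
        linarith
      have h10 : ((L : ℝ) + 1) * (σ / (4 * (L + 1))) = σ / 4 := by field_simp
      have h11 := neg_abs_le (v x - v y)
      linarith
    · obtain ⟨z, hz, hxz⟩ := key x hd h6 h7
      exact h3 x ((infDist_le_dist_of_mem hz).trans hxz.le)
    · have h8 : (N : ℝ) / R = 2 * N * c / ρ := by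
        rw [hR]
        field_simp
      rw [← h8]
      exact h5 ψ K' h6 h7

theorem fu_ramp {v : Sp N → ℝ} {L : ℝ≥0} {a σ : ℝ} (hv : LipschitzWith L v) (hσ : 0 < σ) :
    ∃ (W : Sp N → ℝ) (K : ℝ≥0), LipschitzWith K W ∧ (∀ x, 0 ≤ W x ∧ W x ≤ 1) ∧
      (∀ x, 0 < W x → a + σ / 2 < v x) ∧ (∀ x, a + σ ≤ v x → W x = 1) ∧
      ∀ᵐ x, DifferentiableAt ℝ v x ∧ ‖fderiv ℝ W x‖ ≤ 2 / σ * ‖fderiv ℝ v x‖ := by
  have h2σ : 0 < 2 / σ := by positivity
  have hl : LipschitzWith (Real.toNNReal (2 / σ) * L) fun x => 2 / σ * (v x - (a + σ / 2)) := by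
    refine LipschitzWith.of_dist_le_mul fun x y => ?_
    have h1 := hv.dist_le_mul x y
    rw [Real.dist_eq] at h1 ⊢
    rw [← mul_sub, abs_mul, abs_of_pos h2σ]
    have h2 : v x - (a + σ / 2) - (v y - (a + σ / 2)) = v x - v y := by ring
    rw [h2]
    rw [NNReal.coe_mul, Real.coe_toNNReal _ h2σ.le, mul_assoc]
    gcongr
  have hW := (hl.min_const 1).const_max 0
  refine ⟨fun x => max 0 (min (2 / σ * (v x - (a + σ / 2))) 1), _, hW,
    fun x => ⟨le_max_left _ _, max_le zero_le_one (min_le_right _ _)⟩, fun x hx => ?_,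
    fun x hx => ?_, ?_⟩
  · have h1 : 0 < 2 / σ * (v x - (a + σ / 2)) := by
      rcases lt_max_iff.1 hx with h | h
      · exact absurd h (lt_irrefl _)
      · exact h.trans_le (min_le_left _ _)
    have h2 := (mul_pos_iff_of_pos_left h2σ).1 h1
    linarith
  · have h1 : 1 ≤ 2 / σ * (v x - (a + σ / 2)) := by
      rw [div_mul_eq_mul_div, le_div_iff₀ hσ]
      linarith
    show max 0 (min (2 / σ * (v x - (a + σ / 2))) 1) = 1
    rw [min_eq_right h1, max_eq_right zero_le_one]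
  · filter_upwards [hv.ae_differentiableAt, ae_fderiv_eq_of_eq hW hl,
      ae_fderiv_eq_of_eq hW (LipschitzWith.const (α := Sp N) (0 : ℝ)),
      ae_fderiv_eq_of_eq hW (LipschitzWith.const (α := Sp N) (1 : ℝ))] with x hd h1 h2 h3
    refine ⟨hd, ?_⟩
    have h0 : 0 ≤ 2 / σ * ‖fderiv ℝ v x‖ := by positivity
    rcases le_total (2 / σ * (v x - (a + σ / 2))) 0 with h | h
    · rw [h2 (max_eq_left ((min_le_left _ _).trans h))]
      simpa using h0
    · rcases le_total (2 / σ * (v x - (a + σ / 2))) 1 with h' | h'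
      · rw [h1 (by rw [min_eq_left h', max_eq_right h])]
        have h4 : HasFDerivAt (fun x => 2 / σ * (v x - (a + σ / 2))) ((2 / σ) • fderiv ℝ v x) x :=
          (hd.hasFDerivAt.sub_const _).const_mul _
        rw [h4.fderiv, norm_smul, Real.norm_of_nonneg h2σ.le]
      · rw [h3 (by rw [min_eq_right h', max_eq_right zero_le_one])]
        simpa using h0

theorem up_modify {v ψ : Sp N → ℝ} {L : ℝ≥0} {c a σ ρ c₀ : ℝ} (hv : LipschitzWith L v)
    (hc : 0 < c) (hnc : NC c v) (hσ : 0 < σ) (hρ : 0 < ρ) (hψ : LipC ψ c₀)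
    (h01 : ∀ x, 0 ≤ ψ x ∧ ψ x ≤ 1) (hb : Bornology.IsBounded {x | a < v x ∧ ψ x < 1}) :
    ∃ ψ' : Sp N → ℝ, LipC ψ' c₀ ∧ (∀ x, 0 ≤ ψ' x ∧ ψ' x ≤ 1) ∧
      (∀ x, a + σ ≤ v x → ψ' x = 1) ∧ (∀ x, ¬ (a < v x ∧ ψ x < 1) → ψ' x = ψ x) ∧
      tv ψ' ≤ tv ψ + (2 * N * c / ρ + 2 * ρ / σ) * volume.real {x | a < v x ∧ ψ x < 1} := by
  obtain ⟨ω, K, ω1, ω2, ω3, ω4, ω5⟩ := fu_omega (a := a) hv hc hnc hσ hρ
  obtain ⟨W, K₂, W1, W2, W3, W4, W5⟩ := fu_ramp (a := a) hv hσ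
  obtain ⟨⟨K', hK'⟩, -⟩ := id hψ
  set Ω : Set (Sp N) := {x | a < v x ∧ ψ x < 1} with hΩ
  have hΩm : MeasurableSet Ω :=
    ((isOpen_lt continuous_const hv.continuous).inter
      (isOpen_lt hK'.continuous continuous_const)).measurableSet
  have hΩf : volume Ω ≠ ∞ := hb.measure_lt_top.ne
  have s1 : {x | ψ x < ω x} ⊆ Ω := fun x hx =>
    ⟨ω3 x ((h01 x).1.trans_lt hx), lt_of_lt_of_le hx (ω2 x).2⟩
  obtain ⟨L1, T1⟩ := fu_tv_max hψ ω1 (hb.subset s1)
  have s2 : {x | max (ψ x) (ω x) < W x} ⊆ Ω := fun x hx => by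
    have h1 : ψ x < W x := (le_max_left _ _).trans_lt hx
    have h2 := W3 x ((h01 x).1.trans_lt h1)
    exact ⟨by linarith, h1.trans_le (W2 x).2⟩
  obtain ⟨L2, T2⟩ := fu_tv_max L1 W1 (hb.subset s2)
  have m1 : ∀ x, max (ψ x) (ω x) ≤ 1 := fun x => max_le (h01 x).2 (ω2 x).2
  refine ⟨fun x => max (max (ψ x) (ω x)) (W x), L2,
    fun x => ⟨(W2 x).1.trans (le_max_right _ _), max_le (m1 x) (W2 x).2⟩,
    fun x hx => ?_, fun x hx => ?_, ?_⟩
  · show max (max (ψ x) (ω x)) (W x) = 1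
    rw [W4 x hx, max_eq_right (m1 x)]
  · show max (max (ψ x) (ω x)) (W x) = ψ x
    rw [max_eq_left (not_lt.1 fun h => hx (s2 h)), max_eq_left (not_lt.1 fun h => hx (s1 h))]
  · have b1 := ω5 ψ K' hK' (hb.subset s1)
    have b2 : ∫ x, max (ω x - ψ x) 0 ≤ volume.real Ω := by
      rw [← integral_indicator_one hΩm]
      refine integral_mono_of_nonneg (Eventually.of_forall fun x => le_max_right _ _)
        ((integrable_indicator_iff hΩm).2 (integrableOn_const hΩf))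
        (Eventually.of_forall fun x => ?_)
      by_cases hx : x ∈ Ω
      · rw [indicator_of_mem hx]
        exact max_le (by linarith [(ω2 x).2, (h01 x).1, Pi.one_apply (M := fun _ => ℝ) x])
          zero_le_one
      · rw [indicator_of_notMem hx]
        exact max_le (sub_nonpos.2 (not_lt.1 fun h => hx (s1 h))) le_rfl
    have b3 : 2 * N * c / ρ * ∫ x, max (ω x - ψ x) 0 ≤ 2 * N * c / ρ * volume.real Ω := by
      gcongr
    obtain ⟨⟨K₁, hK₁⟩, -⟩ := id L1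
    have hU : MeasurableSet {x | max (ψ x) (ω x) < W x} :=
      (isOpen_lt hK₁.continuous W1.continuous).measurableSet
    have hUf : volume {x | max (ψ x) (ω x) < W x} ≠ ∞ := (hb.subset s2).measure_lt_top.ne
    have b4 : ∫ x in {x | max (ψ x) (ω x) < W x}, ‖fderiv ℝ W x‖ ≤
        ∫ _ in {x | max (ψ x) (ω x) < W x}, 2 * ρ / σ := by
      refine integral_mono_of_nonneg (Eventually.of_forall fun x => norm_nonneg _)
        (integrableOn_const hUf) ((ae_restrict_iff' hU).2 ?_)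
      filter_upwards [W5] with x hx hxU
      have h1 : ψ x < W x := (le_max_left _ _).trans_lt hxU
      have h2 := W3 x ((h01 x).1.trans_lt h1)
      have h3 : ‖fderiv ℝ v x‖ ≤ ρ := by
        by_contra h
        have h4 := ω4 x hx.1 h2.le (not_le.1 h).le
        have h5 : ω x < W x := (le_max_right _ _).trans_lt hxU
        linarith [(W2 x).2]
      calc ‖fderiv ℝ W x‖ ≤ 2 / σ * ‖fderiv ℝ v x‖ := hx.2
        _ ≤ 2 / σ * ρ := by gcongr
        _ = 2 * ρ / σ := by ring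
    rw [setIntegral_const, smul_eq_mul] at b4
    have b5 : volume.real {x | max (ψ x) (ω x) < W x} * (2 * ρ / σ) ≤
        volume.real Ω * (2 * ρ / σ) :=
      mul_le_mul_of_nonneg_right (measureReal_mono s2 hΩf) (by positivity)
    have b6 : 0 ≤ ∫ x in {x | max (ψ x) (ω x) < W x},
        ‖fderiv ℝ (fun x => max (ψ x) (ω x)) x‖ := integral_nonneg fun x => norm_nonneg _
    linarith

end Pool.Agent.MCF5
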