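import Pool.Agent.Lib.MP_5aed36_gt.Bridge
import Pool.Agent.Lib.MP_5aed36_gt.FMain
import Pool.Agent.Lib.MP_5aed36_gt.E2

/-! The conclusion on one window of regular levels. -/

open MeasureTheory Set Filter Topology Metric
open scoped ENNReal NNReal RealInnerProductSpace

namespace Pool.Agent.MCF5

open Pool.Agent.LevelSetFlow

variable {N : ℕ}

theorem window_ae (hN : 0 < N) {u : Zs N → ℝ} {R c a₁ a₂ : ℝ} (hu : IsWeakSolution u)
    (hout : ∀ x t, 0 ≤ t → R ≤ ‖x‖ → u (x, t) = c) (hg : ContDiff ℝ 2 fun x => u (x, 0))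
    (hc : c < a₁) (ha : a₁ < a₂)
    (hreg : ∀ x, a₁ ≤ u (x, 0) → u (x, 0) ≤ a₂ → fderiv ℝ (fun y => u (y, 0)) x ≠ 0) :
    ∀ᵐ a : ℝ, a₁ < a → a < a₂ → (∀ t, 0 ≤ t → volume {x | u (x, t) = a} = 0) ∧
      (∀ t, 0 ≤ t → perimeter {x | a < u (x, t)} < ⊤) ∧
      ContinuousOn (fun t => perimeter {x | a < u (x, t)}) (Ici 0) := by
  obtain ⟨M, hM⟩ := nice_extT hu hout
  obtain ⟨L, B, C₀, c', hB, hC, hc', hF⟩ := exists_flow (g := fun x => u (x, 0)) hN hM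
    (sub_extT hu.sub) (sub_neg_extT hu.super) (fun z hz => extT_of_nonpos u z.1 hz) hg hc ha hreg
  filter_upwards [flow_ae hF hc' hB hC] with a hA h1 h2
  obtain ⟨k1, k2, k3⟩ := hA h1
  have e1 : ∀ t, 0 ≤ t → {x | cl a₁ a₂ (extT u (x, t)) = a} = {x | u (x, t) = a} := by
    intro t ht
    ext x
    simp only [mem_setOf_eq, cl_eq_iff h1 h2, extT_of_nonneg u x ht]
  have e2 : ∀ t, 0 ≤ t → {x | a < cl a₁ a₂ (extT u (x, t))} = {x | a < u (x, t)} := by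
    intro t ht
    ext x
    simp only [mem_setOf_eq, lt_cl_iff h1 h2, extT_of_nonneg u x ht]
  refine ⟨fun t ht => ?_, fun t ht => ?_, ?_⟩
  · rw [← e1 t ht]
    exact k1 t ht
  · rw [← e2 t ht, perimeter_eq]
    exact lt_top_iff_ne_top.2 (k2 t ht)
  · refine k3.congr fun t ht => ?_
    simp only [perimeter_eq, e2 t ht]

end Pool.Agent.MCF5
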