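import Pool.Agent.Lib.MP_5aed36_gt.FLevel

/-! Alignment of the Huber field of a sublevel set with the gradient. -/

open MeasureTheory Set Filter Topology Metric
open scoped ENNReal NNReal RealInnerProductSpace symmDiff

namespace Pool.Agent.MCF5

variable {N : ℕ}

/-- Centres of closed balls of radius `R` on which `v ≤ β`. -/
def qlS (v : Sp N → ℝ) (R β : ℝ) : Set (Sp N) := {z | ∀ w : Sp N, ‖w‖ ≤ R → v (z + w) ≤ β}

theorem ql_closed {v : Sp N → ℝ} (hv : Continuous v) (R β : ℝ) : IsClosed (qlS v R β) := by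
  have : qlS v R β = ⋂ w : Sp N, ⋂ _ : ‖w‖ ≤ R, {z | v (z + w) ≤ β} := by
    ext z; simp [qlS]
  rw [this]
  exact isClosed_iInter fun w => isClosed_iInter fun _ =>
    isClosed_le (hv.comp (by fun_prop)) continuous_const

/-- The potential. -/
noncomputable def qlQ (v : Sp N → ℝ) (R β : ℝ) (x : Sp N) : ℝ := fh_hub R (infDist x (qlS v R β))

theorem ql_lip (v : Sp N → ℝ) {R : ℝ} (hR : 0 < R) (β : ℝ) :
    LipschitzWith R.toNNReal (qlQ v R β) := fh_lip_q _ hR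

theorem ql_second (v : Sp N → ℝ) {R : ℝ} (hR : 0 < R) (β : ℝ) (x k : Sp N) :
    qlQ v R β (x + k) + qlQ v R β (x - k) - 2 * qlQ v R β x ≤ ‖k‖ ^ 2 := by
  rcases (qlS v R β).eq_empty_or_nonempty with h | h
  · simp only [qlQ, h, infDist_empty]
    nlinarith [sq_nonneg ‖k‖]
  · exact fh_second h hR x k

theorem ql_grad_le (v : Sp N → ℝ) {R : ℝ} (hR : 0 < R) (β : ℝ) (x : Sp N) :
    ‖gradient (qlQ v R β) x‖ ≤ R := by
  rw [fh_norm_gradient]
  have := norm_fderiv_le_of_lipschitz ℝ (x₀ := x) (ql_lip v hR β)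
  rwa [Real.coe_toNNReal _ hR.le] at this

theorem ql_gradient {S : Set (Sp N)} {R : ℝ} (hR : 0 < R) {x z : Sp N} (hz : z ∈ S)
    (hd : infDist x S = ‖x - z‖) (hle : ‖x - z‖ ≤ R)
    (hq : DifferentiableAt ℝ (fun y => fh_hub R (infDist y S)) x) :
    gradient (fun y => fh_hub R (infDist y S)) x = x - z := by
  have hmin : IsLocalMin (fun y => ‖y - z‖ ^ 2 / 2 - fh_hub R (infDist y S)) x := by
    refine Eventually.of_forall fun y => ?_
    have h1 : infDist y S ≤ ‖y - z‖ := by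
      rw [← dist_eq_norm]; exact infDist_le_dist_of_mem hz
    have h2 := (fh_hub_sub_le hR infDist_nonneg h1).1
    have h3 := fh_hub_le_quad (s := ‖y - z‖) hR (norm_nonneg _) le_rfl
    have h4 : fh_hub R (infDist x S) = ‖x - z‖ ^ 2 / 2 := by
      rw [hd]; unfold fh_hub; rw [if_pos hle]
    rw [div_self hR.ne'] at h3
    simp only [h4]
    nlinarith
  have h5 : HasFDerivAt (fun y : Sp N => ‖y - z‖ ^ 2 / 2) (innerSL ℝ (x - z)) x := by
    have := (((hasFDerivAt_id x).sub_const z).norm_sq).const_mul (1 / 2 : ℝ)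
    refine HasFDerivAt.congr_fderiv (this.congr_of_eventuallyEq
      (Eventually.of_forall fun y => by simp; ring)) ?_
    ext k
    simp
  have h6 := hmin.hasFDerivAt_eq_zero (h5.sub hq.hasFDerivAt)
  have h7 : fderiv ℝ (fun y => fh_hub R (infDist y S)) x = innerSL ℝ (x - z) :=
    (sub_eq_zero.1 h6).symm
  unfold gradient
  rw [h7]
  exact (InnerProductSpace.toDual ℝ (Sp N)).symm_apply_apply (x - z)

theorem ql_align {v : Sp N → ℝ} {c ρ γ : ℝ} (hv : Continuous v) (hc : 0 < c) (hρ : 0 < ρ)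
    (hγ : 0 < γ) (hup : NC c v) (hdown : NC c fun x => -v x) {x : Sp N}
    (hd : DifferentiableAt ℝ v x) (hx : ρ ≤ ‖fderiv ℝ v x‖) :
    ∃ δ : ℝ, 0 < δ ∧ ∀ β : ℝ, v x ≤ β → β ≤ v x + δ →
      DifferentiableAt ℝ (qlQ v (ρ / (4 * c)) β) x →
      ‖fderiv ℝ v x‖ * (ρ / (4 * c) - γ) ≤ fderiv ℝ v x (gradient (qlQ v (ρ / (4 * c)) β) x) := by
  set R : ℝ := ρ / (4 * c) with hR
  have hRpos : 0 < R := by positivity
  have hcR : 4 * c * R = ρ := by rw [hR]; field_simp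
  set n : ℝ := ‖fderiv ℝ v x‖ with hn
  have hnpos : 0 < n := hρ.trans_le hx
  obtain ⟨ν, hν, hν1⟩ : ∃ ν : Sp N, (∀ d, fderiv ℝ v x d = n * ⟪ν, d⟫) ∧ ‖ν‖ = 1 := by
    refine ⟨n⁻¹ • (InnerProductSpace.toDual ℝ (Sp N)).symm (fderiv ℝ v x), fun d => ?_, ?_⟩
    · rw [real_inner_smul_left, InnerProductSpace.toDual_symm_apply, ← mul_assoc,
        mul_inv_cancel₀ hnpos.ne', one_mul]
    · rw [norm_smul, LinearIsometryEquiv.norm_map, norm_inv, Real.norm_of_nonneg hnpos.le,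
        inv_mul_cancel₀ hnpos.ne']
  have houter : ∀ w : Sp N, ‖w‖ ≤ R → v (x - R • ν + w) ≤ v x := by
    intro w hw
    by_contra hlt
    push Not at hlt
    have h1 := fu_deriv_le hc hdown (x := x) (y := x - R • ν + w) hd.neg (by linarith)
    rw [fderiv_fun_neg, neg_apply, hν] at h1
    set d := x - R • ν + w - x with hd'
    have h2 : w = d + R • ν := by rw [hd']; abel
    have h3 : ‖d + R • ν‖ ^ 2 ≤ R ^ 2 := by
      rw [← h2]; exact pow_le_pow_left₀ (norm_nonneg _) hw 2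
    rw [norm_add_sq_real, real_inner_smul_right, norm_smul, hν1, Real.norm_of_nonneg hRpos.le,
      real_inner_comm] at h3
    have h4 : ‖d‖ ^ 2 ≤ 2 * R * -⟪ν, d⟫ := by nlinarith
    have h5 : 0 ≤ -⟪ν, d⟫ := by
      by_contra h
      push Not at h
      nlinarith [sq_nonneg ‖d‖]
    have h6 : ρ * -⟪ν, d⟫ ≤ n * -⟪ν, d⟫ := mul_le_mul_of_nonneg_right hx h5
    have h7 : c * ‖d‖ ^ 2 ≤ 0 := by nlinarith
    have h8 : ‖d‖ ^ 2 ≤ 0 := by
      by_contra h
      push Not at h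
      nlinarith [mul_pos hc h]
    have h9 : d = 0 := by simpa using h8
    have : x - R • ν + w = x := sub_eq_zero.1 (hd' ▸ h9)
    rw [this] at hlt
    exact lt_irrefl _ hlt
  set η : ℝ := γ * ρ / (8 * R) with hη
  have hηpos : 0 < η := by positivity
  have hηR : 8 * R * η = γ * ρ := by rw [hη]; field_simp
  have hev := (hasFDerivAt_iff_isLittleO_nhds_zero.1 hd.hasFDerivAt).def hηpos
  obtain ⟨s₁, hs₁, hball⟩ := Metric.nhds_basis_closedBall.eventually_iff.1 hev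
  set s₀ : ℝ := min s₁ γ with hs₀
  have hs₀pos : 0 < s₀ := lt_min hs₁ hγ
  refine ⟨η * s₀, by positivity, fun β h1 h2 hq => ?_⟩
  have hmem : x - R • ν ∈ qlS v R β := fun w hw => (houter w hw).trans h1
  obtain ⟨z, hz, hdz⟩ := (ql_closed hv R β).exists_infDist_eq_dist ⟨_, hmem⟩ x
  rw [dist_eq_norm] at hdz
  have hle : ‖x - z‖ ≤ R := by
    rw [← hdz]
    refine (infDist_le_dist_of_mem hmem).trans (le_of_eq ?_)
    rw [dist_eq_norm, sub_sub_cancel, norm_smul, hν1, Real.norm_of_nonneg hRpos.le, mul_one]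
  have hg : gradient (qlQ v R β) x = x - z := ql_gradient hRpos hz hdz hle hq
  rw [hg, hν]
  refine mul_le_mul_of_nonneg_left ?_ hnpos.le
  have hy : v (z + R • ν) ≤ β :=
    hz _ (by rw [norm_smul, hν1, Real.norm_of_nonneg hRpos.le, mul_one])
  set d := z + R • ν - x with hd'
  have e1 : d = R • ν - (x - z) := by rw [hd']; abel
  have hh : ⟪ν, d⟫ = R - ⟪ν, x - z⟫ := by
    rw [e1, inner_sub_right, real_inner_smul_right, real_inner_self_eq_norm_sq, hν1]; ring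
  have hd2 : ‖d‖ ^ 2 ≤ 2 * R * ⟪ν, d⟫ := by
    rw [hh, e1, norm_sub_sq_real, real_inner_smul_left, norm_smul, hν1,
      Real.norm_of_nonneg hRpos.le]
    nlinarith [pow_le_pow_left₀ (norm_nonneg _) hle 2]
  have hd3 : ‖d‖ ≤ 2 * R := by
    rw [e1]
    refine (norm_sub_le _ _).trans ?_
    rw [norm_smul, hν1, Real.norm_of_nonneg hRpos.le]
    linarith
  suffices H : ⟪ν, d⟫ ≤ γ by linarith
  rcases lt_or_ge ‖d‖ s₀ with hsm | hbig
  · have := real_inner_le_norm ν d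
    rw [hν1, one_mul] at this
    exact this.trans (hsm.le.trans (min_le_right _ _))
  · have hdpos : 0 < ‖d‖ := hs₀pos.trans_le hbig
    set θ : ℝ := s₀ / ‖d‖ with hθ
    have hθ0 : 0 < θ := by positivity
    have hθ1 : θ ≤ 1 := (div_le_one hdpos).2 hbig
    have hθd : θ * ‖d‖ = s₀ := by rw [hθ]; field_simp
    have hn1 : ‖θ • d‖ = s₀ := by rw [norm_smul, Real.norm_of_nonneg hθ0.le, hθd]
    have a1 := hup x (z + R • ν) θ hθ0.le hθ1
    rw [← hd'] at a1
    have a2 := hball (x := θ • d) (by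
      rw [mem_closedBall, dist_zero_right, hn1]; exact min_le_left _ _)
    rw [hn1, Real.norm_eq_abs, map_smul, hν, smul_eq_mul] at a2
    have a3 := (abs_le.1 a2).1
    have a4 : max (v x) (v (z + R • ν)) ≤ v x + η * s₀ := max_le (by nlinarith) (hy.trans h2)
    have a5 : c * (θ * (1 - θ)) * ‖d‖ ^ 2 ≤ θ * (c * ‖d‖ ^ 2) := by
      nlinarith [mul_nonneg (mul_nonneg hc.le (sq_nonneg θ)) (sq_nonneg ‖d‖)]
    have a6 : θ * (n * ⟪ν, d⟫) ≤ θ * (c * ‖d‖ ^ 2 + 2 * η * ‖d‖) := by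
      have : θ * (2 * η * ‖d‖) = 2 * (η * s₀) := by rw [← hθd]; ring
      rw [mul_add, this]
      linarith
    have a7 := le_of_mul_le_mul_left a6 hθ0
    have a8 : 0 ≤ ⟪ν, d⟫ := by
      by_contra h
      push Not at h
      nlinarith [sq_nonneg ‖d‖]
    have a9 : ρ * ⟪ν, d⟫ ≤ n * ⟪ν, d⟫ := mul_le_mul_of_nonneg_right hx a8
    have b1 : c * ‖d‖ ^ 2 ≤ c * (2 * R * ⟪ν, d⟫) := mul_le_mul_of_nonneg_left hd2 hc.le
    have b2 : 2 * η * ‖d‖ ≤ 2 * η * (2 * R) := mul_le_mul_of_nonneg_left hd3 (by positivity)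
    have b3 : c * (2 * R * ⟪ν, d⟫) = ρ * ⟪ν, d⟫ / 2 := by rw [← hcR]; ring
    have b4 : ρ * ⟪ν, d⟫ ≤ ρ * γ := by linarith
    exact le_of_mul_le_mul_left b4 hρ

end Pool.Agent.MCF5
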