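import Pool.Agent.Lib.MP_5aed36_gt.H39Field
import Pool.Agent.Lib.MP_5aed36_gt.FMain

/-! A chain of ramps over dyadic scales. -/

open MeasureTheory Set Filter Topology Metric
open scoped ENNReal NNReal RealInnerProductSpace symmDiff

namespace Pool.Agent.MCF5

variable {N : ℕ} {L : ℝ≥0} {R a₁ a c : ℝ} {w : Sp N → ℝ}

/-- The strip of width `σ` above the level `a`. -/
def qlW (w : Sp N → ℝ) (a σ : ℝ) : Set (Sp N) := {x | a < w x ∧ w x < a + σ}

theorem ql_W_meas (hw : Data L R a₁ w) (a σ : ℝ) : MeasurableSet (qlW w a σ) :=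
  ((isOpen_lt continuous_const hw.1.continuous).inter
    (isOpen_lt hw.1.continuous continuous_const)).measurableSet

theorem ql_W_fin (hw : Data L R a₁ w) (ha : a₁ ≤ a) (σ : ℝ) : volume (qlW w a σ) ≠ ∞ :=
  ne_top_of_le_ne_top measure_ball_lt_top.ne
    (measure_mono fun _ hx => fl_subset hw ha hx.1)

theorem ql_int_le {f : Sp N → ℝ} (hf : Integrable f) {S : Set (Sp N)} (hS : MeasurableSet S)
    (hfin : volume S ≠ ∞) (h1 : ∀ x, f x ≤ 1) (h0 : ∀ x, x ∉ S → f x ≤ 0) :
    ∫ x, f x ≤ volume.real S := by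
  rw [← integral_indicator_one hS]
  refine integral_mono hf ((integrable_indicator_iff hS).2 (integrableOn_const hfin)) fun x => ?_
  by_cases hx : x ∈ S
  · rw [indicator_of_mem hx]; exact h1 x
  · rw [indicator_of_notMem hx]; exact h0 x hx

theorem ql_step (hw : Data L R a₁ w) (ha : a₁ ≤ a) (hc : 0 < c) (hup : NC c w)
    (hdown : NC c fun x => -w x) {r b θ : ℝ} (hr : 0 < r) (hb : a ≤ b) (hθ : r ^ 2 / 16 ≤ θ)
    (hbθ : b + θ ≤ a + r ^ 2 / 4) :
    tv (fun x => flRamp b θ (w x)) ≤ tv (fun x => flRamp (a + r ^ 2 / 4) (3 * r ^ 2 / 4) (w x)) +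
      (4 * N * c + 32) * (volume.real (qlW w a (r ^ 2)) / r) := by
  have hr2 : 0 < r ^ 2 := by positivity
  have hθ0 : 0 < θ := lt_of_lt_of_le (by positivity) hθ
  have h3 : 0 < 3 * r ^ 2 / 4 := by positivity
  have hψ := fl_lipC_ramp (a := a + r ^ 2 / 4) hw (by linarith) h3
  have h := ql_lower (M := volume.real (qlW w a (r ^ 2))) hw.1 hc hr hθ0 hup hdown hψ
    (ql_W_fin hw (ha.trans hb) θ) fun b' δ h1 h2 h4 => by
      have hχ := fl_lipC_ramp (a := b') hw (by linarith) h2
      refine ⟨hχ, fun x => ?_, ql_int_le (hχ.integrable_zero.sub hψ.integrable_zero)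
        (ql_W_meas hw _ _) (ql_W_fin hw ha _) (fun x => ?_) fun x hx => ?_⟩
      · rcases le_total (w x) (a + r ^ 2 / 4) with h5 | h5
        · rw [fl_ramp_of_le h3 h5]; exact (fl_ramp_mem h2 _).1
        · rw [fl_ramp_of_ge h2 (by linarith)]; exact (fl_ramp_mem h3 _).2
      · simp only [Pi.sub_apply]
        linarith [(fl_ramp_mem (a := b') h2 (w x)).2,
          (fl_ramp_mem (a := a + r ^ 2 / 4) h3 (w x)).1]
      · simp only [Pi.sub_apply]
        rcases le_or_gt (w x) a with h5 | h5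
        · rw [fl_ramp_of_le h2 (by linarith)]
          linarith [(fl_ramp_mem (a := a + r ^ 2 / 4) h3 (w x)).1]
        · have h6 : a + r ^ 2 ≤ w x := by
            by_contra h7
            exact hx ⟨h5, not_le.1 h7⟩
          rw [fl_ramp_of_ge h3 (by linarith)]
          linarith [(fl_ramp_mem (a := b') h2 (w x)).2]
  have h7 : volume.real {x | b < w x ∧ w x < b + θ} ≤ volume.real (qlW w a (r ^ 2)) :=
    measureReal_mono (fun x hx => ⟨by linarith [hx.1], by linarith [hx.2]⟩) (ql_W_fin hw ha _)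
  have h8 : 2 * r / θ ≤ 32 / r := by
    rw [div_le_div_iff₀ hθ0 hr]; nlinarith
  have h9 := mul_le_mul h8 h7 measureReal_nonneg (by positivity)
  have e : (4 * N * c + 32) * (volume.real (qlW w a (r ^ 2)) / r) =
      4 * N * c / r * volume.real (qlW w a (r ^ 2)) + 32 / r * volume.real (qlW w a (r ^ 2)) := by
    ring
  linarith

theorem ql_top (hw : Data L R a₁ w) (ha : a₁ ≤ a) (hc : 0 < c) (hup : NC c w)
    (hdown : NC c fun x => -w x) {A : Set (Sp N)} (hA : MeasurableSet A)
    (hAb : Bornology.IsBounded A) (hP : perim A ≠ ∞) {r ρ : ℝ} (hr : 0 < r) (hρ : 0 < ρ) :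
    tv (fun x => flRamp (a + r ^ 2 / 4) (3 * r ^ 2 / 4) (w x)) ≤ (perim A).toReal +
      (2 * N * c / ρ + 8 * ρ / r ^ 2 + 4 * N * c / r) * volume.real ({x | a < w x} ∆ A) +
      (4 * N * c + 32) * (volume.real (qlW w a (r ^ 2)) / r) := by
  have hr2 : 0 < r ^ 2 := by positivity
  have h3 : 0 < 3 * r ^ 2 / 4 := by positivity
  set K : ℝ := 2 * N * c / ρ + 8 * ρ / r ^ 2 + 4 * N * c / r with hK
  have hK0 : 0 ≤ K := by positivity
  set D : ℝ := volume.real ({x | a < w x} ∆ A) with hD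
  set V : ℝ := volume.real (qlW w a (r ^ 2)) with hV
  refine fk_le_of_mul (c := K + 1) (by positivity) fun γ hγ => ?_
  obtain ⟨ψ, hψ, h01, htv, hbad⟩ := exists_moll hA hAb hP hγ
  have hE : Bornology.IsBounded {x | a < w x} := isBounded_ball.subset (fl_subset hw ha)
  obtain ⟨ψ', hψ', h01', h1, h0, htv'⟩ := up_modify (a := a) (σ := r ^ 2 / 4) hw.1 hc hup
    (by positivity) hρ hψ h01 (hE.subset fun x hx => hx.1)
  have hZm : MeasurableSet {x | ψ x ≠ A.indicator 1 x} :=
    (measurableSet_eq_fun hψ.continuous.measurable (measurable_one.indicator hA)).compl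
  have hZf : volume {x | ψ x ≠ A.indicator 1 x} ≠ ∞ :=
    ne_top_of_le_ne_top ENNReal.ofReal_ne_top hbad
  have hZ : volume.real {x | ψ x ≠ A.indicator 1 x} ≤ γ :=
    ENNReal.toReal_le_of_le_ofReal hγ.le hbad
  have hDm : MeasurableSet ({x | a < w x} ∆ A) := (fl_meas hw a).symmDiff hA
  have hDf : volume ({x | a < w x} ∆ A) ≠ ∞ := ne_top_of_le_ne_top
    (measure_union_ne_top hE.measure_lt_top.ne hAb.measure_lt_top.ne)
    (measure_mono symmDiff_subset_union)
  set S : Set (Sp N) := ({x | a < w x} ∆ A) ∪ {x | ψ x ≠ A.indicator 1 x} with hS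
  have hSf : volume S ≠ ∞ := measure_union_ne_top hDf hZf
  have hSle : volume.real S ≤ D + γ := (measureReal_union_le _ _).trans (by linarith)
  have hv1 : volume.real {x | a < w x ∧ ψ x < 1} ≤ D + γ := by
    refine (measureReal_mono (fun x hx => ?_) hSf).trans hSle
    by_cases hxA : x ∈ A
    · right
      have : A.indicator (1 : Sp N → ℝ) x = 1 := by rw [indicator_of_mem hxA]; rfl
      exact fun h => hx.2.ne (h.trans this)
    · exact Or.inl (Or.inl ⟨hx.1, hxA⟩)
  have h := ql_upper (b := a + r ^ 2 / 4) (M := D + γ + V) hw.1 hc hr h3 hup hdown hψ'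
    (ql_W_fin hw (by linarith) _) fun b' δ h4 h2 h5 => by
      have hχ := fl_lipC_ramp (a := b') hw (by linarith) h2
      refine ⟨hχ, fun x => ?_, (ql_int_le (hψ'.integrable_zero.sub hχ.integrable_zero)
        ((hDm.union hZm).union (ql_W_meas hw a (r ^ 2)))
        (measure_union_ne_top hSf (ql_W_fin hw ha _)) (fun x => ?_) fun x hx => ?_).trans ?_⟩
      · rcases le_total (w x) (a + r ^ 2 / 4) with h6 | h6
        · rw [fl_ramp_of_le h2 (by linarith)]; exact (h01' x).1
        · rw [h1 x h6]; exact (fl_ramp_mem h2 _).2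
      · have := (fl_ramp_mem (a := b') h2 (w x)).1
        have := (h01' x).2
        simp only [Pi.sub_apply]
        linarith
      · simp only [mem_union, not_or] at hx
        obtain ⟨⟨k1, k2⟩, k3⟩ := hx
        simp only [Pi.sub_apply]
        rcases le_or_gt (w x) a with h6 | h6
        · have hxA : x ∉ A := fun hxA => k1 (Or.inr ⟨hxA, not_lt.2 h6⟩)
          have k4 : ψ x = A.indicator 1 x := not_not.1 k2
          rw [h0 x fun h => absurd h.1 (not_lt.2 h6), k4, indicator_of_notMem hxA]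
          linarith [(fl_ramp_mem (a := b') h2 (w x)).1]
        · have h7 : a + r ^ 2 ≤ w x := by
            by_contra h8
            exact k3 ⟨h6, not_le.1 h8⟩
          rw [fl_ramp_of_ge h2 (by linarith)]
          linarith [(h01' x).2]
      · exact (measureReal_union_le _ _).trans (by linarith)
  have h7 : volume.real {x | a + r ^ 2 / 4 < w x ∧ w x < a + r ^ 2 / 4 + 3 * r ^ 2 / 4} ≤ V :=
    measureReal_mono (fun x hx => ⟨by linarith [hx.1], by linarith [hx.2]⟩) (ql_W_fin hw ha _)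
  have h8 : 2 * r / (3 * r ^ 2 / 4) ≤ 32 / r := by
    rw [div_le_div_iff₀ h3 hr]; nlinarith
  have h9 := mul_le_mul h8 h7 measureReal_nonneg (by positivity)
  have h10 := mul_le_mul_of_nonneg_left hv1
    (show 0 ≤ 2 * N * c / ρ + 2 * ρ / (r ^ 2 / 4) by positivity)
  have e1 : (4 * N * c + 32) * (V / r) = 4 * N * c / r * V + 32 / r * V := by ring
  have e2 : (2 * N * c / ρ + 2 * ρ / (r ^ 2 / 4)) * (D + γ) + 4 * N * c / r * (D + γ + V) =
      K * D + K * γ + 4 * N * c / r * V := by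
    rw [hK]; field_simp; ring
  linarith

theorem ql_static (hw : Data L R a₁ w) (ha : a₁ ≤ a) (hc : 0 < c) (hup : NC c w)
    (hdown : NC c fun x => -w x) {A : Set (Sp N)} (hA : MeasurableSet A)
    (hAb : Bornology.IsBounded A) (hP : perim A ≠ ∞) {r ρ θ : ℝ} (hr : 0 < r) (hρ : 0 < ρ)
    {J : ℝ → ℝ} (hJ0 : ∀ s, 0 < s → s ≤ r → 0 ≤ J s)
    (hJ : ∀ s, 0 < s → s ≤ r → J (s / 2) + volume.real (qlW w a (s ^ 2)) / s ≤ J s)
    (hθ : 0 < θ) (hθr : θ ≤ r ^ 2 / 4) :
    tv (fun x => flRamp a θ (w x)) ≤ (perim A).toReal +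
      (2 * N * c / ρ + 8 * ρ / r ^ 2 + 4 * N * c / r) * volume.real ({x | a < w x} ∆ A) +
      2 * (4 * N * c + 32) * J r := by
  have hC : 0 ≤ 4 * N * c + 32 := by positivity
  have hs : ∀ m : ℕ, 0 < r * (1 / 2) ^ m ∧ r * (1 / 2) ^ m ≤ r := fun m =>
    ⟨by positivity, mul_le_of_le_one_right hr.le (pow_le_one₀ (by norm_num) (by norm_num))⟩
  have hind : ∀ m : ℕ, tv (fun x => flRamp (a + (r * (1 / 2) ^ m) ^ 2 / 4)
      (3 * (r * (1 / 2) ^ m) ^ 2 / 4) (w x)) + (4 * N * c + 32) * J (r * (1 / 2) ^ m) ≤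
      tv (fun x => flRamp (a + r ^ 2 / 4) (3 * r ^ 2 / 4) (w x)) + (4 * N * c + 32) * J r := by
    intro m
    induction m with
    | zero => simp
    | succ m ih =>
      obtain ⟨h1, h2⟩ := hs m
      have e : r * (1 / 2) ^ (m + 1) = r * (1 / 2) ^ m / 2 := by ring
      rw [e]
      set s := r * (1 / 2) ^ m with hsd
      have h3 := ql_step (b := a + (s / 2) ^ 2 / 4) (θ := 3 * (s / 2) ^ 2 / 4) hw ha hc hup hdown h1
        (by nlinarith) (by nlinarith) (by nlinarith)
      have h4 := mul_le_mul_of_nonneg_left (hJ s h1 h2) hC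
      linarith
  obtain ⟨m, hm1, hm2⟩ := exists_nat_pow_near_of_lt_one (x := θ / (r ^ 2 / 4)) (y := (1 / 4 : ℝ))
    (by positivity) ((div_le_one (by positivity)).2 hθr) (by norm_num) (by norm_num)
  rw [lt_div_iff₀ (by positivity)] at hm1
  rw [div_le_iff₀ (by positivity)] at hm2
  have e : (r * (1 / 2) ^ m) ^ 2 = (1 / 4) ^ m * r ^ 2 := by
    rw [mul_pow, ← pow_mul, mul_comm m 2, pow_mul]; norm_num; ring
  obtain ⟨h1, h2⟩ := hs m
  have h3 := ql_step (b := a) (θ := θ) hw ha hc hup hdown h1 le_rfl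
    (by rw [e]; rw [pow_succ] at hm1; linarith) (by rw [e]; linarith)
  have h4 := hind m
  have h5 := ql_top hw ha hc hup hdown hA hAb hP hr hρ
  have h6 : volume.real (qlW w a ((r * (1 / 2) ^ m) ^ 2)) / (r * (1 / 2) ^ m) ≤
      J (r * (1 / 2) ^ m) := by
    linarith [hJ _ h1 h2, hJ0 (r * (1 / 2) ^ m / 2) (by positivity) (by linarith)]
  have h7 : volume.real (qlW w a (r ^ 2)) / r ≤ J r := by
    linarith [hJ _ hr le_rfl, hJ0 (r / 2) (by positivity) (by linarith)]
  have h8 := mul_le_mul_of_nonneg_left h6 hC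
  have h9 := mul_le_mul_of_nonneg_left h7 hC
  linarith

/-- The gauge given by the integral of the inverse square root. -/
theorem ql_gauge (hw : Data L R a₁ w) (ha : a₁ ≤ a) {r ε : ℝ} (hε : 0 ≤ ε)
    (h : ∫⁻ x in qlW w a (r ^ 2), ENNReal.ofReal (1 / √(w x - a)) ≤ ENNReal.ofReal ε) :
    ∃ J : ℝ → ℝ, (∀ s, 0 < s → s ≤ r → 0 ≤ J s ∧ J s ≤ 2 * ε) ∧
      ∀ s, 0 < s → s ≤ r → J (s / 2) + volume.real (qlW w a (s ^ 2)) / s ≤ J s := by
  set f : Sp N → ℝ := fun x => 1 / √(w x - a) with hf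
  have hf0 : ∀ x, 0 ≤ f x := fun x => by positivity
  have hfm : Measurable f := measurable_const.div
    (hw.1.continuous.measurable.sub_const a).sqrt
  have hi : IntegrableOn f (qlW w a (r ^ 2)) :=
    (lintegral_ofReal_ne_top_iff_integrable hfm.aestronglyMeasurable
      (Eventually.of_forall hf0)).1 (ne_top_of_le_ne_top ENNReal.ofReal_ne_top h)
  have hle : ∫ x in qlW w a (r ^ 2), f x ≤ ε := by
    rw [integral_eq_lintegral_of_nonneg_ae (Eventually.of_forall hf0) hfm.aestronglyMeasurable]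
    exact ENNReal.toReal_le_of_le_ofReal hε h
  have hsub : ∀ s s' : ℝ, 0 < s → s ≤ s' → qlW w a (s ^ 2) ⊆ qlW w a (s' ^ 2) :=
    fun s s' h0 h1 x hx => ⟨hx.1, by linarith [hx.2, pow_le_pow_left₀ h0.le h1 2]⟩
  have hlow : ∀ s : ℝ, 0 < s → ∀ x ∈ qlW w a (s ^ 2), 1 / s ≤ f x := by
    intro s h0 x hx
    have h1 : 0 < w x - a := by linarith [hx.1]
    exact one_div_le_one_div_of_le (Real.sqrt_pos.2 h1)
      (Real.sqrt_le_iff.2 ⟨h0.le, by linarith [hx.2]⟩)
  set g : ℝ → Sp N → ℝ := fun s => (qlW w a (s ^ 2)).indicator fun x => 2 * f x - 1 / s with hg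
  have hgi : ∀ s, 0 < s → s ≤ r → Integrable (g s) := fun s h0 h1 =>
    (integrable_indicator_iff (ql_W_meas hw _ _)).2
      (((hi.mono_set (hsub s r h0 h1)).const_mul 2).sub (integrableOn_const (ql_W_fin hw ha _)))
  refine ⟨fun s => ∫ x, g s x, fun s h0 h1 => ⟨integral_nonneg fun x => ?_, ?_⟩,
    fun s h0 h1 => ?_⟩
  · by_cases hx : x ∈ qlW w a (s ^ 2)
    · simp only [hg]
      rw [indicator_of_mem hx]
      have := hlow s h0 x hx
      have := hf0 x
      simp only [Pi.zero_apply]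
      linarith
    · simp only [hg]
      rw [indicator_of_notMem hx]
      exact le_rfl
  · have h2 : ∫ x, g s x ≤ ∫ x, (qlW w a (r ^ 2)).indicator (fun x => 2 * f x) x := by
      refine integral_mono (hgi s h0 h1)
        ((integrable_indicator_iff (ql_W_meas hw _ _)).2 (hi.const_mul 2)) fun x => ?_
      by_cases hx : x ∈ qlW w a (s ^ 2)
      · simp only [hg]
        rw [indicator_of_mem hx, indicator_of_mem (hsub s r h0 h1 hx)]
        have : 0 < 1 / s := by positivity
        linarith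
      · simp only [hg]
        rw [indicator_of_notMem hx]
        exact indicator_nonneg (fun y _ => by linarith [hf0 y]) x
    rw [integral_indicator (ql_W_meas hw a (r ^ 2)), integral_const_mul] at h2
    simp only
    linarith
  · have i1 := hgi (s / 2) (by positivity) (by linarith)
    have i2 : Integrable ((qlW w a (s ^ 2)).indicator fun _ => 1 / s) :=
      (integrable_indicator_iff (ql_W_meas hw _ _)).2 (integrableOn_const (ql_W_fin hw ha _))
    have e : volume.real (qlW w a (s ^ 2)) / s =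
        ∫ x, (qlW w a (s ^ 2)).indicator (fun _ => 1 / s) x := by
      rw [integral_indicator (ql_W_meas hw _ _), setIntegral_const, smul_eq_mul]; ring
    simp only
    rw [e, ← integral_add i1 i2]
    refine integral_mono (i1.add i2) (hgi s h0 h1) fun x => ?_
    simp only [hg]
    by_cases hx : x ∈ qlW w a (s ^ 2)
    · rw [indicator_of_mem hx, indicator_of_mem hx]
      by_cases hx' : x ∈ qlW w a ((s / 2) ^ 2)
      · rw [indicator_of_mem hx']
        have : 1 / (s / 2) = 1 / s + 1 / s := by field_simp; norm_num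
        linarith
      · rw [indicator_of_notMem hx']
        linarith [hlow s h0 x hx]
    · rw [indicator_of_notMem hx, indicator_of_notMem hx,
        indicator_of_notMem fun h' => hx (hsub (s / 2) s (by positivity) (by linarith) h')]
      simp

end Pool.Agent.MCF5
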