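import Pool.Agent.Lib.MP_5aed36_gt.H39Chain

/-! Continuity of the perimeter of one level at one time. -/

open MeasureTheory Set Filter Topology Metric
open scoped ENNReal NNReal RealInnerProductSpace symmDiff

namespace Pool.Agent.MCF5

variable {N : ℕ} {L : ℝ≥0} {R a₁ a₂ B C₀ c a : ℝ} {v : ℝ → Sp N → ℝ}

theorem ql_tv_le (hF : Flow L R a₁ a₂ B C₀ c v) (ha : a₁ ≤ a) {s θ : ℝ} (hs : 0 ≤ s)
    (hθ : 0 < θ) : tv (fun x => flRamp a θ (v s x)) ≤ B := by
  obtain ⟨κ, h1, h2, h3⟩ := hF.calib s hs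
  exact fl_tv_le (hF.data s) ha hθ h1 h2 fun ψ hψ ε hε => h3 a _ ψ ha (by linarith) hψ ε hε

theorem ql_level (hF : Flow L R a₁ a₂ B C₀ c v) (ha : a₁ ≤ a) :
    ∃ p : ℝ → ℝ, (∀ s, 0 ≤ s → 0 ≤ p s ∧ p s ≤ B) ∧
      (∀ s t lam : ℝ, 0 ≤ s → s ≤ t → 0 < lam →
        lam * volume.real ({x | a < v s x} ∆ {x | a < v t x}) + p t ≤
          C₀ * B * lam ^ 2 * (t - s) + p s) ∧
      (∀ s, 0 ≤ s → perim {x | a < v s x} ≤ ENNReal.ofReal (p s)) ∧
      (∀ s θ₀ r : ℝ, 0 ≤ s → 0 < θ₀ →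
        (∀ θ, 0 < θ → θ ≤ θ₀ → tv (fun x => flRamp a θ (v s x)) ≤ r) → p s ≤ r) := by
  have hex : ∀ s, 0 ≤ s → ∃ p ∈ Icc 0 B, Tendsto
      (fun k : ℕ => tv fun x => flRamp a (1 / ((k : ℝ) + 1)) (v s x)) (hyperfilter ℕ) (𝓝 p) := by
    intro s hs
    refine isCompact_Icc.ultrafilter_le_nhds (Ultrafilter.map
      (fun k : ℕ => tv fun x => flRamp a (1 / ((k : ℝ) + 1)) (v s x)) (hyperfilter ℕ)) ?_
    rw [le_principal_iff, Ultrafilter.coe_map, mem_map]
    exact univ_mem' fun k => ⟨tv_nonneg _, ql_tv_le hF ha hs (fl_th_pos k)⟩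
  choose! p hp hlim using hex
  have hper : ∀ s, 0 ≤ s → perim {x | a < v s x} ≤ ENNReal.ofReal (p s) := fun s hs =>
    perim_le_of_ramps (fl_meas (hF.data s) a) (fun k => fl_lipC_ramp (hF.data s) ha (fl_th_pos k))
      (fun k x => fl_ramp_mem (fl_th_pos k) _) (fl_ramp_tendsto a (v s))
      Nat.hyperfilter_le_atTop (hlim s hs)
  refine ⟨p, hp, fun s t lam hs hst hl => ?_, hper, fun s θ₀ r hs hθ₀ hr => ?_⟩
  · have h1 := ((fl_sd_tendsto (hF.data s) (hF.data t) ha).mono_left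
      Nat.hyperfilter_le_atTop).const_mul lam
    refine le_of_tendsto_of_tendsto' (h1.add (hlim t (hs.trans hst)))
      ((hlim s hs).const_add (C₀ * B * lam ^ 2 * (t - s))) fun k => ?_
    have hθ := fl_th_pos k
    set θ : ℝ := 1 / ((k : ℝ) + 1) with hθd
    have h2 := hF.diss s t a (a + θ) lam hs hst ha (by linarith) hl
    have h3 : ∫ x, |flRamp a θ (v t x) - flRamp a θ (v s x)| =
        θ⁻¹ * ∫ x, |cl a (a + θ) (v t x) - cl a (a + θ) (v s x)| := by
      rw [← integral_const_mul]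
      refine integral_congr_ae (Eventually.of_forall fun x => ?_)
      simp only [flRamp]
      rw [← mul_sub, abs_mul, abs_of_pos (inv_pos.2 hθ)]
      congr 2
      ring
    rw [h3, fl_tv_ramp (hF.data s) ha hθ, fl_tv_ramp (hF.data t) ha hθ]
    have h4 := mul_le_mul_of_nonneg_left h2 (inv_pos.2 hθ).le
    have h5 : θ⁻¹ * (C₀ * lam ^ 2 * (t - s) * (B * (a + θ - a))) = C₀ * B * lam ^ 2 * (t - s) := by
      field_simp
      ring
    rw [mul_add, mul_add, h5] at h4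
    linarith
  · have hev : ∀ᶠ k : ℕ in atTop, 1 / ((k : ℝ) + 1) < θ₀ :=
      tendsto_one_div_add_atTop_nhds_zero_nat.eventually (gt_mem_nhds hθ₀)
    exact le_of_tendsto (hlim s hs) ((hev.filter_mono Nat.hyperfilter_le_atTop).mono
      fun k hk => hr _ (fl_th_pos k) hk.le)

theorem ql_bound (hF : Flow L R a₁ a₂ B C₀ c v) (ha : a₁ ≤ a) {t : ℝ} (ht : 0 ≤ t) :
    perim {x | a < v t x} ≤ ENNReal.ofReal B := by
  obtain ⟨p, hp, -, hP, -⟩ := ql_level hF ha
  exact (hP t ht).trans (ENNReal.ofReal_le_ofReal (hp t ht).2)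

theorem ql_flow (hF : Flow L R a₁ a₂ B C₀ c v) (hc : 0 < c) (hB : 0 ≤ B) (hC : 0 ≤ C₀)
    (ha : a₁ ≤ a) {T κ j : ℝ} (hT : 0 ≤ T) (hκ : 0 < κ) (hj : 0 ≤ j)
    (h0 : ∃ K σ₀ : ℝ, 0 ≤ K ∧ 0 < σ₀ ∧ ∀ σ, 0 < σ → σ ≤ σ₀ → volume.real (qlW (v 0) a σ) ≤ K * σ)
    (hcond : 0 < T → ∃ᶠ s in 𝓝[<] T,
      ∫⁻ x in qlW (v s) a (κ * (T - s)), ENNReal.ofReal (1 / √(v s x - a)) ≤ ENNReal.ofReal j) :
    (∀ ε, 0 < ε → ∀ᶠ t in 𝓝[Ici 0] T, (perim {x | a < v t x}).toReal <
      (perim {x | a < v T x}).toReal + 4 * (4 * N * c + 32) * j + ε) ∧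
    ∀ ε, 0 < ε → ∀ᶠ t in 𝓝[Ici 0] T,
      (perim {x | a < v T x}).toReal - ε < (perim {x | a < v t x}).toReal := by
  obtain ⟨p, hp, hV, hP, hup⟩ := ql_level hF ha
  have hne : ∀ t, 0 ≤ t → perim {x | a < v t x} ≠ ∞ := fun t ht =>
    ne_top_of_le_ne_top ENNReal.ofReal_ne_top (hP t ht)
  have hfin : ∀ s, volume {x | a < v s x} ≠ ∞ := fun s =>
    ne_top_of_le_ne_top measure_ball_lt_top.ne (measure_mono (fl_subset (hF.data s) ha))
  have hsd : ∀ s t, volume ({x | a < v s x} ∆ {x | a < v t x}) ≠ ∞ :=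
    fun s t => ne_top_of_le_ne_top (measure_union_ne_top (hfin s) (hfin t))
      (measure_mono symmDiff_subset_union)
  set D : ℝ → ℝ → ℝ := fun s t => volume.real ({x | a < v s x} ∆ {x | a < v t x}) with hD
  set P : ℝ → ℝ := fun t => (perim {x | a < v t x}).toReal with hPd
  have hCB : 0 ≤ C₀ * B := mul_nonneg hC hB
  have hD0 : ∀ s t, 0 ≤ D s t := fun s t => measureReal_nonneg
  have htri : ∀ s t T, D s T ≤ D s t + D t T := fun s t T =>
    (measureReal_mono (symmDiff_triangle _ {x | a < v t x} _)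
      (measure_union_ne_top (hsd s t) (hsd t T))).trans (measureReal_union_le _ _)
  have hanti : ∀ {s t : ℝ}, 0 ≤ s → s ≤ t → p t ≤ p s := fun hs hst =>
    fk_anti (D := D) hCB hD0 hV hs hst
  have hPp : ∀ t, 0 ≤ t → P t ≤ p t := fun t ht =>
    ENNReal.toReal_le_of_le_ofReal (hp t ht).1 (hP t ht)
  have hstat : ∀ (s r ρ : ℝ) (J : ℝ → ℝ), 0 ≤ s → 0 < r → 0 < ρ → (∀ q, 0 < q → q ≤ r → 0 ≤ J q) →
      (∀ q, 0 < q → q ≤ r → J (q / 2) + volume.real (qlW (v s) a (q ^ 2)) / q ≤ J q) →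
      p s ≤ P T + (2 * N * c / ρ + 8 * ρ / r ^ 2 + 4 * N * c / r) * D s T +
        2 * (4 * N * c + 32) * J r := fun s r ρ J hs hr hρ h1 h2 =>
    hup s (r ^ 2 / 4) _ hs (by positivity) fun θ h3 h4 =>
      ql_static (hF.data s) ha hc (hF.ncUp s hs) (hF.ncDown s hs) (fl_meas (hF.data T) a)
        (isBounded_ball.subset (fl_subset (hF.data T) ha)) (hne T hT) hr hρ h1 h2 h3 h4
  have hC1 : 0 < 4 * N * c + 32 := by positivity
  have hCj : 0 ≤ 4 * (4 * N * c + 32) * j := by positivity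
  have hupper : ∀ ε, 0 < ε → ∀ᶠ t in 𝓝[Ici 0] T, P t < P T + 4 * (4 * N * c + 32) * j + ε := by
    intro ε hε
    rcases hT.eq_or_lt with h | h
    · subst h
      obtain ⟨K, σ₀, hK, hσ₀, hv0⟩ := h0
      have h1 : p 0 ≤ P 0 := by
        refine fk_le_of_mul (c := 2 * (4 * N * c + 32) * (2 * K)) (by positivity) fun μ hμ => ?_
        have hr : 0 < min μ √σ₀ := lt_min hμ (Real.sqrt_pos.2 hσ₀)
        have h2 := hstat 0 (min μ √σ₀) 1 (fun q => 2 * K * q) le_rfl hr one_pos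
          (fun q h3 _ => by positivity) fun q h3 h4 => by
            have h5 : q ^ 2 ≤ σ₀ := by
              have := pow_le_pow_left₀ h3.le (h4.trans (min_le_right _ _)) 2
              rwa [Real.sq_sqrt hσ₀.le] at this
            have h6 : volume.real (qlW (v 0) a (q ^ 2)) / q ≤ K * q := by
              rw [div_le_iff₀ h3]
              have := hv0 _ (by positivity) h5
              nlinarith
            linarith
        have h7 : D 0 0 = 0 := by simp [hD]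
        have h8 : 2 * (4 * N * c + 32) * (2 * K) * min μ √σ₀ ≤
            2 * (4 * N * c + 32) * (2 * K) * μ :=
          mul_le_mul_of_nonneg_left (min_le_left _ _) (by positivity)
        rw [h7, mul_zero, add_zero] at h2
        linarith
      filter_upwards [self_mem_nhdsWithin] with t ht
      linarith [hPp t ht, hanti le_rfl ht]
    · have hne' : (p '' Ico 0 T).Nonempty := ⟨p 0, 0, ⟨le_rfl, h⟩, rfl⟩
      have hbd : BddBelow (p '' Ico 0 T) := ⟨0, by
        rintro _ ⟨t, ht, rfl⟩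
        exact (hp t ht.1).1⟩
      set m := sInf (p '' Ico 0 T) with hm
      have hr : ∀ t, 0 ≤ t → t < T → m ≤ p t := fun t h0 h1 => csInf_le hbd ⟨t, ⟨h0, h1⟩, rfl⟩
      have hr' : ∀ e, 0 < e → ∃ s, 0 ≤ s ∧ s < T ∧ p s < m + e := by
        intro e he
        obtain ⟨_, ⟨s, hs, rfl⟩, h⟩ := exists_lt_of_csInf_lt hne' (show m < m + e by linarith)
        exact ⟨s, hs.1, hs.2, h⟩
      have hlow : m ≤ P T + 4 * (4 * N * c + 32) * j := by
        have hfr := hcond h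
        obtain ⟨k, hk, rfl⟩ : ∃ k : ℝ, 0 < k ∧ k ^ 2 = κ :=
          ⟨√κ, Real.sqrt_pos.2 hκ, Real.sq_sqrt hκ.le⟩
        set A : ℝ := 2 * N * c + 8 / k ^ 2 + 4 * N * c / k with hA
        have hA0 : 0 ≤ A := by positivity
        refine fk_le_of_mul (c := A * (C₀ * B + 1)) (by positivity) fun μ hμ => ?_
        obtain ⟨s₀, hs₀, hs₀T, hps₀⟩ := hr' (μ ^ 2) (by positivity)
        obtain ⟨s, hs, hss⟩ := (hfr.and_eventually (Ioo_mem_nhdsLT hs₀T)).exists
        have hs0 : 0 ≤ s := hs₀.trans hss.1.le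
        obtain ⟨q, hq, hqq⟩ : ∃ q : ℝ, 0 < q ∧ q ^ 2 = T - s :=
          ⟨√(T - s), Real.sqrt_pos.2 (by linarith [hss.2]), Real.sq_sqrt (by linarith [hss.2])⟩
        rw [← hqq, ← mul_pow] at hs
        obtain ⟨J, hJ1, hJ2⟩ := ql_gauge (hF.data s) ha hj hs
        have h1 := hstat s (k * q) q J hs0 (by positivity) hq (fun x h2 h3 => (hJ1 x h2 h3).1) hJ2
        have h2 := (hJ1 (k * q) (by positivity) le_rfl).2
        have e1 : 2 * N * c / q + 8 * q / (k * q) ^ 2 + 4 * N * c / (k * q) = A * q⁻¹ := by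
          rw [hA]; field_simp
        have h3 := fk_left (D := D) hCB hp htri hV hs0 hss.2 (lam := μ * q⁻¹) (by positivity) hr
        have e2 : C₀ * B * (μ * q⁻¹) ^ 2 * (T - s) = C₀ * B * μ ^ 2 := by
          rw [← hqq]; field_simp
        have h4 := hanti hs₀ hss.1.le
        have h5 : μ * (q⁻¹ * D s T) ≤ μ * ((C₀ * B + 1) * μ) := by
          rw [e2] at h3
          nlinarith
        have h6 := mul_le_mul_of_nonneg_left (le_of_mul_le_mul_left h5 hμ) hA0
        have h7 := hr s hs0 hss.2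
        have h8 := mul_le_mul_of_nonneg_left h2 hC1.le
        rw [e1] at h1
        nlinarith
      obtain ⟨s, hs0, hsT, hps⟩ := hr' ε hε
      filter_upwards [mem_nhdsWithin_of_mem_nhds (lt_mem_nhds hsT)] with t ht
      linarith [hPp t (hs0.trans ht.le), hanti hs0 ht.le]
  have hDlim : Tendsto (fun t => D t T) (𝓝[Ici 0] T) (𝓝 0) := by
    rw [Metric.tendsto_nhds]
    intro γ hγ
    obtain ⟨r, hr, h⟩ := fm_modulus hB hCB (half_pos hγ)
    filter_upwards [self_mem_nhdsWithin, mem_nhdsWithin_of_mem_nhds (ball_mem_nhds T hr)]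
      with t ht htr
    rw [mem_ball, Real.dist_eq, abs_lt] at htr
    rw [Real.dist_eq, sub_zero, abs_of_nonneg (hD0 _ _)]
    rcases le_total t T with h1 | h1
    · have := h (D t T) (p t) (p T) (T - t) (by linarith) (by linarith) (hp T hT).1 (hp t ht).2
        fun lam hl => hV t T lam ht h1 hl
      linarith
    · have := h (D T t) (p T) (p t) (t - T) (by linarith) (by linarith) (hp t ht).1 (hp T hT).2
        fun lam hl => hV T t lam hT h1 hl
      have e : D t T = D T t := by simp only [hD]; rw [symmDiff_comm]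
      linarith
  have hlower : ∀ ε, 0 < ε → ∀ᶠ t in 𝓝[Ici 0] T, P T - ε < P t := by
    intro ε hε
    by_contra hcon
    rw [not_eventually] at hcon
    have hfr := hcon.and_eventually (self_mem_nhdsWithin (a := T) (s := Ici 0))
    obtain ⟨t₀, ht₀, -⟩ := hfr.exists
    have hpos : 0 ≤ P T - ε := ENNReal.toReal_nonneg.trans (not_lt.1 ht₀)
    have : (𝓝[Ici 0] T ⊓ 𝓟 {t | ¬ P T - ε < P t ∧ t ∈ Ici (0 : ℝ)}).NeBot :=
      frequently_iff_neBot.1 hfr
    have h1 := perim_lsc (l := 𝓝[Ici 0] T ⊓ 𝓟 {t | ¬ P T - ε < P t ∧ t ∈ Ici (0 : ℝ)})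
      (A := fun t => {x | a < v t x}) (fun t => fl_meas (hF.data t) a) (fl_meas (hF.data T) a)
      (fun t => hsd t T) (hDlim.mono_left inf_le_left) (p := ENNReal.ofReal (P T - ε)) (by
        refine eventually_inf_principal.2 (Eventually.of_forall fun t ht => ?_)
        rw [← ENNReal.ofReal_toReal (hne t ht.2)]
        exact ENNReal.ofReal_le_ofReal (not_lt.1 ht.1))
    have h2 : P T ≤ P T - ε := ENNReal.toReal_le_of_le_ofReal hpos h1
    linarith
  exact ⟨hupper, hlower⟩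

end Pool.Agent.MCF5
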