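import Mathlib

/-! A power law for the volume of strips implies the integral condition. -/

open MeasureTheory Set Filter Topology
open scoped ENNReal

namespace Pool.Agent.MCF5

theorem ql_layer {X : Type*} [MeasurableSpace X] {μ : Measure X} {w : X → ℝ} (hw : Measurable w)
    {a σ K α : ℝ} (hσ : 0 < σ) (hK : 0 ≤ K) (hα : 1 / 2 < α)
    (hV : ∀ τ, 0 < τ → τ ≤ σ → μ {x | a < w x ∧ w x < a + τ} ≤ ENNReal.ofReal (K * τ ^ α)) :
    ∫⁻ x in {x | a < w x ∧ w x < a + σ}, ENNReal.ofReal (1 / √(w x - a)) ∂μ ≤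
      ENNReal.ofReal (2 * K * σ ^ (α - 1 / 2) * (1 - (4 : ℝ) ^ (1 / 2 - α))⁻¹) := by
  set q : ℝ := (4 : ℝ) ^ (1 / 2 - α) with hq
  have hq0 : 0 ≤ q := by positivity
  have hq1 : q < 1 := Real.rpow_lt_one_of_one_lt_of_neg (by norm_num) (by linarith)
  set S : ℕ → Set X := fun k => {x | a + σ / 4 ^ (k + 1) ≤ w x ∧ w x < a + σ / 4 ^ k} with hS
  have hcov : {x | a < w x ∧ w x < a + σ} ⊆ ⋃ k, S k := by
    intro x hx
    have h1 : 0 < w x - a := by linarith [hx.1]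
    have hex : ∃ k : ℕ, a + σ / 4 ^ (k + 1) ≤ w x := by
      obtain ⟨k, hk⟩ := pow_unbounded_of_one_lt (σ / (w x - a)) (show (1 : ℝ) < 4 by norm_num)
      refine ⟨k, ?_⟩
      have h2 : (4 : ℝ) ^ k ≤ 4 ^ (k + 1) := pow_le_pow_right₀ (by norm_num) (Nat.le_succ k)
      have h3 : σ / 4 ^ (k + 1) ≤ w x - a := by
        rw [div_le_iff₀ (by positivity)]
        rw [div_lt_iff₀ h1] at hk
        nlinarith
      linarith
    classical
    refine mem_iUnion.2 ⟨Nat.find hex, Nat.find_spec hex, ?_⟩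
    rcases h : Nat.find hex with _ | k
    · simpa using hx.2
    · exact not_le.1 (Nat.find_min hex (m := k) (by omega))
  have hone : ∀ k, ∫⁻ x in S k, ENNReal.ofReal (1 / √(w x - a)) ∂μ ≤
      ENNReal.ofReal (2 * K * σ ^ (α - 1 / 2) * q ^ k) := by
    intro k
    have hτ : 0 < σ / 4 ^ k := by positivity
    have hτ' : 0 < σ / 4 ^ (k + 1) := by positivity
    have hm : MeasurableSet (S k) :=
      (measurableSet_le measurable_const hw).inter (measurableSet_lt hw measurable_const)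
    have h1 : ∫⁻ x in S k, ENNReal.ofReal (1 / √(w x - a)) ∂μ ≤
        ∫⁻ _ in S k, ENNReal.ofReal (1 / √(σ / 4 ^ (k + 1))) ∂μ :=
      setLIntegral_mono' hm fun x hx => ENNReal.ofReal_le_ofReal
        (one_div_le_one_div_of_le (Real.sqrt_pos.2 hτ') (Real.sqrt_le_sqrt (by linarith [hx.1])))
    rw [setLIntegral_const] at h1
    have hsub : S k ⊆ {x | a < w x ∧ w x < a + σ / 4 ^ k} :=
      fun x hx => And.intro (by linarith [hx.1]) hx.2
    have h2 : μ (S k) ≤ ENNReal.ofReal (K * (σ / 4 ^ k) ^ α) :=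
      le_trans (measure_mono hsub) (hV _ hτ (div_le_self hσ.le (one_le_pow₀ (by norm_num))))
    refine h1.trans ((mul_le_mul_right h2 _).trans (le_of_eq ?_))
    rw [← ENNReal.ofReal_mul (by positivity)]
    congr 1
    have e1 : √(σ / 4 ^ (k + 1)) = (σ / 4 ^ k) ^ (1 / 2 : ℝ) / 2 := by
      rw [← Real.sqrt_eq_rpow, pow_succ, ← div_div, Real.sqrt_div hτ.le]
      congr 1
      rw [show (4 : ℝ) = 2 ^ 2 by norm_num, Real.sqrt_sq (by norm_num)]
    have e2 : (σ / 4 ^ k) ^ α = (σ / 4 ^ k) ^ (α - 1 / 2) * (σ / 4 ^ k) ^ (1 / 2 : ℝ) := by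
      rw [← Real.rpow_add hτ]; congr 1; ring
    have e3 : (σ / 4 ^ k) ^ (α - 1 / 2) = σ ^ (α - 1 / 2) * q ^ k := by
      rw [Real.div_rpow hσ.le (by positivity), hq, ← Real.rpow_natCast, ← Real.rpow_natCast,
        ← Real.rpow_mul (by norm_num), ← Real.rpow_mul (by norm_num), div_eq_mul_inv,
        ← Real.rpow_neg (by norm_num)]
      congr 2; ring
    have h3 : 0 < (σ / 4 ^ k) ^ (1 / 2 : ℝ) := by positivity
    rw [e1, e2, e3]
    field_simp
  calc _ ≤ ∫⁻ x in ⋃ k, S k, ENNReal.ofReal (1 / √(w x - a)) ∂μ := lintegral_mono_set hcov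
    _ ≤ ∑' k, ∫⁻ x in S k, ENNReal.ofReal (1 / √(w x - a)) ∂μ := lintegral_iUnion_le _ _
    _ ≤ ∑' k, ENNReal.ofReal (2 * K * σ ^ (α - 1 / 2) * q ^ k) := ENNReal.tsum_le_tsum hone
    _ = _ := by
      rw [← ENNReal.ofReal_tsum_of_nonneg (fun k => by positivity)
        ((summable_geometric_of_lt_one hq0 hq1).mul_left _), tsum_mul_left,
        tsum_geometric_of_lt_one hq0 hq1]

/-- A volume bound `K σ ^ α` with `α > 1 / 2` along times `s ↑ T` gives the integral condition. -/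
theorem ql_power {X : Type*} [MeasurableSpace X] {μ : Measure X} {w : ℝ → X → ℝ} {a T K α σ₀ : ℝ}
    (hK : 0 ≤ K) (hα : 1 / 2 < α) (hσ₀ : 0 < σ₀)
    (hV : ∃ᶠ s in 𝓝[<] T, Measurable (w s) ∧ ∀ τ, 0 < τ → τ ≤ σ₀ →
      μ {x | a < w s x ∧ w s x < a + τ} ≤ ENNReal.ofReal (K * τ ^ α)) {ε : ℝ} (hε : 0 < ε) :
    ∃ᶠ s in 𝓝[<] T, ∫⁻ x in {x | a < w s x ∧ w s x < a + 1 * (T - s)},
      ENNReal.ofReal (1 / √(w s x - a)) ∂μ ≤ ENNReal.ofReal ε := by
  have h1 : Tendsto (fun s : ℝ => 2 * K * (T - s) ^ (α - 1 / 2) * (1 - (4 : ℝ) ^ (1 / 2 - α))⁻¹)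
      (𝓝[<] T) (𝓝 (2 * K * (T - T) ^ (α - 1 / 2) * (1 - (4 : ℝ) ^ (1 / 2 - α))⁻¹)) := by
    refine Tendsto.mono_left (Continuous.tendsto ?_ T) nhdsWithin_le_nhds
    exact (continuous_const.mul ((continuous_const.sub continuous_id).rpow_const
      fun _ => Or.inr (by linarith))).mul continuous_const
  rw [sub_self, Real.zero_rpow (by linarith), mul_zero, zero_mul] at h1
  have h2 := h1.eventually (gt_mem_nhds hε)
  have h3 : ∀ᶠ s in 𝓝[<] T, s ∈ Ioo (T - σ₀) T := Ioo_mem_nhdsLT (by linarith)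
  refine (hV.and_eventually (h2.and h3)).mono fun s hs => ?_
  rw [one_mul]
  exact (ql_layer hs.1.1 (by linarith [hs.2.2.2]) hK hα fun τ h4 h5 =>
    hs.1.2 τ h4 (by linarith [hs.2.2.1])).trans (ENNReal.ofReal_le_ofReal hs.2.1.le)

end Pool.Agent.MCF5
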