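import Pool.Agent.Lib.MP_5aed36_gt.H39Align

/-! Comparison of a ramp with a competitor that lies on one side of it. -/

open MeasureTheory Set Filter Topology Metric
open scoped ENNReal NNReal RealInnerProductSpace symmDiff

namespace Pool.Agent.MCF5

variable {N : ℕ}

theorem ql_ae_ramp {v : Sp N → ℝ} {L : ℝ≥0} (hv : LipschitzWith L v) (b : ℝ) {δ : ℝ}
    (hδ : 0 < δ) : ∀ᵐ x, fderiv ℝ (fun y => flRamp b δ (v y)) x =
      {y | b < v y ∧ v y < b + δ}.indicator (fun y => δ⁻¹ • fderiv ℝ v y) x := by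
  have hl : LipschitzWith (1 * L) fun y => cl b (b + δ) (v y) := (lipschitz_cl _ _).comp hv
  filter_upwards [ae_fderiv_cl hv (a := b) (b := b + δ) (by linarith),
    hl.ae_differentiableAt (μ := volume)] with x h1 h2
  have h3 := ((h2.hasFDerivAt.add_const (-b)).const_mul δ⁻¹).fderiv
  have h4 : fderiv ℝ (fun y => flRamp b δ (v y)) x = _ := h3
  rw [h4, h1]
  by_cases hx : b < v x ∧ v x < b + δ
  · rw [if_pos hx, indicator_of_mem (by exact hx)]
  · rw [if_neg hx, indicator_of_notMem (by exact hx), smul_zero]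

theorem ql_window {v ψ : Sp N → ℝ} {L : ℝ≥0} {R b δ c₀ M : ℝ} (hv : LipschitzWith L v)
    (hR : 0 < R) (hδ : 0 < δ) (hψ : LipC ψ c₀) (hχ : LipC (fun x => flRamp b δ (v x)) c₀)
    (hle : ∀ x, flRamp b δ (v x) ≤ ψ x) (hM : ∫ x, (ψ x - flRamp b δ (v x)) ≤ M) (β : ℝ) :
    Integrable ({y | b < v y ∧ v y < b + δ}.indicator
      fun y => fderiv ℝ v y (gradient (qlQ v R β) y)) ∧
    ∫ x, {y | b < v y ∧ v y < b + δ}.indicator
      (fun y => fderiv ℝ v y (gradient (qlQ v R β) y)) x ≤ δ * (R * tv ψ + N * M) := by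
  have hq := ql_lip v hR β
  have hφ : LipC (fun x => ψ x - flRamp b δ (v x)) 0 := by simpa using hψ.sub hχ
  have h1 := field_lemma hq (ql_second v hR β) hφ fun x => sub_nonneg.2 (hle x)
  have i1 := A3_integrable_field hq hψ
  have i2 := A3_integrable_field hq hχ
  obtain ⟨⟨K, hK⟩, -⟩ := id hψ
  obtain ⟨⟨K', hK'⟩, -⟩ := id hχ
  have e1 : ∫ x, fderiv ℝ (fun y => ψ y - flRamp b δ (v y)) x (gradient (qlQ v R β) x) =
      (∫ x, fderiv ℝ ψ x (gradient (qlQ v R β) x)) -
        ∫ x, fderiv ℝ (fun y => flRamp b δ (v y)) x (gradient (qlQ v R β) x) := by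
    rw [← integral_sub i1 i2]
    refine integral_congr_ae ?_
    filter_upwards [hK.ae_differentiableAt (μ := volume), hK'.ae_differentiableAt (μ := volume)]
      with x a1 a2
    rw [fderiv_fun_sub a1 a2, sub_apply]
  have e2 : ∫ x, fderiv ℝ ψ x (gradient (qlQ v R β) x) ≤ R * tv ψ := by
    unfold tv
    rw [← integral_const_mul]
    refine integral_mono i1 (hψ.integrable_fderiv.const_mul R) fun x => ?_
    have a1 := (fderiv ℝ ψ x).le_opNorm (gradient (qlQ v R β) x)
    have a2 := mul_le_mul_of_nonneg_left (ql_grad_le v hR β x) (norm_nonneg (fderiv ℝ ψ x))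
    have a3 := le_abs_self (fderiv ℝ ψ x (gradient (qlQ v R β) x))
    rw [Real.norm_eq_abs] at a1
    simp only
    linarith
  have e3 : ({y | b < v y ∧ v y < b + δ}.indicator
      fun y => fderiv ℝ v y (gradient (qlQ v R β) y)) =ᵐ[volume]
      fun x => δ * fderiv ℝ (fun y => flRamp b δ (v y)) x (gradient (qlQ v R β) x) := by
    filter_upwards [ql_ae_ramp hv b hδ] with x hx
    rw [hx]
    by_cases h : x ∈ {y | b < v y ∧ v y < b + δ}
    · rw [indicator_of_mem h, indicator_of_mem h, smul_apply, smul_eq_mul, ← mul_assoc,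
        mul_inv_cancel₀ hδ.ne', one_mul]
    · rw [indicator_of_notMem h, indicator_of_notMem h]; simp
  refine ⟨(i2.const_mul δ).congr e3.symm, ?_⟩
  rw [integral_congr_ae e3, integral_const_mul]
  refine mul_le_mul_of_nonneg_left ?_ hδ.le
  have := mul_le_mul_of_nonneg_left hM (Nat.cast_nonneg (α := ℝ) N)
  linarith

theorem ql_upper {v ψ : Sp N → ℝ} {L : ℝ≥0} {c ρ b w c₀ M : ℝ} (hv : LipschitzWith L v)
    (hc : 0 < c) (hρ : 0 < ρ) (hw : 0 < w) (hup : NC c v) (hdown : NC c fun x => -v x)
    (hψ : LipC ψ c₀) (hfin : volume {x | b < v x ∧ v x < b + w} ≠ ∞)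
    (hχ : ∀ b' δ : ℝ, b ≤ b' → 0 < δ → b' + δ ≤ b + w → LipC (fun x => flRamp b' δ (v x)) c₀ ∧
      (∀ x, flRamp b' δ (v x) ≤ ψ x) ∧ ∫ x, (ψ x - flRamp b' δ (v x)) ≤ M) :
    tv (fun x => flRamp b w (v x)) ≤
      tv ψ + 4 * N * c / ρ * M + 2 * ρ / w * volume.real {x | b < v x ∧ v x < b + w} := by
  set R : ℝ := ρ / (4 * c) with hR
  have hRpos : 0 < R := by positivity
  set W : Set (Sp N) := {x | b < v x ∧ v x < b + w} with hW
  have hvc := hv.continuous
  have hWm : MeasurableSet W :=
    ((isOpen_lt continuous_const hvc).inter (isOpen_lt hvc continuous_const)).measurableSet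
  set δ : ℕ → ℝ := fun m => w / ((m : ℝ) + 1) with hδ
  have hδpos : ∀ m, 0 < δ m := fun m => by positivity
  have hδm : ∀ m : ℕ, ((m : ℝ) + 1) * δ m = w := fun m => by simp only [hδ]; field_simp
  set g : ℕ → ℕ → Sp N → ℝ := fun m i => {y | b + i * δ m < v y ∧ v y < b + i * δ m + δ m}.indicator
    fun y => fderiv ℝ v y (gradient (qlQ v R (b + i * δ m + δ m)) y) with hg
  have hgi : ∀ m, ∀ i ∈ Finset.range (m + 1),
      Integrable (g m i) ∧ ∫ x, g m i x ≤ δ m * (R * tv ψ + N * M) := by
    intro m i hi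
    have hi' : (i : ℝ) ≤ m := by exact_mod_cast Nat.lt_succ_iff.1 (Finset.mem_range.1 hi)
    obtain ⟨a1, a2, a3⟩ := hχ (b + i * δ m) (δ m)
      (by have := hδpos m; have : (0 : ℝ) ≤ i := Nat.cast_nonneg i; nlinarith) (hδpos m)
      (by have := hδpos m; have := hδm m; nlinarith)
    exact ql_window hv hRpos (hδpos m) hψ a1 a2 a3 _
  set G : ℕ → Sp N → ℝ := fun m x => ∑ i ∈ Finset.range (m + 1), g m i x with hG
  have hGi : ∀ m, Integrable (G m) := fun m =>
    integrable_finsetSum _ fun i hi => (hgi m i hi).1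
  have hGle : ∀ m, ∫ x, G m x ≤ w * (R * tv ψ + N * M) := by
    intro m
    simp only [hG]
    rw [integral_finsetSum _ fun i hi => (hgi m i hi).1]
    refine (Finset.sum_le_sum fun i hi => (hgi m i hi).2).trans (le_of_eq ?_)
    rw [Finset.sum_const, Finset.card_range, nsmul_eq_mul, ← mul_assoc, ← hδm m]
    push_cast
    ring
  have hcase : ∀ m x, (G m x = 0 ∧ (x ∈ W → ∃ i : ℕ, v x = b + i * δ m)) ∨
      (x ∈ W ∧ ∃ i : ℕ, b + i * δ m < v x ∧ v x < b + i * δ m + δ m ∧
        G m x = fderiv ℝ v x (gradient (qlQ v R (b + i * δ m + δ m)) x)) := by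
    intro m x
    have hp := hδpos m
    by_cases h : ∃ i ∈ Finset.range (m + 1), b + i * δ m < v x ∧ v x < b + i * δ m + δ m
    · obtain ⟨i, hi, h1, h2⟩ := h
      have hi' : (i : ℝ) ≤ m := by exact_mod_cast Nat.lt_succ_iff.1 (Finset.mem_range.1 hi)
      have hi0 : (0 : ℝ) ≤ i := Nat.cast_nonneg i
      refine Or.inr ⟨⟨by nlinarith, by have := hδm m; nlinarith⟩, i, h1, h2, ?_⟩
      simp only [hG]
      rw [Finset.sum_eq_single_of_mem i hi]
      · simp only [hg]
        rw [indicator_of_mem (by exact ⟨h1, h2⟩)]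
      · intro j _ hji
        simp only [hg]
        refine indicator_of_notMem (fun hj => hji ?_) _
        obtain ⟨k1, k2⟩ : b + j * δ m < v x ∧ v x < b + j * δ m + δ m := hj
        have l1 : (j : ℝ) < i + 1 := by
          by_contra hh
          push Not at hh
          nlinarith
        have l2 : (i : ℝ) < j + 1 := by
          by_contra hh
          push Not at hh
          nlinarith
        have l3 : j < i + 1 := by exact_mod_cast l1
        have l4 : i < j + 1 := by exact_mod_cast l2
        omega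
    · refine Or.inl ⟨Finset.sum_eq_zero fun i hi => ?_, fun hx => ?_⟩
      · simp only [hg]
        refine indicator_of_notMem (fun hj => h ⟨i, hi, ?_⟩) _
        exact hj
      · obtain ⟨k1, k2⟩ : b < v x ∧ v x < b + w := hx
        set i := ⌊(v x - b) / δ m⌋₊ with hi
        have a0 : 0 ≤ (v x - b) / δ m := div_nonneg (by linarith) hp.le
        have a1 : (i : ℝ) ≤ (v x - b) / δ m := Nat.floor_le a0
        have a2 : (v x - b) / δ m < i + 1 := Nat.lt_floor_add_one _
        rw [le_div_iff₀ hp] at a1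
        rw [div_lt_iff₀ hp] at a2
        refine ⟨i, ?_⟩
        by_contra hne
        refine h ⟨i, ?_, lt_of_le_of_ne (by linarith) (Ne.symm hne), by linarith⟩
        have a3 : (i : ℝ) < m + 1 := by
          have := hδm m
          by_contra hh
          push Not at hh
          nlinarith
        exact Finset.mem_range.2 (by exact_mod_cast a3)
  have hpair : ∀ β x, |fderiv ℝ v x (gradient (qlQ v R β) x)| ≤ ‖fderiv ℝ v x‖ * R := fun β x =>
    ((fderiv ℝ v x).le_opNorm _).trans
      (mul_le_mul_of_nonneg_left (ql_grad_le v hRpos β x) (norm_nonneg _))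
  have hDL : ∀ x, ‖fderiv ℝ v x‖ ≤ L := fun x => norm_fderiv_le_of_lipschitz ℝ hv
  set F : Sp N → ℝ := W.indicator fun x => R * ‖fderiv ℝ v x‖ - 2 * R * ρ with hF
  have iD : IntegrableOn (fun x => ‖fderiv ℝ v x‖) W :=
    Measure.integrableOn_of_bounded (M := L) hfin (measurable_fderiv ℝ v).norm.aestronglyMeasurable
      (Eventually.of_forall fun x => by rw [norm_norm]; exact hDL x)
  have iF : Integrable F := (integrable_indicator_iff hWm).2
    ((iD.const_mul R).sub (integrableOn_const hfin))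
  have hlim : Tendsto (fun m => ∫ x, max (F x - G m x) 0) atTop (𝓝 (∫ _ : Sp N, (0 : ℝ))) := by
    refine tendsto_integral_of_dominated_convergence (W.indicator fun _ => 2 * R * L)
      (fun m => ((iF.sub (hGi m)).pos_part).aestronglyMeasurable)
      ((integrable_indicator_iff hWm).2 (integrableOn_const hfin))
      (fun m => Eventually.of_forall fun x => ?_) ?_
    · rw [Real.norm_of_nonneg (le_max_right _ _)]
      by_cases hx : x ∈ W
      · have a1 : R * ‖fderiv ℝ v x‖ ≤ R * L := mul_le_mul_of_nonneg_left (hDL x) hRpos.le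
        have a2 : 0 ≤ R * L := by positivity
        have a3 : 0 ≤ R * ρ := by positivity
        simp only [hF]
        rw [indicator_of_mem hx, indicator_of_mem hx]
        refine max_le ?_ (by linarith)
        rcases hcase m x with ⟨h0, -⟩ | ⟨-, i, -, -, h0⟩
        · rw [h0]; linarith
        · rw [h0]
          have := (abs_le.1 (hpair (b + i * δ m + δ m) x)).1
          linarith
      · simp only [hF]
        rw [indicator_of_notMem hx, indicator_of_notMem hx]
        rcases hcase m x with ⟨h0, -⟩ | ⟨h0, -⟩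
        · rw [h0]; simp
        · exact absurd h0 hx
    · have z1 : ∀ᵐ x, ∀ p : ℕ × ℕ, v x = b + p.2 * δ p.1 → fderiv ℝ v x = 0 := by
        refine ae_all_iff.2 fun p => ?_
        filter_upwards [ae_fderiv_eq_of_eq hv (LipschitzWith.const (b + p.2 * δ p.1))] with x hx h
        simpa using hx h
      have z2 : ∀ᵐ x, ∀ p : ℕ × ℕ,
          DifferentiableAt ℝ (qlQ v R (b + p.2 * δ p.1 + δ p.1)) x :=
        ae_all_iff.2 fun p => (ql_lip v hRpos _).ae_differentiableAt
      filter_upwards [z1, z2, hv.ae_differentiableAt (μ := volume)] with x h1 h2 h3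
      refine tendsto_const_nhds.congr' ?_
      have a3 : 0 < R * ρ := by positivity
      by_cases hx : x ∈ W
      · have hFx : F x = R * ‖fderiv ℝ v x‖ - 2 * R * ρ := by
          simp only [hF]; rw [indicator_of_mem hx]
        rcases lt_or_ge ‖fderiv ℝ v x‖ ρ with hs | hb
        · refine Eventually.of_forall fun m => (max_eq_right ?_).symm
          have a1 := mul_le_mul_of_nonneg_left hs.le hRpos.le
          rcases hcase m x with ⟨h0, -⟩ | ⟨-, i, -, -, h0⟩
          · rw [h0, hFx]; linarith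
          · have := (abs_le.1 (hpair (b + i * δ m + δ m) x)).1
            rw [h0, hFx]; linarith
        · have hnpos : 0 < ‖fderiv ℝ v x‖ := hρ.trans_le hb
          obtain ⟨δ₀, hδ₀, hal⟩ := ql_align (γ := R * ρ / ‖fderiv ℝ v x‖) hvc hc hρ
            (by positivity) hup hdown h3 hb
          have hev : ∀ᶠ m : ℕ in atTop, δ m < δ₀ := by
            have := tendsto_one_div_add_atTop_nhds_zero_nat.const_mul w
            rw [mul_zero] at this
            filter_upwards [this.eventually (gt_mem_nhds hδ₀)] with m hm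
            simpa [hδ, div_eq_mul_inv] using hm
          filter_upwards [hev] with m hm
          refine (max_eq_right ?_).symm
          rcases hcase m x with ⟨-, h0⟩ | ⟨-, i, k1, k2, h0⟩
          · obtain ⟨i, hi⟩ := h0 hx
            rw [h1 (m, i) hi, norm_zero] at hnpos
            exact absurd hnpos (lt_irrefl _)
          · have a4 := hal _ k2.le (by linarith) (h2 (m, i))
            have a5 : ‖fderiv ℝ v x‖ * (R - R * ρ / ‖fderiv ℝ v x‖) =
                R * ‖fderiv ℝ v x‖ - R * ρ := by field_simp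
            rw [← hR, a5] at a4
            rw [h0, hFx]
            linarith
      · refine Eventually.of_forall fun m => (max_eq_right ?_).symm
        have hFx : F x = 0 := by simp only [hF]; rw [indicator_of_notMem hx]
        rcases hcase m x with ⟨h0, -⟩ | ⟨h0, -⟩
        · rw [h0, hFx]; simp
        · exact absurd h0 hx
  have hFle : ∫ x, F x ≤ w * (R * tv ψ + N * M) := by
    rw [integral_zero] at hlim
    have h1 := hlim.const_add (w * (R * tv ψ + N * M))
    rw [add_zero] at h1
    refine ge_of_tendsto' h1 fun m => ?_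
    have h2 : ∫ x, (F x - G m x) ≤ ∫ x, max (F x - G m x) 0 :=
      integral_mono (iF.sub (hGi m)) (iF.sub (hGi m)).pos_part fun x => le_max_left _ _
    rw [integral_sub iF (hGi m)] at h2
    linarith [hGle m]
  have hFeq : ∫ x, F x = R * (∫ x in W, ‖fderiv ℝ v x‖) - 2 * R * ρ * volume.real W := by
    simp only [hF]
    rw [integral_indicator hWm, integral_sub (iD.const_mul R) (integrableOn_const hfin),
      integral_const_mul, setIntegral_const, smul_eq_mul, mul_comm (volume.real W)]
  have htv : tv (fun x => flRamp b w (v x)) = w⁻¹ * ∫ x in W, ‖fderiv ℝ v x‖ := by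
    unfold tv
    rw [← integral_indicator hWm, ← integral_const_mul]
    refine integral_congr_ae ?_
    filter_upwards [ql_ae_ramp hv b hw] with x hx
    rw [hx]
    by_cases h : x ∈ W
    · rw [indicator_of_mem h, indicator_of_mem h, norm_smul, Real.norm_of_nonneg (by positivity)]
    · rw [indicator_of_notMem h, indicator_of_notMem h]; simp
  rw [htv, inv_mul_le_iff₀ hw]
  have e1 : 4 * N * c / ρ = N / R := by rw [hR]; field_simp
  have e2 : R * (w * (tv ψ + N / R * M + 2 * ρ / w * volume.real W)) =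
      w * (R * tv ψ + N * M) + 2 * R * ρ * volume.real W := by field_simp
  rw [e1]
  refine le_of_mul_le_mul_left ?_ hRpos
  rw [e2]
  linarith

theorem ql_ramp_neg {b δ : ℝ} (hδ : 0 < δ) (s : ℝ) :
    flRamp (-(b + δ)) δ (-s) = 1 - flRamp b δ s := by
  unfold flRamp
  have h := neg_cl (a := b) (b := b + δ) (by linarith) s
  have e : -(b + δ) + δ = -b := by ring
  rw [e, ← h]
  field_simp
  ring

theorem ql_lower {v ψ : Sp N → ℝ} {L : ℝ≥0} {c ρ b w M : ℝ} (hv : LipschitzWith L v)
    (hc : 0 < c) (hρ : 0 < ρ) (hw : 0 < w) (hup : NC c v) (hdown : NC c fun x => -v x)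
    (hψ : LipC ψ 0) (hfin : volume {x | b < v x ∧ v x < b + w} ≠ ∞)
    (hχ : ∀ b' δ : ℝ, b ≤ b' → 0 < δ → b' + δ ≤ b + w → LipC (fun x => flRamp b' δ (v x)) 0 ∧
      (∀ x, ψ x ≤ flRamp b' δ (v x)) ∧ ∫ x, (flRamp b' δ (v x) - ψ x) ≤ M) :
    tv (fun x => flRamp b w (v x)) ≤
      tv ψ + 4 * N * c / ρ * M + 2 * ρ / w * volume.real {x | b < v x ∧ v x < b + w} := by
  have hset : {x | -(b + w) < -v x ∧ -v x < -(b + w) + w} = {x | b < v x ∧ v x < b + w} := by
    ext x
    simp only [mem_ofPred_eq]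
    constructor <;> rintro ⟨h1, h2⟩ <;> constructor <;> linarith
  have htv : ∀ f : Sp N → ℝ, tv (fun x => 1 - f x) = tv f := fun f => by
    have h1 := tv_add_const (fun x => -f x) 1
    rw [tv_neg] at h1
    rw [← h1]
    congr 1
    funext x
    ring
  have hone : ∀ f : Sp N → ℝ, LipC f 0 → LipC (fun x => 1 - f x) 1 := fun f hf => by
    simpa using (LipC.const 1).sub hf
  have h := ql_upper (v := fun x => -v x) (ψ := fun x => 1 - ψ x) (b := -(b + w)) (w := w)
    (c₀ := 1) (M := M) hv.neg hc hρ hw hdown (by simpa using hup) (hone ψ hψ) (by rwa [hset])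
    (fun b' δ h1 h2 h3 => by
      obtain ⟨a1, a2, a3⟩ := hχ (-(b' + δ)) δ (by linarith) h2 (by linarith)
      have e : ∀ x, flRamp b' δ (-v x) = 1 - flRamp (-(b' + δ)) δ (v x) := fun x => by
        have := ql_ramp_neg (b := -(b' + δ)) h2 (v x)
        rwa [show -(-(b' + δ) + δ) = b' by ring] at this
      simp only [e]
      refine ⟨hone _ a1, fun x => by linarith [a2 x], ?_⟩
      simpa using a3)
  simp only [ql_ramp_neg hw, htv, hset] at h
  exact h

end Pool.Agent.MCF5
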