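import Pool.Agent.Lib.MP_5aed36_gt.H39Cont
import Pool.Agent.Lib.MP_5aed36_gt.Final

/-! The conclusion for one prescribed level. -/

open MeasureTheory Set Filter Topology Metric
open scoped ENNReal NNReal RealInnerProductSpace

namespace Pool.Agent.MCF5

open Pool.Agent.LevelSetFlow

variable {N : ℕ}

theorem ql_cl_eq {a₁ a₂ s : ℝ} (h1 : a₁ ≤ s) (h2 : s ≤ a₂) : cl a₁ a₂ s = s := by
  unfold cl
  rw [min_eq_left h2, max_eq_right h1]

theorem ql_strip {a₁ a₂ a σ s : ℝ} (h1 : a₁ < a) (h2 : a + σ ≤ a₂) :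
    (a < cl a₁ a₂ s ∧ cl a₁ a₂ s < a + σ) ↔ (a < s ∧ s < a + σ) := by
  constructor
  · rintro ⟨h3, h4⟩
    have h5 : s < a₂ := by
      by_contra h
      rw [fl_cl_of_ge (by linarith) (not_lt.1 h)] at h4
      linarith
    have h6 : a₁ < s := by
      by_contra h
      rw [cl_of_le (by linarith) (not_lt.1 h)] at h3
      linarith
    rw [ql_cl_eq h6.le h5.le] at h3 h4
    exact ⟨h3, h4⟩
  · rintro ⟨h3, h4⟩
    rw [ql_cl_eq (by linarith) (by linarith)]
    exact ⟨h3, h4⟩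

theorem ql_grad_lower {g : Sp N → ℝ} {R c a₁ a₂ : ℝ} (hg : ContDiff ℝ 2 g)
    (hout : ∀ x, R ≤ ‖x‖ → g x = c) (hc : c < a₁)
    (hreg : ∀ x, a₁ ≤ g x → g x ≤ a₂ → fderiv ℝ g x ≠ 0) :
    ∃ m : ℝ, 0 < m ∧ ∀ x, a₁ ≤ g x → g x ≤ a₂ → m ≤ ‖fderiv ℝ g x‖ := by
  have hK : IsCompact (closedBall (0 : Sp N) R ∩ g ⁻¹' Icc a₁ a₂) :=
    (isCompact_closedBall _ _).inter_right (isClosed_Icc.preimage hg.continuous)
  have hcont : Continuous fun x => ‖fderiv ℝ g x‖ := (hg.continuous_fderiv (by norm_num)).norm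
  have hmem : ∀ x, a₁ ≤ g x → g x ≤ a₂ → x ∈ closedBall (0 : Sp N) R ∩ g ⁻¹' Icc a₁ a₂ := by
    intro x h1 h2
    refine ⟨?_, h1, h2⟩
    rw [mem_closedBall_zero_iff]
    by_contra hh
    have := hout x (not_le.1 hh).le
    linarith
  rcases (closedBall (0 : Sp N) R ∩ g ⁻¹' Icc a₁ a₂).eq_empty_or_nonempty with h | h
  · refine ⟨1, one_pos, fun x h1 h2 => ?_⟩
    have := hmem x h1 h2
    rw [h] at this
    exact this.elim
  · obtain ⟨x₀, hx₀, hmin⟩ := hK.exists_isMinOn h hcont.continuousOn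
    exact ⟨_, norm_pos_iff.2 (hreg x₀ hx₀.2.1 hx₀.2.2), fun x h1 h2 => hmin (hmem x h1 h2)⟩

theorem ql_initial {w g : Sp N → ℝ} {L : ℝ≥0} {R a₁ a₂ a B m : ℝ} (hw : Data L R a₁ w)
    (hwg : ∀ x, w x = cl a₁ a₂ (g x)) (hg : Continuous g) (h1 : a₁ < a) (hm : 0 < m)
    (hlow : ∀ x, a₁ ≤ g x → g x ≤ a₂ → m ≤ ‖fderiv ℝ g x‖) {σ : ℝ} (hσ : 0 < σ)
    (h2 : a + σ ≤ a₂) (htv : tv (fun x => flRamp a σ (w x)) ≤ B) :
    volume.real (qlW w a σ) ≤ B / m * σ := by
  have hint := (fl_lipC_ramp hw h1.le hσ).integrable_norm_fderiv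
  have hS := ql_W_meas hw a σ
  have h3 : ∫ x, (qlW w a σ).indicator (fun _ => σ⁻¹ * m) x ≤ tv (fun x => flRamp a σ (w x)) := by
    refine integral_mono_ae
      ((integrable_indicator_iff hS).2 (integrableOn_const (ql_W_fin hw h1.le σ))) hint ?_
    filter_upwards [ql_ae_ramp hw.1 a hσ] with x hx
    by_cases hxS : x ∈ qlW w a σ
    · rw [indicator_of_mem hxS, hx, indicator_of_mem (by exact hxS), norm_smul,
        Real.norm_of_nonneg (inv_pos.2 hσ).le]
      have h4 : a < g x ∧ g x < a + σ := by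
        have := hxS
        simp only [qlW, mem_ofPred_eq, hwg] at this
        exact (ql_strip h1 h2).1 this
      have h5 : w =ᶠ[𝓝 x] g := by
        filter_upwards [hg.continuousAt.eventually (Ioo_mem_nhds h4.1 h4.2)] with y hy
        rw [hwg, ql_cl_eq (by linarith [hy.1]) (by linarith [hy.2])]
      rw [h5.fderiv_eq]
      exact mul_le_mul_of_nonneg_left (hlow x (by linarith [h4.1]) (by linarith [h4.2]))
        (inv_pos.2 hσ).le
    · rw [indicator_of_notMem hxS]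
      exact norm_nonneg _
  rw [integral_indicator hS, setIntegral_const, smul_eq_mul] at h3
  have h6 : volume.real (qlW w a σ) * (σ⁻¹ * m) ≤ B := h3.trans htv
  have h7 : volume.real (qlW w a σ) = volume.real (qlW w a σ) * (σ⁻¹ * m) * (σ / m) := by
    field_simp
  rw [h7]
  calc _ ≤ B * (σ / m) := mul_le_mul_of_nonneg_right h6 (by positivity)
    _ = B / m * σ := by ring

theorem ql_osc {l l' : Filter ℝ} {f I : ℝ → ℝ≥0∞} {B C T : ℝ} (hC : 0 < C)
    (hb : ∀ᶠ t in l, f t ≤ ENNReal.ofReal B)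
    (h : ∀ j, 0 ≤ j → (∃ᶠ s in l', I s ≤ ENNReal.ofReal j) →
      (∀ ε, 0 < ε → ∀ᶠ t in l, (f t).toReal < (f T).toReal + C * j + ε) ∧
      ∀ ε, 0 < ε → ∀ᶠ t in l, (f T).toReal - ε < (f t).toReal) :
    limsup f l < ⊤ ∧ limsup f l ≤ liminf f l + ENNReal.ofReal C * liminf I l' := by
  refine ⟨(limsup_le_of_le (by isBoundedDefault) hb).trans_lt ENNReal.ofReal_lt_top, ?_⟩
  by_cases hI : liminf I l' = ⊤
  · rw [hI, ENNReal.mul_top (ENNReal.ofReal_pos.2 hC).ne', add_top]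
    exact le_top
  refine ENNReal.le_of_forall_pos_le_add fun ε hε _ => ?_
  have hε' : (0 : ℝ) < ε := hε
  set i : ℝ := (liminf I l').toReal with hi
  have hi0 : 0 ≤ i := ENNReal.toReal_nonneg
  set δ : ℝ := ε / (C + 2) with hδ
  have hδ0 : 0 < δ := by positivity
  have hδ1 : (C + 2) * δ = ε := by rw [hδ]; field_simp
  have h1 : liminf I l' < ENNReal.ofReal (i + δ) := by
    rw [← ENNReal.ofReal_toReal hI]
    exact (ENNReal.ofReal_lt_ofReal_iff (by linarith)).2 (by linarith)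
  obtain ⟨h2, h3⟩ := h (i + δ) (by linarith)
    ((frequently_lt_of_liminf_lt (by isBoundedDefault) h1).mono fun s hs => hs.le)
  have h4 : limsup f l ≤ ENNReal.ofReal ((f T).toReal + C * (i + δ) + δ) := by
    refine limsup_le_of_le (by isBoundedDefault) ?_
    filter_upwards [hb, h2 δ hδ0] with t k1 k2
    rw [← ENNReal.ofReal_toReal (ne_top_of_le_ne_top ENNReal.ofReal_ne_top k1)]
    exact ENNReal.ofReal_le_ofReal k2.le
  have h5 : ENNReal.ofReal ((f T).toReal - δ) ≤ liminf f l := by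
    refine le_liminf_of_le (by isBoundedDefault) ?_
    filter_upwards [hb, h3 δ hδ0] with t k1 k2
    rw [← ENNReal.ofReal_toReal (ne_top_of_le_ne_top ENNReal.ofReal_ne_top k1)]
    exact ENNReal.ofReal_le_ofReal k2.le
  have e : (f T).toReal + C * (i + δ) + δ = ((f T).toReal - δ) + C * i + ε := by
    rw [← hδ1]; ring
  rw [e] at h4
  refine h4.trans (ENNReal.ofReal_add_le.trans (add_le_add (ENNReal.ofReal_add_le.trans
    (add_le_add h5 (le_of_eq ?_))) (le_of_eq ENNReal.ofReal_coe_nnreal)))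
  rw [ENNReal.ofReal_mul hC.le, hi, ENNReal.ofReal_toReal hI]

theorem window_one (hN : 0 < N) {u : Zs N → ℝ} {R c a₁ a₂ a : ℝ} (hu : IsWeakSolution u)
    (hout : ∀ x t, 0 ≤ t → R ≤ ‖x‖ → u (x, t) = c) (hg : ContDiff ℝ 2 fun x => u (x, 0))
    (hc : c < a₁) (h1 : a₁ < a) (h2 : a < a₂)
    (hreg : ∀ x, a₁ ≤ u (x, 0) → u (x, 0) ≤ a₂ → fderiv ℝ (fun y => u (y, 0)) x ≠ 0) :
    ∃ C : ℝ≥0, ∀ T κ : ℝ, 0 ≤ T → 0 < κ →
      limsup (fun t => perimeter {x | a < u (x, t)}) (𝓝[Ici 0] T) < ⊤ ∧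
      limsup (fun t => perimeter {x | a < u (x, t)}) (𝓝[Ici 0] T) ≤
        liminf (fun t => perimeter {x | a < u (x, t)}) (𝓝[Ici 0] T) +
          C * liminf (fun s => ∫⁻ x in {x | 0 ≤ s ∧ a < u (x, s) ∧ u (x, s) < a + κ * (T - s)},
            ENNReal.ofReal (1 / √(u (x, s) - a))) (𝓝[<] T) := by
  obtain ⟨M, hM⟩ := nice_extT hu hout
  obtain ⟨L, B, C₀, c', hB, hC, hc', hF⟩ := exists_flow (g := fun x => u (x, 0)) hN hM
    (sub_extT hu.sub) (sub_neg_extT hu.super) (fun z hz => extT_of_nonpos u z.1 hz) hg hc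
    (h1.trans h2) hreg
  obtain ⟨m, hm, hlow⟩ := ql_grad_lower hg (fun x hx => hout x 0 le_rfl hx) hc hreg
  have e2 : ∀ t, 0 ≤ t → perimeter {x | a < u (x, t)} =
      perim {x | a < cl a₁ a₂ (extT u (x, t))} := by
    intro t ht
    rw [perimeter_eq]
    congr 1
    ext x
    simp only [mem_ofPred_eq, lt_cl_iff h1 h2, extT_of_nonneg u x ht]
  have hC1 : 0 < 4 * (4 * N * c' + 32) := by positivity
  refine ⟨Real.toNNReal (4 * (4 * N * c' + 32)), fun T κ hT hκ => ?_⟩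
  refine ql_osc (B := B) (T := T) hC1 ?_ fun j hj hfr => ?_
  · filter_upwards [self_mem_nhdsWithin] with t ht
    rw [e2 t ht]
    exact ql_bound hF h1.le ht
  obtain ⟨k1, k2⟩ := ql_flow hF hc' hB hC h1.le hT hκ hj
    ⟨B / m, a₂ - a, by positivity, by linarith, fun σ h3 h4 =>
      ql_initial (g := fun x => u (x, 0)) (hF.data 0)
        (fun x => by rw [extT_of_nonneg u x le_rfl]) hg.continuous h1 hm hlow h3 (by linarith)
        (ql_tv_le hF h1.le le_rfl h3)⟩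
    fun h0 => by
      have hlt : max 0 (T - (a₂ - a) / κ) < T :=
        max_lt h0 (by linarith [div_pos (sub_pos.2 h2) hκ])
      refine (hfr.and_eventually (Ioo_mem_nhdsLT hlt)).mono fun s hs => ?_
      have hs0 : 0 ≤ s := (le_max_left _ _).trans hs.2.1.le
      have hs1 : a + κ * (T - s) ≤ a₂ := by
        have h5 : T - s ≤ (a₂ - a) / κ := by linarith [(le_max_right _ _).trans hs.2.1.le]
        rw [le_div_iff₀ hκ] at h5
        linarith
      have e3 : qlW (fun x => cl a₁ a₂ (extT u (x, s))) a (κ * (T - s)) =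
          {x | 0 ≤ s ∧ a < u (x, s) ∧ u (x, s) < a + κ * (T - s)} := by
        ext x
        simp only [qlW, mem_ofPred_eq, ql_strip h1 hs1, extT_of_nonneg u x hs0, hs0, true_and]
      refine le_trans (le_of_eq ?_) hs.1
      rw [← e3]
      refine setLIntegral_congr_fun (ql_W_meas (hF.data s) _ _) fun x hx => ?_
      rw [e3] at hx
      rw [extT_of_nonneg u x hs0, ql_cl_eq (by linarith [hx.2.1]) (by linarith [hx.2.2])]
  refine ⟨fun ε hε => ?_, fun ε hε => ?_⟩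
  · filter_upwards [self_mem_nhdsWithin, k1 ε hε] with t ht h
    rwa [e2 t ht, e2 T hT]
  · filter_upwards [self_mem_nhdsWithin, k2 ε hε] with t ht h
    rwa [e2 t ht, e2 T hT]

end Pool.Agent.MCF5
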